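import Mathlib

open MeasureTheory Complex
open scoped ComplexConjugate

namespace CH

/-- the circle `R / Z`, with its probability measure `volume` -/
abbrev T := UnitAddCircle

theorem haar_eq : (AddCircle.haarAddCircle : Measure T) = volume := by
  rw [AddCircle.volume_eq_smul_haarAddCircle]; simp

instance : IsProbabilityMeasure (volume : Measure T) := by
  rw [← haar_eq]; infer_instance

theorem int_haar {E : Type*} [NormedAddCommGroup E] [NormedSpace ℝ E] (F : T → E) :
    ∫ x, F x ∂(AddCircle.haarAddCircle : Measure T) = ∫ x, F x := by rw [haar_eq]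

theorem ae_haar {p : T → Prop} :
    (∀ᵐ x ∂(AddCircle.haarAddCircle : Measure T), p x) ↔ ∀ᵐ x, p x := by rw [haar_eq]

theorem memLp_haar {f : T → ℂ} {p : ENNReal} :
    MemLp f p (AddCircle.haarAddCircle : Measure T) ↔ MemLp f p volume := by rw [haar_eq]

/-- the exponential `e_n(x) = exp(2 pi i n x)` -/
noncomputable def e (n : ℤ) (x : T) : ℂ := fourier n x

/-- Fourier coefficient -/
noncomputable def cf (f : T → ℂ) (n : ℤ) : ℂ := ∫ x, f x * conj (e n x)

theorem cf_eq (f : T → ℂ) (n : ℤ) : cf f n = fourierCoeff f n := by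
  unfold cf fourierCoeff e
  rw [haar_eq]
  congr 1; ext x
  rw [fourier_neg, smul_eq_mul, mul_comm]

theorem e_continuous (n : ℤ) : Continuous (e n) := (fourier n).continuous

@[fun_prop]
theorem e_measurable (n : ℤ) : Measurable (e n) := (e_continuous n).measurable

@[simp] theorem norm_e (n : ℤ) (x : T) : ‖e n x‖ = 1 := by
  unfold e; rw [fourier_apply]; exact Circle.norm_coe _

@[simp] theorem e_zero (x : T) : e 0 x = 1 := by unfold e; simp

theorem e_add (m n : ℤ) (x : T) : e (m + n) x = e m x * e n x := by unfold e; exact fourier_add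

theorem conj_e (n : ℤ) (x : T) : conj (e n x) = e (-n) x := by unfold e; rw [fourier_neg]

theorem e_neg (n : ℤ) (x : T) : e (-n) x = conj (e n x) := (conj_e n x).symm

theorem e_mul_conj (n : ℤ) (x : T) : e n x * conj (e n x) = 1 := by
  rw [conj_e, ← e_add]; simp

theorem e_ne_zero (n : ℤ) (x : T) : e n x ≠ 0 := by
  intro h; have := norm_e n x; rw [h] at this; simp at this

theorem e_coe (n : ℤ) (x : ℝ) : e n (x : T) = exp (2 * Real.pi * I * n * x) := by
  unfold e; rw [fourier_coe_apply]; simp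

theorem e_add_arg (n : ℤ) (x y : T) : e n (x + y) = e n x * e n y := by
  unfold e; simp [fourier_apply, AddCircle.toCircle_add]

theorem e_memLp (n : ℤ) (p : ENNReal) : MemLp (e n) p volume :=
  MemLp.of_bound (e_continuous n).aestronglyMeasurable 1 (ae_of_all _ (by simp))

/-- square integrable functions -/
def L2 (f : T → ℂ) : Prop := MemLp f 2 volume

theorem L2.integrable {f : T → ℂ} (hf : L2 f) : Integrable f :=
  MemLp.integrable (by norm_num) hf

theorem L2.integrable_sq {f : T → ℂ} (hf : L2 f) : Integrable (fun x => ‖f x‖ ^ 2) :=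
  MemLp.integrable_norm_pow hf (by norm_num)

theorem L2.integrable_mul {f g : T → ℂ} (hf : L2 f) (hg : L2 g) :
    Integrable (fun x => f x * g x) :=
  MemLp.integrable_mul hf hg

theorem L2.conj {f : T → ℂ} (hf : L2 f) : L2 (fun x => conj (f x)) := by
  refine MemLp.of_le hf ?_ (ae_of_all _ fun x => by simp)
  exact Complex.continuous_conj.comp_aestronglyMeasurable hf.1

theorem L2.integrable_mul_conj {f g : T → ℂ} (hf : L2 f) (hg : L2 g) :
    Integrable (fun x => f x * conj (g x)) := hf.integrable_mul hg.conj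

theorem L2.add {f g : T → ℂ} (hf : L2 f) (hg : L2 g) : L2 (fun x => f x + g x) :=
  MemLp.add hf hg

theorem L2.sub {f g : T → ℂ} (hf : L2 f) (hg : L2 g) : L2 (fun x => f x - g x) :=
  MemLp.sub hf hg

theorem L2.const_mul {f : T → ℂ} (hf : L2 f) (c : ℂ) : L2 (fun x => c * f x) :=
  MemLp.const_mul hf c

theorem L2.neg {f : T → ℂ} (hf : L2 f) : L2 (fun x => - f x) := MemLp.neg hf

theorem L2.sum {ι : Type*} (s : Finset ι) {f : ι → T → ℂ} (hf : ∀ i ∈ s, L2 (f i)) :
    L2 (fun x => ∑ i ∈ s, f i x) := memLp_finsetSum s hf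

theorem L2.bdd_mul {u f : T → ℂ} (hf : L2 f) (hu : AEStronglyMeasurable u volume) (B : ℝ)
    (hB : ∀ᵐ x, ‖u x‖ ≤ B) : L2 (fun x => u x * f x) := by
  refine MemLp.of_le (g := fun x => (B : ℂ) * f x) (hf.const_mul B) (hu.mul hf.1) ?_
  filter_upwards [hB] with x hx
  simp only [norm_mul]
  gcongr
  rw [Complex.norm_real, Real.norm_eq_abs]
  exact hx.trans (le_abs_self _)

theorem L2.congr {f g : T → ℂ} (hf : L2 f) (h : f =ᵐ[volume] g) : L2 g := (memLp_congr_ae h).1 hf

/-- bounded measurable functions -/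
def BM (g : T → ℂ) : Prop := Measurable g ∧ ∃ B : ℝ, ∀ x, ‖g x‖ ≤ B

theorem BM.L2 {g : T → ℂ} (h : BM g) : L2 g := by
  obtain ⟨hm, B, hB⟩ := h
  exact MemLp.of_bound hm.aestronglyMeasurable B (ae_of_all _ hB)

theorem L2_e_mul {f : T → ℂ} (hf : L2 f) (n : ℤ) : L2 (fun x => e n x * f x) :=
  hf.bdd_mul (e_continuous n).aestronglyMeasurable 1 (ae_of_all _ (by simp))

theorem cf_congr {f g : T → ℂ} (h : f =ᵐ[volume] g) (n : ℤ) : cf f n = cf g n := by
  unfold cf
  refine integral_congr_ae ?_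
  filter_upwards [h] with x hx
  rw [hx]

theorem integrable_mul_conj_e {f : T → ℂ} (hf : Integrable f) (n : ℤ) :
    Integrable (fun x => f x * conj (e n x)) := by
  have := hf.bdd_mul (c := 1) (f := fun x => conj (e n x))
    (Complex.continuous_conj.comp (e_continuous n)).aestronglyMeasurable
    (ae_of_all _ fun x => by simp)
  refine this.congr (ae_of_all _ fun x => ?_)
  simp [mul_comm]

theorem cf_add {f g : T → ℂ} (hf : Integrable f) (hg : Integrable g) (n : ℤ) :
    cf (fun x => f x + g x) n = cf f n + cf g n := by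
  unfold cf
  rw [← integral_add (integrable_mul_conj_e hf n) (integrable_mul_conj_e hg n)]
  congr 1; ext x; ring

theorem cf_sub {f g : T → ℂ} (hf : Integrable f) (hg : Integrable g) (n : ℤ) :
    cf (fun x => f x - g x) n = cf f n - cf g n := by
  unfold cf
  rw [← integral_sub (integrable_mul_conj_e hf n) (integrable_mul_conj_e hg n)]
  congr 1; ext x; ring

theorem cf_const_mul (c : ℂ) (f : T → ℂ) (n : ℤ) : cf (fun x => c * f x) n = c * cf f n := by
  unfold cf
  rw [← integral_const_mul]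
  congr 1; ext x; ring

theorem cf_neg (f : T → ℂ) (n : ℤ) : cf (fun x => - f x) n = - cf f n := by
  have := cf_const_mul (-1) f n
  simpa using this

theorem cf_sum {ι : Type*} (s : Finset ι) (f : ι → T → ℂ) (hf : ∀ i ∈ s, Integrable (f i))
    (n : ℤ) : cf (fun x => ∑ i ∈ s, f i x) n = ∑ i ∈ s, cf (f i) n := by
  unfold cf
  rw [← integral_finsetSum s (fun i hi => integrable_mul_conj_e (hf i hi) n)]
  congr 1; ext x; rw [Finset.sum_mul]

theorem cf_e_mul (m : ℤ) (f : T → ℂ) (n : ℤ) : cf (fun x => e m x * f x) n = cf f (n - m) := by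
  unfold cf
  congr 1; ext x
  rw [conj_e, conj_e, show -(n - m) = m + (-n) by ring, e_add]; ring

theorem cf_conj (f : T → ℂ) (n : ℤ) : cf (fun x => conj (f x)) n = conj (cf f (-n)) := by
  unfold cf
  rw [← integral_conj]
  congr 1; ext x
  rw [map_mul, Complex.conj_conj, conj_e]

theorem cf_zero (n : ℤ) : cf (fun _ => 0) n = 0 := by unfold cf; simp

theorem integral_e (n : ℤ) : ∫ x, e n x = if n = 0 then 1 else 0 := by
  have h := congrFun (fourierCoeff_fourier (T := (1 : ℝ)) n) 0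
  rw [← cf_eq] at h
  unfold cf at h
  simp only [e_zero, map_one, mul_one] at h
  have h2 : ∫ x, e n x = ∫ x : T, (fourier n : T → ℂ) x := rfl
  rw [h2, h]
  by_cases hn : n = 0
  · subst hn; simp
  · simp [hn, Ne.symm hn]

theorem cf_e (m n : ℤ) : cf (e m) n = if n = m then 1 else 0 := by
  unfold cf
  have : ∀ x, e m x * conj (e n x) = e (m - n) x := fun x => by
    rw [conj_e, ← e_add, sub_eq_add_neg]
  simp_rw [this, integral_e]
  by_cases h : n = m
  · simp [h]
  · simp [h, sub_eq_zero, Ne.symm h]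

theorem norm_cf_le {f : T → ℂ} (n : ℤ) : ‖cf f n‖ ≤ ∫ x, ‖f x‖ := by
  unfold cf
  refine (norm_integral_le_integral_norm _).trans (le_of_eq ?_)
  congr 1; ext x; simp

/-- the element of `Lp` over the Haar measure attached to an `L2` function -/
noncomputable def toH (f : T → ℂ) (hf : L2 f) : Lp ℂ 2 (AddCircle.haarAddCircle (T := (1 : ℝ))) :=
  MemLp.toLp f (memLp_haar.2 hf)

theorem toH_coe (f : T → ℂ) (hf : L2 f) : (toH f hf : T → ℂ) =ᵐ[volume] f :=
  ae_haar.1 (MemLp.coeFn_toLp (memLp_haar.2 hf))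

theorem L2_of_H (G : Lp ℂ 2 (AddCircle.haarAddCircle (T := (1 : ℝ)))) :
    L2 (G : T → ℂ) := memLp_haar.1 (Lp.memLp G)

theorem repr_toH (f : T → ℂ) (hf : L2 f) (n : ℤ) : fourierBasis.repr (toH f hf) n = cf f n := by
  rw [fourierBasis_repr, ← cf_eq]
  exact cf_congr (toH_coe f hf) n

/-- Parseval -/
theorem parseval {f g : T → ℂ} (hf : L2 f) (hg : L2 g) :
    HasSum (fun n : ℤ => cf f n * conj (cf g n)) (∫ x, f x * conj (g x)) := by
  have h := fourierBasis.hasSum_inner_mul_inner (toH g hg) (toH f hf)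
  have h1 : inner ℂ (toH g hg) (toH f hf) = ∫ x, f x * conj (g x) := by
    rw [MeasureTheory.L2.inner_def]
    have e1 := toH_coe f hf
    have e2 := toH_coe g hg
    rw [int_haar]
    refine integral_congr_ae ?_
    filter_upwards [e1, e2] with x h1 h2
    rw [h1, h2]; simp
  rw [h1] at h
  have h2 : (fun i => inner ℂ (toH g hg) (fourierBasis i) * inner ℂ (fourierBasis i) (toH f hf))
      = fun n : ℤ => cf f n * conj (cf g n) := by
    funext n
    rw [← fourierBasis.repr_apply_apply, repr_toH]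
    rw [← inner_conj_symm, ← fourierBasis.repr_apply_apply, repr_toH]
    ring
  rw [h2] at h
  exact h

theorem parseval_sq {f : T → ℂ} (hf : L2 f) :
    HasSum (fun n : ℤ => ‖cf f n‖ ^ 2) (∫ x, ‖f x‖ ^ 2) := by
  have h := parseval hf hf
  have h1 : ∀ n, cf f n * conj (cf f n) = ((‖cf f n‖ ^ 2 : ℝ) : ℂ) := fun n => by
    rw [Complex.mul_conj, Complex.normSq_eq_norm_sq]
  have h2 : ∫ x, f x * conj (f x) = ((∫ x, ‖f x‖ ^ 2 : ℝ) : ℂ) := by
    rw [← integral_complex_ofReal]
    congr 1; ext x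
    rw [Complex.mul_conj, Complex.normSq_eq_norm_sq]
  simp_rw [h1] at h
  rw [h2] at h
  exact (Complex.hasSum_ofReal).1 h

/-- an `L2` function is determined by its coefficients -/
theorem ext_cf {f g : T → ℂ} (hf : L2 f) (hg : L2 g) (h : ∀ n, cf f n = cf g n) :
    f =ᵐ[volume] g := by
  have : toH f hf = toH g hg := by
    apply fourierBasis.repr.injective
    ext n
    rw [repr_toH, repr_toH, h n]
  have e1 := toH_coe f hf
  have e2 := toH_coe g hg
  rw [this] at e1
  exact e1.symm.trans e2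

/-- Riesz-Fischer -/
theorem exists_of_summable (a : ℤ → ℂ) (ha : Summable fun n => ‖a n‖ ^ 2) :
    ∃ f : T → ℂ, L2 f ∧ Measurable f ∧ ∀ n, cf f n = a n := by
  have hm : Memℓp a 2 := by
    rw [memℓp_gen_iff (by norm_num)]
    simpa using ha
  let A : lp (fun _ : ℤ => ℂ) 2 := ⟨a, hm⟩
  let G := (fourierBasis (T := (1 : ℝ))).repr.symm A
  have hG : L2 (G : T → ℂ) := L2_of_H G
  obtain ⟨f, hf1, hf2⟩ := hG.1.aemeasurable
  refine ⟨f, hG.congr hf2, hf1, fun n => ?_⟩
  rw [← cf_congr hf2 n, cf_eq, ← fourierBasis_repr]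
  simp [G, A]

/-- Cauchy-Schwarz -/
theorem cs {f g : T → ℂ} (hf : L2 f) (hg : L2 g) :
    ∫ x, ‖f x‖ * ‖g x‖ ≤ Real.sqrt (∫ x, ‖f x‖ ^ 2) * Real.sqrt (∫ x, ‖g x‖ ^ 2) := by
  have h := integral_mul_le_Lp_mul_Lq_of_nonneg (μ := (volume : Measure T))
    (f := fun x => ‖f x‖) (g := fun x => ‖g x‖) (p := 2) (q := 2)
    (by norm_num [Real.holderConjugate_iff])
    (ae_of_all _ fun x => norm_nonneg _) (ae_of_all _ fun x => norm_nonneg _)
    (by simpa using hf.norm) (by simpa using hg.norm)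
  simp only [Real.sqrt_eq_rpow]
  simpa using h

theorem norm_integral_mul_le {f g : T → ℂ} (hf : L2 f) (hg : L2 g) :
    ‖∫ x, f x * g x‖ ≤ Real.sqrt (∫ x, ‖f x‖ ^ 2) * Real.sqrt (∫ x, ‖g x‖ ^ 2) := by
  refine (norm_integral_le_integral_norm _).trans ?_
  simp_rw [norm_mul]
  exact cs hf hg

theorem norm_integral_mul_conj_le {f g : T → ℂ} (hf : L2 f) (hg : L2 g) :
    ‖∫ x, f x * conj (g x)‖ ≤ Real.sqrt (∫ x, ‖f x‖ ^ 2) * Real.sqrt (∫ x, ‖g x‖ ^ 2) := by
  have := norm_integral_mul_le hf hg.conj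
  simpa using this

theorem int_norm_le {f : T → ℂ} (hf : L2 f) : ∫ x, ‖f x‖ ≤ Real.sqrt (∫ x, ‖f x‖ ^ 2) := by
  have h1 : L2 (fun _ : T => (1 : ℂ)) := memLp_const 1
  have := cs hf h1
  simpa using this

/-- the Riesz projection on `L2` -/
noncomputable def Pp (f : T → ℂ) : T → ℂ := by
  classical
  exact if h : Summable fun n : ℤ => ‖(if 0 ≤ n then cf f n else 0)‖ ^ 2 then
    Classical.choose (exists_of_summable _ h) else 0

theorem summable_Pp {f : T → ℂ} (hf : L2 f) :
    Summable fun n : ℤ => ‖(if 0 ≤ n then cf f n else 0)‖ ^ 2 := by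
  refine Summable.of_nonneg_of_le (fun n => by positivity) (fun n => ?_) (parseval_sq hf).summable
  split_ifs with h
  · exact le_rfl
  · simp

theorem Pp_spec {f : T → ℂ} (hf : L2 f) :
    L2 (Pp f) ∧ Measurable (Pp f) ∧ ∀ n, cf (Pp f) n = if 0 ≤ n then cf f n else 0 := by
  unfold Pp
  rw [dif_pos (summable_Pp hf)]
  exact Classical.choose_spec (exists_of_summable _ (summable_Pp hf))

theorem Pp_L2 (f : T → ℂ) : L2 (Pp f) := by
  unfold Pp
  split_ifs with h
  · exact (Classical.choose_spec (exists_of_summable _ h)).1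
  · exact MemLp.zero

@[fun_prop]
theorem Pp_measurable (f : T → ℂ) : Measurable (Pp f) := by
  unfold Pp
  split_ifs with h
  · exact (Classical.choose_spec (exists_of_summable _ h)).2.1
  · exact measurable_const

theorem cf_Pp {f : T → ℂ} (hf : L2 f) (n : ℤ) : cf (Pp f) n = if 0 ≤ n then cf f n else 0 :=
  (Pp_spec hf).2.2 n

/-- analytic functions in `L2` -/
def An (f : T → ℂ) : Prop := L2 f ∧ ∀ n : ℤ, n < 0 → cf f n = 0

/-- analytic functions with vanishing mean in `L2` -/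
def An0 (f : T → ℂ) : Prop := L2 f ∧ ∀ n : ℤ, n ≤ 0 → cf f n = 0

theorem An_Pp {f : T → ℂ} (hf : L2 f) : An (Pp f) := by
  refine ⟨Pp_L2 f, fun n hn => ?_⟩
  rw [cf_Pp hf, if_neg (by omega)]

theorem Pp_of_An {f : T → ℂ} (hf : An f) : Pp f =ᵐ[volume] f := by
  refine ext_cf (Pp_L2 f) hf.1 fun n => ?_
  rw [cf_Pp hf.1]
  split_ifs with h
  · rfl
  · rw [hf.2 n (by omega)]

theorem integral_Pp_mul_conj {f g : T → ℂ} (hf : L2 f) (hg : L2 g) :
    ∫ x, Pp f x * conj (g x) = ∫ x, f x * conj (Pp g x) := by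
  have h1 := parseval (Pp_L2 f) hg
  have h2 := parseval hf (Pp_L2 g)
  refine h1.unique ?_
  convert h2 using 2 with n
  rw [cf_Pp hf, cf_Pp hg]
  split_ifs <;> simp

theorem integral_mul_conj_An {v l : T → ℂ} (hv : L2 v) (hl : An l) :
    ∫ x, v x * conj (l x) = ∫ x, Pp v x * conj (l x) := by
  rw [integral_Pp_mul_conj hv hl.1]
  refine integral_congr_ae ?_
  filter_upwards [Pp_of_An hl] with x hx
  rw [hx]

theorem Pp_congr {f g : T → ℂ} (hf : L2 f) (h : f =ᵐ[volume] g) : Pp f =ᵐ[volume] Pp g := by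
  refine ext_cf (Pp_L2 f) (Pp_L2 g) fun n => ?_
  rw [cf_Pp hf, cf_Pp (hf.congr h), cf_congr h]

theorem Pp_add {f g : T → ℂ} (hf : L2 f) (hg : L2 g) :
    Pp (fun x => f x + g x) =ᵐ[volume] fun x => Pp f x + Pp g x := by
  refine ext_cf (Pp_L2 _) ((Pp_L2 f).add (Pp_L2 g)) fun n => ?_
  rw [cf_Pp (hf.add hg), cf_add (Pp_L2 f).integrable (Pp_L2 g).integrable, cf_Pp hf, cf_Pp hg,
    cf_add hf.integrable hg.integrable]
  split_ifs <;> simp

theorem Pp_sub {f g : T → ℂ} (hf : L2 f) (hg : L2 g) :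
    Pp (fun x => f x - g x) =ᵐ[volume] fun x => Pp f x - Pp g x := by
  refine ext_cf (Pp_L2 _) ((Pp_L2 f).sub (Pp_L2 g)) fun n => ?_
  rw [cf_Pp (hf.sub hg), cf_sub (Pp_L2 f).integrable (Pp_L2 g).integrable, cf_Pp hf, cf_Pp hg,
    cf_sub hf.integrable hg.integrable]
  split_ifs <;> simp

theorem Pp_const_mul {f : T → ℂ} (hf : L2 f) (c : ℂ) :
    Pp (fun x => c * f x) =ᵐ[volume] fun x => c * Pp f x := by
  refine ext_cf (Pp_L2 _) ((Pp_L2 f).const_mul c) fun n => ?_
  rw [cf_Pp (hf.const_mul c), cf_const_mul, cf_const_mul, cf_Pp hf]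
  split_ifs <;> simp

theorem Pp_sum {ι : Type*} (s : Finset ι) {f : ι → T → ℂ} (hf : ∀ i ∈ s, L2 (f i)) :
    Pp (fun x => ∑ i ∈ s, f i x) =ᵐ[volume] fun x => ∑ i ∈ s, Pp (f i) x := by
  refine ext_cf (Pp_L2 _) (L2.sum s fun i _ => Pp_L2 (f i)) fun n => ?_
  rw [cf_Pp (L2.sum s hf), cf_sum s f fun i hi => (hf i hi).integrable,
    cf_sum s _ fun i _ => (Pp_L2 (f i)).integrable]
  split_ifs with h
  · refine Finset.sum_congr rfl fun i hi => ?_
    rw [cf_Pp (hf i hi), if_pos h]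
  · symm
    refine Finset.sum_eq_zero fun i hi => ?_
    rw [cf_Pp (hf i hi), if_neg h]

theorem Pp_norm_sq_le {f : T → ℂ} (hf : L2 f) : ∫ x, ‖Pp f x‖ ^ 2 ≤ ∫ x, ‖f x‖ ^ 2 := by
  refine hasSum_le (fun n => ?_) (parseval_sq (Pp_L2 f)) (parseval_sq hf)
  rw [cf_Pp hf]
  split_ifs
  · exact le_rfl
  · simp

end CH
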