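import Mathlib
import Pool.Agent.CH.Base

open MeasureTheory Complex
open scoped ComplexConjugate

namespace CH

/-! ### Families, seminorms (Part B) -/

/-- the function `h = sum_i e_{m_i} P_+ g_i` attached to a family -/
noncomputable def hf {ι : Type} [Fintype ι] (m : ι → ℕ) (g : ι → T → ℂ) : T → ℂ :=
  fun x => ∑ i, e (m i) x * Pp (g i) x

/-- cost of a family -/
noncomputable def cost {ι : Type} [Fintype ι] (g : ι → T → ℂ) : ℝ := ∫ x, ∑ i, ‖g i x‖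

/-- `N(v) <= c` : `sup_m || P_+ (e_{-m} v) ||_inf <= c`, in dual form -/
def NB (v : T → ℂ) (c : ℝ) : Prop :=
  ∀ (m : ℕ) (g : T → ℂ), BM g → ‖∫ x, v x * conj (e m x * Pp g x)‖ ≤ c * ∫ x, ‖g x‖

/-- `D(v) <= c` : distance of `v` to `H^inf`, in dual form -/
def DB (v : T → ℂ) (c : ℝ) : Prop :=
  ∀ b : T → ℂ, An0 b → ‖∫ x, v x * b x‖ ≤ c * ∫ x, ‖b x‖

/-- Theorem C (Carleson, families form) with constant `C0` -/
def ThmC (C0 : ℝ) : Prop :=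
  ∀ (ι : Type) [Fintype ι] (m : ι → ℕ) (g : ι → T → ℂ) (Lam : ℝ), (∀ i, BM (g i)) → 0 < Lam →
    (∀ x, ∑ i, ‖g i x‖ ≤ Lam) → ∫ x, ‖hf m g x‖ ^ 2 ≤ C0 * Lam * cost g

/-- Fejer means -/
noncomputable def sM (M : ℕ) (f : T → ℂ) : T → ℂ :=
  fun x => ∑ j ∈ Finset.Icc (-(M : ℤ)) M, (((1 - |(j : ℝ)| / (M + 1) : ℝ)) : ℂ) * cf f j * e j x

/-! ### Dyadic intervals of the circle -/

/-- the representative in `[0,1)` -/
noncomputable def rep (x : T) : ℝ := (AddCircle.equivIco 1 0 x : ℝ)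

/-- the number `n` of the dyadic interval `[n/2^s, (n+1)/2^s)` containing `x` -/
noncomputable def idx (s : ℕ) (x : T) : ℕ := ⌊(2 : ℝ) ^ s * rep x⌋₊

/-- the dyadic interval `[n/2^s, (n+1)/2^s)` -/
def D (s n : ℕ) : Set T := {x | idx s x = n}

/-- its left endpoint -/
noncomputable def cpt (s n : ℕ) : T := ((n / 2 ^ s : ℝ) : T)

/-- `rho_s(x,y) = 1 + 2^s ||x-y||` -/
noncomputable def rho (s : ℕ) (x y : T) : ℝ := 1 + 2 ^ s * ‖x - y‖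

/-- `D s n ⊆ D s' n'` (for `n < 2^s`) -/
def tin (s n s' n' : ℕ) : Prop := s' ≤ s ∧ n / 2 ^ (s - s') = n'

/-! ### Tiles (Part A) -/

/-- a tile: time interval `D s n`, frequency interval `[m 2^(s+7), (m+1) 2^(s+7))` -/
structure Tile where
  s : ℕ
  n : ℕ
  m : ℤ
deriving DecidableEq

namespace Tile

/-- middle of the frequency interval -/
def mid (P : Tile) : ℤ := P.m * 2 ^ (P.s + 7) + 2 ^ (P.s + 6)

/-- `xi ∈ omega_P` -/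
def inOm (P : Tile) (xi : ℤ) : Prop := xi / 2 ^ (P.s + 7) = P.m

/-- `xi ∈ omega_{1,P}` (left half) -/
def inOm1 (P : Tile) (xi : ℤ) : Prop := xi / 2 ^ (P.s + 6) = 2 * P.m

/-- `xi ∈ J_P = [mid, mid + 2^(s+3))` -/
def inJ (P : Tile) (xi : ℤ) : Prop := xi / 2 ^ (P.s + 3) = 16 * P.m + 8

/-- order of tiles: `I_P ⊆ I_P'`, `omega_P' ⊆ omega_P` -/
def le (P P' : Tile) : Prop := tin P.s P.n P'.s P'.n ∧ P'.m / 2 ^ (P.s - P'.s) = P.m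

/-- left endpoint of the time interval -/
noncomputable def c (P : Tile) : T := cpt P.s P.n

/-- the time interval is a true one -/
def ok (P : Tile) : Prop := P.n < 2 ^ P.s

end Tile

/-- `int_{N in omega_P} u w_P`, `w_P = 2^s rho_s(.,c_P)^(-4)` -/
noncomputable def massInt (u : T → ℝ) (N : T → ℤ) (P : Tile) : ℝ :=
  ∫ x in {x | P.inOm (N x)}, u x * (2 ^ P.s / rho P.s x P.c ^ 4)

/-- `Mass(PP) <= mu`; the tiles `P'` are of ANY level -/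
def MassLE (u : T → ℝ) (N : T → ℤ) (PP : Finset Tile) (mu : ℝ) : Prop :=
  ∀ P ∈ PP, ∀ P' : Tile, P'.ok → P.le P' → massInt u N P' ≤ mu

open Classical in
/-- `En(PP) <= eps` -/
def EnLE (a : Tile → ℝ) (PP : Finset Tile) (eps : ℝ) : Prop :=
  ∀ (s n : ℕ) (xi : ℤ),
    ∑ P ∈ PP.filter (fun P => tin P.s P.n s n ∧ P.inJ xi), a P ^ 2 ≤ eps ^ 2 / 2 ^ s

/-- wave packets with constant `C1` -/
structure WP (C1 : ℝ) (psi : Tile → T → ℂ) : Prop where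
  trig : ∀ P : Tile, ∃ cc : ℤ → ℂ, ∀ x, psi P x =
    ∑ j ∈ Finset.Icc (P.mid - 2 ^ (P.s + 6)) (P.mid - 2 ^ (P.s + 3)), cc j * e j x
  decay : ∀ (P : Tile) (x : T), ‖psi P x‖ ≤ C1 * Real.sqrt (2 ^ P.s) / rho P.s x P.c ^ 8

/-- `a_P = |<f, psi_P>|` -/
noncomputable def aco (f : T → ℂ) (psi : Tile → T → ℂ) (P : Tile) : ℝ :=
  ‖∫ x, f x * conj (psi P x)‖

/-- `|int g 1_{N in J_P} conj phi_P|` -/
noncomputable def bco (g : T → ℂ) (N : T → ℤ) (phi : Tile → T → ℂ) (P : Tile) : ℝ :=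
  ‖∫ x in {x | P.inJ (N x)}, g x * conj (phi P x)‖

/-- `P` belongs to the tree with top `t = (s, n, xi)` -/
def inTree (t : ℕ × ℕ × ℤ) (P : Tile) : Prop := tin P.s P.n t.1 t.2.1 ∧ P.inOm t.2.2

/-- data of the linearised problem: `|g| <= u <= 1` -/
structure Dat (u : T → ℝ) (N : T → ℤ) (g : T → ℂ) : Prop where
  mu : Measurable u
  mN : Measurable N
  mg : Measurable g
  u1 : ∀ x, u x ≤ 1
  gu : ∀ x, ‖g x‖ ≤ u x

/-- the mass lemma -/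
def MassLemma : Prop :=
  ∀ (u : T → ℝ) (N : T → ℤ) (g : T → ℂ), Dat u N g → ∀ (PP : Finset Tile) (mu : ℝ), 0 < mu →
    (∀ P ∈ PP, P.ok) → MassLE u N PP mu →
    ∃ tops : Finset (ℕ × ℕ × ℤ), (∀ t ∈ tops, t.2.1 < 2 ^ t.1) ∧
      ∑ t ∈ tops, (1 / 2 ^ t.1 : ℝ) ≤ 1200 / mu * ∫ x, u x ∧
      ∀ PL : Finset Tile, PL ⊆ PP → (∀ P ∈ PL, ∀ t ∈ tops, ¬ inTree t P) → MassLE u N PL (mu / 4)

/-- the energy lemma with constant `C` -/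
def EnergyLemma (C1 C : ℝ) : Prop :=
  ∀ psi : Tile → T → ℂ, WP C1 psi → ∀ f : T → ℂ, L2 f → ∫ x, ‖f x‖ ^ 2 ≤ 1 →
    ∀ (PP : Finset Tile) (eps : ℝ), 0 < eps → (∀ P ∈ PP, P.ok) → EnLE (aco f psi) PP eps →
    ∃ tops : Finset (ℕ × ℕ × ℤ), (∀ t ∈ tops, t.2.1 < 2 ^ t.1) ∧
      ∑ t ∈ tops, (1 / 2 ^ t.1 : ℝ) ≤ C / eps ^ 2 ∧
      ∀ PL : Finset Tile, PL ⊆ PP → (∀ P ∈ PL, ∀ t ∈ tops, ¬ inTree t P) →
        EnLE (aco f psi) PL (eps / 2)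

/-- the tree lemma with constant `C` -/
def TreeLemma (C1 C : ℝ) : Prop :=
  ∀ phi : Tile → T → ℂ, WP C1 phi → ∀ (u : T → ℝ) (N : T → ℤ) (g : T → ℂ), Dat u N g →
    ∀ (a : Tile → ℝ), (∀ P, 0 ≤ a P) → ∀ (r : ℕ) (t : ℕ × ℕ × ℤ) (TT : Finset Tile) (mu eps : ℝ),
    t.2.1 < 2 ^ t.1 → (∀ P ∈ TT, P.ok ∧ P.s % 4 = r ∧ inTree t P) → 0 ≤ mu → 0 ≤ eps →
    MassLE u N TT mu → EnLE a TT eps →
    ∑ P ∈ TT, a P * bco g N phi P ≤ C * eps * mu / 2 ^ t.1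

/-- Theorem A (Lacey-Thiele model sum) with constant `C` -/
def TheoremA (C1 C : ℝ) : Prop :=
  ∀ psi phi : Tile → T → ℂ, WP C1 psi → WP C1 phi → ∀ f : T → ℂ, L2 f →
    ∀ (u : T → ℝ) (N : T → ℤ) (g : T → ℂ), Dat u N g →
    ∀ (r : ℕ) (PP : Finset Tile), (∀ P ∈ PP, P.ok ∧ P.s % 4 = r) →
    ∑ P ∈ PP, aco f psi P * bco g N phi P ≤
      C * Real.sqrt (∫ x, ‖f x‖ ^ 2) * Real.sqrt (∫ x, u x)

/-- LT* with constant `C` -/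
def LTs (C : ℝ) : Prop :=
  ∀ (B : ℕ) (cc : ℤ → ℂ) (u : T → ℝ) (N : T → ℤ) (g : T → ℂ), Dat u N g →
    ‖∫ x, (∑ j ∈ (Finset.Icc (-(B : ℤ)) B).filter (fun j => j < N x), cc j * e j x) * conj (g x)‖
      ≤ C * Real.sqrt (∫ x, ‖∑ j ∈ Finset.Icc (-(B : ℤ)) B, cc j * e j x‖ ^ 2) *
        Real.sqrt (∫ x, u x)

end CH
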