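import Mathlib
import Pool.Agent.CH.Defs

/-!
CH-AGeo. Geometry of dyadic intervals of the circle and of `rho`.
* `measurable_rep`: `AddCircle.measurableEquivIco`.
* `idx_anc`: `floor (2^s a) / 2^(s-s') = floor (2^s' a)` (`Nat.floor_div_natCast` or `idx_eq_iff`).
* `idx_cpt`: `rep_of_mem` with `a = n/2^s`. `norm_sub_cpt_le`, `norm_sub_le_of_idx`: `coe_rep`, `norm_coe_le`, `idx_eq_iff`.
* `volume_D`: `D s n` is the image of `[n/2^s, (n+1)/2^s)`; e.g. `UnitAddCircle.measurePreserving_mk` / `integral_preimage` on `Ioc 0 1`,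
  or all `D s n`, `n < 2^s`, are translates of each other and partition the circle (probability measure).
* `G2`: translation invariance, then `int_{-1/2}^{1/2} 1/(1+2^s|t|)^2 dt = 2 int_0^{1/2} <= 2/2^s` (`UnitAddCircle.intervalIntegral_preimage`
  or similar; `||(t : T)|| = |t|` for `|t| <= 1/2`; antiderivative `-1/(2^s (1+2^s t))`). `C = 2` works.
* `G1` from `G2`: for `y in D s n`, `rho s x y <= 2 rho s x c_n` (`||y - c_n|| <= 2^-s`), so
  `1/rho s x c_n ^2 <= 4 * 2^s * int_{D s n} 1/rho s x y ^2 dy`; sum over the partition: `<= 4 * 2^s * C/2^s`.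
-/

open MeasureTheory

namespace CH

theorem norm_T_le_half (x : T) : ‖x‖ ≤ 1 / 2 := by
  simpa using AddCircle.norm_le_half_period (1 : ℝ) one_ne_zero (x := x)

theorem norm_coe_le (a : ℝ) : ‖(a : T)‖ ≤ |a| := by
  rw [UnitAddCircle.norm_eq]
  exact round_le a 0 |>.trans (by simp)

theorem rep_mem (x : T) : 0 ≤ rep x ∧ rep x < 1 := by
  have := (AddCircle.equivIco 1 0 x).2
  simpa [rep] using this

theorem coe_rep (x : T) : ((rep x : ℝ) : T) = x := AddCircle.coe_equivIco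

theorem rep_of_mem (a : ℝ) (h0 : 0 ≤ a) (h1 : a < 1) : rep (a : T) = a := by
  unfold rep
  have := AddCircle.equivIco_coe_eq (p := (1 : ℝ)) (a := 0) (x := a) (by simp [h0, h1])
  rw [this]

theorem measurable_rep : Measurable rep :=
  measurable_subtype_coe.comp (AddCircle.measurableEquivIco 1 0).measurable

theorem measurable_idx (s : ℕ) : Measurable (idx s) := by
  unfold idx
  exact Nat.measurable_floor.comp (measurable_rep.const_mul _)

theorem idx_lt_pow (s : ℕ) (x : T) : idx s x < 2 ^ s := by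
  have h := rep_mem x
  unfold idx
  rw [Nat.floor_lt (by have := h.1; positivity)]
  push_cast
  have : (0 : ℝ) < 2 ^ s := by positivity
  nlinarith [h.2]

/-- the index characterises the position of the representative -/
theorem idx_eq_iff (s n : ℕ) (x : T) :
    idx s x = n ↔ (n : ℝ) / 2 ^ s ≤ rep x ∧ rep x < (n + 1) / 2 ^ s := by
  have h := rep_mem x
  have h2 : (0 : ℝ) < 2 ^ s := by positivity
  unfold idx
  rw [Nat.floor_eq_iff (by have := h.1; positivity)]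
  rw [div_le_iff₀ h2, lt_div_iff₀ h2, mul_comm (rep x)]

theorem idx_anc (s s' : ℕ) (h : s' ≤ s) (x : T) : idx s' x = idx s x / 2 ^ (s - s') := by
  unfold idx
  have h1 : (2 : ℝ) ^ s' * rep x = (2 ^ s * rep x) / ((2 ^ (s - s') : ℕ) : ℝ) := by
    push_cast
    rw [eq_div_iff (by positivity)]
    rw [mul_right_comm, ← pow_add]
    congr 2; omega
  rw [h1, Nat.floor_div_natCast]

theorem idx_cpt (s n : ℕ) (h : n < 2 ^ s) : idx s (cpt s n) = n := by
  have h2 : (0 : ℝ) < 2 ^ s := by positivity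
  have h3 : (n : ℝ) / 2 ^ s < 1 := by rw [div_lt_one h2]; exact_mod_cast h
  rw [idx_eq_iff]
  unfold cpt
  rw [rep_of_mem _ (by positivity) h3]
  refine ⟨le_rfl, ?_⟩
  gcongr; linarith

theorem norm_sub_cpt_le (s : ℕ) (x : T) : ‖x - cpt s (idx s x)‖ ≤ 1 / 2 ^ s := by
  have hx := (idx_eq_iff s (idx s x) x).1 rfl
  have h1 : x - cpt s (idx s x) = ((rep x - idx s x / 2 ^ s : ℝ) : T) := by
    rw [AddCircle.coe_sub, coe_rep]; rfl
  rw [h1]
  refine (norm_coe_le _).trans ?_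
  have : ((idx s x : ℝ) + 1) / 2 ^ s = idx s x / 2 ^ s + 1 / 2 ^ s := by ring
  rw [abs_le]
  have : (0:ℝ) < 1 / 2 ^ s := by positivity
  constructor <;> linarith [hx.1, hx.2]

/-- two points of one dyadic interval -/
theorem norm_sub_le_of_idx (s : ℕ) (x y : T) (h : idx s x = idx s y) : ‖x - y‖ ≤ 1 / 2 ^ s := by
  have hx := (idx_eq_iff s (idx s x) x).1 rfl
  have hy := (idx_eq_iff s (idx s x) y).1 h.symm
  have h1 : x - y = ((rep x - rep y : ℝ) : T) := by
    rw [AddCircle.coe_sub, coe_rep, coe_rep]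
  rw [h1]
  refine (norm_coe_le _).trans ?_
  have : ((idx s x : ℝ) + 1) / 2 ^ s = idx s x / 2 ^ s + 1 / 2 ^ s := by ring
  rw [abs_le]
  constructor <;> linarith [hx.1, hx.2, hy.1, hy.2]

/-- `c(s,n)` lies in `D s' n'` -/
theorem idx_cpt_anc (s n s' n' : ℕ) (h : n < 2 ^ s) (ht : tin s n s' n') :
    idx s' (cpt s n) = n' := by
  rw [idx_anc s s' ht.1, idx_cpt s n h, ht.2]

theorem norm_cpt_sub_cpt_le (s n s' n' : ℕ) (h : n < 2 ^ s) (ht : tin s n s' n') :
    ‖cpt s n - cpt s' n'‖ ≤ 1 / 2 ^ s' := by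
  have := norm_sub_cpt_le s' (cpt s n)
  rwa [idx_cpt_anc s n s' n' h ht] at this

theorem tin_ok (s n s' n' : ℕ) (h : n < 2 ^ s) (ht : tin s n s' n') : n' < 2 ^ s' := by
  rw [← idx_cpt_anc s n s' n' h ht]; exact idx_lt_pow _ _

theorem tin_refl (s n : ℕ) : tin s n s n := ⟨le_rfl, by simp⟩

theorem tin_trans {s n s' n' s'' n'' : ℕ} (h : tin s n s' n') (h' : tin s' n' s'' n'') :
    tin s n s'' n'' := by
  refine ⟨h'.1.trans h.1, ?_⟩
  rw [← h'.2, ← h.2, Nat.div_div_eq_div_mul, ← pow_add]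
  congr 2
  have := h.1; have := h'.1; omega

theorem tin_D {s n s' n' : ℕ} (h : tin s n s' n') : D s n ⊆ D s' n' := by
  intro x hx
  have hx' : idx s x = n := hx
  change idx s' x = n'
  rw [idx_anc s s' h.1, hx', h.2]

theorem measurableSet_D (s n : ℕ) : MeasurableSet (D s n) := measurable_idx s (measurableSet_singleton n)

private theorem AGeo_idx_iff {s n : ℕ} {y : ℝ} (h0 : 0 ≤ y) (h1 : y < 1) :
    (y : T) ∈ D s n ↔ (n : ℝ) / 2 ^ s ≤ y ∧ y < ((n : ℝ) + 1) / 2 ^ s := by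
  have h2 : (0 : ℝ) < 2 ^ s := by positivity
  have h3 : ((y : T) ∈ D s n) ↔ ⌊(2 : ℝ) ^ s * y⌋₊ = n := by
    unfold D idx
    rw [Set.mem_ofPred_eq, rep_of_mem _ h0 h1]
  rw [h3, Nat.floor_eq_iff (by positivity), div_le_iff₀ h2, lt_div_iff₀ h2, mul_comm y]

private theorem AGeo_volume_D {s n : ℕ} (h : n < 2 ^ s) : volume (D s n) = ENNReal.ofReal (1 / 2 ^ s) := by
  have h2 : (0 : ℝ) < 2 ^ s := by positivity
  have hn : (n : ℝ) + 1 ≤ 2 ^ s := by exact_mod_cast h
  have hmp := UnitAddCircle.measurePreserving_mk 0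
  rw [← hmp.measure_preimage (measurableSet_D s n).nullMeasurableSet,
    Measure.restrict_apply (hmp.measurable (measurableSet_D s n)), zero_add]
  have e1 : (((fun y : ℝ => (y : T)) ⁻¹' D s n) ∩ Set.Ioc (0 : ℝ) 1 : Set ℝ) =ᵐ[volume]
      (((fun y : ℝ => (y : T)) ⁻¹' D s n) ∩ Set.Ico (0 : ℝ) 1 : Set ℝ) :=
    ae_eq_set_inter (ae_eq_refl _) Ico_ae_eq_Ioc.symm
  have e2 : (((fun y : ℝ => (y : T)) ⁻¹' D s n) ∩ Set.Ico (0 : ℝ) 1 : Set ℝ) =
      Set.Ico ((n : ℝ) / 2 ^ s) (((n : ℝ) + 1) / 2 ^ s) := by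
    ext y
    rw [Set.mem_inter_iff, Set.mem_preimage, Set.mem_Ico, Set.mem_Ico]
    constructor
    · rintro ⟨h3, h4, h5⟩
      exact (AGeo_idx_iff h4 h5).1 h3
    · rintro ⟨h3, h4⟩
      have h5 : 0 ≤ y := le_trans (by positivity) h3
      have h6 : y < 1 := by
        refine h4.trans_le ?_
        rw [div_le_one h2]
        exact hn
      exact ⟨(AGeo_idx_iff h5 h6).2 ⟨h3, h4⟩, h5, h6⟩
  have e3 : volume (((fun y : ℝ => (y : T)) ⁻¹' D s n) ∩ Set.Ioc (0 : ℝ) 1 : Set ℝ) =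
      ENNReal.ofReal (1 / 2 ^ s) := by
    rw [measure_congr e1, e2, Real.volume_Ico]
    congr 1
    ring
  exact e3

theorem volume_D (s n : ℕ) (h : n < 2 ^ s) : volume.real (D s n) = 1 / 2 ^ s := by
  unfold Measure.real
  rw [AGeo_volume_D h, ENNReal.toReal_ofReal (by positivity)]

/-! ### rho -/

theorem one_le_rho (s : ℕ) (x y : T) : 1 ≤ rho s x y := by
  unfold rho; have := norm_nonneg (x - y); have : (0 : ℝ) ≤ 2 ^ s * ‖x - y‖ := by positivity
  linarith

theorem rho_pos (s : ℕ) (x y : T) : 0 < rho s x y := by have := one_le_rho s x y; linarith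

theorem rho_comm (s : ℕ) (x y : T) : rho s x y = rho s y x := by unfold rho; rw [norm_sub_rev]

theorem rho_mul (s : ℕ) (x y z : T) : rho s x z ≤ rho s x y * rho s y z := by
  unfold rho
  have h : ‖x - z‖ ≤ ‖x - y‖ + ‖y - z‖ := norm_sub_le_norm_sub_add_norm_sub x y z
  have h1 : (0 : ℝ) ≤ 2 ^ s * ‖x - y‖ := by positivity
  have h2 : (0 : ℝ) ≤ 2 ^ s * ‖y - z‖ := by positivity
  have h3 : (2 : ℝ) ^ s * ‖x - z‖ ≤ 2 ^ s * ‖x - y‖ + 2 ^ s * ‖y - z‖ := by
    rw [← mul_add]; gcongr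
  nlinarith [mul_nonneg h1 h2]

theorem rho_continuous (s : ℕ) (y : T) : Continuous fun x => rho s x y := by
  unfold rho; fun_prop

@[fun_prop]
theorem rho_measurable (s : ℕ) (y : T) : Measurable fun x => rho s x y :=
  (rho_continuous s y).measurable

theorem rho_continuous' (s : ℕ) (x : T) : Continuous fun y => rho s x y := by
  unfold rho
  exact continuous_const.add (continuous_const.mul (continuous_const.sub continuous_id).norm)

private theorem AGeo_sq (N : ℕ) :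
    ∑ j ∈ Finset.range (N + 1), 1 / ((1 : ℝ) + j) ^ 2 ≤ 2 - 1 / ((N : ℝ) + 1) := by
  induction N with
  | zero => norm_num
  | succ N ih =>
    rw [Finset.sum_range_succ]
    have h1 : (0 : ℝ) < (N : ℝ) + 1 := by positivity
    have h2 : (1 : ℝ) / (1 + ((N + 1 : ℕ) : ℝ)) ^ 2 ≤
        1 / ((N : ℝ) + 1) - 1 / (((N + 1 : ℕ) : ℝ) + 1) := by
      push_cast
      rw [div_sub_div _ _ h1.ne' (by positivity), div_le_div_iff₀ (by positivity) (by positivity)]
      nlinarith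
    linarith

private theorem AGeo_nat (J : Finset ℕ) : ∑ j ∈ J, 1 / ((1 : ℝ) + j) ^ 2 ≤ 2 := by
  have h1 : ∑ j ∈ J, 1 / ((1 : ℝ) + j) ^ 2 ≤
      ∑ j ∈ Finset.range (J.sup id + 1), 1 / ((1 : ℝ) + j) ^ 2 := by
    refine Finset.sum_le_sum_of_subset_of_nonneg (fun j hj => ?_) (fun j _ _ => by positivity)
    rw [Finset.mem_range]
    exact Nat.lt_succ_of_le (Finset.le_sup (f := id) hj)
  have h2 := AGeo_sq (J.sup id)
  have h3 : 0 ≤ 1 / (((J.sup id : ℕ) : ℝ) + 1) := by positivity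
  linarith

/-- one side of a point -/
private theorem AGeo_side (S : Finset ℤ) (y : ℝ) (phi : ℤ → ℕ)
    (hinj : Set.InjOn phi (S : Set ℤ)) (h : ∀ m ∈ S, (phi m : ℝ) ≤ |y - m|) :
    ∑ m ∈ S, 1 / ((1 : ℝ) + |y - m|) ^ 2 ≤ 2 := by
  classical
  calc ∑ m ∈ S, 1 / ((1 : ℝ) + |y - m|) ^ 2 ≤ ∑ m ∈ S, 1 / ((1 : ℝ) + phi m) ^ 2 := by
        refine Finset.sum_le_sum fun m hm => ?_
        have h1 := h m hm
        have h2 : (0 : ℝ) ≤ phi m := Nat.cast_nonneg _
        apply one_div_le_one_div_of_le (by positivity)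
        exact pow_le_pow_left₀ (by positivity) (by linarith) 2
    _ = ∑ j ∈ S.image phi, 1 / ((1 : ℝ) + j) ^ 2 := by
        rw [Finset.sum_image hinj]
    _ ≤ 2 := AGeo_nat _

private theorem AGeo_int (S : Finset ℤ) (y : ℝ) :
    ∑ m ∈ S, 1 / ((1 : ℝ) + |y - m|) ^ 2 ≤ 4 := by
  classical
  rw [← Finset.sum_filter_add_sum_filter_not S (fun m => m ≤ ⌊y⌋)]
  have hfl := Int.floor_le y
  have hlt := Int.lt_floor_add_one y
  have h1 := AGeo_side (S.filter (fun m => m ≤ ⌊y⌋)) y (fun m => (⌊y⌋ - m).toNat) (by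
    intro a ha b hb hab
    rw [Finset.mem_coe, Finset.mem_filter] at ha hb
    have ha2 := ha.2
    have hb2 := hb.2
    simp only at hab
    omega) (by
    intro m hm
    rw [Finset.mem_filter] at hm
    have h3 : (((⌊y⌋ - m).toNat : ℕ) : ℤ) = ⌊y⌋ - m := Int.toNat_of_nonneg (by omega)
    have h4 : (((⌊y⌋ - m).toNat : ℕ) : ℝ) = (⌊y⌋ : ℝ) - m := by exact_mod_cast h3
    rw [h4]
    refine le_trans ?_ (le_abs_self _)
    linarith)
  have h2 := AGeo_side (S.filter (fun m => ¬ m ≤ ⌊y⌋)) y (fun m => (m - ⌊y⌋ - 1).toNat) (by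
    intro a ha b hb hab
    rw [Finset.mem_coe, Finset.mem_filter] at ha hb
    have ha2 := ha.2
    have hb2 := hb.2
    simp only at hab
    omega) (by
    intro m hm
    rw [Finset.mem_filter] at hm
    have h3 : (((m - ⌊y⌋ - 1).toNat : ℕ) : ℤ) = m - ⌊y⌋ - 1 := Int.toNat_of_nonneg (by omega)
    have h4 : (((m - ⌊y⌋ - 1).toNat : ℕ) : ℝ) = (m : ℝ) - ⌊y⌋ - 1 := by exact_mod_cast h3
    rw [h4, abs_sub_comm]
    refine le_trans ?_ (le_abs_self _)
    linarith)
  linarith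

private theorem AGeo_G1 (s : ℕ) (x : T) :
    ∑ n ∈ Finset.range (2 ^ s), 1 / rho s x (cpt s n) ^ 2 ≤ 4 := by
  classical
  have h2 : (0 : ℝ) < 2 ^ s := by positivity
  obtain ⟨y, hy⟩ : ∃ y : ℝ, y = 2 ^ s * rep x := ⟨_, rfl⟩
  obtain ⟨m, hm⟩ : ∃ m : ℕ → ℤ, m = fun n : ℕ =>
    (n : ℤ) + 2 ^ s * round ((y - n) / 2 ^ s) := ⟨_, rfl⟩
  have hrho : ∀ n : ℕ, rho s x (cpt s n) = 1 + |y - m n| := by
    intro n
    have e1 : x - cpt s n = (((y - n) / 2 ^ s : ℝ) : T) := by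
      have e2 : (y - n) / 2 ^ s = rep x - n / 2 ^ s := by
        rw [hy]
        field_simp
      rw [e2, AddCircle.coe_sub, coe_rep]
      rfl
    unfold rho
    rw [e1, UnitAddCircle.norm_eq]
    congr 1
    have e3 : (2 : ℝ) ^ s = |(2 : ℝ) ^ s| := (abs_of_pos h2).symm
    have e4 : (2 : ℝ) ^ s * |(y - n) / 2 ^ s - round ((y - n) / 2 ^ s)| =
        |(2 : ℝ) ^ s| * |(y - n) / 2 ^ s - round ((y - n) / 2 ^ s)| := by
      rw [← e3]
    rw [e4, ← abs_mul]
    congr 1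
    rw [hm, mul_sub, mul_div_cancel₀ _ h2.ne']
    push_cast
    ring
  have hinj : Set.InjOn m (Finset.range (2 ^ s) : Set ℕ) := by
    intro a ha b hb hab
    rw [Finset.mem_coe, Finset.mem_range] at ha hb
    rw [hm] at hab
    simp only at hab
    have h3 : ((a : ℤ) - b) = 2 ^ s * (round ((y - b) / 2 ^ s) - round ((y - a) / 2 ^ s)) := by
      linarith
    have h4 : ((2 : ℤ) ^ s) ∣ (a : ℤ) - b := ⟨_, h3⟩
    have ha' : (a : ℤ) < 2 ^ s := by exact_mod_cast ha
    have hb' : (b : ℤ) < 2 ^ s := by exact_mod_cast hb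
    have h5 : (a : ℤ) - b = 0 := by
      apply Int.eq_zero_of_abs_lt_dvd h4
      rw [abs_lt]
      constructor <;> omega
    omega
  calc ∑ n ∈ Finset.range (2 ^ s), 1 / rho s x (cpt s n) ^ 2
      = ∑ n ∈ Finset.range (2 ^ s), 1 / ((1 : ℝ) + |y - m n|) ^ 2 := by
        refine Finset.sum_congr rfl fun n _ => ?_
        rw [hrho n]
    _ = ∑ k ∈ (Finset.range (2 ^ s)).image m, 1 / ((1 : ℝ) + |y - k|) ^ 2 := by
        rw [Finset.sum_image hinj]
    _ ≤ 4 := AGeo_int _ _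

private theorem AGeo_integrable_rho (s p : ℕ) (x : T) : Integrable fun y => 1 / rho s x y ^ p := by
  have hc : Continuous fun y => 1 / rho s x y ^ p :=
    continuous_const.div ((rho_continuous' s x).pow p) fun y => (pow_pos (rho_pos _ _ _) p).ne'
  refine (MemLp.of_bound (p := 1) hc.aestronglyMeasurable 1 (ae_of_all _ fun y => ?_)).integrable
    le_rfl
  rw [Real.norm_eq_abs, abs_of_nonneg (one_div_nonneg.2 (pow_pos (rho_pos _ _ _) p).le)]
  exact div_le_one_of_le₀ (one_le_pow₀ (one_le_rho _ _ _)) (pow_pos (rho_pos _ _ _) p).le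

private theorem AGeo_G2 (s : ℕ) (x : T) : ∫ y, 1 / rho s x y ^ 2 ≤ 4 / 2 ^ s := by
  have h2 : (0 : ℝ) < 2 ^ s := by positivity
  have h1 : ∀ n : ℕ, ∫ y, 1 / rho s x y ^ 2 = ∫ z, 1 / rho s (z - x) (cpt s n) ^ 2 := by
    intro n
    rw [← integral_sub_right_eq_self (fun y => 1 / rho s x y ^ 2) (cpt s n)]
    congr 1
    ext z
    have : rho s x (z - cpt s n) = rho s (z - x) (cpt s n) := by
      unfold rho
      rw [← norm_neg (x - (z - cpt s n))]
      congr 3
      abel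
    rw [this]
  have hint : ∀ n : ℕ, Integrable fun z => 1 / rho s (z - x) (cpt s n) ^ 2 := by
    intro n
    have h3 := (AGeo_integrable_rho s 2 (cpt s n)).comp_sub_right x
    refine h3.congr (ae_of_all _ fun z => ?_)
    simp only
    rw [rho_comm]
  have h3 : (2 : ℝ) ^ s * ∫ y, 1 / rho s x y ^ 2 =
      ∫ z, ∑ n ∈ Finset.range (2 ^ s), 1 / rho s (z - x) (cpt s n) ^ 2 := by
    rw [integral_finsetSum _ (fun n _ => hint n)]
    rw [Finset.sum_congr rfl (fun n _ => (h1 n).symm), Finset.sum_const, Finset.card_range,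
      nsmul_eq_mul]
    push_cast
    rfl
  have h4 : ∫ z, ∑ n ∈ Finset.range (2 ^ s), 1 / rho s (z - x) (cpt s n) ^ 2 ≤
      ∫ _ : T, (4 : ℝ) :=
    integral_mono (integrable_finsetSum _ fun n _ => hint n) (integrable_const _)
      fun z => AGeo_G1 s (z - x)
  have h5 : ∫ _ : T, (4 : ℝ) = 4 := by
    rw [integral_const]
    simp
  rw [le_div_iff₀ h2, mul_comm, h3, ← h5]
  exact h4

/-- (G1) -/
theorem G1 : ∃ C : ℝ, 0 < C ∧ ∀ (s : ℕ) (x : T),
    ∑ n ∈ Finset.range (2 ^ s), 1 / rho s x (cpt s n) ^ 2 ≤ C :=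
  ⟨4, by norm_num, AGeo_G1⟩

/-- (G1) with the constant -/
theorem G1_four (s : ℕ) (x : T) : ∑ n ∈ Finset.range (2 ^ s), 1 / rho s x (cpt s n) ^ 2 ≤ 4 :=
  AGeo_G1 s x

/-- (G2) -/
theorem G2 : ∃ C : ℝ, 0 < C ∧ ∀ (s : ℕ) (y : T), ∫ x, 1 / rho s x y ^ 2 ≤ C / 2 ^ s := by
  refine ⟨4, by norm_num, fun s y => ?_⟩
  have := AGeo_G2 s y
  simp_rw [rho_comm s y] at this
  exact this

/-- (G2) with the constant -/
theorem G2_four (s : ℕ) (y : T) : ∫ x, 1 / rho s x y ^ 2 ≤ 4 / 2 ^ s := by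
  have := AGeo_G2 s y
  simp_rw [rho_comm s y] at this
  exact this

theorem integrable_inv_rho (s k : ℕ) (y : T) : Integrable fun x => 1 / rho s x y ^ k := by
  refine Integrable.of_bound (C := 1) ?_ (ae_of_all _ fun x => ?_)
  · exact (Measurable.aestronglyMeasurable (by fun_prop))
  · have := one_le_rho s x y
    rw [norm_div, norm_one, norm_pow, Real.norm_eq_abs, abs_of_pos (by linarith)]
    rw [div_le_one (by positivity)]
    exact one_le_pow₀ this

theorem volume_ball_le (y : T) (d : ℝ) : volume.real {x : T | ‖x - y‖ ≤ d} ≤ 2 * |d| := by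
  have h1 : {x : T | ‖x - y‖ ≤ d} = Metric.closedBall y d := by
    ext x; simp [dist_eq_norm]
  rw [h1, Measure.real, AddCircle.volume_closedBall]
  rw [ENNReal.toReal_ofReal' ]
  refine max_le ((min_le_right _ _).trans ?_) (by positivity)
  have := le_abs_self d; linarith

/-! ### further names -/

theorem rep_nonneg (x : T) : 0 ≤ rep x := (rep_mem x).1

theorem rep_lt_one (x : T) : rep x < 1 := (rep_mem x).2

theorem idx_lt (s : ℕ) (x : T) : idx s x < 2 ^ s := idx_lt_pow s x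

theorem idx_div (s k : ℕ) (x : T) : idx (s + k) x / 2 ^ k = idx s x := by
  rw [idx_anc (s + k) s (Nat.le_add_right s k) x, Nat.add_sub_cancel_left]

theorem idx_div' {s s' : ℕ} (h : s' ≤ s) (x : T) : idx s x / 2 ^ (s - s') = idx s' x :=
  (idx_anc s s' h x).symm

theorem volume_real_D {s n : ℕ} (h : n < 2 ^ s) : volume.real (D s n) = 1 / 2 ^ s :=
  volume_D s n h

theorem mem_D_idx (s : ℕ) (x : T) : x ∈ D s (idx s x) := rfl

theorem cpt_mem_D {s n : ℕ} (h : n < 2 ^ s) : cpt s n ∈ D s n := idx_cpt s n h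

theorem disjoint_D {s n n' : ℕ} (h : n ≠ n') : Disjoint (D s n) (D s n') := by
  rw [Set.disjoint_left]
  intro x hx hx'
  have h1 : idx s x = n := hx
  have h2 : idx s x = n' := hx'
  exact h (h1.symm.trans h2)

theorem norm_le_half (x : T) : ‖x‖ ≤ 1 / 2 := norm_T_le_half x

theorem D_subset_of_tin {s n s' n' : ℕ} (h : tin s n s' n') : D s n ⊆ D s' n' := tin_D h

theorem tin_lt {s n s' n' : ℕ} (h : tin s n s' n') (hn : n < 2 ^ s) : n' < 2 ^ s' :=
  tin_ok s n s' n' hn h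

theorem norm_sub_cpt_le' {s n : ℕ} {x : T} (hx : x ∈ D s n) : ‖x - cpt s n‖ ≤ 1 / 2 ^ s := by
  have := norm_sub_cpt_le s x
  rwa [show idx s x = n from hx] at this

/-- two dyadic intervals with a common point are nested -/
theorem tin_of_mem {s n s' n' : ℕ} {x : T} (h : s' ≤ s) (hx : x ∈ D s n) (hx' : x ∈ D s' n') :
    tin s n s' n' := by
  have h1 : idx s x = n := hx
  have h2 : idx s' x = n' := hx'
  refine ⟨h, ?_⟩
  rw [← h1, ← h2]
  exact idx_div' h x

/-- dyadic intervals that are not nested are disjoint -/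
theorem disjoint_of_not_tin {s n s' n' : ℕ} (h : s' ≤ s) (hn : ¬ tin s n s' n') :
    Disjoint (D s n) (D s' n') := by
  rw [Set.disjoint_left]
  intro x hx hx'
  exact hn (tin_of_mem h hx hx')

theorem rho_mono {s s' : ℕ} (h : s ≤ s') (x y : T) : rho s x y ≤ rho s' x y := by
  unfold rho
  have h1 : (2 : ℝ) ^ s ≤ 2 ^ s' := pow_le_pow_right₀ (by norm_num) h
  have h2 := mul_le_mul_of_nonneg_right h1 (norm_nonneg (x - y))
  linarith

theorem rho_le_two_mul {s : ℕ} {x y : T} (h : ‖x - y‖ ≤ 1 / 2 ^ s) (z : T) :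
    rho s x z ≤ 2 * rho s y z := by
  refine (rho_mul s x y z).trans (mul_le_mul_of_nonneg_right ?_ (rho_pos s y z).le)
  unfold rho
  have h2 : (0 : ℝ) < 2 ^ s := by positivity
  have h3 : (2 : ℝ) ^ s * ‖x - y‖ ≤ 2 ^ s * (1 / 2 ^ s) := mul_le_mul_of_nonneg_left h h2.le
  rw [mul_one_div_cancel h2.ne'] at h3
  linarith

theorem integrable_rho (s p : ℕ) (x : T) : Integrable fun y => 1 / rho s x y ^ p := by
  have h := integrable_inv_rho s p x
  simp_rw [rho_comm s _ x] at h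
  exact h

/-- (G1), powers `p >= 2` -/
theorem G1' (s : ℕ) (x : T) {p : ℕ} (hp : 2 ≤ p) :
    ∑ n ∈ Finset.range (2 ^ s), 1 / rho s x (cpt s n) ^ p ≤ 10 := by
  refine (le_trans (Finset.sum_le_sum fun n _ => ?_) (G1_four s x)).trans (by norm_num)
  exact one_div_le_one_div_of_le (pow_pos (rho_pos _ _ _) 2)
    (pow_le_pow_right₀ (one_le_rho _ _ _) hp)

/-- (G2), powers `p >= 2` -/
theorem G2' (s : ℕ) (x : T) {p : ℕ} (hp : 2 ≤ p) : ∫ y, 1 / rho s x y ^ p ≤ 4 / 2 ^ s := by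
  have h0 : ∫ y, 1 / rho s x y ^ 2 ≤ 4 / 2 ^ s := by
    have := G2_four s x
    simp_rw [rho_comm s _ x] at this
    exact this
  refine le_trans (integral_mono (integrable_rho s p x) (integrable_rho s 2 x) fun y => ?_) h0
  exact one_div_le_one_div_of_le (pow_pos (rho_pos _ _ _) 2)
    (pow_le_pow_right₀ (one_le_rho _ _ _) hp)

end CH
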