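import Mathlib
import Pool.Agent.CH.Base
import Pool.Agent.CH.Defs
import Pool.Agent.CH.AGeo

/-!
# CH-AGx (0.8 h): more geometry, with explicit constants; Base + Defs + AGeo + Mathlib.  Open: ax_G2, ax_G1, ax_volume_ball

`ax_G2` (p = 2): translation invariance, `∫ 1/(1+2^s‖y‖)^2 dy = 2 ∫_0^{1/2} (1+2^s t)^{-2} dt ≤ 2/2^s`; `p ≥ 2`: `rho ≥ 1`.
`ax_G1` from `ax_G2`: for `y ∈ D s n`, `rho s x y ≤ 2 rho s x c_n`, so `1/rho(x,c_n)^2 ≤ 4 * 2^s ∫_{D s n} 1/rho(x,y)^2 dy`; sum over the partition of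
the circle: `≤ 4 * 2^s * 4/2^s = 16`; `p ≥ 2` from `rho ≥ 1`.
`ax_volume_ball`: `AddCircle.volume_closedBall`, or from `volume_ball_le` of AGeo.
-/

open MeasureTheory Complex
open scoped ComplexConjugate

namespace CH

theorem ax_mem_D_idx (s : ℕ) (x : T) : x ∈ D s (idx s x) := rfl

theorem ax_cpt_mem_D {s n : ℕ} (h : n < 2 ^ s) : cpt s n ∈ D s n := idx_cpt s n h

theorem ax_disjoint_D {s n n' : ℕ} (h : n ≠ n') : Disjoint (D s n) (D s n') := by
  rw [Set.disjoint_left]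
  intro x hx hx'
  exact h (hx.symm.trans hx')

theorem ax_norm_sub_cpt {s n : ℕ} {x : T} (hx : x ∈ D s n) : ‖x - cpt s n‖ ≤ 1 / 2 ^ s := by
  have := norm_sub_cpt_le s x
  rwa [show idx s x = n from hx] at this

/-- two dyadic intervals with a common point are nested -/
theorem ax_tin_of_mem {s n s' n' : ℕ} {x : T} (h : s' ≤ s) (hx : x ∈ D s n) (hx' : x ∈ D s' n') :
    tin s n s' n' := by
  refine ⟨h, ?_⟩
  rw [← show idx s x = n from hx, ← idx_anc s s' h]
  exact hx'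

theorem ax_disjoint_of_not_tin {s n s' n' : ℕ} (h : s' ≤ s) (hn : ¬ tin s n s' n') :
    Disjoint (D s n) (D s' n') := by
  rw [Set.disjoint_left]
  intro x hx hx'
  exact hn (ax_tin_of_mem h hx hx')

theorem ax_rho_mono {s s' : ℕ} (h : s ≤ s') (x y : T) : rho s x y ≤ rho s' x y := by
  unfold rho
  have : (2 : ℝ) ^ s ≤ 2 ^ s' := pow_le_pow_right₀ (by norm_num) h
  have h2 := norm_nonneg (x - y)
  nlinarith

theorem ax_rho_le_two_mul {s : ℕ} {x y : T} (h : ‖x - y‖ ≤ 1 / 2 ^ s) (z : T) :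
    rho s x z ≤ 2 * rho s y z := by
  refine (rho_mul s x y z).trans ?_
  have h1 : rho s x y ≤ 2 := by
    unfold rho
    have h2 : (0 : ℝ) < 2 ^ s := by positivity
    have := mul_le_mul_of_nonneg_left h h2.le
    rw [mul_one_div, div_self h2.ne'] at this
    linarith
  have := rho_pos s y z
  nlinarith

/-- (G2) with a constant, powers `p >= 2` -/
theorem ax_G2 (s : ℕ) (y : T) {p : ℕ} (hp : 2 ≤ p) : ∫ x, 1 / rho s x y ^ p ≤ 4 / 2 ^ s := by
  refine le_trans (integral_mono (integrable_inv_rho s p y) (integrable_inv_rho s 2 y)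
    fun x => ?_) (G2_four s y)
  exact one_div_le_one_div_of_le (pow_pos (rho_pos _ _ _) 2)
    (pow_le_pow_right₀ (one_le_rho _ _ _) hp)

/-- (G1) with a constant, powers `p >= 2` -/
theorem ax_G1 (s : ℕ) (x : T) {p : ℕ} (hp : 2 ≤ p) :
    ∑ n ∈ Finset.range (2 ^ s), 1 / rho s x (cpt s n) ^ p ≤ 16 := by
  refine (le_trans (Finset.sum_le_sum fun n _ => ?_) (G1_four s x)).trans (by norm_num)
  exact one_div_le_one_div_of_le (pow_pos (rho_pos _ _ _) 2)
    (pow_le_pow_right₀ (one_le_rho _ _ _) hp)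

theorem ax_volume_ball (x : T) {r : ℝ} (hr : 0 ≤ r) :
    volume.real {y : T | ‖y - x‖ < r} ≤ 2 * r := by
  have h1 := volume_ball_le x r
  rw [abs_of_nonneg hr] at h1
  refine le_trans (measureReal_mono (fun y hy => ?_)) h1
  exact le_of_lt (show ‖y - x‖ < r from hy)

end CH
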