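import Mathlib
import Pool.Agent.CH.Base
import Pool.Agent.CH.Defs
import Pool.Agent.CH.AGeo
import Pool.Agent.CH.AGx

/-!
# CH-ATile (0.5 h): order relations of tiles (floor divisions); Defs + AGeo + AGx + Mathlib

`P.inOm xi : xi / 2^(s+7) = m`, `P.inOm1 xi : xi / 2^(s+6) = 2m`, `P.inJ xi : xi / 2^(s+3) = 16m+8`,
`P.le Q : tin P.s P.n Q.s Q.n ∧ Q.m / 2^(P.s-Q.s) = P.m`.  Everything is `(x / a) / b = x / (a*b)`
(`Int.ediv_ediv_eq_ediv_mul` / `Int.ediv_ediv`) for positive `a`, `b`.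
-/

open MeasureTheory Complex

namespace CH

private theorem ATile_div (z : ℤ) (a b : ℕ) : z / 2 ^ a / 2 ^ b = z / 2 ^ (a + b) := by
  have h : ¬ ((2 : ℤ) ^ a < 0) := not_lt.2 (by positivity)
  rw [pow_add, Int.ediv_ediv, if_neg (fun h' => h h'.1), sub_zero]

namespace Tile

theorem le_refl (P : Tile) : P.le P := ⟨tin_refl _ _, by simp⟩

theorem le_trans {P Q R : Tile} (h : P.le Q) (h' : Q.le R) : P.le R := by
  refine ⟨tin_trans h.1 h'.1, ?_⟩
  have h1 := h.1.1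
  have h2 := h'.1.1
  rw [← h.2, ← h'.2, ATile_div]
  congr 2
  omega

theorem le_antisymm {P Q : Tile} (h : P.le Q) (h' : Q.le P) : P = Q := by
  obtain ⟨s, n, m⟩ := P
  obtain ⟨s', n', m'⟩ := Q
  have h1 : s' ≤ s := h.1.1
  have h2 : s ≤ s' := h'.1.1
  obtain rfl : s = s' := by omega
  have h3 : n / 2 ^ (s - s) = n' := h.1.2
  have h4 : m' / 2 ^ (s - s) = m := h.2
  simp only [Nat.sub_self, pow_zero, Nat.div_one] at h3
  simp only [Nat.sub_self, pow_zero, Int.ediv_one] at h4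
  rw [h3, h4]

theorem s_le_of_le {P Q : Tile} (h : P.le Q) : Q.s ≤ P.s := h.1.1

theorem D_subset_of_le {P Q : Tile} (h : P.le Q) : D P.s P.n ⊆ D Q.s Q.n := tin_D h.1

theorem inOm_of_le {P Q : Tile} (h : P.le Q) {xi : ℤ} (hx : Q.inOm xi) : P.inOm xi := by
  have h1 := h.1.1
  unfold inOm at hx ⊢
  rw [← h.2, ← hx, ATile_div]
  congr 2
  omega

/-- two tiles whose time intervals meet and whose frequency intervals meet are comparable -/
theorem le_of_mem {P Q : Tile} (h : Q.s ≤ P.s) {x : T} (hx : x ∈ D P.s P.n) (hx' : x ∈ D Q.s Q.n)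
    {xi : ℤ} (h1 : P.inOm xi) (h2 : Q.inOm xi) : P.le Q := by
  refine ⟨ax_tin_of_mem h hx hx', ?_⟩
  unfold inOm at h1 h2
  rw [← h1, ← h2, ATile_div]
  congr 2
  omega

theorem le_of_tin {P Q : Tile} (h : tin P.s P.n Q.s Q.n) {xi : ℤ} (h1 : P.inOm xi)
    (h2 : Q.inOm xi) : P.le Q := by
  refine ⟨h, ?_⟩
  have h3 := h.1
  unfold inOm at h1 h2
  rw [← h1, ← h2, ATile_div]
  congr 2
  omega

theorem inOm_of_inJ {P : Tile} {xi : ℤ} (h : P.inJ xi) : P.inOm xi := by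
  unfold inJ at h
  unfold inOm
  rw [show P.s + 7 = (P.s + 3) + 4 by ring, ← ATile_div, h]
  norm_num
  omega

theorem inOm_of_inOm1 {P : Tile} {xi : ℤ} (h : P.inOm1 xi) : P.inOm xi := by
  unfold inOm1 at h
  unfold inOm
  rw [show P.s + 7 = (P.s + 6) + 1 by ring, ← ATile_div, h]
  norm_num

private theorem ATile_J {P : Tile} {xi : ℤ} (h : P.inJ xi) : xi / 2 ^ (P.s + 6) = 2 * P.m + 1 := by
  unfold inJ at h
  rw [show P.s + 6 = (P.s + 3) + 3 by ring, ← ATile_div, h]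
  norm_num
  omega

theorem not_inOm1_of_inJ {P : Tile} {xi : ℤ} (h : P.inJ xi) : ¬ P.inOm1 xi := by
  intro h1
  have h2 := ATile_J h
  unfold inOm1 at h1
  omega

theorem lt_of_inOm1_inJ {P : Tile} {z z' : ℤ} (h : P.inOm1 z) (h' : P.inJ z') : z < z' := by
  by_contra hcon
  push Not at hcon
  have h1 : z' / 2 ^ (P.s + 6) ≤ z / 2 ^ (P.s + 6) := Int.ediv_le_ediv (by positivity) hcon
  have h2 := ATile_J h'
  unfold inOm1 at h
  omega

/-- a frequency in `omega_P` -/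
theorem inOm_left (P : Tile) : P.inOm (P.m * 2 ^ (P.s + 7)) :=
  Int.mul_ediv_cancel _ (by positivity)

theorem m_eq_of_inOm {P Q : Tile} (hs : P.s = Q.s) {xi : ℤ} (h1 : P.inOm xi) (h2 : Q.inOm xi) :
    P.m = Q.m := by
  unfold inOm at h1 h2
  rw [← h1, ← h2, hs]

/-- `omega_P ⊆ omega_{1,Q}` as soon as they meet and `P.s < Q.s` -/
theorem sub_Om1 {P Q : Tile} (hs : P.s < Q.s) {xi : ℤ} (h1 : P.inOm xi) (h2 : Q.inOm1 xi) :
    ∀ z, P.inOm z → Q.inOm1 z := by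
  intro z hz
  unfold inOm at h1 hz
  unfold inOm1 at h2 ⊢
  obtain ⟨k, hk⟩ : ∃ k, Q.s + 6 = (P.s + 7) + k := ⟨Q.s + 6 - (P.s + 7), by omega⟩
  rw [← h2, hk, ← ATile_div z (P.s + 7) k, ← ATile_div xi (P.s + 7) k, hz, h1]

/-- `omega_P ⊆ omega_Q` as soon as they meet and `P.s ≤ Q.s` -/
theorem sub_Om {P Q : Tile} (hs : P.s ≤ Q.s) {xi : ℤ} (h1 : P.inOm xi) (h2 : Q.inOm xi) :
    ∀ z, P.inOm z → Q.inOm z := by
  intro z hz
  unfold inOm at h1 h2 hz ⊢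
  obtain ⟨k, hk⟩ : ∃ k, Q.s + 7 = (P.s + 7) + k := ⟨Q.s - P.s, by omega⟩
  rw [← h2, hk, ← ATile_div z (P.s + 7) k, ← ATile_div xi (P.s + 7) k, hz, h1]

/-- frequencies of `psi_P` are in `omega_{1,P}` -/
theorem inOm1_of_mem {P : Tile} {j : ℤ}
    (hj : j ∈ Finset.Icc (P.mid - 2 ^ (P.s + 6)) (P.mid - 2 ^ (P.s + 3))) : P.inOm1 j := by
  rw [Finset.mem_Icc] at hj
  unfold mid at hj
  unfold inOm1
  have h1 : (0 : ℤ) < 2 ^ (P.s + 6) := by positivity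
  have h2 : (0 : ℤ) < 2 ^ (P.s + 3) := by positivity
  have h3 : (2 : ℤ) ^ (P.s + 7) = 2 * 2 ^ (P.s + 6) := by ring
  rw [h3] at hj
  obtain ⟨ha, hb⟩ := hj
  rw [Int.ediv_eq_iff_of_pos h1]
  constructor <;> nlinarith

theorem measurableSet_inOm (P : Tile) {N : T → ℤ} (hN : Measurable N) :
    MeasurableSet {x | P.inOm (N x)} :=
  hN (MeasurableSet.of_discrete (s := {z : ℤ | P.inOm z}))

theorem measurableSet_inJ (P : Tile) {N : T → ℤ} (hN : Measurable N) :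
    MeasurableSet {x | P.inJ (N x)} :=
  hN (MeasurableSet.of_discrete (s := {z : ℤ | P.inJ z}))

end Tile
end CH
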