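import Mathlib
import Pool.Agent.CH.Base
import Pool.Agent.CH.Defs
import Pool.Agent.CH.AGeo
import Pool.Agent.CH.AGx
import Pool.Agent.CH.ATile

/-!
# CH-AEn1 (1.5 h): the selection of trees in the energy lemma (combinatorial)

Strong induction on `PP.card`.  Call `(s,n,xi)` bad for `PP` if `eps^2/4/2^s < ∑_{P ∈ PP, tin P.s P.n s n, P.inJ xi} a P^2`.
* If nothing is bad then `EnLE a PP (eps/2)` (and for subsets, `a^2 ≥ 0`): `n = 0`.
* Otherwise there is a bad `(s0,n0,xi0)` with `xi0 ≤ xi` for ALL bad `(s,n,xi)`: if `(s,n,xi)` is bad its filter is nonempty; so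
  `xi ≥ min_{P∈PP} (left end of J_P)`: the set of bad `xi` is a nonempty set of integers bounded below, so it has a least element
  (`Int.exists_least_of_bdd` or `Int.le_induction`...).  `n0 < 2^s0` because some `P ∈ PP` (ok) has `tin P.s P.n s0 n0` (`tin_ok`).
  `T0 = PP.filter (tin P.s P.n s0 n0 ∧ P.inJ xi0)`, `PP1 = PP.filter (¬ inTree (s0,n0,xi0) P)`; `T0` is nonempty and disjoint from `PP1`
  (`inOm_of_inJ`), so `PP1.card < PP.card`; induction gives `(top i, TT i)`, `i < n`, for `PP1`; put `(s0,n0,xi0), T0` in front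
  (`Fin.cons`, or use lists / an arbitrary finite index type: the statement allows any `Fintype ι`, take `Option ι`).
* `big` for `i` (new) says that `top i` is bad for `PP1`, hence for `PP`: `xi0 ≤ (top i).2.2`.
* `key`: `P ∈ TT i`, `P' ∈ TT j`, `P.s < P'.s`, `omega_P ⊆ omega_{1,P'}`.
  - `i = none`, `j = some`: `xi0 ∈ J_P ⊆ omega_P ⊆ omega_{1,P'} ⊆ omega_P'`.  If `D P'.s P'.n` met `D s0 n0` then, since
    `s0 ≤ P.s < P'.s`, `tin P'.s P'.n s0 n0` (`ax_tin_of_mem`), so `inTree (s0,n0,xi0) P'`, contradiction with `P' ∈ PP1`.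
  - `i = some`, `j = none`: `xi_i ∈ J_P`, so `xi_i ∈ omega_{1,P'}`, `xi0 ∈ J_{P'}`: `xi_i < xi0` (`lt_of_inOm1_inJ`), contradiction.
  - `i = j = none`: `xi0 ∈ J_P` so in `omega_{1,P'}`, but `xi0 ∈ J_{P'}` (`not_inOm1_of_inJ`).   - both `some`: induction.
* `rest`: a tile of `PL` in no tree is in `PP1`.
-/

open MeasureTheory Complex

namespace CH

/-- output of the selection -/
structure Sel (a : Tile → ℝ) (PP : Finset Tile) (eps : ℝ) {ι : Type} [Fintype ι]
    (top : ι → ℕ × ℕ × ℤ) (TT : ι → Finset Tile) : Prop where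
  sub : ∀ i, TT i ⊆ PP
  disj : ∀ i j, i ≠ j → Disjoint (TT i) (TT j)
  ok : ∀ i, (top i).2.1 < 2 ^ (top i).1
  mem : ∀ i, ∀ P ∈ TT i, tin P.s P.n (top i).1 (top i).2.1 ∧ P.inJ (top i).2.2
  big : ∀ i, eps ^ 2 / 4 / 2 ^ (top i).1 < ∑ P ∈ TT i, a P ^ 2
  key : ∀ i j, ∀ P ∈ TT i, ∀ P' ∈ TT j, P.s < P'.s → (∀ z, P.inOm z → P'.inOm1 z) →
    Disjoint (D P'.s P'.n) (D (top i).1 (top i).2.1)
  rest : ∀ PL : Finset Tile, PL ⊆ PP → (∀ P ∈ PL, ∀ i, ¬ inTree (top i) P) → EnLE a PL (eps / 2)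

theorem AEn1_mono (a : Tile → ℝ) {PL PP : Finset Tile} (h : PL ⊆ PP) {eps : ℝ}
    (hE : EnLE a PP eps) : EnLE a PL eps := by
  classical
  intro s n xi
  refine le_trans ?_ (hE s n xi)
  refine Finset.sum_le_sum_of_subset_of_nonneg ?_ (fun P _ _ => sq_nonneg _)
  intro P hP
  rw [Finset.mem_filter] at hP ⊢
  exact ⟨h hP.1, hP.2⟩

theorem AEn1_lower {P : Tile} {xi : ℤ} (h : P.inJ xi) : (16 * P.m + 8) * 2 ^ (P.s + 3) ≤ xi := by
  unfold Tile.inJ at h
  have h2 : (0 : ℤ) < 2 ^ (P.s + 3) := by positivity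
  rw [← h]
  exact Int.ediv_mul_le xi h2.ne'

theorem exists_sel (a : Tile → ℝ) (eps : ℝ) (heps : 0 < eps) (PP : Finset Tile)
    (hok : ∀ P ∈ PP, P.ok) :
    ∃ (ι : Type) (_ : Fintype ι) (top : ι → ℕ × ℕ × ℤ) (TT : ι → Finset Tile),
      Sel a PP eps top TT := by
  classical
  induction hc : PP.card using Nat.strong_induction_on generalizing PP with
  | _ k ih =>
  by_cases hE : EnLE a PP (eps / 2)
  · refine ⟨Fin 0, inferInstance, fun i => i.elim0, fun i => i.elim0, ?_⟩
    refine ⟨fun i => i.elim0, fun i => i.elim0, fun i => i.elim0, fun i => i.elim0,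
      fun i => i.elim0, fun i => i.elim0, ?_⟩
    intro PL hPL _
    exact AEn1_mono a hPL hE
  · -- a bad triple
    set Bad : ℤ → Prop := fun xi => ∃ s n : ℕ, eps ^ 2 / 4 / 2 ^ s <
      ∑ P ∈ PP.filter (fun P => tin P.s P.n s n ∧ P.inJ xi), a P ^ 2 with hBad
    have hne : ∃ z, Bad z := by
      unfold EnLE at hE
      push Not at hE
      obtain ⟨s, n, xi, h⟩ := hE
      refine ⟨xi, s, n, ?_⟩
      have e1 : (eps / 2) ^ 2 / 2 ^ s = eps ^ 2 / 4 / 2 ^ s := by ring
      rw [e1] at h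
      convert h
    have hbdd : ∃ b : ℤ, ∀ z, Bad z → b ≤ z := by
      refine ⟨-∑ P ∈ PP, |(16 * P.m + 8) * 2 ^ (P.s + 3)|, ?_⟩
      rintro z ⟨s, n, h⟩
      have hpos : (0 : ℝ) < ∑ P ∈ PP.filter (fun P => tin P.s P.n s n ∧ P.inJ z), a P ^ 2 :=
        lt_of_le_of_lt (by positivity) h
      have hnon : (PP.filter (fun P => tin P.s P.n s n ∧ P.inJ z)).Nonempty := by
        rw [Finset.nonempty_iff_ne_empty]
        intro h0
        rw [h0] at hpos
        simp at hpos
      obtain ⟨P, hP⟩ := hnon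
      rw [Finset.mem_filter] at hP
      have h1 := AEn1_lower hP.2.2
      have h2 : |(16 * P.m + 8) * 2 ^ (P.s + 3)| ≤
          ∑ P ∈ PP, |(16 * P.m + 8) * 2 ^ (P.s + 3)| :=
        Finset.single_le_sum (f := fun P : Tile => |(16 * P.m + 8) * 2 ^ (P.s + 3)|)
          (fun i _ => abs_nonneg _) hP.1
      have h3 := neg_abs_le ((16 * P.m + 8) * 2 ^ (P.s + 3))
      linarith
    obtain ⟨xi0, ⟨s0, n0, h0⟩, hmin⟩ := Int.exists_least_of_bdd hbdd hne
    set T0 := PP.filter (fun P => tin P.s P.n s0 n0 ∧ P.inJ xi0) with hT0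
    set PP1 := PP.filter (fun P => ¬ inTree (s0, n0, xi0) P) with hPP1
    have hT0non : T0.Nonempty := by
      rw [Finset.nonempty_iff_ne_empty]
      intro h1
      rw [h1] at h0
      simp at h0
      have : (0 : ℝ) ≤ eps ^ 2 / 4 / 2 ^ s0 := by positivity
      linarith
    have hT0mem : ∀ P ∈ T0, P ∈ PP ∧ tin P.s P.n s0 n0 ∧ P.inJ xi0 := by
      intro P hP
      rw [hT0, Finset.mem_filter] at hP
      exact hP
    have hPP1mem : ∀ P ∈ PP1, P ∈ PP ∧ ¬ inTree (s0, n0, xi0) P := by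
      intro P hP
      rw [hPP1, Finset.mem_filter] at hP
      exact hP
    have hT0tree : ∀ P ∈ T0, inTree (s0, n0, xi0) P := by
      intro P hP
      obtain ⟨_, h1, h2⟩ := hT0mem P hP
      exact ⟨h1, Tile.inOm_of_inJ h2⟩
    have hcard : PP1.card < PP.card := by
      obtain ⟨P, hP⟩ := hT0non
      refine Finset.card_lt_card ⟨Finset.filter_subset _ _, ?_⟩
      intro hsub
      have := hPP1mem P (hsub (hT0mem P hP).1)
      exact this.2 (hT0tree P hP)
    obtain ⟨ι, hι, top, TT, hS⟩ := ih PP1.card (by rw [← hc]; exact hcard) PP1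
      (fun P hP => hok P (hPP1mem P hP).1) rfl
    have hge : ∀ i, xi0 ≤ (top i).2.2 := by
      intro i
      refine hmin _ ⟨(top i).1, (top i).2.1, lt_of_lt_of_le (hS.big i) ?_⟩
      refine Finset.sum_le_sum_of_subset_of_nonneg ?_ (fun P _ _ => sq_nonneg _)
      intro P hP
      rw [Finset.mem_filter]
      exact ⟨(hPP1mem P (hS.sub i hP)).1, hS.mem i P hP⟩
    have hdisj0 : ∀ i, Disjoint T0 (TT i) := by
      intro i
      rw [Finset.disjoint_left]
      intro P hP hP'
      exact (hPP1mem P (hS.sub i hP')).2 (hT0tree P hP)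
    refine ⟨Option ι, inferInstance, fun o => o.elim (s0, n0, xi0) top,
      fun o => o.elim T0 TT, ?_⟩
    refine ⟨?_, ?_, ?_, ?_, ?_, ?_, ?_⟩
    · rintro (_ | i)
      · exact Finset.filter_subset _ _
      · exact (hS.sub i).trans (Finset.filter_subset _ _)
    · rintro (_ | i) (_ | j) hij
      · exact absurd rfl hij
      · exact hdisj0 j
      · exact (hdisj0 i).symm
      · exact hS.disj i j (fun h => hij (by rw [h]))
    · rintro (_ | i)
      · obtain ⟨P, hP⟩ := hT0non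
        obtain ⟨h1, h2, _⟩ := hT0mem P hP
        exact tin_ok P.s P.n s0 n0 (hok P h1) h2
      · exact hS.ok i
    · rintro (_ | i) P hP
      · exact (hT0mem P hP).2
      · exact hS.mem i P hP
    · rintro (_ | i)
      · exact h0
      · exact hS.big i
    · rintro (_ | i) (_ | j) P hP P' hP' hlt hsub
      · exfalso
        have h1 := (hT0mem P hP).2.2
        have h2 := (hT0mem P' hP').2.2
        exact Tile.not_inOm1_of_inJ h2 (hsub _ (Tile.inOm_of_inJ h1))
      · have hPm := hT0mem P hP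
        have hP1 := hPP1mem P' (hS.sub j hP')
        have hOm : P'.inOm xi0 :=
          Tile.inOm_of_inOm1 (hsub _ (Tile.inOm_of_inJ hPm.2.2))
        have hle : s0 ≤ P'.s := le_trans hPm.2.1.1 hlt.le
        change Disjoint (D P'.s P'.n) (D s0 n0)
        exact ax_disjoint_of_not_tin hle (fun ht => hP1.2 ⟨ht, hOm⟩)
      · exfalso
        have h1 := (hS.mem i P hP).2
        have h2 := (hT0mem P' hP').2.2
        have h3 := Tile.lt_of_inOm1_inJ (hsub _ (Tile.inOm_of_inJ h1)) h2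
        exact absurd (hge i) (not_le.mpr h3)
      · exact hS.key i j P hP P' hP' hlt hsub
    · intro PL hPL hno
      refine hS.rest PL ?_ (fun P hP i => hno P hP (some i))
      intro P hP
      rw [hPP1, Finset.mem_filter]
      exact ⟨hPL hP, hno P hP none⟩

end CH
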