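import Mathlib
import Pool.Agent.CH.Base
import Pool.Agent.CH.Defs
import Pool.Agent.CH.AGeo
import Pool.Agent.CH.AGx
import Pool.Agent.CH.ATile
import Pool.Agent.CH.AEn1

/-!
# CH-AEn2 (0.4 h): disjointness of the time intervals interacting with one tile

`P` fixed, `P' ∈ TT j`, `P'' ∈ TT l`, `P' ≠ P''`, `P.s < P'.s`, `P.s < P''.s`, `omega_P ⊆ omega_{1,P'}`, `omega_P ⊆ omega_{1,P''}`.
WLOG `P'.s ≤ P''.s`.  A frequency `z` of `omega_P` (`Tile.inOm_left`) is in both `omega_{1,P'}` and `omega_{1,P''}`.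
* `P'.s = P''.s`: then `P'.m = P''.m` (`m_eq_of_inOm`), so `P'.n ≠ P''.n` and `ax_disjoint_D`.
* `P'.s < P''.s`: `z ∈ omega_P'` and `z ∈ omega_{1,P''}`, so `omega_P' ⊆ omega_{1,P''}` (`sub_Om1`), `key` for `(P',P'')` says that
  `D P''` is disjoint from `D (top j)`, which contains `D P'` (`mem`, `tin_D`).
-/

open MeasureTheory Complex

namespace CH

private theorem tile_ext {P Q : Tile} (hs : P.s = Q.s) (hn : P.n = Q.n) (hm : P.m = Q.m) : P = Q := by
  cases P; cases Q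
  simp only at hs hn hm
  subst hs hn hm
  rfl

private theorem disj_pair_aux {a : Tile → ℝ} {PP : Finset Tile} {eps : ℝ} {ι : Type} [Fintype ι]
    {top : ι → ℕ × ℕ × ℤ} {TT : ι → Finset Tile} (h : Sel a PP eps top TT)
    {P P' P'' : Tile} {j l : ι} (h' : P' ∈ TT j) (h'' : P'' ∈ TT l) (hne : P' ≠ P'')
    (hle : P'.s ≤ P''.s) (h1' : ∀ z, P.inOm z → P'.inOm1 z)
    (h1'' : ∀ z, P.inOm z → P''.inOm1 z) : Disjoint (D P'.s P'.n) (D P''.s P''.n) := by
  have hz := P.inOm_left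
  have hz' := h1' _ hz
  have hz'' := h1'' _ hz
  rcases hle.eq_or_lt with he | hlt
  · have hm := Tile.m_eq_of_inOm he (Tile.inOm_of_inOm1 hz') (Tile.inOm_of_inOm1 hz'')
    have hn : P'.n ≠ P''.n := fun hn => hne (tile_ext he hn hm)
    rw [he]
    exact ax_disjoint_D hn
  · have hsub := Tile.sub_Om1 hlt (Tile.inOm_of_inOm1 hz') hz''
    have hk := h.key j l P' h' P'' h'' hlt hsub
    exact (hk.mono_right (tin_D (h.mem j P' h').1)).symm

theorem Sel.disj_pair {a : Tile → ℝ} {PP : Finset Tile} {eps : ℝ} {ι : Type} [Fintype ι]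
    {top : ι → ℕ × ℕ × ℤ} {TT : ι → Finset Tile} (h : Sel a PP eps top TT)
    {P P' P'' : Tile} {j l : ι} (h' : P' ∈ TT j) (h'' : P'' ∈ TT l) (hne : P' ≠ P'')
    (hs' : P.s < P'.s) (hs'' : P.s < P''.s) (h1' : ∀ z, P.inOm z → P'.inOm1 z)
    (h1'' : ∀ z, P.inOm z → P''.inOm1 z) : Disjoint (D P'.s P'.n) (D P''.s P''.n) := by
  rcases le_total P'.s P''.s with hle | hle
  · exact disj_pair_aux h h' h'' hne hle h1' h1''
  · exact (disj_pair_aux h h'' h' hne.symm hle h1'' h1').symm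

/-- in one tree there is at most one tile for each time interval -/
theorem Sel.inj {a : Tile → ℝ} {PP : Finset Tile} {eps : ℝ} {ι : Type} [Fintype ι]
    {top : ι → ℕ × ℕ × ℤ} {TT : ι → Finset Tile} (h : Sel a PP eps top TT) (i : ι)
    {P Q : Tile} (hP : P ∈ TT i) (hQ : Q ∈ TT i) (hs : P.s = Q.s) (hn : P.n = Q.n) : P = Q := by
  exact tile_ext hs hn (Tile.m_eq_of_inOm hs (Tile.inOm_of_inJ (h.mem i P hP).2)
    (Tile.inOm_of_inJ (h.mem i Q hQ).2))

end CH
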