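import Mathlib
import Pool.Agent.CH.Base
import Pool.Agent.CH.Defs
import Pool.Agent.CH.AGeo
import Pool.Agent.CH.AGx

/-!
# CH-AEn3 (1 h): geometric sum over the subintervals of a dyadic interval

Level `s ≥ s0`, `M = 2^(s-s0)`, the subintervals of `D s0 n0` of level `s` are `D s (n0 M + j)`, `0 ≤ j < M`, with left end point
`c = cpt s (n0 M + j)`.  For `x ∉ D s0 n0`: `‖x - c‖ ≥ min(j, M - j)/2^s` (the arc `[n0/2^s0, (n0+1)/2^s0)` contains the points at distance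
`< min(j, M-j)/2^s` from `c`), so `rho_s(x,c) ≥ 1 + min(j, M-j)` and by (`ax_G2`)
`∫_{x ∉ D s0 n0} 1/rho_s(x,c)^6 ≤ (1+min(j,M-j))^-4 * 4/2^s ≤ (1/(1+j)^2 + 1/(1+M-j)^2) 4/2^s`.
Sum over `j`: `≤ 4 * 4/2^s` (`∑_{i≥1} 1/i^2 ≤ 2`); sum over `s ≥ s0`: `≤ 32/2^s0`.
-/

open MeasureTheory Complex

namespace CH

private theorem exists_lift (z : T) : ∃ t : ℝ, ((t : ℝ) : T) = z ∧ |t| = ‖z‖ := by
  refine ⟨rep z - round (rep z), ?_, ?_⟩
  · rw [AddCircle.coe_sub, coe_rep]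
    have : (((round (rep z) : ℤ) : ℝ) : T) = 0 := by
      rw [AddCircle.coe_eq_zero_iff]
      exact ⟨round (rep z), by simp⟩
    rw [this, sub_zero]
  · rw [← UnitAddCircle.norm_eq, coe_rep]

private theorem dist_ge {s0 n0 s n : ℕ} (ht : tin s n s0 n0) (hn : n < 2 ^ s) {x : T}
    (hx : x ∉ D s0 n0) : (min ((n - n0 * 2 ^ (s - s0) : ℕ) : ℝ)
      (((n0 + 1) * 2 ^ (s - s0) - n : ℕ) : ℝ)) / 2 ^ s ≤ ‖x - cpt s n‖ := by
  by_contra hlt
  push Not at hlt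
  apply hx
  obtain ⟨hs, hdiv⟩ := ht
  have hMpos : 0 < 2 ^ (s - s0) := by positivity
  have h1 : n0 * 2 ^ (s - s0) ≤ n := by
    rw [← hdiv]; exact Nat.div_mul_le_self _ _
  have h2 : n < (n0 + 1) * 2 ^ (s - s0) := by
    rw [← hdiv, mul_comm]; exact Nat.lt_mul_div_succ n hMpos
  obtain ⟨t, ht1, ht2⟩ := exists_lift (x - cpt s n)
  rw [← ht2, lt_div_iff₀ (by positivity), lt_min_iff] at hlt
  have hx' : x = (((n : ℝ) / 2 ^ s + t : ℝ) : T) := by
    rw [AddCircle.coe_add, ht1]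
    unfold cpt
    abel
  have hp : (0 : ℝ) < 2 ^ s := by positivity
  have hp0 : (0 : ℝ) < 2 ^ s0 := by positivity
  have hpow : (2 : ℝ) ^ s = 2 ^ s0 * 2 ^ (s - s0) := by
    rw [← pow_add, Nat.add_sub_cancel' hs]
  have c1 : (((n - n0 * 2 ^ (s - s0) : ℕ)) : ℝ) = n - n0 * 2 ^ (s - s0) := by
    rw [Nat.cast_sub h1]; push_cast; ring
  have c2 : ((((n0 + 1) * 2 ^ (s - s0) - n : ℕ)) : ℝ) = (n0 + 1) * 2 ^ (s - s0) - n := by
    rw [Nat.cast_sub h2.le]; push_cast; ring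
  rw [c1, c2] at hlt
  have hneg := neg_abs_le t
  have hpos := le_abs_self t
  have hq : (0 : ℝ) < 2 ^ (s - s0) := by positivity
  have hlow : (n0 : ℝ) / 2 ^ s0 < (n : ℝ) / 2 ^ s + t := by
    have : (n0 : ℝ) / 2 ^ s0 = n0 * 2 ^ (s - s0) / 2 ^ s := by
      rw [hpow]; field_simp
    rw [this, div_add' _ _ _ hp.ne', div_lt_div_iff_of_pos_right hp]
    nlinarith [hlt.1]
  have hup : (n : ℝ) / 2 ^ s + t < ((n0 : ℝ) + 1) / 2 ^ s0 := by
    have : ((n0 : ℝ) + 1) / 2 ^ s0 = (n0 + 1) * 2 ^ (s - s0) / 2 ^ s := by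
      rw [hpow]; field_simp
    rw [this, div_add' _ _ _ hp.ne', div_lt_div_iff_of_pos_right hp]
    nlinarith [hlt.2]
  have hn0 : (n0 : ℝ) + 1 ≤ 2 ^ s0 := by
    have : n0 + 1 ≤ 2 ^ s0 := tin_ok s n s0 n0 hn ⟨hs, hdiv⟩
    exact_mod_cast this
  have hrep : rep x = (n : ℝ) / 2 ^ s + t := by
    rw [hx']
    refine rep_of_mem _ (le_trans (by positivity) hlow.le) (hup.trans_le ?_)
    rw [div_le_one hp0]
    exact hn0
  show idx s0 x = n0
  rw [idx_eq_iff, hrep]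
  exact ⟨hlow.le, hup⟩

theorem geo_one {s0 n0 s n : ℕ} (ht : tin s n s0 n0) (hn : n < 2 ^ s) :
    ∫ x in (D s0 n0)ᶜ, 1 / rho s x (cpt s n) ^ 6 ≤
      (1 / (1 + ((n - n0 * 2 ^ (s - s0) : ℕ) : ℝ)) ^ 2 +
        1 / (1 + (((n0 + 1) * 2 ^ (s - s0) - n : ℕ) : ℝ)) ^ 2) * (4 / 2 ^ s) := by
  set j : ℝ := ((n - n0 * 2 ^ (s - s0) : ℕ) : ℝ) with hj
  set k : ℝ := (((n0 + 1) * 2 ^ (s - s0) - n : ℕ) : ℝ) with hk
  have hj0 : 0 ≤ j := Nat.cast_nonneg _
  have hk0 : 0 ≤ k := Nat.cast_nonneg _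
  have hm0 : 0 ≤ min j k := le_min hj0 hk0
  have hp : (0 : ℝ) < 2 ^ s := by positivity
  have hmin : 1 / (1 + min j k) ^ 4 ≤ 1 / (1 + j) ^ 2 + 1 / (1 + k) ^ 2 := by
    have h1 : 1 / (1 + min j k) ^ 4 ≤ 1 / (1 + min j k) ^ 2 := by
      apply one_div_le_one_div_of_le (by positivity)
      apply pow_le_pow_right₀ (by linarith) (by norm_num)
    refine h1.trans ?_
    rcases min_choice j k with h | h
    · rw [h]
      have : 0 ≤ 1 / (1 + k) ^ 2 := by positivity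
      linarith
    · rw [h]
      have : 0 ≤ 1 / (1 + j) ^ 2 := by positivity
      linarith
  have hpt : ∀ x ∈ (D s0 n0)ᶜ, 1 / rho s x (cpt s n) ^ 6 ≤
      1 / (1 + min j k) ^ 4 * (1 / rho s x (cpt s n) ^ 2) := by
    intro x hx
    have hd := dist_ge ht hn (x := x) hx
    have hr : 1 + min j k ≤ rho s x (cpt s n) := by
      unfold rho
      rw [div_le_iff₀ hp] at hd
      linarith
    rw [one_div_mul_one_div]
    apply one_div_le_one_div_of_le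
    · have := rho_pos s x (cpt s n)
      positivity
    · have h4 : (1 + min j k) ^ 4 ≤ rho s x (cpt s n) ^ 4 := pow_le_pow_left₀ (by linarith) hr 4
      calc (1 + min j k) ^ 4 * rho s x (cpt s n) ^ 2
          ≤ rho s x (cpt s n) ^ 4 * rho s x (cpt s n) ^ 2 := by gcongr
        _ = rho s x (cpt s n) ^ 6 := by ring
  calc ∫ x in (D s0 n0)ᶜ, 1 / rho s x (cpt s n) ^ 6
      ≤ ∫ x in (D s0 n0)ᶜ, 1 / (1 + min j k) ^ 4 * (1 / rho s x (cpt s n) ^ 2) :=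
        setIntegral_mono_on (integrable_inv_rho s 6 _).integrableOn
          ((integrable_inv_rho s 2 _).const_mul _).integrableOn
          (measurableSet_D s0 n0).compl hpt
    _ ≤ ∫ x, 1 / (1 + min j k) ^ 4 * (1 / rho s x (cpt s n) ^ 2) :=
        setIntegral_le_integral ((integrable_inv_rho s 2 _).const_mul _)
          (Filter.Eventually.of_forall fun x => by
            have := rho_pos s x (cpt s n)
            show (0 : ℝ) ≤ 1 / (1 + min j k) ^ 4 * (1 / rho s x (cpt s n) ^ 2)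
            positivity)
    _ = 1 / (1 + min j k) ^ 4 * ∫ x, 1 / rho s x (cpt s n) ^ 2 := integral_const_mul _ _
    _ ≤ (1 / (1 + j) ^ 2 + 1 / (1 + k) ^ 2) * (4 / 2 ^ s) := by
        apply mul_le_mul hmin (ax_G2 s (cpt s n) le_rfl)
        · exact integral_nonneg fun x => by
            have := rho_pos s x (cpt s n)
            show (0 : ℝ) ≤ 1 / rho s x (cpt s n) ^ 2
            positivity
        · positivity

private theorem sum_sq_le (M : ℕ) : ∑ j ∈ Finset.range M, 1 / (1 + (j : ℝ)) ^ 2 ≤ 2 := by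
  have h : ∀ M : ℕ, ∑ j ∈ Finset.range (M + 1), 1 / (1 + (j : ℝ)) ^ 2 ≤ 2 - 1 / ((M : ℝ) + 1) := by
    intro M
    induction M with
    | zero => norm_num
    | succ M ih =>
      rw [Finset.sum_range_succ]
      have h1 : 1 / (1 + ((M + 1 : ℕ) : ℝ)) ^ 2 ≤ 1 / ((M : ℝ) + 1) - 1 / (((M + 1 : ℕ) : ℝ) + 1) := by
        push_cast
        rw [div_sub_div _ _ (by positivity) (by positivity), div_le_div_iff₀ (by positivity) (by positivity)]
        have : (0 : ℝ) ≤ M := Nat.cast_nonneg M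
        nlinarith
      linarith
  rcases M with _ | M
  · simp
  · have h1 := h M
    have : 0 ≤ 1 / ((M : ℝ) + 1) := by positivity
    linarith

private theorem level_le (s0 n0 s : ℕ) (U : Finset ℕ)
    (hU : U ⊆ Finset.Ico (n0 * 2 ^ (s - s0)) ((n0 + 1) * 2 ^ (s - s0))) :
    ∑ n ∈ U, (1 / (1 + ((n - n0 * 2 ^ (s - s0) : ℕ) : ℝ)) ^ 2 +
        1 / (1 + (((n0 + 1) * 2 ^ (s - s0) - n : ℕ) : ℝ)) ^ 2) * (4 / 2 ^ s) ≤ 16 / 2 ^ s := by
  set M := 2 ^ (s - s0) with hM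
  have h1 : ∑ n ∈ U, (1 / (1 + ((n - n0 * M : ℕ) : ℝ)) ^ 2 +
        1 / (1 + (((n0 + 1) * M - n : ℕ) : ℝ)) ^ 2) ≤ 4 := by
    refine (Finset.sum_le_sum_of_subset_of_nonneg hU fun i _ _ => by positivity).trans ?_
    rw [Finset.sum_Ico_eq_sum_range, show (n0 + 1) * M - n0 * M = M by
      rw [add_mul, one_mul, Nat.add_sub_cancel_left]]
    have h2 : ∀ j ∈ Finset.range M, (1 / (1 + ((n0 * M + j - n0 * M : ℕ) : ℝ)) ^ 2 +
        1 / (1 + (((n0 + 1) * M - (n0 * M + j) : ℕ) : ℝ)) ^ 2) =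
        1 / (1 + (j : ℝ)) ^ 2 + 1 / (1 + ((M - j : ℕ) : ℝ)) ^ 2 := by
      intro j _
      rw [Nat.add_sub_cancel_left, add_mul, one_mul, Nat.add_sub_add_left]
    rw [Finset.sum_congr rfl h2, Finset.sum_add_distrib]
    have h3 : ∑ j ∈ Finset.range M, 1 / (1 + ((M - j : ℕ) : ℝ)) ^ 2 ≤ 2 := by
      rw [← Finset.sum_range_reflect]
      refine le_trans (Finset.sum_le_sum fun j hj => ?_) (sum_sq_le M)
      have hj' := Finset.mem_range.1 hj
      apply one_div_le_one_div_of_le (by positivity)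
      apply pow_le_pow_left₀ (by positivity)
      have : (j : ℝ) ≤ ((M - (M - 1 - j) : ℕ) : ℝ) := by
        have : j ≤ M - (M - 1 - j) := by omega
        exact_mod_cast this
      linarith
    have h4 := sum_sq_le M
    linarith
  rw [← Finset.sum_mul]
  have hp : (0 : ℝ) < 2 ^ s := by positivity
  calc _ ≤ 4 * (4 / (2 : ℝ) ^ s) := by gcongr
    _ = 16 / 2 ^ s := by ring

theorem geo_sum {s0 n0 : ℕ} (S : Finset (ℕ × ℕ))
    (hS : ∀ p ∈ S, tin p.1 p.2 s0 n0 ∧ p.2 < 2 ^ p.1) :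
    ∑ p ∈ S, ∫ x in (D s0 n0)ᶜ, 1 / rho p.1 x (cpt p.1 p.2) ^ 6 ≤ 32 / 2 ^ s0 := by
  classical
  refine (Finset.sum_le_sum fun p hp => geo_one (hS p hp).1 (hS p hp).2).trans ?_
  rw [← Finset.sum_fiberwise_of_maps_to (t := S.image Prod.fst) (g := Prod.fst)
    (fun p hp => Finset.mem_image_of_mem _ hp)]
  have hlev : ∀ s ∈ S.image Prod.fst, ∑ p ∈ S with p.1 = s,
      (1 / (1 + ((p.2 - n0 * 2 ^ (p.1 - s0) : ℕ) : ℝ)) ^ 2 +
        1 / (1 + (((n0 + 1) * 2 ^ (p.1 - s0) - p.2 : ℕ) : ℝ)) ^ 2) * (4 / 2 ^ p.1) ≤ 16 / 2 ^ s := by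
    intro s _
    have h1 : ∑ p ∈ S with p.1 = s,
      (1 / (1 + ((p.2 - n0 * 2 ^ (p.1 - s0) : ℕ) : ℝ)) ^ 2 +
        1 / (1 + (((n0 + 1) * 2 ^ (p.1 - s0) - p.2 : ℕ) : ℝ)) ^ 2) * (4 / 2 ^ p.1) =
        ∑ n ∈ (S.filter (fun p => p.1 = s)).image Prod.snd,
          (1 / (1 + ((n - n0 * 2 ^ (s - s0) : ℕ) : ℝ)) ^ 2 +
        1 / (1 + (((n0 + 1) * 2 ^ (s - s0) - n : ℕ) : ℝ)) ^ 2) * (4 / 2 ^ s) := by
      rw [Finset.sum_image]
      · refine Finset.sum_congr rfl fun p hp => ?_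
        rw [(Finset.mem_filter.1 hp).2]
      · intro p hp q hq hpq
        have e1 := (Finset.mem_filter.1 (Finset.mem_coe.1 hp)).2
        have e2 := (Finset.mem_filter.1 (Finset.mem_coe.1 hq)).2
        exact Prod.ext (e1.trans e2.symm) hpq
    rw [h1]
    apply level_le
    intro n hn
    obtain ⟨p, hp, rfl⟩ := Finset.mem_image.1 hn
    obtain ⟨hp1, hp2⟩ := Finset.mem_filter.1 hp
    obtain ⟨⟨hs, hdiv⟩, _⟩ := hS p hp1
    rw [hp2] at hs hdiv
    rw [Finset.mem_Ico]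
    have hMpos : 0 < 2 ^ (s - s0) := by positivity
    constructor
    · rw [← hdiv]; exact Nat.div_mul_le_self _ _
    · rw [← hdiv, mul_comm]; exact Nat.lt_mul_div_succ _ hMpos
  refine (Finset.sum_le_sum hlev).trans ?_
  have hsub : S.image Prod.fst ⊆ Finset.Ico s0 (s0 + ((S.image Prod.fst).sup id + 1)) := by
    intro s hs
    obtain ⟨p, hp, rfl⟩ := Finset.mem_image.1 hs
    rw [Finset.mem_Ico]
    refine ⟨(hS p hp).1.1, ?_⟩
    have : p.1 ≤ (S.image Prod.fst).sup id := Finset.le_sup (f := id) hs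
    omega
  refine (Finset.sum_le_sum_of_subset_of_nonneg hsub fun i _ _ => by positivity).trans ?_
  rw [Finset.sum_Ico_eq_sum_range, Nat.add_sub_cancel_left]
  have hgeo : ∀ L : ℕ, ∑ i ∈ Finset.range L, (16 : ℝ) / 2 ^ (s0 + i) ≤ 32 / 2 ^ s0 - 32 / 2 ^ (s0 + L) := by
    intro L
    induction L with
    | zero => simp
    | succ L ih =>
      rw [Finset.sum_range_succ]
      have : (32 : ℝ) / 2 ^ (s0 + (L + 1)) = 16 / 2 ^ (s0 + L) := by
        rw [← add_assoc, pow_succ]; field_simp; norm_num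
      have h32 : (32 : ℝ) / 2 ^ (s0 + L) = 2 * (16 / 2 ^ (s0 + L)) := by ring
      rw [this]
      rw [h32] at ih
      linarith
  refine (hgeo _).trans ?_
  have : (0 : ℝ) ≤ 32 / 2 ^ (s0 + ((S.image Prod.fst).sup id + 1)) := by positivity
  linarith

end CH
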