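import Mathlib
import Pool.Agent.CH.Base
import Pool.Agent.CH.Defs
import Pool.Agent.CH.AGeo
import Pool.Agent.CH.AGx
import Pool.Agent.CH.ATile

/-!
# CH-AInner (0.7 h): inner products of wave packets

`inner_bound`: `|psi_P(x)| |psi_Q(x)| ≤ C1^2 sqrt(2^s) sqrt(2^s') rho_s(x,c_P)^-8 rho_s'(x,c_Q)^-8`, `s = P.s ≤ s' = Q.s`;
`rho_s(x,c_Q) ≤ rho_s'(x,c_Q)` (`ax_rho_mono`), `rho_s(c_P,c_Q) ≤ rho_s(x,c_P) rho_s(x,c_Q)` (`rho_mul`, `rho_comm`), so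
`rho_s(x,c_P)^-8 rho_s'(x,c_Q)^-8 ≤ rho_s(c_P,c_Q)^-6 rho_s'(x,c_Q)^-2`, and (`ax_G2`) `∫ rho_s'(x,c_Q)^-2 ≤ 4/2^s'`
(with `rho_comm`).  `sqrt(2^s) sqrt(2^s') / 2^s' = sqrt(2^s)/sqrt(2^s')`.
`inner_zero`: expand both (`WP.trig`), `∫ e j * conj (e k) = 0` for `j ≠ k`; a common frequency `j` would be in both
`omega_1` (`Tile.inOm1_of_mem`).
-/

open MeasureTheory Complex
open scoped ComplexConjugate

namespace CH

theorem WP.continuous {C1 : ℝ} {psi : Tile → T → ℂ} (h : WP C1 psi) (P : Tile) :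
    Continuous (psi P) := by
  obtain ⟨cc, hcc⟩ := h.trig P
  have e1 : psi P = fun x => ∑ j ∈ Finset.Icc (P.mid - 2 ^ (P.s + 6)) (P.mid - 2 ^ (P.s + 3)),
      cc j * e j x := funext hcc
  rw [e1]
  exact continuous_finsetSum _ fun j _ => continuous_const.mul (e_continuous j)

theorem WP.L2 {C1 : ℝ} {psi : Tile → T → ℂ} (h : WP C1 psi) (P : Tile) : L2 (psi P) := by
  obtain ⟨cc, hcc⟩ := h.trig P
  have e1 : psi P = fun x => ∑ j ∈ Finset.Icc (P.mid - 2 ^ (P.s + 6)) (P.mid - 2 ^ (P.s + 3)),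
      cc j * e j x := funext hcc
  rw [e1]
  exact L2.sum _ fun j _ => L2.const_mul (e_memLp j 2) (cc j)

theorem WP.nonneg {C1 : ℝ} {psi : Tile → T → ℂ} (h : WP C1 psi) : 0 ≤ C1 := by
  have h1 := h.decay ⟨0, 0, 0⟩ 0
  have h2 := (norm_nonneg _).trans h1
  by_contra hc
  push Not at hc
  have h3 := rho_pos 0 (0 : T) (Tile.c ⟨0, 0, 0⟩)
  have h4 : C1 * Real.sqrt (2 ^ 0) / rho 0 0 (Tile.c ⟨0, 0, 0⟩) ^ 8 < 0 := by
    apply div_neg_of_neg_of_pos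
    · rw [pow_zero, Real.sqrt_one, mul_one]; exact hc
    · positivity
  exact absurd h2 (not_le.2 h4)

theorem AInner_point {A B R : ℝ} (hA : 1 ≤ A) (hB : 1 ≤ B) (hR0 : 0 < R) (hR : R ≤ A * B) :
    1 / (A ^ 8 * B ^ 8) ≤ 1 / R ^ 6 * (1 / B ^ 2) := by
  have hA0 : 0 < A := by linarith
  have hB0 : 0 < B := by linarith
  rw [one_div_mul_one_div]
  apply one_div_le_one_div_of_le (by positivity)
  calc R ^ 6 * B ^ 2 ≤ (A * B) ^ 6 * B ^ 2 := by gcongr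
    _ = A ^ 6 * B ^ 8 := by ring
    _ ≤ A ^ 8 * B ^ 8 := by
        refine mul_le_mul_of_nonneg_right ?_ (by positivity)
        exact pow_le_pow_right₀ hA (by norm_num)

theorem inner_bound {C1 : ℝ} {psi : Tile → T → ℂ} (h : WP C1 psi) {P Q : Tile} (hs : P.s ≤ Q.s) :
    ‖∫ x, psi P x * conj (psi Q x)‖ ≤
      4 * C1 ^ 2 * (Real.sqrt (2 ^ P.s) / Real.sqrt (2 ^ Q.s)) / rho P.s P.c Q.c ^ 6 := by
  have hC := h.nonneg
  obtain ⟨a, ha⟩ : ∃ a, a = Real.sqrt (2 ^ P.s) := ⟨_, rfl⟩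
  obtain ⟨b, hb⟩ : ∃ b, b = Real.sqrt (2 ^ Q.s) := ⟨_, rfl⟩
  obtain ⟨R, hR⟩ : ∃ R, R = rho P.s P.c Q.c := ⟨_, rfl⟩
  have hR0 : 0 < R := by rw [hR]; exact rho_pos _ _ _
  have ha0 : 0 < a := by rw [ha]; positivity
  have hb0 : 0 < b := by rw [hb]; positivity
  have hb2 : (2 : ℝ) ^ Q.s = b ^ 2 := by rw [hb, Real.sq_sqrt (by positivity)]
  rw [← ha, ← hb, ← hR]
  have hpt : ∀ x, ‖psi P x * conj (psi Q x)‖ ≤
      C1 ^ 2 * (a * b) * (1 / R ^ 6) * (1 / rho Q.s x Q.c ^ 2) := by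
    intro x
    have h1 := h.decay P x
    have h2 := h.decay Q x
    rw [← ha] at h1
    rw [← hb] at h2
    have hA := one_le_rho P.s x P.c
    have hB := one_le_rho Q.s x Q.c
    have hRR : R ≤ rho P.s x P.c * rho Q.s x Q.c := by
      rw [hR]
      refine (rho_mul P.s P.c x Q.c).trans ?_
      rw [rho_comm P.s P.c x]
      exact mul_le_mul_of_nonneg_left (ax_rho_mono hs x Q.c) (by linarith)
    have h3 := AInner_point hA hB hR0 hRR
    have hA0 : 0 < rho P.s x P.c := by linarith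
    have hB0 : 0 < rho Q.s x Q.c := by linarith
    rw [norm_mul, RCLike.norm_conj]
    calc ‖psi P x‖ * ‖psi Q x‖
        ≤ (C1 * a / rho P.s x P.c ^ 8) * (C1 * b / rho Q.s x Q.c ^ 8) :=
          mul_le_mul h1 h2 (norm_nonneg _) (by positivity)
      _ = C1 ^ 2 * (a * b) * (1 / (rho P.s x P.c ^ 8 * rho Q.s x Q.c ^ 8)) := by
          field_simp
      _ ≤ C1 ^ 2 * (a * b) * (1 / R ^ 6 * (1 / rho Q.s x Q.c ^ 2)) :=
          mul_le_mul_of_nonneg_left h3 (by positivity)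
      _ = C1 ^ 2 * (a * b) * (1 / R ^ 6) * (1 / rho Q.s x Q.c ^ 2) := by ring
  have hI : Integrable (fun x => 1 / rho Q.s x Q.c ^ 2) := by
    have := integrable_rho Q.s 2 Q.c
    refine this.congr (ae_of_all _ fun x => ?_)
    simp only
    rw [rho_comm]
  have h4 : ‖∫ x, psi P x * conj (psi Q x)‖ ≤
      ∫ x, C1 ^ 2 * (a * b) * (1 / R ^ 6) * (1 / rho Q.s x Q.c ^ 2) :=
    norm_integral_le_of_norm_le (hI.const_mul _) (ae_of_all _ hpt)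
  refine h4.trans ?_
  rw [integral_const_mul]
  have h5 := ax_G2 Q.s Q.c (p := 2) le_rfl
  calc C1 ^ 2 * (a * b) * (1 / R ^ 6) * ∫ x, 1 / rho Q.s x Q.c ^ 2
      ≤ C1 ^ 2 * (a * b) * (1 / R ^ 6) * (4 / 2 ^ Q.s) :=
        mul_le_mul_of_nonneg_left h5 (by positivity)
    _ = 4 * C1 ^ 2 * (a / b) / R ^ 6 := by
        rw [hb2]
        field_simp

theorem AInner_cf {C1 : ℝ} {psi : Tile → T → ℂ} (h : WP C1 psi) (P : Tile) (n : ℤ)
    (hn : ¬ P.inOm1 n) : cf (psi P) n = 0 := by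
  obtain ⟨cc, hcc⟩ := h.trig P
  have e1 : psi P = fun x => ∑ j ∈ Finset.Icc (P.mid - 2 ^ (P.s + 6)) (P.mid - 2 ^ (P.s + 3)),
      cc j * e j x := funext hcc
  rw [e1, cf_sum _ _ (fun j _ => L2.integrable (L2.const_mul (e_memLp j 2) (cc j)))]
  refine Finset.sum_eq_zero fun j hj => ?_
  rw [cf_const_mul, cf_e, if_neg, mul_zero]
  intro hjn
  subst hjn
  exact hn (Tile.inOm1_of_mem hj)

theorem inner_zero {C1 : ℝ} {psi : Tile → T → ℂ} (h : WP C1 psi) {P Q : Tile}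
    (hd : ∀ j, ¬ (P.inOm1 j ∧ Q.inOm1 j)) : ∫ x, psi P x * conj (psi Q x) = 0 := by
  have h1 := parseval (h.L2 P) (h.L2 Q)
  have h2 : (fun n : ℤ => cf (psi P) n * conj (cf (psi Q) n)) = fun _ => 0 := by
    funext n
    by_cases hP : P.inOm1 n
    · by_cases hQ : Q.inOm1 n
      · exact absurd ⟨hP, hQ⟩ (hd n)
      · rw [AInner_cf h Q n hQ, map_zero, mul_zero]
    · rw [AInner_cf h P n hP, zero_mul]
  rw [h2] at h1
  exact h1.unique hasSum_zero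

end CH
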