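import Mathlib
import Pool.Agent.CH.Base
import Pool.Agent.CH.Defs
import Pool.Agent.CH.AGeo
import Pool.Agent.CH.AGx
import Pool.Agent.CH.ATile
import Pool.Agent.CH.AInner
import Pool.Agent.CH.AEn1
import Pool.Agent.CH.AEn2
import Pool.Agent.CH.AEn3

/-!
# CH-AEn4 (1 h): interaction of one tile with the tiles of higher level

`hsm`: single tile bound `a P' ≤ eps/sqrt(2^s')`.
For `P' ∈ S` (`S` = the tiles `P'` of `⋃ TT j` with `P.s < P'.s`, `omega_P ⊆ omega_{1,P'}`), by `inner_bound`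
`a P' |<psi_P,psi_P'>| ≤ eps/sqrt(2^s') * 4 C1^2 sqrt(2^s)/sqrt(2^s') / rho_s(c_P,c_P')^6 = 4 C1^2 eps sqrt(2^s) * (1/2^s') / rho_s(c_P,c_P')^6`
and for `x ∈ D P'`: `‖x - c_P'‖ ≤ 2^-s' ≤ 2^-s`, so `rho_s(x,c_P) ≤ 2 rho_s(c_P',c_P)` and
`(1/2^s') / rho_s(c_P,c_P')^6 ≤ 64 ∫_{D P'} 1/rho_s(x,c_P)^6`.  The `D P'` are pairwise disjoint (`Sel.disj_pair`) and disjoint from
`D (top i)` (`Sel.key`): sum `≤ 64 ∫_{(D top_i)ᶜ} 1/rho_s(x,c_P)^6`.
`tree_off`: multiply by `a P ≤ eps/sqrt(2^s)`, sum over `P ∈ TT i` and use `geo_sum` (the pairs `(P.s,P.n)` are distinct: `Sel.inj`).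
-/

open MeasureTheory Complex
open scoped ComplexConjugate

namespace CH

/-- the bound for a single tile `Q` -/
private theorem one_term {C1 : ℝ} {psi : Tile → T → ℂ} (hw : WP C1 psi) {a : Tile → ℝ}
    {eps : ℝ} (ha : ∀ P, 0 ≤ a P) {P Q : Tile} (hs : P.s < Q.s) (hQ : Q.ok)
    (hsm : a Q ≤ eps / Real.sqrt (2 ^ Q.s)) :
    a Q * ‖∫ x, psi P x * conj (psi Q x)‖ ≤
      256 * C1 ^ 2 * eps * Real.sqrt (2 ^ P.s) * ∫ x in D Q.s Q.n, 1 / rho P.s x P.c ^ 6 := by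
  have hC := hw.nonneg
  have hb := inner_bound hw hs.le
  have hsq : (0 : ℝ) < Real.sqrt (2 ^ Q.s) := Real.sqrt_pos.2 (by positivity)
  have hsq2 : Real.sqrt (2 ^ Q.s) * Real.sqrt (2 ^ Q.s) = 2 ^ Q.s :=
    Real.mul_self_sqrt (by positivity)
  have hsp : (0 : ℝ) ≤ Real.sqrt (2 ^ P.s) := Real.sqrt_nonneg _
  have hrho : 0 < rho P.s P.c Q.c := rho_pos _ _ _
  have heps : 0 ≤ eps := by
    have h1 := (ha Q).trans hsm
    by_contra hneg
    push Not at hneg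
    have := div_neg_of_neg_of_pos hneg hsq
    linarith
  have hint : (1 / 2 ^ Q.s : ℝ) / rho P.s P.c Q.c ^ 6 ≤
      64 * ∫ x in D Q.s Q.n, 1 / rho P.s x P.c ^ 6 := by
    have hvol := volume_D Q.s Q.n hQ
    have hconst : ∫ x in D Q.s Q.n, (1 / 64 / rho P.s P.c Q.c ^ 6 : ℝ) =
        1 / 2 ^ Q.s * (1 / 64 / rho P.s P.c Q.c ^ 6) := by
      rw [setIntegral_const, hvol, smul_eq_mul]
    have hle : ∫ x in D Q.s Q.n, (1 / 64 / rho P.s P.c Q.c ^ 6 : ℝ) ≤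
        ∫ x in D Q.s Q.n, 1 / rho P.s x P.c ^ 6 := by
      refine setIntegral_mono_on ?_ (integrable_inv_rho P.s 6 P.c).integrableOn
        (measurableSet_D _ _) fun x hx => ?_
      · exact (integrable_const _).integrableOn
      · have h1 : ‖x - Q.c‖ ≤ 1 / 2 ^ P.s := by
          refine (ax_norm_sub_cpt hx).trans ?_
          exact one_div_le_one_div_of_le (by positivity)
            (pow_le_pow_right₀ (by norm_num) hs.le)
        have h2 := ax_rho_le_two_mul h1 P.c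
        rw [rho_comm P.s Q.c P.c] at h2
        have h3 : 0 < rho P.s x P.c := rho_pos _ _ _
        have h4 : rho P.s x P.c ^ 6 ≤ 64 * rho P.s P.c Q.c ^ 6 := by
          calc rho P.s x P.c ^ 6 ≤ (2 * rho P.s P.c Q.c) ^ 6 := by gcongr
            _ = 64 * rho P.s P.c Q.c ^ 6 := by ring
        rw [div_div]
        exact one_div_le_one_div_of_le (by positivity) h4
    rw [hconst] at hle
    have e1 : (1 / 2 ^ Q.s : ℝ) / rho P.s P.c Q.c ^ 6 =
        64 * (1 / 2 ^ Q.s * (1 / 64 / rho P.s P.c Q.c ^ 6)) := by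
      field_simp
    rw [e1]
    linarith
  calc a Q * ‖∫ x, psi P x * conj (psi Q x)‖
      ≤ eps / Real.sqrt (2 ^ Q.s) *
        (4 * C1 ^ 2 * (Real.sqrt (2 ^ P.s) / Real.sqrt (2 ^ Q.s)) / rho P.s P.c Q.c ^ 6) := by
        exact mul_le_mul hsm hb (norm_nonneg _) (by positivity)
    _ = 4 * C1 ^ 2 * eps * Real.sqrt (2 ^ P.s) * ((1 / 2 ^ Q.s) / rho P.s P.c Q.c ^ 6) := by
        rw [show (1 / 2 ^ Q.s : ℝ) = 1 / (Real.sqrt (2 ^ Q.s) * Real.sqrt (2 ^ Q.s)) by rw [hsq2]]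
        generalize Real.sqrt (2 ^ Q.s) = r at hsq
        field_simp
    _ ≤ 4 * C1 ^ 2 * eps * Real.sqrt (2 ^ P.s) *
        (64 * ∫ x in D Q.s Q.n, 1 / rho P.s x P.c ^ 6) := by
        exact mul_le_mul_of_nonneg_left hint (by positivity)
    _ = _ := by ring

open Classical in
theorem one_off {C1 : ℝ} {psi : Tile → T → ℂ} (hw : WP C1 psi) {a : Tile → ℝ} {PP : Finset Tile}
    {eps : ℝ} (heps : 0 < eps) {ι : Type} [Fintype ι] {top : ι → ℕ × ℕ × ℤ}
    {TT : ι → Finset Tile} (h : Sel a PP eps top TT) (hok : ∀ P ∈ PP, P.ok) (ha : ∀ P, 0 ≤ a P)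
    (hsm : ∀ P ∈ PP, a P ≤ eps / Real.sqrt (2 ^ P.s)) {i : ι} {P : Tile} (hP : P ∈ TT i) :
    ∑ Q ∈ (Finset.univ.biUnion TT).filter
        (fun Q => P.s < Q.s ∧ ∀ z, P.inOm z → Q.inOm1 z),
      a Q * ‖∫ x, psi P x * conj (psi Q x)‖ ≤
      256 * C1 ^ 2 * eps * Real.sqrt (2 ^ P.s) *
        ∫ x in (D (top i).1 (top i).2.1)ᶜ, 1 / rho P.s x P.c ^ 6 := by
  set S := (Finset.univ.biUnion TT).filter
        (fun Q => P.s < Q.s ∧ ∀ z, P.inOm z → Q.inOm1 z) with hS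
  have hmem : ∀ Q ∈ S, ∃ j, Q ∈ TT j ∧ P.s < Q.s ∧ ∀ z, P.inOm z → Q.inOm1 z := by
    intro Q hQ
    rw [hS, Finset.mem_filter, Finset.mem_biUnion] at hQ
    obtain ⟨⟨j, _, hj⟩, h1, h2⟩ := hQ
    exact ⟨j, hj, h1, h2⟩
  have hnn : 0 ≤ᵐ[volume.restrict (D (top i).1 (top i).2.1)ᶜ]
      (fun x => 1 / rho P.s x P.c ^ 6) := by
    refine ae_of_all _ fun x => ?_
    have := rho_pos P.s x P.c
    simp only [Pi.zero_apply]
    positivity
  calc ∑ Q ∈ S, a Q * ‖∫ x, psi P x * conj (psi Q x)‖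
      ≤ ∑ Q ∈ S, 256 * C1 ^ 2 * eps * Real.sqrt (2 ^ P.s) *
          ∫ x in D Q.s Q.n, 1 / rho P.s x P.c ^ 6 := by
        refine Finset.sum_le_sum fun Q hQ => ?_
        obtain ⟨j, hj, h1, h2⟩ := hmem Q hQ
        exact one_term hw ha h1 (hok Q (h.sub j hj)) (hsm Q (h.sub j hj))
    _ = 256 * C1 ^ 2 * eps * Real.sqrt (2 ^ P.s) *
          ∑ Q ∈ S, ∫ x in D Q.s Q.n, 1 / rho P.s x P.c ^ 6 := by
        rw [Finset.mul_sum]
    _ ≤ _ := by
        refine mul_le_mul_of_nonneg_left ?_ (by positivity)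
        rw [← integral_biUnion_finset S (fun Q _ => measurableSet_D Q.s Q.n) ?_
          (fun Q _ => (integrable_inv_rho P.s 6 P.c).integrableOn)]
        · refine setIntegral_mono_set (integrable_inv_rho P.s 6 P.c).integrableOn hnn ?_
          refine LE.le.eventuallyLE ?_
          intro x hx
          rw [Set.mem_iUnion₂] at hx
          obtain ⟨Q, hQ, hx⟩ := hx
          obtain ⟨j, hj, h1, h2⟩ := hmem Q hQ
          have hd := h.key i j P hP Q hj h1 h2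
          intro hx'
          exact Set.disjoint_left.1 hd hx hx'
        · intro Q hQ R hR hne
          obtain ⟨j, hj, h1, h2⟩ := hmem Q hQ
          obtain ⟨l, hl, h3, h4⟩ := hmem R hR
          exact h.disj_pair hj hl hne h1 h3 h2 h4

open Classical in
theorem tree_off {C1 : ℝ} {psi : Tile → T → ℂ} (hw : WP C1 psi) {a : Tile → ℝ} {PP : Finset Tile}
    {eps : ℝ} (heps : 0 < eps) {ι : Type} [Fintype ι] {top : ι → ℕ × ℕ × ℤ}
    {TT : ι → Finset Tile} (h : Sel a PP eps top TT) (hok : ∀ P ∈ PP, P.ok) (ha : ∀ P, 0 ≤ a P)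
    (hsm : ∀ P ∈ PP, a P ≤ eps / Real.sqrt (2 ^ P.s)) (i : ι) :
    ∑ P ∈ TT i, a P * ∑ Q ∈ (Finset.univ.biUnion TT).filter
        (fun Q => P.s < Q.s ∧ ∀ z, P.inOm z → Q.inOm1 z),
      a Q * ‖∫ x, psi P x * conj (psi Q x)‖ ≤ 8192 * C1 ^ 2 * eps ^ 2 / 2 ^ (top i).1 := by
  have hC := hw.nonneg
  have hgeo : ∑ P ∈ TT i, ∫ x in (D (top i).1 (top i).2.1)ᶜ, 1 / rho P.s x P.c ^ 6 ≤
      32 / 2 ^ (top i).1 := by
    have hinj : Set.InjOn (fun P : Tile => (P.s, P.n)) (TT i : Set Tile) := by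
      intro P hP Q hQ hPQ
      simp only [Prod.mk.injEq] at hPQ
      exact h.inj i hP hQ hPQ.1 hPQ.2
    have := geo_sum (s0 := (top i).1) (n0 := (top i).2.1)
      ((TT i).image (fun P : Tile => (P.s, P.n))) (by
        intro p hp
        rw [Finset.mem_image] at hp
        obtain ⟨P, hP, rfl⟩ := hp
        exact ⟨(h.mem i P hP).1, hok P (h.sub i hP)⟩)
    rw [Finset.sum_image hinj] at this
    exact this
  calc ∑ P ∈ TT i, a P * ∑ Q ∈ (Finset.univ.biUnion TT).filter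
        (fun Q => P.s < Q.s ∧ ∀ z, P.inOm z → Q.inOm1 z),
        a Q * ‖∫ x, psi P x * conj (psi Q x)‖
      ≤ ∑ P ∈ TT i, 256 * C1 ^ 2 * eps ^ 2 *
          ∫ x in (D (top i).1 (top i).2.1)ᶜ, 1 / rho P.s x P.c ^ 6 := by
        refine Finset.sum_le_sum fun P hP => ?_
        have h1 := one_off hw heps h hok ha hsm hP
        have h2 := hsm P (h.sub i hP)
        have hsp : (0 : ℝ) < Real.sqrt (2 ^ P.s) := Real.sqrt_pos.2 (by positivity)
        have hI : 0 ≤ ∫ x in (D (top i).1 (top i).2.1)ᶜ, 1 / rho P.s x P.c ^ 6 := by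
          refine integral_nonneg fun x => ?_
          have := rho_pos P.s x P.c
          simp only [Pi.zero_apply]
          positivity
        calc a P * _ ≤ eps / Real.sqrt (2 ^ P.s) * (256 * C1 ^ 2 * eps * Real.sqrt (2 ^ P.s) *
              ∫ x in (D (top i).1 (top i).2.1)ᶜ, 1 / rho P.s x P.c ^ 6) := by
                refine mul_le_mul h2 h1 ?_ (by positivity)
                exact Finset.sum_nonneg fun Q _ => mul_nonneg (ha Q) (norm_nonneg _)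
          _ = _ := by
                field_simp
    _ = 256 * C1 ^ 2 * eps ^ 2 *
          ∑ P ∈ TT i, ∫ x in (D (top i).1 (top i).2.1)ᶜ, 1 / rho P.s x P.c ^ 6 := by
        rw [Finset.mul_sum]
    _ ≤ 256 * C1 ^ 2 * eps ^ 2 * (32 / 2 ^ (top i).1) :=
        mul_le_mul_of_nonneg_left hgeo (by positivity)
    _ = _ := by ring

end CH
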