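import Mathlib
import Pool.Agent.CH.Base
import Pool.Agent.CH.Defs
import Pool.Agent.CH.AGeo
import Pool.Agent.CH.AGx
import Pool.Agent.CH.ATile
import Pool.Agent.CH.AInner

/-!
# CH-AEn5: Bessel type inequality and the same-level part
-/

open MeasureTheory Complex
open scoped ComplexConjugate

namespace CH

theorem bessel {psi : Tile → T → ℂ} (hpsi : ∀ P, L2 (psi P)) {f : T → ℂ} (hf : L2 f)
    (S : Finset Tile) :
    (∑ P ∈ S, aco f psi P ^ 2) ^ 2 ≤ (∫ x, ‖f x‖ ^ 2) *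
      ∑ P ∈ S, ∑ Q ∈ S, aco f psi P * aco f psi Q * ‖∫ x, psi P x * conj (psi Q x)‖ := by
  set b : Tile → ℂ := fun P => ∫ x, f x * conj (psi P x) with hb
  have hab : ∀ P, aco f psi P = ‖b P‖ := fun P => rfl
  set G : T → ℂ := fun x => ∑ P ∈ S, b P * psi P x with hG
  have hbp : ∀ P, L2 (fun x => b P * psi P x) := fun P => (hpsi P).const_mul _
  have hGL : L2 G := L2.sum S fun P _ => hbp P
  have h1 : ∫ x, f x * conj (G x) = ((∑ P ∈ S, aco f psi P ^ 2 : ℝ) : ℂ) := by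
    have : ∀ x, f x * conj (G x) = ∑ P ∈ S, conj (b P) * (f x * conj (psi P x)) := fun x => by
      simp only [hG, map_sum, Finset.mul_sum, map_mul]
      exact Finset.sum_congr rfl fun P _ => by ring
    simp_rw [this]
    rw [integral_finsetSum S fun P _ => (hf.integrable_mul_conj (hpsi P)).const_mul _]
    push_cast
    refine Finset.sum_congr rfl fun P _ => ?_
    rw [integral_const_mul, hab]
    have h3 : b P * conj (b P) = ((‖b P‖ : ℝ) : ℂ) ^ 2 := by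
      rw [Complex.mul_conj, Complex.normSq_eq_norm_sq]; push_cast; ring
    rw [← h3]; ring
  have h2 : ∫ x, G x * conj (G x) = ∑ P ∈ S, ∑ Q ∈ S, b P * conj (b Q) *
      ∫ x, psi P x * conj (psi Q x) := by
    have : ∀ x, G x * conj (G x) = ∑ P ∈ S, ∑ Q ∈ S,
        b P * conj (b Q) * (psi P x * conj (psi Q x)) := fun x => by
      simp only [hG, map_sum, Finset.sum_mul_sum, map_mul]
      exact Finset.sum_congr rfl fun P _ => Finset.sum_congr rfl fun Q _ => by ring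
    simp_rw [this]
    have hi : ∀ P Q, Integrable (fun x => b P * conj (b Q) * (psi P x * conj (psi Q x))) :=
      fun P Q => ((hpsi P).integrable_mul_conj (hpsi Q)).const_mul _
    rw [integral_finsetSum S fun P _ => integrable_finsetSum S fun Q _ => hi P Q]
    refine Finset.sum_congr rfl fun P _ => ?_
    rw [integral_finsetSum S fun Q _ => hi P Q]
    exact Finset.sum_congr rfl fun Q _ => integral_const_mul _ _
  have h3 : ∫ x, ‖G x‖ ^ 2 ≤
      ∑ P ∈ S, ∑ Q ∈ S, aco f psi P * aco f psi Q * ‖∫ x, psi P x * conj (psi Q x)‖ := by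
    have e1 : ((∫ x, ‖G x‖ ^ 2 : ℝ) : ℂ) = ∫ x, G x * conj (G x) := by
      rw [← integral_complex_ofReal]
      congr 1; ext x
      rw [Complex.mul_conj, Complex.normSq_eq_norm_sq]
    have e2 : (∫ x, ‖G x‖ ^ 2) = ‖((∫ x, ‖G x‖ ^ 2 : ℝ) : ℂ)‖ := by
      rw [Complex.norm_real, Real.norm_eq_abs, abs_of_nonneg (integral_nonneg fun x => by positivity)]
    rw [e2, e1, h2]
    refine (norm_sum_le _ _).trans (Finset.sum_le_sum fun P _ => ?_)
    refine (norm_sum_le _ _).trans (Finset.sum_le_sum fun Q _ => ?_)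
    rw [norm_mul, norm_mul, RCLike.norm_conj, hab, hab]
  have h4 := norm_integral_mul_conj_le hf hGL
  have hpos : 0 ≤ ∑ P ∈ S, aco f psi P ^ 2 := Finset.sum_nonneg fun P _ => by positivity
  rw [h1, Complex.norm_real, Real.norm_eq_abs, abs_of_nonneg hpos] at h4
  have hf0 : 0 ≤ ∫ x, ‖f x‖ ^ 2 := integral_nonneg fun x => by positivity
  have hG0 : 0 ≤ ∫ x, ‖G x‖ ^ 2 := integral_nonneg fun x => by positivity
  calc (∑ P ∈ S, aco f psi P ^ 2) ^ 2
      ≤ (Real.sqrt (∫ x, ‖f x‖ ^ 2) * Real.sqrt (∫ x, ‖G x‖ ^ 2)) ^ 2 :=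
        pow_le_pow_left₀ hpos h4 2
    _ = (∫ x, ‖f x‖ ^ 2) * ∫ x, ‖G x‖ ^ 2 := by
        rw [mul_pow, Real.sq_sqrt hf0, Real.sq_sqrt hG0]
    _ ≤ _ := mul_le_mul_of_nonneg_left h3 hf0

theorem AEn5_zero {C1 : ℝ} {psi : Tile → T → ℂ} (hw : WP C1 psi) {P Q : Tile}
    (hs : Q.s = P.s) (hm : Q.m ≠ P.m) : ∫ x, psi P x * conj (psi Q x) = 0 := by
  refine inner_zero hw fun j hj => hm ?_
  exact (Tile.m_eq_of_inOm hs.symm (Tile.inOm_of_inOm1 hj.1) (Tile.inOm_of_inOm1 hj.2)).symm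

theorem same_level {C1 : ℝ} {psi : Tile → T → ℂ} (hw : WP C1 psi) {a : Tile → ℝ}
    (ha : ∀ P, 0 ≤ a P) (S : Finset Tile) (hok : ∀ P ∈ S, P.ok) :
    ∑ P ∈ S, ∑ Q ∈ S.filter (fun Q => Q.s = P.s),
      a P * a Q * ‖∫ x, psi P x * conj (psi Q x)‖ ≤ 64 * C1 ^ 2 * ∑ P ∈ S, a P ^ 2 := by
  classical
  set k : Tile → Tile → ℝ := fun P Q =>
    if Q.s = P.s ∧ Q.m = P.m then 1 / rho P.s P.c Q.c ^ 6 else 0 with hk
  have hk0 : ∀ P Q, 0 ≤ k P Q := fun P Q => by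
    simp only [hk]
    split_ifs
    · have := rho_pos P.s P.c Q.c
      positivity
    · exact le_rfl
  have hksymm : ∀ P Q, k P Q = k Q P := fun P Q => by
    simp only [hk]
    by_cases h : Q.s = P.s ∧ Q.m = P.m
    · rw [if_pos h, if_pos ⟨h.1.symm, h.2.symm⟩, h.1, rho_comm]
    · rw [if_neg h, if_neg fun h' => h ⟨h'.1.symm, h'.2.symm⟩]
  have hterm : ∀ P Q, Q.s = P.s → ‖∫ x, psi P x * conj (psi Q x)‖ ≤ 4 * C1 ^ 2 * k P Q := by
    intro P Q hs
    by_cases hm : Q.m = P.m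
    · have h := inner_bound hw (P := P) (Q := Q) hs.symm.le
      simp only [hk]
      rw [if_pos ⟨hs, hm⟩]
      rw [hs] at h
      have h2 : Real.sqrt ((2 : ℝ) ^ P.s) ≠ 0 := by positivity
      rw [div_self h2, mul_one] at h
      rw [mul_one_div]
      exact h
    · rw [AEn5_zero hw hs hm]
      simp only [hk]
      rw [if_neg fun h => hm h.2]
      simp
  have hrow : ∀ P ∈ S, ∑ Q ∈ S, k P Q ≤ 16 := by
    intro P hP
    simp only [hk]
    rw [← Finset.sum_filter]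
    have hinj : Set.InjOn (fun Q : Tile => Q.n) (S.filter fun Q => Q.s = P.s ∧ Q.m = P.m) := by
      intro Q hQ R hR hn
      simp only [Finset.coe_filter, Set.mem_ofPred_eq] at hQ hR
      cases Q; cases R
      simp only at hQ hR hn
      simp only [Tile.mk.injEq]
      exact ⟨hQ.2.1.trans hR.2.1.symm, hn, hQ.2.2.trans hR.2.2.symm⟩
    have e1 : ∑ Q ∈ S.filter (fun Q => Q.s = P.s ∧ Q.m = P.m), 1 / rho P.s P.c Q.c ^ 6 =
        ∑ n ∈ (S.filter (fun Q => Q.s = P.s ∧ Q.m = P.m)).image (fun Q => Q.n),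
          1 / rho P.s P.c (cpt P.s n) ^ 6 := by
      rw [Finset.sum_image hinj]
      refine Finset.sum_congr rfl fun Q hQ => ?_
      rw [Finset.mem_filter] at hQ
      have : Q.c = cpt P.s Q.n := by unfold Tile.c; rw [hQ.2.1]
      rw [this]
    rw [e1]
    refine le_trans (Finset.sum_le_sum_of_subset_of_nonneg ?_ ?_) (ax_G1 P.s P.c (by norm_num))
    · intro n hn
      rw [Finset.mem_image] at hn
      obtain ⟨Q, hQ, rfl⟩ := hn
      rw [Finset.mem_filter] at hQ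
      rw [Finset.mem_range, ← hQ.2.1]
      exact hok Q hQ.1
    · intro n _ _
      have := rho_pos P.s P.c (cpt P.s n)
      positivity
  have h1 : ∑ P ∈ S, ∑ Q ∈ S.filter (fun Q => Q.s = P.s),
      a P * a Q * ‖∫ x, psi P x * conj (psi Q x)‖ ≤
      ∑ P ∈ S, ∑ Q ∈ S, 2 * C1 ^ 2 * (a P ^ 2 * k P Q + a Q ^ 2 * k P Q) := by
    refine Finset.sum_le_sum fun P _ => ?_
    rw [Finset.sum_filter]
    refine Finset.sum_le_sum fun Q _ => ?_
    have hk1 := hk0 P Q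
    have hC : 0 ≤ C1 ^ 2 := sq_nonneg _
    split_ifs with hs
    · have h2 := hterm P Q hs
      have h3 : 0 ≤ a P * a Q := mul_nonneg (ha P) (ha Q)
      calc a P * a Q * ‖∫ x, psi P x * conj (psi Q x)‖ ≤ a P * a Q * (4 * C1 ^ 2 * k P Q) :=
            mul_le_mul_of_nonneg_left h2 h3
        _ ≤ 2 * C1 ^ 2 * (a P ^ 2 * k P Q + a Q ^ 2 * k P Q) := by
            have h4 : 0 ≤ C1 ^ 2 * k P Q := mul_nonneg hC hk1
            nlinarith [sq_nonneg (a P - a Q), mul_nonneg h4 (sq_nonneg (a P - a Q))]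
    · have h4 : 0 ≤ a P ^ 2 * k P Q + a Q ^ 2 * k P Q := by positivity
      positivity
  refine h1.trans ?_
  have h2 : ∑ P ∈ S, ∑ Q ∈ S, a Q ^ 2 * k P Q = ∑ P ∈ S, ∑ Q ∈ S, a P ^ 2 * k P Q := by
    rw [Finset.sum_comm]
    refine Finset.sum_congr rfl fun P _ => Finset.sum_congr rfl fun Q _ => ?_
    rw [hksymm]
  have h3 : ∑ P ∈ S, ∑ Q ∈ S, 2 * C1 ^ 2 * (a P ^ 2 * k P Q + a Q ^ 2 * k P Q) =
      4 * C1 ^ 2 * ∑ P ∈ S, ∑ Q ∈ S, a P ^ 2 * k P Q := by
    have e1 : ∑ P ∈ S, ∑ Q ∈ S, 2 * C1 ^ 2 * (a P ^ 2 * k P Q + a Q ^ 2 * k P Q) =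
        2 * C1 ^ 2 * (∑ P ∈ S, ∑ Q ∈ S, a P ^ 2 * k P Q + ∑ P ∈ S, ∑ Q ∈ S, a Q ^ 2 * k P Q) := by
      rw [← Finset.sum_add_distrib, Finset.mul_sum]
      refine Finset.sum_congr rfl fun P _ => ?_
      rw [← Finset.sum_add_distrib, Finset.mul_sum]
    rw [e1, h2]; ring
  rw [h3]
  have h4 : ∑ P ∈ S, ∑ Q ∈ S, a P ^ 2 * k P Q ≤ ∑ P ∈ S, 16 * a P ^ 2 := by
    refine Finset.sum_le_sum fun P hP => ?_
    rw [← Finset.mul_sum]
    have := mul_le_mul_of_nonneg_left (hrow P hP) (sq_nonneg (a P))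
    linarith
  rw [← Finset.mul_sum] at h4
  have hC : 0 ≤ 4 * C1 ^ 2 := by positivity
  have := mul_le_mul_of_nonneg_left h4 hC
  linarith

end CH
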