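import Mathlib
import Pool.Agent.CH.Base
import Pool.Agent.CH.Defs
import Pool.Agent.CH.AGeo
import Pool.Agent.CH.AGx
import Pool.Agent.CH.ATile
import Pool.Agent.CH.AInner
import Pool.Agent.CH.AEn1
import Pool.Agent.CH.AEn2
import Pool.Agent.CH.AEn3
import Pool.Agent.CH.AEn4
import Pool.Agent.CH.AEn5

/-!
# CH-AEn6 (1 h): the energy lemma

`a = aco f psi`.  Single tile: `EnLE` with `(P.s, P.n, xi)`, `xi = P.mid` (`P.inJ P.mid`): `a P^2 ≤ eps^2/2^s`.
`exists_sel`; `S = univ.biUnion TT`, `X = ∑_S a^2 = ∑_i ∑_{TT i} a^2`.  `bessel` (with `∫‖f‖^2 ≤ 1`):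
`X^2 ≤ ∑_{P,Q∈S} a_P a_Q |<>|`; split: `Q.s = P.s` (`same_level`: `≤ 64 C1^2 X`), `P.s < Q.s` and `Q.s < P.s` (equal by symmetry, `‖∫ psi P conj psi Q‖ =
‖∫ psi Q conj psi P‖`); for `P.s < Q.s` the integral vanishes unless the `omega_1` have a common frequency `j`, and then `∀ z, P.inOm z → Q.inOm1 z`
(`Tile.sub_Om1`, `inOm_of_inOm1`): `tree_off` gives `≤ ∑_i 8192 C1^2 eps^2/2^{s_i} ≤ 4*8192 C1^2 X` (`big`).
So `X^2 ≤ (64 + 65536) C1^2 X`, `X ≤ 65600 C1^2`, and `∑_i 1/2^{s_i} ≤ 4 X/eps^2 ≤ 262400 C1^2/eps^2`.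
tops = image of `top` (`Finset.univ.image top`; sum over the image `≤` sum over `ι`).
-/

open MeasureTheory Complex
open scoped ComplexConjugate

namespace CH

theorem AEn6_inJ_mid (P : Tile) : P.inJ P.mid := by
  unfold Tile.inJ Tile.mid
  have h : P.m * 2 ^ (P.s + 7) + 2 ^ (P.s + 6) = (16 * P.m + 8) * 2 ^ (P.s + 3) := by ring
  rw [h]
  exact Int.mul_ediv_cancel _ (by positivity)

theorem AEn6_norm_comm {psi : Tile → T → ℂ} (P Q : Tile) :
    ‖∫ x, psi P x * conj (psi Q x)‖ = ‖∫ x, psi Q x * conj (psi P x)‖ := by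
  have h : ∫ x, psi P x * conj (psi Q x) = conj (∫ x, psi Q x * conj (psi P x)) := by
    rw [← integral_conj]
    congr 1; ext x
    rw [map_mul, Complex.conj_conj, mul_comm]
  rw [h, RCLike.norm_conj]

theorem energyLemma (C1 : ℝ) : EnergyLemma C1 (262400 * C1 ^ 2) := by
  classical
  intro psi hw f hf hf1 PP eps heps hok hEn
  have ha : ∀ P, 0 ≤ aco f psi P := fun P => norm_nonneg _
  -- single tile
  have hsm : ∀ P ∈ PP, aco f psi P ≤ eps / Real.sqrt (2 ^ P.s) := by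
    intro P hP
    have h := hEn P.s P.n P.mid
    have h1 : aco f psi P ^ 2 ≤
        ∑ Q ∈ PP.filter (fun Q => tin Q.s Q.n P.s P.n ∧ Q.inJ P.mid), aco f psi Q ^ 2 :=
      Finset.single_le_sum (f := fun Q => aco f psi Q ^ 2) (fun Q _ => sq_nonneg _)
        (Finset.mem_filter.2 ⟨hP, tin_refl _ _, AEn6_inJ_mid P⟩)
    have h2 : aco f psi P ^ 2 ≤ eps ^ 2 / 2 ^ P.s := h1.trans (by convert h)
    have hp : (0 : ℝ) < 2 ^ P.s := by positivity
    rw [le_div_iff₀ (Real.sqrt_pos.2 hp)]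
    have h3 : (aco f psi P * Real.sqrt (2 ^ P.s)) ^ 2 ≤ eps ^ 2 := by
      rw [mul_pow, Real.sq_sqrt hp.le]
      rwa [le_div_iff₀ hp] at h2
    exact (pow_le_pow_iff_left₀ (mul_nonneg (ha P) (Real.sqrt_nonneg _)) heps.le
      (by norm_num)).1 h3
  obtain ⟨ι, hι, top, TT, hS⟩ := exists_sel (aco f psi) eps heps PP hok
  set S := Finset.univ.biUnion TT with hSdef
  have hSsub : S ⊆ PP := by
    intro P hP
    rw [hSdef, Finset.mem_biUnion] at hP
    obtain ⟨i, _, hi⟩ := hP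
    exact hS.sub i hi
  set X := ∑ P ∈ S, aco f psi P ^ 2 with hXdef
  have hX0 : 0 ≤ X := Finset.sum_nonneg fun P _ => sq_nonneg _
  have hsum : ∀ F : Tile → ℝ, ∑ P ∈ S, F P = ∑ i, ∑ P ∈ TT i, F P := fun F => by
    rw [hSdef, Finset.sum_biUnion]
    intro i _ j _ hij
    exact hS.disj i j hij
  have hbig : ∑ i, eps ^ 2 / 2 ^ (top i).1 ≤ 4 * X := by
    rw [hXdef, hsum, Finset.mul_sum]
    refine Finset.sum_le_sum fun i _ => ?_
    have := (hS.big i).le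
    have e1 : eps ^ 2 / 4 / 2 ^ (top i).1 = (eps ^ 2 / 2 ^ (top i).1) / 4 := by ring
    rw [e1] at this
    linarith
  -- the double sum
  let K : Tile → Tile → ℝ := fun P Q => ‖∫ x, psi P x * conj (psi Q x)‖
  have hK0 : ∀ P Q, 0 ≤ K P Q := fun P Q => norm_nonneg _
  let c : Tile → Tile → ℝ := fun P Q => aco f psi P * aco f psi Q * K P Q
  have hc0 : ∀ P Q, 0 ≤ c P Q := fun P Q => by
    have := ha P; have := ha Q; have := hK0 P Q; positivity
  have hbes := bessel hw.L2 hf S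
  have hT1 := same_level hw ha S (fun P hP => hok P (hSsub hP))
  -- upper part
  have hT2 : ∑ P ∈ S, ∑ Q ∈ S.filter (fun Q => P.s < Q.s), c P Q ≤ 32768 * C1 ^ 2 * X := by
    rw [hsum]
    have h1 : ∀ i, ∑ P ∈ TT i, ∑ Q ∈ S.filter (fun Q => P.s < Q.s), c P Q ≤
        8192 * C1 ^ 2 * (eps ^ 2 / 2 ^ (top i).1) := by
      intro i
      have h := tree_off hw heps hS hok ha hsm i
      have h2 : ∑ P ∈ TT i, ∑ Q ∈ S.filter (fun Q => P.s < Q.s), c P Q =
          ∑ P ∈ TT i, aco f psi P * ∑ Q ∈ (Finset.univ.biUnion TT).filter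
            (fun Q => P.s < Q.s ∧ ∀ z, P.inOm z → Q.inOm1 z),
            aco f psi Q * ‖∫ x, psi P x * conj (psi Q x)‖ := by
        refine Finset.sum_congr rfl fun P hP => ?_
        rw [Finset.mul_sum]
        symm
        rw [← hSdef]
        have hsub : S.filter (fun Q => P.s < Q.s ∧ ∀ z, P.inOm z → Q.inOm1 z) ⊆
            S.filter (fun Q => P.s < Q.s) := by
          intro Q hQ
          rw [Finset.mem_filter] at hQ ⊢
          exact ⟨hQ.1, hQ.2.1⟩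
        rw [← Finset.sum_subset hsub]
        · refine Finset.sum_congr rfl fun Q _ => ?_
          simp only [c, K]; ring
        · intro Q hQ hQ'
          rw [Finset.mem_filter] at hQ hQ'
          have hz : ∫ x, psi P x * conj (psi Q x) = 0 := by
            refine inner_zero hw fun j hj => hQ' ⟨hQ.1, hQ.2, ?_⟩
            exact Tile.sub_Om1 hQ.2 (Tile.inOm_of_inOm1 hj.1) hj.2
          simp only [c, K, hz, norm_zero, mul_zero]
      rw [h2]
      refine h.trans (le_of_eq ?_)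
      ring
    calc ∑ i, ∑ P ∈ TT i, ∑ Q ∈ S.filter (fun Q => P.s < Q.s), c P Q
        ≤ ∑ i, 8192 * C1 ^ 2 * (eps ^ 2 / 2 ^ (top i).1) := Finset.sum_le_sum fun i _ => h1 i
      _ = 8192 * C1 ^ 2 * ∑ i, eps ^ 2 / 2 ^ (top i).1 := by rw [Finset.mul_sum]
      _ ≤ 8192 * C1 ^ 2 * (4 * X) := by gcongr
      _ = 32768 * C1 ^ 2 * X := by ring
  have hT3 : ∑ P ∈ S, ∑ Q ∈ S.filter (fun Q => Q.s < P.s), c P Q ≤ 32768 * C1 ^ 2 * X := by
    have : ∑ P ∈ S, ∑ Q ∈ S.filter (fun Q => Q.s < P.s), c P Q =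
        ∑ P ∈ S, ∑ Q ∈ S.filter (fun Q => P.s < Q.s), c P Q := by
      simp_rw [Finset.sum_filter]
      rw [Finset.sum_comm]
      refine Finset.sum_congr rfl fun P _ => Finset.sum_congr rfl fun Q _ => ?_
      have : c Q P = c P Q := by
        simp only [c, K]
        rw [AEn6_norm_comm Q P]; ring
      rw [this]
    rw [this]; exact hT2
  have hsplit : ∑ P ∈ S, ∑ Q ∈ S, c P Q =
      ∑ P ∈ S, ∑ Q ∈ S.filter (fun Q => Q.s = P.s), c P Q +
      ∑ P ∈ S, ∑ Q ∈ S.filter (fun Q => P.s < Q.s), c P Q +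
      ∑ P ∈ S, ∑ Q ∈ S.filter (fun Q => Q.s < P.s), c P Q := by
    rw [← Finset.sum_add_distrib, ← Finset.sum_add_distrib]
    refine Finset.sum_congr rfl fun P _ => ?_
    simp_rw [Finset.sum_filter]
    rw [← Finset.sum_add_distrib, ← Finset.sum_add_distrib]
    refine Finset.sum_congr rfl fun Q _ => ?_
    rcases lt_trichotomy P.s Q.s with h | h | h
    · simp [h, h.ne', h.not_gt]
    · simp [h]
    · simp [h, h.ne, h.not_gt]
  have hX2 : X ^ 2 ≤ 65600 * C1 ^ 2 * X := by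
    have hD0 : 0 ≤ ∑ P ∈ S, ∑ Q ∈ S, c P Q :=
      Finset.sum_nonneg fun P _ => Finset.sum_nonneg fun Q _ => hc0 P Q
    calc X ^ 2 ≤ (∫ x, ‖f x‖ ^ 2) * ∑ P ∈ S, ∑ Q ∈ S, c P Q := hbes
      _ ≤ 1 * ∑ P ∈ S, ∑ Q ∈ S, c P Q := by gcongr
      _ ≤ 65600 * C1 ^ 2 * X := by
        rw [one_mul, hsplit]
        have : ∑ P ∈ S, ∑ Q ∈ S.filter (fun Q => Q.s = P.s), c P Q ≤ 64 * C1 ^ 2 * X := hT1
        linarith
  have hX3 : X ≤ 65600 * C1 ^ 2 := by
    rcases hX0.eq_or_lt with h | h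
    · rw [← h]; positivity
    · have : X * X ≤ 65600 * C1 ^ 2 * X := by rw [← sq]; exact hX2
      exact le_of_mul_le_mul_right this h
  refine ⟨Finset.univ.image top, ?_, ?_, ?_⟩
  · intro t ht
    rw [Finset.mem_image] at ht
    obtain ⟨i, _, rfl⟩ := ht
    exact hS.ok i
  · have h1 : ∑ t ∈ Finset.univ.image top, (1 / 2 ^ t.1 : ℝ) ≤ ∑ i, (1 / 2 ^ (top i).1 : ℝ) := by
      exact Finset.sum_image_le_of_nonneg (f := fun t : ℕ × ℕ × ℤ => (1 / 2 ^ t.1 : ℝ)) (fun _ _ => by positivity)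
    refine h1.trans ?_
    have h2 : ∑ i, (1 / 2 ^ (top i).1 : ℝ) = (∑ i, eps ^ 2 / 2 ^ (top i).1) / eps ^ 2 := by
      rw [Finset.sum_div]
      refine Finset.sum_congr rfl fun i _ => ?_
      field_simp
    rw [h2]
    gcongr
    calc ∑ i, eps ^ 2 / 2 ^ (top i).1 ≤ 4 * X := hbig
      _ ≤ 4 * (65600 * C1 ^ 2) := by gcongr
      _ = 262400 * C1 ^ 2 := by ring
  · intro PL hPL hnt
    refine hS.rest PL hPL fun P hP i => hnt P hP (top i) ?_
    exact Finset.mem_image.2 ⟨i, Finset.mem_univ _, rfl⟩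

end CH
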