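import Mathlib
import Pool.Agent.CH.Base
import Pool.Agent.CH.Defs
import Pool.Agent.CH.AGeo
import Pool.Agent.CH.AGx
import Pool.Agent.CH.ATile

/-!
# CH-AMass1 (0.6 h): a heavy tile is heavy on some ball

`B_k = {x | rho_s(x,c_P) - 1 < 2^k}`, `B_s` is everything (`2^s ‖x-c‖ ≤ 2^s/2`).  Off `B_{k-1}` (k ≥ 1): `rho > 2^(k-1)`,
so `2^s/rho^4 ≤ 2^s 2^(-4(k-1))`; on `B_0`: `≤ 2^s`.  So pointwise
`2^s/rho^4 ≤ 2^s ∑_{k=0}^{s} 16 * 2^(-4k) * 1_{B_k}` and `massInt ≤ 2^s ∑_{k ≤ s} 16 * 2^(-4k) * ballInt k`.  If all `ballInt k` were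
`< (mu/100) 2^(2k)/2^s` then `massInt ≤ (mu/100) 16 ∑ 4^-k ≤ (16/100)(4/3) mu < mu/4`.
-/

open MeasureTheory Complex
open scoped ComplexConjugate

namespace CH

theorem Dat.u0 {u : T → ℝ} {N : T → ℤ} {g : T → ℂ} (h : Dat u N g) (x : T) : 0 ≤ u x :=
  (norm_nonneg _).trans (h.gu x)

theorem Dat.integrable {u : T → ℝ} {N : T → ℤ} {g : T → ℂ} (h : Dat u N g) : Integrable u := by
  refine Integrable.mono' (integrable_const (1 : ℝ)) h.mu.aestronglyMeasurable
    (ae_of_all _ fun x => ?_)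
  rw [Real.norm_eq_abs, abs_of_nonneg (h.u0 x)]
  exact h.u1 x

/-- `∫_{B_k(P), N ∈ omega_P} u` -/
noncomputable def ballInt (u : T → ℝ) (N : T → ℤ) (k : ℕ) (P : Tile) : ℝ :=
  ∫ x in {x | P.inOm (N x) ∧ rho P.s x P.c - 1 < 2 ^ k}, u x

private theorem AMass1_meas {N : T → ℤ} (hN : Measurable N) (P : Tile) (k : ℕ) :
    MeasurableSet {x | P.inOm (N x) ∧ rho P.s x P.c - 1 < 2 ^ k} := by
  refine (Tile.measurableSet_inOm P hN).inter ?_
  exact measurableSet_lt ((rho_measurable _ _).sub_const 1) measurable_const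

/-- pointwise domination of `1/rho^4` -/
private theorem AMass1_pt (r : ℝ) (s : ℕ) (h1 : 1 ≤ r) (hs : r - 1 < 2 ^ s) :
    ∃ k ≤ s, r - 1 < 2 ^ k ∧ 1 / r ^ 4 ≤ 16 * (1 / 2 ^ (4 * k)) := by
  induction s with
  | zero =>
    refine ⟨0, le_rfl, hs, ?_⟩
    have : 1 / r ^ 4 ≤ 1 := by
      rw [div_le_one (by positivity)]
      exact one_le_pow₀ h1
    simp only [Nat.mul_zero, pow_zero]
    linarith
  | succ s ih =>
    by_cases h : r - 1 < 2 ^ s
    · obtain ⟨k, hk, h2, h3⟩ := ih h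
      exact ⟨k, by omega, h2, h3⟩
    · push Not at h
      refine ⟨s + 1, le_rfl, hs, ?_⟩
      have h2 : (2 : ℝ) ^ s ≤ r := by linarith
      have h3 : ((2 : ℝ) ^ s) ^ 4 ≤ r ^ 4 := pow_le_pow_left₀ (by positivity) h2 4
      have e : 16 * (1 / 2 ^ (4 * (s + 1)) : ℝ) = 1 / ((2 : ℝ) ^ s) ^ 4 := by
        rw [← pow_mul, show 4 * (s + 1) = s * 4 + 4 by ring, pow_add]
        field_simp
        norm_num
      rw [e]
      exact one_div_le_one_div_of_le (by positivity) h3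

private theorem AMass1_geo (n : ℕ) :
    ∑ k ∈ Finset.range n, (1 / 4 : ℝ) ^ k ≤ 4 / 3 := by
  rw [geom_sum_eq (by norm_num)]
  have : (0 : ℝ) < (1 / 4) ^ n := by positivity
  have e : ((1 / 4 : ℝ) ^ n - 1) / (1 / 4 - 1) = 4 / 3 * (1 - (1 / 4) ^ n) := by ring
  rw [e]
  linarith

theorem mass_ball {u : T → ℝ} {N : T → ℤ} {g : T → ℂ} (hd : Dat u N g) {P : Tile} {mu : ℝ}
    (hmu : 0 < mu) (hP : mu / 4 < massInt u N P) :
    ∃ k : ℕ, mu / 100 * 2 ^ (2 * k) / 2 ^ P.s ≤ ballInt u N k P := by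
  by_contra hcon
  push Not at hcon
  set A : Set T := {x | P.inOm (N x)} with hA
  have hAm : MeasurableSet A := Tile.measurableSet_inOm P hd.mN
  set S : ℕ → Set T := fun k => {x | P.inOm (N x) ∧ rho P.s x P.c - 1 < 2 ^ k} with hS
  have hSm : ∀ k, MeasurableSet (S k) := fun k => AMass1_meas hd.mN P k
  have hui := hd.integrable
  have hpt : ∀ x, A.indicator (fun x => u x * (2 ^ P.s / rho P.s x P.c ^ 4)) x ≤
      ∑ k ∈ Finset.range (P.s + 1), 2 ^ P.s * (16 * (1 / 2 ^ (4 * k))) *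
        (S k).indicator u x := by
    intro x
    have t1 : ∀ k ∈ Finset.range (P.s + 1), 0 ≤ (2 : ℝ) ^ P.s * (16 * (1 / 2 ^ (4 * k))) *
        (S k).indicator u x := fun k _ =>
      mul_nonneg (by positivity) (Set.indicator_nonneg (fun y _ => hd.u0 y) x)
    by_cases hx : x ∈ A
    · rw [Set.indicator_of_mem hx]
      have h1 := one_le_rho P.s x P.c
      have h2 : rho P.s x P.c - 1 < 2 ^ P.s := by
        unfold rho
        have := norm_T_le_half (x - P.c)
        have h3 : (0 : ℝ) < 2 ^ P.s := by positivity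
        nlinarith
      obtain ⟨k, hk, h3, h4⟩ := AMass1_pt _ _ h1 h2
      have hxk : x ∈ S k := ⟨hx, h3⟩
      have h5 := Finset.single_le_sum t1 (Finset.mem_range.2 (Nat.lt_succ_of_le hk))
      rw [Set.indicator_of_mem hxk] at h5
      refine le_trans ?_ h5
      have h6 : u x * (2 ^ P.s / rho P.s x P.c ^ 4) = 2 ^ P.s * (1 / rho P.s x P.c ^ 4) * u x := by
        ring
      rw [h6]
      refine mul_le_mul_of_nonneg_right (mul_le_mul_of_nonneg_left h4 (by positivity)) (hd.u0 x)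
    · rw [Set.indicator_of_notMem hx]
      exact Finset.sum_nonneg t1
  have hI : ∀ k, Integrable ((S k).indicator u) := fun k => hui.indicator (hSm k)
  have hI2 : Integrable (fun x => ∑ k ∈ Finset.range (P.s + 1),
      (2 : ℝ) ^ P.s * (16 * (1 / 2 ^ (4 * k))) * (S k).indicator u x) :=
    integrable_finsetSum _ fun k _ => (hI k).const_mul _
  have hnn : ∀ x, 0 ≤ A.indicator (fun x => u x * (2 ^ P.s / rho P.s x P.c ^ 4)) x := by
    intro x
    refine Set.indicator_nonneg (fun y _ => ?_) x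
    have := rho_pos P.s y P.c
    exact mul_nonneg (hd.u0 y) (by positivity)
  have hmass : massInt u N P ≤ ∑ k ∈ Finset.range (P.s + 1),
      2 ^ P.s * (16 * (1 / 2 ^ (4 * k))) * ballInt u N k P := by
    have h1 : massInt u N P =
        ∫ x, A.indicator (fun x => u x * (2 ^ P.s / rho P.s x P.c ^ 4)) x := by
      rw [integral_indicator hAm]
      rfl
    rw [h1]
    refine (integral_mono_of_nonneg (ae_of_all _ hnn) hI2 (ae_of_all _ hpt)).trans (le_of_eq ?_)
    rw [integral_finsetSum _ fun k _ => (hI k).const_mul _]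
    refine Finset.sum_congr rfl fun k _ => ?_
    rw [integral_const_mul, integral_indicator (hSm k)]
    rfl
  have hle : ∑ k ∈ Finset.range (P.s + 1),
      2 ^ P.s * (16 * (1 / 2 ^ (4 * k))) * ballInt u N k P ≤
      ∑ k ∈ Finset.range (P.s + 1), 16 * mu / 100 * (1 / 4 : ℝ) ^ k := by
    refine Finset.sum_le_sum fun k _ => ?_
    have h1 : (0 : ℝ) ≤ 2 ^ P.s * (16 * (1 / 2 ^ (4 * k))) := by positivity
    refine (mul_le_mul_of_nonneg_left (hcon k).le h1).trans (le_of_eq ?_)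
    have e1 : (2 : ℝ) ^ (4 * k) = 2 ^ (2 * k) * 4 ^ k := by
      rw [show 4 * k = 2 * k + 2 * k by ring, pow_add]
      congr 1
      rw [pow_mul]; norm_num
    rw [e1, one_div_pow]
    have h2 : (0 : ℝ) < 2 ^ P.s := by positivity
    have h3 : (0 : ℝ) < 2 ^ (2 * k) := by positivity
    have h4 : (0 : ℝ) < 4 ^ k := by positivity
    field_simp
  have hgeo := AMass1_geo (P.s + 1)
  rw [← Finset.mul_sum] at hle
  have : 16 * mu / 100 * ∑ k ∈ Finset.range (P.s + 1), (1 / 4 : ℝ) ^ k ≤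
      16 * mu / 100 * (4 / 3) := mul_le_mul_of_nonneg_left hgeo (by positivity)
  linarith

/-- masses are bounded -/
theorem massInt_le {u : T → ℝ} {N : T → ℤ} {g : T → ℂ} (hd : Dat u N g) (P : Tile) :
    massInt u N P ≤ 4 := by
  have hAm : MeasurableSet {x | P.inOm (N x)} := Tile.measurableSet_inOm P hd.mN
  have hi : Integrable (fun x => 2 ^ P.s * (1 / rho P.s x P.c ^ 4)) :=
    (integrable_inv_rho P.s 4 P.c).const_mul _
  have hnn : ∀ x, 0 ≤ {x | P.inOm (N x)}.indicator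
      (fun x => u x * (2 ^ P.s / rho P.s x P.c ^ 4)) x := by
    intro x
    refine Set.indicator_nonneg (fun y _ => ?_) x
    have := rho_pos P.s y P.c
    exact mul_nonneg (hd.u0 y) (by positivity)
  have hpt : ∀ x, {x | P.inOm (N x)}.indicator
      (fun x => u x * (2 ^ P.s / rho P.s x P.c ^ 4)) x ≤ 2 ^ P.s * (1 / rho P.s x P.c ^ 4) := by
    intro x
    have := rho_pos P.s x P.c
    by_cases hx : x ∈ {x | P.inOm (N x)}
    · rw [Set.indicator_of_mem hx]
      have h1 : (0 : ℝ) ≤ 2 ^ P.s / rho P.s x P.c ^ 4 := by positivity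
      refine (mul_le_of_le_one_left h1 (hd.u1 x)).trans (le_of_eq ?_)
      ring
    · rw [Set.indicator_of_notMem hx]
      positivity
  have h1 : massInt u N P = ∫ x, {x | P.inOm (N x)}.indicator
      (fun x => u x * (2 ^ P.s / rho P.s x P.c ^ 4)) x := by
    rw [integral_indicator hAm]
    rfl
  rw [h1]
  refine (integral_mono_of_nonneg (ae_of_all _ hnn) hi (ae_of_all _ hpt)).trans ?_
  rw [integral_const_mul]
  have h2 := ax_G2 P.s P.c (p := 4) (by norm_num)
  have h3 : (0 : ℝ) < 2 ^ P.s := by positivity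
  calc (2 : ℝ) ^ P.s * ∫ x, 1 / rho P.s x P.c ^ 4 ≤ 2 ^ P.s * (4 / 2 ^ P.s) :=
        mul_le_mul_of_nonneg_left h2 h3.le
    _ = 4 := by field_simp

end CH
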