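import Mathlib
import Pool.Agent.CH.Base
import Pool.Agent.CH.Defs
import Pool.Agent.CH.AGeo
import Pool.Agent.CH.AGx
import Pool.Agent.CH.ATile
import Pool.Agent.CH.AMass1

/-!
# CH-AMain1 (0.7 h): one step of the decomposition

Apply the mass lemma to `PP` with `mu = 4^n U` (if `U = 4^n U`...; `0 < U`): tops1; `PP' = PP.filter (in no tree of tops1)`, `MassLE PP' (mu/4)`.
Apply the energy lemma to `PP'` (or to `PP`) with `eps = 2^n`: tops2, `PL = PP.filter (in no tree of tops1 ∪ tops2)`.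
`∑_{PP \ PL} ≤ ∑_{t ∈ tops1 ∪ tops2} ∑_{P ∈ PP, inTree t P}`, each inner sum `≤ Ct 2^n min(4^n U, 4)/2^{t.1}` (tree lemma with
`TT = PP.filter (inTree t)`, `MassLE` with `mu = min (4^n U) 4` by `massInt_le`), and `∑_{tops} 1/2^{t.1} ≤ 1200/(4^n U) U + Ce/4^n = (1200+Ce)/4^n`.
-/

open MeasureTheory Complex
open scoped ComplexConjugate

namespace CH

theorem AMain1_EnLE_mono {a : Tile → ℝ} {PP QQ : Finset Tile} {eps : ℝ} (h : QQ ⊆ PP)
    (hE : EnLE a PP eps) : EnLE a QQ eps := by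
  classical
  intro s n xi
  refine le_trans ?_ (hE s n xi)
  refine Finset.sum_le_sum_of_subset_of_nonneg ?_ (fun _ _ _ => sq_nonneg _)
  intro P hP
  rw [Finset.mem_filter] at hP ⊢
  exact ⟨h hP.1, hP.2⟩

theorem step {C1 Ce Ct : ℝ} (hCt : 0 ≤ Ct) (hM : MassLemma) (hE : EnergyLemma C1 Ce)
    (hT : TreeLemma C1 Ct) {psi phi : Tile → T → ℂ} (hpsi : WP C1 psi) (hphi : WP C1 phi)
    {f : T → ℂ} (hf : L2 f) (hf1 : ∫ x, ‖f x‖ ^ 2 ≤ 1) {u : T → ℝ} {N : T → ℤ} {g : T → ℂ}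
    (hd : Dat u N g) (hU : 0 < ∫ x, u x) {r : ℕ} (PP : Finset Tile)
    (hPP : ∀ P ∈ PP, P.ok ∧ P.s % 4 = r) (n : ℤ)
    (h1 : MassLE u N PP ((4 : ℝ) ^ n * ∫ x, u x)) (h2 : EnLE (aco f psi) PP ((2 : ℝ) ^ n)) :
    ∃ PL : Finset Tile, PL ⊆ PP ∧ MassLE u N PL ((4 : ℝ) ^ (n - 1) * ∫ x, u x) ∧
      EnLE (aco f psi) PL ((2 : ℝ) ^ (n - 1)) ∧
      ∑ P ∈ PP \ PL, aco f psi P * bco g N phi P ≤
        Ct * (1200 + Ce) * ((2 : ℝ) ^ n)⁻¹ * min ((4 : ℝ) ^ n * ∫ x, u x) 4 := by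
  classical
  set U := ∫ x, u x with hUdef
  have ha : ∀ P, 0 ≤ aco f psi P := fun P => norm_nonneg _
  have hb : ∀ P, 0 ≤ bco g N phi P := fun P => norm_nonneg _
  have h4 : (0 : ℝ) < (4 : ℝ) ^ n := by positivity
  have h2n : (0 : ℝ) < (2 : ℝ) ^ n := by positivity
  have h42 : ((2 : ℝ) ^ n) ^ 2 = (4 : ℝ) ^ n := by
    rw [← zpow_natCast, ← zpow_mul, mul_comm, zpow_mul]; norm_num
  obtain ⟨tops1, ht1, hs1, hm1⟩ := hM u N g hd PP _ (by positivity) (fun P hP => (hPP P hP).1) h1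
  obtain ⟨tops2, ht2, hs2, hm2⟩ := hE psi hpsi f hf hf1 PP _ h2n (fun P hP => (hPP P hP).1) h2
  set tops := tops1 ∪ tops2 with htops
  set PL := PP.filter (fun P => ∀ t ∈ tops, ¬ inTree t P) with hPL
  have hPLs : PL ⊆ PP := Finset.filter_subset _ _
  refine ⟨PL, hPLs, ?_, ?_, ?_⟩
  · have := hm1 PL hPLs (fun P hP t ht => (Finset.mem_filter.1 hP).2 t
      (Finset.mem_union_left _ ht))
    have e1 : (4 : ℝ) ^ n * U / 4 = (4 : ℝ) ^ (n - 1) * U := by
      rw [zpow_sub_one₀ (by norm_num)]; ring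
    rwa [e1] at this
  · have := hm2 PL hPLs (fun P hP t ht => (Finset.mem_filter.1 hP).2 t
      (Finset.mem_union_right _ ht))
    have e1 : (2 : ℝ) ^ n / 2 = (2 : ℝ) ^ (n - 1) := by
      rw [zpow_sub_one₀ (by norm_num)]; ring
    rwa [e1] at this
  · -- trees
    set mu := min ((4 : ℝ) ^ n * U) 4 with hmu
    have hmu0 : 0 ≤ mu := le_min (by positivity) (by norm_num)
    have htree : ∀ t ∈ tops, ∑ P ∈ PP.filter (fun P => inTree t P),
        aco f psi P * bco g N phi P ≤ Ct * (2 : ℝ) ^ n * mu / 2 ^ t.1 := by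
      intro t ht
      have hok : t.2.1 < 2 ^ t.1 := by
        rw [htops, Finset.mem_union] at ht
        rcases ht with ht | ht
        · exact ht1 t ht
        · exact ht2 t ht
      refine hT phi hphi u N g hd (aco f psi) ha r t (PP.filter (fun P => inTree t P)) mu
        ((2 : ℝ) ^ n) hok ?_ hmu0 h2n.le ?_ (AMain1_EnLE_mono (Finset.filter_subset _ _) h2)
      · intro P hP
        rw [Finset.mem_filter] at hP
        exact ⟨(hPP P hP.1).1, (hPP P hP.1).2, hP.2⟩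
      · intro P hP P' hok' hle
        exact le_min (h1 P (Finset.mem_filter.1 hP).1 P' hok' hle) (massInt_le hd P')
    have hcov : ∑ P ∈ PP \ PL, aco f psi P * bco g N phi P ≤
        ∑ t ∈ tops, ∑ P ∈ PP.filter (fun P => inTree t P), aco f psi P * bco g N phi P := by
      simp_rw [Finset.sum_filter]
      rw [Finset.sum_comm]
      have hnn : ∀ P, 0 ≤ ∑ t ∈ tops, if inTree t P then aco f psi P * bco g N phi P else 0 :=
        fun P => Finset.sum_nonneg fun t _ => by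
          split_ifs
          · exact mul_nonneg (ha P) (hb P)
          · exact le_rfl
      refine le_trans ?_ (Finset.sum_le_sum_of_subset_of_nonneg
        (Finset.sdiff_subset (s := PP) (t := PL)) fun P _ _ => hnn P)
      refine Finset.sum_le_sum fun P hP => ?_
      rw [Finset.mem_sdiff] at hP
      have h3 : ¬ ∀ t ∈ tops, ¬ inTree t P := fun h => hP.2 (Finset.mem_filter.2 ⟨hP.1, h⟩)
      push Not at h3
      obtain ⟨t, ht, ht'⟩ := h3
      have := Finset.single_le_sum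
        (f := fun t => if inTree t P then aco f psi P * bco g N phi P else 0)
        (fun t _ => by
          change 0 ≤ if inTree t P then aco f psi P * bco g N phi P else 0
          split_ifs
          · exact mul_nonneg (ha P) (hb P)
          · exact le_rfl) ht
      simpa [ht'] using this
    have hs1' : ∑ t ∈ tops1, (1 / 2 ^ t.1 : ℝ) ≤ 1200 / (4 : ℝ) ^ n := by
      refine hs1.trans (le_of_eq ?_)
      rw [← hUdef]
      field_simp
    have hs2' : ∑ t ∈ tops2, (1 / 2 ^ t.1 : ℝ) ≤ Ce / (4 : ℝ) ^ n := by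
      rw [← h42]; exact hs2
    have hst : ∑ t ∈ tops, (1 / 2 ^ t.1 : ℝ) ≤ (1200 + Ce) / (4 : ℝ) ^ n := by
      have : ∑ t ∈ tops, (1 / 2 ^ t.1 : ℝ) ≤
          ∑ t ∈ tops1, (1 / 2 ^ t.1 : ℝ) + ∑ t ∈ tops2, (1 / 2 ^ t.1 : ℝ) := by
        rw [← Finset.sum_union_inter]
        have : 0 ≤ ∑ t ∈ tops1 ∩ tops2, (1 / 2 ^ t.1 : ℝ) :=
          Finset.sum_nonneg fun _ _ => by positivity
        linarith
      rw [add_div]; linarith
    calc ∑ P ∈ PP \ PL, aco f psi P * bco g N phi P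
        ≤ ∑ t ∈ tops, ∑ P ∈ PP.filter (fun P => inTree t P), aco f psi P * bco g N phi P := hcov
      _ ≤ ∑ t ∈ tops, Ct * (2 : ℝ) ^ n * mu / 2 ^ t.1 := Finset.sum_le_sum htree
      _ = Ct * (2 : ℝ) ^ n * mu * ∑ t ∈ tops, (1 / 2 ^ t.1 : ℝ) := by
        rw [Finset.mul_sum]
        refine Finset.sum_congr rfl fun t _ => ?_
        ring
      _ ≤ Ct * (2 : ℝ) ^ n * mu * ((1200 + Ce) / (4 : ℝ) ^ n) := by gcongr
      _ = Ct * (1200 + Ce) * ((2 : ℝ) ^ n)⁻¹ * mu := by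
        rw [← h42]; field_simp

end CH
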