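import Mathlib
import Pool.Agent.CH.Base
import Pool.Agent.CH.Defs
import Pool.Agent.CH.AGeo
import Pool.Agent.CH.AGx
import Pool.Agent.CH.ATile
import Pool.Agent.CH.AMass1
import Pool.Agent.CH.AMain1

/-!
# CH-AMain2 : Theorem A from the three lemmas
-/

open MeasureTheory Complex
open scoped ComplexConjugate

namespace CH

theorem AMain2_geo1 (m : ℤ) (S : Finset ℤ) (h : ∀ n ∈ S, n ≤ m) :
    ∑ n ∈ S, (2 : ℝ) ^ n ≤ 2 * 2 ^ m := by
  have h1 : ∑ n ∈ S, (2 : ℝ) ^ n = ∑ k ∈ S.image (fun n => (m - n).toNat), 2 ^ m * (1 / 2 : ℝ) ^ k := by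
    rw [Finset.sum_image]
    · refine Finset.sum_congr rfl fun n hn => ?_
      have hn' : (((m - n).toNat : ℕ) : ℤ) = m - n := Int.toNat_of_nonneg (by linarith [h n hn])
      rw [← zpow_natCast, hn', one_div, inv_zpow, ← zpow_neg, ← zpow_add₀ (by norm_num)]
      congr 1; ring
    · intro a ha b hb hab
      simp only at hab
      have h1 := h a ha
      have h2 := h b hb
      omega
  rw [h1, ← Finset.mul_sum]
  have h2 : ∑ k ∈ S.image (fun n => (m - n).toNat), (1 / 2 : ℝ) ^ k ≤ 2 := by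
    exact (summable_geometric_two.sum_le_tsum _ (fun i _ => by positivity)).trans
      tsum_geometric_two.le
  nlinarith [show (0 : ℝ) < 2 ^ m by positivity]

theorem AMain2_geo2 (m : ℤ) (S : Finset ℤ) (h : ∀ n ∈ S, m ≤ n) :
    ∑ n ∈ S, ((2 : ℝ) ^ n)⁻¹ ≤ 2 * (2 ^ m)⁻¹ := by
  have h1 := AMain2_geo1 (-m) (S.image (fun n => -n)) (by
    intro n hn
    rw [Finset.mem_image] at hn
    obtain ⟨a, ha, rfl⟩ := hn
    linarith [h a ha])
  rw [Finset.sum_image (by intro a _ b _ hab; simpa using hab)] at h1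
  simpa [zpow_neg] using h1

theorem sum_min {U : ℝ} (hU : 0 < U) (a b : ℤ) :
    ∑ n ∈ Finset.Icc a b, ((2 : ℝ) ^ n)⁻¹ * min ((4 : ℝ) ^ n * U) 4 ≤ 16 * Real.sqrt U := by
  set v := Real.sqrt U with hv
  have hv0 : 0 < v := Real.sqrt_pos.2 hU
  have hUv : U = v ^ 2 := (Real.sq_sqrt hU.le).symm
  obtain ⟨m, hm1, hm2⟩ : ∃ m : ℤ, (2 : ℝ) ^ m ≤ 2 / v ∧ 2 / v < 2 ^ (m + 1) := by
    obtain ⟨m, hm⟩ := exists_mem_Ico_zpow (show (0 : ℝ) < 2 / v by positivity) (one_lt_two)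
    exact ⟨m, hm.1, hm.2⟩
  rw [← Finset.sum_filter_add_sum_filter_not (Finset.Icc a b) (fun n => n ≤ m)]
  have hA : ∑ n ∈ (Finset.Icc a b).filter (fun n => n ≤ m), ((2 : ℝ) ^ n)⁻¹ * min ((4 : ℝ) ^ n * U) 4
      ≤ 4 * v := by
    calc ∑ n ∈ (Finset.Icc a b).filter (fun n => n ≤ m), ((2 : ℝ) ^ n)⁻¹ * min ((4 : ℝ) ^ n * U) 4
        ≤ ∑ n ∈ (Finset.Icc a b).filter (fun n => n ≤ m), (2 : ℝ) ^ n * U := by
          refine Finset.sum_le_sum fun n _ => ?_
          calc ((2 : ℝ) ^ n)⁻¹ * min ((4 : ℝ) ^ n * U) 4 ≤ ((2 : ℝ) ^ n)⁻¹ * ((4 : ℝ) ^ n * U) := by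
                gcongr; exact min_le_left _ _
            _ = (2 : ℝ) ^ n * U := by
                rw [show (4 : ℝ) = 2 * 2 by norm_num, mul_zpow]
                field_simp
      _ = (∑ n ∈ (Finset.Icc a b).filter (fun n => n ≤ m), (2 : ℝ) ^ n) * U := by rw [Finset.sum_mul]
      _ ≤ (2 * 2 ^ m) * U := by
          gcongr
          exact AMain2_geo1 m _ fun n hn => (Finset.mem_filter.1 hn).2
      _ ≤ (2 * (2 / v)) * U := by gcongr
      _ = 4 * v := by rw [hUv]; field_simp; ring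
  have hB : ∑ n ∈ (Finset.Icc a b).filter (fun n => ¬ n ≤ m), ((2 : ℝ) ^ n)⁻¹ * min ((4 : ℝ) ^ n * U) 4
      ≤ 4 * v := by
    calc ∑ n ∈ (Finset.Icc a b).filter (fun n => ¬ n ≤ m), ((2 : ℝ) ^ n)⁻¹ * min ((4 : ℝ) ^ n * U) 4
        ≤ ∑ n ∈ (Finset.Icc a b).filter (fun n => ¬ n ≤ m), ((2 : ℝ) ^ n)⁻¹ * 4 := by
          refine Finset.sum_le_sum fun n _ => ?_
          gcongr; exact min_le_right _ _
      _ = (∑ n ∈ (Finset.Icc a b).filter (fun n => ¬ n ≤ m), ((2 : ℝ) ^ n)⁻¹) * 4 := by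
          rw [Finset.sum_mul]
      _ ≤ (2 * (2 ^ (m + 1))⁻¹) * 4 := by
          gcongr
          refine AMain2_geo2 (m + 1) _ fun n hn => ?_
          have := (Finset.mem_filter.1 hn).2
          omega
      _ ≤ (2 * (2 / v)⁻¹) * 4 := by gcongr
      _ = 4 * v := by field_simp
  linarith

theorem AMain2_inJ_mid (P : Tile) : P.inJ P.mid := by
  unfold Tile.inJ Tile.mid
  have : P.m * 2 ^ (P.s + 7) + 2 ^ (P.s + 6) = (16 * P.m + 8) * 2 ^ (P.s + 3) := by
    rw [pow_add, pow_add, pow_add]; ring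
  rw [this]
  exact Int.mul_ediv_cancel _ (by positivity)

theorem AMain2_small {a : Tile → ℝ} {PP : Finset Tile} {eps : ℝ} (heps : 0 ≤ eps)
    (h : EnLE a PP eps) (P : Tile) (hP : P ∈ PP) : a P ≤ eps := by
  classical
  have h1 := h P.s P.n P.mid
  have h2 : a P ^ 2 ≤ ∑ P ∈ PP.filter (fun Q => tin Q.s Q.n P.s P.n ∧ Q.inJ P.mid), a P ^ 2 :=
    Finset.single_le_sum (f := fun P => a P ^ 2) (fun i _ => sq_nonneg _)
      (Finset.mem_filter.2 ⟨hP, tin_refl _ _, AMain2_inJ_mid P⟩)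
  have h3 : eps ^ 2 / 2 ^ P.s ≤ eps ^ 2 :=
    div_le_self (sq_nonneg _) (one_le_pow₀ (by norm_num))
  have h4 : a P ^ 2 ≤ eps ^ 2 := by
    refine h2.trans (le_trans (le_of_eq ?_) (h1.trans h3))
    congr
  exact abs_le_of_sq_le_sq' h4 heps |>.2

theorem AMain2_start {a : Tile → ℝ} (PP : Finset Tile) {u : T → ℝ} {N : T → ℤ} {g : T → ℂ}
    (hd : Dat u N g) (hU : 0 < ∫ x, u x) :
    ∃ n : ℤ, MassLE u N PP ((4 : ℝ) ^ n * ∫ x, u x) ∧ EnLE a PP ((2 : ℝ) ^ n) := by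
  classical
  set A := ∑ P ∈ PP, a P ^ 2 with hA
  set M := PP.sup Tile.s with hM
  obtain ⟨k, hk⟩ := pow_unbounded_of_one_lt (4 / (∫ x, u x) + A * 2 ^ M) (show (1 : ℝ) < 4 by norm_num)
  have hA0 : 0 ≤ A := Finset.sum_nonneg fun i _ => sq_nonneg _
  have hq0 : 0 < 4 / (∫ x, u x) := by positivity
  refine ⟨k, ?_, ?_⟩
  · intro P hP P' _ _
    refine (massInt_le hd P').trans ?_
    rw [zpow_natCast, ← div_le_iff₀ hU]
    have : 0 ≤ A * 2 ^ M := by positivity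
    linarith
  · intro s n xi
    rcases (PP.filter (fun P => tin P.s P.n s n ∧ P.inJ xi)).eq_empty_or_nonempty with he | ⟨P, hP⟩
    · have : ∑ P ∈ PP.filter (fun P => tin P.s P.n s n ∧ P.inJ xi), a P ^ 2 = 0 := by
        rw [he]; simp
      refine le_trans (le_of_eq ?_) (show (0 : ℝ) ≤ ((2 : ℝ) ^ (k : ℤ)) ^ 2 / 2 ^ s by positivity)
      convert this
    · have h1 : s ≤ M := by
        rw [Finset.mem_filter] at hP
        exact hP.2.1.1.trans (Finset.le_sup (f := Tile.s) hP.1)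
      have h2 : ∑ P ∈ PP.filter (fun P => tin P.s P.n s n ∧ P.inJ xi), a P ^ 2 ≤ A :=
        Finset.sum_le_sum_of_subset_of_nonneg (Finset.filter_subset _ _) fun i _ _ => sq_nonneg _
      have h3 : A ≤ ((2 : ℝ) ^ (k : ℤ)) ^ 2 / 2 ^ s := by
        rw [le_div_iff₀ (by positivity), zpow_natCast, ← pow_mul, mul_comm k 2, pow_mul]
        norm_num
        have h4 : A * 2 ^ s ≤ A * 2 ^ M := by
          gcongr
          norm_num
        linarith
      refine le_trans (le_of_eq ?_) (h2.trans h3)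
      congr

theorem AMain2_iter {C1 Ce Ct : ℝ} (hCt : 0 ≤ Ct) (hM : MassLemma)
    (hE : EnergyLemma C1 Ce) (hT : TreeLemma C1 Ct) {psi phi : Tile → T → ℂ} (hpsi : WP C1 psi)
    (hphi : WP C1 phi) {f : T → ℂ} (hf : L2 f) (hf1 : ∫ x, ‖f x‖ ^ 2 ≤ 1) {u : T → ℝ} {N : T → ℤ}
    {g : T → ℂ} (hd : Dat u N g) (hU : 0 < ∫ x, u x) {r : ℕ} (PP : Finset Tile)
    (hPP : ∀ P ∈ PP, P.ok ∧ P.s % 4 = r) (n : ℤ)
    (h1 : MassLE u N PP ((4 : ℝ) ^ n * ∫ x, u x)) (h2 : EnLE (aco f psi) PP ((2 : ℝ) ^ n)) (k : ℕ) :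
    ∃ PL : Finset Tile, PL ⊆ PP ∧ MassLE u N PL ((4 : ℝ) ^ (n - k) * ∫ x, u x) ∧
      EnLE (aco f psi) PL ((2 : ℝ) ^ (n - k)) ∧
      ∑ P ∈ PP \ PL, aco f psi P * bco g N phi P ≤
        Ct * (1200 + Ce) * ∑ j ∈ Finset.Icc (n - k + 1) n,
          ((2 : ℝ) ^ j)⁻¹ * min ((4 : ℝ) ^ j * ∫ x, u x) 4 := by
  classical
  induction k with
  | zero =>
    refine ⟨PP, Finset.Subset.refl _, by simpa using h1, by simpa using h2, ?_⟩
    have : Finset.Icc (n - ((0 : ℕ) : ℤ) + 1) n = ∅ := by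
      rw [Finset.Icc_eq_empty]; push_cast; omega
    rw [this]; simp
  | succ k ih =>
    obtain ⟨PL, hs, hm, he, hsum⟩ := ih
    obtain ⟨PL', hs', hm', he', hsum'⟩ := step hCt hM hE hT hpsi hphi hf hf1 hd hU PL
      (fun P hP => hPP P (hs hP)) (n - k) hm he
    have hk : n - ((k + 1 : ℕ) : ℤ) = n - k - 1 := by push_cast; ring
    refine ⟨PL', hs'.trans hs, by rw [hk]; exact hm', by rw [hk]; exact he', ?_⟩
    have hun : PP \ PL' = (PP \ PL) ∪ (PL \ PL') := by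
      ext P
      simp only [Finset.mem_sdiff, Finset.mem_union]
      constructor
      · rintro ⟨ha, hb⟩
        by_cases hc : P ∈ PL
        · exact Or.inr ⟨hc, hb⟩
        · exact Or.inl ⟨ha, hc⟩
      · rintro (⟨ha, hb⟩ | ⟨ha, hb⟩)
        · exact ⟨ha, fun hc => hb (hs' hc)⟩
        · exact ⟨hs ha, hb⟩
    have hdis : Disjoint (PP \ PL) (PL \ PL') := by
      rw [Finset.disjoint_left]
      intro P ha hb
      exact (Finset.mem_sdiff.1 ha).2 (Finset.mem_sdiff.1 hb).1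
    have hicc : Finset.Icc (n - ((k + 1 : ℕ) : ℤ) + 1) n = insert (n - (k : ℤ)) (Finset.Icc (n - k + 1) n) := by
      rw [hk]
      ext j
      simp only [Finset.mem_Icc, Finset.mem_insert]
      omega
    rw [hun, Finset.sum_union hdis, hicc, Finset.sum_insert (by simp)]
    linarith

theorem AMain2_norm {C1 Ce Ct : ℝ} (hCe : 0 ≤ Ce) (hCt : 0 ≤ Ct) (hM : MassLemma)
    (hE : EnergyLemma C1 Ce) (hT : TreeLemma C1 Ct) {psi phi : Tile → T → ℂ} (hpsi : WP C1 psi)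
    (hphi : WP C1 phi) {f : T → ℂ} (hf : L2 f) (hf1 : ∫ x, ‖f x‖ ^ 2 ≤ 1) {u : T → ℝ} {N : T → ℤ}
    {g : T → ℂ} (hd : Dat u N g) (hU : 0 < ∫ x, u x) {r : ℕ} (PP : Finset Tile)
    (hPP : ∀ P ∈ PP, P.ok ∧ P.s % 4 = r) :
    ∑ P ∈ PP, aco f psi P * bco g N phi P ≤ 16 * Ct * (1200 + Ce) * Real.sqrt (∫ x, u x) := by
  classical
  obtain ⟨n, h1, h2⟩ := AMain2_start (a := aco f psi) PP hd hU
  set B := ∑ P ∈ PP, bco g N phi P with hB
  have hb0 : ∀ P, 0 ≤ bco g N phi P := fun P => norm_nonneg _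
  have key : ∀ k : ℕ, ∑ P ∈ PP, aco f psi P * bco g N phi P ≤
      16 * Ct * (1200 + Ce) * Real.sqrt (∫ x, u x) + (2 ^ n * B) * (1 / 2 : ℝ) ^ k := by
    intro k
    obtain ⟨PL, hs, hm, he, hsum⟩ := AMain2_iter hCt hM hE hT hpsi hphi hf hf1 hd hU PP hPP n h1 h2 k
    have h3 := sum_min hU (n - k + 1) n
    have h4 : Ct * (1200 + Ce) * ∑ j ∈ Finset.Icc (n - k + 1) n,
          ((2 : ℝ) ^ j)⁻¹ * min ((4 : ℝ) ^ j * ∫ x, u x) 4
        ≤ Ct * (1200 + Ce) * (16 * Real.sqrt (∫ x, u x)) :=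
      mul_le_mul_of_nonneg_left h3 (by positivity)
    have h5 : ∑ P ∈ PL, aco f psi P * bco g N phi P ≤ (2 ^ n * B) * (1 / 2 : ℝ) ^ k := by
      calc ∑ P ∈ PL, aco f psi P * bco g N phi P
          ≤ ∑ P ∈ PL, (2 : ℝ) ^ (n - k) * bco g N phi P := by
            refine Finset.sum_le_sum fun P hP => ?_
            exact mul_le_mul_of_nonneg_right (AMain2_small (by positivity) he P hP) (hb0 P)
        _ ≤ ∑ P ∈ PP, (2 : ℝ) ^ (n - k) * bco g N phi P :=
            Finset.sum_le_sum_of_subset_of_nonneg hs fun P _ _ =>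
              mul_nonneg (by positivity) (hb0 P)
        _ = (2 : ℝ) ^ (n - k) * B := by rw [← Finset.mul_sum]
        _ = (2 ^ n * B) * (1 / 2 : ℝ) ^ k := by
            rw [zpow_sub₀ (by norm_num), zpow_natCast, one_div, inv_pow]; ring
    rw [← Finset.sum_sdiff hs]
    linarith
  have hlim : Filter.Tendsto (fun k : ℕ => 16 * Ct * (1200 + Ce) * Real.sqrt (∫ x, u x) +
      (2 ^ n * B) * (1 / 2 : ℝ) ^ k) Filter.atTop
      (nhds (16 * Ct * (1200 + Ce) * Real.sqrt (∫ x, u x) + (2 ^ n * B) * 0)) :=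
    tendsto_const_nhds.add ((tendsto_pow_atTop_nhds_zero_of_lt_one (by norm_num) (by norm_num)).const_mul _)
  have := ge_of_tendsto' hlim key
  simpa using this

theorem theoremA_of {C1 Ce Ct : ℝ} (hCe : 0 ≤ Ce) (hCt : 0 ≤ Ct) (hM : MassLemma)
    (hE : EnergyLemma C1 Ce) (hT : TreeLemma C1 Ct) :
    TheoremA C1 (16 * Ct * (1200 + Ce)) := by
  intro psi phi hpsi hphi f hf u N g hd r PP hPP
  have hu0 : 0 ≤ᵐ[volume] u := ae_of_all _ fun x => hd.u0 x
  rcases (integral_nonneg_of_ae hu0).eq_or_lt with h0 | hU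
  · -- `u = 0` a.e.
    have h1 : u =ᵐ[volume] 0 := (integral_eq_zero_iff_of_nonneg_ae hu0 hd.integrable).1 h0.symm
    have h2 : ∀ P, bco g N phi P = 0 := by
      intro P
      unfold bco
      rw [norm_eq_zero]
      apply integral_eq_zero_of_ae
      refine ae_restrict_of_ae ?_
      filter_upwards [h1] with x hx
      have h3 := hd.gu x
      rw [hx] at h3
      have h4 : g x = 0 := norm_le_zero_iff.1 h3
      simp [h4]
    rw [Finset.sum_eq_zero fun P _ => by rw [h2 P, mul_zero]]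
    positivity
  · have hn0 : 0 ≤ ∫ x, ‖f x‖ ^ 2 := integral_nonneg fun x => by positivity
    rcases hn0.eq_or_lt with h0 | hF
    · have h1 : (fun x => ‖f x‖ ^ 2) =ᵐ[volume] 0 :=
        (integral_eq_zero_iff_of_nonneg (fun x => by positivity) hf.integrable_sq).1 h0.symm
      have h2 : ∀ P, aco f psi P = 0 := by
        intro P
        unfold aco
        rw [norm_eq_zero]
        apply integral_eq_zero_of_ae
        filter_upwards [h1] with x hx
        have h4 : f x = 0 := by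
          have : ‖f x‖ ^ 2 = 0 := hx
          simpa using this
        simp [h4]
      rw [Finset.sum_eq_zero fun P _ => by rw [h2 P, zero_mul]]
      positivity
    · set w := Real.sqrt (∫ x, ‖f x‖ ^ 2) with hw
      have hw0 : 0 < w := Real.sqrt_pos.2 hF
      have hw2 : w ^ 2 = ∫ x, ‖f x‖ ^ 2 := Real.sq_sqrt hn0
      have hf' : L2 (fun x => ((1 / w : ℝ) : ℂ) * f x) := hf.const_mul _
      have hf1' : ∫ x, ‖((1 / w : ℝ) : ℂ) * f x‖ ^ 2 ≤ 1 := by
        have : ∀ x, ‖((1 / w : ℝ) : ℂ) * f x‖ ^ 2 = (1 / w) ^ 2 * ‖f x‖ ^ 2 := by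
          intro x
          rw [norm_mul, mul_pow, Complex.norm_real, Real.norm_eq_abs, sq_abs]
        simp_rw [this]
        rw [integral_const_mul, ← hw2]
        apply le_of_eq
        field_simp
      have h3 := AMain2_norm hCe hCt hM hE hT hpsi hphi hf' hf1' hd hU PP hPP
      have h4 : ∀ P, aco (fun x => ((1 / w : ℝ) : ℂ) * f x) psi P = 1 / w * aco f psi P := by
        intro P
        unfold aco
        have : ∀ x, ((1 / w : ℝ) : ℂ) * f x * conj (psi P x) = ((1 / w : ℝ) : ℂ) * (f x * conj (psi P x)) :=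
          fun x => by ring
        simp_rw [this]
        rw [integral_const_mul, norm_mul, Complex.norm_real, Real.norm_eq_abs, abs_of_pos (by positivity)]
      have h5 : ∑ P ∈ PP, aco (fun x => ((1 / w : ℝ) : ℂ) * f x) psi P * bco g N phi P
          = 1 / w * ∑ P ∈ PP, aco f psi P * bco g N phi P := by
        rw [Finset.mul_sum]
        refine Finset.sum_congr rfl fun P _ => ?_
        rw [h4]; ring
      rw [h5, one_div, inv_mul_le_iff₀ hw0] at h3
      linarith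

end CH
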