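import Mathlib
import Pool.Agent.CH.Base
import Pool.Agent.CH.Defs
import Pool.Agent.CH.AGeo
import Pool.Agent.CH.AGx
import Pool.Agent.CH.ATile
import Pool.Agent.CH.AMass1

/-!
# CH-AMass2 (1.2 h): counting incomparable heavy tiles (Vitali argument)

Rectangles `R(P) = {(x, xi) | rho_s(x,c_P) - 1 < 2^k, P.inOm xi} ⊆ T × ℤ`.  Apply
`Vitali.exists_disjoint_subfamily_covering_enlargement` (B = R, t = QQ, δ P = 1/2^P.s, τ = 3/2) or a greedy induction on `QQ`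
(tile with minimal `s` first): there is `S ⊆ QQ` with pairwise disjoint `R(P)`, and every `P ∈ QQ` has `P'' ∈ S` with
`R(P) ∩ R(P'') ≠ ∅` and `2^-s ≤ (3/2) 2^-s''`, hence `s'' ≤ s`.
(1) the sets `{x | P.inOm (N x) ∧ rho - 1 < 2^k}`, `P ∈ S`, are pairwise disjoint (a common point `x` gives the common point
`(x, N x)` of the rectangles), so `∑_{P∈S} (mu/100) 4^k/2^s ≤ ∫ u`, `∑_S 1/2^s ≤ 100/(mu 4^k) ∫ u`.
(2) for `P'' ∈ S` the `P` attached to it: `omega_P` and `omega_P''` meet and `s'' ≤ s`, so `omega_P'' ⊆ omega_P`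
(`Tile.sub_Om` with the roles `P'', P`); hence for two of them both omegas contain `omega_P''`, and if their
time intervals met they would be comparable (`Tile.le_of_mem`), so equal (`hinc`): the `D P.s P.n` are pairwise disjoint; they are
contained in `{y | ‖y - c''‖ < 3 * 2^k / 2^s''}`: `‖c_P - c''‖ < 2^k(2^-s + 2^-s'') ≤ 2 * 2^k 2^-s''` and `‖y - c_P‖ ≤ 2^-s ≤ 2^k 2^-s''`
(take `≤` where needed).  So `∑ 1/2^s ≤ 6 * 2^k/2^s''` (`ax_volume_ball`, `volume_D`).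
Together `∑_QQ 1/2^s ≤ 600 2^k/(mu 4^k) ∫ u`.
-/

open MeasureTheory Complex
open scoped ComplexConjugate

namespace CH

/-- the rectangle of a tile -/
def AMass2_R (k : ℕ) (P : Tile) : Set (T × ℤ) :=
  {z | rho P.s z.1 P.c - 1 < 2 ^ k ∧ P.inOm z.2}

/-- the part of the circle seen by the tile -/
def AMass2_E (N : T → ℤ) (k : ℕ) (P : Tile) : Set T :=
  {x | P.inOm (N x) ∧ rho P.s x P.c - 1 < 2 ^ k}

theorem AMass2_E_meas {N : T → ℤ} (hN : Measurable N) (k : ℕ) (P : Tile) :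
    MeasurableSet (AMass2_E N k P) := by
  have h1 := Tile.measurableSet_inOm P hN
  have h2 : MeasurableSet {x : T | rho P.s x P.c - 1 < 2 ^ k} :=
    measurableSet_lt (by fun_prop) measurable_const
  exact h1.inter h2

theorem AMass2_norm {s k : ℕ} {x c : T} (h : rho s x c - 1 < 2 ^ k) : ‖x - c‖ < 2 ^ k / 2 ^ s := by
  unfold rho at h
  rw [lt_div_iff₀ (by positivity)]
  linarith

/-- (1): the sum over the disjoint family -/
theorem AMass2_one {u : T → ℝ} {N : T → ℤ} {g : T → ℂ} (hd : Dat u N g) (k : ℕ)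
    (S : Finset Tile) (hdis : ∀ P ∈ S, ∀ Q ∈ S, P ≠ Q → Disjoint (AMass2_R k P) (AMass2_R k Q)) :
    ∑ P ∈ S, ballInt u N k P ≤ ∫ x, u x := by
  have hE : ∀ P ∈ S, ∀ Q ∈ S, P ≠ Q → Disjoint (AMass2_E N k P) (AMass2_E N k Q) := by
    intro P hP Q hQ hPQ
    rw [Set.disjoint_left]
    intro x hx hx'
    have := hdis P hP Q hQ hPQ
    rw [Set.disjoint_left] at this
    exact this (a := (x, N x)) ⟨hx.2, hx.1⟩ ⟨hx'.2, hx'.1⟩
  have h1 : ∑ P ∈ S, ballInt u N k P = ∫ x in ⋃ P ∈ S, AMass2_E N k P, u x := by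
    rw [integral_biUnion_finset S (fun P _ => AMass2_E_meas hd.mN k P)
      (fun P hP Q hQ hPQ => hE P hP Q hQ hPQ) (fun P _ => hd.integrable.integrableOn)]
    rfl
  rw [h1]
  exact setIntegral_le_integral hd.integrable (ae_of_all _ fun x => hd.u0 x)

/-- (2): the tiles attached to one tile of the disjoint family -/
theorem AMass2_two (k : ℕ) (F : Finset Tile) (hok : ∀ P ∈ F, P.ok)
    (hinc : ∀ P ∈ F, ∀ Q ∈ F, P.le Q → P = Q) (P0 : Tile)
    (hF : ∀ P ∈ F, (AMass2_R k P ∩ AMass2_R k P0).Nonempty ∧ P0.s ≤ P.s) :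
    ∑ P ∈ F, (1 / 2 ^ P.s : ℝ) ≤ 6 * 2 ^ k / 2 ^ P0.s := by
  have hpos : (0 : ℝ) < 2 ^ k / 2 ^ P0.s := by positivity
  have hle : ∀ P ∈ F, (2 : ℝ) ^ k / 2 ^ P.s ≤ 2 ^ k / 2 ^ P0.s := by
    intro P hP
    have h1 : (2 : ℝ) ^ P0.s ≤ 2 ^ P.s := pow_le_pow_right₀ (by norm_num) (hF P hP).2
    exact div_le_div_of_nonneg_left (by positivity) (by positivity) h1
  have hOm : ∀ P ∈ F, P.inOm (P0.m * 2 ^ (P0.s + 7)) := by
    intro P hP
    obtain ⟨⟨z, hz1, hz2⟩, hs⟩ := hF P hP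
    exact Tile.sub_Om hs hz2.2 hz1.2 _ (Tile.inOm_left P0)
  have hdis : ∀ P ∈ F, ∀ Q ∈ F, P ≠ Q → Disjoint (D P.s P.n) (D Q.s Q.n) := by
    intro P hP Q hQ hPQ
    rw [Set.disjoint_left]
    intro x hx hx'
    rcases le_total Q.s P.s with h | h
    · exact hPQ (hinc P hP Q hQ (Tile.le_of_mem h hx hx' (hOm P hP) (hOm Q hQ)))
    · exact hPQ (hinc Q hQ P hP (Tile.le_of_mem h hx' hx (hOm Q hQ) (hOm P hP))).symm
  have hsub : ∀ P ∈ F, D P.s P.n ⊆ {y : T | ‖y - P0.c‖ < 3 * (2 ^ k / 2 ^ P0.s)} := by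
    intro P hP y hy
    obtain ⟨⟨z, hz1, hz2⟩, hs⟩ := hF P hP
    have h1 : ‖z.1 - P.c‖ < 2 ^ k / 2 ^ P.s := AMass2_norm hz1.1
    have h2 : ‖z.1 - P0.c‖ < 2 ^ k / 2 ^ P0.s := AMass2_norm hz2.1
    have h3 : ‖y - P.c‖ ≤ 1 / 2 ^ P.s := ax_norm_sub_cpt hy
    have h4 : (1 : ℝ) / 2 ^ P.s ≤ 2 ^ k / 2 ^ P.s := by
      have : (1 : ℝ) ≤ 2 ^ k := one_le_pow₀ (by norm_num)
      gcongr
    have h5 := hle P hP
    have h6 : ‖y - P0.c‖ ≤ ‖y - P.c‖ + ‖z.1 - P.c‖ + ‖z.1 - P0.c‖ := by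
      have e : y - P0.c = (y - P.c) - (z.1 - P.c) + (z.1 - P0.c) := by abel
      rw [e]
      refine (norm_add_le _ _).trans ?_
      gcongr
      exact norm_sub_le _ _
    change ‖y - P0.c‖ < _
    linarith
  have h1 : ∑ P ∈ F, (1 / 2 ^ P.s : ℝ) = volume.real (⋃ P ∈ F, D P.s P.n) := by
    rw [measureReal_biUnion_finset (fun P hP Q hQ hPQ => hdis P hP Q hQ hPQ)
      (fun P _ => measurableSet_D _ _)]
    exact Finset.sum_congr rfl fun P hP => (volume_D P.s P.n (hok P hP)).symm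
  rw [h1]
  have h2 : (⋃ P ∈ F, D P.s P.n) ⊆ {y : T | ‖y - P0.c‖ < 3 * (2 ^ k / 2 ^ P0.s)} := by
    intro y hy
    simp only [Set.mem_iUnion] at hy
    obtain ⟨P, hP, hy⟩ := hy
    exact hsub P hP hy
  refine (measureReal_mono h2).trans ?_
  refine (ax_volume_ball P0.c (by positivity)).trans (le_of_eq ?_)
  ring

theorem mass_count {u : T → ℝ} {N : T → ℤ} {g : T → ℂ} (hd : Dat u N g) {mu : ℝ}
    (hmu : 0 < mu) (k : ℕ) (QQ : Finset Tile) (hok : ∀ P ∈ QQ, P.ok)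
    (hinc : ∀ P ∈ QQ, ∀ Q ∈ QQ, P.le Q → P = Q)
    (hb : ∀ P ∈ QQ, mu / 100 * 2 ^ (2 * k) / 2 ^ P.s ≤ ballInt u N k P) :
    ∑ P ∈ QQ, (1 / 2 ^ P.s : ℝ) ≤ 600 / mu / 2 ^ k * ∫ x, u x := by
  classical
  obtain ⟨V, hVsub, hVdis, hVcov⟩ := Vitali.exists_disjoint_subfamily_covering_enlargement
    (AMass2_R k) (QQ : Set Tile) (fun P => 1 / 2 ^ P.s) (3 / 2) (by norm_num)
    (fun P _ => by positivity) 1
    (fun P _ => by
      rw [div_le_one (by positivity)]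
      exact one_le_pow₀ (by norm_num))
    (fun P _ => ⟨(P.c, P.m * 2 ^ (P.s + 7)), by
      refine ⟨?_, Tile.inOm_left P⟩
      unfold rho
      simp⟩)
  set S := QQ.filter (fun P => P ∈ V) with hS
  have hcov : ∀ P ∈ QQ, ∃ Q ∈ S, (AMass2_R k P ∩ AMass2_R k Q).Nonempty ∧ Q.s ≤ P.s := by
    intro P hP
    obtain ⟨Q, hQ, h1, h2⟩ := hVcov P hP
    refine ⟨Q, ?_, h1, ?_⟩
    · rw [hS, Finset.mem_filter]
      exact ⟨hVsub hQ, hQ⟩
    · by_contra hlt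
      push Not at hlt
      have h3 : (2 : ℝ) ^ (P.s + 1) ≤ 2 ^ Q.s := pow_le_pow_right₀ (by norm_num) hlt
      have h4 : (1 : ℝ) / 2 ^ Q.s ≤ 1 / 2 ^ (P.s + 1) :=
        div_le_div_of_nonneg_left (by norm_num) (by positivity) h3
      have h5 : (1 : ℝ) / 2 ^ (P.s + 1) = 1 / 2 * (1 / 2 ^ P.s) := by
        rw [pow_succ]; field_simp
      have h6 : (0 : ℝ) < 1 / 2 ^ P.s := by positivity
      rw [h5] at h4
      linarith
  choose! φ hφS hφ using hcov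
  have h1 : ∑ P ∈ S, ballInt u N k P ≤ ∫ x, u x := by
    refine AMass2_one hd k S ?_
    intro P hP Q hQ hPQ
    rw [hS, Finset.mem_filter] at hP hQ
    exact hVdis hP.2 hQ.2 hPQ
  have h2 : ∑ P ∈ S, (mu / 100 * 2 ^ (2 * k) / 2 ^ P.s) ≤ ∫ x, u x := by
    refine le_trans (Finset.sum_le_sum fun P hP => hb P ?_) h1
    rw [hS, Finset.mem_filter] at hP
    exact hP.1
  have h3 : ∑ P ∈ QQ, (1 / 2 ^ P.s : ℝ) ≤ ∑ Q ∈ S, (6 * 2 ^ k / 2 ^ Q.s : ℝ) := by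
    rw [← Finset.sum_fiberwise_of_maps_to (s := QQ) (t := S) (g := φ) hφS]
    refine Finset.sum_le_sum fun Q hQ => ?_
    refine AMass2_two k _ ?_ ?_ Q ?_
    · intro P hP
      rw [Finset.mem_filter] at hP
      exact hok P hP.1
    · intro P hP P' hP'
      rw [Finset.mem_filter] at hP hP'
      exact hinc P hP.1 P' hP'.1
    · intro P hP
      rw [Finset.mem_filter] at hP
      have := hφ P hP.1
      rw [hP.2] at this
      exact this
  refine h3.trans ?_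
  have h4 : ∑ Q ∈ S, (6 * 2 ^ k / 2 ^ Q.s : ℝ) =
      600 / mu / 2 ^ k * ∑ P ∈ S, (mu / 100 * 2 ^ (2 * k) / 2 ^ P.s) := by
    rw [Finset.mul_sum]
    refine Finset.sum_congr rfl fun P _ => ?_
    have e : (2 : ℝ) ^ (2 * k) = 2 ^ k * 2 ^ k := by rw [two_mul, pow_add]
    rw [e]
    field_simp
    norm_num
  rw [h4]
  exact mul_le_mul_of_nonneg_left h2 (by positivity)

end CH
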