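import Mathlib
import Pool.Agent.CH.Base
import Pool.Agent.CH.Defs
import Pool.Agent.CH.AGeo
import Pool.Agent.CH.AGx
import Pool.Agent.CH.ATile
import Pool.Agent.CH.AMass1
import Pool.Agent.CH.AMass2

/-!
# CH-AMass3 (0.8 h): the mass lemma

`heavy P` (for `P ∈ PP`): there is `P'` with `P'.ok`, `P.le P'`, `mu/4 < massInt u N P'`; choose one, `h(P)`.
`U0` = image of the heavy tiles of `PP` under `h`; `U` = maximal elements of `U0` for `Tile.le` (every element of a finite set is
below a maximal one; `Tile.le_refl, le_trans, le_antisymm`; e.g. `Set.Finite.exists_le_maximal` with the order defined through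
`Tile.le`, or induction on `P.s`: an element with minimal `s` above a given one is maximal).
`U` is pairwise incomparable, all its tiles are ok and have `massInt > mu/4`; choose `k(P)` from `mass_ball`.
`∑_U 1/2^s = ∑_k ∑_{P∈U, k(P)=k} ≤ ∑_k 600/mu/2^k ∫u ≤ 1200/mu ∫ u` (`mass_count`; finitely many `k`).
tops = image of `U` under `P ↦ (P.s, P.n, P.m * 2^(P.s+7))` (`Tile.inOm_left`); `Finset.sum_image_le`-type bound or injectivity
(the map is injective).
If `P ∈ PL`, `P'.ok`, `P.le P'` and `massInt u N P' > mu/4` then `P` is heavy, `P.le h(P)`, `h(P).le Q` for some `Q ∈ U`, so `P` is in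
the tree of `Q` (`Tile.le` gives `tin`, and `Tile.inOm_of_le`): contradiction.
-/

open MeasureTheory Complex
open scoped ComplexConjugate

namespace CH

private theorem AMass3_eq {Q R : Tile} (h : Q.le R) (hs : R.s = Q.s) : R = Q := by
  obtain ⟨⟨_, h1⟩, h2⟩ := h
  rw [hs, Nat.sub_self, pow_zero, Nat.div_one] at h1
  rw [hs, Nat.sub_self, pow_zero, Int.ediv_one] at h2
  cases Q; cases R
  simp only at hs h1 h2
  subst hs; subst h1; subst h2; rfl

/-- every element of a finite set of tiles is below a maximal one -/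
private theorem AMass3_max (U0 : Finset Tile) {P : Tile} (hP : P ∈ U0) :
    ∃ Q ∈ U0, P.le Q ∧ ∀ R ∈ U0, Q.le R → R = Q := by
  classical
  have hne : (U0.filter (fun R => P.le R)).Nonempty :=
    ⟨P, Finset.mem_filter.2 ⟨hP, Tile.le_refl P⟩⟩
  obtain ⟨Q, hQ, hmin⟩ := Finset.exists_min_image _ (fun R : Tile => R.s) hne
  rw [Finset.mem_filter] at hQ
  refine ⟨Q, hQ.1, hQ.2, fun R hR hQR => ?_⟩
  have h1 : Q.s ≤ R.s := hmin R (Finset.mem_filter.2 ⟨hR, Tile.le_trans hQ.2 hQR⟩)
  have h2 : R.s ≤ Q.s := Tile.s_le_of_le hQR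
  exact AMass3_eq hQR (le_antisymm h2 h1)

theorem massLemma : MassLemma := by
  classical
  intro u N g hd PP mu hmu hok _
  have hu0 : 0 ≤ ∫ x, u x := integral_nonneg fun x => hd.u0 x
  let heavy : Tile → Prop := fun P => ∃ P' : Tile, P'.ok ∧ P.le P' ∧ mu / 4 < massInt u N P'
  have hch : ∀ P : Tile, ∃ P' : Tile, heavy P → P'.ok ∧ P.le P' ∧ mu / 4 < massInt u N P' := by
    intro P
    by_cases h : heavy P
    · obtain ⟨P', h'⟩ := h
      exact ⟨P', fun _ => h'⟩
    · exact ⟨P, fun h' => absurd h' h⟩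
  choose hv hhv using hch
  set U0 : Finset Tile := (PP.filter heavy).image hv with hU0
  set U : Finset Tile := U0.filter (fun Q => ∀ R ∈ U0, Q.le R → R = Q) with hU
  have hU0p : ∀ Q ∈ U0, Q.ok ∧ mu / 4 < massInt u N Q := by
    intro Q hQ
    rw [hU0, Finset.mem_image] at hQ
    obtain ⟨P, hP, rfl⟩ := hQ
    rw [Finset.mem_filter] at hP
    have := hhv P hP.2
    exact ⟨this.1, this.2.2⟩
  have hUp : ∀ Q ∈ U, Q.ok ∧ mu / 4 < massInt u N Q := fun Q hQ =>
    hU0p Q (Finset.mem_filter.1 hQ).1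
  have hUinc : ∀ P ∈ U, ∀ Q ∈ U, P.le Q → P = Q := by
    intro P hP Q hQ h
    exact ((Finset.mem_filter.1 hP).2 Q (Finset.mem_filter.1 hQ).1 h).symm
  have hkex : ∀ P : Tile, ∃ k : ℕ, P ∈ U → mu / 100 * 2 ^ (2 * k) / 2 ^ P.s ≤ ballInt u N k P := by
    intro P
    by_cases h : P ∈ U
    · obtain ⟨k, hk⟩ := mass_ball hd hmu (hUp P h).2
      exact ⟨k, fun _ => hk⟩
    · exact ⟨0, fun h' => absurd h' h⟩
  choose kk hkk using hkex
  have hsum : ∑ P ∈ U, (1 / 2 ^ P.s : ℝ) ≤ 1200 / mu * ∫ x, u x := by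
    rw [← Finset.sum_fiberwise_of_maps_to (s := U) (t := U.image kk) (g := kk)
      (fun x hx => Finset.mem_image_of_mem kk hx)]
    have h1 : ∀ j ∈ U.image kk, ∑ P ∈ U with kk P = j, (1 / 2 ^ P.s : ℝ) ≤
        (600 / mu * ∫ x, u x) * (1 / 2) ^ j := by
      intro j _
      have := mass_count hd hmu j (U.filter (fun P => kk P = j))
        (fun P hP => (hUp P (Finset.mem_filter.1 hP).1).1)
        (fun P hP Q hQ h => hUinc P (Finset.mem_filter.1 hP).1 Q (Finset.mem_filter.1 hQ).1 h)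
        (fun P hP => by
          have h2 := Finset.mem_filter.1 hP
          have h3 := hkk P h2.1
          rw [h2.2] at h3
          exact h3)
      refine this.trans (le_of_eq ?_)
      rw [one_div, inv_pow]
      ring
    refine (Finset.sum_le_sum h1).trans ?_
    rw [← Finset.mul_sum]
    have h2 : ∑ j ∈ U.image kk, (1 / 2 : ℝ) ^ j ≤ 2 :=
      (summable_geometric_two.sum_le_tsum _ (fun i _ => by positivity)).trans
        tsum_geometric_two.le
    have h3 : 0 ≤ 600 / mu * ∫ x, u x := by positivity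
    calc (600 / mu * ∫ x, u x) * ∑ j ∈ U.image kk, (1 / 2 : ℝ) ^ j ≤ (600 / mu * ∫ x, u x) * 2 := by
          gcongr
      _ = 1200 / mu * ∫ x, u x := by ring
  let F : Tile → ℕ × ℕ × ℤ := fun P => (P.s, P.n, P.m * 2 ^ (P.s + 7))
  have hF : Function.Injective F := by
    intro P Q h
    simp only [F, Prod.mk.injEq] at h
    obtain ⟨h1, h2, h3⟩ := h
    cases P; cases Q
    simp only at h1 h2 h3
    subst h1; subst h2
    have h4 := mul_right_cancel₀ (by positivity : (2 : ℤ) ^ _ ≠ 0) h3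
    subst h4; rfl
  refine ⟨U.image F, ?_, ?_, ?_⟩
  · intro t ht
    obtain ⟨P, hP, rfl⟩ := Finset.mem_image.1 ht
    exact (hUp P hP).1
  · rw [Finset.sum_image (fun x _ y _ h => hF h)]
    exact hsum
  · intro PL hPL hno P hP P' hok' hle
    by_contra hgt
    push Not at hgt
    have hh : heavy P := ⟨P', hok', hle, hgt⟩
    have h1 := hhv P hh
    have h2 : hv P ∈ U0 := Finset.mem_image_of_mem hv (Finset.mem_filter.2 ⟨hPL hP, hh⟩)
    obtain ⟨Q, hQ, hPQ, hmax⟩ := AMass3_max U0 h2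
    have hQU : Q ∈ U := Finset.mem_filter.2 ⟨hQ, hmax⟩
    have hle2 : P.le Q := Tile.le_trans h1.2.1 hPQ
    exact hno P hP (F Q) (Finset.mem_image_of_mem F hQU) ⟨hle2.1, Tile.inOm_of_le hle2 (Tile.inOm_left Q)⟩

end CH
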