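import Pool.Agent.CH.BFej2

/-! # CH-BFam: families
`Fam c h`: `h` is (a.e.) `sum_i e_{m_i} P_+ g_i` with `int sum |g_i| <= c`.
* `Fam_L2`, `Fam_An`: each `e_m P_+ g` (`m >= 0`) is in `L2` and has no negative coefficients (`cf_e_mul`, `cf_Pp`).
* `Fam_cf`: `|cf (e_m P_+ g) j| = |cf g (j-m)| or 0 <= int |g|` (`norm_cf_le`), sum over `i`.
* `Fam_zero`: empty index type (`Fin 0` or `Empty`). `Fam_add`: index type `ι ⊕ ι'`. `Fam_smul`: `z e_m P_+ g = e_m P_+ (z g)` a.e. (`Pp_const_mul`).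
* `Fam_one`: one term. `Fam_sM`: `s_M (e_m P_+ g) = e_m P_+ g'` a.e., `g' = e_{-m} s_M (e_m g)` (bounded, `int |g'| <= int |g|`: `int_norm_sM_le`):
  compare coefficients (`ext_cf`): both are `c_M(j) cf g (j-m)` for `j >= m` and `0` for `j < m`. -/

open MeasureTheory Complex Filter Topology
open scoped ComplexConjugate

namespace CH.B

/-- families of cost `<= c` -/
def Fam (c : ℝ) (h : T → ℂ) : Prop :=
  ∃ (ι : Type) (_ : Fintype ι) (m : ι → ℕ) (g : ι → T → ℂ), (∀ i, BM (g i)) ∧ cost g ≤ c ∧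
    h =ᵐ[volume] hf m g

theorem hf_L2 {ι : Type} [Fintype ι] (m : ι → ℕ) (g : ι → T → ℂ) : L2 (hf m g) := by
  unfold hf
  exact L2.sum Finset.univ fun i _ => L2_e_mul (Pp_L2 (g i)) (m i : ℤ)

private theorem BFam_cf {ι : Type} [Fintype ι] (m : ι → ℕ) (g : ι → T → ℂ)
    (hg : ∀ i, BM (g i)) (j : ℤ) :
    cf (hf m g) j = ∑ i, if 0 ≤ j - (m i : ℤ) then cf (g i) (j - (m i : ℤ)) else 0 := by
  unfold hf
  rw [cf_sum Finset.univ _ (fun i _ => (L2_e_mul (Pp_L2 (g i)) (m i : ℤ)).integrable)]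
  refine Finset.sum_congr rfl fun i _ => ?_
  rw [cf_e_mul, cf_Pp (hg i).L2]

private theorem BFam_cost {ι : Type} [Fintype ι] (g : ι → T → ℂ) (hg : ∀ i, BM (g i)) :
    cost g = ∑ i, ∫ x, ‖g i x‖ := by
  unfold cost
  exact integral_finsetSum _ fun i _ => (hg i).L2.integrable.norm

private theorem BFam_cost_nonneg {ι : Type} [Fintype ι] (g : ι → T → ℂ) : 0 ≤ cost g :=
  integral_nonneg fun _ => Finset.sum_nonneg fun _ _ => norm_nonneg _

theorem Fam_An {c : ℝ} {h : T → ℂ} (h1 : Fam c h) : An h := by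
  obtain ⟨ι, _, m, g, hg, _, he⟩ := h1
  refine ⟨(hf_L2 m g).congr he.symm, fun n hn => ?_⟩
  rw [cf_congr he, BFam_cf m g hg]
  refine Finset.sum_eq_zero fun i _ => ?_
  rw [if_neg]
  have : (0 : ℤ) ≤ (m i : ℤ) := Int.natCast_nonneg _
  omega

theorem Fam_L2 {c : ℝ} {h : T → ℂ} (h1 : Fam c h) : L2 h := (Fam_An h1).1

theorem Fam_cf {c : ℝ} {h : T → ℂ} (h1 : Fam c h) (j : ℤ) : ‖cf h j‖ ≤ c := by
  obtain ⟨ι, _, m, g, hg, hc, he⟩ := h1
  rw [cf_congr he, BFam_cf m g hg]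
  refine le_trans ?_ hc
  rw [BFam_cost g hg]
  refine (norm_sum_le _ _).trans (Finset.sum_le_sum fun i _ => ?_)
  split_ifs
  · exact norm_cf_le _
  · rw [norm_zero]
    exact integral_nonneg fun _ => norm_nonneg _

theorem Fam_nonneg {c : ℝ} {h : T → ℂ} (h1 : Fam c h) : 0 ≤ c := by
  obtain ⟨ι, _, m, g, _, hc, _⟩ := h1
  exact (BFam_cost_nonneg g).trans hc

theorem Fam_mono {c c' : ℝ} {h : T → ℂ} (h1 : Fam c h) (hc : c ≤ c') : Fam c' h := by
  obtain ⟨ι, i1, m, g, hg, hc1, he⟩ := h1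
  exact ⟨ι, i1, m, g, hg, hc1.trans hc, he⟩

theorem Fam_congr {c : ℝ} {h h' : T → ℂ} (h1 : Fam c h) (he : h =ᵐ[volume] h') : Fam c h' := by
  obtain ⟨ι, i1, m, g, hg, hc1, he1⟩ := h1
  exact ⟨ι, i1, m, g, hg, hc1, he.symm.trans he1⟩

theorem Fam_zero : Fam 0 (fun _ => 0) := by
  refine ⟨Empty, inferInstance, fun i => i.elim, fun i => i.elim, fun i => i.elim, ?_, ?_⟩
  · unfold cost
    simp
  · refine ae_of_all _ fun x => ?_
    unfold hf
    simp

theorem Fam_add {c c' : ℝ} {h h' : T → ℂ} (h1 : Fam c h) (h2 : Fam c' h') :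
    Fam (c + c') (fun x => h x + h' x) := by
  obtain ⟨ι, i1, m, g, hg, hc, he⟩ := h1
  obtain ⟨ι', i2, m', g', hg', hc', he'⟩ := h2
  have hG : ∀ i, BM (Sum.elim g g' i) := by
    rintro (i | i)
    · exact hg i
    · exact hg' i
  refine ⟨ι ⊕ ι', inferInstance, Sum.elim m m', Sum.elim g g', hG, ?_, ?_⟩
  · rw [BFam_cost _ hG, Fintype.sum_sum_type]
    simp only [Sum.elim_inl, Sum.elim_inr]
    rw [← BFam_cost g hg, ← BFam_cost g' hg']
    exact add_le_add hc hc'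
  · filter_upwards [he, he'] with x hx hx'
    rw [hx, hx']
    unfold hf
    rw [Fintype.sum_sum_type]
    simp only [Sum.elim_inl, Sum.elim_inr]

theorem Fam_smul {c : ℝ} {h : T → ℂ} (z : ℂ) (h1 : Fam c h) : Fam (‖z‖ * c) (fun x => z * h x) := by
  obtain ⟨ι, i1, m, g, hg, hc, he⟩ := h1
  have hG : ∀ i, BM (fun x => z * g i x) := by
    intro i
    obtain ⟨hm, B, hB⟩ := hg i
    refine ⟨hm.const_mul z, ‖z‖ * B, fun x => ?_⟩
    rw [norm_mul]
    exact mul_le_mul_of_nonneg_left (hB x) (norm_nonneg _)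
  refine ⟨ι, i1, m, fun i x => z * g i x, hG, ?_, ?_⟩
  · have h2 : cost (fun i x => z * g i x) = ‖z‖ * cost g := by
      unfold cost
      rw [← integral_const_mul]
      congr 1
      ext x
      rw [Finset.mul_sum]
      refine Finset.sum_congr rfl fun i _ => ?_
      rw [norm_mul]
    rw [h2]
    exact mul_le_mul_of_nonneg_left hc (norm_nonneg _)
  · have h3 : ∀ᵐ x, ∀ i, Pp (fun y => z * g i y) x = z * Pp (g i) x :=
      ae_all_iff.2 fun i => Pp_const_mul (hg i).L2 z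
    filter_upwards [he, h3] with x hx hx3
    rw [hx]
    unfold hf
    rw [Finset.mul_sum]
    refine Finset.sum_congr rfl fun i _ => ?_
    rw [hx3 i]
    ring

theorem Fam_one (m : ℕ) {g : T → ℂ} (hg : BM g) :
    Fam (∫ x, ‖g x‖) (fun x => e (m : ℤ) x * Pp g x) := by
  refine ⟨Unit, inferInstance, fun _ => m, fun _ => g, fun _ => hg, le_of_eq ?_, ?_⟩
  · unfold cost
    simp
  · refine ae_of_all _ fun x => ?_
    unfold hf
    simp

theorem Fam_sM (M : ℕ) {c : ℝ} {h : T → ℂ} (h1 : Fam c h) : Fam c (sM M h) := by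
  obtain ⟨ι, i1, m, g, hg, hc, he⟩ := h1
  have hFL : ∀ i, L2 (fun y => e (m i : ℤ) y * g i y) := fun i => L2_e_mul (hg i).L2 _
  have hG : ∀ i, BM (fun x => e (-(m i : ℤ)) x * sM M (fun y => e (m i : ℤ) y * g i y) x) := by
    intro i
    obtain ⟨hm, B, hB⟩ := sM_BM M (fun y => e (m i : ℤ) y * g i y)
    refine ⟨(e_measurable _).mul hm, B, fun x => ?_⟩
    rw [norm_mul, norm_e, one_mul]
    exact hB x
  refine ⟨ι, i1, m, fun i x => e (-(m i : ℤ)) x * sM M (fun y => e (m i : ℤ) y * g i y) x,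
    hG, ?_, ?_⟩
  · refine le_trans ?_ hc
    rw [BFam_cost _ hG, BFam_cost g hg]
    refine Finset.sum_le_sum fun i _ => ?_
    have e1 : ∫ x, ‖e (-(m i : ℤ)) x * sM M (fun y => e (m i : ℤ) y * g i y) x‖
        = ∫ x, ‖sM M (fun y => e (m i : ℤ) y * g i y) x‖ := by
      congr 1
      ext x
      rw [norm_mul, norm_e, one_mul]
    have e2 : ∫ x, ‖e (m i : ℤ) x * g i x‖ = ∫ x, ‖g i x‖ := by
      congr 1
      ext x
      rw [norm_mul, norm_e, one_mul]
    rw [e1]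
    refine (int_norm_sM_le M (hFL i).integrable).trans (le_of_eq e2)
  · rw [sM_congr M he]
    refine ext_cf (sM_BM M _).L2 (hf_L2 _ _) fun n => ?_
    rw [cf_sM, BFam_cf m g hg, BFam_cf _ _ hG]
    have key : ∀ i, cf (fun x => e (-(m i : ℤ)) x * sM M (fun y => e (m i : ℤ) y * g i y) x)
        (n - (m i : ℤ)) = if |n| ≤ (M : ℤ) then
          (((1 - |(n : ℝ)| / (M + 1) : ℝ)) : ℂ) * cf (g i) (n - (m i : ℤ)) else 0 := by
      intro i
      rw [cf_e_mul, sub_neg_eq_add, sub_add_cancel, cf_sM, cf_e_mul]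
    simp only [key]
    by_cases h : |n| ≤ (M : ℤ)
    · simp only [if_pos h, Finset.mul_sum]
      refine Finset.sum_congr rfl fun i _ => ?_
      split_ifs
      · rfl
      · rw [mul_zero]
    · simp only [if_neg h, ite_self, Finset.sum_const_zero]

theorem Fam_eq_zero {h : T → ℂ} (h1 : Fam 0 h) : h =ᵐ[volume] fun _ => 0 := by
  refine ext_cf (Fam_An h1).1 MemLp.zero fun n => ?_
  have h2 := Fam_cf h1 n
  rw [norm_le_zero_iff] at h2
  rw [h2]
  exact (cf_zero n).symm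

end CH.B
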