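import Pool.Agent.CH.BAvg
import Pool.Agent.CH.BFam

/-! # CH-BApx: linearity of `hf`, replacement of a family by its level `S` averages
* `hf_sub`, `hf_sum`: `Pp_sub`, `Pp_sum` (a.e.), finite sums over `ι`.
* `int_norm_hf_le`: `int |hf m g|^2 <= (sum_i ||g_i||_2)^2`; or `<= card ι * sum_i int |g_i|^2` (as stated).
* `cost_cE`: `int_norm_cE_le`. `hf_cE_tendsto`: `hf m g - hf m (cE S g) = hf m (g - cE S g)` a.e., the bound `hf_sq_le` and `cE_tendsto`. -/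

open MeasureTheory Complex Filter Topology
open scoped ComplexConjugate

namespace CH.B

private theorem BApx_BM_sub {f g : T → ℂ} (h1 : BM f) (h2 : BM g) : BM (fun x => f x - g x) := by
  obtain ⟨m1, B1, b1⟩ := h1
  obtain ⟨m2, B2, b2⟩ := h2
  exact ⟨m1.sub m2, B1 + B2, fun x => (norm_sub_le _ _).trans (add_le_add (b1 x) (b2 x))⟩

private theorem BApx_cost {ι : Type} [Fintype ι] (g : ι → T → ℂ) (hg : ∀ i, BM (g i)) :
    cost g = ∑ i, ∫ x, ‖g i x‖ := by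
  unfold cost
  exact integral_finsetSum _ fun i _ => (hg i).L2.integrable.norm

theorem hf_sub {ι : Type} [Fintype ι] (m : ι → ℕ) {g g' : ι → T → ℂ} (hg : ∀ i, BM (g i))
    (hg' : ∀ i, BM (g' i)) :
    hf m (fun i x => g i x - g' i x) =ᵐ[volume] fun x => hf m g x - hf m g' x := by
  have h : ∀ᵐ x, ∀ i, Pp (fun y => g i y - g' i y) x = Pp (g i) x - Pp (g' i) x :=
    ae_all_iff.2 fun i => Pp_sub (hg i).L2 (hg' i).L2
  filter_upwards [h] with x hx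
  unfold hf
  rw [← Finset.sum_sub_distrib]
  refine Finset.sum_congr rfl fun i _ => ?_
  rw [hx i]
  ring

theorem hf_sum {ι : Type} [Fintype ι] (m : ι → ℕ) {κ : Type} (s : Finset κ) {g : κ → ι → T → ℂ}
    (hg : ∀ k ∈ s, ∀ i, BM (g k i)) :
    hf m (fun i x => ∑ k ∈ s, g k i x) =ᵐ[volume] fun x => ∑ k ∈ s, hf m (g k) x := by
  have h : ∀ᵐ x, ∀ i, Pp (fun y => ∑ k ∈ s, g k i y) x = ∑ k ∈ s, Pp (g k i) x :=
    ae_all_iff.2 fun i => Pp_sum s (fun k hk => (hg k hk i).L2)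
  filter_upwards [h] with x hx
  unfold hf
  rw [Finset.sum_comm]
  refine Finset.sum_congr rfl fun i _ => ?_
  rw [hx i, Finset.mul_sum]

theorem hf_sq_le {ι : Type} [Fintype ι] (m : ι → ℕ) {g : ι → T → ℂ} (hg : ∀ i, BM (g i)) :
    ∫ x, ‖hf m g x‖ ^ 2 ≤ (Fintype.card ι : ℝ) * ∑ i, ∫ x, ‖g i x‖ ^ 2 := by
  have h1 : ∀ x, ‖hf m g x‖ ^ 2 ≤ (Fintype.card ι : ℝ) * ∑ i, ‖Pp (g i) x‖ ^ 2 := by
    intro x
    have h2 : ‖hf m g x‖ ≤ ∑ i, ‖Pp (g i) x‖ := by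
      unfold hf
      refine (norm_sum_le _ _).trans (le_of_eq ?_)
      refine Finset.sum_congr rfl fun i _ => ?_
      rw [norm_mul, norm_e, one_mul]
    have h3 := sq_sum_le_card_mul_sum_sq (s := (Finset.univ : Finset ι))
      (f := fun i => ‖Pp (g i) x‖)
    rw [Finset.card_univ] at h3
    exact (pow_le_pow_left₀ (norm_nonneg _) h2 2).trans h3
  calc ∫ x, ‖hf m g x‖ ^ 2 ≤ ∫ x, (Fintype.card ι : ℝ) * ∑ i, ‖Pp (g i) x‖ ^ 2 := by
        refine integral_mono (hf_L2 m g).integrable_sq ?_ h1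
        exact (integrable_finsetSum _ fun i _ => (Pp_L2 (g i)).integrable_sq).const_mul _
    _ = (Fintype.card ι : ℝ) * ∑ i, ∫ x, ‖Pp (g i) x‖ ^ 2 := by
        rw [integral_const_mul, integral_finsetSum _ fun i _ => (Pp_L2 (g i)).integrable_sq]
    _ ≤ (Fintype.card ι : ℝ) * ∑ i, ∫ x, ‖g i x‖ ^ 2 := by
        refine mul_le_mul_of_nonneg_left ?_ (Nat.cast_nonneg _)
        exact Finset.sum_le_sum fun i _ => Pp_norm_sq_le (hg i).L2

theorem cost_cE {ι : Type} [Fintype ι] {g : ι → T → ℂ} (hg : ∀ i, BM (g i)) (S : ℕ) :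
    cost (fun i => cE S (g i)) ≤ cost g := by
  rw [BApx_cost g hg, BApx_cost _ fun i => cE_BM S (g i)]
  exact Finset.sum_le_sum fun i _ => int_norm_cE_le S (hg i).L2.integrable

theorem hf_cE_tendsto {ι : Type} [Fintype ι] (m : ι → ℕ) {g : ι → T → ℂ} (hg : ∀ i, BM (g i)) :
    Tendsto (fun S : ℕ => ∫ x, ‖hf m g x - hf m (fun i => cE S (g i)) x‖ ^ 2) atTop (𝓝 0) := by
  have h1 : ∀ S : ℕ, ∫ x, ‖hf m g x - hf m (fun i => cE S (g i)) x‖ ^ 2
      ≤ (Fintype.card ι : ℝ) * ∑ i, ∫ x, ‖g i x - cE S (g i) x‖ ^ 2 := by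
    intro S
    have h2 := hf_sub m hg (fun i => cE_BM S (g i))
    have h3 : ∫ x, ‖hf m g x - hf m (fun i => cE S (g i)) x‖ ^ 2
        = ∫ x, ‖hf m (fun i x => g i x - cE S (g i) x) x‖ ^ 2 := by
      refine integral_congr_ae ?_
      filter_upwards [h2] with x hx
      rw [hx]
    rw [h3]
    exact hf_sq_le m fun i => BApx_BM_sub (hg i) (cE_BM S (g i))
  have h4 : Tendsto (fun S : ℕ => (Fintype.card ι : ℝ) * ∑ i, ∫ x, ‖g i x - cE S (g i) x‖ ^ 2)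
      atTop (𝓝 0) := by
    have h5 : Tendsto (fun S : ℕ => ∑ i, ∫ x, ‖g i x - cE S (g i) x‖ ^ 2) atTop
        (𝓝 (∑ _i : ι, (0 : ℝ))) :=
      tendsto_finsetSum _ fun i _ => cE_tendsto (hg i)
    have h6 := h5.const_mul (Fintype.card ι : ℝ)
    simpa using h6
  exact squeeze_zero (fun S => integral_nonneg fun x => by positivity) h1 h4

end CH.B
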