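import Pool.Agent.CH.BFej1

/-! # CH-BFej2: consequences for the Fejer means
* `cf_sM`: linearity and `cf_e`. `sM_continuous`, `sM_BM`: finite sum of continuous functions on a compact space.
* `sM_add` ... : directly from the definition (`cf_add`, `cf_const_mul`, `cf_conj`; for `sM_conj` substitute `j -> -j`).
* `norm_sM_le`: `sM_eq`, `KF_nonneg`, `KF_integral` (translation and reflection invariance of `volume`:
  `int KF M (x - y) dy = int KF M y dy`, `integral_sub_left_eq_self`).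
* `int_norm_sM_le`: `|sM M f x| <= int |f y| KF M (x-y) dy`, Fubini (or: test against bounded measurable functions); product measure on `T x T`.
* `sM_nonneg`: `sM_eq` for a nonnegative real function: the integral is real and `>= 0`.
* `sM_adj`, `sM_adj_conj`: Parseval (`parseval`, all sums are finite), or Fubini with `KF M` even.
* `sM_tendsto`: `parseval_sq` for `f - sM M f`: `sum |cf f n|^2 (1-c_M(n))^2`, `c_M(n) -> 1`, `0 <= 1-c_M(n) <= 1`: `tendsto_tsum_of_dominated_convergence`.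
* `sM_err`: `|1 - c_M(n)| <= |n|/(M+1)` (also when `|n| > M`). -/

open MeasureTheory Complex Filter Topology
open scoped ComplexConjugate

namespace CH.B

theorem cf_sM (M : ℕ) (f : T → ℂ) (n : ℤ) : cf (sM M f) n =
    if |n| ≤ (M : ℤ) then (((1 - |(n : ℝ)| / (M + 1) : ℝ)) : ℂ) * cf f n else 0 := by
  have h1 : sM M f = fun x => ∑ j ∈ Finset.Icc (-(M : ℤ)) M,
      ((((1 - |(j : ℝ)| / (M + 1) : ℝ)) : ℂ) * cf f j) * e j x := rfl
  have hint : ∀ j : ℤ, Integrable (fun x => ((((1 - |(j : ℝ)| / (M + 1) : ℝ)) : ℂ) * cf f j) *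
      e j x) := fun j => ((e_memLp j 1).integrable le_rfl).const_mul _
  rw [h1, cf_sum _ _ (fun j _ => hint j)]
  simp_rw [cf_const_mul]
  have h2 : ∀ j : ℤ, cf (fun x => e j x) n = if n = j then 1 else 0 := fun j => cf_e j n
  simp_rw [h2, mul_ite, mul_one, mul_zero]
  rw [Finset.sum_ite_eq]
  have h3 : (n ∈ Finset.Icc (-(M : ℤ)) M) ↔ |n| ≤ (M : ℤ) := by
    rw [Finset.mem_Icc, abs_le]
  simp only [h3]

theorem sM_continuous (M : ℕ) (f : T → ℂ) : Continuous (sM M f) := by
  unfold sM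
  exact continuous_finsetSum _ fun j _ => continuous_const.mul (e_continuous j)

theorem sM_BM (M : ℕ) (f : T → ℂ) : BM (sM M f) := by
  refine ⟨(sM_continuous M f).measurable, ∑ j ∈ Finset.Icc (-(M : ℤ)) M,
    ‖(((1 - |(j : ℝ)| / (M + 1) : ℝ)) : ℂ) * cf f j‖, fun x => ?_⟩
  unfold sM
  refine (norm_sum_le _ _).trans (Finset.sum_le_sum fun j _ => ?_)
  rw [norm_mul, norm_e, mul_one]

theorem sM_congr (M : ℕ) {f g : T → ℂ} (h : f =ᵐ[volume] g) : sM M f = sM M g := by
  funext x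
  unfold sM
  refine Finset.sum_congr rfl fun j _ => ?_
  rw [cf_congr h]

theorem sM_add (M : ℕ) {f g : T → ℂ} (hf : Integrable f) (hg : Integrable g) :
    sM M (fun x => f x + g x) = fun x => sM M f x + sM M g x := by
  funext x
  unfold sM
  rw [← Finset.sum_add_distrib]
  refine Finset.sum_congr rfl fun j _ => ?_
  rw [cf_add hf hg]
  ring

theorem sM_sub (M : ℕ) {f g : T → ℂ} (hf : Integrable f) (hg : Integrable g) :
    sM M (fun x => f x - g x) = fun x => sM M f x - sM M g x := by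
  funext x
  unfold sM
  rw [← Finset.sum_sub_distrib]
  refine Finset.sum_congr rfl fun j _ => ?_
  rw [cf_sub hf hg]
  ring

theorem sM_const_mul (M : ℕ) (c : ℂ) (f : T → ℂ) :
    sM M (fun x => c * f x) = fun x => c * sM M f x := by
  funext x
  unfold sM
  rw [Finset.mul_sum]
  refine Finset.sum_congr rfl fun j _ => ?_
  rw [cf_const_mul]
  ring

private theorem BFej2_reflect (M : ℕ) (F : ℤ → ℂ) :
    ∑ j ∈ Finset.Icc (-(M : ℤ)) M, F (-j) = ∑ j ∈ Finset.Icc (-(M : ℤ)) M, F j := by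
  refine Finset.sum_nbij' (fun j => -j) (fun j => -j) ?_ ?_ ?_ ?_ ?_
  · intro j hj
    rw [Finset.mem_Icc] at hj ⊢
    omega
  · intro j hj
    rw [Finset.mem_Icc] at hj ⊢
    omega
  · intro j _
    simp
  · intro j _
    simp
  · intro j _
    rfl

theorem sM_conj (M : ℕ) (f : T → ℂ) :
    sM M (fun x => conj (f x)) = fun x => conj (sM M f x) := by
  funext x
  unfold sM
  rw [map_sum, ← BFej2_reflect]
  refine Finset.sum_congr rfl fun j _ => ?_
  rw [cf_conj, neg_neg, map_mul, map_mul, Complex.conj_ofReal, conj_e, Int.cast_neg, abs_neg]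

private theorem BFej2_KF_le (M : ℕ) (x : T) : KF M x ≤ M + 1 := by
  unfold KF
  have h0 : (0 : ℝ) < (M : ℝ) + 1 := by positivity
  rw [div_le_iff₀ h0]
  have h1 : ‖∑ j ∈ Finset.range (M + 1), e (j : ℤ) x‖ ≤ (M : ℝ) + 1 := by
    refine (norm_sum_le _ _).trans (le_of_eq ?_)
    simp
  calc ‖∑ j ∈ Finset.range (M + 1), e (j : ℤ) x‖ ^ 2 ≤ ((M : ℝ) + 1) ^ 2 :=
        pow_le_pow_left₀ (norm_nonneg _) h1 2
    _ = ((M : ℝ) + 1) * (M + 1) := by ring

private theorem BFej2_shift (M : ℕ) (x : T) : ∫ y, KF M (x - y) = 1 := by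
  rw [integral_sub_left_eq_self (fun y => KF M y) volume x]
  exact KF_integral M

private theorem BFej2_shift' (M : ℕ) (y : T) : ∫ x, KF M (x - y) = 1 := by
  rw [integral_sub_right_eq_self (fun x => KF M x) y]
  exact KF_integral M

private theorem BFej2_intR (M : ℕ) {a : T → ℝ} (ha : Integrable a) (x : T) :
    Integrable (fun y => a y * KF M (x - y)) := by
  have hc : Continuous (fun y => KF M (x - y)) :=
    (KF_continuous M).comp (continuous_const.sub continuous_id)
  have h := ha.bdd_mul (c := (M : ℝ) + 1) (f := fun y => KF M (x - y))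
    hc.aestronglyMeasurable (ae_of_all _ fun y => by
      rw [Real.norm_eq_abs, abs_of_nonneg (KF_nonneg M _)]
      exact BFej2_KF_le M _)
  refine h.congr (ae_of_all _ fun y => ?_)
  simp [mul_comm]

private theorem BFej2_norm_le (M : ℕ) {f : T → ℂ} (hf : Integrable f) (x : T) :
    ‖sM M f x‖ ≤ ∫ y, ‖f y‖ * KF M (x - y) := by
  rw [sM_eq M f hf x]
  refine (norm_integral_le_integral_norm _).trans (le_of_eq ?_)
  congr 1
  ext y
  rw [norm_mul, Complex.norm_real, Real.norm_eq_abs, abs_of_nonneg (KF_nonneg M _)]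

theorem norm_sM_le (M : ℕ) {f : T → ℂ} (hf : Integrable f) (A : ℝ) (hA : ∀ᵐ x, ‖f x‖ ≤ A) (x : T) :
    ‖sM M f x‖ ≤ A := by
  refine (BFej2_norm_le M hf x).trans ?_
  have h1 : ∫ y, ‖f y‖ * KF M (x - y) ≤ ∫ y, A * KF M (x - y) := by
    refine integral_mono_ae (BFej2_intR M hf.norm x)
      (BFej2_intR M (integrable_const A) x) ?_
    filter_upwards [hA] with y hy
    exact mul_le_mul_of_nonneg_right hy (KF_nonneg M _)
  refine h1.trans (le_of_eq ?_)
  rw [integral_const_mul, BFej2_shift, mul_one]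

theorem int_norm_sM_le (M : ℕ) {f : T → ℂ} (hf : Integrable f) :
    ∫ x, ‖sM M f x‖ ≤ ∫ x, ‖f x‖ := by
  have hprod : Integrable (fun p : T × T => ‖f p.2‖ * KF M (p.1 - p.2))
      ((volume : Measure T).prod volume) := by
    have h1 : Integrable (fun p : T × T => ‖f p.2‖) ((volume : Measure T).prod volume) :=
      hf.norm.comp_snd volume
    have hc : Continuous (fun p : T × T => KF M (p.1 - p.2)) :=
      (KF_continuous M).comp (continuous_fst.sub continuous_snd)
    have h := h1.bdd_mul (c := (M : ℝ) + 1) (f := fun p : T × T => KF M (p.1 - p.2))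
      hc.aestronglyMeasurable (ae_of_all _ fun p => by
        rw [Real.norm_eq_abs, abs_of_nonneg (KF_nonneg M _)]
        exact BFej2_KF_le M _)
    refine h.congr (ae_of_all _ fun p => ?_)
    simp [mul_comm]
  have h2 : ∫ x, ‖sM M f x‖ ≤ ∫ x, ∫ y, ‖f y‖ * KF M (x - y) := by
    refine integral_mono ?_ hprod.integral_prod_left fun x => BFej2_norm_le M hf x
    exact ((sM_BM M f).L2.integrable).norm
  refine h2.trans (le_of_eq ?_)
  rw [integral_integral_swap hprod]
  congr 1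
  ext y
  rw [integral_const_mul, BFej2_shift', mul_one]

theorem sM_nonneg (M : ℕ) (a : T → ℝ) (ha : Integrable a) (h0 : ∀ x, 0 ≤ a x) (x : T) :
    ∃ r : ℝ, 0 ≤ r ∧ sM M (fun x => (a x : ℂ)) x = (r : ℂ) := by
  refine ⟨∫ y, a y * KF M (x - y), integral_nonneg fun y => mul_nonneg (h0 y) (KF_nonneg M _), ?_⟩
  have hi : Integrable (fun x => (a x : ℂ)) := ha.ofReal
  refine (sM_eq M (fun x => (a x : ℂ)) hi x).trans ?_
  rw [← integral_complex_ofReal]
  congr 1
  ext y
  push_cast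
  rfl

private theorem BFej2_e (b : T → ℂ) (j : ℤ) : ∫ x, e j x * b x = cf b (-j) := by
  unfold cf
  congr 1
  ext x
  rw [conj_e, neg_neg, mul_comm]

theorem sM_adj (M : ℕ) {v b : T → ℂ} (hv : L2 v) (hb : L2 b) :
    ∫ x, sM M v x * b x = ∫ x, v x * sM M b x := by
  have key : ∀ {v b : T → ℂ}, L2 v → L2 b → ∫ x, sM M v x * b x =
      ∑ j ∈ Finset.Icc (-(M : ℤ)) M, (((1 - |(j : ℝ)| / (M + 1) : ℝ)) : ℂ) * cf v j *
        cf b (-j) := by
    intro v b hv hb
    have h1 : ∀ x, sM M v x * b x = ∑ j ∈ Finset.Icc (-(M : ℤ)) M,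
        ((((1 - |(j : ℝ)| / (M + 1) : ℝ)) : ℂ) * cf v j) * (e j x * b x) := by
      intro x
      unfold sM
      rw [Finset.sum_mul]
      refine Finset.sum_congr rfl fun j _ => ?_
      ring
    simp_rw [h1]
    rw [integral_finsetSum _ (fun j _ => ((L2_e_mul hb j).integrable).const_mul _)]
    refine Finset.sum_congr rfl fun j _ => ?_
    rw [integral_const_mul, BFej2_e]
  have h2 : ∫ x, v x * sM M b x = ∫ x, sM M b x * v x := by
    congr 1
    ext x
    ring
  rw [h2, key hv hb, key hb hv, ← BFej2_reflect]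
  refine Finset.sum_congr rfl fun j _ => ?_
  rw [neg_neg, Int.cast_neg, abs_neg]
  ring

theorem sM_adj_conj (M : ℕ) {v b : T → ℂ} (hv : L2 v) (hb : L2 b) :
    ∫ x, sM M v x * conj (b x) = ∫ x, v x * conj (sM M b x) := by
  rw [sM_adj M hv hb.conj, sM_conj]

private theorem BFej2_diff (M : ℕ) {f : T → ℂ} (hf : Integrable f) (n : ℤ) :
    ∃ c : ℝ, 0 ≤ c ∧ c ≤ 1 ∧ c ≤ |(n : ℝ)| / (M + 1) ∧
      cf (fun x => f x - sM M f x) n = (c : ℂ) * cf f n := by
  have h0 : (0 : ℝ) < (M : ℝ) + 1 := by positivity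
  have hcf := cf_sub hf (sM_BM M f).L2.integrable n
  rw [cf_sM] at hcf
  by_cases h : |n| ≤ (M : ℤ)
  · rw [if_pos h] at hcf
    refine ⟨|(n : ℝ)| / (M + 1), by positivity, ?_, le_rfl, ?_⟩
    · rw [div_le_one h0]
      have : (|n| : ℝ) ≤ (M : ℝ) := by exact_mod_cast h
      linarith
    · rw [hcf]
      push_cast
      ring
  · rw [if_neg h] at hcf
    refine ⟨1, zero_le_one, le_rfl, ?_, ?_⟩
    · rw [le_div_iff₀ h0, one_mul]
      have h1 : (M : ℤ) + 1 ≤ |n| := by omega
      exact_mod_cast h1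
    · rw [hcf]
      push_cast
      ring

theorem sM_tendsto {f : T → ℂ} (hf : L2 f) :
    Tendsto (fun M : ℕ => ∫ x, ‖f x - sM M f x‖ ^ 2) atTop (𝓝 0) := by
  have h1 : ∀ M : ℕ, ∫ x, ‖f x - sM M f x‖ ^ 2 =
      ∑' n : ℤ, ‖cf (fun x => f x - sM M f x) n‖ ^ 2 := fun M =>
    ((parseval_sq (hf.sub (sM_BM M f).L2)).tsum_eq).symm
  simp_rw [h1]
  have h2 : Tendsto (fun M : ℕ => ∑' n : ℤ, ‖cf (fun x => f x - sM M f x) n‖ ^ 2) atTop
      (𝓝 (∑' _ : ℤ, (0 : ℝ))) := by
    refine tendsto_tsum_of_dominated_convergence (bound := fun n => ‖cf f n‖ ^ 2)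
      (parseval_sq hf).summable ?_ ?_
    · intro n
      have h3 : Tendsto (fun M : ℕ => (|(n : ℝ)| / ((M : ℝ) + 1) * ‖cf f n‖) ^ 2) atTop
          (𝓝 0) := by
        have h4 : Tendsto (fun M : ℕ => |(n : ℝ)| / ((M : ℝ) + 1)) atTop (𝓝 0) :=
          tendsto_const_nhds.div_atTop
            (tendsto_atTop_add_const_right _ _ tendsto_natCast_atTop_atTop)
        have h5 := (h4.mul_const ‖cf f n‖).pow 2
        simpa using h5
      refine squeeze_zero (fun M => by positivity) (fun M => ?_) h3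
      obtain ⟨c, c0, c1, c2, hc⟩ := BFej2_diff M hf.integrable n
      rw [hc, norm_mul, Complex.norm_real, Real.norm_eq_abs, abs_of_nonneg c0]
      exact pow_le_pow_left₀ (by positivity)
        (mul_le_mul_of_nonneg_right c2 (norm_nonneg _)) 2
    · refine Eventually.of_forall fun M n => ?_
      obtain ⟨c, c0, c1, c2, hc⟩ := BFej2_diff M hf.integrable n
      rw [Real.norm_eq_abs, abs_of_nonneg (by positivity), hc, norm_mul, Complex.norm_real,
        Real.norm_eq_abs, abs_of_nonneg c0]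
      refine pow_le_pow_left₀ (by positivity) ?_ 2
      calc c * ‖cf f n‖ ≤ 1 * ‖cf f n‖ := mul_le_mul_of_nonneg_right c1 (norm_nonneg _)
        _ = ‖cf f n‖ := one_mul _
  simpa using h2

theorem sM_err (M : ℕ) {f : T → ℂ} (hf : Integrable f) (n : ℤ) :
    ‖cf (fun x => f x - sM M f x) n‖ ≤ |(n : ℝ)| / (M + 1) * ‖cf f n‖ := by
  obtain ⟨c, c0, c1, c2, hc⟩ := BFej2_diff M hf n
  rw [hc, norm_mul, Complex.norm_real, Real.norm_eq_abs, abs_of_nonneg c0]
  exact mul_le_mul_of_nonneg_right c2 (norm_nonneg _)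

theorem sM_An (M : ℕ) {f : T → ℂ} (hf : An f) : An (sM M f) := by
  refine ⟨(sM_BM M f).L2, fun n hn => ?_⟩
  rw [cf_sM, hf.2 n hn, mul_zero, ite_self]

theorem sM_An0 (M : ℕ) {f : T → ℂ} (hf : An0 f) : An0 (sM M f) := by
  refine ⟨(sM_BM M f).L2, fun n hn => ?_⟩
  rw [cf_sM, hf.2 n hn, mul_zero, ite_self]

end CH.B
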