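import Pool.Agent.CH.BDy
import Pool.Agent.CH.BFej2

/-! # CH-BAvg: dyadic averages
`cE S g` = level `S` dyadic averages of `g`.
* `norm_avr_le`: `|2^s int_{D s n} g| <= 2^s int_{D s n} |g|`. `cE_BM`: finitely many values (`idx_lt`), `idx_measurable`.
* `int_step`: `int F = sum_{n < 2^S} int_{D S n} F` (the sets `D S n`, `n < 2^S`, are disjoint with union `T`), `D_vol`.
* `int_norm_cE_le`, `int_sq_cE_le`: `|cE S g| <= cE S |g|`, `int cE = int`; for squares Cauchy-Schwarz on each `D S n`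
  (`|2^S int_D g|^2 <= 2^S int_D |g|^2`).
* `cE_tendsto`: given `eps`, `sM_tendsto` gives a continuous `G = sM M g` with `int |g - G|^2 <= eps`; `cE S` is a contraction of `L^2` (`cE_sub`);
  `G - cE S G -> 0` uniformly (uniform continuity on a compact space, `D_dist`: two points of the same `D S n` are at distance `<= 2/2^S`). -/

open MeasureTheory Complex Filter Topology
open scoped ComplexConjugate

namespace CH.B

/-- average of `g` over `D s n` (for `n < 2^s`) -/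
noncomputable def avr (s n : ℕ) (g : T → ℂ) : ℂ := 2 ^ s * ∫ x in D s n, g x

/-- level `S` averages -/
noncomputable def cE (S : ℕ) (g : T → ℂ) (x : T) : ℂ := avr S (idx S x) g

/-- step functions of level `S` -/
def Step {α : Type} (S : ℕ) (g : T → α) : Prop := ∀ x y, idx S x = idx S y → g x = g y

theorem norm_avr_le (s n : ℕ) (g : T → ℂ) : ‖avr s n g‖ ≤ 2 ^ s * ∫ x in D s n, ‖g x‖ := by
  unfold avr
  rw [norm_mul, norm_pow, Complex.norm_ofNat]
  exact mul_le_mul_of_nonneg_left (norm_integral_le_integral_norm _) (by positivity)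

open Classical in
private noncomputable def BAvg_fac {α : Type} (S : ℕ) (g : T → α) (n : ℕ) : α :=
  if h : ∃ x, idx S x = n then g h.choose else g 0

private theorem BAvg_fac_eq {α : Type} {S : ℕ} {g : T → α} (h : Step S g) (x : T) :
    BAvg_fac S g (idx S x) = g x := by
  have hx : ∃ y, idx S y = idx S x := ⟨x, rfl⟩
  unfold BAvg_fac
  rw [dif_pos hx]
  exact h _ _ hx.choose_spec

theorem Step_measurable {α : Type} [MeasurableSpace α] {S : ℕ} {g : T → α} (h : Step S g) :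
    Measurable g := by
  have h1 : g = BAvg_fac S g ∘ idx S := by
    funext x
    exact (BAvg_fac_eq h x).symm
  rw [h1]
  exact (measurable_from_nat).comp (idx_measurable S)

theorem Step_bdd {S : ℕ} {g : T → ℝ} (h : Step S g) : ∃ B : ℝ, ∀ x, |g x| ≤ B := by
  refine ⟨∑ n ∈ Finset.range (2 ^ S), |BAvg_fac S g n|, fun x => ?_⟩
  rw [← BAvg_fac_eq h x]
  exact Finset.single_le_sum (f := fun n => |BAvg_fac S g n|) (fun n _ => abs_nonneg _)
    (Finset.mem_range.2 (idx_lt S x))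

theorem Step_BM {S : ℕ} {g : T → ℂ} (h : Step S g) : BM g := by
  have h1 : Step S (fun x => ‖g x‖) := fun x y hxy => congrArg (fun z => ‖z‖) (h x y hxy)
  obtain ⟨B, hB⟩ := Step_bdd h1
  exact ⟨Step_measurable h, B, fun x => (le_abs_self _).trans (hB x)⟩

theorem cE_Step (S : ℕ) (g : T → ℂ) : Step S (cE S g) := by
  intro x y hxy
  unfold cE
  rw [hxy]

theorem cE_BM (S : ℕ) (g : T → ℂ) : BM (cE S g) := Step_BM (cE_Step S g)

theorem cE_sub (S : ℕ) {f g : T → ℂ} (hf : Integrable f) (hg : Integrable g) (x : T) :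
    cE S (fun x => f x - g x) x = cE S f x - cE S g x := by
  unfold cE avr
  rw [integral_sub hf.integrableOn hg.integrableOn, mul_sub]

private theorem BAvg_D_union (S : ℕ) : (⋃ n ∈ Finset.range (2 ^ S), D S n) = Set.univ := by
  ext x
  simp only [Set.mem_iUnion, Set.mem_univ, iff_true]
  exact ⟨idx S x, Finset.mem_range.2 (idx_lt S x), rfl⟩

theorem int_step (S : ℕ) {F : T → ℝ} (hF : Integrable F) :
    ∫ x, F x = ∑ n ∈ Finset.range (2 ^ S), ∫ x in D S n, F x := by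
  rw [← integral_biUnion_finset (Finset.range (2 ^ S)) (fun n _ => D_meas S n) ?_
    (fun n _ => hF.integrableOn), BAvg_D_union, setIntegral_univ]
  intro m _ n _ hmn
  rw [Function.onFun, Set.disjoint_left]
  intro x hx hx'
  exact hmn (hx.symm.trans hx')

private theorem BAvg_cE_on {S n : ℕ} {g : T → ℂ} {x : T} (hx : x ∈ D S n) :
    cE S g x = avr S n g := by
  have h : idx S x = n := hx
  unfold cE
  rw [h]

private theorem BAvg_const {S n : ℕ} (hn : n < 2 ^ S) (c : ℝ) :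
    ∫ _ in D S n, c = 1 / 2 ^ S * c := by
  rw [setIntegral_const, D_vol hn, smul_eq_mul]

theorem int_norm_cE_le (S : ℕ) {g : T → ℂ} (hg : Integrable g) :
    ∫ x, ‖cE S g x‖ ≤ ∫ x, ‖g x‖ := by
  rw [int_step S (cE_BM S g).L2.integrable.norm, int_step S hg.norm]
  refine Finset.sum_le_sum fun n hn => ?_
  have hn' := Finset.mem_range.1 hn
  have h1 : ∫ x in D S n, ‖cE S g x‖ = ∫ _ in D S n, ‖avr S n g‖ :=
    setIntegral_congr_fun (D_meas S n) (fun x hx => by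
      show ‖cE S g x‖ = ‖avr S n g‖
      rw [BAvg_cE_on hx])
  rw [h1, BAvg_const hn']
  have hp : (0 : ℝ) < 2 ^ S := by positivity
  calc 1 / 2 ^ S * ‖avr S n g‖ ≤ 1 / 2 ^ S * (2 ^ S * ∫ x in D S n, ‖g x‖) :=
        mul_le_mul_of_nonneg_left (norm_avr_le S n g) (by positivity)
    _ = ∫ x in D S n, ‖g x‖ := by field_simp

private theorem BAvg_CS {S n : ℕ} (hn : n < 2 ^ S) {g : T → ℂ} (hg : L2 g) :
    2 ^ S * (∫ x in D S n, ‖g x‖) ^ 2 ≤ ∫ x in D S n, ‖g x‖ ^ 2 := by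
  have hp : (0 : ℝ) < 2 ^ S := by positivity
  set a : ℝ := ∫ x in D S n, ‖g x‖ with ha
  have hi1 : IntegrableOn (fun x => ‖g x‖) (D S n) := hg.integrable.norm.integrableOn
  have hi2 : IntegrableOn (fun x => ‖g x‖ ^ 2) (D S n) := hg.integrable_sq.integrableOn
  have h0 : 0 ≤ ∫ x in D S n, (‖g x‖ - 2 ^ S * a) ^ 2 := integral_nonneg fun x => sq_nonneg _
  have h1 : ∫ x in D S n, (‖g x‖ - 2 ^ S * a) ^ 2 =
      (∫ x in D S n, ‖g x‖ ^ 2) - 2 ^ S * a ^ 2 := by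
    have e1 : ∀ x, (‖g x‖ - 2 ^ S * a) ^ 2 =
        (‖g x‖ ^ 2 - (2 * (2 ^ S * a)) * ‖g x‖) + (2 ^ S * a) ^ 2 := fun x => by ring
    simp only [e1]
    have hi3 : IntegrableOn (fun x => 2 * (2 ^ S * a) * ‖g x‖) (D S n) := hi1.const_mul _
    have hi4 : IntegrableOn (fun x => ‖g x‖ ^ 2 - 2 * (2 ^ S * a) * ‖g x‖) (D S n) := hi2.sub hi3
    rw [integral_add hi4 (integrable_const _),
      integral_sub hi2 hi3, integral_const_mul, BAvg_const hn, ← ha]
    field_simp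
    ring
  rw [h1] at h0
  linarith

theorem int_sq_cE_le (S : ℕ) {g : T → ℂ} (hg : L2 g) :
    ∫ x, ‖cE S g x‖ ^ 2 ≤ ∫ x, ‖g x‖ ^ 2 := by
  rw [int_step S (cE_BM S g).L2.integrable_sq, int_step S hg.integrable_sq]
  refine Finset.sum_le_sum fun n hn => ?_
  have hn' := Finset.mem_range.1 hn
  have h1 : ∫ x in D S n, ‖cE S g x‖ ^ 2 = ∫ _ in D S n, ‖avr S n g‖ ^ 2 :=
    setIntegral_congr_fun (D_meas S n) (fun x hx => by
      show ‖cE S g x‖ ^ 2 = ‖avr S n g‖ ^ 2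
      rw [BAvg_cE_on hx])
  rw [h1, BAvg_const hn']
  have hp : (0 : ℝ) < 2 ^ S := by positivity
  have h2 : ‖avr S n g‖ ^ 2 ≤ (2 ^ S * ∫ x in D S n, ‖g x‖) ^ 2 :=
    pow_le_pow_left₀ (norm_nonneg _) (norm_avr_le S n g) 2
  calc 1 / 2 ^ S * ‖avr S n g‖ ^ 2 ≤ 1 / 2 ^ S * (2 ^ S * ∫ x in D S n, ‖g x‖) ^ 2 :=
        mul_le_mul_of_nonneg_left h2 (by positivity)
    _ = 2 ^ S * (∫ x in D S n, ‖g x‖) ^ 2 := by field_simp
    _ ≤ ∫ x in D S n, ‖g x‖ ^ 2 := BAvg_CS hn' hg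

private theorem BAvg_unif {G : T → ℂ} (hG : Continuous G) {δ : ℝ} (hδ : 0 < δ) :
    ∃ S0 : ℕ, ∀ S, S0 ≤ S → ∀ x, ‖G x - cE S G x‖ ≤ δ := by
  have huc : UniformContinuous G := CompactSpace.uniformContinuous_of_continuous hG
  obtain ⟨η, hη, hG'⟩ := Metric.uniformContinuous_iff.1 huc δ hδ
  obtain ⟨S0, hS0⟩ := exists_pow_lt_of_lt_one (show (0 : ℝ) < η / 2 by positivity)
    (show (1 / 2 : ℝ) < 1 by norm_num)
  refine ⟨S0, fun S hS x => ?_⟩
  have hp : (0 : ℝ) < 2 ^ S := by positivity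
  have hsmall : (1 : ℝ) / 2 ^ S < η / 2 := by
    have h1 : (1 / 2 : ℝ) ^ S ≤ (1 / 2 : ℝ) ^ S0 :=
      pow_le_pow_of_le_one (by norm_num) (by norm_num) hS
    have h2 : (1 / 2 : ℝ) ^ S = 1 / 2 ^ S := by rw [div_pow, one_pow]
    rw [← h2]
    exact lt_of_le_of_lt h1 hS0
  have hx : x ∈ D S (idx S x) := rfl
  have hn := idx_lt S x
  set n := idx S x with hnd
  have hGi : Integrable G := by
    obtain ⟨B, hB⟩ := (isCompact_range hG.norm).bddAbove
    exact Integrable.of_bound hG.aestronglyMeasurable B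
      (ae_of_all _ fun y => hB ⟨y, rfl⟩)
  have hc : G x = 2 ^ S * ∫ _ in D S n, G x := by
    rw [setIntegral_const, D_vol hn]
    have hp' : (2 : ℂ) ^ S ≠ 0 := pow_ne_zero _ two_ne_zero
    rw [Complex.real_smul]
    push_cast
    field_simp
  have hdiff : G x - cE S G x = 2 ^ S * ∫ y in D S n, (G x - G y) := by
    rw [integral_sub (integrable_const _) hGi.integrableOn, mul_sub, ← hc, BAvg_cE_on hx]
    rfl
  rw [hdiff, norm_mul, norm_pow, Complex.norm_ofNat]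
  have hb : ‖∫ y in D S n, (G x - G y)‖ ≤ δ * volume.real (D S n) := by
    refine norm_setIntegral_le_of_norm_le_const (measure_lt_top _ _) (fun y hy => ?_)
    have hd : dist x y < η := by
      have h1 := D_dist hx
      have h2 := D_dist hy
      rw [dist_eq_norm]
      calc ‖x - y‖ = ‖(x - cpt S n) - (y - cpt S n)‖ := by congr 1; abel
        _ ≤ ‖x - cpt S n‖ + ‖y - cpt S n‖ := norm_sub_le _ _
        _ < η := by linarith
    rw [← dist_eq_norm]
    exact (hG' hd).le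
  rw [D_vol hn] at hb
  calc 2 ^ S * ‖∫ y in D S n, (G x - G y)‖ ≤ 2 ^ S * (δ * (1 / 2 ^ S)) :=
        mul_le_mul_of_nonneg_left hb hp.le
    _ = δ := by field_simp

private theorem BAvg_three (a b c : ℂ) : ‖a + b + c‖ ^ 2 ≤ 3 * (‖a‖ ^ 2 + ‖b‖ ^ 2 + ‖c‖ ^ 2) := by
  have h : ‖a + b + c‖ ≤ ‖a‖ + ‖b‖ + ‖c‖ := norm_add₃_le
  have h2 : ‖a + b + c‖ ^ 2 ≤ (‖a‖ + ‖b‖ + ‖c‖) ^ 2 := pow_le_pow_left₀ (norm_nonneg _) h 2
  nlinarith [sq_nonneg (‖a‖ - ‖b‖), sq_nonneg (‖b‖ - ‖c‖), sq_nonneg (‖a‖ - ‖c‖)]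

theorem cE_tendsto {g : T → ℂ} (hg : BM g) :
    Tendsto (fun S : ℕ => ∫ x, ‖g x - cE S g x‖ ^ 2) atTop (𝓝 0) := by
  rw [Metric.tendsto_atTop]
  intro ε hε
  obtain ⟨M, hM⟩ := Metric.tendsto_atTop.1 (sM_tendsto hg.L2) (ε / 12) (by positivity)
  have hM' : ∫ x, ‖g x - sM M g x‖ ^ 2 < ε / 12 := by
    have h := hM M le_rfl
    rw [Real.dist_eq, sub_zero] at h
    exact lt_of_le_of_lt (le_abs_self _) h
  set G := sM M g with hGd
  have hGB : BM G := sM_BM M g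
  obtain ⟨S0, hS0⟩ := BAvg_unif (sM_continuous M g) (δ := Real.sqrt (ε / 12)) (by positivity)
  refine ⟨S0, fun S hS => ?_⟩
  have hnn : 0 ≤ ∫ x, ‖g x - cE S g x‖ ^ 2 := integral_nonneg fun x => by positivity
  rw [Real.dist_eq, sub_zero, abs_of_nonneg hnn]
  have hgG : L2 (fun x => g x - G x) := hg.L2.sub hGB.L2
  have hA := hgG.integrable_sq
  have hBi : Integrable (fun x => ‖G x - cE S G x‖ ^ 2) := (hGB.L2.sub (cE_BM S G).L2).integrable_sq
  have hC : Integrable (fun x => ‖cE S (fun y => g y - G y) x‖ ^ 2) := (cE_BM S _).L2.integrable_sq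
  have hle : ∫ x, ‖g x - cE S g x‖ ^ 2 ≤
      ∫ x, 3 * (‖g x - G x‖ ^ 2 + ‖G x - cE S G x‖ ^ 2 + ‖cE S (fun y => g y - G y) x‖ ^ 2) := by
    refine integral_mono (hg.L2.sub (cE_BM S g).L2).integrable_sq
      (((hA.add hBi).add hC).const_mul 3) (fun x => ?_)
    have h1 := BAvg_three (g x - G x) (G x - cE S G x) (-(cE S (fun y => g y - G y) x))
    rw [norm_neg, cE_sub S hg.L2.integrable hGB.L2.integrable] at h1
    have h2 : g x - G x + (G x - cE S G x) + -(cE S g x - cE S G x) = g x - cE S g x := by ring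
    rw [h2] at h1
    show ‖g x - cE S g x‖ ^ 2 ≤ 3 * (‖g x - G x‖ ^ 2 + ‖G x - cE S G x‖ ^ 2 +
      ‖cE S (fun y => g y - G y) x‖ ^ 2)
    rw [cE_sub S hg.L2.integrable hGB.L2.integrable]
    exact h1
  have hsplit : ∫ x, 3 * (‖g x - G x‖ ^ 2 + ‖G x - cE S G x‖ ^ 2 +
      ‖cE S (fun y => g y - G y) x‖ ^ 2) = 3 * ((∫ x, ‖g x - G x‖ ^ 2) +
      (∫ x, ‖G x - cE S G x‖ ^ 2) + ∫ x, ‖cE S (fun y => g y - G y) x‖ ^ 2) := by
    have hAB : Integrable (fun x => ‖g x - G x‖ ^ 2 + ‖G x - cE S G x‖ ^ 2) := hA.add hBi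
    rw [integral_const_mul, integral_add hAB hC, integral_add hA hBi]
  have hmid : ∫ x, ‖G x - cE S G x‖ ^ 2 ≤ ε / 12 := by
    have h1 : ∫ x, ‖G x - cE S G x‖ ^ 2 ≤ ∫ _ : T, ε / 12 := by
      refine integral_mono hBi (integrable_const _) (fun x => ?_)
      have h2 := hS0 S hS x
      have h3 : ‖G x - cE S G x‖ ^ 2 ≤ (Real.sqrt (ε / 12)) ^ 2 :=
        pow_le_pow_left₀ (norm_nonneg _) h2 2
      rwa [Real.sq_sqrt (by positivity)] at h3
    simpa using h1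
  have hlast := int_sq_cE_le S hgG
  rw [hsplit] at hle
  linarith

end CH.B
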