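import Pool.Agent.CH.BMM1
import Pool.Agent.CH.Base

/-! # CH-BMM2: function form of the minimax
Apply `minimaxH` in `H = Lp ℂ 2 volume` as a real Hilbert space
with `K = {G : |G| <= A a.e., G = 0 a.e. off E}` (convex, closed: a convergent sequence in `L2` has an a.e. convergent subsequence; bounded by `A`; contains `0`) and
`{(toLp (conj w), c) : (w,c) ∈ CC}`. At the end choose the representative: measurable, bounded by `A` everywhere, `0` off `E` everywhere. -/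

open MeasureTheory Complex
open scoped ComplexConjugate

namespace CH.B

private noncomputable abbrev BMM2H := Lp ℂ 2 (volume : Measure T)

private def BMM2K (E : Set T) (A : ℝ) : Set BMM2H :=
  {G | (∀ᵐ x, ‖(G : T → ℂ) x‖ ≤ A) ∧ (∀ᵐ x, x ∉ E → (G : T → ℂ) x = 0)}

private def BMM2C (CC : Set ((T → ℂ) × ℝ)) : Set (BMM2H × ℝ) :=
  {q | ∃ p ∈ CC, (q.1 : T → ℂ) =ᵐ[volume] (fun x => conj (p.1 x)) ∧ q.2 = p.2}

private theorem BMM2_inner {W y : BMM2H} {w f : T → ℂ}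
    (hW : (W : T → ℂ) =ᵐ[volume] (fun x => conj (w x))) (hy : (y : T → ℂ) =ᵐ[volume] f)
    (hw : L2 w) (hf : L2 f) :
    inner ℝ W y = (∫ x, f x * w x).re := by
  rw [MeasureTheory.L2.inner_def]
  have h1 : (∫ x, f x * w x).re = ∫ x, (f x * w x).re := by
    have := integral_re (hf.integrable_mul hw)
    simpa using this.symm
  rw [h1]
  refine integral_congr_ae ?_
  filter_upwards [hW, hy] with x h2 h3
  rw [h2, h3, Complex.inner]
  simp [mul_comm]

private theorem BMM2_convex {E : Set T} {A : ℝ} : Convex ℝ (BMM2K E A) := by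
  intro F hF G hG a b ha hb hab
  refine ⟨?_, ?_⟩
  · filter_upwards [hF.1, hG.1, Lp.coeFn_add (a • F) (b • G), Lp.coeFn_smul a F,
      Lp.coeFn_smul b G] with x h1 h2 h3 h4 h5
    rw [h3, Pi.add_apply, h4, h5]
    simp only [Pi.smul_apply]
    calc ‖a • (F : T → ℂ) x + b • (G : T → ℂ) x‖
        ≤ ‖a • (F : T → ℂ) x‖ + ‖b • (G : T → ℂ) x‖ := norm_add_le _ _
      _ = a * ‖(F : T → ℂ) x‖ + b * ‖(G : T → ℂ) x‖ := by
          rw [norm_smul, norm_smul, Real.norm_of_nonneg ha, Real.norm_of_nonneg hb]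
      _ ≤ a * A + b * A := by gcongr
      _ = A := by rw [← add_mul, hab, one_mul]
  · filter_upwards [hF.2, hG.2, Lp.coeFn_add (a • F) (b • G), Lp.coeFn_smul a F,
      Lp.coeFn_smul b G] with x h1 h2 h3 h4 h5 hx
    rw [h3, Pi.add_apply, h4, h5]
    simp [h1 hx, h2 hx]

private theorem BMM2_closed {E : Set T} {A : ℝ} : IsClosed (BMM2K E A) := by
  apply IsSeqClosed.isClosed
  intro u G hu hG
  have h1 : TendstoInMeasure volume (fun n => (u n : T → ℂ)) Filter.atTop (G : T → ℂ) :=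
    tendstoInMeasure_of_tendsto_Lp hG
  obtain ⟨ns, -, hns⟩ := h1.exists_seq_tendsto_ae
  have h2 : ∀ᵐ x, ∀ n, ‖(u (ns n) : T → ℂ) x‖ ≤ A := ae_all_iff.2 fun n => (hu (ns n)).1
  have h3 : ∀ᵐ x, ∀ n, x ∉ E → (u (ns n) : T → ℂ) x = 0 := ae_all_iff.2 fun n => (hu (ns n)).2
  refine ⟨?_, ?_⟩
  · filter_upwards [hns, h2] with x hx hx2
    exact le_of_tendsto hx.norm (Filter.Eventually.of_forall hx2)
  · filter_upwards [hns, h3] with x hx hx2 hxE
    refine tendsto_nhds_unique hx ?_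
    have : (fun i => (u (ns i) : T → ℂ) x) = fun _ => 0 := by
      funext n; exact hx2 n hxE
    rw [this]
    exact tendsto_const_nhds

private theorem BMM2_bounded {E : Set T} {A : ℝ} (hA : 0 ≤ A) :
    Bornology.IsBounded (BMM2K E A) := by
  rw [isBounded_iff_forall_norm_le]
  refine ⟨A, fun G hG => ?_⟩
  have h := Lp.norm_le_of_ae_bound (f := G) hA hG.1
  have h1 : measureUnivNNReal (volume : Measure T) = 1 := by
    simp [measureUnivNNReal]
  rw [h1] at h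
  simpa using h

private theorem BMM2_zero {E : Set T} {A : ℝ} (hA : 0 ≤ A) : (BMM2K E A).Nonempty := by
  refine ⟨0, ?_, ?_⟩
  · filter_upwards [Lp.coeFn_zero ℂ 2 (volume : Measure T)] with x hx
    rw [hx]; simpa using hA
  · filter_upwards [Lp.coeFn_zero ℂ 2 (volume : Measure T)] with x hx _
    rw [hx]; rfl

private theorem BMM2_convC (CC : Set ((T → ℂ) × ℝ))
    (hconv : ∀ p ∈ CC, ∀ r ∈ CC, ∀ t : ℝ, 0 ≤ t → t ≤ 1 →
      ((fun x => (t : ℂ) * p.1 x + ((1 - t : ℝ) : ℂ) * r.1 x), t * p.2 + (1 - t) * r.2) ∈ CC) :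
    Convex ℝ (BMM2C CC) := by
  rintro q ⟨p, hp, hq1, hq2⟩ q' ⟨p', hp', hq1', hq2'⟩ a b ha hb hab
  have hb' : b = 1 - a := by linarith
  refine ⟨_, hconv p hp p' hp' a ha (by linarith), ?_, ?_⟩
  · show ((a • q + b • q').1 : T → ℂ) =ᵐ[volume] _
    rw [Prod.fst_add, Prod.smul_fst, Prod.smul_fst]
    filter_upwards [hq1, hq1', Lp.coeFn_add (a • q.1) (b • q'.1), Lp.coeFn_smul a q.1,
      Lp.coeFn_smul b q'.1] with x h1 h2 h3 h4 h5
    rw [h3, Pi.add_apply, h4, h5]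
    simp only [Pi.smul_apply]
    rw [h1, h2, hb']
    simp [Complex.real_smul]
  · rw [Prod.snd_add, Prod.smul_snd, Prod.smul_snd, hq2, hq2', hb']
    simp

theorem minimaxF {E : Set T} (hE : MeasurableSet E) {A : ℝ} (hA : 0 ≤ A)
    (CC : Set ((T → ℂ) × ℝ)) (hL : ∀ p ∈ CC, L2 p.1)
    (hconv : ∀ p ∈ CC, ∀ r ∈ CC, ∀ t : ℝ, 0 ≤ t → t ≤ 1 →
      ((fun x => (t : ℂ) * p.1 x + ((1 - t : ℝ) : ℂ) * r.1 x), t * p.2 + (1 - t) * r.2) ∈ CC)
    (hsat : ∀ p ∈ CC, ∃ f : T → ℂ, BM f ∧ (∀ x, ‖f x‖ ≤ A) ∧ (∀ x, x ∉ E → f x = 0) ∧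
      (∫ x, f x * p.1 x).re ≤ p.2) :
    ∃ f : T → ℂ, BM f ∧ (∀ x, ‖f x‖ ≤ A) ∧ (∀ x, x ∉ E → f x = 0) ∧
      ∀ p ∈ CC, (∫ x, f x * p.1 x).re ≤ p.2 := by
  classical
  obtain ⟨y, hyK, hy⟩ := minimaxH (H := BMM2H) (K := BMM2K E A) BMM2_convex BMM2_closed
    (BMM2_bounded hA) (BMM2_zero hA) (CC := BMM2C CC) (BMM2_convC CC hconv) (by
      rintro q ⟨p, hp, hq1, hq2⟩
      obtain ⟨f, hf, hfA, hfE, hfp⟩ := hsat p hp
      have hc := MemLp.coeFn_toLp (show MemLp f 2 (volume : Measure T) from hf.L2)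
      refine ⟨MemLp.toLp f hf.L2, ⟨?_, ?_⟩, ?_⟩
      · filter_upwards [hc] with x hx
        rw [hx]; exact hfA x
      · filter_upwards [hc] with x hx hxE
        rw [hx]; exact hfE x hxE
      · rw [BMM2_inner hq1 hc (hL p hp) hf.L2, hq2]
        exact hfp)
  have hym : Measurable (y : T → ℂ) := (Lp.stronglyMeasurable y).measurable
  let f : T → ℂ := fun x => if ‖(y : T → ℂ) x‖ ≤ A ∧ x ∈ E then (y : T → ℂ) x else 0
  have hfm : Measurable f := by
    refine Measurable.ite ?_ hym measurable_const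
    exact (measurableSet_le hym.norm measurable_const).inter hE
  have hfA : ∀ x, ‖f x‖ ≤ A := by
    intro x
    by_cases h : ‖(y : T → ℂ) x‖ ≤ A ∧ x ∈ E
    · simp only [f, if_pos h]; exact h.1
    · simp only [f, if_neg h]; simpa using hA
  have hfE : ∀ x, x ∉ E → f x = 0 := by
    intro x hx
    have h : ¬ (‖(y : T → ℂ) x‖ ≤ A ∧ x ∈ E) := fun h => hx h.2
    simp only [f, if_neg h]
  have hfy : (y : T → ℂ) =ᵐ[volume] f := by
    filter_upwards [hyK.1, hyK.2] with x h1 h2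
    by_cases hx : x ∈ E
    · simp only [f, if_pos (And.intro h1 hx)]
    · have h : ¬ (‖(y : T → ℂ) x‖ ≤ A ∧ x ∈ E) := fun h => hx h.2
      simp only [f, if_neg h]
      exact h2 hx
  have hfB : BM f := ⟨hfm, A, hfA⟩
  refine ⟨f, hfB, hfA, hfE, fun p hp => ?_⟩
  have hc := MemLp.coeFn_toLp (show MemLp (fun x => conj (p.1 x)) 2 (volume : Measure T) from
    (hL p hp).conj)
  have h := hy (MemLp.toLp _ (hL p hp).conj, p.2) ⟨p, hp, hc, rfl⟩
  rw [BMM2_inner hc hfy (hL p hp) hfB.L2] at h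
  exact h

end CH.B
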