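import Pool.Agent.CH.BLemK
import Pool.Agent.CH.BMM2

/-! # CH-BBase: the starting function (B7, BASE)
`A = 2/|E|`, `lam = max 100 (8 C1/|E|)`, `Cc = 2 lam^3 + A`. `minimaxF` with the pairs `(conj h + z, Cc + Re z)`, `Fam 1 h`, `z` a complex constant (convex: `Fam_add`, `Fam_smul`,
`Fam_mono`). Satisfiable: `LemKP` with `h' = 0`, `tau = 1`: `E' = {x ∈ E : |1 - q x| <= 1/2}`; Chebyshev: `|E \ E'| <= 4 int |1-q|^2 <= 4 C1/lam <= |E|/2`;
on `E'`: `|q| >= 1/2`, `|hs| <= 2 lam^3`; `f = 1_{E'}/|E'|` (a.e. issues: none, the bounds of LemKP hold everywhere): `|f| <= 2/|E|`,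
`int f z = z`, `|int f conj h| <= 2 lam^3 + A * int |h - hs| <= Cc`.
The common solution `f`: `Re (z (int f - 1)) <= Cc - Re int f conj h` for all `z` (take `h = 0`), so `int f = 1`; then `z = 0` and the rotations of `h`:
`|int f conj h| <= Cc`, `NB_of_Fam`. -/

open MeasureTheory Complex Filter Topology
open scoped ComplexConjugate

namespace CH.B

private theorem BBase_const_L2 (z : ℂ) : L2 (fun _ : T => z) := memLp_const z

/-- existence of the test function for one `h` -/
private theorem BBase_test {C1 : ℝ} (hC1 : 1 ≤ C1) (hK : LemKP C1) {E : Set T}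
    (hEm : MeasurableSet E) {a lam : ℝ} (ha : a = (volume : Measure T).real E) (ha0 : 0 < a)
    (hl : 100 ≤ lam) (hl2 : 8 * C1 / a ≤ lam) {h : T → ℂ} (hh : Fam 1 h) :
    ∃ f : T → ℂ, BM f ∧ (∀ x, ‖f x‖ ≤ 2 / a) ∧ (∀ x, x ∉ E → f x = 0) ∧ ∫ x, f x = 1 ∧
      ‖∫ x, f x * conj (h x)‖ ≤ 2 * lam ^ 3 + 2 / a := by
  have h0 : Fam 2 (fun _ : T => (0 : ℂ)) := Fam_mono Fam_zero (by norm_num)
  obtain ⟨hs, ks, q, hAs, -, h1, -, hqm, hq1, hqA, hq2, hqs, -, -⟩ :=
    hK lam 1 h (fun _ => 0) hl one_pos hh h0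
  have hL : L2 h := Fam_L2 hh
  have hl0 : 0 < lam := by linarith
  set E' : Set T := E ∩ {x | ‖1 - q x‖ ≤ 1 / 2} with hE'
  have hm1 : MeasurableSet {x : T | ‖1 - q x‖ ≤ 1 / 2} :=
    measurableSet_le (measurable_const.sub hqm).norm measurable_const
  have hE'm : MeasurableSet E' := hEm.inter hm1
  set D' : Set T := {x : T | ‖1 - q x‖ ≤ 1 / 2}ᶜ with hD'
  have hD'm : MeasurableSet D' := hm1.compl
  -- Chebyshev
  have hq1L : L2 (fun x => 1 - q x) := (BBase_const_L2 1).sub hqA.1
  have hcheb : (volume : Measure T).real D' ≤ 4 * (C1 / lam) := by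
    have h3 : (volume : Measure T).real D' = ∫ x, D'.indicator (fun _ => (1 : ℝ)) x := by
      rw [integral_indicator_const _ hD'm]; simp
    have h4 : ∫ x, D'.indicator (fun _ => (1 : ℝ)) x ≤ ∫ x, 4 * ‖1 - q x‖ ^ 2 := by
      refine integral_mono ?_ (hq1L.integrable_sq.const_mul 4) ?_
      · exact (integrable_const (1 : ℝ)).indicator hD'm
      · intro x
        by_cases hx : x ∈ D'
        · simp only [Set.indicator_of_mem hx]
          have : ¬ (‖1 - q x‖ ≤ 1 / 2) := hx
          push Not at this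
          nlinarith
        · simp only [Set.indicator_of_notMem hx]
          positivity
    rw [integral_const_mul] at h4
    rw [h3]
    nlinarith
  have hmeas : a / 2 ≤ (volume : Measure T).real E' := by
    have h5 : E ⊆ E' ∪ D' := by
      intro x hx
      by_cases h6 : ‖1 - q x‖ ≤ 1 / 2
      · exact Or.inl ⟨hx, h6⟩
      · exact Or.inr h6
    have h7 : (volume : Measure T).real E ≤ (volume : Measure T).real E' +
        (volume : Measure T).real D' :=
      (measureReal_mono h5).trans (measureReal_union_le _ _)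
    have h8 : 4 * (C1 / lam) ≤ a / 2 := by
      rw [div_le_iff₀ ha0] at hl2
      rw [mul_div_assoc', div_le_iff₀ hl0]
      linarith
    rw [← ha] at h7
    linarith
  set b : ℝ := (volume : Measure T).real E' with hb
  have hb0 : 0 < b := by linarith
  set f : T → ℂ := E'.indicator (fun _ => ((1 / b : ℝ) : ℂ)) with hf
  have hfm : Measurable f := measurable_const.indicator hE'm
  have hfb : ∀ x, ‖f x‖ ≤ 2 / a := by
    intro x
    by_cases hx : x ∈ E'
    · rw [hf, Set.indicator_of_mem hx, Complex.norm_real, Real.norm_eq_abs,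
        abs_of_pos (by positivity)]
      rw [div_le_div_iff₀ hb0 ha0]
      linarith
    · rw [hf, Set.indicator_of_notMem hx, norm_zero]
      positivity
  have hfBM : BM f := ⟨hfm, 2 / a, hfb⟩
  have hfL := hfBM.L2
  have hfint : ∫ x, f x = 1 := by
    rw [hf, integral_indicator_const _ hE'm, ← hb, Complex.real_smul, ← Complex.ofReal_mul,
      mul_one_div_cancel hb0.ne', Complex.ofReal_one]
  have hfnorm : ∫ x, ‖f x‖ = 1 := by
    have : (fun x => ‖f x‖) = E'.indicator (fun _ => (1 / b : ℝ)) := by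
      funext x
      by_cases hx : x ∈ E'
      · rw [hf, Set.indicator_of_mem hx, Set.indicator_of_mem hx, Complex.norm_real,
          Real.norm_eq_abs, abs_of_pos (by positivity)]
      · rw [hf, Set.indicator_of_notMem hx, Set.indicator_of_notMem hx, norm_zero]
    rw [this, integral_indicator_const _ hE'm, ← hb, smul_eq_mul, mul_one_div_cancel hb0.ne']
  refine ⟨f, hfBM, hfb, ?_, hfint, ?_⟩
  · intro x hx
    rw [hf, Set.indicator_of_notMem]
    exact fun h => hx h.1
  · have e1 : ∫ x, f x * conj (h x) = (∫ x, f x * conj (hs x)) + ∫ x, f x * conj (h x - hs x) := by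
      rw [← integral_add (hfL.integrable_mul_conj hAs.1) (hfL.integrable_mul_conj (hL.sub hAs.1))]
      congr 1; ext x
      rw [map_sub]; ring
    rw [e1]
    refine (norm_add_le _ _).trans (add_le_add ?_ ?_)
    · refine (norm_integral_le_integral_norm _).trans ?_
      calc ∫ x, ‖f x * conj (hs x)‖ ≤ ∫ x, ‖f x‖ * (2 * lam ^ 3) := by
            refine integral_mono (hfL.integrable_mul_conj hAs.1).norm
              (hfL.integrable.norm.mul_const _) ?_
            intro x
            show ‖f x * conj (hs x)‖ ≤ ‖f x‖ * (2 * lam ^ 3)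
            rw [norm_mul, RCLike.norm_conj]
            by_cases hx : x ∈ E'
            · refine mul_le_mul_of_nonneg_left ?_ (norm_nonneg _)
              have h6 : ‖1 - q x‖ ≤ 1 / 2 := hx.2
              have h7 : 1 / 2 ≤ ‖q x‖ := by
                have := norm_sub_norm_le (1 : ℂ) (1 - q x)
                simp only [norm_one, sub_sub_cancel] at this
                linarith
              have h8 := hqs x
              rw [norm_mul] at h8
              have h9 := norm_nonneg (hs x)
              nlinarith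
            · have : f x = 0 := by rw [hf, Set.indicator_of_notMem hx]
              rw [this]; simp
        _ = 2 * lam ^ 3 := by rw [integral_mul_const, hfnorm, one_mul]
    · refine (norm_integral_le_integral_norm _).trans ?_
      calc ∫ x, ‖f x * conj (h x - hs x)‖ ≤ ∫ x, 2 / a * ‖h x - hs x‖ := by
            refine integral_mono (hfL.integrable_mul_conj (hL.sub hAs.1)).norm
              ((hL.sub hAs.1).integrable.norm.const_mul _) ?_
            intro x
            show ‖f x * conj (h x - hs x)‖ ≤ 2 / a * ‖h x - hs x‖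
            rw [norm_mul, RCLike.norm_conj]
            exact mul_le_mul_of_nonneg_right (hfb x) (norm_nonneg _)
        _ = 2 / a * ∫ x, ‖h x - hs x‖ := integral_const_mul _ _
        _ ≤ 2 / a * 1 := by
            refine mul_le_mul_of_nonneg_left ?_ (by positivity)
            exact (int_norm_le (hL.sub hAs.1)).trans h1
        _ = 2 / a := mul_one _

theorem Base_lemma {C1 : ℝ} (hC1 : 1 ≤ C1) (hK : LemKP C1) {E : Set T} (hEm : MeasurableSet E)
    (hE : 0 < volume E) :
    ∃ (f : T → ℂ) (A c : ℝ), BM f ∧ (∀ x, ‖f x‖ ≤ A) ∧ (∀ x, x ∉ E → f x = 0) ∧ ∫ x, f x = 1 ∧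
      NB f c := by
  obtain ⟨a, ha⟩ : ∃ a, a = (volume : Measure T).real E := ⟨_, rfl⟩
  have ha0 : 0 < a := by
    rw [ha]
    exact ENNReal.toReal_pos hE.ne' (measure_ne_top _ _)
  obtain ⟨lam, hlam⟩ : ∃ lam, lam = max 100 (8 * C1 / a) := ⟨_, rfl⟩
  have hl : 100 ≤ lam := by rw [hlam]; exact le_max_left _ _
  have hl2 : 8 * C1 / a ≤ lam := by rw [hlam]; exact le_max_right _ _
  obtain ⟨Cc, hCc⟩ : ∃ Cc, Cc = 2 * lam ^ 3 + 2 / a := ⟨_, rfl⟩
  have hCc0 : 0 ≤ Cc := by rw [hCc]; positivity
  let CC : Set ((T → ℂ) × ℝ) := {p | ∃ (h : T → ℂ) (z : ℂ), Fam 1 h ∧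
    p = (fun x => conj (h x) + z, Cc + z.re)}
  obtain ⟨f, hfBM, hfA, hfE, hfC⟩ := minimaxF hEm (A := 2 / a) (by positivity) CC
    (by
      rintro p ⟨h, z, hh, rfl⟩
      exact (Fam_L2 hh).conj.add (BBase_const_L2 z))
    (by
      rintro p ⟨h, z, hh, rfl⟩ r ⟨h', z', hh', rfl⟩ t ht0 ht1
      refine ⟨fun x => (t : ℂ) * h x + ((1 - t : ℝ) : ℂ) * h' x,
        (t : ℂ) * z + ((1 - t : ℝ) : ℂ) * z', ?_, ?_⟩
      · have h1 := Fam_add (Fam_smul (t : ℂ) hh) (Fam_smul ((1 - t : ℝ) : ℂ) hh')
        refine Fam_mono h1 (le_of_eq ?_)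
        rw [Complex.norm_real, Complex.norm_real, Real.norm_eq_abs, Real.norm_eq_abs,
          abs_of_nonneg ht0, abs_of_nonneg (by linarith)]
        ring
      · refine Prod.ext ?_ ?_
        · funext x
          simp only [map_add, map_mul, Complex.conj_ofReal]
          ring
        · simp only [Complex.add_re, Complex.re_ofReal_mul]
          ring)
    (by
      rintro p ⟨h, z, hh, rfl⟩
      obtain ⟨f, h1, h2, h3, h4, h5⟩ := BBase_test hC1 hK hEm ha ha0 hl hl2 hh
      refine ⟨f, h1, h2, h3, ?_⟩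
      have e1 : ∫ x, f x * (conj (h x) + z) = (∫ x, f x * conj (h x)) + z := by
        simp_rw [mul_add]
        rw [integral_add (h1.L2.integrable_mul_conj (Fam_L2 hh)) (h1.L2.integrable.mul_const z),
          integral_mul_const, h4, one_mul]
      show (∫ x, f x * (conj (h x) + z)).re ≤ Cc + z.re
      rw [e1, Complex.add_re, hCc]
      have := Complex.re_le_norm (∫ x, f x * conj (h x))
      linarith)
  have hfL := hfBM.L2
  have key : ∀ (h : T → ℂ) (z : ℂ), Fam 1 h →
      (∫ x, f x * conj (h x)).re + (z * ((∫ x, f x) - 1)).re ≤ Cc := by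
    intro h z hh
    have h1 := hfC _ ⟨h, z, hh, rfl⟩
    have e1 : ∫ x, f x * (conj (h x) + z) = (∫ x, f x * conj (h x)) + (∫ x, f x) * z := by
      simp_rw [mul_add]
      rw [integral_add (hfL.integrable_mul_conj (Fam_L2 hh)) (hfL.integrable.mul_const z),
        integral_mul_const]
    change (∫ x, f x * (conj (h x) + z)).re ≤ Cc + z.re at h1
    rw [e1, Complex.add_re] at h1
    have e2 : (z * ((∫ x, f x) - 1)).re = ((∫ x, f x) * z).re - z.re := by
      rw [← Complex.sub_re]; congr 1; ring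
    linarith
  have hint : ∫ x, f x = 1 := by
    by_contra hne
    have hw : (∫ x, f x) - 1 ≠ 0 := sub_ne_zero.2 hne
    set w : ℂ := (∫ x, f x) - 1 with hwd
    have hw0 : 0 < ‖w‖ ^ 2 := by positivity
    have h1 := key (fun _ => 0) ((((Cc + 1) / ‖w‖ ^ 2 : ℝ) : ℂ) * conj w)
      (Fam_mono Fam_zero (by norm_num))
    have e1 : (∫ x : T, f x * conj ((fun _ => (0 : ℂ)) x)).re = 0 := by simp
    have e2 : ((((Cc + 1) / ‖w‖ ^ 2 : ℝ) : ℂ) * conj w * w).re = Cc + 1 := by
      rw [mul_assoc, mul_comm (conj w) w, Complex.mul_conj, ← Complex.ofReal_mul,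
        Complex.ofReal_re, Complex.normSq_eq_norm_sq]
      field_simp
    rw [e1, e2] at h1
    linarith
  refine ⟨f, 2 / a, Cc, hfBM, hfA, hfE, hint, NB_of_Fam hfL ?_⟩
  intro h hh
  set w : ℂ := ∫ x, f x * conj (h x) with hw
  by_cases hw0 : w = 0
  · rw [hw0, norm_zero]; exact hCc0
  have hwn : (‖w‖ : ℂ) ≠ 0 := by
    rw [Ne, Complex.ofReal_eq_zero]; exact norm_ne_zero_iff.2 hw0
  have hu : ‖w / ‖w‖‖ = 1 := by
    rw [norm_div, Complex.norm_real, norm_norm, div_self (norm_ne_zero_iff.2 hw0)]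
  have h1 := Fam_smul (w / ‖w‖) hh
  rw [hu, mul_one] at h1
  have h2 := key _ 0 h1
  have e1 : ∫ x, f x * conj (w / ‖w‖ * h x) = conj (w / ‖w‖) * w := by
    rw [hw, ← integral_const_mul]
    congr 1; ext x
    rw [map_mul]; ring
  rw [e1, zero_mul, Complex.zero_re, add_zero, map_div₀, Complex.conj_ofReal, div_mul_eq_mul_div,
    mul_comm (conj w) w, Complex.mul_conj, Complex.normSq_eq_norm_sq, ← Complex.ofReal_div,
    Complex.ofReal_re] at h2
  have e3 : ‖w‖ ^ 2 / ‖w‖ = ‖w‖ := by
    have : ‖w‖ ≠ 0 := norm_ne_zero_iff.2 hw0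
    field_simp
  rw [e3] at h2
  exact h2

end CH.B
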