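import Pool.Agent.CH.BAvg

/-! # CH-BCZ: Calderon-Zygmund intervals (B3), definitions and first properties
`nu : T → ℝ` is a step function of level `S`, `nu >= 0`. `avR nu s n` = average of `nu` over `D s n`.
`QQ S nu lam` = the maximal dyadic intervals of level `<= S` with average `> lam`.
* `QQ_mem`: by definition, and: if `p.1 = 0` the average is `int nu <= 3 < lam`; so `p.1 >= 1`, the parent `(p.1 - 1, p.2 / 2)` has average `<= lam`,
  `D p ⊆ D parent` (`D_sub`), so `avR nu p.1 p.2 = 2^p.1 int_{D p} nu <= 2 * avR nu (parent)`.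
* `QQ_disj`: `D_nested`: one contains the other; if the levels differ, the ancestor condition contradicts `lam < average`.
* `QQ_off`: `nu x = avR nu S (idx S x)` (step function, `D_vol`); if `> lam` take the smallest `s <= S` with `lam < avR nu s (idx s x)` (`Nat.find`);
  then `(s, idx s x)` belongs to `QQ` (`idx_div`) and contains `x`.
* `QQ_nest`: for `lam <= lam'`, `p ∈ QQ lam'`: the smallest `s <= p.1` with `lam < avR nu s (p.2 / 2^(p.1 - s))`.
* `QQ_sum`: `lam / 2^p.1 < int_{D p} nu`, the `D p` are disjoint. `QQ_empty`: an average is `<= B <= lam`.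
* `QQ_int_le`: disjointness. -/

open MeasureTheory Complex
open scoped ComplexConjugate

namespace CH.B

/-- average of `nu` over `D s n` -/
noncomputable def avR (nu : T → ℝ) (s n : ℕ) : ℝ := 2 ^ s * ∫ x in D s n, nu x

open Classical in
/-- the Calderon-Zygmund intervals of height `lam` -/
noncomputable def QQ (S : ℕ) (nu : T → ℝ) (lam : ℝ) : Finset (ℕ × ℕ) :=
  ((Finset.range (S + 1)) ×ˢ (Finset.range (2 ^ S))).filter
    (fun p => p.2 < 2 ^ p.1 ∧ lam < avR nu p.1 p.2 ∧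
      ∀ s' < p.1, avR nu s' (p.2 / 2 ^ (p.1 - s')) ≤ lam)

/-- a step function `>= 0` with integral `<= 3` -/
structure Nu (S : ℕ) (nu : T → ℝ) : Prop where
  step : Step S nu
  nonneg : ∀ x, 0 ≤ nu x
  int : ∫ x, nu x ≤ 3

/-- a finite set of pairwise disjoint dyadic intervals -/
structure Gd (Q : Finset (ℕ × ℕ)) : Prop where
  lt : ∀ p ∈ Q, p.2 < 2 ^ p.1
  disj : ∀ p ∈ Q, ∀ q ∈ Q, ∀ x, x ∈ D p.1 p.2 → x ∈ D q.1 q.2 → p = q

theorem Nu_integrable {S : ℕ} {nu : T → ℝ} (h : Nu S nu) : Integrable nu := by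
  obtain ⟨B, hB⟩ := Step_bdd h.step
  exact Integrable.of_bound (Step_measurable h.step).aestronglyMeasurable B
    (ae_of_all _ fun x => by rw [Real.norm_eq_abs]; exact hB x)

private theorem BCZ_mem_iff {S : ℕ} {nu : T → ℝ} {lam : ℝ} {p : ℕ × ℕ} :
    p ∈ QQ S nu lam ↔ p.1 ≤ S ∧ p.2 < 2 ^ S ∧ p.2 < 2 ^ p.1 ∧ lam < avR nu p.1 p.2 ∧
      ∀ s' < p.1, avR nu s' (p.2 / 2 ^ (p.1 - s')) ≤ lam := by
  unfold QQ
  rw [Finset.mem_filter, Finset.mem_product, Finset.mem_range, Finset.mem_range]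
  constructor
  · rintro ⟨⟨h1, h2⟩, h3⟩
    exact ⟨by omega, h2, h3⟩
  · rintro ⟨h1, h2, h3⟩
    exact ⟨⟨by omega, h2⟩, h3⟩

private theorem BCZ_mono {nu : T → ℝ} (hi : Integrable nu) (h0 : ∀ x, 0 ≤ nu x) {A B : Set T}
    (hB : MeasurableSet B) (hAB : A ⊆ B) : ∫ x in A, nu x ≤ ∫ x in B, nu x :=
  setIntegral_mono_set hi.integrableOn (ae_of_all _ h0) (ae_of_all _ hAB)

private theorem BCZ_le_int {nu : T → ℝ} (hi : Integrable nu) (h0 : ∀ x, 0 ≤ nu x) (A : Set T) :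
    ∫ x in A, nu x ≤ ∫ x, nu x :=
  setIntegral_le_integral hi (ae_of_all _ h0)

theorem QQ_mem {S : ℕ} {nu : T → ℝ} {lam : ℝ} (h : Nu S nu) (hl : 3 ≤ lam) {p : ℕ × ℕ}
    (hp : p ∈ QQ S nu lam) :
    p.1 ≤ S ∧ p.2 < 2 ^ p.1 ∧ lam / 2 ^ p.1 < ∫ x in D p.1 p.2, nu x ∧
      ∫ x in D p.1 p.2, nu x ≤ 2 * lam / 2 ^ p.1 := by
  obtain ⟨h1, -, h2, h3, h4⟩ := BCZ_mem_iff.1 hp
  have hi := Nu_integrable h
  have h5 : lam / 2 ^ p.1 < ∫ x in D p.1 p.2, nu x := by
    rw [div_lt_iff₀ (by positivity), mul_comm]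
    exact h3
  refine ⟨h1, h2, h5, ?_⟩
  obtain ⟨s, n⟩ := p
  rcases s with _ | s
  · exfalso
    have h6 := BCZ_le_int hi h.nonneg (D 0 n)
    have h7 := h.int
    simp only [pow_zero, div_one] at h5
    linarith
  · have h6 := h4 s (by simp)
    have h7 : s + 1 - s = 1 := by omega
    simp only [h7, pow_one] at h6
    have h8 : D (s + 1) n ⊆ D s (n / 2) := D_sub ⟨by omega, by rw [h7, pow_one]⟩
    have h9 := BCZ_mono hi h.nonneg (D_meas s (n / 2)) h8
    unfold avR at h6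
    simp only
    rw [le_div_iff₀ (by positivity), pow_succ]
    have h10 : (0 : ℝ) < 2 ^ s := by positivity
    nlinarith

theorem QQ_Gd {S : ℕ} {nu : T → ℝ} {lam : ℝ} (h : Nu S nu) : Gd (QQ S nu lam) := by
  have key : ∀ p ∈ QQ S nu lam, ∀ q ∈ QQ S nu lam, ∀ x, x ∈ D p.1 p.2 → x ∈ D q.1 q.2 →
      ¬ q.1 < p.1 := by
    intro p hp q hq x hx hy hlt
    obtain ⟨-, -, -, -, h4⟩ := BCZ_mem_iff.1 hp
    obtain ⟨-, -, -, h3, -⟩ := BCZ_mem_iff.1 hq
    have h5 := h4 q.1 hlt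
    have h6 : p.2 / 2 ^ (p.1 - q.1) = q.2 := by
      have h7 := idx_div hlt.le x
      have h8 : idx p.1 x = p.2 := hx
      have h9 : idx q.1 x = q.2 := hy
      rwa [h8, h9] at h7
    rw [h6] at h5
    linarith
  refine ⟨fun p hp => (BCZ_mem_iff.1 hp).2.2.1, fun p hp q hq x hx hy => ?_⟩
  have h1 : p.1 = q.1 := by
    have := key p hp q hq x hx hy
    have := key q hq p hp x hy hx
    omega
  have h2 : p.2 = q.2 := by
    have h8 : idx p.1 x = p.2 := hx
    have h9 : idx q.1 x = q.2 := hy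
    rw [← h8, ← h9, h1]
  exact Prod.ext h1 h2

theorem QQ_off {S : ℕ} {nu : T → ℝ} {lam : ℝ} (h : Nu S nu) {x : T}
    (hx : ∀ p ∈ QQ S nu lam, x ∉ D p.1 p.2) : nu x ≤ lam := by
  classical
  by_contra hcon
  push Not at hcon
  have hS : lam < avR nu S (idx S x) := by
    have h1 : ∫ y in D S (idx S x), nu y = nu x / 2 ^ S := by
      rw [setIntegral_congr_fun (g := fun _ => nu x) (D_meas S _)
        (fun y hy => h.step y x hy)]
      rw [setIntegral_const, D_vol (idx_lt S x), smul_eq_mul]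
      ring
    unfold avR
    rw [h1, mul_div_cancel₀ _ (by positivity)]
    exact hcon
  have hex : ∃ s, lam < avR nu s (idx s x) := ⟨S, hS⟩
  have hs := Nat.find_spec hex
  have hsS : Nat.find hex ≤ S := Nat.find_min' hex hS
  refine hx (Nat.find hex, idx (Nat.find hex) x) (BCZ_mem_iff.2 ⟨hsS, ?_, idx_lt _ x, hs, ?_⟩) rfl
  · exact (idx_lt _ x).trans_le (Nat.pow_le_pow_right (by norm_num) hsS)
  · intro s' hs'
    have := Nat.find_min hex hs'
    simp only
    rw [idx_div hs'.le x]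
    exact not_lt.1 this

theorem QQ_nest {S : ℕ} {nu : T → ℝ} {lam lam' : ℝ} (h : Nu S nu) (hl : lam ≤ lam') {p : ℕ × ℕ}
    (hp : p ∈ QQ S nu lam') : ∃ q ∈ QQ S nu lam, tin p.1 p.2 q.1 q.2 := by
  classical
  obtain ⟨h1, -, h2, h3, -⟩ := BCZ_mem_iff.1 hp
  have hP : lam < avR nu p.1 (p.2 / 2 ^ (p.1 - p.1)) := by
    rw [Nat.sub_self, pow_zero, Nat.div_one]
    linarith
  have hex : ∃ s, lam < avR nu s (p.2 / 2 ^ (p.1 - s)) := ⟨p.1, hP⟩
  have hs := Nat.find_spec hex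
  have hsp : Nat.find hex ≤ p.1 := Nat.find_min' hex hP
  have hlt : p.2 / 2 ^ (p.1 - Nat.find hex) < 2 ^ Nat.find hex := by
    rw [Nat.div_lt_iff_lt_mul (by positivity), ← pow_add]
    have : Nat.find hex + (p.1 - Nat.find hex) = p.1 := by omega
    rwa [this]
  refine ⟨(Nat.find hex, p.2 / 2 ^ (p.1 - Nat.find hex)),
    BCZ_mem_iff.2 ⟨hsp.trans h1, ?_, hlt, hs, ?_⟩, hsp, rfl⟩
  · exact hlt.trans_le (Nat.pow_le_pow_right (by norm_num) (hsp.trans h1))
  · intro s' hs'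
    have := Nat.find_min hex hs'
    simp only at hs' ⊢
    rw [Nat.div_div_eq_div_mul, ← pow_add]
    have e : p.1 - Nat.find hex + (Nat.find hex - s') = p.1 - s' := by omega
    rw [e]
    exact not_lt.1 this

theorem QQ_int_le {S : ℕ} {nu : T → ℝ} {lam : ℝ} (h : Nu S nu) :
    ∑ p ∈ QQ S nu lam, ∫ x in D p.1 p.2, nu x ≤ 3 := by
  have hi := Nu_integrable h
  rw [← integral_biUnion_finset (QQ S nu lam) (s := fun p : ℕ × ℕ => D p.1 p.2)
    (fun p _ => D_meas _ _) ?_ (fun p _ => hi.integrableOn)]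
  · exact (BCZ_le_int hi h.nonneg _).trans h.int
  · intro p hp q hq hne
    rw [Function.onFun, Set.disjoint_left]
    intro x hx hy
    exact hne ((QQ_Gd h).disj p hp q hq x hx hy)

theorem QQ_sum {S : ℕ} {nu : T → ℝ} {lam : ℝ} (h : Nu S nu) (hl : 3 ≤ lam) :
    ∑ p ∈ QQ S nu lam, (1 / 2 ^ p.1 : ℝ) ≤ 3 / lam := by
  rw [le_div_iff₀ (by linarith), Finset.sum_mul]
  refine (Finset.sum_le_sum fun p hp => ?_).trans (QQ_int_le (lam := lam) h)
  have := (QQ_mem h hl hp).2.2.1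
  rw [one_div_mul_eq_div]
  exact this.le

theorem QQ_empty {S : ℕ} {nu : T → ℝ} (h : Nu S nu) : ∃ B : ℝ, ∀ lam : ℝ, B ≤ lam →
    QQ S nu lam = ∅ := by
  obtain ⟨B, hB⟩ := Step_bdd h.step
  refine ⟨B, fun lam hlam => ?_⟩
  rw [Finset.eq_empty_iff_forall_notMem]
  intro p hp
  obtain ⟨h1, -, h2, h3, -⟩ := BCZ_mem_iff.1 hp
  have hi := Nu_integrable h
  have h4 : ∫ x in D p.1 p.2, nu x ≤ B / 2 ^ p.1 := by
    calc ∫ x in D p.1 p.2, nu x ≤ ∫ x in D p.1 p.2, B := by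
          refine setIntegral_mono hi.integrableOn (integrable_const _).integrableOn fun x => ?_
          exact (le_abs_self _).trans (hB x)
      _ = B / 2 ^ p.1 := by
          rw [setIntegral_const, D_vol h2, smul_eq_mul]
          ring
  have h5 : avR nu p.1 p.2 ≤ B := by
    unfold avR
    rw [le_div_iff₀ (by positivity)] at h4
    linarith
  linarith

end CH.B
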