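import Pool.Agent.CH.BCZ

/-! # CH-BCh: chains of Calderon-Zygmund intervals (B3) and the counting function `n`
`QQ_chain`: for `p ∈ QQ (lam 4^k)` choose `q j ∈ QQ (lam 4^j)` with `tin p (q j)` for `j <= k` (`QQ_nest`); for `j = k` take `q k = p`
 (`p` itself; `QQ_Gd`: two members which share a point are equal, or simply define `q k := p`). The size inequality (B3.1):
 `lam 4^k / 2^p.1 < int_{D p} nu <= int_{D (q j)} nu <= 2 lam 4^j / 2^(q j).1` (`QQ_mem`, `D_sub`), so `1/2^p.1 <= 2 (1/4)^(k-j) / 2^(q j).1`.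
`nn S nu lam K x = #{(k,p) : k < K, p ∈ QQ (lam 4^k), x ∈ Nb p}`.
`nn_ge`: for `p ∈ QQ (lam 4^j)`, `x ∈ Nb p`, `j < K`: for every `i <= j` there is `q ∈ QQ (lam 4^i)` with `tin p q`, so `x ∈ Nb q` (`Nb_sub`): `j+1` terms are `>= 1`.
`nn_int`: `sum_k sum_p vol (Nb p) <= sum_k 4 * 3/(lam 4^k) <= 16/lam` (`Nb_vol`, `QQ_sum`). -/

open MeasureTheory Complex
open scoped ComplexConjugate

namespace CH.B

private theorem BCh_lam {lam : ℝ} (hl : 3 ≤ lam) (k : ℕ) : 3 ≤ lam * 4 ^ k := by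
  have h1 : (1 : ℝ) ≤ 4 ^ k := one_le_pow₀ (by norm_num)
  nlinarith

private theorem BCh_one {S : ℕ} {nu : T → ℝ} {lam : ℝ} (h : Nu S nu) (hl : 3 ≤ lam) (k : ℕ)
    {p : ℕ × ℕ} (hp : p ∈ QQ S nu (lam * 4 ^ k)) (j : ℕ) : ∃ q : ℕ × ℕ, (j = k → q = p) ∧
      (j ≤ k → q ∈ QQ S nu (lam * 4 ^ j) ∧ tin p.1 p.2 q.1 q.2) := by
  by_cases hjk : j ≤ k
  · have h1 : lam * 4 ^ j ≤ lam * 4 ^ k :=
      mul_le_mul_of_nonneg_left (pow_le_pow_right₀ (by norm_num) hjk) (by linarith)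
    obtain ⟨q, hq, ht⟩ := QQ_nest h h1 hp
    refine ⟨q, fun hj => ?_, fun _ => ⟨hq, ht⟩⟩
    subst hj
    obtain ⟨x, hx⟩ := D_nonempty ((QQ_Gd h).lt p hp)
    exact ((QQ_Gd h).disj p hp q hq x hx (D_sub ht hx)).symm
  · exact ⟨p, fun _ => rfl, fun h2 => absurd h2 hjk⟩

theorem QQ_chain {S : ℕ} {nu : T → ℝ} {lam : ℝ} (h : Nu S nu) (hl : 3 ≤ lam) (k : ℕ) {p : ℕ × ℕ}
    (hp : p ∈ QQ S nu (lam * 4 ^ k)) : ∃ q : ℕ → ℕ × ℕ, q k = p ∧
      (∀ j ≤ k, q j ∈ QQ S nu (lam * 4 ^ j) ∧ tin p.1 p.2 (q j).1 (q j).2 ∧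
        (1 / 2 ^ p.1 : ℝ) ≤ 2 * (1 / 4) ^ (k - j) * (1 / 2 ^ (q j).1)) := by
  choose q hq1 hq2 using BCh_one h hl k hp
  refine ⟨q, hq1 k rfl, fun j hj => ⟨(hq2 j hj).1, (hq2 j hj).2, ?_⟩⟩
  have hi := Nu_integrable h
  have h1 := (QQ_mem h (BCh_lam hl k) hp).2.2.1
  have h2 := (QQ_mem h (BCh_lam hl j) (hq2 j hj).1).2.2.2
  have h3 : ∫ x in D p.1 p.2, nu x ≤ ∫ x in D (q j).1 (q j).2, nu x :=
    setIntegral_mono_set hi.integrableOn (ae_of_all _ h.nonneg)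
      (ae_of_all _ (D_sub (hq2 j hj).2))
  have h4 : lam * 4 ^ k / 2 ^ p.1 ≤ 2 * (lam * 4 ^ j) / 2 ^ (q j).1 := (h1.trans_le (h3.trans h2)).le
  have h5 : (4 : ℝ) ^ k = 4 ^ j * 4 ^ (k - j) := by
    rw [← pow_add]
    congr 1
    omega
  have hl0 : 0 < lam := by linarith
  have h6 : (0 : ℝ) < 4 ^ j := by positivity
  have h7 : (0 : ℝ) < 4 ^ (k - j) := by positivity
  rw [h5] at h4
  have h8 : lam * (4 ^ j * 4 ^ (k - j)) / 2 ^ p.1 =
      (lam * 4 ^ j * 4 ^ (k - j)) * (1 / 2 ^ p.1) := by ring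
  have h9 : 2 * (lam * 4 ^ j) / 2 ^ (q j).1 =
      (lam * 4 ^ j * 4 ^ (k - j)) * (2 * (1 / 4) ^ (k - j) * (1 / 2 ^ (q j).1)) := by
    rw [one_div, inv_pow]
    field_simp
  rw [h8, h9] at h4
  exact le_of_mul_le_mul_left h4 (by positivity)

/-- the counting function of the neighbourhoods -/
noncomputable def nn (S : ℕ) (nu : T → ℝ) (lam : ℝ) (K : ℕ) (x : T) : ℕ :=
  ∑ k ∈ Finset.range K, ∑ p ∈ QQ S nu (lam * 4 ^ k), (Nb p.1 p.2).indicator (fun _ => 1) x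

theorem nn_measurable (S : ℕ) (nu : T → ℝ) (lam : ℝ) (K : ℕ) : Measurable (nn S nu lam K) := by
  unfold nn
  refine Finset.measurable_fun_sum _ fun k _ => Finset.measurable_fun_sum _ fun p _ => ?_
  exact measurable_const.indicator (Nb_meas p.1 p.2)

theorem nn_bdd (S : ℕ) (nu : T → ℝ) (lam : ℝ) (K : ℕ) : ∃ B : ℕ, ∀ x, nn S nu lam K x ≤ B := by
  refine ⟨∑ k ∈ Finset.range K, ∑ _p ∈ QQ S nu (lam * 4 ^ k), 1, fun x => ?_⟩
  unfold nn
  refine Finset.sum_le_sum fun k _ => Finset.sum_le_sum fun p _ => ?_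
  by_cases hx : x ∈ Nb p.1 p.2
  · rw [Set.indicator_of_mem hx]
  · rw [Set.indicator_of_notMem hx]
    exact Nat.zero_le _

theorem nn_ge {S : ℕ} {nu : T → ℝ} {lam : ℝ} (h : Nu S nu) (hl : 3 ≤ lam) {K j : ℕ} (hj : j < K)
    {p : ℕ × ℕ} (hp : p ∈ QQ S nu (lam * 4 ^ j)) {x : T} (hx : x ∈ Nb p.1 p.2) :
    j + 1 ≤ nn S nu lam K x := by
  obtain ⟨q, -, hq⟩ := QQ_chain h hl j hp
  have h1 : ∀ i ∈ Finset.range (j + 1), 1 ≤ ∑ p ∈ QQ S nu (lam * 4 ^ i),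
      (Nb p.1 p.2).indicator (fun _ => (1 : ℕ)) x := by
    intro i hi
    have hij : i ≤ j := by
      have := Finset.mem_range.1 hi
      omega
    obtain ⟨h2, h3, -⟩ := hq i hij
    have h4 : x ∈ Nb (q i).1 (q i).2 := Nb_sub h3 hx
    have h5 := Finset.single_le_sum
      (f := fun p : ℕ × ℕ => (Nb p.1 p.2).indicator (fun _ => (1 : ℕ)) x)
      (fun p _ => Nat.zero_le _) h2
    simp only [Set.indicator_of_mem h4] at h5
    exact h5
  calc j + 1 = ∑ _i ∈ Finset.range (j + 1), 1 := by simp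
    _ ≤ ∑ i ∈ Finset.range (j + 1), ∑ p ∈ QQ S nu (lam * 4 ^ i),
        (Nb p.1 p.2).indicator (fun _ => (1 : ℕ)) x := Finset.sum_le_sum h1
    _ ≤ nn S nu lam K x := by
        unfold nn
        refine Finset.sum_le_sum_of_subset_of_nonneg ?_ fun _ _ _ => Nat.zero_le _
        intro i hi
        rw [Finset.mem_range] at hi ⊢
        omega

private theorem BCh_geom (K : ℕ) : ∑ k ∈ Finset.range K, (1 / 4 : ℝ) ^ k ≤ 4 / 3 := by
  have h1 : ∑ k ∈ Finset.range K, (1 / 4 : ℝ) ^ k ≤ ∑' k : ℕ, (1 / 4 : ℝ) ^ k :=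
    (summable_geometric_of_lt_one (by norm_num) (by norm_num)).sum_le_tsum _
      (fun _ _ => by positivity)
  rw [tsum_geometric_of_lt_one (by norm_num) (by norm_num)] at h1
  refine h1.trans ?_
  norm_num

theorem nn_int {S : ℕ} {nu : T → ℝ} {lam : ℝ} (h : Nu S nu) (hl : 3 ≤ lam) (K : ℕ) :
    ∫ x, (nn S nu lam K x : ℝ) ≤ 16 / lam := by
  have hl0 : 0 < lam := by linarith
  have e1 : ∀ x, (nn S nu lam K x : ℝ) = ∑ k ∈ Finset.range K, ∑ p ∈ QQ S nu (lam * 4 ^ k),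
      (Nb p.1 p.2).indicator (fun _ => (1 : ℝ)) x := by
    intro x
    unfold nn
    push_cast
    refine Finset.sum_congr rfl fun k _ => Finset.sum_congr rfl fun p _ => ?_
    by_cases hx : x ∈ Nb p.1 p.2
    · rw [Set.indicator_of_mem hx, Set.indicator_of_mem hx, Nat.cast_one]
    · rw [Set.indicator_of_notMem hx, Set.indicator_of_notMem hx, Nat.cast_zero]
  have e2 : ∀ p : ℕ × ℕ, Integrable ((Nb p.1 p.2).indicator (fun _ => (1 : ℝ))) volume := by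
    intro p
    exact (integrable_const (1 : ℝ)).indicator (Nb_meas p.1 p.2)
  simp_rw [e1]
  rw [integral_finsetSum _ (fun k _ => integrable_finsetSum _ fun p _ => e2 p)]
  have e3 : ∀ k ∈ Finset.range K, ∫ x, ∑ p ∈ QQ S nu (lam * 4 ^ k),
      (Nb p.1 p.2).indicator (fun _ => (1 : ℝ)) x ≤ 12 / lam * (1 / 4) ^ k := by
    intro k _
    rw [integral_finsetSum _ (fun p _ => e2 p)]
    have h1 := QQ_sum h (BCh_lam hl k)
    calc ∑ p ∈ QQ S nu (lam * 4 ^ k), ∫ x, (Nb p.1 p.2).indicator (fun _ => (1 : ℝ)) x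
        ≤ ∑ p ∈ QQ S nu (lam * 4 ^ k), 4 * (1 / 2 ^ p.1 : ℝ) := by
          refine Finset.sum_le_sum fun p _ => ?_
          rw [integral_indicator_const _ (Nb_meas p.1 p.2), smul_eq_mul, mul_one]
          refine (Nb_vol p.1 p.2).trans (le_of_eq ?_)
          ring
      _ = 4 * ∑ p ∈ QQ S nu (lam * 4 ^ k), (1 / 2 ^ p.1 : ℝ) := by rw [Finset.mul_sum]
      _ ≤ 4 * (3 / (lam * 4 ^ k)) := by linarith
      _ = 12 / lam * (1 / 4) ^ k := by
          rw [one_div, inv_pow]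
          field_simp
          norm_num
  refine (Finset.sum_le_sum e3).trans ?_
  rw [← Finset.mul_sum]
  have h2 := BCh_geom K
  have h3 : 0 < 12 / lam := by positivity
  calc 12 / lam * ∑ k ∈ Finset.range K, (1 / 4 : ℝ) ^ k ≤ 12 / lam * (4 / 3) :=
        mul_le_mul_of_nonneg_left h2 h3.le
    _ = 16 / lam := by ring

end CH.B
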