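import Pool.Agent.CH.BFam

/-! # CH-BSem: the seminorms `N` and `D`
* `NB_Fam`: sum of the defining inequality over the family (`cost`, `integral_finsetSum`), a.e. equality.
* `NB_of_Fam`: `Fam_one`, scaling (`g` with `int |g| = 0` is a.e. zero, so `Pp g = 0` a.e.).
* `NB_An` (0.2): for `l` analytic in `L2`: `int v conj (s_M l)`, `s_M l` is bounded and `P_+ (s_M l) = s_M l` a.e. (`Pp_of_An`), so
  `|int v conj (s_M l)| <= k int |s_M l| <= k int |l|` (m = 0); `M -> oo` (`sM_tendsto`, Cauchy-Schwarz).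
* `NB_sM`: `sM_adj_conj` and `Fam_sM`. `DB_sM`: `sM_adj`, `sM_An0`, `int_norm_sM_le`. `DB_of_bdd`: `|int v b| <= A int |b|`.
* `NB_add`, `DB_add`, ...: triangle inequality. -/

open MeasureTheory Complex Filter Topology
open scoped ComplexConjugate

namespace CH.B

theorem NB_Fam {v h : T → ℂ} {k c : ℝ} (hv : L2 v) (hk : 0 ≤ k) (hN : NB v k) (h1 : Fam c h) :
    ‖∫ x, v x * conj (h x)‖ ≤ k * c := by
  obtain ⟨ι, _, m, g, hg, hc, he⟩ := h1
  have e1 : ∫ x, v x * conj (h x) = ∑ i, ∫ x, v x * conj (e (m i : ℤ) x * Pp (g i) x) := by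
    rw [← integral_finsetSum _ (fun i _ => hv.integrable_mul_conj (L2_e_mul (Pp_L2 (g i)) _))]
    refine integral_congr_ae ?_
    filter_upwards [he] with x hx
    rw [hx]
    unfold hf
    rw [map_sum, Finset.mul_sum]
  have e2 : cost g = ∑ i, ∫ x, ‖g i x‖ := by
    unfold cost
    exact integral_finsetSum _ fun i _ => (hg i).L2.integrable.norm
  rw [e1]
  calc ‖∑ i, ∫ x, v x * conj (e (m i : ℤ) x * Pp (g i) x)‖
      ≤ ∑ i, ‖∫ x, v x * conj (e (m i : ℤ) x * Pp (g i) x)‖ := norm_sum_le _ _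
    _ ≤ ∑ i, k * ∫ x, ‖g i x‖ := Finset.sum_le_sum fun i _ => hN (m i) (g i) (hg i)
    _ = k * cost g := by rw [e2, Finset.mul_sum]
    _ ≤ k * c := mul_le_mul_of_nonneg_left hc hk

theorem NB_of_Fam {v : T → ℂ} {k : ℝ} (hv : L2 v)
    (h : ∀ h : T → ℂ, Fam 1 h → ‖∫ x, v x * conj (h x)‖ ≤ k) : NB v k := by
  intro m g hg
  have hF := Fam_one m hg
  set a : ℝ := ∫ x, ‖g x‖ with ha
  have ha0 : 0 ≤ a := integral_nonneg fun _ => norm_nonneg _
  rcases eq_or_lt_of_le ha0 with h0 | hpos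
  · rw [← h0] at hF
    have hz := Fam_eq_zero hF
    have e1 : ∫ x, v x * conj (e (m : ℤ) x * Pp g x) = 0 := by
      rw [← integral_zero T ℂ]
      refine integral_congr_ae ?_
      filter_upwards [hz] with x hx
      rw [hx]
      simp
    rw [e1, ← h0]
    simp
  · have hF1 := Fam_smul ((a⁻¹ : ℝ) : ℂ) hF
    have e2 : ‖((a⁻¹ : ℝ) : ℂ)‖ * a = 1 := by
      rw [Complex.norm_real, Real.norm_eq_abs, abs_of_pos (inv_pos.2 hpos)]
      exact inv_mul_cancel₀ hpos.ne'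
    rw [e2] at hF1
    have h2 := h _ hF1
    have e3 : ∫ x, v x * conj (((a⁻¹ : ℝ) : ℂ) * (e (m : ℤ) x * Pp g x))
        = ((a⁻¹ : ℝ) : ℂ) * ∫ x, v x * conj (e (m : ℤ) x * Pp g x) := by
      rw [← integral_const_mul]
      congr 1
      ext x
      rw [map_mul, Complex.conj_ofReal]
      ring
    rw [e3, norm_mul, Complex.norm_real, Real.norm_eq_abs, abs_of_pos (inv_pos.2 hpos)] at h2
    have h3 := mul_le_mul_of_nonneg_left h2 ha0
    rw [← mul_assoc, mul_inv_cancel₀ hpos.ne', one_mul] at h3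
    linarith [mul_comm a k]

private theorem BSem_lim {v l : T → ℂ} (hv : L2 v) (hl : L2 l) :
    Tendsto (fun M : ℕ => ‖∫ x, v x * conj (sM M l x)‖) atTop
      (𝓝 ‖∫ x, v x * conj (l x)‖) := by
  refine Tendsto.norm ?_
  rw [tendsto_iff_norm_sub_tendsto_zero]
  have h1 : Tendsto (fun M : ℕ => Real.sqrt (∫ x, ‖v x‖ ^ 2) *
      Real.sqrt (∫ x, ‖l x - sM M l x‖ ^ 2)) atTop (𝓝 0) := by
    have h2 := (Real.continuous_sqrt.tendsto 0).comp (sM_tendsto hl)
    have h3 := h2.const_mul (Real.sqrt (∫ x, ‖v x‖ ^ 2))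
    simpa using h3
  refine squeeze_zero (fun _ => norm_nonneg _) (fun M => ?_) h1
  have e1 : (∫ x, v x * conj (sM M l x)) - ∫ x, v x * conj (l x)
      = - ∫ x, v x * conj (l x - sM M l x) := by
    rw [← integral_sub (hv.integrable_mul_conj (sM_BM M l).L2) (hv.integrable_mul_conj hl),
      ← integral_neg]
    congr 1
    ext x
    rw [map_sub]
    ring
  rw [e1, norm_neg]
  exact norm_integral_mul_conj_le hv (hl.sub (sM_BM M l).L2)

theorem NB_An {v l : T → ℂ} {k : ℝ} (hv : L2 v) (hk : 0 ≤ k) (hN : NB v k) (hl : An l) :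
    ‖∫ x, v x * conj (l x)‖ ≤ k * ∫ x, ‖l x‖ := by
  refine le_of_tendsto (BSem_lim hv hl.1) (Eventually.of_forall fun M => ?_)
  have h1 := hN 0 (sM M l) (sM_BM M l)
  have e1 : ∫ x, v x * conj (e ((0 : ℕ) : ℤ) x * Pp (sM M l) x)
      = ∫ x, v x * conj (sM M l x) := by
    refine integral_congr_ae ?_
    filter_upwards [Pp_of_An (sM_An M hl)] with x hx
    rw [hx, Nat.cast_zero, e_zero, one_mul]
  rw [e1] at h1
  exact h1.trans (mul_le_mul_of_nonneg_left (int_norm_sM_le M hl.1.integrable) hk)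

theorem NB_mono {v : T → ℂ} {k k' : ℝ} (h : NB v k) (hk : k ≤ k') : NB v k' := by
  intro m g hg
  exact (h m g hg).trans (mul_le_mul_of_nonneg_right hk (integral_nonneg fun _ => norm_nonneg _))

theorem NB_congr {v w : T → ℂ} {k : ℝ} (h : NB v k) (he : v =ᵐ[volume] w) : NB w k := by
  intro m g hg
  have e1 : ∫ x, w x * conj (e (m : ℤ) x * Pp g x) = ∫ x, v x * conj (e (m : ℤ) x * Pp g x) := by
    refine integral_congr_ae ?_
    filter_upwards [he] with x hx
    rw [hx]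
  rw [e1]
  exact h m g hg

theorem NB_add {v w : T → ℂ} {k k' : ℝ} (hv : L2 v) (hw : L2 w) (h : NB v k) (h' : NB w k') :
    NB (fun x => v x + w x) (k + k') := by
  intro m g hg
  have e1 : ∫ x, (v x + w x) * conj (e (m : ℤ) x * Pp g x)
      = (∫ x, v x * conj (e (m : ℤ) x * Pp g x)) + ∫ x, w x * conj (e (m : ℤ) x * Pp g x) := by
    rw [← integral_add (hv.integrable_mul_conj (L2_e_mul (Pp_L2 g) _))
      (hw.integrable_mul_conj (L2_e_mul (Pp_L2 g) _))]
    congr 1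
    ext x
    ring
  rw [e1, add_mul]
  exact (norm_add_le _ _).trans (add_le_add (h m g hg) (h' m g hg))

theorem NB_neg {v : T → ℂ} {k : ℝ} (h : NB v k) : NB (fun x => - v x) k := by
  intro m g hg
  have e1 : ∫ x, - v x * conj (e (m : ℤ) x * Pp g x)
      = - ∫ x, v x * conj (e (m : ℤ) x * Pp g x) := by
    rw [← integral_neg]
    congr 1
    ext x
    ring
  rw [e1, norm_neg]
  exact h m g hg

theorem NB_sM (M : ℕ) {v : T → ℂ} {k : ℝ} (hv : L2 v) (hk : 0 ≤ k) (h : NB v k) :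
    NB (sM M v) k := by
  intro m g hg
  rw [sM_adj_conj M hv (L2_e_mul (Pp_L2 g) _)]
  exact NB_Fam hv hk h (Fam_sM M (Fam_one m hg))

theorem DB_mono {v : T → ℂ} {k k' : ℝ} (h : DB v k) (hk : k ≤ k') : DB v k' := by
  intro b hb
  exact (h b hb).trans (mul_le_mul_of_nonneg_right hk (integral_nonneg fun _ => norm_nonneg _))

theorem DB_congr {v w : T → ℂ} {k : ℝ} (h : DB v k) (he : v =ᵐ[volume] w) : DB w k := by
  intro b hb
  have e1 : ∫ x, w x * b x = ∫ x, v x * b x := by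
    refine integral_congr_ae ?_
    filter_upwards [he] with x hx
    rw [hx]
  rw [e1]
  exact h b hb

theorem DB_add {v w : T → ℂ} {k k' : ℝ} (hv : L2 v) (hw : L2 w) (h : DB v k) (h' : DB w k') :
    DB (fun x => v x + w x) (k + k') := by
  intro b hb
  have e1 : ∫ x, (v x + w x) * b x = (∫ x, v x * b x) + ∫ x, w x * b x := by
    rw [← integral_add (hv.integrable_mul hb.1) (hw.integrable_mul hb.1)]
    congr 1
    ext x
    ring
  rw [e1, add_mul]
  exact (norm_add_le _ _).trans (add_le_add (h b hb) (h' b hb))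

theorem DB_neg {v : T → ℂ} {k : ℝ} (h : DB v k) : DB (fun x => - v x) k := by
  intro b hb
  have e1 : ∫ x, - v x * b x = - ∫ x, v x * b x := by
    rw [← integral_neg]
    congr 1
    ext x
    ring
  rw [e1, norm_neg]
  exact h b hb

theorem DB_sM (M : ℕ) {v : T → ℂ} {k : ℝ} (hv : L2 v) (hk : 0 ≤ k) (h : DB v k) :
    DB (sM M v) k := by
  intro b hb
  rw [sM_adj M hv hb.1]
  exact (h _ (sM_An0 M hb)).trans
    (mul_le_mul_of_nonneg_left (int_norm_sM_le M hb.1.integrable) hk)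

theorem DB_of_bdd {v : T → ℂ} {A : ℝ} (hv : L2 v) (h : ∀ x, ‖v x‖ ≤ A) : DB v A := by
  intro b hb
  refine (norm_integral_le_integral_norm _).trans ?_
  rw [← integral_const_mul]
  refine integral_mono (hv.integrable_mul hb.1).norm (hb.1.integrable.norm.const_mul _) fun x => ?_
  simp only [norm_mul]
  exact mul_le_mul_of_nonneg_right (h x) (norm_nonneg _)

theorem DB_of_unit {v : T → ℂ} {k : ℝ} (hv : L2 v)
    (h : ∀ b : T → ℂ, An0 b → ∫ x, ‖b x‖ ≤ 1 → ‖∫ x, v x * b x‖ ≤ k) : DB v k := by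
  intro b hb
  set a : ℝ := ∫ x, ‖b x‖ with ha
  have ha0 : 0 ≤ a := integral_nonneg fun _ => norm_nonneg _
  rcases eq_or_lt_of_le ha0 with h0 | hpos
  · have hz : (fun x => ‖b x‖) =ᵐ[volume] 0 :=
      (integral_eq_zero_iff_of_nonneg (fun _ => norm_nonneg _) hb.1.integrable.norm).1 h0.symm
    have e1 : ∫ x, v x * b x = 0 := by
      rw [← integral_zero T ℂ]
      refine integral_congr_ae ?_
      filter_upwards [hz] with x hx
      have : b x = 0 := norm_eq_zero.1 hx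
      rw [this, mul_zero]
    rw [e1, ← h0]
    simp
  · have hb1 : An0 (fun x => ((a⁻¹ : ℝ) : ℂ) * b x) := by
      refine ⟨hb.1.const_mul _, fun n hn => ?_⟩
      rw [cf_const_mul, hb.2 n hn, mul_zero]
    have e0 : ∫ x, ‖((a⁻¹ : ℝ) : ℂ) * b x‖ = 1 := by
      have : ∀ x, ‖((a⁻¹ : ℝ) : ℂ) * b x‖ = a⁻¹ * ‖b x‖ := fun x => by
        rw [norm_mul, Complex.norm_real, Real.norm_eq_abs, abs_of_pos (inv_pos.2 hpos)]
      simp_rw [this]
      rw [integral_const_mul]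
      exact inv_mul_cancel₀ hpos.ne'
    have h2 := h _ hb1 e0.le
    have e3 : ∫ x, v x * (((a⁻¹ : ℝ) : ℂ) * b x) = ((a⁻¹ : ℝ) : ℂ) * ∫ x, v x * b x := by
      rw [← integral_const_mul]
      congr 1
      ext x
      ring
    rw [e3, norm_mul, Complex.norm_real, Real.norm_eq_abs, abs_of_pos (inv_pos.2 hpos)] at h2
    have h3 := mul_le_mul_of_nonneg_left h2 ha0
    rw [← mul_assoc, mul_inv_cancel₀ hpos.ne', one_mul] at h3
    linarith [mul_comm a k]

private theorem BSem_pair {v f : T → ℂ} (hv : L2 v) (hf : L2 f)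
    (h : ∀ n, cf v n * conj (cf f n) = cf f n * conj (cf f n)) :
    ∫ x, v x * conj (f x) = ((∫ x, ‖f x‖ ^ 2 : ℝ) : ℂ) := by
  have h1 := parseval hv hf
  simp_rw [h] at h1
  have h2 := h1.unique (parseval hf hf)
  rw [h2, ← integral_complex_ofReal]
  congr 1
  ext x
  rw [Complex.mul_conj, Complex.normSq_eq_norm_sq]

private theorem BSem_real {P k : ℝ} (hP : 0 ≤ P) (hk : 0 ≤ k) (h : P ≤ k * Real.sqrt P) :
    P ≤ k ^ 2 := by
  have h1 := Real.sq_sqrt hP
  rcases eq_or_lt_of_le (Real.sqrt_nonneg P) with h0 | hpos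
  · rw [← h0] at h1
    nlinarith [sq_nonneg k]
  · have h2 : Real.sqrt P * Real.sqrt P ≤ k * Real.sqrt P := by
      nlinarith
    have h3 : Real.sqrt P ≤ k := le_of_mul_le_mul_right h2 hpos
    nlinarith

/-- `N` and `D` control the two halves of `v` in `L2` -/
theorem L2_le_NB_DB {v : T → ℂ} {k k' : ℝ} (hv : L2 v) (hk : 0 ≤ k) (hk' : 0 ≤ k') (h : NB v k)
    (h' : DB v k') : ∫ x, ‖v x‖ ^ 2 ≤ k ^ 2 + k' ^ 2 := by
  set w : T → ℂ := fun x => v x - Pp v x with hw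
  have hwL : L2 w := hv.sub (Pp_L2 v)
  have hcw : ∀ n, cf w n = if 0 ≤ n then 0 else cf v n := by
    intro n
    rw [hw, cf_sub hv.integrable (Pp_L2 v).integrable, cf_Pp hv]
    split_ifs <;> simp
  have hcP : ∀ n, cf (Pp v) n = if 0 ≤ n then cf v n else 0 := cf_Pp hv
  have pyth : ∫ x, ‖v x‖ ^ 2 = (∫ x, ‖Pp v x‖ ^ 2) + ∫ x, ‖w x‖ ^ 2 := by
    have h1 := (parseval_sq (Pp_L2 v)).add (parseval_sq hwL)
    refine (parseval_sq hv).unique ?_
    convert h1 using 2 with n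
    rw [hcw, hcP]
    split_ifs <;> simp
  have i1 : ∫ x, v x * conj (Pp v x) = ((∫ x, ‖Pp v x‖ ^ 2 : ℝ) : ℂ) := by
    refine BSem_pair hv (Pp_L2 v) fun n => ?_
    rw [hcP]
    split_ifs <;> simp
  have i2 : ∫ x, v x * conj (w x) = ((∫ x, ‖w x‖ ^ 2 : ℝ) : ℂ) := by
    refine BSem_pair hv hwL fun n => ?_
    rw [hcw]
    split_ifs <;> simp
  have p0 : 0 ≤ ∫ x, ‖Pp v x‖ ^ 2 := integral_nonneg fun _ => by positivity
  have w0 : 0 ≤ ∫ x, ‖w x‖ ^ 2 := integral_nonneg fun _ => by positivity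
  have j1 : ∫ x, ‖Pp v x‖ ^ 2 ≤ k ^ 2 := by
    have h1 := NB_An hv hk h (An_Pp hv)
    rw [i1, Complex.norm_real, Real.norm_eq_abs, abs_of_nonneg p0] at h1
    exact BSem_real p0 hk (h1.trans (mul_le_mul_of_nonneg_left (int_norm_le (Pp_L2 v)) hk))
  have j2 : ∫ x, ‖w x‖ ^ 2 ≤ k' ^ 2 := by
    have hb : An0 (fun x => conj (w x)) := by
      refine ⟨hwL.conj, fun n hn => ?_⟩
      rw [cf_conj, hcw, if_pos (by omega), map_zero]
    have h1 := h' _ hb
    rw [i2, Complex.norm_real, Real.norm_eq_abs, abs_of_nonneg w0] at h1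
    have e1 : ∫ x, ‖conj (w x)‖ = ∫ x, ‖w x‖ := by
      congr 1
      ext x
      exact Complex.norm_conj _
    rw [e1] at h1
    exact BSem_real w0 hk' (h1.trans (mul_le_mul_of_nonneg_left (int_norm_le hwL) hk'))
  rw [pyth]
  exact add_le_add j1 j2

end CH.B
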