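import Pool.Agent.CH.BMul
import Pool.Agent.CH.BSem

/-! # CH-BCoA: estimates (b), (v), (i), (ii) of the core lemma (B6)
Notation `dl q = (int |1-q|^2)^(1/2)`; `int |1-q| <= dl q` (`int_norm_le`).
* `core_b`: split into `B <= L` (`|q1| B <= L`), `L < B <= L'` (`|q2-1||q1| <= 2`), `B > L'` (`|q2-1| <= 2`, `|q1| B <= kap L'`, volume `<= 3/L'` by Markov).
* `core_v`: `q1 conj q2 - 1 = (q1 - 1) conj q2 + (conj q2 - 1)`.
* `core_i`: `v = f - sM M f`, `f' - f = f (q1 conj q2 - 1)`.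
  `int (f'-f) conj h = int (f'-f) conj (h-hs)` [`<= 2 A tau`] `+ int f (q1-1) conj (q2 hs)` [`<= A lam^3 dl q1`] `+ int sM M f conj ((q2-1) hs)`
  [`pair_conj`, `coef_q1` with `|cf hs i| <= |cf h i| + tau <= 2` (`Fam_cf`): `<= (M+1) A (M+1) dl q2 * 2`] `+ int v conj (q2 hs)` [`<= C1 eps`]
  `- int v conj h` [`NB_Fam`: `<= eps`] `- int v conj (hs - h)` [`|v| <= 2A`: `<= 2 A tau`].
* `core_ii`: `int (f'-f) b = int f (conj q2 - 1) q1 b` [`<= A beta`] `+ int sM M f (q1 - 1) b` [`pair_An0`, `coef_q1` with `|cf b i| <= int |b| <= 1`]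
  `+ int v (q1 b)` [`An0_mul`, `<= eps`] `- int v b` [`<= eps`]. -/

open MeasureTheory Complex
open scoped ComplexConjugate

namespace CH.B

/-- measurable analytic multipliers of norm `<= 1` -/
structure Mu (q : T → ℂ) : Prop where
  m : Measurable q
  le : ∀ x, ‖q x‖ ≤ 1
  an : An q

/-- `|| 1 - q ||_2` -/
noncomputable def dl (q : T → ℂ) : ℝ := Real.sqrt (∫ x, ‖1 - q x‖ ^ 2)

theorem dl_nonneg (q : T → ℂ) : 0 ≤ dl q := Real.sqrt_nonneg _

private theorem BCoA_L2_one : L2 (fun _ : T => (1 : ℂ)) := memLp_const 1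

private theorem BCoA_L2 {q : T → ℂ} (hq : Mu q) : L2 q := hq.an.1

private theorem BCoA_L2_sub {q : T → ℂ} (hq : Mu q) : L2 (fun x => 1 - q x) :=
  BCoA_L2_one.sub hq.an.1

private theorem BCoA_ns (z : ℂ) : ‖z - 1‖ = ‖1 - z‖ := norm_sub_rev _ _

private theorem BCoA_le2 {q : T → ℂ} (hq : Mu q) (x : T) : ‖q x - 1‖ ≤ 2 := by
  refine (norm_sub_le _ _).trans ?_
  rw [norm_one]
  linarith [hq.le x]

private theorem BCoA_cc (z : ℂ) : ‖conj z - 1‖ = ‖z - 1‖ := by
  have : conj z - 1 = conj (z - 1) := by simp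
  rw [this, RCLike.norm_conj]

private theorem BCoA_norm_le {F : T → ℂ} {G : T → ℝ} (hG : Integrable G) (h : ∀ x, ‖F x‖ ≤ G x) :
    ‖∫ x, F x‖ ≤ ∫ x, G x :=
  norm_integral_le_of_norm_le hG (ae_of_all _ h)

private theorem BCoA_dec4 {F F1 F2 F3 F4 : T → ℂ} (h1 : Integrable F1) (h2 : Integrable F2)
    (h3 : Integrable F3) (h4 : Integrable F4) (h : ∀ x, F x = F1 x + F2 x + F3 x - F4 x) :
    ∫ x, F x = (∫ x, F1 x) + (∫ x, F2 x) + (∫ x, F3 x) - ∫ x, F4 x := by
  have e1 : ∫ x, F x = ∫ x, (F1 x + F2 x + F3 x - F4 x) := by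
    congr 1; ext x; exact h x
  have e2 := integral_sub (μ := (volume : Measure T)) (f := fun x => F1 x + F2 x + F3 x) (g := F4)
    ((h1.add h2).add h3) h4
  have e3 := integral_add (μ := (volume : Measure T)) (f := fun x => F1 x + F2 x) (g := F3)
    (h1.add h2) h3
  have e4 := integral_add (μ := (volume : Measure T)) (f := F1) (g := F2) h1 h2
  rw [e1, e2, e3, e4]

private theorem BCoA_dec6 {F F1 F2 F3 F4 F5 F6 : T → ℂ} (h1 : Integrable F1) (h2 : Integrable F2)
    (h3 : Integrable F3) (h4 : Integrable F4) (h5 : Integrable F5) (h6 : Integrable F6)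
    (h : ∀ x, F x = F1 x + F2 x + F3 x + F4 x - F5 x + F6 x) :
    ∫ x, F x = (∫ x, F1 x) + (∫ x, F2 x) + (∫ x, F3 x) + (∫ x, F4 x) - (∫ x, F5 x) +
      ∫ x, F6 x := by
  have e1 : ∫ x, F x = ∫ x, (F1 x + F2 x + F3 x + F4 x - F5 x + F6 x) := by
    congr 1; ext x; exact h x
  have e2 := integral_add (μ := (volume : Measure T))
    (f := fun x => F1 x + F2 x + F3 x + F4 x - F5 x) (g := F6)
    ((((h1.add h2).add h3).add h4).sub h5) h6
  have e3 := integral_sub (μ := (volume : Measure T))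
    (f := fun x => F1 x + F2 x + F3 x + F4 x) (g := F5) (((h1.add h2).add h3).add h4) h5
  have e4 := integral_add (μ := (volume : Measure T)) (f := fun x => F1 x + F2 x + F3 x) (g := F4)
    ((h1.add h2).add h3) h4
  have e5 := integral_add (μ := (volume : Measure T)) (f := fun x => F1 x + F2 x) (g := F3)
    (h1.add h2) h3
  have e6 := integral_add (μ := (volume : Measure T)) (f := F1) (g := F2) h1 h2
  rw [e1, e2, e3, e4, e5, e6]

theorem int_dl {q : T → ℂ} (hq : Mu q) : ∫ x, ‖1 - q x‖ ≤ dl q :=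
  int_norm_le (BCoA_L2_sub hq)

theorem core_b {B : T → ℝ} (hm : Measurable B) (h2 : L2 (fun x => (B x : ℂ)))
    (h0 : ∀ x, 0 ≤ B x) (h3 : ∫ x, B x ≤ 3) {q1 q2 : T → ℂ} (hq1 : Mu q1) (hq2 : Mu q2)
    {L L' K kap : ℝ} (hL : 0 ≤ L) (hL' : 0 < L')
    (hp : ∫ x in {x | L < B x ∧ B x ≤ L'}, B x ≤ 3 / K) (hk : 0 ≤ kap)
    (hq : ∀ x, L' < B x → ‖q1 x‖ * B x ≤ kap * L') :
    ∫ x, ‖q2 x - 1‖ * (‖q1 x‖ * B x) ≤ L * dl q2 + 6 / K + 6 * kap := by
  have hBi : Integrable B := by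
    have h := h2.integrable.norm
    refine h.congr (ae_of_all _ fun x => ?_)
    show ‖(B x : ℂ)‖ = B x
    rw [Complex.norm_real, Real.norm_eq_abs, abs_of_nonneg (h0 x)]
  set S2 : Set T := {x | L < B x ∧ B x ≤ L'} with hS2
  set S3 : Set T := {x | L' < B x} with hS3
  have mS2 : MeasurableSet S2 :=
    (measurableSet_lt measurable_const hm).inter (measurableSet_le hm measurable_const)
  have mS3 : MeasurableSet S3 := measurableSet_lt measurable_const hm
  have i1 : Integrable (fun x => L * ‖1 - q2 x‖) :=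
    (BCoA_L2_sub hq2).integrable.norm.const_mul L
  have i2 : Integrable (fun x => 2 * S2.indicator B x) :=
    (hBi.indicator mS2).const_mul 2
  have i3 : Integrable (fun x => (2 * kap) * S3.indicator (fun _ => L') x) :=
    ((integrable_const L').indicator mS3).const_mul (2 * kap)
  have hpt : ∀ x, ‖q2 x - 1‖ * (‖q1 x‖ * B x) ≤
      L * ‖1 - q2 x‖ + 2 * S2.indicator B x + (2 * kap) * S3.indicator (fun _ => L') x := by
    intro x
    have hq1x := hq1.le x
    have hq2x := BCoA_le2 hq2 x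
    have hB := h0 x
    have hn := norm_nonneg (q2 x - 1)
    have hn1 := norm_nonneg (q1 x)
    have hn2 := norm_nonneg (1 - q2 x)
    have e1 : ‖q1 x‖ * B x ≤ B x := by nlinarith
    by_cases hx3 : L' < B x
    · have hs3 : x ∈ S3 := hx3
      have hs2 : x ∉ S2 := fun h => absurd h.2 (not_le.2 hx3)
      rw [Set.indicator_of_mem hs3, Set.indicator_of_notMem hs2]
      have := hq x hx3
      have e2 : 0 ≤ ‖q1 x‖ * B x := mul_nonneg hn1 hB
      have e3 : ‖q2 x - 1‖ * (‖q1 x‖ * B x) ≤ 2 * (kap * L') :=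
        mul_le_mul hq2x this e2 (by norm_num)
      have e4 : 0 ≤ L * ‖1 - q2 x‖ := mul_nonneg hL hn2
      linarith
    · by_cases hx2 : L < B x
      · have hs3 : x ∉ S3 := hx3
        have hs2 : x ∈ S2 := ⟨hx2, not_lt.1 hx3⟩
        rw [Set.indicator_of_mem hs2, Set.indicator_of_notMem hs3]
        have e2 : 0 ≤ ‖q1 x‖ * B x := mul_nonneg hn1 hB
        have e3 : ‖q2 x - 1‖ * (‖q1 x‖ * B x) ≤ 2 * B x :=
          mul_le_mul hq2x e1 e2 (by norm_num)
        have e4 : 0 ≤ L * ‖1 - q2 x‖ := mul_nonneg hL hn2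
        linarith
      · have hs3 : x ∉ S3 := hx3
        have hs2 : x ∉ S2 := fun h => hx2 h.1
        rw [Set.indicator_of_notMem hs2, Set.indicator_of_notMem hs3, BCoA_ns]
        have e2 : 0 ≤ ‖q1 x‖ * B x := mul_nonneg hn1 hB
        have e3 : ‖1 - q2 x‖ * (‖q1 x‖ * B x) ≤ ‖1 - q2 x‖ * L :=
          mul_le_mul_of_nonneg_left (e1.trans (not_lt.1 hx2)) hn2
        linarith
  have hvol : L' * (volume S3).toReal ≤ 3 := by
    have e1 : ∫ x in S3, L' ≤ ∫ x in S3, B x := by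
      refine setIntegral_mono_on ?_ hBi.integrableOn mS3 ?_
      · exact integrable_const _
      · intro x hx
        exact le_of_lt hx
    have e2 : ∫ x in S3, B x ≤ ∫ x, B x := setIntegral_le_integral hBi (ae_of_all _ h0)
    have e3 : ∫ x in S3, L' = L' * (volume S3).toReal := by
      rw [setIntegral_const, smul_eq_mul, mul_comm]
      rfl
    linarith
  have j2 : ∫ x, 2 * S2.indicator B x ≤ 2 * (3 / K) := by
    rw [integral_const_mul, integral_indicator mS2]
    linarith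
  have j3 : ∫ x, (2 * kap) * S3.indicator (fun _ => L') x ≤ 6 * kap := by
    rw [integral_const_mul, integral_indicator mS3, setIntegral_const, smul_eq_mul]
    have : (volume.real S3) * L' ≤ 3 := by
      rw [mul_comm]
      exact hvol
    nlinarith
  have j1 : ∫ x, L * ‖1 - q2 x‖ ≤ L * dl q2 := by
    rw [integral_const_mul]
    exact mul_le_mul_of_nonneg_left (int_dl hq2) hL
  have hFi : Integrable (fun x => ‖q2 x - 1‖ * (‖q1 x‖ * B x)) := by
    refine Integrable.mono' (hBi.const_mul 2) ?_ (ae_of_all _ fun x => ?_)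
    · exact ((hq2.m.sub_const 1).norm.mul (hq1.m.norm.mul hm)).aestronglyMeasurable
    · have e2 : 0 ≤ ‖q1 x‖ * B x := mul_nonneg (norm_nonneg _) (h0 x)
      rw [Real.norm_eq_abs, abs_of_nonneg (mul_nonneg (norm_nonneg _) e2)]
      have e1 : ‖q1 x‖ * B x ≤ B x := by nlinarith [hq1.le x, h0 x]
      exact mul_le_mul (BCoA_le2 hq2 x) e1 e2 (by norm_num)
  calc ∫ x, ‖q2 x - 1‖ * (‖q1 x‖ * B x)
      ≤ ∫ x, (L * ‖1 - q2 x‖ + 2 * S2.indicator B x + (2 * kap) * S3.indicator (fun _ => L') x) :=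
        integral_mono hFi ((i1.add i2).add i3) hpt
    _ = (∫ x, L * ‖1 - q2 x‖) + (∫ x, 2 * S2.indicator B x) +
          ∫ x, (2 * kap) * S3.indicator (fun _ => L') x := by
        have e1 := integral_add (μ := (volume : Measure T))
          (f := fun x => L * ‖1 - q2 x‖ + 2 * S2.indicator B x)
          (g := fun x => (2 * kap) * S3.indicator (fun _ => L') x) (i1.add i2) i3
        have e2 := integral_add (μ := (volume : Measure T))
          (f := fun x => L * ‖1 - q2 x‖) (g := fun x => 2 * S2.indicator B x) i1 i2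
        rw [e1, e2]
    _ ≤ L * dl q2 + 2 * (3 / K) + 6 * kap := by linarith
    _ = L * dl q2 + 6 / K + 6 * kap := by ring

theorem core_v {f : T → ℂ} {A : ℝ} (hf : BM f) (hA : ∀ x, ‖f x‖ ≤ A) {q1 q2 : T → ℂ} (hq1 : Mu q1)
    (hq2 : Mu q2) : ‖∫ x, (f x * q1 x * conj (q2 x) - f x)‖ ≤ A * (dl q1 + dl q2) := by
  have hA0 : 0 ≤ A := (norm_nonneg _).trans (hA 0)
  have i1 := (BCoA_L2_sub hq1).integrable.norm
  have i2 := (BCoA_L2_sub hq2).integrable.norm
  have key := BCoA_norm_le (F := fun x => f x * q1 x * conj (q2 x) - f x)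
    (G := fun x => A * (‖1 - q1 x‖ + ‖1 - q2 x‖)) ((i1.add i2).const_mul A) (fun x => by
      have e : f x * q1 x * conj (q2 x) - f x =
          f x * ((q1 x - 1) * conj (q2 x) + (conj (q2 x) - 1)) := by ring
      rw [e, norm_mul]
      refine mul_le_mul (hA x) ?_ (norm_nonneg _) hA0
      refine (norm_add_le _ _).trans ?_
      rw [norm_mul, RCLike.norm_conj, BCoA_cc, BCoA_ns, BCoA_ns]
      have := hq2.le x
      have h1 := norm_nonneg (1 - q1 x)
      nlinarith)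
  refine key.trans ?_
  have e1 := integral_add (μ := (volume : Measure T)) (f := fun x => ‖1 - q1 x‖)
    (g := fun x => ‖1 - q2 x‖) i1 i2
  rw [integral_const_mul, e1]
  exact mul_le_mul_of_nonneg_left (add_le_add (int_dl hq1) (int_dl hq2)) hA0

theorem core_i {f : T → ℂ} {A : ℝ} (hf : BM f) (hA : ∀ x, ‖f x‖ ≤ A) {q1 q2 : T → ℂ} (hq1 : Mu q1)
    (hq2 : Mu q2) {M : ℕ} {eps C1 tau lam : ℝ} (he : 0 ≤ eps)
    (hN : NB (fun x => f x - sM M f x) eps) {h hs : T → ℂ} (hh : Fam 1 h) (hhs : An hs)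
    (ht : Real.sqrt (∫ x, ‖h x - hs x‖ ^ 2) ≤ tau) (ht1 : tau ≤ 1) (hl : 0 ≤ lam)
    (hq : ∀ x, ‖q2 x * hs x‖ ≤ lam ^ 3)
    (hv : ∀ (v : T → ℂ) (c : ℝ), BM v → 0 ≤ c → NB v c → ‖∫ x, v x * conj (q2 x * hs x)‖ ≤ C1 * c) :
    ‖∫ x, (f x * q1 x * conj (q2 x) - f x) * conj (h x)‖ ≤
      (C1 + 1) * eps + A * lam ^ 3 * dl q1 + 2 * A * (M + 1) ^ 2 * dl q2 + 4 * A * tau := by
  have hA0 : 0 ≤ A := (norm_nonneg _).trans (hA 0)
  have hfL := hf.L2
  have hhL := Fam_L2 hh
  have hd : L2 (fun x => h x - hs x) := hhL.sub hhs.1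
  have hsM := sM_BM M f
  have hvB : BM (fun x => f x - sM M f x) := by
    obtain ⟨mf, B1, hB1⟩ := hf
    obtain ⟨ms, B2, hB2⟩ := hsM
    exact ⟨mf.sub ms, B1 + B2, fun x => (norm_sub_le _ _).trans (add_le_add (hB1 x) (hB2 x))⟩
  have hvA : ∀ x, ‖f x - sM M f x‖ ≤ 2 * A := fun x => by
    refine (norm_sub_le _ _).trans ?_
    have := norm_sM_le M hfL.integrable A (ae_of_all _ hA) x
    linarith [hA x]
  have hdt : ∫ x, ‖h x - hs x‖ ≤ tau := (int_norm_le hd).trans ht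
  -- bounded function against the difference
  have hbd : ∀ (u : T → ℂ), (∀ x, ‖u x‖ ≤ 2 * A) →
      ‖∫ x, u x * conj (h x - hs x)‖ ≤ 2 * A * tau := by
    intro u hu
    have key := BCoA_norm_le (F := fun x => u x * conj (h x - hs x))
      (G := fun x => 2 * A * ‖h x - hs x‖) (hd.integrable.norm.const_mul (2 * A)) (fun x => by
        rw [norm_mul, RCLike.norm_conj]
        exact mul_le_mul_of_nonneg_right (hu x) (norm_nonneg _))
    refine key.trans ?_
    rw [integral_const_mul]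
    exact mul_le_mul_of_nonneg_left hdt (by linarith)
  have mg : Measurable (fun x => f x * q1 x * conj (q2 x) - f x) :=
    ((hf.1.mul hq1.m).mul (Complex.continuous_conj.measurable.comp hq2.m)).sub hf.1
  have hgA : ∀ x, ‖f x * q1 x * conj (q2 x) - f x‖ ≤ 2 * A := fun x => by
    refine (norm_sub_le _ _).trans ?_
    have e1 : ‖f x * q1 x * conj (q2 x)‖ ≤ A := by
      rw [norm_mul, norm_mul, RCLike.norm_conj]
      have h1 := hA x
      have h2 := hq1.le x
      have h3 := hq2.le x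
      have n1 := norm_nonneg (f x)
      have n2 := norm_nonneg (q1 x)
      have n3 := norm_nonneg (q2 x)
      have a1 : ‖f x‖ * ‖q1 x‖ ≤ A * 1 := mul_le_mul h1 h2 n2 hA0
      have a2 : ‖f x‖ * ‖q1 x‖ * ‖q2 x‖ ≤ A * 1 * 1 := mul_le_mul a1 h3 n3 (by linarith)
      linarith
    linarith [hA x]
  have hgL : L2 (fun x => f x * q1 x * conj (q2 x) - f x) :=
    BM.L2 ⟨mg, 2 * A, hgA⟩
  -- the pieces
  have p1 := hbd _ hgA
  have p5 := hbd _ hvA
  have hq2L := BCoA_L2 hq2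
  have mc2 : Measurable (fun x => conj (q2 x)) := Complex.continuous_conj.measurable.comp hq2.m
  have hfq : BM (fun x => f x * (q1 x - 1)) := by
    refine ⟨hf.1.mul (hq1.m.sub_const 1), A * 2, fun x => ?_⟩
    rw [norm_mul]
    exact mul_le_mul (hA x) (BCoA_le2 hq1 x) (norm_nonneg _) hA0
  have hq2h : An (fun x => q2 x * hs x) := An_mul hq2.an hq2.m 1 hq2.le hhs
  have hq21m : Measurable (fun x => q2 x - 1) := hq2.m.sub_const 1
  have hq21 : An (fun x => q2 x - 1) := by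
    refine ⟨hq2L.sub BCoA_L2_one, fun n hn => ?_⟩
    rw [cf_sub hq2L.integrable BCoA_L2_one.integrable, hq2.an.2 n hn]
    have : cf (fun _ : T => (1 : ℂ)) n = cf (e 0) n := by
      congr 1; ext x; simp
    rw [this, cf_e, if_neg (by omega), sub_zero]
  have hw : An (fun x => (q2 x - 1) * hs x) := An_mul hq21 hq21m 2 (BCoA_le2 hq2) hhs
  have p2 : ‖∫ x, f x * (q1 x - 1) * conj (q2 x * hs x)‖ ≤ A * lam ^ 3 * dl q1 := by
    have key := BCoA_norm_le (F := fun x => f x * (q1 x - 1) * conj (q2 x * hs x))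
      (G := fun x => A * lam ^ 3 * ‖1 - q1 x‖)
      ((BCoA_L2_sub hq1).integrable.norm.const_mul _) (fun x => by
        rw [norm_mul, norm_mul, RCLike.norm_conj, BCoA_ns]
        have h1 := hA x
        have h2 := hq x
        have n1 := norm_nonneg (f x)
        have n2 := norm_nonneg (1 - q1 x)
        have n3 := norm_nonneg (q2 x * hs x)
        have a1 : ‖f x‖ * ‖1 - q1 x‖ ≤ A * ‖1 - q1 x‖ := mul_le_mul_of_nonneg_right h1 n2
        have a2 : ‖f x‖ * ‖1 - q1 x‖ * ‖q2 x * hs x‖ ≤ A * ‖1 - q1 x‖ * lam ^ 3 :=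
          mul_le_mul a1 h2 n3 (mul_nonneg hA0 n2)
        linarith)
    refine key.trans ?_
    rw [integral_const_mul]
    exact mul_le_mul_of_nonneg_left (int_dl hq1) (mul_nonneg hA0 (pow_nonneg hl 3))
  have hcs : ∀ i : ℤ, ‖cf hs i‖ ≤ 2 := fun i => by
    have e1 : cf (fun x => h x - hs x) i = cf h i - cf hs i :=
      cf_sub hhL.integrable hhs.1.integrable i
    have e2 : cf hs i = cf h i - cf (fun x => h x - hs x) i := by rw [e1]; ring
    rw [e2]
    refine (norm_sub_le _ _).trans ?_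
    have := Fam_cf hh i
    have h2 := (norm_cf_le (f := fun x => h x - hs x) i).trans hdt
    linarith
  have p3 : ‖∫ x, sM M f x * conj ((q2 x - 1) * hs x)‖ ≤ 2 * A * (M + 1) ^ 2 * dl q2 := by
    have := pair_conj M hfL hA hw (a := (M + 1) * dl q2 * 2) (fun j hj =>
      coef_q1 hq2.an hq2.m hq2.le hhs 2 hcs M j hj)
    refine this.trans (le_of_eq ?_)
    ring
  have p4 : ‖∫ x, (f x - sM M f x) * conj (q2 x * hs x)‖ ≤ C1 * eps :=
    hv _ eps hvB he hN
  have p6 : ‖∫ x, (f x - sM M f x) * conj (h x)‖ ≤ eps := by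
    have := NB_Fam hvB.L2 he hN hh
    linarith
  -- decomposition
  have hvL := hvB.L2
  have I1 := hgL.integrable_mul_conj hd
  have I2 : Integrable (fun x => f x * (q1 x - 1) * conj (q2 x * hs x)) :=
    hfq.L2.integrable_mul_conj hq2h.1
  have I3 := (sM_BM M f).L2.integrable_mul_conj hw.1
  have I4 := hvL.integrable_mul_conj hq2h.1
  have I5 := hvL.integrable_mul_conj hd
  have I6 := hvL.integrable_mul_conj hhL
  have dec : ∫ x, (f x * q1 x * conj (q2 x) - f x) * conj (h x) =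
      (∫ x, (f x * q1 x * conj (q2 x) - f x) * conj (h x - hs x)) +
      (∫ x, f x * (q1 x - 1) * conj (q2 x * hs x)) +
      (∫ x, sM M f x * conj ((q2 x - 1) * hs x)) +
      (∫ x, (f x - sM M f x) * conj (q2 x * hs x)) -
      (∫ x, (f x - sM M f x) * conj (h x)) +
      (∫ x, (f x - sM M f x) * conj (h x - hs x)) := by
    refine BCoA_dec6 I1 I2 I3 I4 I6 I5 fun x => ?_
    simp only [map_sub, map_mul, map_one]
    ring
  rw [dec]
  have t1 := norm_add_le ((∫ x, (f x * q1 x * conj (q2 x) - f x) * conj (h x - hs x)) +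
      (∫ x, f x * (q1 x - 1) * conj (q2 x * hs x)) +
      (∫ x, sM M f x * conj ((q2 x - 1) * hs x)) +
      (∫ x, (f x - sM M f x) * conj (q2 x * hs x)) -
      (∫ x, (f x - sM M f x) * conj (h x))) (∫ x, (f x - sM M f x) * conj (h x - hs x))
  have t2 := norm_sub_le ((∫ x, (f x * q1 x * conj (q2 x) - f x) * conj (h x - hs x)) +
      (∫ x, f x * (q1 x - 1) * conj (q2 x * hs x)) +
      (∫ x, sM M f x * conj ((q2 x - 1) * hs x)) +
      (∫ x, (f x - sM M f x) * conj (q2 x * hs x))) (∫ x, (f x - sM M f x) * conj (h x))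
  have t3 := norm_add_le ((∫ x, (f x * q1 x * conj (q2 x) - f x) * conj (h x - hs x)) +
      (∫ x, f x * (q1 x - 1) * conj (q2 x * hs x)) +
      (∫ x, sM M f x * conj ((q2 x - 1) * hs x)))
      (∫ x, (f x - sM M f x) * conj (q2 x * hs x))
  have t4 := norm_add_le ((∫ x, (f x * q1 x * conj (q2 x) - f x) * conj (h x - hs x)) +
      (∫ x, f x * (q1 x - 1) * conj (q2 x * hs x)))
      (∫ x, sM M f x * conj ((q2 x - 1) * hs x))
  have t5 := norm_add_le (∫ x, (f x * q1 x * conj (q2 x) - f x) * conj (h x - hs x))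
      (∫ x, f x * (q1 x - 1) * conj (q2 x * hs x))
  linarith

theorem core_ii {f : T → ℂ} {A : ℝ} (hf : BM f) (hA : ∀ x, ‖f x‖ ≤ A) {q1 q2 : T → ℂ} (hq1 : Mu q1)
    (hq2 : Mu q2) {M : ℕ} {eps beta : ℝ} (he : 0 ≤ eps)
    (hD : DB (fun x => f x - sM M f x) eps) {b : T → ℂ} (hb : An0 b) (hb1 : ∫ x, ‖b x‖ ≤ 1)
    (hbe : ∫ x, ‖q2 x - 1‖ * (‖q1 x‖ * ‖b x‖) ≤ beta) :
    ‖∫ x, (f x * q1 x * conj (q2 x) - f x) * b x‖ ≤
      2 * eps + A * beta + A * (M + 1) ^ 2 * dl q1 := by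
  have hA0 : 0 ≤ A := (norm_nonneg _).trans (hA 0)
  have hfL := hf.L2
  have hsM := sM_BM M f
  have hvB : BM (fun x => f x - sM M f x) := by
    obtain ⟨mf, B1, hB1⟩ := hf
    obtain ⟨ms, B2, hB2⟩ := hsM
    exact ⟨mf.sub ms, B1 + B2, fun x => (norm_sub_le _ _).trans (add_le_add (hB1 x) (hB2 x))⟩
  have hvL := hvB.L2
  have hbAn : An b := ⟨hb.1, fun n hn => hb.2 n (by omega)⟩
  have hq1L := BCoA_L2 hq1
  have hq11m : Measurable (fun x => q1 x - 1) := hq1.m.sub_const 1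
  have hq11 : An (fun x => q1 x - 1) := by
    refine ⟨hq1L.sub BCoA_L2_one, fun n hn => ?_⟩
    rw [cf_sub hq1L.integrable BCoA_L2_one.integrable, hq1.an.2 n hn]
    have : cf (fun _ : T => (1 : ℂ)) n = cf (e 0) n := by
      congr 1; ext x; simp
    rw [this, cf_e, if_neg (by omega), sub_zero]
  have hw : An0 (fun x => (q1 x - 1) * b x) := An0_mul hq11 hq11m 2 (BCoA_le2 hq1) hb
  have hqb : An0 (fun x => q1 x * b x) := An0_mul hq1.an hq1.m 1 hq1.le hb
  have p1 : ‖∫ x, f x * (conj (q2 x) - 1) * (q1 x * b x)‖ ≤ A * beta := by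
    have hFi : Integrable (fun x => ‖q2 x - 1‖ * (‖q1 x‖ * ‖b x‖)) := by
      have hl2 : L2 (fun x => (q2 x - 1) * (q1 x * b x)) :=
        hqb.1.bdd_mul (hq2.m.sub_const 1).aestronglyMeasurable 2 (ae_of_all _ (BCoA_le2 hq2))
      refine hl2.integrable.norm.congr (ae_of_all _ fun x => ?_)
      show ‖(q2 x - 1) * (q1 x * b x)‖ = _
      rw [norm_mul, norm_mul]
    have key := BCoA_norm_le (F := fun x => f x * (conj (q2 x) - 1) * (q1 x * b x))
      (G := fun x => A * (‖q2 x - 1‖ * (‖q1 x‖ * ‖b x‖))) (hFi.const_mul A) (fun x => by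
        rw [norm_mul, norm_mul, norm_mul, BCoA_cc, mul_assoc]
        exact mul_le_mul_of_nonneg_right (hA x) (by positivity))
    refine key.trans ?_
    rw [integral_const_mul]
    exact mul_le_mul_of_nonneg_left hbe hA0
  have hcb : ∀ i : ℤ, ‖cf b i‖ ≤ 1 := fun i => (norm_cf_le i).trans hb1
  have p2 : ‖∫ x, sM M f x * ((q1 x - 1) * b x)‖ ≤ A * (M + 1) ^ 2 * dl q1 := by
    have := pair_An0 M hfL hA hw (a := (M + 1) * dl q1 * 1) (fun j hj =>
      coef_q1 hq1.an hq1.m hq1.le hbAn 1 hcb M j hj)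
    refine this.trans (le_of_eq ?_)
    ring
  have p3 : ‖∫ x, (f x - sM M f x) * (q1 x * b x)‖ ≤ eps := by
    have h1 := hD _ hqb
    have h2 : ∫ x, ‖q1 x * b x‖ ≤ 1 := by
      refine le_trans (integral_mono hqb.1.integrable.norm hb.1.integrable.norm fun x => ?_) hb1
      show ‖q1 x * b x‖ ≤ ‖b x‖
      rw [norm_mul]
      have := hq1.le x
      have n1 := norm_nonneg (b x)
      nlinarith
    refine h1.trans ?_
    calc eps * ∫ x, ‖q1 x * b x‖ ≤ eps * 1 := mul_le_mul_of_nonneg_left h2 he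
      _ = eps := mul_one _
  have p4 : ‖∫ x, (f x - sM M f x) * b x‖ ≤ eps := by
    refine (hD _ hb).trans ?_
    calc eps * ∫ x, ‖b x‖ ≤ eps * 1 := mul_le_mul_of_nonneg_left hb1 he
      _ = eps := mul_one _
  have hfc : BM (fun x => f x * (conj (q2 x) - 1)) := by
    refine ⟨hf.1.mul ((Complex.continuous_conj.measurable.comp hq2.m).sub_const 1), A * 2, fun x => ?_⟩
    rw [norm_mul, BCoA_cc]
    exact mul_le_mul (hA x) (BCoA_le2 hq2 x) (norm_nonneg _) hA0
  have I1 : Integrable (fun x => f x * (conj (q2 x) - 1) * (q1 x * b x)) :=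
    hfc.L2.integrable_mul hqb.1
  have I2 := (sM_BM M f).L2.integrable_mul hw.1
  have I3 := hvL.integrable_mul hqb.1
  have I4 := hvL.integrable_mul hb.1
  have dec : ∫ x, (f x * q1 x * conj (q2 x) - f x) * b x =
      (∫ x, f x * (conj (q2 x) - 1) * (q1 x * b x)) +
      (∫ x, sM M f x * ((q1 x - 1) * b x)) +
      (∫ x, (f x - sM M f x) * (q1 x * b x)) -
      (∫ x, (f x - sM M f x) * b x) := by
    refine BCoA_dec4 I1 I2 I3 I4 fun x => ?_
    ring
  rw [dec]
  have t2 := norm_sub_le ((∫ x, f x * (conj (q2 x) - 1) * (q1 x * b x)) +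
      (∫ x, sM M f x * ((q1 x - 1) * b x)) +
      (∫ x, (f x - sM M f x) * (q1 x * b x))) (∫ x, (f x - sM M f x) * b x)
  have t3 := norm_add_le ((∫ x, f x * (conj (q2 x) - 1) * (q1 x * b x)) +
      (∫ x, sM M f x * ((q1 x - 1) * b x))) (∫ x, (f x - sM M f x) * (q1 x * b x))
  have t4 := norm_add_le (∫ x, f x * (conj (q2 x) - 1) * (q1 x * b x))
      (∫ x, sM M f x * ((q1 x - 1) * b x))
  linarith

end CH.B
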