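import Pool.Agent.CH.BCoA

/-! # CH-BCoB: estimates (iii), (iv) of the core lemma (B6)
* `core_iii`: `h'' = h' - sM M' h'`; `f' = f q1 conj q2`, `|f'| <= A`.
  `int f' conj h'' = int f' conj (h'' - ks)` [`<= A tau`] `+ int f (q1-1) conj (q2 ks)` [`<= A lam^3 dl q1`] `+ int (f - sM J f) conj (q2 ks)`
  [`<= lam^3 int |f - sM J f|`] `+ int sM J f conj (q2 ks)` [`pair_conj`, `coef_q` with `|cf ks i| <= |cf h'' i| + tau <= J/(M'+1) + tau` for `i <= J`
  (`sM_err`, `Fam_cf`; for `i < 0` the coefficient is `0`)].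
* `core_iv`: `beta = b' - sM M' b'`. `int f' beta = int f (conj q2 - 1) (q1 beta)` [`<= A be1`] `+ int (f - sM J f) (q1 beta)` [`<= Lam int |f - sM J f|`]
  `+ int sM J f (q1 beta)` [`pair_An0`, `An0_mul`, `coef_q` with `|cf beta i| <= J/(M'+1)` for `i <= J`]. -/

open MeasureTheory Complex
open scoped ComplexConjugate

namespace CH.B

private theorem BCoB_dec4 {F F1 F2 F3 F4 : T → ℂ} (h1 : Integrable F1) (h2 : Integrable F2)
    (h3 : Integrable F3) (h4 : Integrable F4) (h : ∀ x, F x = F1 x + F2 x + F3 x + F4 x) :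
    ∫ x, F x = (∫ x, F1 x) + (∫ x, F2 x) + (∫ x, F3 x) + ∫ x, F4 x := by
  have e1 : ∫ x, F x = ∫ x, (F1 x + F2 x + F3 x + F4 x) := by
    congr 1; ext x; exact h x
  have e2 := integral_add (μ := (volume : Measure T)) (f := fun x => F1 x + F2 x + F3 x) (g := F4)
    ((h1.add h2).add h3) h4
  have e3 := integral_add (μ := (volume : Measure T)) (f := fun x => F1 x + F2 x) (g := F3)
    (h1.add h2) h3
  have e4 := integral_add (μ := (volume : Measure T)) (f := F1) (g := F2) h1 h2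
  rw [e1, e2, e3, e4]

private theorem BCoB_dec3 {F F1 F2 F3 : T → ℂ} (h1 : Integrable F1) (h2 : Integrable F2)
    (h3 : Integrable F3) (h : ∀ x, F x = F1 x + F2 x + F3 x) :
    ∫ x, F x = (∫ x, F1 x) + (∫ x, F2 x) + (∫ x, F3 x) := by
  have e1 : ∫ x, F x = ∫ x, (F1 x + F2 x + F3 x) := by
    congr 1; ext x; exact h x
  have e3 := integral_add (μ := (volume : Measure T)) (f := fun x => F1 x + F2 x) (g := F3)
    (h1.add h2) h3
  have e4 := integral_add (μ := (volume : Measure T)) (f := F1) (g := F2) h1 h2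
  rw [e1, e3, e4]

private theorem BCoB_L2_one : L2 (fun _ : T => (1 : ℂ)) := memLp_const 1

private theorem BCoB_ns (z : ℂ) : ‖z - 1‖ = ‖1 - z‖ := norm_sub_rev _ _

private theorem BCoB_le2 {q : T → ℂ} (hq : Mu q) (x : T) : ‖q x - 1‖ ≤ 2 := by
  refine (norm_sub_le _ _).trans ?_
  rw [norm_one]
  linarith [hq.le x]

private theorem BCoB_cc (z : ℂ) : ‖conj z - 1‖ = ‖z - 1‖ := by
  have : conj z - 1 = conj (z - 1) := by simp
  rw [this, RCLike.norm_conj]

private theorem BCoB_norm_le {F : T → ℂ} {G : T → ℝ} (hG : Integrable G) (h : ∀ x, ‖F x‖ ≤ G x) :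
    ‖∫ x, F x‖ ≤ ∫ x, G x :=
  norm_integral_le_of_norm_le hG (ae_of_all _ h)

private theorem BCoB_err {J M' : ℕ} {f : T → ℂ} (hf : An f) (h1 : ∀ i, ‖cf f i‖ ≤ 1) (i : ℤ)
    (hi : i ≤ J) : ‖cf (fun x => f x - sM M' f x) i‖ ≤ (J : ℝ) / (M' + 1) := by
  have hp : (0 : ℝ) < (M' : ℝ) + 1 := by positivity
  by_cases h0 : i < 0
  · have e1 : An (fun x => f x - sM M' f x) := by
      refine ⟨hf.1.sub (sM_BM M' f).L2, fun n hn => ?_⟩
      rw [cf_sub hf.1.integrable (sM_BM M' f).L2.integrable, hf.2 n hn, (sM_An M' hf).2 n hn,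
        sub_zero]
    rw [e1.2 i h0, norm_zero]
    positivity
  · refine (sM_err M' hf.1.integrable i).trans ?_
    have h2 : |(i : ℝ)| ≤ J := by
      rw [abs_of_nonneg (by exact_mod_cast (not_lt.1 h0))]
      exact_mod_cast hi
    have h3 := h1 i
    calc |(i : ℝ)| / (M' + 1) * ‖cf f i‖ ≤ (J : ℝ) / (M' + 1) * 1 :=
          mul_le_mul (div_le_div_of_nonneg_right h2 hp.le) h3 (norm_nonneg _) (by positivity)
      _ = (J : ℝ) / (M' + 1) := mul_one _

theorem core_iii {f : T → ℂ} {A : ℝ} (hf : BM f) (hA : ∀ x, ‖f x‖ ≤ A) {q1 q2 : T → ℂ} (hq1 : Mu q1)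
    (hq2 : Mu q2) {M' J : ℕ} {tau lam : ℝ} {h' ks : T → ℂ} (hh : Fam 1 h') (hks : An ks)
    (ht : Real.sqrt (∫ x, ‖h' x - sM M' h' x - ks x‖ ^ 2) ≤ tau) (hl : 0 ≤ lam)
    (hq : ∀ x, ‖q2 x * ks x‖ ≤ lam ^ 3) :
    ‖∫ x, f x * q1 x * conj (q2 x) * conj (h' x - sM M' h' x)‖ ≤
      A * tau + A * lam ^ 3 * dl q1 + lam ^ 3 * (∫ x, ‖f x - sM J f x‖) +
        (J + 1) ^ 2 * A * (tau + J / (M' + 1)) := by
  have hA0 : 0 ≤ A := (norm_nonneg _).trans (hA 0)
  have hfL := hf.L2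
  have hhA := Fam_An hh
  have hh2 : L2 (fun x => h' x - sM M' h' x) := hhA.1.sub (sM_BM M' h').L2
  have hd : L2 (fun x => h' x - sM M' h' x - ks x) := hh2.sub hks.1
  have hdt : ∫ x, ‖h' x - sM M' h' x - ks x‖ ≤ tau := (int_norm_le hd).trans ht
  have ht0 : 0 ≤ tau := (Real.sqrt_nonneg _).trans ht
  have hvB : BM (fun x => f x - sM J f x) := by
    obtain ⟨mf, B1, hB1⟩ := hf
    obtain ⟨ms, B2, hB2⟩ := sM_BM J f
    exact ⟨mf.sub ms, B1 + B2, fun x => (norm_sub_le _ _).trans (add_le_add (hB1 x) (hB2 x))⟩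
  have mf' : Measurable (fun x => f x * q1 x * conj (q2 x)) :=
    (hf.1.mul hq1.m).mul (Complex.continuous_conj.measurable.comp hq2.m)
  have hf'A : ∀ x, ‖f x * q1 x * conj (q2 x)‖ ≤ A := fun x => by
    rw [norm_mul, norm_mul, RCLike.norm_conj]
    have h1 := hA x
    have h2 := hq1.le x
    have h3 := hq2.le x
    have n2 := norm_nonneg (q1 x)
    have n3 := norm_nonneg (q2 x)
    have a1 : ‖f x‖ * ‖q1 x‖ ≤ A * 1 := mul_le_mul h1 h2 n2 hA0
    have a2 : ‖f x‖ * ‖q1 x‖ * ‖q2 x‖ ≤ A * 1 * 1 := mul_le_mul a1 h3 n3 (by linarith)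
    linarith
  have hf'L : L2 (fun x => f x * q1 x * conj (q2 x)) := BM.L2 ⟨mf', A, hf'A⟩
  have hq2h : An (fun x => q2 x * ks x) := An_mul hq2.an hq2.m 1 hq2.le hks
  have hfq : BM (fun x => f x * (q1 x - 1)) := by
    refine ⟨hf.1.mul (hq1.m.sub_const 1), A * 2, fun x => ?_⟩
    rw [norm_mul]
    exact mul_le_mul (hA x) (BCoB_le2 hq1 x) (norm_nonneg _) hA0
  have p1 : ‖∫ x, f x * q1 x * conj (q2 x) * conj (h' x - sM M' h' x - ks x)‖ ≤ A * tau := by
    have key := BCoB_norm_le (F := fun x => f x * q1 x * conj (q2 x) *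
        conj (h' x - sM M' h' x - ks x))
      (G := fun x => A * ‖h' x - sM M' h' x - ks x‖) (hd.integrable.norm.const_mul A) (fun x => by
        rw [norm_mul, RCLike.norm_conj (h' x - sM M' h' x - ks x)]
        exact mul_le_mul_of_nonneg_right (hf'A x) (norm_nonneg _))
    refine key.trans ?_
    rw [integral_const_mul]
    exact mul_le_mul_of_nonneg_left hdt hA0
  have p2 : ‖∫ x, f x * (q1 x - 1) * conj (q2 x * ks x)‖ ≤ A * lam ^ 3 * dl q1 := by
    have hL : L2 (fun x => 1 - q1 x) := BCoB_L2_one.sub hq1.an.1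
    have key := BCoB_norm_le (F := fun x => f x * (q1 x - 1) * conj (q2 x * ks x))
      (G := fun x => A * lam ^ 3 * ‖1 - q1 x‖)
      (hL.integrable.norm.const_mul _) (fun x => by
        rw [norm_mul, norm_mul, RCLike.norm_conj, BCoB_ns]
        have h1 := hA x
        have h2 := hq x
        have n2 := norm_nonneg (1 - q1 x)
        have n3 := norm_nonneg (q2 x * ks x)
        have a1 : ‖f x‖ * ‖1 - q1 x‖ ≤ A * ‖1 - q1 x‖ := mul_le_mul_of_nonneg_right h1 n2
        have a2 : ‖f x‖ * ‖1 - q1 x‖ * ‖q2 x * ks x‖ ≤ A * ‖1 - q1 x‖ * lam ^ 3 :=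
          mul_le_mul a1 h2 n3 (mul_nonneg hA0 n2)
        linarith)
    refine key.trans ?_
    rw [integral_const_mul]
    exact mul_le_mul_of_nonneg_left (int_dl hq1) (mul_nonneg hA0 (pow_nonneg hl 3))
  have p3 : ‖∫ x, (f x - sM J f x) * conj (q2 x * ks x)‖ ≤
      lam ^ 3 * ∫ x, ‖f x - sM J f x‖ := by
    have key := BCoB_norm_le (F := fun x => (f x - sM J f x) * conj (q2 x * ks x))
      (G := fun x => lam ^ 3 * ‖f x - sM J f x‖)
      (hvB.L2.integrable.norm.const_mul _) (fun x => by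
        rw [norm_mul, RCLike.norm_conj, mul_comm]
        exact mul_le_mul_of_nonneg_right (hq x) (norm_nonneg _))
    refine key.trans ?_
    rw [integral_const_mul]
  have hck : ∀ i : ℤ, i ≤ J → ‖cf ks i‖ ≤ tau + J / (M' + 1) := fun i hi => by
    have e1 : cf (fun x => h' x - sM M' h' x - ks x) i =
        cf (fun x => h' x - sM M' h' x) i - cf ks i := cf_sub hh2.integrable hks.1.integrable i
    have e2 : cf ks i = cf (fun x => h' x - sM M' h' x) i -
        cf (fun x => h' x - sM M' h' x - ks x) i := by rw [e1]; ring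
    rw [e2]
    refine (norm_sub_le _ _).trans ?_
    have h1 := BCoB_err (M' := M') hhA (Fam_cf hh) i hi
    have h2 := (norm_cf_le (f := fun x => h' x - sM M' h' x - ks x) i).trans hdt
    linarith
  have p4 : ‖∫ x, sM J f x * conj (q2 x * ks x)‖ ≤ (J + 1) ^ 2 * A * (tau + J / (M' + 1)) := by
    have := pair_conj J hfL hA hq2h (a := (J + 1) * (tau + J / (M' + 1))) (fun j hj =>
      coef_q hq2.an hq2.m hq2.le hks J (tau + J / (M' + 1)) (by positivity) hck j hj)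
    refine this.trans (le_of_eq ?_)
    ring
  have I1 := hf'L.integrable_mul_conj hd
  have I2 : Integrable (fun x => f x * (q1 x - 1) * conj (q2 x * ks x)) :=
    hfq.L2.integrable_mul_conj hq2h.1
  have I3 := hvB.L2.integrable_mul_conj hq2h.1
  have I4 := (sM_BM J f).L2.integrable_mul_conj hq2h.1
  have dec := BCoB_dec4 (F := fun x => f x * q1 x * conj (q2 x) * conj (h' x - sM M' h' x))
    I1 I2 I3 I4 (fun x => by
      simp only [map_sub, map_mul]
      ring)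
  rw [dec]
  have t1 := norm_add_le ((∫ x, f x * q1 x * conj (q2 x) * conj (h' x - sM M' h' x - ks x)) +
      (∫ x, f x * (q1 x - 1) * conj (q2 x * ks x)) +
      (∫ x, (f x - sM J f x) * conj (q2 x * ks x))) (∫ x, sM J f x * conj (q2 x * ks x))
  have t2 := norm_add_le ((∫ x, f x * q1 x * conj (q2 x) * conj (h' x - sM M' h' x - ks x)) +
      (∫ x, f x * (q1 x - 1) * conj (q2 x * ks x)))
      (∫ x, (f x - sM J f x) * conj (q2 x * ks x))
  have t3 := norm_add_le (∫ x, f x * q1 x * conj (q2 x) * conj (h' x - sM M' h' x - ks x))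
      (∫ x, f x * (q1 x - 1) * conj (q2 x * ks x))
  linarith

theorem core_iv {f : T → ℂ} {A : ℝ} (hf : BM f) (hA : ∀ x, ‖f x‖ ≤ A) {q1 q2 : T → ℂ} (hq1 : Mu q1)
    (hq2 : Mu q2) {M' J : ℕ} {be1 Lam : ℝ} {b' : T → ℂ} (hb : An0 b') (hb1 : ∫ x, ‖b' x‖ ≤ 1)
    (hbe : ∫ x, ‖q2 x - 1‖ * (‖q1 x‖ * ‖b' x - sM M' b' x‖) ≤ be1)
    (hL : ∀ᵐ x, ‖q1 x‖ * ‖b' x - sM M' b' x‖ ≤ Lam) :
    ‖∫ x, f x * q1 x * conj (q2 x) * (b' x - sM M' b' x)‖ ≤
      A * be1 + Lam * (∫ x, ‖f x - sM J f x‖) + (J + 1) ^ 2 * A * (J / (M' + 1)) := by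
  have hA0 : 0 ≤ A := (norm_nonneg _).trans (hA 0)
  have hfL := hf.L2
  have hbA : An b' := ⟨hb.1, fun n hn => hb.2 n (by omega)⟩
  have hbe0 : An0 (fun x => b' x - sM M' b' x) := by
    refine ⟨hb.1.sub (sM_BM M' b').L2, fun n hn => ?_⟩
    rw [cf_sub hb.1.integrable (sM_BM M' b').L2.integrable, hb.2 n hn, (sM_An0 M' hb).2 n hn,
      sub_zero]
  have hbeA : An (fun x => b' x - sM M' b' x) := ⟨hbe0.1, fun n hn => hbe0.2 n (by omega)⟩
  have hvB : BM (fun x => f x - sM J f x) := by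
    obtain ⟨mf, B1, hB1⟩ := hf
    obtain ⟨ms, B2, hB2⟩ := sM_BM J f
    exact ⟨mf.sub ms, B1 + B2, fun x => (norm_sub_le _ _).trans (add_le_add (hB1 x) (hB2 x))⟩
  have hqb : An0 (fun x => q1 x * (b' x - sM M' b' x)) := An0_mul hq1.an hq1.m 1 hq1.le hbe0
  have p1 : ‖∫ x, f x * (conj (q2 x) - 1) * (q1 x * (b' x - sM M' b' x))‖ ≤ A * be1 := by
    have hFi : Integrable (fun x => ‖q2 x - 1‖ * (‖q1 x‖ * ‖b' x - sM M' b' x‖)) := by
      have hl2 : L2 (fun x => (q2 x - 1) * (q1 x * (b' x - sM M' b' x))) :=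
        hqb.1.bdd_mul (hq2.m.sub_const 1).aestronglyMeasurable 2 (ae_of_all _ (BCoB_le2 hq2))
      refine hl2.integrable.norm.congr (ae_of_all _ fun x => ?_)
      show ‖(q2 x - 1) * (q1 x * (b' x - sM M' b' x))‖ = _
      rw [norm_mul, norm_mul]
    have key := BCoB_norm_le (F := fun x => f x * (conj (q2 x) - 1) *
        (q1 x * (b' x - sM M' b' x)))
      (G := fun x => A * (‖q2 x - 1‖ * (‖q1 x‖ * ‖b' x - sM M' b' x‖))) (hFi.const_mul A)
      (fun x => by
        rw [norm_mul, norm_mul, norm_mul (q1 x), BCoB_cc, mul_assoc]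
        exact mul_le_mul_of_nonneg_right (hA x) (by positivity))
    refine key.trans ?_
    rw [integral_const_mul]
    exact mul_le_mul_of_nonneg_left hbe hA0
  have p2 : ‖∫ x, (f x - sM J f x) * (q1 x * (b' x - sM M' b' x))‖ ≤
      Lam * ∫ x, ‖f x - sM J f x‖ := by
    have key : ‖∫ x, (f x - sM J f x) * (q1 x * (b' x - sM M' b' x))‖ ≤
        ∫ x, Lam * ‖f x - sM J f x‖ := by
      refine norm_integral_le_of_norm_le (hvB.L2.integrable.norm.const_mul Lam) ?_
      filter_upwards [hL] with x hx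
      rw [norm_mul, norm_mul (q1 x), mul_comm]
      exact mul_le_mul_of_nonneg_right hx (norm_nonneg _)
    refine key.trans ?_
    rw [integral_const_mul]
  have hcb : ∀ i : ℤ, ‖cf b' i‖ ≤ 1 := fun i => (norm_cf_le i).trans hb1
  have p3 : ‖∫ x, sM J f x * (q1 x * (b' x - sM M' b' x))‖ ≤
      (J + 1) ^ 2 * A * (J / (M' + 1)) := by
    have := pair_An0 J hfL hA hqb (a := (J + 1) * (J / (M' + 1))) (fun j hj =>
      coef_q hq1.an hq1.m hq1.le hbeA J (J / (M' + 1)) (by positivity)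
        (fun i hi => BCoB_err hbA hcb i hi) j hj)
    refine this.trans (le_of_eq ?_)
    ring
  have hfc : BM (fun x => f x * (conj (q2 x) - 1)) := by
    refine ⟨hf.1.mul ((Complex.continuous_conj.measurable.comp hq2.m).sub_const 1), A * 2,
      fun x => ?_⟩
    rw [norm_mul, BCoB_cc]
    exact mul_le_mul (hA x) (BCoB_le2 hq2 x) (norm_nonneg _) hA0
  have I1 : Integrable (fun x => f x * (conj (q2 x) - 1) * (q1 x * (b' x - sM M' b' x))) :=
    hfc.L2.integrable_mul hqb.1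
  have I2 := hvB.L2.integrable_mul hqb.1
  have I3 := (sM_BM J f).L2.integrable_mul hqb.1
  have dec := BCoB_dec3 (F := fun x => f x * q1 x * conj (q2 x) * (b' x - sM M' b' x))
    I1 I2 I3 (fun x => by ring)
  rw [dec]
  have t1 := norm_add_le ((∫ x, f x * (conj (q2 x) - 1) * (q1 x * (b' x - sM M' b' x))) +
      (∫ x, (f x - sM J f x) * (q1 x * (b' x - sM M' b' x))))
      (∫ x, sM J f x * (q1 x * (b' x - sM M' b' x)))
  have t2 := norm_add_le (∫ x, f x * (conj (q2 x) - 1) * (q1 x * (b' x - sM M' b' x)))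
      (∫ x, (f x - sM J f x) * (q1 x * (b' x - sM M' b' x)))
  linarith

end CH.B
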