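import Pool.Agent.CH.Defs

/-! # CH-BLog: logarithmic estimate in the proof of Lemma K (B5)
`log+ u = max 0 (log u)` (`Real.posLog`); here `lg F lam = max 0 (log (F / lam^3))`.
If `F > lam^3`: `log (F/lam^3) = log ((1/2)^n F / lam^(3/2)) + n log 2 - (3/2) log lam <= (1/2)^n F/lam^(3/2) + n` (`log u <= u`, `log 2 <= 1`, `lam >= 1`);
so `lg F lam <= lam^(-3/2) (1/2)^n F + n` always. Integrate: `<= lam^(-3/2) C (sqrt lam + 1) + C/lam <= 3 C/lam`. -/

open MeasureTheory Complex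
open scoped ComplexConjugate

namespace CH.B

/-- `log+ (F / lam^3)` -/
noncomputable def lg (F lam : ℝ) : ℝ := max 0 (Real.log (F / lam ^ 3))

theorem lg_nonneg (F lam : ℝ) : 0 ≤ lg F lam := le_max_left _ _

theorem lg_le {F lam : ℝ} (hF : 0 ≤ F) (hl : 1 ≤ lam) : lg F lam ≤ F := by
  unfold lg
  refine max_le hF ?_
  have h1 : (1 : ℝ) ≤ lam ^ 3 := one_le_pow₀ hl
  have h2 : F / lam ^ 3 ≤ F := div_le_self hF h1
  exact (Real.log_le_self (by positivity)).trans h2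

theorem exp_lg {F lam : ℝ} (hF : 0 ≤ F) (hl : 1 ≤ lam) : Real.exp (- lg F lam) * F ≤ lam ^ 3 := by
  have hl0 : 0 < lam := by linarith
  rcases hF.eq_or_lt with h | h
  · rw [← h, mul_zero]; positivity
  · have h1 : Real.exp (- lg F lam) ≤ Real.exp (- Real.log (F / lam ^ 3)) := by
      apply Real.exp_le_exp.2
      have : Real.log (F / lam ^ 3) ≤ lg F lam := le_max_right _ _
      linarith
    rw [Real.exp_neg (Real.log (F / lam ^ 3)), Real.exp_log (by positivity), inv_div] at h1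
    calc Real.exp (- lg F lam) * F ≤ lam ^ 3 / F * F := mul_le_mul_of_nonneg_right h1 hF
      _ = lam ^ 3 := by field_simp

theorem lg_point {F lam s : ℝ} {n : ℕ} (hF : 0 ≤ F) (hs : 1 ≤ s) (hl : lam = s ^ 2) :
    lg F lam ≤ (s ^ 3)⁻¹ * ((1 / 2 : ℝ) ^ n * F) + n := by
  have hs0 : 0 < s := by linarith
  have hR : 0 ≤ (s ^ 3)⁻¹ * ((1 / 2 : ℝ) ^ n * F) := by positivity
  have hn : (0 : ℝ) ≤ n := Nat.cast_nonneg n
  unfold lg
  refine max_le (by linarith) ?_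
  rcases hF.eq_or_lt with h | h
  · rw [← h]; simp
  · subst hl
    have e1 : F / (s ^ 2) ^ 3 = ((s ^ 3)⁻¹ * ((1 / 2 : ℝ) ^ n * F)) * (2 ^ n * (s ^ 3)⁻¹) := by
      rw [one_div, inv_pow]
      field_simp
    have hp : 0 < (s ^ 3)⁻¹ * ((1 / 2 : ℝ) ^ n * F) := by positivity
    have e2 : Real.log (2 ^ n * (s ^ 3)⁻¹) = n * Real.log 2 - 3 * Real.log s := by
      rw [Real.log_mul (by positivity) (by positivity), Real.log_pow, Real.log_inv, Real.log_pow]
      push_cast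
      ring
    rw [e1, Real.log_mul hp.ne' (by positivity), e2]
    have h2 : Real.log ((s ^ 3)⁻¹ * ((1 / 2 : ℝ) ^ n * F)) ≤ (s ^ 3)⁻¹ * ((1 / 2 : ℝ) ^ n * F) :=
      Real.log_le_self hp.le
    have h3 : Real.log 2 ≤ 1 := by
      have := Real.log_two_lt_d9; linarith
    have h4 : 0 ≤ Real.log s := Real.log_nonneg hs
    have h5 : (n : ℝ) * Real.log 2 ≤ n := by nlinarith
    linarith

theorem lg_int {F : T → ℝ} {n : T → ℕ} {lam C : ℝ} (hF : Integrable F) (hF0 : ∀ x, 0 ≤ F x)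
    (hn : Measurable n) (hb : ∃ B : ℕ, ∀ x, n x ≤ B) (hl : 1 ≤ lam) (hC : 0 ≤ C)
    (hi : ∫ x, (n x : ℝ) ≤ C / lam)
    (h : ∫ x, (1 / 2 : ℝ) ^ (n x) * F x ≤ C * (Real.sqrt lam + 1)) :
    ∫ x, lg (F x) lam ≤ 3 * C / lam := by
  obtain ⟨s, hs⟩ : ∃ s, s = Real.sqrt lam := ⟨_, rfl⟩
  have hs1 : 1 ≤ s := by rw [hs]; exact Real.one_le_sqrt.2 hl
  have hs0 : 0 < s := by linarith
  have hls : lam = s ^ 2 := by rw [hs, Real.sq_sqrt (by linarith)]
  obtain ⟨B, hB⟩ := hb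
  have hnm : Measurable (fun x => (n x : ℝ)) := measurable_from_top.comp hn
  have hnI : Integrable (fun x => (n x : ℝ)) := by
    refine Integrable.of_bound hnm.aestronglyMeasurable (B : ℝ) (ae_of_all _ fun x => ?_)
    rw [Real.norm_eq_abs, abs_of_nonneg (Nat.cast_nonneg _)]
    exact_mod_cast hB x
  have hpm : Measurable (fun x => (1 / 2 : ℝ) ^ (n x)) := measurable_from_top.comp hn
  have hpI : Integrable (fun x => (1 / 2 : ℝ) ^ (n x) * F x) := by
    refine hF.bdd_mul (c := 1) hpm.aestronglyMeasurable (ae_of_all _ fun x => ?_)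
    rw [Real.norm_eq_abs, abs_of_nonneg (by positivity)]
    exact pow_le_one₀ (by norm_num) (by norm_num)
  have hmono : ∫ x, lg (F x) lam ≤ ∫ x, ((s ^ 3)⁻¹ * ((1 / 2 : ℝ) ^ (n x) * F x) + (n x : ℝ)) := by
    refine integral_mono_of_nonneg (ae_of_all _ fun x => lg_nonneg _ _)
      ((hpI.const_mul _).add hnI) (ae_of_all _ fun x => ?_)
    exact lg_point (hF0 x) hs1 hls
  refine hmono.trans ?_
  rw [integral_add (hpI.const_mul _) hnI, integral_const_mul]
  rw [← hs] at h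
  have h1 : (s ^ 3)⁻¹ * ∫ x, (1 / 2 : ℝ) ^ (n x) * F x ≤ (s ^ 3)⁻¹ * (C * (s + 1)) :=
    mul_le_mul_of_nonneg_left h (by positivity)
  have h2 : (s ^ 3)⁻¹ * (C * (s + 1)) ≤ 2 * C / lam := by
    rw [hls]
    have e : 2 * C / s ^ 2 = (s ^ 3)⁻¹ * (C * (2 * s)) := by
      field_simp
    rw [e]
    refine mul_le_mul_of_nonneg_left ?_ (by positivity)
    nlinarith
  have h3 : 2 * C / lam + C / lam = 3 * C / lam := by ring
  linarith

end CH.B
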