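import Pool.Agent.CH.BFej2

/-! # CH-BMul: Fourier coefficients of products
* `cf_mul`: `parseval` for `f` and `y ↦ conj (q y) * e_j y` (in `L2`): `cf (conj q e_j) n = conj (cf q (j - n))` (`cf_e_mul`, `cf_conj`), and
  `f * conj (conj q e_j) = q f conj e_j`.
* `An_mul`, `An0_mul`: all terms of the sum `cf_mul` vanish; `L2` by `L2.bdd_mul`.
* `cf_mul_An`: only `0 <= n <= j` contribute.
* `coef_q1`: `cf_mul_An` for `q - 1` (analytic, bounded by `2`), `|cf (q-1) i| <= int |q - 1| <= sqrt (int |1-q|^2)` (`norm_cf_le`, `int_norm_le`); for `j < 0` the coefficient is `0`.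
* `coef_q`: `|cf q i| <= int |q| <= 1`, `j + 1 <= J + 1` terms.
* `pair_conj`, `pair_An0`: expand `sM M f` (a finite sum), `int e_j conj w = conj (cf w j)`, `int e_j b = cf b (-j)`; the terms with `j < 0` (resp. `j >= 0`) vanish,
  `|c_M(j) cf f j| <= A` (`norm_cf_le`). -/

open MeasureTheory Complex
open scoped ComplexConjugate

namespace CH.B

theorem cf_mul {q f : T → ℂ} (hq : L2 q) (hm : Measurable q) (B : ℝ) (hB : ∀ x, ‖q x‖ ≤ B)
    (hf : L2 f) (j : ℤ) :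
    HasSum (fun n : ℤ => cf f n * cf q (j - n)) (cf (fun x => q x * f x) j) := by
  have h := parseval hf (L2_e_mul hq.conj j)
  have h1 : ∀ n, conj (cf (fun x => e j x * conj (q x)) n) = cf q (j - n) := by
    intro n
    rw [cf_e_mul, cf_conj, Complex.conj_conj]
    congr 1
    ring
  simp_rw [h1] at h
  have h2 : ∫ x, f x * conj (e j x * conj (q x)) = cf (fun x => q x * f x) j := by
    unfold cf
    congr 1; ext x
    rw [map_mul, Complex.conj_conj]
    ring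
  rw [h2] at h
  exact h

theorem BMul_L2 {q f : T → ℂ} (hm : Measurable q) (B : ℝ) (hB : ∀ x, ‖q x‖ ≤ B)
    (hf : L2 f) : L2 (fun x => q x * f x) :=
  hf.bdd_mul hm.aestronglyMeasurable B (ae_of_all _ hB)

theorem BMul_cf_zero {q f : T → ℂ} (hq : L2 q) (hm : Measurable q) (B : ℝ) (hB : ∀ x, ‖q x‖ ≤ B)
    (hf : L2 f) (j : ℤ) (h0 : ∀ n, cf f n * cf q (j - n) = 0) :
    cf (fun x => q x * f x) j = 0 := by
  have h := cf_mul hq hm B hB hf j
  simp_rw [h0] at h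
  exact h.unique hasSum_zero

theorem An_mul {q f : T → ℂ} (hq : An q) (hm : Measurable q) (B : ℝ) (hB : ∀ x, ‖q x‖ ≤ B)
    (hf : An f) : An (fun x => q x * f x) := by
  refine ⟨BMul_L2 hm B hB hf.1, fun j hj => ?_⟩
  refine BMul_cf_zero hq.1 hm B hB hf.1 j fun n => ?_
  by_cases hn : n < 0
  · rw [hf.2 n hn, zero_mul]
  · rw [hq.2 (j - n) (by omega), mul_zero]

theorem An0_mul {q f : T → ℂ} (hq : An q) (hm : Measurable q) (B : ℝ) (hB : ∀ x, ‖q x‖ ≤ B)
    (hf : An0 f) : An0 (fun x => q x * f x) := by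
  refine ⟨BMul_L2 hm B hB hf.1, fun j hj => ?_⟩
  refine BMul_cf_zero hq.1 hm B hB hf.1 j fun n => ?_
  by_cases hn : n ≤ 0
  · rw [hf.2 n hn, zero_mul]
  · rw [hq.2 (j - n) (by omega), mul_zero]

theorem cf_mul_An {q f : T → ℂ} (hq : An q) (hm : Measurable q) (B : ℝ) (hB : ∀ x, ‖q x‖ ≤ B)
    (hf : An f) (j : ℕ) :
    cf (fun x => q x * f x) j = ∑ i ∈ Finset.range (j + 1), cf q ((j : ℤ) - i) * cf f i := by
  have h := cf_mul hq.1 hm B hB hf.1 (j : ℤ)
  have h2 : HasSum (fun n : ℤ => cf f n * cf q ((j : ℤ) - n))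
      (∑ n ∈ (Finset.range (j + 1)).map Nat.castEmbedding, cf f n * cf q ((j : ℤ) - n)) := by
    apply hasSum_sum_of_ne_finset_zero
    intro n hn
    by_cases h0 : n < 0
    · rw [hf.2 n h0, zero_mul]
    · rw [hq.2, mul_zero]
      by_contra hcon
      apply hn
      rw [Finset.mem_map]
      refine ⟨n.toNat, ?_, ?_⟩
      · rw [Finset.mem_range]; omega
      · rw [Nat.castEmbedding_apply]; omega
  rw [h.unique h2, Finset.sum_map]
  refine Finset.sum_congr rfl fun i _ => ?_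
  rw [Nat.castEmbedding_apply]
  ring

theorem BMul_coef {q h : T → ℂ} (hq : An q) (hm : Measurable q) (B : ℝ) (hB : ∀ x, ‖q x‖ ≤ B)
    (hh : An h) (J : ℕ) (a b : ℝ) (h0 : 0 ≤ a) (hb : ∀ i, ‖cf q i‖ ≤ b)
    (ha : ∀ i : ℤ, i ≤ J → ‖cf h i‖ ≤ a) (j : ℤ) (hj : j ≤ J) :
    ‖cf (fun x => q x * h x) j‖ ≤ (J + 1) * b * a := by
  have hb0 : 0 ≤ b := (norm_nonneg _).trans (hb 0)
  by_cases hj0 : j < 0
  · rw [(An_mul hq hm B hB hh).2 j hj0, norm_zero]
    positivity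
  · obtain ⟨k, rfl⟩ : ∃ k : ℕ, j = k := ⟨j.toNat, by omega⟩
    rw [cf_mul_An hq hm B hB hh k]
    calc ‖∑ i ∈ Finset.range (k + 1), cf q ((k : ℤ) - i) * cf h i‖
        ≤ ∑ i ∈ Finset.range (k + 1), b * a := by
          refine norm_sum_le_of_le _ fun i hi => ?_
          rw [norm_mul]
          rw [Finset.mem_range] at hi
          exact mul_le_mul (hb _) (ha _ (by omega)) (norm_nonneg _) hb0
      _ = ((k : ℝ) + 1) * (b * a) := by
          rw [Finset.sum_const, Finset.card_range, nsmul_eq_mul]; push_cast; ring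
      _ ≤ (J + 1) * (b * a) := by
          refine mul_le_mul_of_nonneg_right ?_ (by positivity)
          have : (k : ℝ) ≤ J := by exact_mod_cast hj
          linarith
      _ = (J + 1) * b * a := by ring

theorem BMul_L2_one : L2 (fun _ : T => (1 : ℂ)) := memLp_const 1

theorem coef_q1 {q h : T → ℂ} (hq : An q) (hm : Measurable q) (hB : ∀ x, ‖q x‖ ≤ 1) (hh : An h)
    (a : ℝ) (ha : ∀ i : ℤ, ‖cf h i‖ ≤ a) (M : ℕ) (j : ℤ) (hj : j ≤ M) :
    ‖cf (fun x => (q x - 1) * h x) j‖ ≤ (M + 1) * Real.sqrt (∫ x, ‖1 - q x‖ ^ 2) * a := by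
  have ha0 : 0 ≤ a := (norm_nonneg _).trans (ha 0)
  have hL : L2 (fun x => q x - 1) := hq.1.sub BMul_L2_one
  have hA : An (fun x => q x - 1) := by
    refine ⟨hL, fun n hn => ?_⟩
    rw [cf_sub hq.1.integrable BMul_L2_one.integrable, hq.2 n hn]
    have : cf (fun _ : T => (1 : ℂ)) n = cf (e 0) n := by
      congr 1; ext x; simp
    rw [this, cf_e, if_neg (by omega), sub_zero]
  have hb : ∀ i, ‖cf (fun x => q x - 1) i‖ ≤ Real.sqrt (∫ x, ‖1 - q x‖ ^ 2) := by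
    intro i
    refine (norm_cf_le i).trans ((int_norm_le hL).trans (le_of_eq ?_))
    congr 2; ext x
    rw [norm_sub_rev]
  exact BMul_coef hA (hm.sub_const 1) 2 (fun x => by
    refine (norm_sub_le _ _).trans ?_
    rw [norm_one]
    linarith [hB x]) hh M a _ ha0 hb (fun i _ => ha i) j hj

theorem BMul_cf_le {q : T → ℂ} {A : ℝ} (hq : L2 q) (hA : ∀ x, ‖q x‖ ≤ A) (i : ℤ) :
    ‖cf q i‖ ≤ A := by
  refine (norm_cf_le i).trans ?_
  calc ∫ x, ‖q x‖ ≤ ∫ _x : T, A :=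
        integral_mono hq.integrable.norm (integrable_const _) hA
    _ = A := by simp

theorem coef_q {q h : T → ℂ} (hq : An q) (hm : Measurable q) (hB : ∀ x, ‖q x‖ ≤ 1) (hh : An h)
    (J : ℕ) (a : ℝ) (h0 : 0 ≤ a) (ha : ∀ i : ℤ, i ≤ J → ‖cf h i‖ ≤ a) (j : ℤ) (hj : j ≤ J) :
    ‖cf (fun x => q x * h x) j‖ ≤ (J + 1) * a := by
  have := BMul_coef hq hm 1 hB hh J a 1 h0 (BMul_cf_le hq.1 hB) ha j hj
  rwa [mul_one] at this

theorem BMul_cf_sM_le (M : ℕ) {f : T → ℂ} {A : ℝ} (hf : L2 f) (hA : ∀ x, ‖f x‖ ≤ A) (n : ℤ) :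
    ‖cf (sM M f) n‖ ≤ A := by
  have hA0 : 0 ≤ A := (norm_nonneg _).trans (hA 0)
  rw [cf_sM]
  split_ifs with h
  · rw [norm_mul, Complex.norm_real, Real.norm_eq_abs]
    have h1 : |(n : ℝ)| ≤ M := by exact_mod_cast h
    have h2 : (0 : ℝ) < M + 1 := by positivity
    have h3 : |(n : ℝ)| / (M + 1) ≤ 1 := by
      rw [div_le_one h2]; linarith
    have h4 : 0 ≤ |(n : ℝ)| / (M + 1) := by positivity
    have h5 : |1 - |(n : ℝ)| / (M + 1)| ≤ 1 := by
      rw [abs_le]; constructor <;> linarith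
    calc |1 - |(n : ℝ)| / (M + 1)| * ‖cf f n‖ ≤ 1 * A :=
          mul_le_mul h5 (BMul_cf_le hf hA n) (norm_nonneg _) (by norm_num)
      _ = A := one_mul _
  · rw [norm_zero]; exact hA0

theorem pair_conj (M : ℕ) {f w : T → ℂ} {A a : ℝ} (hf : L2 f) (hA : ∀ x, ‖f x‖ ≤ A) (hw : An w)
    (ha : ∀ j : ℤ, j ≤ M → ‖cf w j‖ ≤ a) : ‖∫ x, sM M f x * conj (w x)‖ ≤ (M + 1) * A * a := by
  have hA0 : 0 ≤ A := (norm_nonneg _).trans (hA 0)
  have h := parseval (sM_BM M f).L2 hw.1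
  have h2 : HasSum (fun n : ℤ => cf (sM M f) n * conj (cf w n))
      (∑ n ∈ Finset.Icc (0 : ℤ) M, cf (sM M f) n * conj (cf w n)) := by
    apply hasSum_sum_of_ne_finset_zero
    intro n hn
    rw [Finset.mem_Icc] at hn
    by_cases h0 : n < 0
    · rw [hw.2 n h0, map_zero, mul_zero]
    · have h1 : ¬ |n| ≤ (M : ℤ) := by
        rw [abs_of_nonneg (by omega)]; omega
      rw [cf_sM, if_neg h1, zero_mul]
  rw [h.unique h2]
  calc ‖∑ n ∈ Finset.Icc (0 : ℤ) M, cf (sM M f) n * conj (cf w n)‖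
      ≤ ∑ n ∈ Finset.Icc (0 : ℤ) M, A * a := by
        refine norm_sum_le_of_le _ fun n hn => ?_
        rw [Finset.mem_Icc] at hn
        rw [norm_mul, RCLike.norm_conj]
        exact mul_le_mul (BMul_cf_sM_le M hf hA n) (ha n hn.2) (norm_nonneg _) hA0
    _ = (M + 1) * A * a := by
        rw [Finset.sum_const, Int.card_Icc, nsmul_eq_mul]
        have : (((M : ℤ) + 1 - 0).toNat : ℝ) = M + 1 := by
          have e : ((M : ℤ) + 1 - 0).toNat = M + 1 := by omega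
          rw [e]; push_cast; ring
        rw [this]; ring

theorem pair_An0 (M : ℕ) {f b : T → ℂ} {A a : ℝ} (hf : L2 f) (hA : ∀ x, ‖f x‖ ≤ A) (hb : An0 b)
    (ha : ∀ j : ℤ, j ≤ M → ‖cf b j‖ ≤ a) : ‖∫ x, sM M f x * b x‖ ≤ (M + 1) * A * a := by
  have hA0 : 0 ≤ A := (norm_nonneg _).trans (hA 0)
  have ha0 : 0 ≤ a := (norm_nonneg _).trans (ha 0 (by omega))
  have h := parseval (sM_BM M f).L2 hb.1.conj
  have e1 : ∀ n, conj (cf (fun x => conj (b x)) n) = cf b (-n) := by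
    intro n
    rw [cf_conj, Complex.conj_conj]
  simp_rw [e1, Complex.conj_conj] at h
  have h2 : HasSum (fun n : ℤ => cf (sM M f) n * cf b (-n))
      (∑ n ∈ Finset.Icc (-(M : ℤ)) 0, cf (sM M f) n * cf b (-n)) := by
    apply hasSum_sum_of_ne_finset_zero
    intro n hn
    rw [Finset.mem_Icc] at hn
    by_cases h0 : 0 ≤ n
    · rw [hb.2 (-n) (by omega), mul_zero]
    · have h1 : ¬ |n| ≤ (M : ℤ) := by
        rw [abs_of_neg (by omega)]; omega
      rw [cf_sM, if_neg h1, zero_mul]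
  rw [h.unique h2]
  calc ‖∑ n ∈ Finset.Icc (-(M : ℤ)) 0, cf (sM M f) n * cf b (-n)‖
      ≤ ∑ n ∈ Finset.Icc (-(M : ℤ)) 0, A * a := by
        refine norm_sum_le_of_le _ fun n hn => ?_
        rw [Finset.mem_Icc] at hn
        rw [norm_mul]
        exact mul_le_mul (BMul_cf_sM_le M hf hA n) (ha (-n) (by omega)) (norm_nonneg _) hA0
    _ = (M + 1) * A * a := by
        rw [Finset.sum_const, Int.card_Icc, nsmul_eq_mul]
        have : ((0 + 1 - (-(M : ℤ))).toNat : ℝ) = M + 1 := by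
          have e : (0 + 1 - (-(M : ℤ))).toNat = M + 1 := by omega
          rw [e]; push_cast; ring
        rw [this]; ring

end CH.B
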