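import Pool.Agent.CH.BFej2

/-! # CH-BOut: outer functions (B1)
PROOF. `phi := 2 Pp a - cf a 0`, `phi_n := sM n phi` (trigonometric polynomial, `Re phi_n = sM n a >= 0`), `q_n = exp (- phi_n)`: `|q_n| <= 1`, negative coefficients
`0` and `cf q_n 0 = exp (- cf a 0)`: `q_n(x) = G (e_1 x)` for the entire function `G(z) = exp (- P(z))`, `P` a polynomial (mean value property).
`|exp(-z) - exp(-w)| <= |z - w|` for `Re z, Re w >= 0`, `phi_n -> phi` in `L2`, `q := exp (- phi)`: `cf q j = lim cf q_n j`.
Change `q` on a null set (`q x := exp (- a x)` where `Re phi x != a x`) to have `|q x| = exp (- a x)` everywhere.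
`int |1-q|^2 = 1 - 2 Re cf q 0 + int |q|^2 <= 2 - 2 exp (- int a) <= 2 int a`. -/

open MeasureTheory Complex Filter Topology
open scoped ComplexConjugate

namespace CH.B

/-- mean value property -/
private theorem BOut_mean {G : ℂ → ℂ} (hG : Differentiable ℂ G) : ∫ x : T, G (e 1 x) = G 0 := by
  have h1 : Real.circleAverage G 0 1 = G 0 := DiffContOnCl.circleAverage hG.diffContOnCl
  have h2 : ∫ x : T, G (e 1 x) = ∫ t in (0 : ℝ)..(0 + 1), G (e 1 (t : T)) :=
    (UnitAddCircle.intervalIntegral_preimage 0 (fun x : T => G (e 1 x))).symm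
  have h3 : ∀ t : ℝ, G (e 1 (t : T)) = G (circleMap 0 1 (2 * Real.pi * t)) := by
    intro t
    rw [e_coe, circleMap]
    congr 1
    push_cast
    rw [zero_add, one_mul]
    congr 1
    ring
  have hpi : (2 * Real.pi) ≠ 0 := by positivity
  rw [h2, ← h1, Real.circleAverage_def]
  simp only [h3, zero_add]
  rw [intervalIntegral.integral_comp_mul_left (fun t => G (circleMap 0 1 t)) hpi, mul_zero, mul_one]

private theorem BOut_e_pow (j : ℕ) (x : T) : e (j : ℤ) x = e 1 x ^ j := by
  induction j with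
  | zero => simp
  | succ n ih => rw [Nat.cast_succ, e_add, ih, pow_succ]

/-- `exp` of an analytic trigonometric polynomial -/
private theorem BOut_exp (M : ℕ) (b : ℕ → ℂ) (k : ℕ) :
    cf (fun x => exp (-(∑ j ∈ Finset.range (M + 1), b j * e (j : ℤ) x))) (-(k : ℤ)) =
      if k = 0 then exp (-(b 0)) else 0 := by
  have hd : Differentiable ℂ (fun z : ℂ =>
      exp (-(∑ j ∈ Finset.range (M + 1), b j * z ^ j)) * z ^ k) := by
    refine Differentiable.mul (Differentiable.cexp (Differentiable.neg ?_)) (differentiable_pow k)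
    exact Differentiable.fun_sum fun j _ => (differentiable_const _).mul (differentiable_pow j)
  have h := BOut_mean hd
  unfold cf
  have h1 : ∀ x : T, exp (-(∑ j ∈ Finset.range (M + 1), b j * e (j : ℤ) x)) *
      conj (e (-(k : ℤ)) x) = exp (-(∑ j ∈ Finset.range (M + 1), b j * e 1 x ^ j)) * e 1 x ^ k := by
    intro x
    rw [conj_e, neg_neg, BOut_e_pow k]
    congr 3
    exact Finset.sum_congr rfl fun j _ => by rw [BOut_e_pow]
  simp only [h1]
  rw [h]
  by_cases hk : k = 0
  · subst hk
    rw [if_pos rfl, pow_zero, mul_one, Finset.sum_eq_single 0]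
    · simp
    · intro j _ hj
      simp [hj]
    · simp
  · rw [if_neg hk, zero_pow hk, mul_zero]

private theorem BOut_lip {z w : ℂ} (hz : 0 ≤ z.re) (hw : 0 ≤ w.re) :
    ‖exp (-z) - exp (-w)‖ ≤ ‖z - w‖ := by
  have hconv : Convex ℝ {z : ℂ | z.re ≤ 0} := convex_halfSpace_re_le 0
  have h := hconv.norm_image_sub_le_of_norm_deriv_le (f := exp) (C := 1) (x := -w) (y := -z)
    (fun x _ => differentiable_exp x) (fun x hx => by
      rw [Complex.deriv_exp, norm_exp]
      exact Real.exp_le_one_iff.2 hx) (by simpa using hw) (by simpa using hz)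
  rw [one_mul, neg_sub_neg, norm_sub_rev w z] at h
  exact h

theorem outer (a : T → ℝ) (ha : Measurable a) (h0 : ∀ x, 0 ≤ a x) (h2 : L2 (fun x => (a x : ℂ))) :
    ∃ q : T → ℂ, Measurable q ∧ (∀ x, ‖q x‖ = Real.exp (- a x)) ∧ An q ∧
      ∫ x, ‖1 - q x‖ ^ 2 ≤ 2 * ∫ x, a x := by
  classical
  have hai : Integrable a := by
    have := h2.integrable.re
    simpa using this
  have hac : Measurable (fun x => (a x : ℂ)) := Complex.measurable_ofReal.comp ha
  -- the mean
  have hc0 : cf (fun x => (a x : ℂ)) 0 = ((∫ x, a x : ℝ) : ℂ) := by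
    unfold cf
    rw [← integral_complex_ofReal]
    congr 1; ext x; simp
  have hcneg : ∀ n : ℤ, cf (fun x => (a x : ℂ)) (-n) = conj (cf (fun x => (a x : ℂ)) n) := by
    intro n
    have h := cf_conj (fun x => (a x : ℂ)) (-n)
    rw [neg_neg] at h
    rw [← h]
    congr 1
    ext x
    simp
  -- the function phi
  obtain ⟨phi, hphi⟩ : ∃ phi : T → ℂ, phi = fun x => 2 * Pp (fun x => (a x : ℂ)) x +
    (-(((∫ x, a x : ℝ) : ℂ))) * 1 := ⟨_, rfl⟩
  have hone : L2 (fun _ : T => (1 : ℂ)) := memLp_const 1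
  have hcf1 : ∀ n : ℤ, cf (fun _ : T => (1 : ℂ)) n = if n = 0 then 1 else 0 := by
    intro n
    have := cf_e 0 n
    have h : (e 0 : T → ℂ) = fun _ => 1 := by ext x; simp
    rwa [h] at this
  have hphiL : L2 phi := by
    rw [hphi]
    exact ((Pp_L2 _).const_mul 2).add (hone.const_mul _)
  have hphim : Measurable phi := by
    rw [hphi]
    fun_prop
  have hcphi : ∀ n : ℤ, cf phi n = (if 0 ≤ n then 2 * cf (fun x => (a x : ℂ)) n else 0) -
      (if n = 0 then ((∫ x, a x : ℝ) : ℂ) else 0) := by
    intro n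
    rw [hphi, cf_add ((Pp_L2 _).const_mul 2).integrable (hone.const_mul _).integrable,
      cf_const_mul, cf_const_mul, cf_Pp h2, hcf1]
    split_ifs <;> ring
  -- Re phi = a a.e.
  have hre : ∀ᵐ x, phi x + conj (phi x) = 2 * (a x : ℂ) := by
    refine ext_cf (hphiL.add hphiL.conj) (h2.const_mul 2) fun n => ?_
    rw [cf_add hphiL.integrable hphiL.conj.integrable, cf_conj, cf_const_mul, hcphi, hcphi]
    rcases lt_trichotomy n 0 with hn | hn | hn
    · rw [if_neg (by omega), if_neg (by omega), if_pos (by omega), if_neg (by omega), hcneg]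
      simp only [zero_sub, neg_zero, sub_zero, zero_add, map_mul, Complex.conj_conj,
        Complex.conj_ofNat]
    · subst hn
      simp only [neg_zero, le_refl, if_true, hc0, map_sub, map_mul, Complex.conj_ofReal]
      rw [show conj (2 : ℂ) = 2 from Complex.conj_ofNat 2]
      ring
    · rw [if_pos (by omega), if_neg (by omega), if_neg (by omega), if_neg (by omega)]
      simp
  -- the approximations
  have hsMre : ∀ (M : ℕ) (x : T), 0 ≤ (sM M phi x).re := by
    intro M x
    have h1 : sM M (fun x => phi x + conj (phi x)) = sM M (fun x => 2 * (a x : ℂ)) :=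
      sM_congr M hre
    rw [sM_add M hphiL.integrable hphiL.conj.integrable, sM_const_mul, sM_conj] at h1
    obtain ⟨r, hr0, hr⟩ := sM_nonneg M a hai h0 x
    have h3 := congrFun h1 x
    simp only at h3
    rw [hr] at h3
    have h4 := congrArg Complex.re h3
    simp at h4
    linarith
  have hsMf : ∀ (M : ℕ) (x : T), sM M phi x = ∑ j ∈ Finset.range (M + 1),
      (((1 - |((j : ℤ) : ℝ)| / (M + 1) : ℝ)) : ℂ) * cf phi j * e (j : ℤ) x := by
    intro M x
    unfold sM
    symm
    rw [← Finset.sum_image (s := Finset.range (M + 1)) (g := fun j : ℕ => (j : ℤ))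
      (f := fun j : ℤ => (((1 - |(j : ℝ)| / (M + 1) : ℝ)) : ℂ) * cf phi j * e j x)]
    · refine Finset.sum_subset ?_ ?_
      · intro j hj
        rw [Finset.mem_image] at hj
        obtain ⟨i, hi, rfl⟩ := hj
        rw [Finset.mem_range] at hi
        rw [Finset.mem_Icc]
        omega
      · intro j hj hj'
        rw [Finset.mem_Icc] at hj
        have hneg : j < 0 := by
          by_contra hcon
          apply hj'
          rw [Finset.mem_image]
          exact ⟨j.toNat, by rw [Finset.mem_range]; omega, by omega⟩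
        rw [hcphi, if_neg (by omega), if_neg (by omega)]
        simp
    · intro i _ j _ hij
      exact Int.natCast_inj.1 hij
  have hqM : ∀ (M k : ℕ), cf (fun x => exp (-(sM M phi x))) (-(k : ℤ)) =
      if k = 0 then exp (-((∫ x, a x : ℝ) : ℂ)) else 0 := by
    intro M k
    have h := BOut_exp M (fun j => (((1 - |((j : ℤ) : ℝ)| / (M + 1) : ℝ)) : ℂ) * cf phi j) k
    have h1 : (fun x => exp (-(sM M phi x))) = fun x => exp (-(∑ j ∈ Finset.range (M + 1),
      (((1 - |((j : ℤ) : ℝ)| / (M + 1) : ℝ)) : ℂ) * cf phi j * e (j : ℤ) x)) := by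
      ext x
      rw [hsMf]
    rw [h1, h]
    split_ifs with hk
    · congr 2
      rw [Nat.cast_zero, hcphi, if_pos le_rfl, if_pos rfl, hc0]
      simp
      ring
    · rfl
  -- the function q
  obtain ⟨q, hq⟩ : ∃ q : T → ℂ, q = fun x => if (phi x).re = a x then exp (-(phi x)) else
    exp (-(a x : ℂ)) := ⟨_, rfl⟩
  have hqm : Measurable q := by
    rw [hq]
    refine Measurable.ite ?_ (by fun_prop) (by fun_prop)
    exact measurableSet_eq_fun (Complex.measurable_re.comp hphim) ha
  have hqn : ∀ x, ‖q x‖ = Real.exp (- a x) := by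
    intro x
    rw [hq]
    simp only
    split_ifs with h
    · rw [norm_exp, Complex.neg_re, h]
    · rw [norm_exp, Complex.neg_re, Complex.ofReal_re]
  have hq1 : ∀ x, ‖q x‖ ≤ 1 := fun x => by
    rw [hqn]; exact Real.exp_le_one_iff.2 (neg_nonpos.2 (h0 x))
  have hqBM : BM q := ⟨hqm, 1, hq1⟩
  have hre' : ∀ᵐ x, (phi x).re = a x := by
    filter_upwards [hre] with x hx
    have h4 := congrArg Complex.re hx
    simp at h4
    linarith
  have hqae : ∀ᵐ x, q x = exp (-(phi x)) ∧ 0 ≤ (phi x).re := by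
    filter_upwards [hre'] with x hx
    refine ⟨?_, by rw [hx]; exact h0 x⟩
    rw [hq]
    simp only
    rw [if_pos hx]
  -- limits of the coefficients
  have hlim : ∀ k : ℕ, cf q (-(k : ℤ)) = if k = 0 then exp (-((∫ x, a x : ℝ) : ℂ)) else 0 := by
    intro k
    have hb : ∀ M : ℕ, ‖cf q (-(k : ℤ)) - (if k = 0 then exp (-((∫ x, a x : ℝ) : ℂ)) else 0)‖ ≤
        Real.sqrt (∫ x, ‖phi x - sM M phi x‖ ^ 2) := by
      intro M
      have hBM : BM (fun x => exp (-(sM M phi x))) := by
        refine ⟨by have := (sM_continuous M phi).measurable; fun_prop, 1, fun x => ?_⟩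
        rw [norm_exp, Complex.neg_re]
        exact Real.exp_le_one_iff.2 (neg_nonpos.2 (hsMre M x))
      rw [← hqM M k, ← cf_sub hqBM.L2.integrable hBM.L2.integrable]
      refine (norm_cf_le _).trans ?_
      have hd : L2 (fun x => phi x - sM M phi x) := hphiL.sub (sM_BM M phi).L2
      refine le_trans ?_ (int_norm_le hd)
      refine integral_mono_ae (hqBM.L2.sub hBM.L2).integrable.norm hd.integrable.norm ?_
      filter_upwards [hqae] with x hx
      rw [hx.1]
      exact BOut_lip hx.2 (hsMre M x)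
    have ht := sM_tendsto hphiL
    have ht2 : Tendsto (fun M : ℕ => Real.sqrt (∫ x, ‖phi x - sM M phi x‖ ^ 2)) atTop (𝓝 0) := by
      have := (Real.continuous_sqrt.tendsto 0).comp ht
      rwa [Real.sqrt_zero] at this
    have h3 := ge_of_tendsto' ht2 hb
    have h4 := norm_le_zero_iff.1 h3
    exact sub_eq_zero.1 h4
  refine ⟨q, hqm, hqn, ⟨hqBM.L2, fun n hn => ?_⟩, ?_⟩
  · have h := hlim n.natAbs
    rw [if_neg (by omega)] at h
    have e1 : (-((n.natAbs : ℕ) : ℤ)) = n := by omega
    rwa [e1] at h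
  · have hqint : ∫ x, q x = exp (-((∫ x, a x : ℝ) : ℂ)) := by
      have h := hlim 0
      rw [if_pos rfl] at h
      rw [← h]
      unfold cf
      congr 1; ext x; simp
    have hqre : ∫ x, (q x).re = Real.exp (-(∫ x, a x)) := by
      have h1 : ∫ x, (q x).re = (∫ x, q x).re := integral_re hqBM.L2.integrable
      rw [h1, hqint, ← Complex.ofReal_neg, Complex.exp_ofReal_re]
    have h1 : ∀ x, ‖1 - q x‖ ^ 2 ≤ 2 - 2 * (q x).re := by
      intro x
      have h3 : ‖1 - q x‖ ^ 2 = 1 - 2 * (q x).re + ‖q x‖ ^ 2 := by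
        rw [← Complex.normSq_eq_norm_sq, ← Complex.normSq_eq_norm_sq, Complex.normSq_apply,
          Complex.normSq_apply]
        simp
        ring
      rw [h3]
      have := hq1 x
      have h4 := norm_nonneg (q x)
      nlinarith
    have h5 : ∫ x, ‖1 - q x‖ ^ 2 ≤ ∫ x, (2 - 2 * (q x).re) := by
      refine integral_mono ((hone.sub hqBM.L2).integrable_sq) ?_ h1
      exact (integrable_const _).sub (hqBM.L2.integrable.re.const_mul 2)
    have h6 : ∫ x, (2 - 2 * (q x).re) = 2 - 2 * Real.exp (-(∫ x, a x)) := by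
      have hr : Integrable (fun x : T => (q x).re) := hqBM.L2.integrable.re
      rw [integral_sub (integrable_const _) (hr.const_mul 2), integral_const_mul, hqre]
      simp
    rw [h6] at h5
    have h7 := Real.add_one_le_exp (-(∫ x, a x))
    linarith

end CH.B
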