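import Pool.Agent.CH.BK0
import Pool.Agent.CH.BSem
import Pool.Agent.CH.BOut
import Pool.Agent.CH.BMul
import Pool.Agent.CH.BLog

/-! # CH-BLemK: Lemma K (B5), assembly of K0, outer, BLog, BMul, BSem -/

open MeasureTheory Complex
open scoped ComplexConjugate

namespace CH.B

/-- the conclusion of Lemma K with constant `C1` -/
def LemKP (C1 : ℝ) : Prop := ∀ (lam tau : ℝ) (h h' : T → ℂ), 100 ≤ lam → 0 < tau →
  Fam 1 h → Fam 2 h' → ∃ hs ks q : T → ℂ, An hs ∧ An ks ∧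
    Real.sqrt (∫ x, ‖h x - hs x‖ ^ 2) ≤ tau ∧ Real.sqrt (∫ x, ‖h' x - ks x‖ ^ 2) ≤ tau ∧
    Measurable q ∧ (∀ x, ‖q x‖ ≤ 1) ∧ An q ∧ ∫ x, ‖1 - q x‖ ^ 2 ≤ C1 / lam ∧
    (∀ x, ‖q x * hs x‖ ≤ lam ^ 3) ∧ (∀ x, ‖q x * ks x‖ ≤ lam ^ 3) ∧
    ∀ (v : T → ℂ) (c : ℝ), BM v → 0 ≤ c → NB v c → ‖∫ x, v x * conj (q x * hs x)‖ ≤ C1 * c

private theorem bl_meas {ι : Type} [Fintype ι] (m : ι → ℕ) (g : ι → T → ℂ) :
    Measurable (hf m g) := by
  unfold hf
  exact Finset.measurable_sum _ fun i _ => (e_measurable _).mul (Pp_measurable _)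

private theorem bl_cost {ι : Type} [Fintype ι] {g : ι → T → ℂ} (hg : ∀ i, BM (g i)) :
    Integrable (fun x => ∑ i, ‖g i x‖) :=
  integrable_finsetSum _ fun i _ => (hg i).L2.integrable.norm

private theorem bl_w (n : T → ℕ) (hn : Measurable n) : Measurable (fun x => (1 / 2 : ℝ) ^ (n x)) :=
  measurable_from_top.comp hn

private theorem bl_w01 (n : ℕ) : 0 ≤ (1 / 2 : ℝ) ^ n ∧ (1 / 2 : ℝ) ^ n ≤ 1 :=
  ⟨by positivity, pow_le_one₀ (by norm_num) (by norm_num)⟩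

private theorem bl_wI {n : T → ℕ} (hn : Measurable n) {F : T → ℝ} (hF : Integrable F) :
    Integrable (fun x => (1 / 2 : ℝ) ^ (n x) * F x) := by
  refine hF.bdd_mul (c := 1) (bl_w n hn).aestronglyMeasurable (ae_of_all _ fun x => ?_)
  rw [Real.norm_eq_abs, abs_of_nonneg (bl_w01 _).1]
  exact (bl_w01 _).2

private theorem bl_F {n : T → ℕ} (hn : Measurable n) {f f0 : T → ℂ} (hf : L2 f) (hf0 : L2 f0)
    {C lam : ℝ} (hC : 1 ≤ C) (h1 : ∫ x, ‖f0 x‖ ^ 2 ≤ C * lam)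
    (h2 : ∫ x, (1 / 2 : ℝ) ^ (n x) * ‖f x - f0 x‖ ≤ C) :
    ∫ x, (1 / 2 : ℝ) ^ (n x) * ‖f x‖ ≤ C * (Real.sqrt lam + 1) := by
  have hI0 : Integrable (fun x => ‖f0 x‖) := hf0.integrable.norm
  have hI1 : Integrable (fun x => (1 / 2 : ℝ) ^ (n x) * ‖f x - f0 x‖) :=
    bl_wI hn (hf.sub hf0).integrable.norm
  have h3 : ∫ x, (1 / 2 : ℝ) ^ (n x) * ‖f x‖ ≤
      ∫ x, ((1 / 2 : ℝ) ^ (n x) * ‖f x - f0 x‖ + ‖f0 x‖) := by
    refine integral_mono (bl_wI hn hf.integrable.norm) (hI1.add hI0) fun x => ?_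
    show (1 / 2 : ℝ) ^ (n x) * ‖f x‖ ≤ (1 / 2 : ℝ) ^ (n x) * ‖f x - f0 x‖ + ‖f0 x‖
    obtain ⟨w0, w1⟩ := bl_w01 (n x)
    have h4 : ‖f x‖ ≤ ‖f x - f0 x‖ + ‖f0 x‖ := by
      have := norm_add_le (f x - f0 x) (f0 x)
      simpa using this
    have h5 := norm_nonneg (f0 x)
    nlinarith
  rw [integral_add hI1 hI0] at h3
  have h6 : ∫ x, ‖f0 x‖ ≤ C * Real.sqrt lam := by
    refine (int_norm_le hf0).trans ((Real.sqrt_le_sqrt h1).trans ?_)
    rw [Real.sqrt_mul (by linarith)]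
    refine mul_le_mul_of_nonneg_right ?_ (Real.sqrt_nonneg _)
    rw [Real.sqrt_le_left (by linarith)]
    nlinarith
  linarith

theorem LemK (C0 : ℝ) (hC : ThmC C0) : ∃ C1 : ℝ, 1 ≤ C1 ∧ LemKP C1 := by
  obtain ⟨C, hC1, hK0⟩ := K0 C0 hC
  refine ⟨14 * C, by linarith, ?_⟩
  rintro lam tau h h' hl ht ⟨ι, _, m, g, hg, hcg, he⟩ ⟨ι', _, m', g', hg', hcg', he'⟩
  have hC0 : 0 < C := by linarith
  have hl0 : 0 < lam := by linarith
  have hl1 : 1 ≤ lam := by linarith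
  -- the level
  have ht2 : 0 < tau ^ 2 := by positivity
  obtain ⟨S, hS1, hS2⟩ := (((hf_cE_tendsto m hg).eventually_lt_const ht2).and
    ((hf_cE_tendsto m' hg').eventually_lt_const ht2)).exists
  set gS : ι → T → ℂ := fun i => cE S (g i) with hgS
  set gS' : ι' → T → ℂ := fun i => cE S (g' i) with hgS'
  have hB : ∀ i, BM (gS i) := fun i => cE_BM S (g i)
  have hB' : ∀ i, BM (gS' i) := fun i => cE_BM S (g' i)
  obtain ⟨nu, hnu⟩ : ∃ nu : T → ℝ, nu = fun x => (∑ i, ‖gS i x‖) + ∑ i, ‖gS' i x‖ := ⟨_, rfl⟩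
  have hNu : Nu S nu := by
    refine ⟨?_, ?_, ?_⟩
    · intro x y hxy
      rw [hnu]
      show (∑ i, ‖gS i x‖) + ∑ i, ‖gS' i x‖ = (∑ i, ‖gS i y‖) + ∑ i, ‖gS' i y‖
      congr 1
      · exact Finset.sum_congr rfl fun i _ => by simp only [hgS]; rw [cE_Step S (g i) x y hxy]
      · exact Finset.sum_congr rfl fun i _ => by simp only [hgS']; rw [cE_Step S (g' i) x y hxy]
    · intro x
      rw [hnu]
      exact add_nonneg (Finset.sum_nonneg fun i _ => norm_nonneg _)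
        (Finset.sum_nonneg fun i _ => norm_nonneg _)
    · rw [hnu, integral_add (bl_cost hB) (bl_cost hB')]
      have h1 := cost_cE hg S
      have h2 := cost_cE hg' S
      unfold cost at h1 h2 hcg hcg'
      simp only [hgS, hgS']
      linarith
  obtain ⟨n, hnm, hnb, hni, hfam⟩ := hK0 S nu lam hl hNu
  obtain ⟨g0, hg0, hc0, hq0, hd0⟩ := hfam ι m gS (fun i => cE_Step S (g i)) (fun x => by
    rw [hnu]
    exact le_add_of_nonneg_right (Finset.sum_nonneg fun i _ => norm_nonneg _))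
  obtain ⟨g1, hg1, hc1, hq1, hd1⟩ := hfam ι' m' gS' (fun i => cE_Step S (g' i)) (fun x => by
    rw [hnu]
    exact le_add_of_nonneg_left (Finset.sum_nonneg fun i _ => norm_nonneg _))
  set hs : T → ℂ := hf m gS with hhs
  set ks : T → ℂ := hf m' gS' with hks
  set h0 : T → ℂ := hf m g0 with hh0
  set k0 : T → ℂ := hf m' g1 with hk0
  have hsm : Measurable hs := bl_meas m gS
  have ksm : Measurable ks := bl_meas m' gS'
  have hs2 : L2 hs := hf_L2 m gS
  have ks2 : L2 ks := hf_L2 m' gS'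
  have h02 : L2 h0 := hf_L2 m g0
  have k02 : L2 k0 := hf_L2 m' g1
  have hsA : An hs := Fam_An ⟨ι, inferInstance, m, gS, hB, le_rfl, Filter.EventuallyEq.rfl⟩
  have ksA : An ks := Fam_An ⟨ι', inferInstance, m', gS', hB', le_rfl, Filter.EventuallyEq.rfl⟩
  have hF0 : Fam 1 h0 := ⟨ι, inferInstance, m, g0, hg0,
    hc0.trans ((cost_cE hg S).trans hcg), Filter.EventuallyEq.rfl⟩
  -- the logarithms
  have hlg1 : ∫ x, lg ‖hs x‖ lam ≤ 3 * C / lam :=
    lg_int hs2.integrable.norm (fun x => norm_nonneg _) hnm hnb hl1 hC0.le hni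
      (bl_F hnm hs2 h02 hC1 hq0 hd0)
  have hlg2 : ∫ x, lg ‖ks x‖ lam ≤ 3 * C / lam :=
    lg_int ks2.integrable.norm (fun x => norm_nonneg _) hnm hnb hl1 hC0.le hni
      (bl_F hnm ks2 k02 hC1 hq1 hd1)
  have hlgm : ∀ {f : T → ℂ}, Measurable f → Measurable (fun x => lg ‖f x‖ lam) := by
    intro f hf
    unfold lg
    exact measurable_const.max (Real.measurable_log.comp (hf.norm.div_const _))
  obtain ⟨a, ha⟩ : ∃ a : T → ℝ, a = fun x => Real.log 2 * (n x : ℝ) + lg ‖hs x‖ lam +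
    lg ‖ks x‖ lam := ⟨_, rfl⟩
  have hnmR : Measurable (fun x => (n x : ℝ)) := measurable_from_top.comp hnm
  have ham : Measurable a := by
    rw [ha]
    exact ((measurable_const.mul hnmR).add (hlgm hsm)).add (hlgm ksm)
  have hlog2 : 0 < Real.log 2 := Real.log_pos (by norm_num)
  have hlog21 : Real.log 2 ≤ 1 := by
    have := Real.log_two_lt_d9
    linarith
  have ha0 : ∀ x, 0 ≤ a x := by
    intro x
    rw [ha]
    exact add_nonneg (add_nonneg (mul_nonneg hlog2.le (Nat.cast_nonneg _)) (lg_nonneg _ _))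
      (lg_nonneg _ _)
  obtain ⟨B, hBn⟩ := hnb
  have hnI : Integrable (fun x => (n x : ℝ)) := by
    refine Integrable.of_bound hnmR.aestronglyMeasurable (B : ℝ) (ae_of_all _ fun x => ?_)
    rw [Real.norm_eq_abs, abs_of_nonneg (Nat.cast_nonneg _)]
    exact_mod_cast hBn x
  have hone : L2 (fun _ : T => ((B : ℝ) : ℂ)) := memLp_const _
  have hs2' : L2 (fun x => ((‖hs x‖ : ℝ) : ℂ)) := by
    refine MemLp.of_le hs2 (Complex.measurable_ofReal.comp hsm.norm).aestronglyMeasurable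
      (ae_of_all _ fun x => ?_)
    rw [Complex.norm_real, norm_norm]
  have ks2' : L2 (fun x => ((‖ks x‖ : ℝ) : ℂ)) := by
    refine MemLp.of_le ks2 (Complex.measurable_ofReal.comp ksm.norm).aestronglyMeasurable
      (ae_of_all _ fun x => ?_)
    rw [Complex.norm_real, norm_norm]
  have haL : L2 (fun x => (a x : ℂ)) := by
    refine MemLp.of_le ((hone.add hs2').add ks2')
      (Complex.measurable_ofReal.comp ham).aestronglyMeasurable (ae_of_all _ fun x => ?_)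
    show ‖(a x : ℂ)‖ ≤ ‖((B : ℝ) : ℂ) + ((‖hs x‖ : ℝ) : ℂ) + ((‖ks x‖ : ℝ) : ℂ)‖
    rw [← Complex.ofReal_add, ← Complex.ofReal_add, Complex.norm_real, Complex.norm_real,
      Real.norm_eq_abs, Real.norm_eq_abs, abs_of_nonneg (ha0 x), abs_of_nonneg (by positivity), ha]
    show Real.log 2 * (n x : ℝ) + lg ‖hs x‖ lam + lg ‖ks x‖ lam ≤ _
    have e1 := lg_le (F := ‖hs x‖) (norm_nonneg _) hl1
    have e2 := lg_le (F := ‖ks x‖) (norm_nonneg _) hl1
    have e3 : (n x : ℝ) ≤ B := by exact_mod_cast hBn x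
    have e4 : (0 : ℝ) ≤ n x := Nat.cast_nonneg _
    nlinarith
  have hlgI : ∀ {f : T → ℂ}, Measurable f → L2 f → Integrable (fun x => lg ‖f x‖ lam) := by
    intro f hf hf2
    refine Integrable.mono hf2.integrable.norm (hlgm hf).aestronglyMeasurable
      (ae_of_all _ fun x => ?_)
    rw [Real.norm_eq_abs, abs_of_nonneg (lg_nonneg _ _), norm_norm]
    exact lg_le (norm_nonneg _) hl1
  have hai : ∫ x, a x ≤ 7 * C / lam := by
    have e1 : ∫ x, a x = Real.log 2 * (∫ x, (n x : ℝ)) + (∫ x, lg ‖hs x‖ lam) +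
        ∫ x, lg ‖ks x‖ lam := by
      have f1 : ∫ x, (Real.log 2 * (n x : ℝ) + lg ‖hs x‖ lam + lg ‖ks x‖ lam) =
          (∫ x, (Real.log 2 * (n x : ℝ) + lg ‖hs x‖ lam)) + ∫ x, lg ‖ks x‖ lam :=
        integral_add ((hnI.const_mul _).add (hlgI hsm hs2)) (hlgI ksm ks2)
      have f2 : ∫ x, (Real.log 2 * (n x : ℝ) + lg ‖hs x‖ lam) =
          (∫ x, Real.log 2 * (n x : ℝ)) + ∫ x, lg ‖hs x‖ lam :=
        integral_add (hnI.const_mul _) (hlgI hsm hs2)
      rw [ha]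
      show ∫ x, (Real.log 2 * (n x : ℝ) + lg ‖hs x‖ lam + lg ‖ks x‖ lam) = _
      rw [f1, f2, integral_const_mul]
    have e2 : (0 : ℝ) ≤ ∫ x, (n x : ℝ) := integral_nonneg fun x => Nat.cast_nonneg _
    have e3 : Real.log 2 * (∫ x, (n x : ℝ)) ≤ C / lam := by nlinarith
    rw [e1]
    have e4 : 7 * C / lam = C / lam + 3 * C / lam + 3 * C / lam := by ring
    rw [e4]
    linarith
  obtain ⟨q, hqm, hqn, hqA, hq2⟩ := outer a ham ha0 haL
  have hq1' : ∀ x, ‖q x‖ ≤ 1 := by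
    intro x
    rw [hqn, Real.exp_le_one_iff]
    linarith [ha0 x]
  have hqI : ∫ x, ‖1 - q x‖ ^ 2 ≤ 14 * C / lam := by
    refine hq2.trans ?_
    have : 14 * C / lam = 2 * (7 * C / lam) := by ring
    rw [this]
    linarith
  have hp1 : ∀ x, Real.exp (- a x) ≤ Real.exp (- lg ‖hs x‖ lam) := by
    intro x
    refine Real.exp_le_exp.2 (neg_le_neg ?_)
    rw [ha]
    show lg ‖hs x‖ lam ≤ Real.log 2 * (n x : ℝ) + lg ‖hs x‖ lam + lg ‖ks x‖ lam
    have e1 := lg_nonneg ‖ks x‖ lam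
    have e2 : 0 ≤ Real.log 2 * (n x : ℝ) := mul_nonneg hlog2.le (Nat.cast_nonneg _)
    linarith
  have hp2 : ∀ x, Real.exp (- a x) ≤ Real.exp (- lg ‖ks x‖ lam) := by
    intro x
    refine Real.exp_le_exp.2 (neg_le_neg ?_)
    rw [ha]
    show lg ‖ks x‖ lam ≤ Real.log 2 * (n x : ℝ) + lg ‖hs x‖ lam + lg ‖ks x‖ lam
    have e1 := lg_nonneg ‖hs x‖ lam
    have e2 : 0 ≤ Real.log 2 * (n x : ℝ) := mul_nonneg hlog2.le (Nat.cast_nonneg _)
    linarith
  have hp3 : ∀ x, ‖q x‖ ≤ (1 / 2 : ℝ) ^ (n x) := by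
    intro x
    have e0 : (1 / 2 : ℝ) ^ (n x) = Real.exp (- (Real.log 2 * (n x : ℝ))) := by
      rw [mul_comm, ← mul_neg, ← Real.log_inv, ← Real.log_pow, Real.exp_log (by positivity)]
      norm_num
    rw [hqn, e0]
    refine Real.exp_le_exp.2 (neg_le_neg ?_)
    rw [ha]
    show Real.log 2 * (n x : ℝ) ≤ Real.log 2 * (n x : ℝ) + lg ‖hs x‖ lam + lg ‖ks x‖ lam
    have e1 := lg_nonneg ‖ks x‖ lam
    have e2 := lg_nonneg ‖hs x‖ lam
    linarith
  refine ⟨hs, ks, q, hsA, ksA, ?_, ?_, hqm, hq1', hqA, hqI, ?_, ?_, ?_⟩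
  · have e1 : ∫ x, ‖h x - hs x‖ ^ 2 = ∫ x, ‖hf m g x - hs x‖ ^ 2 := by
      refine integral_congr_ae ?_
      filter_upwards [he] with x hx
      rw [hx]
    rw [e1]
    refine (Real.sqrt_le_sqrt hS1.le).trans ?_
    rw [Real.sqrt_sq ht.le]
  · have e1 : ∫ x, ‖h' x - ks x‖ ^ 2 = ∫ x, ‖hf m' g' x - ks x‖ ^ 2 := by
      refine integral_congr_ae ?_
      filter_upwards [he'] with x hx
      rw [hx]
    rw [e1]
    refine (Real.sqrt_le_sqrt hS2.le).trans ?_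
    rw [Real.sqrt_sq ht.le]
  · intro x
    rw [norm_mul, hqn]
    refine (mul_le_mul_of_nonneg_right (hp1 x) (norm_nonneg _)).trans ?_
    exact exp_lg (norm_nonneg _) hl1
  · intro x
    rw [norm_mul, hqn]
    refine (mul_le_mul_of_nonneg_right (hp2 x) (norm_nonneg _)).trans ?_
    exact exp_lg (norm_nonneg _) hl1
  · intro v c hv hc hN
    have hqh : An (fun x => q x * hs x) := An_mul hqA hqm 1 hq1' hsA
    have h0A : An h0 := Fam_An hF0
    have hlA : An (fun x => q x * hs x - h0 x) := by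
      refine ⟨hqh.1.sub h02, fun j hj => ?_⟩
      rw [cf_sub hqh.1.integrable h02.integrable, hqh.2 j hj, h0A.2 j hj, sub_zero]
    have e1 : ∫ x, v x * conj (q x * hs x) = (∫ x, v x * conj (h0 x)) +
        ∫ x, v x * conj (q x * hs x - h0 x) := by
      rw [← integral_add (hv.L2.integrable_mul_conj h02) (hv.L2.integrable_mul_conj hlA.1)]
      congr 1; ext x
      rw [map_sub]; ring
    have hone2 : L2 (fun x => 1 - q x) := by
      have : L2 (fun _ : T => (1 : ℂ)) := memLp_const 1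
      exact this.sub hqA.1
    have hl1n : ∫ x, ‖q x * hs x - h0 x‖ ≤ 5 * C := by
      have hI1 : Integrable (fun x => ‖1 - q x‖ * ‖h0 x‖) := by
        have := (hone2.integrable_mul h02).norm
        refine this.congr (ae_of_all _ fun x => ?_)
        show ‖(1 - q x) * h0 x‖ = ‖1 - q x‖ * ‖h0 x‖
        rw [norm_mul]
      have hI2 : Integrable (fun x => (1 / 2 : ℝ) ^ (n x) * ‖hs x - h0 x‖) :=
        bl_wI hnm (hs2.sub h02).integrable.norm
      have e2 : ∫ x, ‖q x * hs x - h0 x‖ ≤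
          ∫ x, (‖1 - q x‖ * ‖h0 x‖ + (1 / 2 : ℝ) ^ (n x) * ‖hs x - h0 x‖) := by
        refine integral_mono hlA.1.integrable.norm (hI1.add hI2) fun x => ?_
        show ‖q x * hs x - h0 x‖ ≤ ‖1 - q x‖ * ‖h0 x‖ + (1 / 2 : ℝ) ^ (n x) * ‖hs x - h0 x‖
        have e3 : q x * hs x - h0 x = -((1 - q x) * h0 x) + q x * (hs x - h0 x) := by ring
        rw [e3]
        refine (norm_add_le _ _).trans ?_
        rw [norm_neg, norm_mul, norm_mul]
        exact add_le_add le_rfl (mul_le_mul_of_nonneg_right (hp3 x) (norm_nonneg _))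
      rw [integral_add hI1 hI2] at e2
      have e4 : ∫ x, ‖1 - q x‖ * ‖h0 x‖ ≤ 4 * C := by
        refine (cs hone2 h02).trans ?_
        rw [← Real.sqrt_mul (integral_nonneg fun x => by positivity)]
        refine (Real.sqrt_le_left (by linarith)).2 ?_
        calc (∫ x, ‖1 - q x‖ ^ 2) * ∫ x, ‖h0 x‖ ^ 2 ≤ (14 * C / lam) * (C * lam) := by
              refine mul_le_mul hqI hq0 (integral_nonneg fun x => by positivity) (by positivity)
          _ = 14 * C ^ 2 := by field_simp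
          _ ≤ (4 * C) ^ 2 := by nlinarith
      linarith
    have hN1 : ‖∫ x, v x * conj (h0 x)‖ ≤ c * 1 := NB_Fam hv.L2 hc hN hF0
    have hN2 : ‖∫ x, v x * conj (q x * hs x - h0 x)‖ ≤ c * ∫ x, ‖q x * hs x - h0 x‖ :=
      NB_An hv.L2 hc hN hlA
    rw [e1]
    refine (norm_add_le _ _).trans ?_
    have e5 : c * ∫ x, ‖q x * hs x - h0 x‖ ≤ c * (5 * C) := mul_le_mul_of_nonneg_left hl1n hc
    nlinarith

end CH.B
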