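import Pool.Agent.CH.BOut

open MeasureTheory Complex
open scoped ComplexConjugate

namespace CH.B

theorem scales (A C1 W th : ℝ) (hA : 0 ≤ A) (hC : 0 ≤ C1) (hW : 0 ≤ W) (hth : 0 < th) :
    ∃ (K : ℕ) (kap : ℝ) (L lam : ℕ → ℝ), 0 < K ∧ 0 < kap ∧ kap < 1 ∧ 6 * A / K ≤ th ∧
      6 * kap * A ≤ th ∧ Monotone L ∧ (∀ k, 1 ≤ L k) ∧ (∀ k, 100 ≤ lam k) ∧
      (∀ k, A * L k * Real.sqrt (C1 / lam k) ≤ th) ∧ (∀ k, W * Real.sqrt (C1 / lam k) ≤ th) ∧
      (∀ k, A * lam k ^ 3 * Real.sqrt (6 * (1 + Real.log (1 / kap)) / L (k + 1)) ≤ th) ∧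
      (∀ k, W * Real.sqrt (6 * (1 + Real.log (1 / kap)) / L (k + 1)) ≤ th) := by
  obtain ⟨K, hK⟩ := exists_nat_ge (6 * A / th)
  obtain ⟨kap, hkap⟩ : ∃ kap : ℝ, kap = min (1 / 2) (th / (6 * A + 1)) := ⟨_, rfl⟩
  have hA1 : 0 < 6 * A + 1 := by linarith
  have hk0 : 0 < kap := by rw [hkap]; exact lt_min (by norm_num) (div_pos hth hA1)
  have hk1 : kap ≤ 1 / 2 := by rw [hkap]; exact min_le_left _ _
  have hk2 : kap ≤ th / (6 * A + 1) := by rw [hkap]; exact min_le_right _ _
  obtain ⟨c, hc⟩ : ∃ c : ℝ, c = 6 * (1 + Real.log (1 / kap)) := ⟨_, rfl⟩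
  have hc0 : 0 ≤ c := by
    rw [hc]
    have : 0 ≤ Real.log (1 / kap) := Real.log_nonneg (by rw [le_div_iff₀ hk0]; linarith)
    linarith
  let g : ℝ → ℝ := fun l => 100 + C1 * ((A * l + W + 1) / th) ^ 2
  let f : ℝ → ℝ := fun l => 1 + c * ((A * l ^ 3 + W + 1) / th) ^ 2
  let L : ℕ → ℝ := fun k => Nat.rec 1 (fun _ l => max l (f (g l))) k
  have hLs : ∀ k, L (k + 1) = max (L k) (f (g (L k))) := fun k => rfl
  have hLm : Monotone L := monotone_nat_of_le_succ fun k => by rw [hLs]; exact le_max_left _ _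
  have hL1 : ∀ k, 1 ≤ L k := fun k => by
    have : L 0 ≤ L k := hLm (Nat.zero_le k)
    exact this
  have hg : ∀ l, 100 ≤ g l := fun l => by
    have : 0 ≤ C1 * ((A * l + W + 1) / th) ^ 2 := by positivity
    change 100 ≤ 100 + _
    linarith
  have key : ∀ (C y lam : ℝ), 0 ≤ C → 0 < y → 0 < lam → C * (y / th) ^ 2 ≤ lam →
      Real.sqrt (C / lam) ≤ th / y := by
    intro C y lam hC hy hl h
    rw [Real.sqrt_le_left (by positivity)]
    rw [div_le_iff₀ hl]
    have h1 : (th / y) ^ 2 * (C * (y / th) ^ 2) ≤ (th / y) ^ 2 * lam :=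
      mul_le_mul_of_nonneg_left h (by positivity)
    have h2 : (th / y) ^ 2 * (C * (y / th) ^ 2) = C := by
      field_simp
    linarith
  have key2 : ∀ (x y s : ℝ), 0 ≤ x → x ≤ y → 0 < y → s ≤ th / y → x * s ≤ th := by
    intro x y s hx hxy hy hs
    calc x * s ≤ x * (th / y) := mul_le_mul_of_nonneg_left hs hx
      _ ≤ y * (th / y) := mul_le_mul_of_nonneg_right hxy (by positivity)
      _ = th := by field_simp
  have hs1 : ∀ k, Real.sqrt (C1 / g (L k)) ≤ th / (A * L k + W + 1) := fun k => by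
    have h1 := hL1 k
    refine key C1 _ _ hC (by positivity) (by linarith [hg (L k)]) ?_
    change _ ≤ 100 + _
    linarith
  have hs2 : ∀ k, Real.sqrt (c / L (k + 1)) ≤ th / (A * g (L k) ^ 3 + W + 1) := fun k => by
    have h1 := hg (L k)
    refine key c _ _ hc0 (by positivity) (by linarith [hL1 (k + 1)]) ?_
    rw [hLs]
    refine le_trans ?_ (le_max_right _ _)
    change _ ≤ 1 + _
    linarith
  refine ⟨K + 1, kap, L, fun k => g (L k), Nat.succ_pos K, hk0, by linarith, ?_, ?_, hLm, hL1,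
    fun k => hg _, ?_, ?_, ?_, ?_⟩
  · rw [div_le_iff₀ (by positivity)]
    rw [div_le_iff₀ hth] at hK
    push_cast
    nlinarith
  · have h3 : kap * (6 * A + 1) ≤ th := by rwa [le_div_iff₀ hA1] at hk2
    nlinarith
  · intro k
    have h1 := hL1 k
    exact key2 _ _ _ (by positivity) (by linarith) (by positivity) (hs1 k)
  · intro k
    have h1 := hL1 k
    have h2 : 0 ≤ A * L k := by positivity
    exact key2 _ _ _ hW (by linarith) (by positivity) (hs1 k)
  · intro k
    have h1 := hg (L k)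
    rw [← hc]
    have h2 : 0 ≤ A * g (L k) ^ 3 := by positivity
    exact key2 _ _ _ h2 (by linarith) (by linarith) (hs2 k)
  · intro k
    have h1 := hg (L k)
    rw [← hc]
    have h2 : 0 ≤ A * g (L k) ^ 3 := by positivity
    exact key2 _ _ _ hW (by linarith) (by linarith) (hs2 k)

theorem pigeon {B : T → ℝ} (hm : Measurable B) (hi : Integrable B) (h0 : ∀ x, 0 ≤ B x)
    (h3 : ∫ x, B x ≤ 3) (L : ℕ → ℝ) (hL : Monotone L) (K : ℕ) (hK : 0 < K) :
    ∃ k < K, ∫ x in {x | L k < B x ∧ B x ≤ L (k + 1)}, B x ≤ 3 / K := by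
  by_contra hcon
  push Not at hcon
  have hS : ∀ k, MeasurableSet {x | L k < B x ∧ B x ≤ L (k + 1)} := fun k =>
    (measurableSet_lt measurable_const hm).inter (measurableSet_le hm measurable_const)
  have h1 : ∑ k ∈ Finset.range K, ∫ x in {x | L k < B x ∧ B x ≤ L (k + 1)}, B x ≤ ∫ x, B x := by
    rw [← integral_biUnion_finset]
    · exact setIntegral_le_integral hi (ae_of_all _ h0)
    · intro k _; exact hS k
    · intro i _ j _ hij
      rw [Function.onFun, Set.disjoint_left]
      rintro x ⟨hx1, hx2⟩ ⟨hx3, hx4⟩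
      rcases lt_or_gt_of_ne hij with h | h
      · have : L (i + 1) ≤ L j := hL h
        linarith
      · have : L (j + 1) ≤ L i := hL h
        linarith
    · intro k _; exact hi.integrableOn
  have h2 : ∑ k ∈ Finset.range K, (3 / K : ℝ) <
      ∑ k ∈ Finset.range K, ∫ x in {x | L k < B x ∧ B x ≤ L (k + 1)}, B x := by
    apply Finset.sum_lt_sum_of_nonempty (by simpa using hK.ne')
    intro k hk
    exact hcon k (Finset.mem_range.1 hk)
  rw [Finset.sum_const, Finset.card_range, nsmul_eq_mul] at h2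
  have hK' : (0 : ℝ) < K := by exact_mod_cast hK
  rw [mul_div_cancel₀ _ hK'.ne'] at h2
  linarith

theorem cut {B : T → ℝ} (hm : Measurable B) (h2 : L2 (fun x => (B x : ℂ))) (h0 : ∀ x, 0 ≤ B x)
    (h3 : ∫ x, B x ≤ 3) (L kap : ℝ) (hL : 1 ≤ L) (hk : 0 < kap) (hk1 : kap < 1) :
    ∃ q : T → ℂ, Measurable q ∧ (∀ x, ‖q x‖ ≤ 1) ∧ An q ∧
      ∫ x, ‖1 - q x‖ ^ 2 ≤ 6 * (1 + Real.log (1 / kap)) / L ∧
      ∀ x, L < B x → ‖q x‖ * B x ≤ kap * L := by
  classical
  have hlk : 0 ≤ Real.log (1 / kap) := Real.log_nonneg (by rw [le_div_iff₀ hk]; linarith)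
  have hL0 : 0 < L := by linarith
  obtain ⟨a, ha⟩ : ∃ a : T → ℝ, a = fun x => if L < B x then Real.log (B x / (kap * L)) else 0 :=
    ⟨_, rfl⟩
  have ham : Measurable a := by
    rw [ha]
    exact Measurable.ite (measurableSet_lt measurable_const hm)
      (Real.measurable_log.comp (hm.div_const _)) measurable_const
  have hdec : ∀ x, L < B x → Real.log (B x / (kap * L)) =
      Real.log (B x / L) + Real.log (1 / kap) := fun x hx => by
    have hB : 0 < B x := hL0.trans hx
    rw [← Real.log_mul (by positivity) (by positivity)]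
    congr 1
    field_simp
  have ha0 : ∀ x, 0 ≤ a x := fun x => by
    rw [ha]
    simp only
    split_ifs with h
    · rw [hdec x h]
      have : 0 ≤ Real.log (B x / L) := Real.log_nonneg (by rw [le_div_iff₀ hL0]; linarith)
      linarith
    · exact le_rfl
  have hab : ∀ x, a x ≤ B x * ((1 + Real.log (1 / kap)) / L) := fun x => by
    rw [ha]
    simp only
    split_ifs with h
    · rw [hdec x h]
      have hB : 0 < B x := hL0.trans h
      have h1 : Real.log (B x / L) ≤ B x / L := by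
        have := Real.log_le_sub_one_of_pos (show 0 < B x / L by positivity)
        linarith
      have h4 : 1 ≤ B x / L := by rw [le_div_iff₀ hL0]; linarith
      have h5 : Real.log (1 / kap) ≤ B x / L * Real.log (1 / kap) := by nlinarith
      calc Real.log (B x / L) + Real.log (1 / kap) ≤
            B x / L + B x / L * Real.log (1 / kap) := by linarith
        _ = B x * ((1 + Real.log (1 / kap)) / L) := by ring
    · have := h0 x
      positivity
  have haL2 : L2 (fun x => (a x : ℂ)) := by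
    refine MemLp.of_le (h2.const_mul (((1 + Real.log (1 / kap)) / L : ℝ) : ℂ))
      (Complex.measurable_ofReal.comp ham).aestronglyMeasurable (ae_of_all _ fun x => ?_)
    rw [norm_mul, Complex.norm_real, Complex.norm_real, Complex.norm_real, Real.norm_eq_abs,
      Real.norm_eq_abs, Real.norm_eq_abs, abs_of_nonneg (ha0 x), abs_of_nonneg (h0 x),
      abs_of_nonneg (by positivity)]
    have := hab x
    linarith
  have hBi : Integrable B := by
    have h := h2.integrable.re
    exact h.congr (ae_of_all _ fun x => by simp)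
  have hai : Integrable a := by
    have h := haL2.integrable.re
    exact h.congr (ae_of_all _ fun x => by simp)
  obtain ⟨q, hq1, hq2, hq3, hq4⟩ := outer a ham ha0 haL2
  refine ⟨q, hq1, fun x => ?_, hq3, hq4.trans ?_, fun x hx => ?_⟩
  · rw [hq2 x, Real.exp_le_one_iff]
    linarith [ha0 x]
  · have h5 : ∫ x, a x ≤ ∫ x, B x * ((1 + Real.log (1 / kap)) / L) :=
      integral_mono hai (hBi.mul_const _) hab
    rw [integral_mul_const] at h5
    have h6 : (∫ x, B x) * ((1 + Real.log (1 / kap)) / L) ≤ 3 * ((1 + Real.log (1 / kap)) / L) :=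
      mul_le_mul_of_nonneg_right h3 (by positivity)
    calc 2 * ∫ x, a x ≤ 2 * (3 * ((1 + Real.log (1 / kap)) / L)) := by linarith
      _ = 6 * (1 + Real.log (1 / kap)) / L := by ring
  · have hB : 0 < B x := hL0.trans hx
    rw [hq2 x, ha]
    simp only
    rw [if_pos hx, Real.exp_neg, Real.exp_log (by positivity)]
    apply le_of_eq
    field_simp

end CH.B
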