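import Pool.Agent.CH.BCoB
import Pool.Agent.CH.BPig
import Pool.Agent.CH.BLemK

/-! # CH-BCore: the core lemma (B6), assembly of BPig, BLemK, BCoA, BCoB -/

open MeasureTheory Complex Filter Topology
open scoped ComplexConjugate

namespace CH.B

theorem BCore_L1_small {f : T → ℂ} (hf : BM f) {r : ℝ} (hr : 0 < r) :
    ∃ J : ℕ, ∫ x, ‖f x - sM J f x‖ ≤ r := by
  have h := sM_tendsto hf.L2
  have h2 : ∀ᶠ J : ℕ in atTop, ∫ x, ‖f x - sM J f x‖ ^ 2 < r ^ 2 :=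
    h.eventually (gt_mem_nhds (by positivity))
  obtain ⟨J, hJ⟩ := h2.exists
  refine ⟨J, ?_⟩
  have h3 : L2 (fun x => f x - sM J f x) := hf.L2.sub (sM_BM J f).L2
  refine (int_norm_le h3).trans ?_
  rw [← Real.sqrt_sq hr.le]
  exact Real.sqrt_le_sqrt hJ.le

theorem BCore_L2_mk {b : T → ℂ} (hb : L2 b) : ∃ b0 : T → ℂ, Measurable b0 ∧ b =ᵐ[volume] b0 :=
  ⟨hb.1.mk b, hb.1.stronglyMeasurable_mk.measurable, hb.1.ae_eq_mk⟩

theorem BCore_beta {b : T → ℂ} (hb : An0 b) (hb1 : ∫ x, ‖b x‖ ≤ 1) (M' : ℕ) :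
    An0 (fun x => b x - sM M' b x) ∧ ∫ x, ‖b x - sM M' b x‖ ≤ 2 := by
  have h1 := sM_An0 M' hb
  refine ⟨⟨hb.1.sub h1.1, fun n hn => ?_⟩, ?_⟩
  · rw [cf_sub hb.1.integrable h1.1.integrable, hb.2 n hn, h1.2 n hn, sub_zero]
  · have h2 : ∫ x, ‖b x - sM M' b x‖ ≤ ∫ x, (‖b x‖ + ‖sM M' b x‖) := by
      refine integral_mono (hb.1.sub h1.1).integrable.norm
        (hb.1.integrable.norm.add h1.1.integrable.norm) fun x => norm_sub_le _ _
    rw [integral_add hb.1.integrable.norm h1.1.integrable.norm] at h2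
    have h3 := int_norm_sM_le M' hb.1.integrable
    linarith

theorem Core {C1 : ℝ} (hC1 : 1 ≤ C1) (hK : LemKP C1) (E : Set T) {f : T → ℂ} {A : ℝ} (hf : BM f)
    (hA : ∀ x, ‖f x‖ ≤ A) (hE : ∀ x, x ∉ E → f x = 0) (M : ℕ) {eps eps' : ℝ} (h0 : 0 ≤ eps)
    (h1 : 0 < eps') (hN : NB (fun x => f x - sM M f x) eps)
    (hD : DB (fun x => f x - sM M f x) eps) :
    ∃ M' : ℕ, ∀ h h' b b' : T → ℂ, Fam 1 h → Fam 1 h' → An0 b → An0 b' → ∫ x, ‖b x‖ ≤ 1 →
      ∫ x, ‖b' x‖ ≤ 1 →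
      ∃ f' : T → ℂ, BM f' ∧ (∀ x, ‖f' x‖ ≤ A) ∧ (∀ x, x ∉ E → f' x = 0) ∧
        ‖∫ x, (f' x - f x) * conj (h x)‖ ≤ (C1 + 1) * eps + eps' ∧
        ‖∫ x, (f' x - f x) * b x‖ ≤ 2 * eps + eps' ∧
        ‖∫ x, f' x * conj (h' x - sM M' h' x)‖ ≤ eps' ∧
        ‖∫ x, f' x * (b' x - sM M' b' x)‖ ≤ eps' ∧
        ‖∫ x, (f' x - f x)‖ ≤ eps' := by
  have hA0 : 0 ≤ A := (norm_nonneg _).trans (hA 0)
  set th : ℝ := eps' / 8 with hth
  have hth0 : 0 < th := by positivity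
  set W : ℝ := 2 * A * ((M : ℝ) + 1) ^ 2 with hW
  have hW0 : 0 ≤ W := by positivity
  obtain ⟨K, kap, L, lam, hK0, hk0, hk1, hs1, hs2, hLm, hL1, hl1, hs3, hs4, hs5, hs6⟩ :=
    scales A C1 W th hA0 (by linarith) hW0 hth0
  have hlam0 : ∀ k, 0 ≤ lam k := fun k => by have := hl1 k; linarith
  set R : ℝ := (∑ k ∈ Finset.range K, lam k ^ 3) + L K + 1 with hR
  have hLK : 1 ≤ L K := hL1 K
  have hS0 : 0 ≤ ∑ k ∈ Finset.range K, lam k ^ 3 :=
    Finset.sum_nonneg fun k _ => pow_nonneg (hlam0 k) 3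
  have hR0 : 0 < R := by positivity
  have hR1 : ∀ k < K, lam k ^ 3 ≤ R := fun k hk => by
    have := Finset.single_le_sum (f := fun k => lam k ^ 3) (fun k _ => pow_nonneg (hlam0 k) 3)
      (Finset.mem_range.2 hk)
    linarith
  have hR2 : ∀ k < K, L (k + 1) ≤ R := fun k hk => by
    have := hLm (Nat.succ_le_of_lt hk)
    simp only [Nat.succ_eq_add_one] at this
    linarith
  obtain ⟨J, hJ⟩ := BCore_L1_small hf (r := th / R) (by positivity)
  have hJR : R * ∫ x, ‖f x - sM J f x‖ ≤ th := by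
    have := mul_le_mul_of_nonneg_left hJ hR0.le
    rwa [mul_div_cancel₀ _ hR0.ne'] at this
  have hJ0 : 0 ≤ ∫ x, ‖f x - sM J f x‖ := integral_nonneg fun x => norm_nonneg _
  -- M'
  obtain ⟨M', hM'⟩ := exists_nat_ge (((J : ℝ) + 1) ^ 2 * A * J / th)
  have hM2 : ((J : ℝ) + 1) ^ 2 * A * (J / ((M' : ℝ) + 1)) ≤ th := by
    have h2 : ((J : ℝ) + 1) ^ 2 * A * J ≤ M' * th := by
      rwa [div_le_iff₀ hth0] at hM'
    have h3 : (0 : ℝ) < (M' : ℝ) + 1 := by positivity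
    rw [← mul_div_assoc, div_le_iff₀ h3]
    nlinarith
  -- tau
  set Z : ℝ := 4 * A + ((J : ℝ) + 1) ^ 2 * A + 1 with hZ
  have hZ0 : 0 < Z := by positivity
  set tau : ℝ := min 1 (th / Z) with htau
  have ht0 : 0 < tau := lt_min one_pos (by positivity)
  have ht1 : tau ≤ 1 := min_le_left _ _
  have htZ : Z * tau ≤ th := by
    have := mul_le_mul_of_nonneg_left (min_le_right 1 (th / Z)) hZ0.le
    rwa [mul_div_cancel₀ _ hZ0.ne'] at this
  have htA : 4 * A * tau ≤ th := by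
    refine le_trans ?_ htZ
    apply mul_le_mul_of_nonneg_right _ ht0.le
    rw [hZ]; nlinarith [sq_nonneg ((J : ℝ) + 1)]
  have htJ : ((J : ℝ) + 1) ^ 2 * A * tau ≤ th := by
    refine le_trans ?_ htZ
    apply mul_le_mul_of_nonneg_right _ ht0.le
    rw [hZ]; nlinarith
  have htA1 : A * tau ≤ th := by
    refine le_trans ?_ htA
    apply mul_le_mul_of_nonneg_right _ ht0.le
    linarith
  refine ⟨M', fun h h' b b' hh hh' hb hb' hb1 hb1' => ?_⟩
  -- h''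
  have hh'' : Fam 2 (fun x => h' x - sM M' h' x) := by
    have h2 := Fam_add hh' (Fam_smul (-1) (Fam_sM M' hh'))
    refine Fam_congr (Fam_mono h2 (by norm_num)) (ae_of_all _ fun x => ?_)
    ring
  obtain ⟨hbe, hbe1⟩ := BCore_beta hb' hb1' M'
  obtain ⟨b0, hb0m, hb0⟩ := BCore_L2_mk hb.1
  obtain ⟨β0, hβ0m, hβ0⟩ := BCore_L2_mk hbe.1
  set B : T → ℝ := fun x => ‖b0 x‖ + ‖β0 x‖ with hB
  have hBm : Measurable B := by fun_prop
  have hb0L : L2 b0 := hb.1.congr hb0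
  have hβ0L : L2 β0 := hbe.1.congr hβ0
  have hB2 : L2 (fun x => (B x : ℂ)) := by
    have e1 : L2 (fun x => ((‖b0 x‖ : ℝ) : ℂ)) :=
      MemLp.of_le hb0L (by fun_prop) (ae_of_all _ fun x => by simp)
    have e2 : L2 (fun x => ((‖β0 x‖ : ℝ) : ℂ)) :=
      MemLp.of_le hβ0L (by fun_prop) (ae_of_all _ fun x => by simp)
    refine (e1.add e2).congr (ae_of_all _ fun x => ?_)
    simp [hB]
  have hBi : Integrable B := hb0L.integrable.norm.add hβ0L.integrable.norm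
  have hB0 : ∀ x, 0 ≤ B x := fun x => by positivity
  have hB3 : ∫ x, B x ≤ 3 := by
    rw [hB, integral_add hb0L.integrable.norm hβ0L.integrable.norm]
    have e1 : ∫ x, ‖b0 x‖ = ∫ x, ‖b x‖ := integral_congr_ae (by
      filter_upwards [hb0] with x hx; rw [hx])
    have e2 : ∫ x, ‖β0 x‖ = ∫ x, ‖b' x - sM M' b' x‖ := integral_congr_ae (by
      filter_upwards [hβ0] with x hx; rw [← hx])
    rw [e1, e2]; linarith
  obtain ⟨k, hkK, hpig⟩ := pigeon hBm hBi hB0 hB3 L hLm K hK0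
  obtain ⟨hs, ks, q2, hhs, hks, ht_h, ht_k, hq2m, hq2l, hq2a, hq2d, hq2h, hq2k, hv⟩ :=
    hK (lam k) tau h _ (hl1 k) ht0 hh hh''
  obtain ⟨q1, hq1m, hq1l, hq1a, hq1d, hq1B⟩ :=
    cut hBm hB2 hB0 hB3 (L (k + 1)) kap (hL1 _) hk0 hk1
  have Q1 : Mu q1 := ⟨hq1m, hq1l, hq1a⟩
  have Q2 : Mu q2 := ⟨hq2m, hq2l, hq2a⟩
  have d1 : dl q1 ≤ Real.sqrt (6 * (1 + Real.log (1 / kap)) / L (k + 1)) :=
    Real.sqrt_le_sqrt hq1d
  have d2 : dl q2 ≤ Real.sqrt (C1 / lam k) := Real.sqrt_le_sqrt hq2d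
  have d10 := dl_nonneg q1
  have d20 := dl_nonneg q2
  have hLk0 : 0 ≤ L k := by have := hL1 k; linarith
  have e1 : A * L k * dl q2 ≤ th := (mul_le_mul_of_nonneg_left d2 (by positivity)).trans (hs3 k)
  have e2 : W * dl q2 ≤ th := (mul_le_mul_of_nonneg_left d2 hW0).trans (hs4 k)
  have e3 : A * lam k ^ 3 * dl q1 ≤ th :=
    (mul_le_mul_of_nonneg_left d1 (mul_nonneg hA0 (pow_nonneg (hlam0 k) 3))).trans (hs5 k)
  have e4 : W * dl q1 ≤ th := (mul_le_mul_of_nonneg_left d1 hW0).trans (hs6 k)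
  have hM1 : (1 : ℝ) ≤ ((M : ℝ) + 1) ^ 2 := by
    have : (0 : ℝ) ≤ M := Nat.cast_nonneg M
    nlinarith
  have hWA : A ≤ W := by rw [hW]; nlinarith
  have hWA2 : A * ((M : ℝ) + 1) ^ 2 ≤ W := by
    rw [hW]; have := mul_nonneg hA0 (by positivity : (0 : ℝ) ≤ ((M : ℝ) + 1) ^ 2); linarith
  -- (b)
  have hb' : ∫ x, ‖q2 x - 1‖ * (‖q1 x‖ * B x) ≤ L k * dl q2 + 6 / K + 6 * kap :=
    core_b hBm hB2 hB0 hB3 Q1 Q2 hLk0 (by have := hL1 (k + 1); linarith) hpig hk0.le hq1B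
  set be : ℝ := L k * dl q2 + 6 / K + 6 * kap with hbeta
  have hAbe : A * be ≤ 3 * th := by
    rw [hbeta]
    have : A * (L k * dl q2 + 6 / K + 6 * kap) = A * L k * dl q2 + 6 * A / K + 6 * kap * A := by
      ring
    rw [this]; linarith
  have hint : ∀ u : T → ℂ, L2 u → Integrable (fun x => ‖q2 x - 1‖ * (‖q1 x‖ * ‖u x‖)) := by
    intro u hu
    have h2 : L2 (fun x => (q2 x - 1) * (q1 x * u x)) := by
      refine (hu.bdd_mul hq1m.aestronglyMeasurable 1 (ae_of_all _ hq1l)).bdd_mul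
        (by fun_prop) 2 (ae_of_all _ fun x => ?_)
      refine (norm_sub_le _ _).trans ?_
      have := hq2l x
      simp only [norm_one]; linarith
    refine h2.integrable.norm.congr (ae_of_all _ fun x => ?_)
    simp only [norm_mul]
  have hbb : ∫ x, ‖q2 x - 1‖ * (‖q1 x‖ * ‖b x‖) ≤ be := by
    refine le_trans ?_ hb'
    refine integral_mono_ae (hint b hb.1) ?_ ?_
    · refine ((hint b0 hb0L).add (hint β0 hβ0L)).congr (ae_of_all _ fun x => ?_)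
      simp only [hB, Pi.add_apply]; ring
    · filter_upwards [hb0] with x hx
      simp only [hB]
      rw [hx]
      have : 0 ≤ ‖β0 x‖ := norm_nonneg _
      gcongr
      linarith
  have hbbe : ∫ x, ‖q2 x - 1‖ * (‖q1 x‖ * ‖b' x - sM M' b' x‖) ≤ be := by
    refine le_trans ?_ hb'
    refine integral_mono_ae (hint _ hbe.1) ?_ ?_
    · refine ((hint b0 hb0L).add (hint β0 hβ0L)).congr (ae_of_all _ fun x => ?_)
      simp only [hB, Pi.add_apply]; ring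
    · filter_upwards [hβ0] with x hx
      simp only [hB]
      rw [hx]
      have : 0 ≤ ‖b0 x‖ := norm_nonneg _
      gcongr
      linarith
  have hLam : ∀ᵐ x, ‖q1 x‖ * ‖b' x - sM M' b' x‖ ≤ L (k + 1) := by
    filter_upwards [hβ0] with x hx
    rw [hx]
    have hBx : ‖β0 x‖ ≤ B x := by
      have : 0 ≤ ‖b0 x‖ := norm_nonneg _
      simp only [hB]; linarith
    have hL1' := hL1 (k + 1)
    by_cases hc : L (k + 1) < B x
    · have h2 := hq1B x hc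
      have h3 : ‖q1 x‖ * ‖β0 x‖ ≤ ‖q1 x‖ * B x := by gcongr
      nlinarith
    · have h3 : ‖q1 x‖ * ‖β0 x‖ ≤ 1 * B x := by
        gcongr
        exact hq1l x
      push Not at hc
      linarith
  refine ⟨fun x => f x * q1 x * conj (q2 x), ⟨?_, A, ?_⟩, ?_, ?_, ?_, ?_, ?_, ?_, ?_⟩
  · have := hf.1; fun_prop
  · intro x
    rw [norm_mul, norm_mul, RCLike.norm_conj]
    have a1 := hA x; have a2 := hq1l x; have a3 := hq2l x
    calc ‖f x‖ * ‖q1 x‖ * ‖q2 x‖ ≤ A * 1 * 1 := by gcongr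
      _ = A := by ring
  · intro x
    rw [norm_mul, norm_mul, RCLike.norm_conj]
    have a1 := hA x; have a2 := hq1l x; have a3 := hq2l x
    calc ‖f x‖ * ‖q1 x‖ * ‖q2 x‖ ≤ A * 1 * 1 := by gcongr
      _ = A := by ring
  · intro x hx
    simp only [hE x hx, zero_mul]
  · have h2 := core_i hf hA Q1 Q2 h0 hN hh hhs ht_h ht1 (hlam0 k) hq2h hv
    refine h2.trans ?_
    have : 2 * A * ((M : ℝ) + 1) ^ 2 * dl q2 ≤ th := e2
    linarith
  · have h2 := core_ii hf hA Q1 Q2 h0 hD hb hb1 hbb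
    refine h2.trans ?_
    have : A * ((M : ℝ) + 1) ^ 2 * dl q1 ≤ th :=
      (mul_le_mul_of_nonneg_right hWA2 d10).trans e4
    linarith
  · have h2 := core_iii (J := J) hf hA Q1 Q2 hh' hks ht_k (hlam0 k) hq2k
    refine h2.trans ?_
    have i1 : lam k ^ 3 * ∫ x, ‖f x - sM J f x‖ ≤ th :=
      (mul_le_mul_of_nonneg_right (hR1 k hkK) hJ0).trans hJR
    have i2 : ((J : ℝ) + 1) ^ 2 * A * (tau + J / ((M' : ℝ) + 1)) ≤ 2 * th := by
      rw [mul_add]; linarith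
    linarith
  · have h2 := core_iv (J := J) hf hA Q1 Q2 ‹An0 b'› hb1' hbbe hLam
    refine h2.trans ?_
    have i1 : L (k + 1) * ∫ x, ‖f x - sM J f x‖ ≤ th :=
      (mul_le_mul_of_nonneg_right (hR2 k hkK) hJ0).trans hJR
    linarith
  · have h2 := core_v hf hA Q1 Q2
    refine h2.trans ?_
    have i1 : A * dl q1 ≤ th := (mul_le_mul_of_nonneg_right hWA d10).trans e4
    have i2 : A * dl q2 ≤ th := (mul_le_mul_of_nonneg_right hWA d20).trans e2
    rw [mul_add]; linarith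

end CH.B
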