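import Pool.Agent.CH.Defs

/-! # CH-BDy: dyadic geometry of the circle
`rep x in [0,1)` is the representative of `x` (`AddCircle.equivIco`), `idx s x = floor (2^s rep x)`, `D s n = {x | idx s x = n}`.
* `rep_coe`: `AddCircle.coe_equivIco` / `(AddCircle.equivIco 1 0).symm_apply_apply`. `idx_lt`: `rep x < 1`.
* `idx_div`: `Nat.floor_div_natCast`-type identity (`⌊2^s r⌋ / 2^(s-s') = ⌊2^s r / 2^(s-s')⌋ = ⌊2^s' r⌋`).
* `idx_measurable`: `AddCircle.measurableEquivIco` (or: `rep` is measurable), `Nat.measurable_floor`.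
* `D_vol`: the preimage of `D s n` in `[0,1)` is `[n/2^s, (n+1)/2^s)`; `AddCircle.measurePreserving_mk` / `AddCircle.volume_...`,
  `measurePreserving_equivIco`-type lemmas.
* `D_dist`: `x = (rep x : T)`, `cpt s n = (n/2^s : T)`, `‖(a : T) - (b : T)‖ ≤ |a - b|` (`AddCircle.norm_eq`/quotient norm), `|rep x - n/2^s| ≤ 1/2^s`.
* `cpt_dist`: `n = n' 2^(s-s') + j`, `j ≤ 2^(s-s') - 1`, so `n/2^s - n'/2^s' = j/2^s ≤ 1/2^s' - 1/2^s`.
* `ball_vol`: `AddCircle.volume_closedBall` (`= min 1 (2r)`).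
* `Nb_sub`: `‖x - cpt s' n'‖ < 2/2^s + (1/2^s' - 1/2^s) ≤ 2/2^s'`.  -/

open MeasureTheory Complex
open scoped ComplexConjugate

namespace CH.B

/-- neighbourhood of the dyadic interval `D s n` -/
def Nb (s n : ℕ) : Set T := {x | ‖x - cpt s n‖ < 2 / 2 ^ s}

private theorem BDy_rep_mem (x : T) : rep x ∈ Set.Ico (0 : ℝ) 1 := by
  have h := (AddCircle.equivIco (1 : ℝ) 0 x).2
  exact ⟨h.1, lt_of_lt_of_eq h.2 (zero_add 1)⟩

theorem rep_nonneg (x : T) : 0 ≤ rep x := (BDy_rep_mem x).1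

theorem rep_lt_one (x : T) : rep x < 1 := (BDy_rep_mem x).2

theorem rep_coe (x : T) : ((rep x : ℝ) : T) = x := AddCircle.coe_equivIco

private theorem BDy_rep_of_mem {r : ℝ} (h0 : 0 ≤ r) (h1 : r < 1) : rep ((r : ℝ) : T) = r := by
  unfold rep
  have h : r ∈ Set.Ico (0 : ℝ) (0 + 1) := ⟨h0, by rw [zero_add]; exact h1⟩
  exact AddCircle.equivIco_coe_of_mem h

private theorem BDy_rep_measurable : Measurable rep := by
  have h := (AddCircle.measurableEquivIco (1 : ℝ) 0).measurable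
  exact measurable_subtype_coe.comp h

private theorem BDy_pow_pos (s : ℕ) : (0 : ℝ) < 2 ^ s := by positivity

theorem idx_measurable (s : ℕ) : Measurable (idx s) := by
  unfold idx
  exact Nat.measurable_floor.comp (BDy_rep_measurable.const_mul _)

theorem idx_lt (s : ℕ) (x : T) : idx s x < 2 ^ s := by
  unfold idx
  have h0 : 0 ≤ (2 : ℝ) ^ s * rep x := mul_nonneg (BDy_pow_pos s).le (rep_nonneg x)
  rw [Nat.floor_lt h0]
  have h1 : (2 : ℝ) ^ s * rep x < 2 ^ s * 1 := mul_lt_mul_of_pos_left (rep_lt_one x) (BDy_pow_pos s)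
  rw [mul_one] at h1
  exact_mod_cast h1

theorem idx_div {s s' : ℕ} (h : s' ≤ s) (x : T) : idx s x / 2 ^ (s - s') = idx s' x := by
  unfold idx
  have h1 : ((2 ^ (s - s') : ℕ) : ℝ) = (2 : ℝ) ^ (s - s') := by push_cast; rfl
  rw [← Nat.floor_div_natCast, h1]
  congr 1
  have h2 : (2 : ℝ) ^ s = 2 ^ s' * 2 ^ (s - s') := by
    rw [← pow_add]; congr 1; omega
  have h3 : (2 : ℝ) ^ (s - s') ≠ 0 := (BDy_pow_pos _).ne'
  rw [h2]
  field_simp

theorem D_meas (s n : ℕ) : MeasurableSet (D s n) :=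
  (idx_measurable s) (measurableSet_singleton n)

private theorem BDy_mem_D {s n : ℕ} {r : ℝ} (h0 : 0 ≤ r) (h1 : r < 1) :
    ((r : ℝ) : T) ∈ D s n ↔ (n : ℝ) / 2 ^ s ≤ r ∧ r < (n + 1) / 2 ^ s := by
  have hp := BDy_pow_pos s
  have h2 : ((r : ℝ) : T) ∈ D s n ↔ ⌊(2 : ℝ) ^ s * r⌋₊ = n := by
    show idx s ((r : ℝ) : T) = n ↔ _
    unfold idx
    rw [BDy_rep_of_mem h0 h1]
  rw [h2, Nat.floor_eq_iff (mul_nonneg hp.le h0), div_le_iff₀ hp, lt_div_iff₀ hp, mul_comm r]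

theorem D_vol {s n : ℕ} (h : n < 2 ^ s) : volume.real (D s n) = 1 / 2 ^ s := by
  have hp := BDy_pow_pos s
  have hn : (n : ℝ) + 1 ≤ 2 ^ s := by exact_mod_cast h
  have h1 : volume (D s n) = ENNReal.ofReal (1 / 2 ^ s) := by
    rw [AddCircle.add_projection_respects_measure 1 0 (D_meas s n)]
    have hae : (QuotientAddGroup.mk ⁻¹' (D s n) ∩ Set.Ioc (0 : ℝ) (0 + 1) : Set ℝ) =ᵐ[volume]
        Set.Ico ((n : ℝ) / 2 ^ s) ((n + 1) / 2 ^ s) := by
      have hnull : ∀ᵐ r : ℝ, r ≠ 0 ∧ r ≠ 1 := by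
        have ha : ∀ᵐ r : ℝ, r ≠ 0 := by
          rw [ae_iff]; simp
        have hb : ∀ᵐ r : ℝ, r ≠ 1 := by
          rw [ae_iff]; simp
        exact ha.and hb
      filter_upwards [hnull] with r hr
      apply propext
      show (((r : ℝ) : T) ∈ D s n ∧ r ∈ Set.Ioc (0 : ℝ) (0 + 1)) ↔
        r ∈ Set.Ico ((n : ℝ) / 2 ^ s) ((n + 1) / 2 ^ s)
      rw [zero_add]
      constructor
      · rintro ⟨h3, h4⟩
        have h5 : r < 1 := lt_of_le_of_ne h4.2 hr.2
        exact (BDy_mem_D h4.1.le h5).1 h3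
      · intro h3
        have h4 : 0 ≤ r := le_trans (by positivity) h3.1
        have h5 : r < 1 := lt_of_lt_of_le h3.2 (by rw [div_le_one hp]; exact hn)
        exact ⟨(BDy_mem_D h4 h5).2 h3, lt_of_le_of_ne h4 (Ne.symm hr.1), h5.le⟩
    rw [measure_congr hae, Real.volume_Ico]
    congr 1
    rw [← sub_div]
    congr 1
    ring
  rw [Measure.real, h1, ENNReal.toReal_ofReal (by positivity)]

theorem D_nonempty {s n : ℕ} (h : n < 2 ^ s) : (D s n).Nonempty := by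
  have hp := BDy_pow_pos s
  have hn : (n : ℝ) < 2 ^ s := by exact_mod_cast h
  refine ⟨((n / 2 ^ s : ℝ) : T), ?_⟩
  rw [BDy_mem_D (by positivity) ((div_lt_one hp).2 hn)]
  refine ⟨le_refl _, ?_⟩
  apply div_lt_div_of_pos_right _ hp
  linarith

theorem D_sub {s n s' n' : ℕ} (h : tin s n s' n') : D s n ⊆ D s' n' := by
  intro x hx
  have hx' : idx s x = n := hx
  show idx s' x = n'
  rw [← idx_div h.1, hx']
  exact h.2

/-- two intersecting dyadic intervals are nested -/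
theorem D_nested {s n s' n' : ℕ} (hs : s' ≤ s) {x : T} (h : x ∈ D s n) (h' : x ∈ D s' n') :
    tin s n s' n' := by
  have h1 : idx s x = n := h
  have h2 : idx s' x = n' := h'
  refine ⟨hs, ?_⟩
  rw [← h1, ← h2]
  exact idx_div hs x

private theorem BDy_norm_coe_le (r : ℝ) : ‖((r : ℝ) : T)‖ ≤ |r| := by
  rw [UnitAddCircle.norm_eq]
  have h := round_le r 0
  simpa using h

theorem D_dist {s n : ℕ} {x : T} (h : x ∈ D s n) : ‖x - cpt s n‖ ≤ 1 / 2 ^ s := by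
  have hp := BDy_pow_pos s
  have h1 : ((rep x : ℝ) : T) ∈ D s n := by rw [rep_coe]; exact h
  have h2 := (BDy_mem_D (rep_nonneg x) (rep_lt_one x)).1 h1
  have h3 : x - cpt s n = ((rep x - n / 2 ^ s : ℝ) : T) := by
    rw [AddCircle.coe_sub, rep_coe]; rfl
  rw [h3]
  refine le_trans (BDy_norm_coe_le _) ?_
  rw [abs_le]
  have h4 : ((n : ℝ) + 1) / 2 ^ s = n / 2 ^ s + 1 / 2 ^ s := by rw [add_div]
  rw [h4] at h2
  have h5 : (0 : ℝ) < 1 / 2 ^ s := by positivity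
  constructor
  · linarith [h2.1]
  · linarith [h2.2]

theorem cpt_dist {s n s' n' : ℕ} (h : tin s n s' n') :
    ‖cpt s n - cpt s' n'‖ ≤ 1 / 2 ^ s' - 1 / 2 ^ s := by
  obtain ⟨hs, hn⟩ := h
  have hp := BDy_pow_pos s
  have hp' := BDy_pow_pos s'
  have hk : 0 < 2 ^ (s - s') := by positivity
  have h1 : n' * 2 ^ (s - s') ≤ n := by rw [← hn]; exact Nat.div_mul_le_self _ _
  have h2 : n < (n' + 1) * 2 ^ (s - s') := by
    rw [← hn, mul_comm]
    exact Nat.lt_mul_div_succ n hk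
  have h1' : (n' : ℝ) * 2 ^ (s - s') ≤ n := by exact_mod_cast h1
  have h2' : (n : ℝ) + 1 ≤ (n' + 1) * 2 ^ (s - s') := by exact_mod_cast h2
  have h3 : (2 : ℝ) ^ s = 2 ^ s' * 2 ^ (s - s') := by
    rw [← pow_add]; congr 1; omega
  have h4 : cpt s n - cpt s' n' = ((n / 2 ^ s - n' / 2 ^ s' : ℝ) : T) := by
    rw [AddCircle.coe_sub]; rfl
  have hq : (0 : ℝ) < 2 ^ (s - s') := BDy_pow_pos _
  have e1 : (n' : ℝ) / 2 ^ s' = n' * 2 ^ (s - s') / 2 ^ s := by
    rw [h3]; field_simp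
  have e2 : (1 : ℝ) / 2 ^ s' = 2 ^ (s - s') / 2 ^ s := by
    rw [h3]; field_simp
  rw [h4]
  refine le_trans (BDy_norm_coe_le _) ?_
  rw [e1, e2, ← sub_div, ← sub_div, abs_div, abs_of_pos hp]
  apply div_le_div_of_nonneg_right _ hp.le
  rw [abs_le]
  constructor
  · have : (1 : ℝ) ≤ 2 ^ (s - s') := one_le_pow₀ (by norm_num)
    linarith
  · linarith

theorem ball_vol (c : T) {r : ℝ} (hr : 0 ≤ r) : volume.real {x : T | ‖x - c‖ < r} ≤ 2 * r := by
  have h1 : {x : T | ‖x - c‖ < r} ⊆ Metric.closedBall c r := by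
    intro x hx
    rw [Metric.mem_closedBall, dist_eq_norm]
    exact le_of_lt hx
  have h2 : volume.real (Metric.closedBall c r) = min 1 (2 * r) := by
    have hv : volume (Metric.closedBall c r) = ENNReal.ofReal (min 1 (2 * r)) :=
      AddCircle.volume_closedBall 1 r
    rw [Measure.real, hv, ENNReal.toReal_ofReal (le_min zero_le_one (by linarith))]
  refine le_trans (measureReal_mono h1) ?_
  rw [h2]
  exact min_le_right _ _

theorem Nb_meas (s n : ℕ) : MeasurableSet (Nb s n) := by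
  apply measurableSet_lt _ measurable_const
  exact (continuous_id.sub continuous_const).norm.measurable

theorem Nb_vol (s n : ℕ) : volume.real (Nb s n) ≤ 4 / 2 ^ s := by
  have h := ball_vol (cpt s n) (r := 2 / 2 ^ s) (by positivity)
  refine le_trans h (le_of_eq ?_)
  ring

theorem Nb_sub {s n s' n' : ℕ} (h : tin s n s' n') : Nb s n ⊆ Nb s' n' := by
  intro x hx
  have hx' : ‖x - cpt s n‖ < 2 / 2 ^ s := hx
  show ‖x - cpt s' n'‖ < 2 / 2 ^ s'
  have h1 := cpt_dist h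
  have h2 : ‖x - cpt s' n'‖ ≤ ‖x - cpt s n‖ + ‖cpt s n - cpt s' n'‖ := by
    calc ‖x - cpt s' n'‖ = ‖(x - cpt s n) + (cpt s n - cpt s' n')‖ := by congr 1; abel
      _ ≤ _ := norm_add_le _ _
  have h3 : (1 : ℝ) / 2 ^ s ≤ 1 / 2 ^ s' := by
    apply div_le_div_of_nonneg_left zero_le_one (BDy_pow_pos s')
    exact pow_le_pow_right₀ (by norm_num) h.1
  have e1 : (2 : ℝ) / 2 ^ s = 2 * (1 / 2 ^ s) := by ring
  have e2 : (2 : ℝ) / 2 ^ s' = 2 * (1 / 2 ^ s') := by ring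
  rw [e1] at hx'
  rw [e2]
  linarith

theorem D_sub_Nb (s n : ℕ) : D s n ⊆ Nb s n := by
  intro x hx
  have h := D_dist hx
  show ‖x - cpt s n‖ < 2 / 2 ^ s
  refine lt_of_le_of_lt h ?_
  apply div_lt_div_of_pos_right _ (BDy_pow_pos s)
  norm_num

end CH.B
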