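import Pool.Agent.CH.BCZ

/-! # CH-BEE: the averaging operator of a finite set of disjoint dyadic intervals
`EE Q g` = average of `g` over `D p` on `D p` (`p ∈ Q`), `= g` elsewhere.
* `EE_on`, `EE_off`: from the definition and disjointness. `EE_BM`: finite sum of indicators. `EE_empty`: trivial.
* `EE_int_on`: if each `D p` is inside `D s n` or disjoint from it, then `int_{D s n} EE Q g = int_{D s n} g`
  (each term `int_{D s n} 1_{D p} (avr p g - g)` is `0`, `D_vol`).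
* `EE_sum_le_int`: with `sum_i |g_i| <= nu` and the same hypothesis: `int_{D s n} sum_i |EE Q g_i| <= int_{D s n} nu`
  (`sum_i |avr p g_i| <= avR nu p` (`norm_avr_le`), so pointwise `sum_i |EE Q g_i| <= EE Q nu`, and `EE_int_on` for `nu`).
* `EE_cost`: `int |EE Q g| <= int |g|` in the same way (no hypothesis, the whole circle).
* `EE_le`: for `Q = QQ S nu lam`: on `D p`: `sum_i |avr p g_i| <= avR nu p <= 2 lam` (`QQ_mem`); off: `<= nu x <= lam` (`QQ_off`). -/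

open MeasureTheory Complex
open scoped ComplexConjugate

namespace CH.B

/-- averaging over the members of `Q` -/
noncomputable def EE (Q : Finset (ℕ × ℕ)) (g : T → ℂ) (x : T) : ℂ :=
  g x + ∑ p ∈ Q, (D p.1 p.2).indicator (fun y => avr p.1 p.2 g - g y) x

theorem BEE_sum_on {E : Type} [AddCommMonoid E] {Q : Finset (ℕ × ℕ)} (hQ : Gd Q)
    (G : ℕ × ℕ → T → E) {p : ℕ × ℕ} (hp : p ∈ Q) {x : T} (hx : x ∈ D p.1 p.2) :
    ∑ q ∈ Q, (D q.1 q.2).indicator (G q) x = G p x := by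
  rw [Finset.sum_eq_single_of_mem p hp]
  · exact Set.indicator_of_mem hx _
  · intro q hq hqp
    refine Set.indicator_of_notMem (fun hxq => hqp ?_) _
    exact hQ.disj q hq p hp x hxq hx

theorem BEE_sum_off {E : Type} [AddCommMonoid E] {Q : Finset (ℕ × ℕ)}
    (G : ℕ × ℕ → T → E) {x : T} (hx : ∀ p ∈ Q, x ∉ D p.1 p.2) :
    ∑ q ∈ Q, (D q.1 q.2).indicator (G q) x = 0 :=
  Finset.sum_eq_zero fun q hq => Set.indicator_of_notMem (hx q hq) _

theorem EE_on {Q : Finset (ℕ × ℕ)} (hQ : Gd Q) (g : T → ℂ) {p : ℕ × ℕ} (hp : p ∈ Q) {x : T}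
    (hx : x ∈ D p.1 p.2) : EE Q g x = avr p.1 p.2 g := by
  unfold EE
  rw [BEE_sum_on hQ (fun p y => avr p.1 p.2 g - g y) hp hx]
  ring

theorem EE_off {Q : Finset (ℕ × ℕ)} (g : T → ℂ) {x : T} (hx : ∀ p ∈ Q, x ∉ D p.1 p.2) :
    EE Q g x = g x := by
  unfold EE
  rw [BEE_sum_off (fun p y => avr p.1 p.2 g - g y) hx, add_zero]

theorem EE_empty (g : T → ℂ) : EE ∅ g = g := by
  funext x; simp [EE]

theorem EE_BM (Q : Finset (ℕ × ℕ)) {g : T → ℂ} (hg : BM g) : BM (EE Q g) := by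
  obtain ⟨hm, B, hB⟩ := hg
  refine ⟨?_, B + ∑ p ∈ Q, (‖avr p.1 p.2 g‖ + B), fun x => ?_⟩
  · unfold EE
    refine hm.add (Finset.measurable_fun_sum _ fun p _ => ?_)
    exact (measurable_const.sub hm).indicator (D_meas _ _)
  · unfold EE
    refine (norm_add_le _ _).trans (add_le_add (hB x) (norm_sum_le_of_le _ fun p _ => ?_))
    refine (norm_indicator_le_norm_self _ _).trans ?_
    exact (norm_sub_le _ _).trans (add_le_add le_rfl (hB x))

/-- the general integration identity -/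
theorem BEE_int {E : Type} [NormedAddCommGroup E] [NormedSpace ℝ E] [CompleteSpace E]
    {Q : Finset (ℕ × ℕ)} (hQ : Gd Q) {F : T → E} (hF : Integrable F) (c : ℕ × ℕ → E)
    (hc : ∀ p ∈ Q, (1 / 2 ^ p.1 : ℝ) • c p = ∫ x in D p.1 p.2, F x) (S : Set T)
    (h : ∀ p ∈ Q, D p.1 p.2 ⊆ S ∨ Disjoint (D p.1 p.2) S) :
    ∫ x in S, (F x + ∑ p ∈ Q, (D p.1 p.2).indicator (fun y => c p - F y) x) = ∫ x in S, F x := by
  have hI : ∀ p, Integrable ((D p.1 p.2).indicator (fun y => c p - F y)) := fun p =>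
    ((integrable_const (c p)).sub hF).indicator (D_meas _ _)
  rw [integral_add hF.integrableOn
    (integrable_finsetSum _ fun p _ => (hI p).integrableOn),
    integral_finsetSum _ fun p _ => (hI p).integrableOn]
  have h0 : ∀ p ∈ Q, ∫ x in S, (D p.1 p.2).indicator (fun y => c p - F y) x = 0 := by
    intro p hp
    rw [setIntegral_indicator (D_meas _ _)]
    rcases h p hp with h1 | h1
    · rw [Set.inter_eq_self_of_subset_right h1, integral_sub (integrable_const _).integrableOn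
        hF.integrableOn, setIntegral_const, D_vol (hQ.lt p hp), hc p hp, sub_self]
    · rw [Set.inter_comm, Set.disjoint_iff_inter_eq_empty.1 h1]
      simp
  rw [Finset.sum_eq_zero h0, add_zero]

theorem BEE_avr (s n : ℕ) (g : T → ℂ) : (1 / 2 ^ s : ℝ) • avr s n g = ∫ x in D s n, g x := by
  unfold avr
  rw [Complex.real_smul]
  push_cast
  field_simp

theorem BEE_avR (s n : ℕ) (nu : T → ℝ) : (1 / 2 ^ s : ℝ) • avR nu s n = ∫ x in D s n, nu x := by
  unfold avR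
  rw [smul_eq_mul]
  field_simp

theorem EE_int_on {Q : Finset (ℕ × ℕ)} (hQ : Gd Q) {g : T → ℂ} (hg : BM g) (s n : ℕ)
    (h : ∀ p ∈ Q, D p.1 p.2 ⊆ D s n ∨ Disjoint (D p.1 p.2) (D s n)) :
    ∫ x in D s n, EE Q g x = ∫ x in D s n, g x :=
  BEE_int hQ hg.L2.integrable (fun p => avr p.1 p.2 g) (fun p _ => BEE_avr _ _ _) _ h

theorem BEE_avr_sum {ι : Type} [Fintype ι] {g : ι → T → ℂ}
    (hg : ∀ i, BM (g i)) {nu : T → ℝ} (hnu : Integrable nu) (hs : ∀ x, ∑ i, ‖g i x‖ ≤ nu x)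
    (s n : ℕ) : ∑ i, ‖avr s n (g i)‖ ≤ avR nu s n := by
  have hI : ∀ i, Integrable (fun x => ‖g i x‖) := fun i => (hg i).L2.integrable.norm
  calc ∑ i, ‖avr s n (g i)‖ ≤ ∑ i, (2 ^ s * ∫ x in D s n, ‖g i x‖) :=
        Finset.sum_le_sum fun i _ => norm_avr_le _ _ _
    _ = 2 ^ s * ∫ x in D s n, ∑ i, ‖g i x‖ := by
        rw [integral_finsetSum _ fun i _ => (hI i).integrableOn, Finset.mul_sum]
    _ ≤ 2 ^ s * ∫ x in D s n, nu x := by
        refine mul_le_mul_of_nonneg_left ?_ (by positivity)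
        exact integral_mono (integrable_finsetSum _ fun i _ => (hI i).integrableOn)
          hnu.integrableOn hs
    _ = avR nu s n := rfl

theorem BEE_sum_le {Q : Finset (ℕ × ℕ)} (hQ : Gd Q) {ι : Type} [Fintype ι] {g : ι → T → ℂ}
    (hg : ∀ i, BM (g i)) {nu : T → ℝ} (hnu : Integrable nu) (hs : ∀ x, ∑ i, ‖g i x‖ ≤ nu x)
    (S : Set T) (h : ∀ p ∈ Q, D p.1 p.2 ⊆ S ∨ Disjoint (D p.1 p.2) S) :
    ∫ x in S, ∑ i, ‖EE Q (g i) x‖ ≤ ∫ x in S, nu x := by
  rw [← BEE_int hQ hnu (fun p => avR nu p.1 p.2) (fun p _ => BEE_avR _ _ _) S h]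
  refine integral_mono ?_ ?_ fun x => ?_
  · exact integrable_finsetSum _ fun i _ => (EE_BM Q (hg i)).L2.integrable.norm.integrableOn
  · exact hnu.integrableOn.add (integrable_finsetSum _ fun p _ =>
      (((integrable_const (avR nu p.1 p.2)).sub hnu).indicator (D_meas _ _)).integrableOn)
  · by_cases hx : ∃ p ∈ Q, x ∈ D p.1 p.2
    · obtain ⟨p, hp, hxp⟩ := hx
      show ∑ i, ‖EE Q (g i) x‖ ≤ nu x + ∑ p ∈ Q, (D p.1 p.2).indicator
        (fun y => avR nu p.1 p.2 - nu y) x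
      rw [BEE_sum_on hQ (fun p y => avR nu p.1 p.2 - nu y) hp hxp]
      have h1 : ∀ i, EE Q (g i) x = avr p.1 p.2 (g i) := fun i => EE_on hQ _ hp hxp
      simp_rw [h1]
      have := BEE_avr_sum hg hnu hs p.1 p.2
      linarith
    · push Not at hx
      show ∑ i, ‖EE Q (g i) x‖ ≤ nu x + ∑ p ∈ Q, (D p.1 p.2).indicator
        (fun y => avR nu p.1 p.2 - nu y) x
      rw [BEE_sum_off (fun p y => avR nu p.1 p.2 - nu y) hx, add_zero]
      have h1 : ∀ i, EE Q (g i) x = g i x := fun i => EE_off _ hx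
      simp_rw [h1]
      exact hs x

theorem EE_sum_le_int {Q : Finset (ℕ × ℕ)} (hQ : Gd Q) {ι : Type} [Fintype ι] {g : ι → T → ℂ}
    (hg : ∀ i, BM (g i)) {nu : T → ℝ} (hnu : Integrable nu) (hs : ∀ x, ∑ i, ‖g i x‖ ≤ nu x)
    (s n : ℕ) (h : ∀ p ∈ Q, D p.1 p.2 ⊆ D s n ∨ Disjoint (D p.1 p.2) (D s n)) :
    ∫ x in D s n, ∑ i, ‖EE Q (g i) x‖ ≤ ∫ x in D s n, nu x :=
  BEE_sum_le hQ hg hnu hs _ h

theorem EE_cost {Q : Finset (ℕ × ℕ)} (hQ : Gd Q) {ι : Type} [Fintype ι] {g : ι → T → ℂ}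
    (hg : ∀ i, BM (g i)) : cost (fun i => EE Q (g i)) ≤ cost g := by
  have hI : Integrable (fun x => ∑ i, ‖g i x‖) :=
    integrable_finsetSum _ fun i _ => (hg i).L2.integrable.norm
  have := BEE_sum_le hQ hg hI (fun x => le_rfl) Set.univ (fun p _ => Or.inl (Set.subset_univ _))
  rw [setIntegral_univ, setIntegral_univ] at this
  exact this

theorem EE_le {S : ℕ} {nu : T → ℝ} {lam : ℝ} (h : Nu S nu) (hl : 3 ≤ lam) {ι : Type} [Fintype ι]
    {g : ι → T → ℂ} (hg : ∀ i, BM (g i)) (hs : ∀ x, ∑ i, ‖g i x‖ ≤ nu x) (x : T) :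
    ∑ i, ‖EE (QQ S nu lam) (g i) x‖ ≤ 2 * lam := by
  have hQ := QQ_Gd (lam := lam) h
  by_cases hx : ∃ p ∈ QQ S nu lam, x ∈ D p.1 p.2
  · obtain ⟨p, hp, hxp⟩ := hx
    have h1 : ∀ i, EE (QQ S nu lam) (g i) x = avr p.1 p.2 (g i) := fun i => EE_on hQ _ hp hxp
    simp_rw [h1]
    refine (BEE_avr_sum hg (Nu_integrable h) hs p.1 p.2).trans ?_
    have h2 := (QQ_mem h hl hp).2.2.2
    unfold avR
    calc (2 : ℝ) ^ p.1 * ∫ x in D p.1 p.2, nu x ≤ 2 ^ p.1 * (2 * lam / 2 ^ p.1) :=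
          mul_le_mul_of_nonneg_left h2 (by positivity)
      _ = 2 * lam := by field_simp
  · push Not at hx
    have h1 : ∀ i, EE (QQ S nu lam) (g i) x = g i x := fun i => EE_off _ hx
    simp_rw [h1]
    refine (hs x).trans ((QQ_off h hx).trans ?_)
    linarith

end CH.B
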