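import Pool.Agent.CH.Defs

/-! # CH-BFej1: the Fejer kernel
Text: `/team-store/CH_paper_B.md`, first lines. `KF M x = |sum_{j<=M} e_j(x)|^2/(M+1) >= 0`.
`KF_coe`: expand the square: `sum_{i,k in range(M+1)} e (i-k) x`; the difference `j = i - k` occurs `M+1-|j|` times for `|j| <= M`
(e.g. `Finset.sum_comm'`/`sum_fiberwise`, count of `{(i,k) : i - k = j}`; or induction on `M`:
`(M+2) KF (M+1) = (M+1) KF M + sum_{|j| <= M+1} e_j`, because
`|D_{M+1}|^2 = |D_M|^2 + 2 Re(D_M conj e_{M+1}) + 1` and `2 Re (D_M conj e_{M+1}) + 1 = sum_{|j|<=M+1} e_j`).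
`KF_integral`: integrate `KF_coe` (only `j = 0` contributes, `integral_e`).
`sM_eq`: `cf f j * e j x = int f y * conj (e j y) * e j x dy = int f y * e j (x - y) dy`; sum over `j` and use `KF_coe`. -/

open MeasureTheory Complex
open scoped ComplexConjugate

namespace CH.B

/-- the Fejer kernel -/
noncomputable def KF (M : ℕ) (x : T) : ℝ :=
  ‖∑ j ∈ Finset.range (M + 1), e (j : ℤ) x‖ ^ 2 / (M + 1)

theorem KF_nonneg (M : ℕ) (x : T) : 0 ≤ KF M x := by
  unfold KF
  positivity

theorem KF_continuous (M : ℕ) : Continuous (KF M) := by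
  unfold KF
  refine Continuous.div_const ?_ _
  refine Continuous.pow ?_ 2
  exact (continuous_finsetSum _ fun (j : ℕ) _ => e_continuous (j : ℤ)).norm

private theorem BFej1_symm (f : ℤ → ℂ) (N : ℕ) : ∑ j ∈ Finset.Icc (-(N : ℤ)) N, f j =
    f 0 + ∑ i ∈ Finset.range N, (f ((i : ℤ) + 1) + f (-((i : ℤ) + 1))) := by
  induction N with
  | zero => simp
  | succ N ih =>
    have h : Finset.Icc (-((N + 1 : ℕ) : ℤ)) ((N + 1 : ℕ) : ℤ) =
        insert ((N : ℤ) + 1) (insert (-((N : ℤ) + 1)) (Finset.Icc (-(N : ℤ)) N)) := by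
      ext j
      simp only [Finset.mem_Icc, Finset.mem_insert]
      push_cast
      omega
    rw [h, Finset.sum_insert, Finset.sum_insert, ih, Finset.sum_range_succ]
    · ring
    · simp only [Finset.mem_Icc]
      omega
    · simp only [Finset.mem_insert, Finset.mem_Icc, not_or]
      omega

private theorem BFej1_sq (M : ℕ) (x : T) :
    (∑ j ∈ Finset.range (M + 1), e (j : ℤ) x) *
      conj (∑ j ∈ Finset.range (M + 1), e (j : ℤ) x) =
      ((M : ℂ) + 1) + ∑ i ∈ Finset.range M, ((M : ℂ) - i) *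
        (e ((i : ℤ) + 1) x + e (-((i : ℤ) + 1)) x) := by
  induction M with
  | zero => simp
  | succ M ih =>
    rw [Finset.sum_range_succ _ (M + 1), map_add, mul_add, add_mul, add_mul, ih]
    have h1 : (∑ j ∈ Finset.range (M + 1), e (j : ℤ) x) * conj (e ((M + 1 : ℕ) : ℤ) x) =
        ∑ i ∈ Finset.range (M + 1), e (-((i : ℤ) + 1)) x := by
      rw [Finset.sum_mul, ← Finset.sum_range_reflect (fun i : ℕ => e (-((i : ℤ) + 1)) x)]
      refine Finset.sum_congr rfl fun j hj => ?_
      rw [Finset.mem_range] at hj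
      rw [conj_e, ← e_add]
      congr 1
      omega
    have h2 : e ((M + 1 : ℕ) : ℤ) x * conj (∑ j ∈ Finset.range (M + 1), e (j : ℤ) x) =
        ∑ i ∈ Finset.range (M + 1), e ((i : ℤ) + 1) x := by
      rw [map_sum, Finset.mul_sum, ← Finset.sum_range_reflect (fun i : ℕ => e ((i : ℤ) + 1) x)]
      refine Finset.sum_congr rfl fun j hj => ?_
      rw [Finset.mem_range] at hj
      rw [conj_e, ← e_add]
      congr 1
      omega
    have h4 : ∑ i ∈ Finset.range (M + 1), (((M + 1 : ℕ) : ℂ) - i) *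
        (e ((i : ℤ) + 1) x + e (-((i : ℤ) + 1)) x) =
        ∑ i ∈ Finset.range M, ((M : ℂ) - i) * (e ((i : ℤ) + 1) x + e (-((i : ℤ) + 1)) x) +
        ∑ i ∈ Finset.range (M + 1), (e ((i : ℤ) + 1) x + e (-((i : ℤ) + 1)) x) := by
      have h5 : ∑ i ∈ Finset.range (M + 1), (((M + 1 : ℕ) : ℂ) - i) *
          (e ((i : ℤ) + 1) x + e (-((i : ℤ) + 1)) x) =
          ∑ i ∈ Finset.range (M + 1), ((M : ℂ) - i) *
            (e ((i : ℤ) + 1) x + e (-((i : ℤ) + 1)) x) +
          ∑ i ∈ Finset.range (M + 1), (e ((i : ℤ) + 1) x + e (-((i : ℤ) + 1)) x) := by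
        rw [← Finset.sum_add_distrib]
        refine Finset.sum_congr rfl fun i _ => ?_
        push_cast
        ring
      rw [h5]
      congr 1
      rw [Finset.sum_range_succ]
      simp
    rw [h1, h2, e_mul_conj, h4, Finset.sum_add_distrib]
    push_cast
    ring

theorem KF_coe (M : ℕ) (x : T) : (KF M x : ℂ) =
    ∑ j ∈ Finset.Icc (-(M : ℤ)) M, (((1 - |(j : ℝ)| / (M + 1) : ℝ)) : ℂ) * e j x := by
  rw [BFej1_symm (fun j => (((1 - |(j : ℝ)| / (M + 1) : ℝ)) : ℂ) * e j x)]
  have h0 : ((M : ℂ) + 1) ≠ 0 := Nat.cast_add_one_ne_zero M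
  have h1 : (KF M x : ℂ) = ((∑ j ∈ Finset.range (M + 1), e (j : ℤ) x) *
      conj (∑ j ∈ Finset.range (M + 1), e (j : ℤ) x)) / ((M : ℂ) + 1) := by
    unfold KF
    rw [Complex.mul_conj, Complex.normSq_eq_norm_sq]
    push_cast
    rfl
  rw [h1, BFej1_sq, div_eq_iff h0, add_mul, Finset.sum_mul]
  congr 1
  · simp
  · refine Finset.sum_congr rfl fun i _ => ?_
    have e1 : |(((i : ℤ) + 1 : ℤ) : ℝ)| = (i : ℝ) + 1 := by
      push_cast
      exact abs_of_nonneg (by positivity)
    have e2 : |((-((i : ℤ) + 1) : ℤ) : ℝ)| = (i : ℝ) + 1 := by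
      rw [Int.cast_neg, abs_neg, e1]
    rw [e1, e2]
    push_cast
    field_simp
    ring

private theorem BFej1_int (n : ℤ) : Integrable (e n) :=
  (e_memLp n 1).integrable le_rfl

theorem KF_integral (M : ℕ) : ∫ x, KF M x = 1 := by
  have h : ((∫ x, KF M x : ℝ) : ℂ) = 1 := by
    rw [← integral_complex_ofReal]
    simp_rw [KF_coe]
    rw [integral_finsetSum _ (fun j _ => (BFej1_int j).const_mul _)]
    simp_rw [integral_const_mul, integral_e]
    rw [Finset.sum_eq_single 0]
    · simp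
    · intro j _ hj
      simp [hj]
    · intro h
      exfalso
      apply h
      rw [Finset.mem_Icc]
      omega
  exact_mod_cast h

private theorem BFej1_neg (n : ℤ) (y : T) : e n (-y) = conj (e n y) := by
  have h := e_add_arg n y (-y)
  rw [add_neg_cancel] at h
  have h0 : e n 0 = 1 := by
    unfold e
    simp
  calc e n (-y) = (e n y * conj (e n y)) * e n (-y) := by rw [e_mul_conj, one_mul]
    _ = conj (e n y) * (e n y * e n (-y)) := by ring
    _ = conj (e n y) := by rw [← h, h0, mul_one]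

theorem sM_eq (M : ℕ) (f : T → ℂ) (hf : Integrable f) (x : T) :
    sM M f x = ∫ y, f y * (KF M (x - y) : ℂ) := by
  have h1 : ∀ y, f y * (KF M (x - y) : ℂ) = ∑ j ∈ Finset.Icc (-(M : ℤ)) M,
      ((((1 - |(j : ℝ)| / (M + 1) : ℝ)) : ℂ) * e j x) * (f y * conj (e j y)) := by
    intro y
    rw [KF_coe, Finset.mul_sum]
    refine Finset.sum_congr rfl fun j _ => ?_
    rw [show x - y = x + -y from sub_eq_add_neg x y, e_add_arg, BFej1_neg]
    ring
  simp_rw [h1]
  rw [integral_finsetSum _ (fun j _ => (integrable_mul_conj_e hf j).const_mul _)]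
  unfold sM
  refine Finset.sum_congr rfl fun j _ => ?_
  rw [integral_const_mul]
  unfold cf
  ring

end CH.B
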