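import Pool.Agent.CH.Defs

/-! # CH-BOff: off-diagonal decay of the Riesz projection (B2)
PROOF. For `0 <= r < 1` put `A_r(x) = int g y * (1 - r e_1(x-y))^{-1} dy`; its coefficients are `r^n cf g n` (`n >= 0`), `0` (`n < 0`)
(geometric series, uniformly convergent), so `A_r -> Pp g` in `L2` as `r -> 1` (Parseval, dominated), hence a.e. along a sequence `r_k -> 1`.
`int g = 0`: `A_r(x) = int g y * [(1 - r e_1(x-y))^{-1} - (1 - r e_1(x-c))^{-1}] dy`. With `|1 - r e_1(u)| >= ‖u‖` (for real `u`, `|u| <= 1/2`: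
`|u| <= 1/4`: `|1 - r e(u)| >= |sin 2 pi u| >= 4|u|` (the distance of `1` to the line through `0` and `e(u)`); else the real part of `r e(u)` is `<= 0`, so
`|1 - r e(u)| >= 1`), `|e_1(x-y) - e_1(x-c)| <= 2 pi ‖y-c‖`, `‖y - c‖ <= delta`, `‖x - y‖ >= ‖x-c‖ - delta >= ‖x-c‖/2`:
`|A_r(x)| <= 4 pi delta / ‖x-c‖^2 * int |g|` for `‖x-c‖ >= R`. Integrate: `int_{‖u‖ >= R} ‖u‖^{-2} du <= 2/R` (layer cake or the coordinate in
`(-1/2,1/2]`; a sum over `2^k R <= ‖u‖ < 2^{k+1} R`, measure `<= 2^{k+2} R`, gives `<= 8/R`, which is enough). Fatou (or a.e. limit and bounded pointwise). -/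

open MeasureTheory Complex Filter Topology
open scoped ComplexConjugate

namespace CH.B

private theorem BOff_exists_rep (u : T) : ∃ t : ℝ, |t| ≤ 1 / 2 ∧ ((t : ℝ) : T) = u ∧ ‖u‖ = |t| := by
  obtain ⟨x, rfl⟩ : ∃ x : ℝ, ((x : ℝ) : T) = u := QuotientAddGroup.mk_surjective u
  refine ⟨x - round x, abs_sub_round x, ?_, UnitAddCircle.norm_eq⟩
  rw [AddCircle.coe_sub]
  have : ((round x : ℝ) : T) = 0 := by
    rw [AddCircle.coe_eq_zero_iff]
    exact ⟨round x, by simp⟩
  rw [this, sub_zero]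

private theorem BOff_normSq (r t : ℝ) :
    ‖1 - (r : ℂ) * exp (2 * Real.pi * I * (1 : ℤ) * t)‖ ^ 2 =
      1 - 2 * r * Real.cos (2 * Real.pi * t) + r ^ 2 := by
  have h1 : exp (2 * Real.pi * I * (1 : ℤ) * t) =
      (Real.cos (2 * Real.pi * t) : ℂ) + (Real.sin (2 * Real.pi * t) : ℂ) * I := by
    rw [Complex.ofReal_cos, Complex.ofReal_sin, ← Complex.exp_mul_I]
    congr 1
    push_cast
    ring
  rw [h1, ← Complex.normSq_eq_norm_sq, Complex.normSq_apply]
  simp only [Complex.sub_re, Complex.one_re, Complex.mul_re, Complex.ofReal_re, Complex.add_re,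
    Complex.I_re, Complex.ofReal_im, Complex.I_im, Complex.add_im, Complex.mul_im, Complex.sub_im,
    Complex.one_im]
  have h2 := Real.sin_sq_add_cos_sq (2 * Real.pi * t)
  nlinarith [h2]

private theorem BOff_lb {r : ℝ} (u : T) (h0 : 0 ≤ r) : ‖u‖ ≤ ‖1 - (r : ℂ) * e 1 u‖ := by
  obtain ⟨t, ht, rfl, hn⟩ := BOff_exists_rep u
  rw [hn, e_coe]
  have hsq := BOff_normSq r t
  apply le_of_sq_le_sq _ (norm_nonneg _)
  rw [hsq]
  have hc : Real.cos (2 * Real.pi * t) = Real.cos (2 * Real.pi * |t|) := by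
    rw [← Real.cos_abs (2 * Real.pi * t), abs_mul, abs_of_pos Real.two_pi_pos]
  rw [hc]
  have hs2 := Real.sin_sq_add_cos_sq (2 * Real.pi * |t|)
  have hpi := Real.pi_pos
  have ha := abs_nonneg t
  by_cases h4 : |t| ≤ 1 / 4
  · have h5 : 4 * |t| ≤ Real.sin (2 * Real.pi * |t|) := by
      have h6 := Real.mul_le_sin (x := 2 * Real.pi * |t|) (by positivity) (by nlinarith)
      have h7 : 2 / Real.pi * (2 * Real.pi * |t|) = 4 * |t| := by
        field_simp
        ring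
      rw [h7] at h6
      exact h6
    have h8 : (4 * |t|) ^ 2 ≤ Real.sin (2 * Real.pi * |t|) ^ 2 :=
      pow_le_pow_left₀ (by positivity) h5 2
    nlinarith [sq_nonneg (r - Real.cos (2 * Real.pi * |t|)), sq_nonneg (|t|)]
  · push Not at h4
    have h6 : Real.cos (2 * Real.pi * |t|) ≤ 0 := by
      apply Real.cos_nonpos_of_pi_div_two_le_of_le
      · nlinarith
      · nlinarith
    have h7 : |t| ^ 2 ≤ (1 / 2) ^ 2 := pow_le_pow_left₀ ha ht 2
    nlinarith [mul_nonneg h0 (neg_nonneg.2 h6), sq_nonneg r]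

private theorem BOff_e_lip (u v : T) : ‖e 1 u - e 1 v‖ ≤ 2 * Real.pi * ‖u - v‖ := by
  have h1 : e 1 u = e 1 (u - v) * e 1 v := by
    rw [← e_add_arg]; congr 1; abel
  have h2 : e 1 u - e 1 v = (e 1 (u - v) - 1) * e 1 v := by
    rw [h1]; ring
  rw [h2, norm_mul, norm_e, mul_one]
  obtain ⟨t, ht, hu, hn⟩ := BOff_exists_rep (u - v)
  rw [hn, ← hu, e_coe]
  have h3 := Real.norm_exp_I_mul_ofReal_sub_one_le (x := 2 * Real.pi * t)
  have h4 : Complex.exp (I * ((2 * Real.pi * t : ℝ) : ℂ)) = exp (2 * Real.pi * I * (1 : ℤ) * t) := by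
    congr 1
    push_cast
    ring
  rw [h4] at h3
  refine h3.trans (le_of_eq ?_)
  rw [Real.norm_eq_abs, abs_mul, abs_of_pos Real.two_pi_pos]

private theorem BOff_norm_lt {r : ℝ} (h0 : 0 ≤ r) (h1 : r < 1) (u : T) :
    ‖(r : ℂ) * e 1 u‖ < 1 := by
  rw [norm_mul, norm_e, mul_one, Complex.norm_real, Real.norm_eq_abs, abs_of_nonneg h0]
  exact h1

private theorem BOff_ne {r : ℝ} (h0 : 0 ≤ r) (h1 : r < 1) (u : T) :
    1 - (r : ℂ) * e 1 u ≠ 0 := by
  intro h
  have h2 := BOff_norm_lt h0 h1 u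
  have h3 : (r : ℂ) * e 1 u = 1 := by linear_combination -h
  rw [h3] at h2
  simp at h2

private theorem BOff_e_pow (n : ℕ) (u : T) : e 1 u ^ n = e n u := by
  induction n with
  | zero => simp
  | succ n ih => rw [pow_succ, ih, ← e_add]; push_cast; rfl

/-- the Poisson-Cauchy means -/
private noncomputable def BOff_A (g : T → ℂ) (r : ℝ) (x : T) : ℂ :=
  ∫ y, g y * (1 - (r : ℂ) * e 1 (x - y))⁻¹

private theorem BOff_e_sub (n : ℤ) (x y : T) : e n (x - y) = e n x * conj (e n y) := by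
  have h : e n x = e n (x - y) * e n y := by rw [← e_add_arg]; congr 1; abel
  rw [h, mul_assoc, e_mul_conj, mul_one]

private theorem BOff_hasSum {g : T → ℂ} (hg : BM g) {r : ℝ} (h0 : 0 ≤ r) (h1 : r < 1) (x : T) :
    HasSum (fun n : ℕ => (r : ℂ) ^ n * cf g n * e n x) (BOff_A g r x) := by
  obtain ⟨hm, B, hB⟩ := hg
  have hB0 : 0 ≤ B := (norm_nonneg _).trans (hB 0)
  have hI : Integrable g := (BM.L2 ⟨hm, B, hB⟩).integrable
  have h := hasSum_integral_of_dominated_convergence (μ := (volume : Measure T))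
    (F := fun (n : ℕ) (y : T) => g y * ((r : ℂ) * e 1 (x - y)) ^ n)
    (f := fun y => g y * (1 - (r : ℂ) * e 1 (x - y))⁻¹)
    (bound := fun (n : ℕ) (_ : T) => B * r ^ n)
    (fun n => ?_) (fun n => ae_of_all _ fun y => ?_) (ae_of_all _ fun y => ?_) ?_
    (ae_of_all _ fun y => ?_)
  · have h2 : ∀ n : ℕ, ∫ y, g y * ((r : ℂ) * e 1 (x - y)) ^ n = (r : ℂ) ^ n * cf g n * e n x := by
      intro n
      unfold cf
      rw [← integral_const_mul, ← integral_mul_const]
      congr 1; ext y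
      rw [mul_pow, BOff_e_pow, BOff_e_sub]
      ring
    simp_rw [h2] at h
    exact h
  · have hc : Continuous fun y : T => ((r : ℂ) * e 1 (x - y)) ^ n := by
      have := e_continuous 1
      fun_prop
    exact (hm.mul hc.measurable).aestronglyMeasurable
  · rw [norm_mul, norm_pow, norm_mul, norm_e, mul_one, Complex.norm_real, Real.norm_eq_abs,
      abs_of_nonneg h0]
    exact mul_le_mul_of_nonneg_right (hB y) (by positivity)
  · exact (summable_geometric_of_lt_one h0 h1).mul_left B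
  · exact integrable_const _
  · exact (hasSum_geometric_of_norm_lt_one (BOff_norm_lt h0 h1 (x - y))).mul_left (g y)

private theorem BOff_A_cont {g : T → ℂ} (hg : BM g) {r : ℝ} (h0 : 0 ≤ r) (h1 : r < 1) :
    Continuous (BOff_A g r) := by
  have h2 : BOff_A g r = fun x => ∑' n : ℕ, (r : ℂ) ^ n * cf g n * e n x := by
    funext x
    exact (BOff_hasSum hg h0 h1 x).tsum_eq.symm
  rw [h2]
  refine continuous_tsum (u := fun n : ℕ => r ^ n * ∫ x, ‖g x‖) (fun n => ?_) ?_ (fun n x => ?_)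
  · exact continuous_const.mul (e_continuous n)
  · exact (summable_geometric_of_lt_one h0 h1).mul_right _
  · rw [norm_mul, norm_mul, norm_e, mul_one, norm_pow, Complex.norm_real, Real.norm_eq_abs,
      abs_of_nonneg h0]
    exact mul_le_mul_of_nonneg_left (norm_cf_le _) (by positivity)

private theorem BOff_A_bdd {g : T → ℂ} (hg : BM g) {r : ℝ} (h0 : 0 ≤ r) (h1 : r < 1) :
    L2 (BOff_A g r) := by
  have hc := BOff_A_cont hg h0 h1
  obtain ⟨B, hB⟩ := (isCompact_univ.image hc).isBounded.exists_norm_le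
  refine MemLp.of_bound hc.aestronglyMeasurable B (ae_of_all _ fun x => hB _ ⟨x, trivial, rfl⟩)

private theorem BOff_cf_A {g : T → ℂ} (hg : BM g) {r : ℝ} (h0 : 0 ≤ r) (h1 : r < 1) (m : ℤ) :
    cf (BOff_A g r) m = if 0 ≤ m then (r : ℂ) ^ m.toNat * cf g m else 0 := by
  have h := hasSum_integral_of_dominated_convergence (μ := (volume : Measure T))
    (F := fun (n : ℕ) (x : T) => (r : ℂ) ^ n * cf g n * e n x * conj (e m x))
    (f := fun x => BOff_A g r x * conj (e m x))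
    (bound := fun (n : ℕ) (_ : T) => r ^ n * ∫ x, ‖g x‖)
    (fun n => ?_) (fun n => ae_of_all _ fun y => ?_) (ae_of_all _ fun y => ?_) ?_
    (ae_of_all _ fun y => ?_)
  · have h2 : ∀ n : ℕ, ∫ x, (r : ℂ) ^ n * cf g n * e n x * conj (e m x) =
        (r : ℂ) ^ n * cf g n * (if m = n then 1 else 0) := by
      intro n
      rw [← cf_e (n : ℤ) m]
      show _ = (r : ℂ) ^ n * cf g n * ∫ x, e n x * conj (e m x)
      rw [← integral_const_mul]
      congr 1; ext x
      ring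
    simp_rw [h2] at h
    refine h.unique ?_
    split_ifs with hm
    · have h3 := hasSum_single (f := fun n : ℕ => (r : ℂ) ^ n * cf g n * (if m = n then 1 else 0))
        m.toNat (fun n hn => by
          have : m ≠ n := by
            intro h4
            apply hn
            omega
          simp [this])
      have h4 : m = (m.toNat : ℤ) := by omega
      simp only [← h4, if_true, mul_one] at h3
      exact h3
    · have h3 : (fun n : ℕ => (r : ℂ) ^ n * cf g n * (if m = n then 1 else 0)) = fun _ => 0 := by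
        funext n
        have : m ≠ n := by omega
        simp [this]
      rw [h3]
      exact hasSum_zero
  · have hc : Continuous fun x : T => (r : ℂ) ^ n * cf g n * e n x * conj (e m x) :=
      (continuous_const.mul (e_continuous n)).mul (Complex.continuous_conj.comp (e_continuous m))
    exact hc.aestronglyMeasurable
  · rw [norm_mul, norm_mul, norm_mul, norm_e, mul_one, norm_pow, Complex.norm_real,
      Real.norm_eq_abs, abs_of_nonneg h0, RCLike.norm_conj, norm_e, mul_one]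
    exact mul_le_mul_of_nonneg_left (norm_cf_le _) (by positivity)
  · exact (summable_geometric_of_lt_one h0 h1).mul_right _
  · exact integrable_const _
  · exact (BOff_hasSum hg h0 h1 y).mul_right _

private theorem BOff_dist {g : T → ℂ} (hg : BM g) {r : ℝ} (h0 : 0 ≤ r) (h1 : r < 1) :
    HasSum (fun m : ℤ => ‖if 0 ≤ m then ((r : ℂ) ^ m.toNat - 1) * cf g m else 0‖ ^ 2)
      (∫ x, ‖BOff_A g r x - Pp g x‖ ^ 2) := by
  have h := parseval_sq ((BOff_A_bdd hg h0 h1).sub (Pp_L2 g))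
  convert h using 3 with m
  rw [cf_sub (BOff_A_bdd hg h0 h1).integrable (Pp_L2 g).integrable, BOff_cf_A hg h0 h1,
    cf_Pp hg.L2]
  split_ifs
  · ring_nf
  · simp

private theorem BOff_rk (k : ℕ) : 0 ≤ (k : ℝ) / (k + 1) ∧ (k : ℝ) / (k + 1) < 1 := by
  constructor
  · positivity
  · rw [div_lt_one (by positivity)]
    linarith

private theorem BOff_tendsto {g : T → ℂ} (hg : BM g) :
    Tendsto (fun k : ℕ => ∫ x, ‖BOff_A g ((k : ℝ) / (k + 1)) x - Pp g x‖ ^ 2) atTop (𝓝 0) := by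
  have h1 : ∀ k : ℕ, ∫ x, ‖BOff_A g ((k : ℝ) / (k + 1)) x - Pp g x‖ ^ 2 =
      ∑' m : ℤ, ‖if 0 ≤ m then ((((k : ℝ) / (k + 1) : ℝ) : ℂ) ^ m.toNat - 1) * cf g m else 0‖ ^ 2 :=
    fun k => (BOff_dist hg (BOff_rk k).1 (BOff_rk k).2).tsum_eq.symm
  simp_rw [h1]
  have h2 : (0 : ℝ) = ∑' _ : ℤ, (0 : ℝ) := by simp
  rw [h2]
  have hr : Tendsto (fun k : ℕ => (((k : ℝ) / (k + 1) : ℝ) : ℂ)) atTop (𝓝 1) := by
    have h3 := tendsto_natCast_div_add_atTop (1 : ℝ)
    have h4 := (Complex.continuous_ofReal.tendsto 1).comp h3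
    rw [Complex.ofReal_one] at h4
    exact h4
  refine tendsto_tsum_of_dominated_convergence (bound := fun m : ℤ => ‖cf g m‖ ^ 2)
    (parseval_sq hg.L2).summable (fun m => ?_) (Eventually.of_forall fun k m => ?_)
  · by_cases hm : 0 ≤ m
    · simp only [if_pos hm]
      have h5 : Tendsto (fun k : ℕ => ‖((((k : ℝ) / (k + 1) : ℝ) : ℂ) ^ m.toNat - 1) * cf g m‖ ^ 2)
          atTop (𝓝 (‖((1 : ℂ) ^ m.toNat - 1) * cf g m‖ ^ 2)) :=
        ((((hr.pow _).sub_const 1).mul_const _).norm).pow 2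
      simpa using h5
    · simp only [if_neg hm]
      simp
  · rw [Real.norm_eq_abs, abs_of_nonneg (by positivity)]
    split_ifs with hm
    · rw [norm_mul, mul_pow]
      have h0 := (BOff_rk k).1
      have h1' := (BOff_rk k).2
      have h6 : ‖(((k : ℝ) / (k + 1) : ℝ) : ℂ) ^ m.toNat - 1‖ ≤ 1 := by
        have h7 : (((k : ℝ) / (k + 1) : ℝ) : ℂ) ^ m.toNat - 1 =
            ((((k : ℝ) / (k + 1)) ^ m.toNat - 1 : ℝ) : ℂ) := by
          push_cast; ring
        rw [h7, Complex.norm_real, Real.norm_eq_abs]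
        have h8 : ((k : ℝ) / (k + 1)) ^ m.toNat ≤ 1 := pow_le_one₀ h0 h1'.le
        have h9 : 0 ≤ ((k : ℝ) / (k + 1)) ^ m.toNat := pow_nonneg h0 _
        rw [abs_le]
        constructor <;> linarith
      have h10 : ‖(((k : ℝ) / (k + 1) : ℝ) : ℂ) ^ m.toNat - 1‖ ^ 2 ≤ 1 :=
        pow_le_one₀ (norm_nonneg _) h6
      calc ‖(((k : ℝ) / (k + 1) : ℝ) : ℂ) ^ m.toNat - 1‖ ^ 2 * ‖cf g m‖ ^ 2 ≤ 1 * ‖cf g m‖ ^ 2 :=
            mul_le_mul_of_nonneg_right h10 (by positivity)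
        _ = _ := one_mul _
    · simp

private theorem BOff_pt {g : T → ℂ} (hg : BM g) {r : ℝ} (h0 : 0 ≤ r) (h1 : r < 1) {c x : T}
    {δ : ℝ} (hδ : 0 < δ) (hx : 2 * δ ≤ ‖x - c‖) (hs : ∀ y, δ < ‖y - c‖ → g y = 0)
    (hi : ∫ y, g y = 0) :
    ‖BOff_A g r x‖ ≤ 4 * Real.pi * δ * (∫ y, ‖g y‖) * (‖x - c‖⁻¹) ^ 2 := by
  have hI : Integrable g := hg.L2.integrable
  have hxc : 0 < ‖x - c‖ := by linarith
  have hcont : Continuous fun y : T => (1 - (r : ℂ) * e 1 (x - y))⁻¹ := by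
    have := e_continuous 1
    refine Continuous.inv₀ (by fun_prop) fun y => BOff_ne h0 h1 _
  have hJ : Integrable fun y => g y * (1 - (r : ℂ) * e 1 (x - y))⁻¹ := by
    obtain ⟨B, hB⟩ := (isCompact_univ.image hcont).isBounded.exists_norm_le
    have := hI.bdd_mul (c := B) (f := fun y => (1 - (r : ℂ) * e 1 (x - y))⁻¹)
      hcont.aestronglyMeasurable (ae_of_all _ fun y => hB _ ⟨y, trivial, rfl⟩)
    refine this.congr (ae_of_all _ fun y => ?_)
    simp [mul_comm]
  have h2 : BOff_A g r x =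
      ∫ y, g y * ((1 - (r : ℂ) * e 1 (x - y))⁻¹ - (1 - (r : ℂ) * e 1 (x - c))⁻¹) := by
    have h3 : ∫ y, g y * (1 - (r : ℂ) * e 1 (x - c))⁻¹ = 0 := by
      rw [integral_mul_const, hi, zero_mul]
    rw [BOff_A, ← sub_zero (∫ y, g y * (1 - (r : ℂ) * e 1 (x - y))⁻¹), ← h3,
      ← integral_sub hJ (hI.mul_const _)]
    congr 1; ext y
    ring
  rw [h2]
  refine (norm_integral_le_integral_norm _).trans ?_
  have h4 : 4 * Real.pi * δ * (∫ y, ‖g y‖) * (‖x - c‖⁻¹) ^ 2 =
      ∫ y, ‖g y‖ * (4 * Real.pi * δ * (‖x - c‖⁻¹) ^ 2) := by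
    rw [integral_mul_const]; ring
  rw [h4]
  refine integral_mono_of_nonneg (ae_of_all _ fun y => norm_nonneg _) (hI.norm.mul_const _)
    (ae_of_all _ fun y => ?_)
  show ‖g y * ((1 - (r : ℂ) * e 1 (x - y))⁻¹ - (1 - (r : ℂ) * e 1 (x - c))⁻¹)‖ ≤
    ‖g y‖ * (4 * Real.pi * δ * (‖x - c‖⁻¹) ^ 2)
  rw [norm_mul]
  by_cases hy : δ < ‖y - c‖
  · rw [hs y hy]; simp
  · push Not at hy
    refine mul_le_mul_of_nonneg_left ?_ (norm_nonneg _)
    have hxy : ‖x - c‖ / 2 ≤ ‖x - y‖ := by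
      have h5 : ‖x - c‖ ≤ ‖x - y‖ + ‖y - c‖ := by
        calc ‖x - c‖ = ‖(x - y) + (y - c)‖ := by congr 1; abel
          _ ≤ _ := norm_add_le _ _
      linarith
    have ha := BOff_ne h0 h1 (x - y)
    have hb := BOff_ne h0 h1 (x - c)
    have h6 : (1 - (r : ℂ) * e 1 (x - y))⁻¹ - (1 - (r : ℂ) * e 1 (x - c))⁻¹ =
        (r : ℂ) * (e 1 (x - y) - e 1 (x - c)) /
          ((1 - (r : ℂ) * e 1 (x - y)) * (1 - (r : ℂ) * e 1 (x - c))) := by
      field_simp
      ring
    rw [h6, norm_div, norm_mul, norm_mul]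
    have h7 : ‖(r : ℂ)‖ ≤ 1 := by
      rw [Complex.norm_real, Real.norm_eq_abs, abs_of_nonneg h0]; exact h1.le
    have h8 : ‖e 1 (x - y) - e 1 (x - c)‖ ≤ 2 * Real.pi * δ := by
      refine (BOff_e_lip _ _).trans ?_
      have h9 : ‖x - y - (x - c)‖ = ‖y - c‖ := by
        rw [show x - y - (x - c) = -(y - c) by abel, norm_neg]
      rw [h9]
      exact mul_le_mul_of_nonneg_left hy (by positivity)
    have h10 := BOff_lb (x - y) h0
    have h11 := BOff_lb (x - c) h0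
    have h12 : ‖(r : ℂ)‖ * ‖e 1 (x - y) - e 1 (x - c)‖ ≤ 2 * Real.pi * δ := by
      calc ‖(r : ℂ)‖ * ‖e 1 (x - y) - e 1 (x - c)‖ ≤ 1 * (2 * Real.pi * δ) :=
            mul_le_mul h7 h8 (norm_nonneg _) zero_le_one
        _ = _ := one_mul _
    have h13 : ‖x - c‖ / 2 * ‖x - c‖ ≤
        ‖1 - (r : ℂ) * e 1 (x - y)‖ * ‖1 - (r : ℂ) * e 1 (x - c)‖ :=
      mul_le_mul (hxy.trans h10) h11 hxc.le (norm_nonneg _)
    calc ‖(r : ℂ)‖ * ‖e 1 (x - y) - e 1 (x - c)‖ /
          (‖1 - (r : ℂ) * e 1 (x - y)‖ * ‖1 - (r : ℂ) * e 1 (x - c)‖)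
        ≤ 2 * Real.pi * δ / (‖x - c‖ / 2 * ‖x - c‖) :=
          div_le_div₀ (by positivity) h12 (by positivity) h13
      _ = 4 * Real.pi * δ * (‖x - c‖⁻¹) ^ 2 := by
          field_simp
          ring

private theorem BOff_ball (c : T) {r : ℝ} (hr : 0 ≤ r) :
    volume.real {x : T | ‖x - c‖ < r} ≤ 2 * r := by
  have h1 : {x : T | ‖x - c‖ < r} ⊆ Metric.closedBall c r := by
    intro x hx
    rw [Metric.mem_closedBall, dist_eq_norm]
    exact le_of_lt hx
  have h2 : volume.real (Metric.closedBall c r) = min 1 (2 * r) := by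
    have hv : volume (Metric.closedBall c r) = ENNReal.ofReal (min 1 (2 * r)) :=
      AddCircle.volume_closedBall 1 r
    rw [Measure.real, hv, ENNReal.toReal_ofReal (le_min zero_le_one (by linarith))]
  refine le_trans (measureReal_mono h1) ?_
  rw [h2]
  exact min_le_right _ _

private theorem BOff_norm_le (u : T) : ‖u‖ ≤ 1 / 2 := by
  obtain ⟨t, ht, _, hn⟩ := BOff_exists_rep u
  rw [hn]; exact ht

private theorem BOff_shell (c : T) {R : ℝ} (hR : 0 < R) :
    ∫ x in {x | R ≤ ‖x - c‖}, (‖x - c‖⁻¹) ^ 2 ≤ 8 / R := by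
  obtain ⟨K, hK⟩ : ∃ K : ℕ, 1 / 2 < 2 ^ K * R := by
    obtain ⟨K, hK⟩ := pow_unbounded_of_one_lt (1 / 2 / R) (one_lt_two)
    exact ⟨K, by rwa [div_lt_iff₀ hR] at hK⟩
  have hcn : Continuous fun x : T => ‖x - c‖ := (continuous_id.sub continuous_const).norm
  have hmS : MeasurableSet {x : T | R ≤ ‖x - c‖} := measurableSet_le measurable_const hcn.measurable
  have hmB : ∀ k : ℕ, MeasurableSet {x : T | ‖x - c‖ < 2 ^ (k + 1) * R} := fun k =>
    measurableSet_lt hcn.measurable measurable_const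
  -- pointwise
  have hpt : ∀ x ∈ {x : T | R ≤ ‖x - c‖}, (‖x - c‖⁻¹) ^ 2 ≤
      ∑ k ∈ Finset.range K, Set.indicator {x : T | ‖x - c‖ < 2 ^ (k + 1) * R}
        (fun _ => ((2 ^ k * R)⁻¹) ^ 2) x := by
    intro x hx
    have hx' : R ≤ ‖x - c‖ := hx
    have hex : ∃ k : ℕ, ‖x - c‖ < 2 ^ (k + 1) * R := by
      refine ⟨K, (BOff_norm_le _).trans_lt (hK.trans_le ?_)⟩
      refine mul_le_mul_of_nonneg_right ?_ hR.le
      exact pow_le_pow_right₀ (by norm_num) (Nat.le_succ K)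
    classical
    let k := Nat.find hex
    have hk : ‖x - c‖ < 2 ^ (k + 1) * R := Nat.find_spec hex
    have hk2 : 2 ^ k * R ≤ ‖x - c‖ := by
      rcases Nat.eq_zero_or_pos k with h | h
      · rw [h]; simpa using hx'
      · have h3 := Nat.find_min hex (m := k - 1) (by show k - 1 < k; omega)
        push Not at h3
        have h4 : k - 1 + 1 = k := by omega
        rw [h4] at h3
        exact h3
    have hkK : k < K := by
      by_contra h
      push Not at h
      have h5 : (2 : ℝ) ^ K * R ≤ 2 ^ k * R :=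
        mul_le_mul_of_nonneg_right (pow_le_pow_right₀ (by norm_num) h) hR.le
      have := BOff_norm_le (x - c)
      linarith
    have hpos : 0 < 2 ^ k * R := by positivity
    have h6 : (‖x - c‖⁻¹) ^ 2 ≤ ((2 ^ k * R)⁻¹) ^ 2 := by
      refine pow_le_pow_left₀ (by positivity) ?_ 2
      exact inv_anti₀ hpos hk2
    refine h6.trans ?_
    have h7 : ((2 ^ k * R)⁻¹) ^ 2 = Set.indicator {x : T | ‖x - c‖ < 2 ^ (k + 1) * R}
        (fun _ => ((2 ^ k * R)⁻¹) ^ 2) x := by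
      rw [Set.indicator_of_mem]
      exact hk
    rw [h7]
    refine Finset.single_le_sum (f := fun k => Set.indicator {x : T | ‖x - c‖ < 2 ^ (k + 1) * R}
        (fun _ => ((2 ^ k * R)⁻¹) ^ 2) x) (fun i _ => ?_) (Finset.mem_range.2 hkK)
    exact Set.indicator_nonneg (fun _ _ => by positivity) _
  have hint : ∀ k : ℕ, Integrable (Set.indicator {x : T | ‖x - c‖ < 2 ^ (k + 1) * R}
        (fun _ => ((2 ^ k * R)⁻¹) ^ 2)) := fun k =>
    (integrable_const _).indicator (hmB k)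
  have hsumI : Integrable (fun x => ∑ k ∈ Finset.range K,
      Set.indicator {x : T | ‖x - c‖ < 2 ^ (k + 1) * R} (fun _ => ((2 ^ k * R)⁻¹) ^ 2) x) :=
    integrable_finsetSum _ fun k _ => hint k
  calc ∫ x in {x | R ≤ ‖x - c‖}, (‖x - c‖⁻¹) ^ 2
      ≤ ∫ x in {x | R ≤ ‖x - c‖}, ∑ k ∈ Finset.range K,
        Set.indicator {x : T | ‖x - c‖ < 2 ^ (k + 1) * R} (fun _ => ((2 ^ k * R)⁻¹) ^ 2) x := by
        refine integral_mono_of_nonneg (ae_of_all _ fun x => by positivity) hsumI.integrableOn ?_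
        exact (ae_restrict_iff' hmS).2 (ae_of_all _ hpt)
    _ ≤ ∫ x, ∑ k ∈ Finset.range K,
        Set.indicator {x : T | ‖x - c‖ < 2 ^ (k + 1) * R} (fun _ => ((2 ^ k * R)⁻¹) ^ 2) x := by
        refine setIntegral_le_integral hsumI (ae_of_all _ fun x => ?_)
        exact Finset.sum_nonneg fun k _ => Set.indicator_nonneg (fun _ _ => by positivity) _
    _ = ∑ k ∈ Finset.range K, ∫ x,
        Set.indicator {x : T | ‖x - c‖ < 2 ^ (k + 1) * R} (fun _ => ((2 ^ k * R)⁻¹) ^ 2) x :=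
        integral_finsetSum _ fun k _ => hint k
    _ ≤ ∑ k ∈ Finset.range K, (4 / R) * (1 / 2) ^ k := by
        refine Finset.sum_le_sum fun k _ => ?_
        rw [integral_indicator (hmB k), setIntegral_const, smul_eq_mul]
        have h8 := BOff_ball c (r := 2 ^ (k + 1) * R) (by positivity)
        calc volume.real {x : T | ‖x - c‖ < 2 ^ (k + 1) * R} * ((2 ^ k * R)⁻¹) ^ 2
            ≤ 2 * (2 ^ (k + 1) * R) * ((2 ^ k * R)⁻¹) ^ 2 :=
              mul_le_mul_of_nonneg_right h8 (by positivity)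
          _ = (4 / R) * (1 / 2) ^ k := by
              have h12 : (1 / 2 : ℝ) ^ k = (2 ^ k)⁻¹ := by rw [one_div, inv_pow]
              rw [h12, pow_succ]
              field_simp
              ring
    _ ≤ 8 / R := by
        rw [← Finset.mul_sum]
        have h9 : ∑ k ∈ Finset.range K, (1 / 2 : ℝ) ^ k ≤ 2 := by
          have h10 := summable_geometric_two
          have h11 := h10.sum_le_tsum (Finset.range K) (fun _ _ => by positivity)
          rwa [tsum_geometric_two] at h11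
        calc 4 / R * ∑ k ∈ Finset.range K, (1 / 2 : ℝ) ^ k ≤ 4 / R * 2 :=
              mul_le_mul_of_nonneg_left h9 (by positivity)
          _ = 8 / R := by ring

theorem offdiag : ∃ C : ℝ, 0 ≤ C ∧ ∀ (c : T) (δ R : ℝ) (g : T → ℂ), 0 < δ → 2 * δ ≤ R → BM g →
    (∀ x, δ < ‖x - c‖ → g x = 0) → ∫ x, g x = 0 →
    ∫ x in {x | R ≤ ‖x - c‖}, ‖Pp g x‖ ≤ C * (δ / R) * ∫ x, ‖g x‖ := by
  refine ⟨32 * Real.pi, by positivity, ?_⟩
  intro c δ R g hδ hR hg hs hi
  have hR0 : 0 < R := by linarith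
  have hcn : Continuous fun x : T => ‖x - c‖ := (continuous_id.sub continuous_const).norm
  have hmS : MeasurableSet {x : T | R ≤ ‖x - c‖} := measurableSet_le measurable_const hcn.measurable
  have hI0 : 0 ≤ ∫ x, ‖g x‖ := integral_nonneg fun x => norm_nonneg _
  have hInv : IntegrableOn (fun x : T => (‖x - c‖⁻¹) ^ 2) {x | R ≤ ‖x - c‖} := by
    have hm : Measurable fun x : T => (‖x - c‖⁻¹) ^ 2 := (hcn.measurable.inv).pow_const 2
    refine Measure.integrableOn_of_bounded (M := (R⁻¹) ^ 2) (measure_ne_top _ _)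
      hm.aestronglyMeasurable ?_
    refine (ae_restrict_iff' hmS).2 (ae_of_all _ fun x hx => ?_)
    have hx' : R ≤ ‖x - c‖ := hx
    rw [Real.norm_eq_abs, abs_of_nonneg (by positivity)]
    exact pow_le_pow_left₀ (by positivity) (inv_anti₀ hR0 hx') 2
  have key : ∀ k : ℕ, ∫ x in {x | R ≤ ‖x - c‖}, ‖Pp g x‖ ≤
      32 * Real.pi * (δ / R) * (∫ x, ‖g x‖) +
        Real.sqrt (∫ x, ‖BOff_A g ((k : ℝ) / (k + 1)) x - Pp g x‖ ^ 2) := by
    intro k
    obtain ⟨h0, h1⟩ := BOff_rk k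
    set r : ℝ := (k : ℝ) / (k + 1) with hr
    have hA := BOff_A_bdd hg h0 h1
    have hD := hA.sub (Pp_L2 g)
    have e1 : ∫ x in {x | R ≤ ‖x - c‖}, ‖Pp g x‖ ≤
        ∫ x in {x | R ≤ ‖x - c‖}, (‖BOff_A g r x‖ + ‖BOff_A g r x - Pp g x‖) := by
      refine integral_mono (Pp_L2 g).integrable.norm.integrableOn
        (hA.integrable.norm.add hD.integrable.norm).integrableOn fun x => ?_
      show ‖Pp g x‖ ≤ ‖BOff_A g r x‖ + ‖BOff_A g r x - Pp g x‖
      calc ‖Pp g x‖ = ‖BOff_A g r x - (BOff_A g r x - Pp g x)‖ := by congr 1; ring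
        _ ≤ _ := norm_sub_le _ _
    refine e1.trans ?_
    rw [integral_add hA.integrable.norm.integrableOn hD.integrable.norm.integrableOn]
    refine add_le_add ?_ ?_
    · calc ∫ x in {x | R ≤ ‖x - c‖}, ‖BOff_A g r x‖
          ≤ ∫ x in {x | R ≤ ‖x - c‖}, 4 * Real.pi * δ * (∫ y, ‖g y‖) * (‖x - c‖⁻¹) ^ 2 := by
            refine integral_mono_of_nonneg (ae_of_all _ fun x => norm_nonneg _)
              (hInv.const_mul _) ?_
            refine (ae_restrict_iff' hmS).2 (ae_of_all _ fun x hx => ?_)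
            have hx' : R ≤ ‖x - c‖ := hx
            exact BOff_pt hg h0 h1 hδ (hR.trans hx') hs hi
        _ = 4 * Real.pi * δ * (∫ y, ‖g y‖) * ∫ x in {x | R ≤ ‖x - c‖}, (‖x - c‖⁻¹) ^ 2 := by
            rw [integral_const_mul]
        _ ≤ 4 * Real.pi * δ * (∫ y, ‖g y‖) * (8 / R) :=
            mul_le_mul_of_nonneg_left (BOff_shell c hR0) (by positivity)
        _ = 32 * Real.pi * (δ / R) * (∫ x, ‖g x‖) := by ring
    · refine le_trans ?_ (int_norm_le hD)
      exact setIntegral_le_integral hD.integrable.norm (ae_of_all _ fun x => norm_nonneg _)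
  have hlim : Tendsto (fun k : ℕ => 32 * Real.pi * (δ / R) * (∫ x, ‖g x‖) +
        Real.sqrt (∫ x, ‖BOff_A g ((k : ℝ) / (k + 1)) x - Pp g x‖ ^ 2)) atTop
        (𝓝 (32 * Real.pi * (δ / R) * (∫ x, ‖g x‖) + Real.sqrt 0)) :=
    ((Real.continuous_sqrt.tendsto 0).comp (BOff_tendsto hg)).const_add _
  rw [Real.sqrt_zero, add_zero] at hlim
  exact ge_of_tendsto' hlim key

end CH.B
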