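import Pool.Agent.CH.BDy
import Pool.Agent.CH.BFam
import Pool.Agent.CH.BOff

/-! # CH-BPiece: one piece of the Calderon-Zygmund decomposition (proof of Lemma K0)
`off_dy`: `offdiag` with `c = cpt s n`, `δ = 1/2^s`, `R = 1/2^s' + 1/2^s (>= 2 δ)`: `g` vanishes off `D s n` (`D_dist`), and
 `x ∉ Nb s' n'` gives `‖x - cpt s n‖ >= 2/2^s' - (1/2^s' - 1/2^s) = R` (`cpt_dist`); `δ/R <= 2^s'/2^s`.
`piece`: `F = hf m G`. `T` is the union of `Nb (q k)`, of `Nb (q j) \ Nb (q (j+1))` (`j < k`) and of the complement of `Nb (q 0)`.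
 On `Nb (q k)`: `w <= (1/2)^(k+1)`, Cauchy-Schwarz, `Nb_vol`, Theorem C with `Lam := 16 Lam`:
   `int_{Nb} w |F| <= (1/2)^(k+1) (4/2^s)^(1/2) (C0 * 16 Lam * 2 V)^(1/2) <= (1/2)^(k+1) (128 C0)^(1/2) V`   (`Lam/2^s <= V`), `s = (q k).1`.
 On the others `|F| <= sum_i |Pp (G i)|` and `off_dy`, `sum_i int |G i| = cost G <= 2V`, `2^(q j).1/2^(q k).1 <= 2 (1/4)^(k-j)`:
   `int_{Nb (q j) \ Nb (q (j+1))} w |F| <= (1/2)^(j+1) C (2 (1/4)^(k-j-1)) 2V`, `int_{(Nb (q 0))^c} w |F| <= C 2 (1/4)^k 2V`.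
 Sum of a geometric series: `sum_{j<k} (1/2)^(j+1) (1/4)^(k-j-1) <= 2 (1/2)^k`. (If `C0 < 0` replace `C0` by `max C0 0`.) -/

open MeasureTheory Complex
open scoped ComplexConjugate

namespace CH.B

theorem off_dy : ∃ C : ℝ, 0 ≤ C ∧ ∀ (s n s' n' : ℕ) (g : T → ℂ), tin s n s' n' → BM g →
    (∀ x, x ∉ D s n → g x = 0) → ∫ x, g x = 0 →
    ∫ x in (Nb s' n')ᶜ, ‖Pp g x‖ ≤ C * (2 ^ s' / 2 ^ s) * ∫ x, ‖g x‖ := by
  obtain ⟨C, hC, hoff⟩ := offdiag
  refine ⟨C, hC, fun s n s' n' g ht hg h0 hi => ?_⟩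
  have hs' : (0 : ℝ) < 1 / 2 ^ s' := by positivity
  have hs : (0 : ℝ) < 1 / 2 ^ s := by positivity
  have hle : (1 : ℝ) / 2 ^ s ≤ 1 / 2 ^ s' := by
    apply one_div_le_one_div_of_le (by positivity)
    exact pow_le_pow_right₀ (by norm_num) ht.1
  have h1 := hoff (cpt s n) (1 / 2 ^ s) (1 / 2 ^ s' + 1 / 2 ^ s) g hs (by linarith) hg
    (fun x hx => h0 x fun hD => by
      have := D_dist hD
      linarith) hi
  have hsub : (Nb s' n')ᶜ ⊆ {x : T | 1 / 2 ^ s' + 1 / 2 ^ s ≤ ‖x - cpt s n‖} := by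
    intro x hx
    have hx1 : (2 : ℝ) / 2 ^ s' ≤ ‖x - cpt s' n'‖ := by
      by_contra hcon
      exact hx (not_le.1 hcon)
    have hx2 : ‖x - cpt s' n'‖ ≤ ‖x - cpt s n‖ + ‖cpt s n - cpt s' n'‖ := by
      have := norm_add_le (x - cpt s n) (cpt s n - cpt s' n')
      simpa using this
    have hx3 := cpt_dist ht
    show (1 : ℝ) / 2 ^ s' + 1 / 2 ^ s ≤ ‖x - cpt s n‖
    have e1 : (2 : ℝ) / 2 ^ s' = 2 * (1 / 2 ^ s') := by ring
    linarith
  have hint : Integrable (fun x => ‖Pp g x‖) := (Pp_L2 g).integrable.norm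
  have h2 : ∫ x in (Nb s' n')ᶜ, ‖Pp g x‖ ≤
      ∫ x in {x : T | 1 / 2 ^ s' + 1 / 2 ^ s ≤ ‖x - cpt s n‖}, ‖Pp g x‖ :=
    setIntegral_mono_set hint.integrableOn (ae_of_all _ fun x => norm_nonneg _)
      (Filter.Eventually.of_forall hsub)
  refine h2.trans (h1.trans ?_)
  have hI : 0 ≤ ∫ x, ‖g x‖ := integral_nonneg fun x => norm_nonneg _
  refine mul_le_mul_of_nonneg_right (mul_le_mul_of_nonneg_left ?_ hC) hI
  rw [div_le_iff₀ (by positivity)]
  have e2 : (2 : ℝ) ^ s' / 2 ^ s * (1 / 2 ^ s' + 1 / 2 ^ s) =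
      1 / 2 ^ s + 2 ^ s' / 2 ^ s * (1 / 2 ^ s) := by
    field_simp
  rw [e2]
  have : (0 : ℝ) ≤ 2 ^ s' / 2 ^ s * (1 / 2 ^ s) := by positivity
  linarith

private theorem BPiece_geo (k : ℕ) :
    ∑ j ∈ Finset.range k, ((1 / 2 : ℝ) ^ (j + 1) * (1 / 4) ^ (k - (j + 1))) ≤
      2 * (1 / 2) ^ k := by
  induction k with
  | zero => simp
  | succ k ih =>
    rw [Finset.sum_range_succ]
    have h1 : ∀ j ∈ Finset.range k, ((1 / 2 : ℝ) ^ (j + 1) * (1 / 4) ^ (k + 1 - (j + 1))) =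
        (1 / 4) * ((1 / 2 : ℝ) ^ (j + 1) * (1 / 4) ^ (k - (j + 1))) := by
      intro j hj
      rw [Finset.mem_range] at hj
      have : k + 1 - (j + 1) = (k - (j + 1)) + 1 := by omega
      rw [this, pow_succ]
      ring
    rw [Finset.sum_congr rfl h1, ← Finset.mul_sum]
    simp only [Nat.sub_self, pow_zero, mul_one]
    have h2 : (0 : ℝ) < (1 / 2) ^ k := by positivity
    rw [pow_succ]
    linarith

private theorem BPiece_cov (k : ℕ) (P : ℕ → Prop) :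
    P k ∨ (∃ j < k, P j ∧ ¬ P (j + 1)) ∨ ¬ P 0 := by
  induction k with
  | zero => exact (em (P 0)).elim Or.inl fun h => Or.inr (Or.inr h)
  | succ k ih =>
    rcases ih with h | ⟨j, hj, h⟩ | h
    · by_cases h2 : P (k + 1)
      · exact Or.inl h2
      · exact Or.inr (Or.inl ⟨k, by omega, h, h2⟩)
    · exact Or.inr (Or.inl ⟨j, by omega, h⟩)
    · exact Or.inr (Or.inr h)

private theorem BPiece_cs {F : T → ℂ} (hF : L2 F) {N : Set T} (hN : MeasurableSet N) :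
    ∫ x in N, ‖F x‖ ≤ Real.sqrt (volume.real N) * Real.sqrt (∫ x, ‖F x‖ ^ 2) := by
  have h1 : L2 (N.indicator fun _ => (1 : ℂ)) := by
    refine MemLp.of_bound ((measurable_const.indicator hN).aestronglyMeasurable) 1
      (ae_of_all _ fun x => ?_)
    by_cases hx : x ∈ N <;> simp [hx]
  have h2 := cs h1 hF
  have e1 : ∫ x, ‖(N.indicator fun _ => (1 : ℂ)) x‖ * ‖F x‖ = ∫ x in N, ‖F x‖ := by
    rw [← integral_indicator hN]
    congr 1; ext x
    by_cases hx : x ∈ N <;> simp [hx]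
  have e2 : ∫ x, ‖(N.indicator fun _ => (1 : ℂ)) x‖ ^ 2 = volume.real N := by
    have : ∀ x, ‖(N.indicator fun _ => (1 : ℂ)) x‖ ^ 2 = N.indicator (fun _ => (1 : ℝ)) x := by
      intro x
      by_cases hx : x ∈ N <;> simp [hx]
    simp_rw [this]
    rw [integral_indicator hN]
    simp
  rw [e1, e2] at h2
  exact h2

private theorem BPiece_cost {ι : Type} [Fintype ι] {G : ι → T → ℂ} (hG : ∀ i, BM (G i)) :
    cost G = ∑ i, ∫ x, ‖G i x‖ := by
  unfold cost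
  exact integral_finsetSum _ fun i _ => (hG i).L2.integrable.norm

theorem piece (C0 : ℝ) (hC : ThmC C0) : ∃ C : ℝ, 0 ≤ C ∧
    ∀ (ι : Type) [Fintype ι] (m : ι → ℕ) (G : ι → T → ℂ) (k : ℕ) (q : ℕ → ℕ × ℕ) (Lam V : ℝ)
      (w : T → ℝ),
      (∀ i, BM (G i)) → (∀ i x, x ∉ D (q k).1 (q k).2 → G i x = 0) → (∀ i, ∫ x, G i x = 0) →
      (∀ j ≤ k, tin (q k).1 (q k).2 (q j).1 (q j).2) →
      (∀ j ≤ k, (1 / 2 ^ (q k).1 : ℝ) ≤ 2 * (1 / 4) ^ (k - j) * (1 / 2 ^ (q j).1)) →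
      0 < Lam → (∀ x, ∑ i, ‖G i x‖ ≤ 16 * Lam) → cost G ≤ 2 * V → Lam / 2 ^ (q k).1 ≤ V →
      Measurable w → (∀ x, 0 ≤ w x ∧ w x ≤ 1) →
      (∀ j ≤ k, ∀ x ∈ Nb (q j).1 (q j).2, w x ≤ (1 / 2) ^ (j + 1)) →
      ∫ x, w x * ‖hf m G x‖ ≤ C * (1 / 2) ^ k * V := by
  obtain ⟨C, hC', hoff⟩ := off_dy
  refine ⟨Real.sqrt (128 * max C0 0) + 12 * C, by positivity, ?_⟩
  intro ι _ m G k q Lam V w hG hsupp hint htin hlen hLam hsum hcost hV hwm hw hwj
  have hVpos : 0 < V := lt_of_lt_of_le (by positivity) hV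
  set F := hf m G with hFdef
  have hFL : L2 F := hf_L2 m G
  have hFi : Integrable (fun x => ‖F x‖) := hFL.integrable.norm
  set N : ℕ → Set T := fun j => Nb (q j).1 (q j).2 with hNdef
  have hNm : ∀ j, MeasurableSet (N j) := fun j => Nb_meas _ _
  -- off-diagonal bound
  have hFle : ∀ x, ‖F x‖ ≤ ∑ i, ‖Pp (G i) x‖ := by
    intro x
    refine (norm_sum_le _ _).trans (Finset.sum_le_sum fun i _ => ?_)
    simp
  have hA : ∀ j ≤ k, ∫ x in (N j)ᶜ, ‖F x‖ ≤ 4 * C * V * (1 / 4) ^ (k - j) := by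
    intro j hj
    have h1 : ∫ x in (N j)ᶜ, ‖F x‖ ≤ ∫ x in (N j)ᶜ, ∑ i, ‖Pp (G i) x‖ := by
      refine setIntegral_mono hFi.integrableOn ?_ hFle
      exact (integrable_finsetSum _ fun i _ => (Pp_L2 (G i)).integrable.norm).integrableOn
    have h2 : ∫ x in (N j)ᶜ, ∑ i, ‖Pp (G i) x‖ = ∑ i, ∫ x in (N j)ᶜ, ‖Pp (G i) x‖ :=
      integral_finsetSum _ fun i _ => ((Pp_L2 (G i)).integrable.norm).integrableOn
    have h3 : ∑ i, ∫ x in (N j)ᶜ, ‖Pp (G i) x‖ ≤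
        ∑ i, C * (2 ^ (q j).1 / 2 ^ (q k).1) * ∫ x, ‖G i x‖ := by
      refine Finset.sum_le_sum fun i _ => ?_
      exact hoff _ _ _ _ (G i) (htin j hj) (hG i) (hsupp i) (hint i)
    rw [← Finset.mul_sum, ← BPiece_cost hG] at h3
    have h4 : (2 : ℝ) ^ (q j).1 / 2 ^ (q k).1 ≤ 2 * (1 / 4) ^ (k - j) := by
      have := hlen j hj
      have h5 : (0 : ℝ) < 2 ^ (q j).1 := by positivity
      calc (2 : ℝ) ^ (q j).1 / 2 ^ (q k).1 = 2 ^ (q j).1 * (1 / 2 ^ (q k).1) := by ring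
        _ ≤ 2 ^ (q j).1 * (2 * (1 / 4) ^ (k - j) * (1 / 2 ^ (q j).1)) :=
          mul_le_mul_of_nonneg_left this h5.le
        _ = 2 * (1 / 4) ^ (k - j) := by field_simp
    have h6 : 0 ≤ cost G := integral_nonneg fun x => Finset.sum_nonneg fun i _ => norm_nonneg _
    calc ∫ x in (N j)ᶜ, ‖F x‖ ≤ C * (2 ^ (q j).1 / 2 ^ (q k).1) * cost G := by linarith
      _ ≤ C * (2 * (1 / 4) ^ (k - j)) * (2 * V) := by
        refine mul_le_mul (mul_le_mul_of_nonneg_left h4 hC') hcost h6 (by positivity)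
      _ = 4 * C * V * (1 / 4) ^ (k - j) := by ring
  -- diagonal bound
  have hD : ∫ x in N k, ‖F x‖ ≤ Real.sqrt (128 * max C0 0) * V := by
    have h1 := BPiece_cs hFL (hNm k)
    have h2 : volume.real (N k) ≤ 4 / 2 ^ (q k).1 := Nb_vol _ _
    have h3 : ∫ x, ‖F x‖ ^ 2 ≤ C0 * (16 * Lam) * cost G :=
      hC ι m G (16 * Lam) hG (by positivity) hsum
    have h6 : 0 ≤ cost G := integral_nonneg fun x => Finset.sum_nonneg fun i _ => norm_nonneg _
    have h4 : ∫ x, ‖F x‖ ^ 2 ≤ max C0 0 * (16 * Lam) * (2 * V) := by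
      refine h3.trans ?_
      refine mul_le_mul (mul_le_mul_of_nonneg_right (le_max_left _ _) (by positivity)) hcost h6
        (by positivity)
    refine h1.trans ?_
    calc Real.sqrt (volume.real (N k)) * Real.sqrt (∫ x, ‖F x‖ ^ 2)
        ≤ Real.sqrt (4 / 2 ^ (q k).1) * Real.sqrt (max C0 0 * (16 * Lam) * (2 * V)) :=
          mul_le_mul (Real.sqrt_le_sqrt h2) (Real.sqrt_le_sqrt h4) (Real.sqrt_nonneg _)
            (Real.sqrt_nonneg _)
      _ = Real.sqrt (4 / 2 ^ (q k).1 * (max C0 0 * (16 * Lam) * (2 * V))) := by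
          rw [← Real.sqrt_mul (by positivity : (0 : ℝ) ≤ 4 / 2 ^ (q k).1)]
      _ ≤ Real.sqrt (128 * max C0 0 * V ^ 2) := by
          refine Real.sqrt_le_sqrt ?_
          have e1 : 4 / 2 ^ (q k).1 * (max C0 0 * (16 * Lam) * (2 * V)) =
              128 * max C0 0 * V * (Lam / 2 ^ (q k).1) := by ring
          rw [e1, pow_two, ← mul_assoc]
          exact mul_le_mul_of_nonneg_left hV (by positivity)
      _ = Real.sqrt (128 * max C0 0) * V := by
          rw [Real.sqrt_mul (by positivity), Real.sqrt_sq hVpos.le]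
  -- pointwise domination
  have hpt : ∀ x, w x * ‖F x‖ ≤ (1 / 2) ^ (k + 1) * (N k).indicator (fun x => ‖F x‖) x +
      (∑ j ∈ Finset.range k, (1 / 2) ^ (j + 1) * ((N (j + 1))ᶜ).indicator (fun x => ‖F x‖) x) +
      ((N 0)ᶜ).indicator (fun x => ‖F x‖) x := by
    intro x
    have i0 : 0 ≤ (N k).indicator (fun x => ‖F x‖) x :=
      Set.indicator_nonneg (fun _ _ => norm_nonneg _) x
    have i1 : ∀ j, 0 ≤ ((N j)ᶜ).indicator (fun x => ‖F x‖) x := fun j =>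
      Set.indicator_nonneg (fun _ _ => norm_nonneg _) x
    have t0 : 0 ≤ (1 / 2 : ℝ) ^ (k + 1) * (N k).indicator (fun x => ‖F x‖) x := by positivity
    have t1 : ∀ j ∈ Finset.range k,
        0 ≤ (1 / 2 : ℝ) ^ (j + 1) * ((N (j + 1))ᶜ).indicator (fun x => ‖F x‖) x := fun j _ =>
      mul_nonneg (by positivity) (i1 _)
    have t1s := Finset.sum_nonneg t1
    rcases BPiece_cov k (fun j => x ∈ N j) with h | ⟨j, hj, h, h'⟩ | h
    · have h2 : w x * ‖F x‖ ≤ (1 / 2) ^ (k + 1) * (N k).indicator (fun x => ‖F x‖) x := by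
        rw [Set.indicator_of_mem h]
        exact mul_le_mul_of_nonneg_right (hwj k le_rfl x h) (norm_nonneg _)
      have := i1 0
      linarith
    · have h2 : w x * ‖F x‖ ≤ (1 / 2) ^ (j + 1) * ((N (j + 1))ᶜ).indicator (fun x => ‖F x‖) x := by
        rw [Set.indicator_of_mem (show x ∈ (N (j + 1))ᶜ from h')]
        exact mul_le_mul_of_nonneg_right (hwj j hj.le x h) (norm_nonneg _)
      have h3 := Finset.single_le_sum t1 (Finset.mem_range.2 hj)
      have := i1 0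
      linarith
    · have h2 : w x * ‖F x‖ ≤ ((N 0)ᶜ).indicator (fun x => ‖F x‖) x := by
        rw [Set.indicator_of_mem (show x ∈ (N 0)ᶜ from h)]
        exact mul_le_of_le_one_left (norm_nonneg _) (hw x).2
      linarith
  have hI0 : Integrable (fun x => (1 / 2 : ℝ) ^ (k + 1) * (N k).indicator (fun x => ‖F x‖) x) :=
    (hFi.indicator (hNm k)).const_mul _
  have hI1 : ∀ j, Integrable (((N j)ᶜ).indicator (fun x => ‖F x‖)) := fun j =>
    hFi.indicator (hNm j).compl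
  have hI2 : Integrable (fun x => ∑ j ∈ Finset.range k,
      (1 / 2 : ℝ) ^ (j + 1) * ((N (j + 1))ᶜ).indicator (fun x => ‖F x‖) x) :=
    integrable_finsetSum _ fun j _ => (hI1 (j + 1)).const_mul _
  have hwF : Integrable (fun x => w x * ‖F x‖) := by
    refine hFi.bdd_mul (c := 1) hwm.aestronglyMeasurable (ae_of_all _ fun x => ?_)
    rw [Real.norm_eq_abs, abs_of_nonneg (hw x).1]
    exact (hw x).2
  have hmain : ∫ x, w x * ‖F x‖ ≤ (1 / 2) ^ (k + 1) * (∫ x in N k, ‖F x‖) +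
      (∑ j ∈ Finset.range k, (1 / 2) ^ (j + 1) * ∫ x in (N (j + 1))ᶜ, ‖F x‖) +
      ∫ x in (N 0)ᶜ, ‖F x‖ := by
    refine (integral_mono hwF ((hI0.add hI2).add (hI1 0)) hpt).trans (le_of_eq ?_)
    have e1 := integral_add (hI0.add hI2) (hI1 0)
    have e2 := integral_add hI0 hI2
    simp only [Pi.add_apply] at e1 ⊢
    rw [e1, e2, integral_const_mul,
      integral_indicator (hNm k), integral_indicator (hNm 0).compl,
      integral_finsetSum _ fun j _ => (hI1 (j + 1)).const_mul _]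
    congr 2
    refine Finset.sum_congr rfl fun j _ => ?_
    rw [integral_const_mul, integral_indicator (hNm (j + 1)).compl]
  have hsumj : ∑ j ∈ Finset.range k, (1 / 2 : ℝ) ^ (j + 1) * ∫ x in (N (j + 1))ᶜ, ‖F x‖ ≤
      4 * C * V * (2 * (1 / 2) ^ k) := by
    calc ∑ j ∈ Finset.range k, (1 / 2 : ℝ) ^ (j + 1) * ∫ x in (N (j + 1))ᶜ, ‖F x‖
        ≤ ∑ j ∈ Finset.range k, (1 / 2 : ℝ) ^ (j + 1) * (4 * C * V * (1 / 4) ^ (k - (j + 1))) := by
          refine Finset.sum_le_sum fun j hj => mul_le_mul_of_nonneg_left ?_ (by positivity)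
          exact hA (j + 1) (by rw [Finset.mem_range] at hj; omega)
      _ = 4 * C * V * ∑ j ∈ Finset.range k, ((1 / 2 : ℝ) ^ (j + 1) * (1 / 4) ^ (k - (j + 1))) := by
          rw [Finset.mul_sum]
          refine Finset.sum_congr rfl fun j _ => ?_
          ring
      _ ≤ 4 * C * V * (2 * (1 / 2) ^ k) :=
          mul_le_mul_of_nonneg_left (BPiece_geo k) (by positivity)
  have h0 := hA 0 (Nat.zero_le k)
  have hq : (1 / 4 : ℝ) ^ (k - 0) ≤ (1 / 2) ^ k := by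
    rw [Nat.sub_zero]
    exact pow_le_pow_left₀ (by norm_num) (by norm_num) k
  have h0' : ∫ x in (N 0)ᶜ, ‖F x‖ ≤ 4 * C * V * (1 / 2) ^ k :=
    h0.trans (mul_le_mul_of_nonneg_left hq (by positivity))
  have hk : (1 / 2 : ℝ) ^ (k + 1) * (∫ x in N k, ‖F x‖) ≤
      (1 / 2) ^ k * (Real.sqrt (128 * max C0 0) * V) := by
    refine mul_le_mul ?_ hD (integral_nonneg fun x => norm_nonneg _) (by positivity)
    exact pow_le_pow_of_le_one (by norm_num) (by norm_num) (Nat.le_succ k)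
  have e : (Real.sqrt (128 * max C0 0) + 12 * C) * (1 / 2) ^ k * V =
      (1 / 2) ^ k * (Real.sqrt (128 * max C0 0) * V) + 4 * C * V * (2 * (1 / 2) ^ k) +
        4 * C * V * (1 / 2) ^ k := by ring
  rw [e]
  linarith

end CH.B
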