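import Pool.Agent.CH.BCh
import Pool.Agent.CH.BEE
import Pool.Agent.CH.BPiece
import Pool.Agent.CH.BApx

/-! # CH-BK0: Lemma K0 (B4), assembly of BCZ, BCh, BEE, BPiece
`n = nn S nu lam K` with `K` such that `QQ S nu (lam 4^k) = ∅` for `k >= K` (`QQ_empty`). `E_k = EE (QQ S nu (lam 4^k))`, `g0 = E_0 g`.
`h - h_0 = sum_{k < K} sum_{p ∈ QQ (lam 4^k)} hf m (1_{D p} (E_{k+1} g - E_k g))` a.e. (`hf_sum`, `hf_sub`; `E_{k+1} g - E_k g` vanishes off the union of the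
`D p`, `p ∈ QQ (lam 4^k)`, because `QQ (lam 4^(k+1))` is inside (`QQ_nest`, `D_sub`); `E_K g = g`).
Each term: `piece` with the chain of `QQ_chain`, `Lam = lam 4^k`, `V = int_{D p} nu`, `w = (1/2)^n`:
 sup: `sum_i |E_{k+1} g_i - E_k g_i| <= 2 lam 4^(k+1) + 2 lam 4^k <= 16 lam 4^k` (`EE_le`); mean zero: `EE_int_on` twice (the members of `QQ (lam 4^(k+1))`
 are inside `D p` or disjoint from it); cost: `EE_sum_le_int` twice. Sum over `p`: `QQ_int_le` (`<= 3`), over `k`: `sum (1/2)^k <= 2`. -/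

open MeasureTheory Complex
open scoped ComplexConjugate

namespace CH.B

/-- the piece of level `k` on the interval `p` -/
private noncomputable def bkG {ι : Type} (S : ℕ) (nu : T → ℝ) (lam : ℝ) (g : ι → T → ℂ) (k : ℕ)
    (p : ℕ × ℕ) (i : ι) (x : T) : ℂ :=
  (D p.1 p.2).indicator (fun y => EE (QQ S nu (lam * 4 ^ (k + 1))) (g i) y -
    EE (QQ S nu (lam * 4 ^ k)) (g i) y) x

private theorem bk_three {lam : ℝ} (hl : 100 ≤ lam) (k : ℕ) : 3 ≤ lam * 4 ^ k := by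
  have h1 : (1 : ℝ) ≤ 4 ^ k := one_le_pow₀ (by norm_num)
  nlinarith

private theorem bk_sub_or {S : ℕ} {nu : T → ℝ} {lam lam' : ℝ} (h : Nu S nu) (hl : lam ≤ lam')
    {p : ℕ × ℕ} (hp : p ∈ QQ S nu lam) {p' : ℕ × ℕ} (hp' : p' ∈ QQ S nu lam') :
    D p'.1 p'.2 ⊆ D p.1 p.2 ∨ Disjoint (D p'.1 p'.2) (D p.1 p.2) := by
  obtain ⟨q, hq, ht⟩ := QQ_nest h hl hp'
  by_cases hqp : q = p
  · left
    rw [hqp] at ht
    exact D_sub ht
  · right
    rw [Set.disjoint_left]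
    intro x hx hxp
    exact hqp ((QQ_Gd h).disj q hq p hp x (D_sub ht hx) hxp)

private theorem bk_step {S : ℕ} {nu : T → ℝ} {lam : ℝ} (h : Nu S nu) (hl : 100 ≤ lam)
    {ι : Type} (g : ι → T → ℂ) (k : ℕ) (i : ι) (x : T) :
    EE (QQ S nu (lam * 4 ^ (k + 1))) (g i) x - EE (QQ S nu (lam * 4 ^ k)) (g i) x =
      ∑ p ∈ QQ S nu (lam * 4 ^ k), bkG S nu lam g k p i x := by
  have hle : lam * 4 ^ k ≤ lam * 4 ^ (k + 1) := by
    have h1 : (0 : ℝ) ≤ 4 ^ k := by positivity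
    rw [pow_succ]
    nlinarith
  unfold bkG
  by_cases hx : ∃ p ∈ QQ S nu (lam * 4 ^ k), x ∈ D p.1 p.2
  · obtain ⟨p, hp, hxp⟩ := hx
    rw [BEE_sum_on (QQ_Gd h) (fun _ y => EE (QQ S nu (lam * 4 ^ (k + 1))) (g i) y -
      EE (QQ S nu (lam * 4 ^ k)) (g i) y) hp hxp]
  · push Not at hx
    rw [BEE_sum_off (fun _ y => EE (QQ S nu (lam * 4 ^ (k + 1))) (g i) y -
      EE (QQ S nu (lam * 4 ^ k)) (g i) y) hx, EE_off _ hx, EE_off _ ?_, sub_self]
    intro p' hp' hxp'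
    obtain ⟨q, hq, ht⟩ := QQ_nest h hle hp'
    exact hx q hq (D_sub ht hxp')

private theorem bk_BM {S : ℕ} {nu : T → ℝ} {lam : ℝ} {ι : Type} {g : ι → T → ℂ}
    (hg : ∀ i, BM (g i)) (k : ℕ) (p : ℕ × ℕ) (i : ι) : BM (bkG S nu lam g k p i) := by
  obtain ⟨h1, B1, hB1⟩ := EE_BM (QQ S nu (lam * 4 ^ (k + 1))) (hg i)
  obtain ⟨h2, B2, hB2⟩ := EE_BM (QQ S nu (lam * 4 ^ k)) (hg i)
  refine ⟨(h1.sub h2).indicator (D_meas _ _), B1 + B2, fun x => ?_⟩
  unfold bkG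
  exact (norm_indicator_le_norm_self _ _).trans
    ((norm_sub_le _ _).trans (add_le_add (hB1 x) (hB2 x)))

private theorem bk_int0 {S : ℕ} {nu : T → ℝ} {lam : ℝ} (h : Nu S nu) (hl : 100 ≤ lam)
    {ι : Type} {g : ι → T → ℂ} (hg : ∀ i, BM (g i)) (k : ℕ) {p : ℕ × ℕ}
    (hp : p ∈ QQ S nu (lam * 4 ^ k)) (i : ι) : ∫ x, bkG S nu lam g k p i x = 0 := by
  have hle : lam * 4 ^ k ≤ lam * 4 ^ (k + 1) := by
    have h1 : (0 : ℝ) ≤ 4 ^ k := by positivity
    rw [pow_succ]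
    nlinarith
  unfold bkG
  rw [integral_indicator (D_meas _ _), integral_sub
    (EE_BM _ (hg i)).L2.integrable.integrableOn (EE_BM _ (hg i)).L2.integrable.integrableOn,
    EE_int_on (QQ_Gd h) (hg i) p.1 p.2 (fun p' hp' => bk_sub_or h hle hp hp'),
    EE_int_on (QQ_Gd h) (hg i) p.1 p.2 (fun p' hp' => bk_sub_or h le_rfl hp hp'), sub_self]

private theorem bk_norm {S : ℕ} {nu : T → ℝ} {lam : ℝ} {ι : Type} [Fintype ι] (g : ι → T → ℂ)
    (k : ℕ) (p : ℕ × ℕ) (x : T) : ∑ i, ‖bkG S nu lam g k p i x‖ ≤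
      (D p.1 p.2).indicator (fun y => ∑ i, ‖EE (QQ S nu (lam * 4 ^ (k + 1))) (g i) y‖ +
        ∑ i, ‖EE (QQ S nu (lam * 4 ^ k)) (g i) y‖) x := by
  unfold bkG
  by_cases hx : x ∈ D p.1 p.2
  · simp_rw [Set.indicator_of_mem hx]
    rw [← Finset.sum_add_distrib]
    exact Finset.sum_le_sum fun i _ => norm_sub_le _ _
  · simp_rw [Set.indicator_of_notMem hx]
    simp

private theorem bk_sup {S : ℕ} {nu : T → ℝ} {lam : ℝ} (h : Nu S nu) (hl : 100 ≤ lam)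
    {ι : Type} [Fintype ι] {g : ι → T → ℂ} (hg : ∀ i, BM (g i))
    (hs : ∀ x, ∑ i, ‖g i x‖ ≤ nu x) (k : ℕ) (p : ℕ × ℕ) (x : T) :
    ∑ i, ‖bkG S nu lam g k p i x‖ ≤ 16 * (lam * 4 ^ k) := by
  refine (bk_norm g k p x).trans ?_
  have h0 : (0 : ℝ) ≤ lam * 4 ^ k := by have := bk_three hl k; linarith
  by_cases hx : x ∈ D p.1 p.2
  · rw [Set.indicator_of_mem hx]
    have h1 := EE_le h (bk_three hl (k + 1)) hg hs x
    have h2 := EE_le h (bk_three hl k) hg hs x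
    have h4 : 2 * (lam * 4 ^ (k + 1)) = 8 * (lam * 4 ^ k) := by rw [pow_succ]; ring
    linarith [h1, h2, h4]
  · rw [Set.indicator_of_notMem hx]
    linarith

private theorem bk_cost {S : ℕ} {nu : T → ℝ} {lam : ℝ} (h : Nu S nu) (hl : 100 ≤ lam)
    {ι : Type} [Fintype ι] {g : ι → T → ℂ} (hg : ∀ i, BM (g i))
    (hs : ∀ x, ∑ i, ‖g i x‖ ≤ nu x) (k : ℕ) {p : ℕ × ℕ} (hp : p ∈ QQ S nu (lam * 4 ^ k)) :
    cost (bkG S nu lam g k p) ≤ 2 * ∫ x in D p.1 p.2, nu x := by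
  have hle : lam * 4 ^ k ≤ lam * 4 ^ (k + 1) := by
    have h1 : (0 : ℝ) ≤ 4 ^ k := by positivity
    rw [pow_succ]
    nlinarith
  have hI : ∀ Q : Finset (ℕ × ℕ), Integrable (fun x => ∑ i, ‖EE Q (g i) x‖) := fun Q =>
    integrable_finsetSum _ fun i _ => (EE_BM Q (hg i)).L2.integrable.norm
  unfold cost
  have h1 : ∫ x, ∑ i, ‖bkG S nu lam g k p i x‖ ≤
      ∫ x, (D p.1 p.2).indicator (fun y => ∑ i, ‖EE (QQ S nu (lam * 4 ^ (k + 1))) (g i) y‖ +
        ∑ i, ‖EE (QQ S nu (lam * 4 ^ k)) (g i) y‖) x := by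
    refine integral_mono ?_ ?_ fun x => bk_norm g k p x
    · exact integrable_finsetSum _ fun i _ => (bk_BM hg k p i).L2.integrable.norm
    · exact ((hI _).add (hI _)).indicator (D_meas _ _)
  refine h1.trans ?_
  rw [integral_indicator (D_meas _ _), integral_add (hI _).integrableOn (hI _).integrableOn]
  have h2 := EE_sum_le_int (QQ_Gd h) hg (Nu_integrable h) hs p.1 p.2
    (fun p' hp' => bk_sub_or h hle hp hp')
  have h3 := EE_sum_le_int (QQ_Gd h) hg (Nu_integrable h) hs p.1 p.2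
    (fun p' hp' => bk_sub_or h le_rfl hp hp')
  linarith

private theorem bk_tele {S : ℕ} {nu : T → ℝ} {lam : ℝ} (h : Nu S nu) (hl : 100 ≤ lam)
    {ι : Type} (g : ι → T → ℂ) (K : ℕ) (hK : QQ S nu (lam * 4 ^ K) = ∅) (i : ι) (x : T) :
    g i x - EE (QQ S nu lam) (g i) x =
      ∑ kp ∈ (Finset.range K).sigma (fun k => QQ S nu (lam * 4 ^ k)),
        bkG S nu lam g kp.1 kp.2 i x := by
  rw [Finset.sum_sigma]
  simp only
  rw [Finset.sum_congr rfl fun k _ => (bk_step h hl g k i x).symm,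
    Finset.sum_range_sub (fun k => EE (QQ S nu (lam * 4 ^ k)) (g i) x), hK, EE_empty]
  simp

private theorem bk_geom (K : ℕ) : ∑ k ∈ Finset.range K, (1 / 2 : ℝ) ^ k ≤ 2 := by
  rw [geom_sum_eq (by norm_num)]
  have h1 : (0 : ℝ) ≤ (1 / 2) ^ K := by positivity
  rw [div_le_iff_of_neg (by norm_num)]
  linarith

theorem K0 (C0 : ℝ) (hC : ThmC C0) : ∃ C : ℝ, 1 ≤ C ∧ ∀ (S : ℕ) (nu : T → ℝ) (lam : ℝ), 100 ≤ lam →
    Nu S nu → ∃ n : T → ℕ, Measurable n ∧ (∃ B : ℕ, ∀ x, n x ≤ B) ∧ ∫ x, (n x : ℝ) ≤ C / lam ∧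
      ∀ (ι : Type) [Fintype ι] (m : ι → ℕ) (g : ι → T → ℂ), (∀ i, Step S (g i)) →
        (∀ x, ∑ i, ‖g i x‖ ≤ nu x) →
        ∃ g0 : ι → T → ℂ, (∀ i, BM (g0 i)) ∧ cost g0 ≤ cost g ∧
          ∫ x, ‖hf m g0 x‖ ^ 2 ≤ C * lam ∧
          ∫ x, (1 / 2 : ℝ) ^ (n x) * ‖hf m g x - hf m g0 x‖ ≤ C := by
  obtain ⟨Cp, hCp0, hCp⟩ := piece C0 hC
  refine ⟨16 + 6 * |C0| + 6 * Cp, by nlinarith [abs_nonneg C0], fun S nu lam hl hnu => ?_⟩
  obtain ⟨B, hB⟩ := QQ_empty hnu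
  obtain ⟨K, hK⟩ : ∃ K : ℕ, B ≤ lam * 4 ^ K := by
    obtain ⟨K, hK⟩ := pow_unbounded_of_one_lt B (by norm_num : (1 : ℝ) < 4)
    exact ⟨K, hK.le.trans (le_mul_of_one_le_left (by positivity) (by linarith))⟩
  have hKe := hB _ hK
  have hl3 : (3 : ℝ) ≤ lam := by linarith
  refine ⟨nn S nu lam K, nn_measurable S nu lam K, nn_bdd S nu lam K, ?_, ?_⟩
  · refine (nn_int hnu hl3 K).trans ?_
    gcongr
    nlinarith [abs_nonneg C0]
  intro ι _ m g hst hs
  have hg : ∀ i, BM (g i) := fun i => Step_BM (hst i)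
  have hcg : cost g ≤ 3 := by
    unfold cost
    refine (integral_mono ?_ (Nu_integrable hnu) hs).trans hnu.int
    exact integrable_finsetSum _ fun i _ => (hg i).L2.integrable.norm
  have hcg0 : cost (fun i => EE (QQ S nu lam) (g i)) ≤ cost g := EE_cost (QQ_Gd hnu) hg
  have hcn : 0 ≤ cost (fun i => EE (QQ S nu lam) (g i)) :=
    integral_nonneg fun x => Finset.sum_nonneg fun i _ => norm_nonneg _
  refine ⟨fun i => EE (QQ S nu lam) (g i), fun i => EE_BM _ (hg i), hcg0, ?_, ?_⟩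
  · refine (hC ι m _ (2 * lam) (fun i => EE_BM _ (hg i)) (by linarith)
      (fun x => EE_le hnu hl3 hg hs x)).trans ?_
    have h1 : C0 * (2 * lam) * cost (fun i => EE (QQ S nu lam) (g i)) ≤
        |C0| * (2 * lam) * 3 := by
      have h2 : C0 * (2 * lam) ≤ |C0| * (2 * lam) :=
        mul_le_mul_of_nonneg_right (le_abs_self _) (by linarith)
      refine (mul_le_mul_of_nonneg_right h2 hcn).trans ?_
      exact mul_le_mul_of_nonneg_left (hcg0.trans hcg)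
        (mul_nonneg (abs_nonneg _) (by linarith))
    refine h1.trans ?_
    have h3 : 0 ≤ (16 + 6 * Cp) * lam := by positivity
    nlinarith
  -- the weighted estimate
  set w : T → ℝ := fun x => (1 / 2 : ℝ) ^ (nn S nu lam K x) with hw
  have hwm : Measurable w := (measurable_const.pow (nn_measurable S nu lam K))
  have hw01 : ∀ x, 0 ≤ w x ∧ w x ≤ 1 := fun x =>
    ⟨by simp only [hw]; positivity, pow_le_one₀ (by norm_num) (by norm_num)⟩
  set s := (Finset.range K).sigma (fun k => QQ S nu (lam * 4 ^ k)) with hsdef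
  have hae : (fun x => hf m g x - hf m (fun i => EE (QQ S nu lam) (g i)) x) =ᵐ[volume]
      fun x => ∑ kp ∈ s, hf m (bkG S nu lam g kp.1 kp.2) x := by
    have h1 := hf_sub m hg (fun i => EE_BM (QQ S nu lam) (hg i))
    have h2 := hf_sum m s (g := fun kp => bkG S nu lam g kp.1 kp.2)
      (fun kp _ i => bk_BM hg kp.1 kp.2 i)
    have h3 : (fun (i : ι) (x : T) => g i x - EE (QQ S nu lam) (g i) x) =
        fun i x => ∑ kp ∈ s, bkG S nu lam g kp.1 kp.2 i x := by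
      funext i x
      exact bk_tele hnu hl g K hKe i x
    rw [h3] at h1
    exact h1.symm.trans h2
  have hIw : ∀ kp : (_ : ℕ) × (ℕ × ℕ), Integrable
      (fun x => w x * ‖hf m (bkG S nu lam g kp.1 kp.2) x‖) := fun kp =>
    (hf_L2 m (bkG S nu lam g kp.1 kp.2)).integrable.norm.bdd_mul (c := 1)
      hwm.aestronglyMeasurable (ae_of_all _ fun x => by
        rw [Real.norm_eq_abs, abs_of_nonneg (hw01 x).1]; exact (hw01 x).2)
  have hmain : ∫ x, w x * ‖hf m g x - hf m (fun i => EE (QQ S nu lam) (g i)) x‖ ≤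
      ∑ kp ∈ s, ∫ x, w x * ‖hf m (bkG S nu lam g kp.1 kp.2) x‖ := by
    rw [← integral_finsetSum _ fun kp _ => hIw kp]
    refine integral_mono_ae ?_ (integrable_finsetSum _ fun kp _ => hIw kp) ?_
    · exact ((hf_L2 m g).integrable.sub (hf_L2 m _).integrable).norm.bdd_mul (c := 1)
        hwm.aestronglyMeasurable (ae_of_all _ fun x => by
          rw [Real.norm_eq_abs, abs_of_nonneg (hw01 x).1]; exact (hw01 x).2)
    · filter_upwards [hae] with x hx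
      rw [hx, ← Finset.mul_sum]
      exact mul_le_mul_of_nonneg_left (norm_sum_le _ _) (hw01 x).1
  refine hmain.trans ?_
  have hterm : ∀ k ∈ Finset.range K, ∀ p ∈ QQ S nu (lam * 4 ^ k),
      ∫ x, w x * ‖hf m (bkG S nu lam g k p) x‖ ≤
        Cp * (1 / 2) ^ k * ∫ x in D p.1 p.2, nu x := by
    intro k hk p hp
    rw [Finset.mem_range] at hk
    obtain ⟨q, hqk, hq⟩ := QQ_chain hnu hl3 k hp
    refine hCp ι m (bkG S nu lam g k p) k q (lam * 4 ^ k) _ w (fun i => bk_BM hg k p i) ?_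
      (fun i => bk_int0 hnu hl hg k hp i) ?_ ?_ (by have := bk_three hl k; linarith)
      (fun x => bk_sup hnu hl hg hs k p x) (bk_cost hnu hl hg hs k hp) ?_ hwm hw01 ?_
    · intro i x hx
      rw [hqk] at hx
      unfold bkG
      exact Set.indicator_of_notMem hx _
    · intro j hj
      rw [hqk]
      exact (hq j hj).2.1
    · intro j hj
      rw [hqk]
      exact (hq j hj).2.2
    · rw [hqk]
      exact (QQ_mem hnu (bk_three hl k) hp).2.2.1.le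
    · intro j hj x hx
      have h1 := nn_ge hnu hl3 (lt_of_le_of_lt hj hk) (hq j hj).1 hx
      exact pow_le_pow_of_le_one (by norm_num) (by norm_num) h1
  rw [hsdef, Finset.sum_sigma]
  calc ∑ k ∈ Finset.range K, ∑ p ∈ QQ S nu (lam * 4 ^ k),
        ∫ x, w x * ‖hf m (bkG S nu lam g k p) x‖
      ≤ ∑ k ∈ Finset.range K, Cp * (1 / 2) ^ k * 3 := by
        refine Finset.sum_le_sum fun k hk => ?_
        refine (Finset.sum_le_sum fun p hp => hterm k hk p hp).trans ?_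
        rw [← Finset.mul_sum]
        exact mul_le_mul_of_nonneg_left (QQ_int_le hnu) (by positivity)
    _ = 3 * Cp * ∑ k ∈ Finset.range K, (1 / 2 : ℝ) ^ k := by
        rw [Finset.mul_sum]
        refine Finset.sum_congr rfl fun k _ => by ring
    _ ≤ 3 * Cp * 2 := mul_le_mul_of_nonneg_left (bk_geom K) (by positivity)
    _ ≤ 16 + 6 * |C0| + 6 * Cp := by nlinarith [abs_nonneg C0]

end CH.B
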