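import Pool.Agent.CH.BSem

/-! # CH-BLim: the limit of the sequence (B8)
`int |f_{J+1} - f_J|^2 <= 2 eta_J^2` (`L2_le_NB_DB`), so `f_J` is Cauchy in `L2` (`Lp`, complete); the limit `f` can be taken measurable, `|f| <= A`, `0` off `E`
(a.e. convergent subsequence, then change on a null set). `NB (f_I - f_J) (sum_{J <= j < I} eta_j)` (`NB_add`), `I -> oo` (the integrals converge):
`NB (f - f_J) s_J`, `s_J = sum_{j >= J} eta_j -> 0`; same for `DB`. `f - sM M f = (f - f_J) + (f_J - sM M f_J) - sM M (f - f_J)`: `NB <= 2 s_J + ep_J`.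
`int f = lim int f_J`, `|int f - 1| <= 1/4`. -/

open MeasureTheory Complex Filter Topology
open scoped ComplexConjugate

namespace CH.B

theorem BLim_norm_toLp_sq {f : T → ℂ} (hf : MemLp f 2 volume) :
    ‖MemLp.toLp f hf‖ ^ 2 = ∫ x, ‖f x‖ ^ 2 := by
  have h0 : 0 ≤ ∫ x, ‖f x‖ ^ 2 := integral_nonneg fun x => by positivity
  rw [Lp.norm_toLp, MemLp.eLpNorm_eq_integral_rpow_norm (by norm_num) (by norm_num) hf]
  rw [ENNReal.toReal_ofReal (by positivity)]
  simp only [ENNReal.toReal_ofNat, Real.rpow_two]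
  rw [← Real.rpow_natCast, ← Real.rpow_mul h0]
  norm_num

theorem BLim_dist_sq {f g : T → ℂ} (hf : MemLp f 2 volume) (hg : MemLp g 2 volume) :
    dist (MemLp.toLp f hf) (MemLp.toLp g hg) ^ 2 = ∫ x, ‖f x - g x‖ ^ 2 := by
  have h := BLim_norm_toLp_sq (hf.sub hg)
  rw [dist_eq_norm, ← MemLp.toLp_sub]
  exact h

/-- completeness: a summable sequence of steps has a limit -/
theorem BLim_limit {E : Set T} (hEm : MeasurableSet E) (f : ℕ → T → ℂ) (A : ℝ) (eta : ℕ → ℝ)
    (hf : ∀ J, BM (f J)) (hA : ∀ J x, ‖f J x‖ ≤ A) (hE : ∀ J x, x ∉ E → f J x = 0)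
    (h3 : ∀ J, 0 ≤ eta J) (h4 : Summable eta)
    (h5 : ∀ J, ∫ x, ‖f (J + 1) x - f J x‖ ^ 2 ≤ 2 * eta J ^ 2) :
    ∃ F : T → ℂ, BM F ∧ (∀ x, x ∉ E → F x = 0) ∧
      Tendsto (fun J => ∫ x, ‖f J x - F x‖ ^ 2) atTop (𝓝 0) := by
  classical
  have hL : ∀ J, L2 (f J) := fun J => (hf J).L2
  let G : ℕ → Lp ℂ 2 (volume : Measure T) := fun J => MemLp.toLp (f J) (hL J)
  have hd : ∀ J, dist (G J) (G (J + 1)) ≤ 2 * eta J := by
    intro J
    have h := BLim_dist_sq (hL (J + 1)) (hL J)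
    have h1 := h5 J
    rw [← h, dist_comm] at h1
    refine abs_le_of_sq_le_sq' ?_ (by have := h3 J; positivity) |>.2
    nlinarith [h3 J, sq_nonneg (eta J)]
  have hc : CauchySeq G := by
    refine cauchySeq_of_dist_le_of_summable (fun J => 2 * eta J) hd (h4.mul_left 2)
  obtain ⟨G0, hG0⟩ := cauchySeq_tendsto_of_complete hc
  have hG0L : L2 (G0 : T → ℂ) := Lp.memLp G0
  have hmeas : Measurable (G0 : T → ℂ) := (Lp.stronglyMeasurable G0).measurable
  -- a.e. convergent subsequence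
  have htm : TendstoInMeasure volume (fun J => (G J : T → ℂ)) atTop (G0 : T → ℂ) :=
    tendstoInMeasure_of_tendsto_Lp hG0
  obtain ⟨ns, hns, hae⟩ := htm.exists_seq_tendsto_ae
  have hGf : ∀ᵐ x, ∀ J, (G J : T → ℂ) x = f J x := by
    rw [ae_all_iff]
    intro J
    exact MemLp.coeFn_toLp (hL J)
  let F : T → ℂ := fun x => if x ∈ E ∧ ‖G0 x‖ ≤ A then G0 x else 0
  have hFm : Measurable F := by
    refine Measurable.ite ?_ hmeas measurable_const
    exact hEm.inter (measurableSet_le hmeas.norm measurable_const)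
  have hFae : F =ᵐ[volume] (G0 : T → ℂ) := by
    filter_upwards [hae, hGf] with x hx1 hx2
    have h1 : Tendsto (fun i => f (ns i) x) atTop (𝓝 (G0 x)) := by
      refine hx1.congr fun i => hx2 (ns i)
    have h2 : ‖G0 x‖ ≤ A := by
      refine le_of_tendsto h1.norm (Eventually.of_forall fun i => hA _ _)
    by_cases hxE : x ∈ E
    · simp [F, hxE, h2]
    · have h3 : G0 x = 0 := by
        have h4 : Tendsto (fun i => f (ns i) x) atTop (𝓝 0) := by
          refine tendsto_const_nhds.congr fun i => ?_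
          rw [hE _ x hxE]
        exact tendsto_nhds_unique h1 h4
      simp [F, hxE, h3]
  have hFB : BM F := by
    refine ⟨hFm, |A|, fun x => ?_⟩
    by_cases h : x ∈ E ∧ ‖G0 x‖ ≤ A
    · simp only [F, if_pos h]
      exact h.2.trans (le_abs_self _)
    · simp only [F, if_neg h, norm_zero]
      exact abs_nonneg _
  refine ⟨F, hFB, fun x hx => ?_, ?_⟩
  · simp [F, hx]
  · have h1 : Tendsto (fun J => dist (G J) G0 ^ 2) atTop (𝓝 0) := by
      have h2 := (tendsto_iff_dist_tendsto_zero.1 hG0).pow 2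
      simpa using h2
    refine h1.congr fun J => ?_
    have h2 : G0 = MemLp.toLp F hFB.L2 := by
      refine Lp.ext ?_
      exact hFae.symm.trans (MemLp.coeFn_toLp _).symm
    rw [h2]
    exact BLim_dist_sq (hL J) hFB.L2

theorem BLim_int {F : T → ℂ} {f : ℕ → T → ℂ} (hF : L2 F) (hf : ∀ J, L2 (f J))
    (h : Tendsto (fun J => ∫ x, ‖f J x - F x‖ ^ 2) atTop (𝓝 0)) {w : T → ℂ} (hw : L2 w) :
    Tendsto (fun J => ∫ x, f J x * w x) atTop (𝓝 (∫ x, F x * w x)) := by
  rw [tendsto_iff_norm_sub_tendsto_zero]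
  have h1 : Tendsto (fun J => Real.sqrt (∫ x, ‖f J x - F x‖ ^ 2) *
      Real.sqrt (∫ x, ‖w x‖ ^ 2)) atTop (𝓝 0) := by
    have h2 := (h.sqrt).mul_const (Real.sqrt (∫ x, ‖w x‖ ^ 2))
    simpa using h2
  refine squeeze_zero (fun J => norm_nonneg _) (fun J => ?_) h1
  have h3 : (∫ x, f J x * w x) - ∫ x, F x * w x = ∫ x, (f J x - F x) * w x := by
    rw [← integral_sub ((hf J).integrable_mul hw) (hF.integrable_mul hw)]
    congr 1; ext x; ring
  rw [h3]
  exact norm_integral_mul_le ((hf J).sub hF) hw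

/-- bounds for functionals pass to the limit -/
theorem BLim_tail {F : T → ℂ} {f : ℕ → T → ℂ} (hF : L2 F) (hf : ∀ J, L2 (f J))
    (h : Tendsto (fun J => ∫ x, ‖f J x - F x‖ ^ 2) atTop (𝓝 0)) {w : T → ℂ} (hw : L2 w)
    {eta : ℕ → ℝ} (h3 : ∀ J, 0 ≤ eta J) (h4 : Summable eta) {c : ℝ} (hc : 0 ≤ c)
    (h7 : ∀ J, ‖∫ x, (f (J + 1) x - f J x) * w x‖ ≤ eta J * c) (J : ℕ) :
    ‖∫ x, (F x - f J x) * w x‖ ≤ (∑' j, eta (j + J)) * c := by
  have hs : Summable fun j => eta (j + J) := (summable_nat_add_iff J).2 h4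
  have key : ∀ n, ‖∫ x, (f (J + n) x - f J x) * w x‖ ≤ (∑ j ∈ Finset.range n, eta (j + J)) * c := by
    intro n
    induction n with
    | zero => simp
    | succ n ih =>
      have e1 : ∫ x, (f (J + (n + 1)) x - f J x) * w x =
          (∫ x, (f (J + n + 1) x - f (J + n) x) * w x) + ∫ x, (f (J + n) x - f J x) * w x := by
        rw [← integral_add (((hf _).sub (hf _)).integrable_mul hw)
          (((hf _).sub (hf _)).integrable_mul hw)]
        congr 1; ext x
        rw [show J + (n + 1) = J + n + 1 by ring]; ring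
      rw [e1, Finset.sum_range_succ]
      refine (norm_add_le _ _).trans ?_
      have h1 := h7 (J + n)
      rw [show J + n = n + J by ring] at h1 ⊢
      rw [show J + n = n + J by ring] at ih
      linarith
  have hlim : Tendsto (fun n => ‖∫ x, (f (J + n) x - f J x) * w x‖) atTop
      (𝓝 ‖∫ x, (F x - f J x) * w x‖) := by
    have h1 : Tendsto (fun n => ∫ x, f (J + n) x * w x) atTop (𝓝 (∫ x, F x * w x)) := by
      have := BLim_int hF hf h hw
      refine (this.comp (tendsto_add_atTop_nat J)).congr fun n => ?_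
      simp only [Function.comp]
      rw [add_comm n J]
    have h2 := (h1.sub_const (∫ x, f J x * w x)).norm
    have e1 : ∀ g : T → ℂ, L2 g → (∫ x, g x * w x) - (∫ x, f J x * w x) =
        ∫ x, (g x - f J x) * w x := by
      intro g hg
      rw [← integral_sub (hg.integrable_mul hw) ((hf J).integrable_mul hw)]
      congr 1; ext x; ring
    rw [e1 F hF] at h2
    refine h2.congr fun n => ?_
    rw [e1 _ (hf _)]
  refine le_of_tendsto hlim (Eventually.of_forall fun n => (key n).trans ?_)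
  refine mul_le_mul_of_nonneg_right ?_ hc
  exact hs.sum_le_tsum _ (fun j _ => h3 _)

theorem Lim_lemma {E : Set T} (hEm : MeasurableSet E) (f : ℕ → T → ℂ) (M : ℕ → ℕ) (A : ℝ)
    (ep eta : ℕ → ℝ) (hf : ∀ J, BM (f J)) (hA : ∀ J x, ‖f J x‖ ≤ A)
    (hE : ∀ J x, x ∉ E → f J x = 0) (hi : ∀ J, ‖∫ x, f J x - 1‖ ≤ 1 / 4)
    (h1 : ∀ J, 0 ≤ ep J) (h2 : Tendsto ep atTop (𝓝 0)) (h3 : ∀ J, 0 ≤ eta J) (h4 : Summable eta)
    (h5 : ∀ J, NB (fun x => f J x - sM (M J) (f J) x) (ep J))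
    (h6 : ∀ J, DB (fun x => f J x - sM (M J) (f J) x) (ep J))
    (h7 : ∀ J, NB (fun x => f (J + 1) x - f J x) (eta J))
    (h8 : ∀ J, DB (fun x => f (J + 1) x - f J x) (eta J)) :
    ∃ F : T → ℂ, BM F ∧ (∀ x, x ∉ E → F x = 0) ∧ ¬ (F =ᵐ[volume] fun _ => 0) ∧
      ∀ ε : ℝ, 0 < ε → ∃ M : ℕ, NB (fun x => F x - sM M F x) ε ∧ DB (fun x => F x - sM M F x) ε := by
  have hL : ∀ J, L2 (f J) := fun J => (hf J).L2
  have h9 : ∀ J, ∫ x, ‖f (J + 1) x - f J x‖ ^ 2 ≤ 2 * eta J ^ 2 := by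
    intro J
    have := L2_le_NB_DB ((hL (J + 1)).sub (hL J)) (h3 J) (h3 J) (h7 J) (h8 J)
    linarith
  obtain ⟨F, hFB, hFE, hFt⟩ := BLim_limit hEm f A eta hf hA hE h3 h4 h9
  have hFL := hFB.L2
  let s : ℕ → ℝ := fun J => ∑' j, eta (j + J)
  have hs0 : ∀ J, 0 ≤ s J := fun J => tsum_nonneg fun j => h3 _
  have hst : Tendsto s atTop (𝓝 0) := tendsto_sum_nat_add eta
  have hNB : ∀ J, NB (fun x => F x - f J x) (s J) := by
    intro J m g hg
    have hw : L2 (fun x => conj (e (m : ℤ) x * Pp g x)) := (L2_e_mul (Pp_L2 g) m).conj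
    exact BLim_tail hFL hL hFt hw h3 h4 (integral_nonneg fun x => norm_nonneg _)
      (fun J => h7 J m g hg) J
  have hDB : ∀ J, DB (fun x => F x - f J x) (s J) := by
    intro J b hb
    exact BLim_tail hFL hL hFt hb.1 h3 h4 (integral_nonneg fun x => norm_nonneg _)
      (fun J => h8 J b hb) J
  refine ⟨F, hFB, hFE, ?_, ?_⟩
  · intro h0
    have e1 : ∫ x, F x = 0 := by
      rw [integral_congr_ae h0]; simp
    have h1L : L2 (fun _ : T => (1 : ℂ)) := memLp_const 1
    have t1 := BLim_int hFL hL hFt h1L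
    simp only [mul_one] at t1
    rw [e1] at t1
    have t2 : ∀ J, ‖(∫ x, f J x) - 1‖ ≤ 1 / 4 := by
      intro J
      have := hi J
      have e2 : ∫ x, f J x - 1 = (∫ x, f J x) - 1 := by
        rw [integral_sub (hL J).integrable (integrable_const _)]; simp
      rwa [e2] at this
    have t3 : ‖(0 : ℂ) - 1‖ ≤ 1 / 4 :=
      le_of_tendsto (t1.sub_const 1).norm (Eventually.of_forall t2)
    norm_num at t3
  · intro ε hε
    have hev : ∀ᶠ J in atTop, s J + (ep J + s J) < ε := by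
      have : Tendsto (fun J => s J + (ep J + s J)) atTop (𝓝 0) := by
        simpa using hst.add (h2.add hst)
      exact this.eventually (gt_mem_nhds hε)
    obtain ⟨J, hJ⟩ := hev.exists
    have hdec : (fun x => F x - sM (M J) F x) = fun x => (F x - f J x) +
        ((f J x - sM (M J) (f J) x) + - sM (M J) (fun x => F x - f J x) x) := by
      rw [sM_sub (M J) hFL.integrable (hL J).integrable]
      ext x; ring
    have hsub : L2 (fun x => F x - f J x) := hFL.sub (hL J)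
    have hl2 : L2 (fun x => f J x - sM (M J) (f J) x) := (hL J).sub (sM_BM (M J) (f J)).L2
    have hl3 : L2 (fun x => - sM (M J) (fun x => F x - f J x) x) :=
      (sM_BM (M J) (fun x => F x - f J x)).L2.neg
    refine ⟨M J, ?_, ?_⟩
    · rw [hdec]
      refine NB_mono ?_ hJ.le
      exact NB_add hsub (hl2.add hl3) (hNB J)
        (NB_add hl2 hl3 (h5 J) (NB_neg (NB_sM (M J) hsub (hs0 J) (hNB J))))
    · rw [hdec]
      refine DB_mono ?_ hJ.le
      exact DB_add hsub (hl2.add hl3) (hDB J)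
        (DB_add hl2 hl3 (h6 J) (DB_neg (DB_sM (M J) hsub (hs0 J) (hDB J))))

end CH.B
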