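import Mathlib

/-! # CH-BMM1: minimax for a convex set of linear constraints in a real Hilbert space (B7)
Proof: `K` is weakly compact (Banach-Alaoglu through the Riesz isomorphism) and Sion's lemma gives
a single violated constraint. -/

open Filter Topology

namespace CH.B

theorem minimaxH {H : Type*} [NormedAddCommGroup H] [InnerProductSpace ℝ H] [CompleteSpace H]
    {K : Set H} (hKc : Convex ℝ K) (hKcl : IsClosed K) (hKb : Bornology.IsBounded K)
    (hKn : K.Nonempty) {CC : Set (H × ℝ)} (hCC : Convex ℝ CC)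
    (hsat : ∀ p ∈ CC, ∃ y ∈ K, inner ℝ p.1 y ≤ p.2) :
    ∃ y ∈ K, ∀ p ∈ CC, inner ℝ p.1 y ≤ p.2 := by
  classical
  let φ : H →ₗ[ℝ] WeakDual ℝ H :=
    (StrongDual.toWeakDual (𝕜 := ℝ) (E := H)).toLinearMap ∘ₗ
      (InnerProductSpace.toDual ℝ H).toLinearEquiv.toLinearMap
  have hφa : ∀ y w : H, φ y w = inner ℝ w y := fun y w => by
    change (InnerProductSpace.toDual ℝ H y) w = _
    rw [InnerProductSpace.toDual_apply_apply, real_inner_comm]
  have hφs : Function.Surjective φ := fun ξ =>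
    ⟨(InnerProductSpace.toDual ℝ H).symm (WeakDual.toStrongDual ξ), by
      change StrongDual.toWeakDual ((InnerProductSpace.toDual ℝ H)
        ((InnerProductSpace.toDual ℝ H).symm (WeakDual.toStrongDual ξ))) = ξ
      rw [LinearIsometryEquiv.apply_symm_apply]
      rfl⟩
  have hev : ∀ w : H, Continuous fun ξ : WeakDual ℝ H => ξ w := fun w =>
    WeakDual.eval_continuous w
  have hXc : Convex ℝ (φ '' K) := hKc.linear_image φ
  have hXn : (φ '' K).Nonempty := hKn.image _
  have hXcl : IsClosed (φ '' K) := by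
    apply isClosed_of_closure_subset
    intro ξ hξ
    obtain ⟨y, rfl⟩ := hφs ξ
    by_contra hy
    have hyK : y ∉ K := fun h => hy ⟨y, h, rfl⟩
    obtain ⟨f, u, hfu, huf⟩ := geometric_hahn_banach_closed_point hKc hKcl hyK
    have hf : ∀ z, f z = inner ℝ ((InnerProductSpace.toDual ℝ H).symm f) z := fun z => by
      rw [InnerProductSpace.toDual_symm_apply]
    have hsub : closure (φ '' K) ⊆
        {ξ : WeakDual ℝ H | ξ ((InnerProductSpace.toDual ℝ H).symm f) ≤ u} := by
      apply closure_minimal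
      · rintro _ ⟨z, hz, rfl⟩
        change φ z _ ≤ u
        rw [hφa, ← hf]
        exact (hfu z hz).le
      · exact isClosed_le (hev _) continuous_const
    have h1 := hsub hξ
    change φ y _ ≤ u at h1
    rw [hφa, ← hf] at h1
    linarith
  have hXb : Bornology.IsBounded (φ '' K) := by
    rw [← WeakDual.isBounded_toWeakDual_preimage_iff_isBounded]
    obtain ⟨R, hR⟩ := hKb.exists_norm_le
    rw [isBounded_iff_forall_norm_le]
    refine ⟨R, ?_⟩
    rintro f ⟨z, hz, hzf⟩
    have h1 : f = InnerProductSpace.toDual ℝ H z := by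
      apply StrongDual.toWeakDual.injective
      exact hzf.symm
    rw [h1, LinearIsometryEquiv.norm_map]
    exact hR z hz
  have hXk : IsCompact (φ '' K) := WeakDual.isCompact_of_bounded_of_closed hXb hXcl
  by_contra hcon
  push Not at hcon
  let f : WeakDual ℝ H → (H × ℝ) → ℝ := fun ξ p => ξ p.1 - p.2
  have hfy : ∀ p ∈ CC, LowerSemicontinuousOn (fun ξ => f ξ p) (φ '' K) := fun p _ =>
    ((hev p.1).sub continuous_const).lowerSemicontinuous.lowerSemicontinuousOn _
  have hfy' : ∀ p ∈ CC, QuasiconvexOn ℝ (φ '' K) (fun ξ => f ξ p) := by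
    intro p _
    apply ConvexOn.quasiconvexOn
    refine ⟨hXc, ?_⟩
    intro a _ b _ s t _ _ hst
    have h1 : (s • a + t • b) p.1 = s * a p.1 + t * b p.1 := rfl
    change (s • a + t • b) p.1 - p.2 ≤ s • (a p.1 - p.2) + t • (b p.1 - p.2)
    rw [h1]
    simp only [smul_eq_mul]
    have : p.2 = s * p.2 + t * p.2 := by rw [← add_mul, hst, one_mul]
    linarith
  have hfx : ∀ ξ ∈ φ '' K, UpperSemicontinuousOn (fun p => f ξ p) CC := by
    intro ξ _
    apply Continuous.continuousOn _ |>.upperSemicontinuousOn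
    change Continuous fun p : H × ℝ => ξ p.1 - p.2
    have h1 : Continuous fun w : H => ξ w := (WeakDual.toStrongDual ξ).continuous
    exact (h1.comp continuous_fst).sub continuous_snd
  have hfx' : ∀ ξ ∈ φ '' K, QuasiconcaveOn ℝ CC (fun p => f ξ p) := by
    intro ξ _
    apply ConcaveOn.quasiconcaveOn
    refine ⟨hCC, ?_⟩
    intro a _ b _ s t _ _ _
    change s • (ξ a.1 - a.2) + t • (ξ b.1 - b.2) ≤ ξ (s • a + t • b).1 - (s • a + t • b).2
    have h1 : ξ (s • a + t • b).1 = s * ξ a.1 + t * ξ b.1 := by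
      simp
    rw [h1]
    simp only [smul_eq_mul, Prod.snd_add, Prod.smul_snd]
    linarith
  have hfin : ∃ S : Finset CC, ∀ x ∈ φ '' K, ∃ i ∈ S, (0 : ℝ) < f x i := by
    rw [← LowerSemicontinuousOn.inter_biInter_preimage_Iic_eq_empty_iff_exists_finset hXk hfy]
    apply Set.eq_empty_of_forall_notMem
    rintro x ⟨hx, hx'⟩
    simp only [Set.mem_iInter, Set.mem_preimage, Set.mem_Iic] at hx'
    obtain ⟨y, hy, rfl⟩ := hx
    obtain ⟨p, hp, hlt⟩ := hcon y hy
    have h1 := hx' p hp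
    change φ y p.1 - p.2 ≤ 0 at h1
    rw [hφa] at h1
    linarith
  obtain ⟨S, hS⟩ := hfin
  have hS' : ∀ x ∈ φ '' K, ∃ p ∈ Subtype.val '' (S : Set CC), (0 : ℝ) < f x p := by
    intro x hx
    obtain ⟨i, hi, hi'⟩ := hS x hx
    exact ⟨i, ⟨i, hi, rfl⟩, hi'⟩
  obtain ⟨p, hp, hp'⟩ := Sion.exists_lt_iInf_of_lt_iInf_of_finite (t := (0 : ℝ))
    hXn hXk hfy hfy' hCC hfx hfx' hXc (Set.toFinite _)
    (Subtype.coe_image_subset CC (S : Set CC)) hS'
  obtain ⟨y, hy, hle⟩ := hsat p hp
  have h1 := hp' (φ y) ⟨y, hy, rfl⟩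
  change 0 < φ y p.1 - p.2 at h1
  rw [hφa] at h1
  linarith

end CH.B
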