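import Pool.Agent.CH.BSem

/-! # CH-BUnif: uniform convergence of the Taylor series (B8) -/

open MeasureTheory Complex Filter Topology
open scoped ComplexConjugate

namespace CH.B

/-- partial sums of the Taylor series on the circle -/
noncomputable def SS (n : ℕ) (w : T → ℂ) (x : T) : ℂ := ∑ k ∈ Finset.range n, cf w k * e k x

private theorem BUnif_cont (n : ℕ) (w : T → ℂ) : Continuous (SS n w) := by
  unfold SS
  exact continuous_finsetSum _ fun k _ => continuous_const.mul (e_continuous k)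

private theorem BUnif_BM (n : ℕ) (w : T → ℂ) : BM (SS n w) := by
  refine ⟨(BUnif_cont n w).measurable, ∑ k ∈ Finset.range n, ‖cf w k‖, fun x => ?_⟩
  unfold SS
  refine (norm_sum_le _ _).trans (Finset.sum_le_sum fun k _ => ?_)
  rw [norm_mul, norm_e, mul_one]

private theorem BUnif_eint (n : ℤ) : Integrable (e n) :=
  (MemLp.integrable (by norm_num) (e_memLp n 2))

private theorem BUnif_cfSS (n : ℕ) (w : T → ℂ) (j : ℤ) :
    cf (SS n w) j = if 0 ≤ j ∧ j < n then cf w j else 0 := by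
  have h1 : cf (SS n w) j = ∑ k ∈ Finset.range n, cf w k * (if j = (k : ℤ) then 1 else 0) := by
    have h0 : SS n w = fun x => ∑ k ∈ Finset.range n, (fun k : ℕ => fun x => cf w k * e k x) k x := by
      funext x; rfl
    rw [h0, cf_sum]
    · refine Finset.sum_congr rfl fun k _ => ?_
      rw [cf_const_mul, cf_e]
    · intro k _
      exact (BUnif_eint k).const_mul _
  rw [h1]
  by_cases hj : 0 ≤ j ∧ j < n
  · rw [if_pos hj]
    obtain ⟨k, rfl⟩ := Int.eq_ofNat_of_zero_le hj.1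
    have hk : k < n := by exact_mod_cast hj.2
    rw [Finset.sum_eq_single k]
    · simp
    · intro b _ hb
      have : ¬ ((k : ℤ) = (b : ℤ)) := by
        intro h; exact hb (by exact_mod_cast h.symm)
      simp [this]
    · intro h; exact absurd (Finset.mem_range.2 hk) h
  · rw [if_neg hj]
    refine Finset.sum_eq_zero fun k hk => ?_
    rw [Finset.mem_range] at hk
    have : ¬ (j = (k : ℤ)) := by
      rintro rfl
      exact hj ⟨by positivity, by exact_mod_cast hk⟩
    simp [this]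

private theorem BUnif_adj (n : ℕ) {w g : T → ℂ} (hw : L2 w) (hg : L2 g) :
    ∫ x, SS n w x * conj (g x) = ∫ x, w x * conj (SS n g x) := by
  have h1 := parseval (BUnif_BM n w).L2 hg
  have h2 := parseval hw (BUnif_BM n g).L2
  refine h1.unique ?_
  convert h2 using 2 with j
  rw [BUnif_cfSS, BUnif_cfSS]
  split_ifs <;> simp

private theorem BUnif_split (n : ℕ) {g : T → ℂ} (hg : L2 g) :
    SS n g =ᵐ[volume] fun x => e (0 : ℕ) x * Pp g x - e (n : ℕ) x * Pp (fun y => e (-(n : ℤ)) y * g y) x := by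
  have h1 : L2 (fun x => e ((0 : ℕ) : ℤ) x * Pp g x) := L2_e_mul (Pp_L2 g) _
  have hg' : L2 (fun y => e (-(n : ℤ)) y * g y) := L2_e_mul hg _
  have h2 : L2 (fun x => e ((n : ℕ) : ℤ) x * Pp (fun y => e (-(n : ℤ)) y * g y) x) :=
    L2_e_mul (Pp_L2 _) _
  refine ext_cf (BUnif_BM n g).L2 (h1.sub h2) fun j => ?_
  rw [BUnif_cfSS, cf_sub h1.integrable h2.integrable, cf_e_mul, cf_e_mul, cf_Pp hg, cf_Pp hg',
    cf_e_mul]
  have e1 : j - ((0 : ℕ) : ℤ) = j := by simp
  have e2 : j - (n : ℤ) - -(n : ℤ) = j := by ring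
  rw [e1, e2]
  by_cases h0 : 0 ≤ j
  · by_cases hn : j < n
    · rw [if_pos ⟨h0, hn⟩, if_pos h0, if_neg (by omega)]; ring
    · rw [if_neg (fun h => hn h.2), if_pos h0, if_pos (by omega)]; ring
  · rw [if_neg (fun h => h0 h.1), if_neg h0, if_neg (by omega)]; ring

private theorem BUnif_test {w : T → ℂ} (hw : L2 w) {c : ℝ} (h : NB w c) (n : ℕ)
    {g : T → ℂ} (hg : BM g) : ‖∫ x, SS n w x * conj (g x)‖ ≤ 2 * c * ∫ x, ‖g x‖ := by
  have hg' : BM (fun y => e (-(n : ℤ)) y * g y) := by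
    obtain ⟨hm, B, hB⟩ := hg
    refine ⟨(e_measurable _).mul hm, B, fun x => ?_⟩
    rw [norm_mul, norm_e, one_mul]; exact hB x
  have h1 : L2 (fun x => e ((0 : ℕ) : ℤ) x * Pp g x) := L2_e_mul (Pp_L2 g) _
  have h2 : L2 (fun x => e ((n : ℕ) : ℤ) x * Pp (fun y => e (-(n : ℤ)) y * g y) x) :=
    L2_e_mul (Pp_L2 _) _
  rw [BUnif_adj n hw hg.L2]
  have e1 : ∫ x, w x * conj (SS n g x) = (∫ x, w x * conj (e (0 : ℕ) x * Pp g x))
      - ∫ x, w x * conj (e (n : ℕ) x * Pp (fun y => e (-(n : ℤ)) y * g y) x) := by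
    rw [← integral_sub (hw.integrable_mul_conj h1) (hw.integrable_mul_conj h2)]
    refine integral_congr_ae ?_
    filter_upwards [BUnif_split n hg.L2] with x hx
    rw [hx, map_sub]; ring
  rw [e1]
  refine (norm_sub_le _ _).trans ?_
  have a1 := h 0 g hg
  have a2 := h n _ hg'
  have e3 : ∫ x, ‖e (-(n : ℤ)) x * g x‖ = ∫ x, ‖g x‖ := by
    congr 1; ext x; rw [norm_mul, norm_e, one_mul]
  rw [e3] at a2
  linarith

theorem SS_le {w : T → ℂ} (hw : L2 w) {c : ℝ} (hc : 0 ≤ c) (h : NB w c) (n : ℕ) (x : T) :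
    ‖SS n w x‖ ≤ 2 * c := by
  classical
  set F := SS n w with hF
  have hFc : Continuous F := BUnif_cont n w
  have hFB : BM F := BUnif_BM n w
  set U : Set T := {y | 2 * c < ‖F y‖} with hU
  have hUo : IsOpen U := isOpen_lt continuous_const hFc.norm
  set g : T → ℂ := U.indicator F with hg
  have hgB : BM g := by
    obtain ⟨hm, B, hB⟩ := hFB
    refine ⟨hm.indicator hUo.measurableSet, B, fun y => ?_⟩
    rw [hg, Set.indicator_apply]
    split_ifs with hy
    · exact hB y
    · rw [norm_zero]; exact (norm_nonneg _).trans (hB y)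
  have h1 := BUnif_test hw h n hgB
  -- the integral of F conj g is real
  have e1 : ∫ y, F y * conj (g y) = ((∫ y, ‖F y‖ * ‖g y‖ : ℝ) : ℂ) := by
    rw [← integral_complex_ofReal]
    congr 1; ext y
    rw [hg, Set.indicator_apply]
    split_ifs with hy
    · rw [Complex.mul_conj, Complex.normSq_eq_norm_sq]; push_cast; ring
    · simp
  have hi1 : Integrable (fun y => ‖F y‖ * ‖g y‖) := by
    have := (hFB.L2.norm).integrable_mul (hgB.L2.norm)
    exact this
  have hi2 : Integrable (fun y => ‖g y‖) := hgB.L2.integrable.norm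
  rw [← hF, e1, Complex.norm_real, Real.norm_eq_abs] at h1
  have h2 : ∫ y, (‖F y‖ - 2 * c) * ‖g y‖ ≤ 0 := by
    have e2 : ∫ y, (‖F y‖ - 2 * c) * ‖g y‖ = (∫ y, ‖F y‖ * ‖g y‖) - 2 * c * ∫ y, ‖g y‖ := by
      rw [← integral_const_mul, ← integral_sub hi1 (hi2.const_mul _)]
      congr 1; ext y; ring
    rw [e2]
    have := (le_abs_self _).trans h1
    linarith
  have hnn : 0 ≤ fun y => (‖F y‖ - 2 * c) * ‖g y‖ := by
    intro y
    show 0 ≤ (‖F y‖ - 2 * c) * ‖g y‖
    rw [hg, Set.indicator_apply]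
    split_ifs with hy
    · have : 2 * c < ‖F y‖ := hy
      exact mul_nonneg (by linarith) (norm_nonneg _)
    · simp
  have hi3 : Integrable (fun y => (‖F y‖ - 2 * c) * ‖g y‖) := by
    have := hi1.sub (hi2.const_mul (2 * c))
    refine this.congr (ae_of_all _ fun y => ?_)
    simp only [Pi.sub_apply]; ring
  have h3 : ∫ y, (‖F y‖ - 2 * c) * ‖g y‖ = 0 := le_antisymm h2 (integral_nonneg hnn)
  have h4 := (integral_eq_zero_iff_of_nonneg hnn hi3).1 h3
  have h5 : volume U = 0 := by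
    have hsub : U ⊆ {y | ¬ ((‖F y‖ - 2 * c) * ‖g y‖ = 0)} := by
      intro y hy
      have hy' : 2 * c < ‖F y‖ := hy
      have hgy : g y = F y := by rw [hg, Set.indicator_of_mem hy]
      show ¬ ((‖F y‖ - 2 * c) * ‖g y‖ = 0)
      rw [hgy]
      have : 0 < ‖F y‖ := by linarith
      have h6 : 0 < (‖F y‖ - 2 * c) * ‖F y‖ := mul_pos (by linarith) this
      exact h6.ne'
    exact measure_mono_null hsub (ae_iff.1 h4)
  have h6 : U = ∅ := (hUo.measure_eq_zero_iff volume).1 h5
  by_contra hx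
  push Not at hx
  have : x ∈ U := hx
  rw [h6] at this
  exact this

private theorem BUnif_diff {f : T → ℂ} (hf : BM f) {M : ℕ} {ε : ℝ} (hε : 0 ≤ ε)
    (h : NB (fun x => f x - sM M f x) ε) {n n' : ℕ} (hn : M < n) (hn' : M < n') (x : T) :
    ‖SS n f x - SS n' f x‖ ≤ 4 * ε := by
  have hw : L2 (fun x => f x - sM M f x) := hf.L2.sub (sM_BM M f).L2
  have key : ∀ N : ℕ, M < N → SS N f x = SS N (fun x => f x - sM M f x) x + SS (M + 1) (sM M f) x := by
    intro N hN
    have e1 : SS N (sM M f) x = SS (M + 1) (sM M f) x := by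
      unfold SS
      symm
      apply Finset.sum_subset
      · intro k hk
        rw [Finset.mem_range] at hk ⊢
        omega
      · intro k _ hk
        rw [Finset.mem_range, not_lt] at hk
        rw [cf_sM, if_neg, zero_mul]
        rw [Int.abs_eq_natAbs, Int.natAbs_natCast]
        omega
    rw [← e1]
    unfold SS
    rw [← Finset.sum_add_distrib]
    refine Finset.sum_congr rfl fun k _ => ?_
    rw [cf_sub hf.L2.integrable (sM_BM M f).L2.integrable]
    ring
  rw [key n hn, key n' hn']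
  have h1 := SS_le hw hε h n x
  have h2 := SS_le hw hε h n' x
  have e2 : SS n (fun x => f x - sM M f x) x + SS (M + 1) (sM M f) x -
      (SS n' (fun x => f x - sM M f x) x + SS (M + 1) (sM M f) x) =
      SS n (fun x => f x - sM M f x) x - SS n' (fun x => f x - sM M f x) x := by ring
  rw [e2]
  refine (norm_sub_le _ _).trans ?_
  linarith

private theorem BUnif_epow (k : ℕ) (x : T) : e k x = (e 1 x) ^ k := by
  induction k with
  | zero => simp
  | succ k ih => rw [pow_succ, ← ih, ← e_add]; norm_num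

private theorem BUnif_surj (z : ℂ) (hz : ‖z‖ = 1) : ∃ x : T, e 1 x = z := by
  refine ⟨((Complex.arg z / (2 * Real.pi) : ℝ) : T), ?_⟩
  rw [e_coe]
  have h1 : (2 * (Real.pi : ℂ) * I * ((1 : ℤ) : ℂ) * ((Complex.arg z / (2 * Real.pi) : ℝ) : ℂ)) =
      (Complex.arg z : ℂ) * I := by
    push_cast
    have : (Real.pi : ℂ) ≠ 0 := by exact_mod_cast Real.pi_ne_zero
    field_simp
  rw [h1]
  have h2 := Complex.norm_mul_exp_arg_mul_I z
  rw [hz] at h2
  simpa using h2

private noncomputable def BUnif_p (f : T → ℂ) (n : ℕ) (z : ℂ) : ℂ :=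
  ∑ k ∈ Finset.range n, cf f k * z ^ k

private theorem BUnif_pe (f : T → ℂ) (n : ℕ) (x : T) : BUnif_p f n (e 1 x) = SS n f x := by
  unfold BUnif_p SS
  refine Finset.sum_congr rfl fun k _ => ?_
  rw [BUnif_epow]

private theorem BUnif_max {f : T → ℂ} {n n' : ℕ} {c : ℝ}
    (h : ∀ x, ‖SS n f x - SS n' f x‖ ≤ c) {z : ℂ} (hz : z ∈ Metric.closedBall (0 : ℂ) 1) :
    ‖BUnif_p f n z - BUnif_p f n' z‖ ≤ c := by
  have hd : Differentiable ℂ (fun z => BUnif_p f n z - BUnif_p f n' z) := by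
    unfold BUnif_p
    fun_prop
  have hz' : z ∈ closure (Metric.ball (0 : ℂ) 1) := by
    rw [closure_ball (0 : ℂ) one_ne_zero]; exact hz
  refine Complex.norm_le_of_forall_mem_frontier_norm_le (f := fun z => BUnif_p f n z - BUnif_p f n' z)
    (U := Metric.ball (0 : ℂ) 1) Metric.isBounded_ball hd.diffContOnCl ?_ hz'
  intro y hy
  rw [frontier_ball (0 : ℂ) one_ne_zero] at hy
  have hy1 : ‖y‖ = 1 := by simpa using hy
  obtain ⟨x, rfl⟩ := BUnif_surj y hy1
  show ‖BUnif_p f n (e 1 x) - BUnif_p f n' (e 1 x)‖ ≤ c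
  rw [BUnif_pe, BUnif_pe]
  exact h x

theorem unif {f : T → ℂ} (hf : BM f)
    (h : ∀ ε : ℝ, 0 < ε → ∃ M : ℕ, NB (fun x => f x - sM M f x) ε) :
    ∃ F : ℂ → ℂ, TendstoUniformlyOn (fun (n : ℕ) (z : ℂ) => ∑ k ∈ Finset.range n, cf f k * z ^ k)
      F atTop (Metric.closedBall 0 1) := by
  have hC : UniformCauchySeqOn (fun (n : ℕ) (z : ℂ) => ∑ k ∈ Finset.range n, cf f k * z ^ k)
      atTop (Metric.closedBall 0 1) := by
    rw [Metric.uniformCauchySeqOn_iff]
    intro ε hε
    obtain ⟨M, hM⟩ := h (ε / 8) (by positivity)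
    refine ⟨M + 1, fun m hm n hn z hz => ?_⟩
    rw [dist_eq_norm]
    have := BUnif_max (f := f) (n := m) (n' := n) (c := 4 * (ε / 8))
      (fun x => BUnif_diff hf (by positivity) hM (by omega) (by omega) x) hz
    unfold BUnif_p at this
    refine lt_of_le_of_lt this (by linarith)
  have hex : ∀ z : ℂ, ∃ y : ℂ, z ∈ Metric.closedBall (0 : ℂ) 1 →
      Tendsto (fun n : ℕ => ∑ k ∈ Finset.range n, cf f k * z ^ k) atTop (𝓝 y) := by
    intro z
    by_cases hz : z ∈ Metric.closedBall (0 : ℂ) 1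
    · have hcs : CauchySeq (fun n : ℕ => ∑ k ∈ Finset.range n, cf f k * z ^ k) :=
        hC.cauchySeq hz
      obtain ⟨y, hy⟩ := cauchySeq_tendsto_of_complete hcs
      exact ⟨y, fun _ => hy⟩
    · exact ⟨0, fun h => absurd h hz⟩
  choose F hF using hex
  exact ⟨F, hC.tendstoUniformlyOn_of_tendsto hF⟩

theorem Pp_cont {f : T → ℂ} (hf : BM f)
    (h : ∀ ε : ℝ, 0 < ε → ∃ M : ℕ, NB (fun x => f x - sM M f x) ε) :
    ∃ G : T → ℂ, Continuous G ∧ Pp f =ᵐ[volume] G := by
  obtain ⟨F, hF⟩ := unif hf h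
  have hmem : ∀ x : T, e 1 x ∈ Metric.closedBall (0 : ℂ) 1 := by
    intro x
    rw [mem_closedBall_zero_iff, norm_e]
  have hU : TendstoUniformly (fun (n : ℕ) (x : T) => SS n f x) (fun x => F (e 1 x)) atTop := by
    rw [Metric.tendstoUniformly_iff]
    rw [Metric.tendstoUniformlyOn_iff] at hF
    intro ε hε
    filter_upwards [hF ε hε] with n hn x
    have := hn (e 1 x) (hmem x)
    rw [← BUnif_pe]
    exact this
  have hG : Continuous (fun x : T => F (e 1 x)) :=
    hU.continuous (Eventually.frequently (Eventually.of_forall fun n => BUnif_cont n f))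
  have hGL : L2 (fun x : T => F (e 1 x)) := by
    obtain ⟨B, hB⟩ := (isCompact_range hG).isBounded.exists_norm_le
    exact MemLp.of_bound hG.aestronglyMeasurable B (ae_of_all _ fun x => hB _ ⟨x, rfl⟩)
  refine ⟨_, hG, ext_cf (Pp_L2 f) hGL fun j => ?_⟩
  rw [cf_Pp hf.L2]
  -- coefficients of the limit
  have hlim : Tendsto (fun n : ℕ => cf (SS n f) j) atTop (𝓝 (cf (fun x : T => F (e 1 x)) j)) := by
    rw [Metric.tendsto_atTop]
    intro ε hε
    rw [Metric.tendstoUniformly_iff] at hU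
    obtain ⟨N, hN⟩ := eventually_atTop.1 (hU (ε / 2) (by positivity))
    refine ⟨N, fun n hn => ?_⟩
    rw [dist_comm, dist_eq_norm, ← cf_sub hGL.integrable (BUnif_BM n f).L2.integrable]
    have h1 := norm_cf_le (f := fun x => F (e 1 x) - SS n f x) j
    have h2 : ∫ x : T, ‖F (e 1 x) - SS n f x‖ ≤ ∫ _ : T, (ε / 2) := by
      refine integral_mono (hGL.sub (BUnif_BM n f).L2).integrable.norm (integrable_const _) ?_
      intro x
      have := hN n hn x
      rw [dist_eq_norm] at this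
      exact this.le
    have h3 : ∫ _ : T, (ε / 2) = ε / 2 := by simp
    rw [h3] at h2
    have := h1.trans h2
    linarith
  have hev : Tendsto (fun n : ℕ => cf (SS n f) j) atTop (𝓝 (if 0 ≤ j then cf f j else 0)) := by
    refine Tendsto.congr' ?_ tendsto_const_nhds
    filter_upwards [eventually_gt_atTop j.toNat] with n hn
    rw [BUnif_cfSS]
    by_cases h0 : 0 ≤ j
    · rw [if_pos h0, if_pos ⟨h0, by omega⟩]
    · rw [if_neg h0, if_neg (fun h => h0 h.1)]
  exact tendsto_nhds_unique hev hlim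

end CH.B
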