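import Pool.Agent.CH.BVMO1
import Pool.Agent.CH.BUnif

/-! # CH-BVMO2: the function is in VMO (B8)
`mo f c r` = mean oscillation of `f` on `I = {x | ‖x - c‖ < r}`; the means are `(2r)^{-1} int_I` for `r <= 1/2` (`ball_vol_eq`).
`f = G + P_+`-part: `f = Pp f + (f - Pp f)`; `Pp f = G1` a.e. continuous (`Pp_cont`). For `ε`: `M` with `DB (f - sM M f) ε`, `w = f - sM M f`:
`f - Pp f = (sM M f - Pp (sM M f)) + (w - Pp w)` a.e.; `sM M f - Pp (sM M f)` is a.e. the trigonometric polynomial `sum_{-M <= j < 0}` (continuous). So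
`f = G + u` a.e., `G` continuous, `u = w - Pp w` has mean oscillation `<= C ε` (`osc_Pm`); `G` is uniformly continuous: oscillation `<= ε` on small balls;
mean oscillation is subadditive, and that of `G` on `I` is `<= 2 sup_{I} |G - G(c)|`. -/

open MeasureTheory Complex Filter Topology
open scoped ComplexConjugate

namespace CH.B

/-- vanishing mean oscillation -/
def VMO (f : T → ℂ) : Prop := ∀ ε : ℝ, 0 < ε → ∃ δ : ℝ, 0 < δ ∧ ∀ (c : T) (r : ℝ), 0 < r → r < δ →
  ⨍ x in Metric.ball c r, ‖f x - ⨍ y in Metric.ball c r, f y‖ < ε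

/-- the negative part of a trigonometric polynomial is continuous -/
private theorem BVMO2_neg (M : ℕ) (f : T → ℂ) :
    ∃ G : T → ℂ, Continuous G ∧ (fun x => sM M f x - Pp (sM M f) x) =ᵐ[volume] G := by
  have hsL : L2 (sM M f) := (sM_BM M f).L2
  refine ⟨fun x => ∑ j ∈ (Finset.Icc (-(M : ℤ)) M).filter (fun j => j < 0),
    (((1 - |(j : ℝ)| / (M + 1) : ℝ)) : ℂ) * cf f j * e j x, ?_, ?_⟩
  · exact continuous_finsetSum _ fun j _ => continuous_const.mul (e_continuous j)
  · have hGL : L2 (fun x => ∑ j ∈ (Finset.Icc (-(M : ℤ)) M).filter (fun j => j < 0),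
        (((1 - |(j : ℝ)| / (M + 1) : ℝ)) : ℂ) * cf f j * e j x) :=
      L2.sum _ fun j _ => L2.const_mul (e_memLp j 2) _
    refine ext_cf (hsL.sub (Pp_L2 _)) hGL fun n => ?_
    rw [cf_sub hsL.integrable (Pp_L2 _).integrable, cf_Pp hsL]
    have hs : sM M f = fun x => ∑ j ∈ Finset.Icc (-(M : ℤ)) M,
      (((1 - |(j : ℝ)| / (M + 1) : ℝ)) : ℂ) * cf f j * e j x := rfl
    have hI : ∀ j : ℤ, Integrable (fun x => (((1 - |(j : ℝ)| / (M + 1) : ℝ)) : ℂ) * cf f j * e j x) :=
      fun j => (L2.const_mul (e_memLp j 2) _).integrable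
    have e1 : cf (sM M f) n = ∑ j ∈ Finset.Icc (-(M : ℤ)) M,
        (((1 - |(j : ℝ)| / (M + 1) : ℝ)) : ℂ) * cf f j * (if n = j then 1 else 0) := by
      rw [hs, cf_sum _ _ (fun j _ => hI j)]
      refine Finset.sum_congr rfl fun j _ => ?_
      rw [cf_const_mul, cf_e]
    have e2 : cf (fun x => ∑ j ∈ (Finset.Icc (-(M : ℤ)) M).filter (fun j => j < 0),
        (((1 - |(j : ℝ)| / (M + 1) : ℝ)) : ℂ) * cf f j * e j x) n =
        ∑ j ∈ (Finset.Icc (-(M : ℤ)) M).filter (fun j => j < 0),
        (((1 - |(j : ℝ)| / (M + 1) : ℝ)) : ℂ) * cf f j * (if n = j then 1 else 0) := by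
      rw [cf_sum _ _ (fun j _ => hI j)]
      refine Finset.sum_congr rfl fun j _ => ?_
      rw [cf_const_mul, cf_e]
    rw [e2, Finset.sum_filter]
    by_cases hn : 0 ≤ n
    · rw [if_pos hn, sub_self]
      symm
      refine Finset.sum_eq_zero fun j _ => ?_
      split_ifs with h1 h2 <;> first | omega | simp
    · rw [if_neg hn, sub_zero, e1]
      refine Finset.sum_congr rfl fun j _ => ?_
      split_ifs with h1 h2 <;> first | omega | simp

/-- mean oscillation of a continuous function -/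
private theorem BVMO2_cont {G : T → ℂ} (hG : Continuous G) {c : T} {r η : ℝ} (hr : 0 < r)
    (hη : ∀ x ∈ Metric.ball c r, ‖G x - G c‖ ≤ η) :
    ⨍ x in Metric.ball c r, ‖G x - ⨍ y in Metric.ball c r, G y‖ ≤ 2 * η := by
  have hGL : L2 G := by
    obtain ⟨B, hB⟩ := (isCompact_range hG).isBounded.exists_norm_le
    exact MemLp.of_bound hG.aestronglyMeasurable B (ae_of_all _ fun x => hB _ ⟨x, rfl⟩)
  have hm : MeasurableSet (Metric.ball c r) := measurableSet_ball
  have hpos : 0 < volume.real (Metric.ball c r) := by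
    rw [measureReal_def, ENNReal.toReal_pos_iff]
    exact ⟨Metric.measure_ball_pos volume c hr, measure_lt_top _ _⟩
  have hav : ‖G c - ⨍ y in Metric.ball c r, G y‖ ≤ η := by
    have e1 : G c - ⨍ y in Metric.ball c r, G y =
        ((volume.real (Metric.ball c r))⁻¹ : ℝ) • ∫ y in Metric.ball c r, (G c - G y) := by
      rw [integral_sub (integrable_const _) hGL.integrable.integrableOn, setIntegral_const, smul_sub,
        smul_smul, inv_mul_cancel₀ hpos.ne', one_smul, setAverage_eq]
    rw [e1, norm_smul, norm_inv, Real.norm_of_nonneg hpos.le]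
    have h2 : ‖∫ y in Metric.ball c r, (G c - G y)‖ ≤ η * volume.real (Metric.ball c r) := by
      refine norm_setIntegral_le_of_norm_le_const (measure_lt_top _ _) ?_
      intro y hy
      rw [norm_sub_rev]
      exact hη y hy
    calc _ ≤ (volume.real (Metric.ball c r))⁻¹ * (η * volume.real (Metric.ball c r)) := by gcongr
      _ = η := by field_simp
  rw [setAverage_eq, smul_eq_mul]
  have h3 : ∫ x in Metric.ball c r, ‖G x - ⨍ y in Metric.ball c r, G y‖ ≤
      ∫ x in Metric.ball c r, (2 * η) := by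
    refine setIntegral_mono_on ?_ (integrable_const _) hm ?_
    · exact (hGL.integrable.sub (integrable_const _)).norm.integrableOn
    · intro x hx
      calc ‖G x - ⨍ y in Metric.ball c r, G y‖ = ‖(G x - G c) + (G c - ⨍ y in Metric.ball c r, G y)‖ := by
            congr 1; ring
        _ ≤ ‖G x - G c‖ + ‖G c - ⨍ y in Metric.ball c r, G y‖ := norm_add_le _ _
        _ ≤ 2 * η := by have := hη x hx; linarith
  rw [setIntegral_const, smul_eq_mul] at h3
  calc _ ≤ (volume.real (Metric.ball c r))⁻¹ * (volume.real (Metric.ball c r) * (2 * η)) := by gcongr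
    _ = 2 * η := by field_simp

theorem vmo {f : T → ℂ} (hf : BM f)
    (h : ∀ ε : ℝ, 0 < ε → ∃ M : ℕ, NB (fun x => f x - sM M f x) ε ∧
      DB (fun x => f x - sM M f x) ε) : VMO f := by
  intro ε hε
  obtain ⟨G1, hG1, hPG⟩ := Pp_cont hf fun ε hε => (h ε hε).imp fun M hM => hM.1
  obtain ⟨C, hC, hosc⟩ := osc_Pm
  obtain ⟨M, -, hD⟩ := h (ε / (2 * (C + 1))) (by positivity)
  obtain ⟨G2, hG2, hNG⟩ := BVMO2_neg M f
  have hfL := hf.L2
  have hsL : L2 (sM M f) := (sM_BM M f).L2
  set w : T → ℂ := fun x => f x - sM M f x with hw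
  have hwL : L2 w := hfL.sub hsL
  set u : T → ℂ := fun x => w x - Pp w x with hu
  have huL : L2 u := hwL.sub (Pp_L2 w)
  set G : T → ℂ := fun x => G1 x + G2 x with hGdef
  have hG : Continuous G := hG1.add hG2
  have hGL : L2 G := by
    obtain ⟨B, hB⟩ := (isCompact_range hG).isBounded.exists_norm_le
    exact MemLp.of_bound hG.aestronglyMeasurable B (ae_of_all _ fun x => hB _ ⟨x, rfl⟩)
  have hfG : f =ᵐ[volume] fun x => G x + u x := by
    filter_upwards [hPG, hNG, Pp_sub hfL hsL] with x h1 h2 h3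
    simp only [hGdef, hu, hw]
    rw [← h1, ← h2]
    have h3' : Pp (fun x => f x - sM M f x) x = Pp f x - Pp (sM M f) x := h3
    rw [h3']
    ring
  have huc : UniformContinuous G := CompactSpace.uniformContinuous_of_continuous hG
  obtain ⟨δ0, hδ0, hδG⟩ := Metric.uniformContinuous_iff.1 huc (ε / 8) (by positivity)
  refine ⟨min δ0 (1 / 2), by positivity, fun c r hr hrd => ?_⟩
  have hr0 : r < δ0 := hrd.trans_le (min_le_left _ _)
  have hr2 : r ≤ 1 / 2 := (hrd.trans_le (min_le_right _ _)).le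
  have hset : {x : T | ‖x - c‖ < r} = Metric.ball c r := by
    ext x; simp [Metric.mem_ball, dist_eq_norm]
  have hvol : volume.real (Metric.ball c r) = 2 * r := by
    rw [← hset]; exact ball_vol_eq c hr.le hr2
  have hm : MeasurableSet (Metric.ball c r) := measurableSet_ball
  -- oscillation of the continuous part
  have hoG : ⨍ x in Metric.ball c r, ‖G x - ⨍ y in Metric.ball c r, G y‖ ≤ 2 * (ε / 8) := by
    refine BVMO2_cont hG hr fun x hx => ?_
    have := hδG (a := x) (b := c) (lt_trans (Metric.mem_ball.1 hx) hr0)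
    rw [dist_eq_norm] at this
    exact this.le
  -- oscillation of u
  have hou : ⨍ x in Metric.ball c r, ‖u x - ⨍ y in Metric.ball c r, u y‖ ≤ ε / 2 := by
    have h1 := hosc w (ε / (2 * (C + 1))) hwL (by positivity) hD c r hr hr2
    rw [hset] at h1
    have e1 : ⨍ y in Metric.ball c r, u y = (2 * r : ℂ)⁻¹ * ∫ y in Metric.ball c r, (w y - Pp w y) := by
      rw [setAverage_eq, hvol, Complex.real_smul]
      push_cast
      rfl
    rw [e1, setAverage_eq, hvol, smul_eq_mul]
    have h2 : (2 * r)⁻¹ * ∫ x in Metric.ball c r,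
        ‖u x - (2 * r : ℂ)⁻¹ * ∫ y in Metric.ball c r, (w y - Pp w y)‖ ≤
        (2 * r)⁻¹ * (C * (ε / (2 * (C + 1))) * (2 * r)) :=
      mul_le_mul_of_nonneg_left h1 (by positivity)
    refine h2.trans ?_
    have h3 : (2 * r)⁻¹ * (C * (ε / (2 * (C + 1))) * (2 * r)) = C * (ε / (2 * (C + 1))) := by
      field_simp
    rw [h3]
    have h4 : C * (ε / (2 * (C + 1))) = (ε / 2) * (C / (C + 1)) := by
      field_simp
    rw [h4]
    have h5 : C / (C + 1) ≤ 1 := by
      rw [div_le_one (by positivity)]; linarith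
    calc (ε / 2) * (C / (C + 1)) ≤ (ε / 2) * 1 := by gcongr
      _ = ε / 2 := by ring
  -- combine
  have hfG' : ∀ᵐ x ∂(volume.restrict (Metric.ball c r)), f x = G x + u x := ae_restrict_of_ae hfG
  have hav : ⨍ y in Metric.ball c r, f y = (⨍ y in Metric.ball c r, G y) + ⨍ y in Metric.ball c r, u y := by
    rw [setAverage_eq, setAverage_eq, setAverage_eq, ← smul_add,
      ← integral_add hGL.integrable.integrableOn huL.integrable.integrableOn]
    congr 1
    exact integral_congr_ae hfG'
  have hle : ⨍ x in Metric.ball c r, ‖f x - ⨍ y in Metric.ball c r, f y‖ ≤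
      (⨍ x in Metric.ball c r, ‖G x - ⨍ y in Metric.ball c r, G y‖) +
      ⨍ x in Metric.ball c r, ‖u x - ⨍ y in Metric.ball c r, u y‖ := by
    have hIf : IntegrableOn (fun x => ‖f x - ⨍ y in Metric.ball c r, f y‖) (Metric.ball c r) :=
      (hfL.integrable.sub (integrable_const _)).norm.integrableOn
    have hIG : IntegrableOn (fun x => ‖G x - ⨍ y in Metric.ball c r, G y‖) (Metric.ball c r) :=
      (hGL.integrable.sub (integrable_const _)).norm.integrableOn
    have hIu : IntegrableOn (fun x => ‖u x - ⨍ y in Metric.ball c r, u y‖) (Metric.ball c r) :=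
      (huL.integrable.sub (integrable_const _)).norm.integrableOn
    rw [setAverage_eq volume (fun x => ‖f x - ⨍ y in Metric.ball c r, f y‖),
      setAverage_eq volume (fun x => ‖G x - ⨍ y in Metric.ball c r, G y‖),
      setAverage_eq volume (fun x => ‖u x - ⨍ y in Metric.ball c r, u y‖), ← smul_add,
      ← integral_add hIG hIu, smul_eq_mul, smul_eq_mul]
    refine mul_le_mul_of_nonneg_left ?_ (by positivity)
    refine integral_mono_ae hIf (hIG.add hIu) ?_
    filter_upwards [hfG'] with x hx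
    rw [hav, hx]
    have : G x + u x - ((⨍ y in Metric.ball c r, G y) + ⨍ y in Metric.ball c r, u y) =
      (G x - ⨍ y in Metric.ball c r, G y) + (u x - ⨍ y in Metric.ball c r, u y) := by ring
    rw [this]
    exact norm_add_le _ _
  linarith

end CH.B
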