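import Pool.Agent.CH.BSeq
import Pool.Agent.CH.BLim
import Pool.Agent.CH.BVMO2

/-! # CH-BMain: conclusion of Part B -/

open MeasureTheory Complex Filter Topology
open scoped ComplexConjugate

namespace CH.B

theorem mainB (C0 : ℝ) (hC : ThmC C0) {E : Set T} (hEm : MeasurableSet E) (hE : 0 < volume E) :
    ∃ f : T → ℂ, Measurable f ∧ (∃ A : ℝ, ∀ x, ‖f x‖ ≤ A) ∧ (∀ x, x ∉ E → f x = 0) ∧
      ¬ (f =ᵐ[volume] fun _ => 0) ∧ VMO f ∧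
      ∃ F : ℂ → ℂ, TendstoUniformlyOn
        (fun (n : ℕ) (z : ℂ) => ∑ k ∈ Finset.range n, fourierCoeff f k * z ^ k) F atTop
        (Metric.closedBall 0 1) := by
  obtain ⟨C1, hC1, hK⟩ := LemK C0 hC
  obtain ⟨f, M, A, ep, eta, h1, h2, h3, h4, h5, h6, h7, h8, h9, h10, h11, h12⟩ :=
    Seq_lemma hC1 hK hEm hE
  obtain ⟨F, hF, hFE, hF0, hFM⟩ := Lim_lemma hEm f M A ep eta h1 h2 h3 h4 h5 h6 h7 h8 h9 h10 h11 h12
  refine ⟨F, hF.1, hF.2, hFE, hF0, vmo hF hFM, ?_⟩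
  obtain ⟨G, hG⟩ := unif hF fun ε hε => (hFM ε hε).imp fun M h => h.1
  refine ⟨G, ?_⟩
  simpa only [cf_eq] using hG

end CH.B
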