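import Pool.Agent.CH.BStep
import Pool.Agent.CH.BBase

/-! # CH-BSeq: the sequence of approximations (B8, first part)
`f 0` from `Base_lemma`, `M 0 = 0`, `eps_0 = max (2c) (2A)` (`NB_add`, `NB_neg`, `NB_sM`, `DB_of_bdd`, `DB_sM`; enlarge `c` to be `>= 0`), recursively `Step_lemma` with
`eps' = (1/2)^(J+3)`; so `eps_{J+1} = (1/2)^(J+3)` and `eta_J = (C1+2) eps_J + (1/2)^(J+3)` is summable; `|int f_J - 1| <= sum (1/2)^(j+3) <= 1/4`.
(Recursion: `Nat.rec` on a sigma type / `exists_seq_of_forall...`; carry the invariant `BM f ∧ |f| <= A ∧ f = 0 off E ∧ NB (f - sM M f) e ∧ DB (f - sM M f) e` with `e` in the state.) -/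

open MeasureTheory Complex Filter Topology
open scoped ComplexConjugate

namespace CH.B

/-- the invariant of the recursion -/
private def BSeq_Inv (E : Set T) (A : ℝ) (s : (T → ℂ) × ℕ × ℝ) : Prop :=
  BM s.1 ∧ (∀ x, ‖s.1 x‖ ≤ A) ∧ (∀ x, x ∉ E → s.1 x = 0) ∧ 0 ≤ s.2.2 ∧
    NB (fun x => s.1 x - sM s.2.1 s.1 x) s.2.2 ∧ DB (fun x => s.1 x - sM s.2.1 s.1 x) s.2.2

theorem Seq_lemma {C1 : ℝ} (hC1 : 1 ≤ C1) (hK : LemKP C1) {E : Set T} (hEm : MeasurableSet E)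
    (hE : 0 < volume E) :
    ∃ (f : ℕ → T → ℂ) (M : ℕ → ℕ) (A : ℝ) (ep eta : ℕ → ℝ), (∀ J, BM (f J)) ∧
      (∀ J x, ‖f J x‖ ≤ A) ∧ (∀ J x, x ∉ E → f J x = 0) ∧ (∀ J, ‖∫ x, f J x - 1‖ ≤ 1 / 4) ∧
      (∀ J, 0 ≤ ep J) ∧ Tendsto ep atTop (𝓝 0) ∧ (∀ J, 0 ≤ eta J) ∧ Summable eta ∧
      (∀ J, NB (fun x => f J x - sM (M J) (f J) x) (ep J)) ∧
      (∀ J, DB (fun x => f J x - sM (M J) (f J) x) (ep J)) ∧
      (∀ J, NB (fun x => f (J + 1) x - f J x) (eta J)) ∧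
      (∀ J, DB (fun x => f (J + 1) x - f J x) (eta J)) := by
  obtain ⟨f0, A, c, hf0, hA0, hE0, hint0, hN0⟩ := Base_lemma hC1 hK hEm hE
  have hApos : 0 ≤ A := (norm_nonneg _).trans (hA0 0)
  have hL0 : L2 f0 := hf0.L2
  have hLs : L2 (sM 0 f0) := (sM_BM 0 f0).L2
  -- the starting point
  have hstart : BSeq_Inv E A (f0, 0, max (2 * max c 0) (2 * A)) := by
    refine ⟨hf0, hA0, hE0, ?_, ?_, ?_⟩
    · exact (mul_nonneg zero_le_two hApos).trans (le_max_right _ _)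
    · have h1 : NB f0 (max c 0) := NB_mono hN0 (le_max_left _ _)
      have h2 : NB (fun x => - sM 0 f0 x) (max c 0) :=
        NB_neg (NB_sM 0 hL0 (le_max_right _ _) h1)
      have h3 := NB_add hL0 hLs.neg h1 h2
      refine NB_mono (k := max c 0 + max c 0) ?_ ?_
      · simpa only [sub_eq_add_neg] using h3
      · rw [← two_mul]
        exact le_max_left _ _
    · have h1 : DB f0 A := DB_of_bdd hL0 hA0
      have h2 : DB (fun x => - sM 0 f0 x) A := DB_neg (DB_sM 0 hL0 hApos h1)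
      have h3 := DB_add hL0 hLs.neg h1 h2
      refine DB_mono (k := A + A) ?_ ?_
      · simpa only [sub_eq_add_neg] using h3
      · rw [← two_mul]
        exact le_max_right _ _
  -- the step
  have hstep : ∀ (J : ℕ) (s : {s : (T → ℂ) × ℕ × ℝ // BSeq_Inv E A s}),
      ∃ s' : {s : (T → ℂ) × ℕ × ℝ // BSeq_Inv E A s}, s'.1.2.2 = (1 / 2 : ℝ) ^ (J + 3) ∧
        NB (fun x => s'.1.1 x - s.1.1 x) ((C1 + 1) * s.1.2.2 + (1 / 2 : ℝ) ^ (J + 3)) ∧
        DB (fun x => s'.1.1 x - s.1.1 x) (2 * s.1.2.2 + (1 / 2 : ℝ) ^ (J + 3)) ∧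
        ‖∫ x, (s'.1.1 x - s.1.1 x)‖ ≤ (1 / 2 : ℝ) ^ (J + 3) := by
    rintro J ⟨⟨f, M, e⟩, hf, hA, hE', he, hN, hD⟩
    have hpos : (0 : ℝ) < (1 / 2 : ℝ) ^ (J + 3) := by positivity
    obtain ⟨M', f', h1, h2, h3, h4, h5, h6, h7, h8⟩ :=
      Step_lemma hC1 hK hEm hf hA hE' M he hpos hN hD
    exact ⟨⟨(f', M', (1 / 2 : ℝ) ^ (J + 3)), h1, h2, h3, hpos.le, h6, h7⟩, rfl, h4, h5, h8⟩
  choose F hF1 hF2 hF3 hF4 using hstep
  let q : ℕ → {s : (T → ℂ) × ℕ × ℝ // BSeq_Inv E A s} := fun n =>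
    Nat.rec (motive := fun _ => {s : (T → ℂ) × ℕ × ℝ // BSeq_Inv E A s})
      ⟨(f0, 0, max (2 * max c 0) (2 * A)), hstart⟩ (fun J s => F J s) n
  have hq0 : (q 0).1.1 = f0 := rfl
  have hqs : ∀ J, q (J + 1) = F J (q J) := fun J => rfl
  have hep : ∀ J, (q (J + 1)).1.2.2 = (1 / 2 : ℝ) ^ (J + 3) := fun J => by
    rw [hqs]
    exact hF1 J (q J)
  have hsum : Summable fun J : ℕ => (1 / 2 : ℝ) ^ (J + 3) :=
    (summable_nat_add_iff 3).2 (summable_geometric_of_lt_one (by norm_num) (by norm_num))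
  have hsep : Summable fun J : ℕ => (q J).1.2.2 := by
    rw [← summable_nat_add_iff 1]
    exact hsum.congr fun J => (hep J).symm
  have hint : ∀ J, ‖(∫ x, (q J).1.1 x) - 1‖ ≤ 1 / 4 - (1 / 2 : ℝ) ^ (J + 2) := by
    intro J
    induction J with
    | zero =>
      rw [hq0, hint0]
      norm_num
    | succ J ih =>
      have h1 := hF4 J (q J)
      rw [← hqs, integral_sub (q (J + 1)).2.1.L2.integrable (q J).2.1.L2.integrable] at h1
      have h2 : (∫ x, (q (J + 1)).1.1 x) - 1 =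
          ((∫ x, (q (J + 1)).1.1 x) - ∫ x, (q J).1.1 x) + ((∫ x, (q J).1.1 x) - 1) := by ring
      rw [h2]
      refine (norm_add_le _ _).trans ((add_le_add h1 ih).trans (le_of_eq ?_))
      rw [show J + 1 + 2 = (J + 2) + 1 from rfl, show J + 3 = (J + 2) + 1 from rfl, pow_succ]
      ring
  refine ⟨fun J => (q J).1.1, fun J => (q J).1.2.1, A, fun J => (q J).1.2.2,
    fun J => (C1 + 2) * (q J).1.2.2 + (1 / 2 : ℝ) ^ (J + 3), fun J => (q J).2.1,
    fun J => (q J).2.2.1, fun J => (q J).2.2.2.1, ?_, fun J => (q J).2.2.2.2.1,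
    hsep.tendsto_atTop_zero, ?_, ?_, fun J => (q J).2.2.2.2.2.1, fun J => (q J).2.2.2.2.2.2,
    ?_, ?_⟩
  · intro J
    have h1 : ∫ x, ((q J).1.1 x - 1) = (∫ x, (q J).1.1 x) - 1 := by
      rw [integral_sub (q J).2.1.L2.integrable (integrable_const _)]
      simp
    rw [h1]
    refine (hint J).trans ?_
    have : (0 : ℝ) < (1 / 2 : ℝ) ^ (J + 2) := by positivity
    linarith
  · intro J
    have := (q J).2.2.2.2.1
    have h2 : (0 : ℝ) < (1 / 2 : ℝ) ^ (J + 3) := by positivity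
    have h3 : 0 ≤ (C1 + 2) * (q J).1.2.2 := mul_nonneg (by linarith) this
    linarith
  · exact (hsep.mul_left _).add hsum
  · intro J
    have h0 := (q J).2.2.2.2.1
    have h1 := hF2 J (q J)
    rw [← hqs] at h1
    refine NB_mono h1 ?_
    nlinarith
  · intro J
    have h0 := (q J).2.2.2.2.1
    have h1 := hF3 J (q J)
    rw [← hqs] at h1
    refine DB_mono h1 ?_
    nlinarith

end CH.B
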