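import Pool.Agent.CH.BCore
import Pool.Agent.CH.BMM2

/-! # CH-BStep: the step (B7) -/

open MeasureTheory Complex Filter Topology
open scoped ComplexConjugate

namespace CH.B

/-- the data of a convex combination of constraints -/
private structure BStepD (M' : ℕ) (f : T → ℂ) (k1 k2 k3 : ℝ) (p : (T → ℂ) × ℝ) : Prop where
  ex : ∃ (a1 a2 a3 a4 a5 : ℝ) (h h' b b' : T → ℂ) (z : ℂ), 0 ≤ a1 ∧ 0 ≤ a2 ∧ 0 ≤ a3 ∧ 0 ≤ a4 ∧
    0 ≤ a5 ∧ a1 + a2 + a3 + a4 + a5 = 1 ∧ Fam a1 h ∧ Fam a3 h' ∧ An0 b ∧ An0 b' ∧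
    ∫ x, ‖b x‖ ≤ a2 ∧ ∫ x, ‖b' x‖ ≤ a4 ∧ ‖z‖ ≤ a5 ∧
    p.1 = (fun x => conj (h x) + b x + conj (h' x - sM M' h' x) + (b' x - sM M' b' x) + z) ∧
    p.2 = (∫ x, f x * (conj (h x) + b x + z)).re + a1 * k1 + a2 * k2 + (a3 + a4 + a5) * k3

private theorem BStep_L2_const (z : ℂ) : L2 (fun _ : T => z) := memLp_const z

private theorem BStep_An0_add {b c : T → ℂ} (hb : An0 b) (hc : An0 c) :
    An0 (fun x => b x + c x) := by
  refine ⟨hb.1.add hc.1, fun n hn => ?_⟩
  rw [cf_add hb.1.integrable hc.1.integrable, hb.2 n hn, hc.2 n hn, add_zero]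

private theorem BStep_An0_smul {b : T → ℂ} (z : ℂ) (hb : An0 b) :
    An0 (fun x => z * b x) := by
  refine ⟨hb.1.const_mul z, fun n hn => ?_⟩
  rw [cf_const_mul, hb.2 n hn, mul_zero]

private theorem BStep_An0_zero : An0 (fun _ => 0) :=
  ⟨MemLp.zero, fun n _ => cf_zero n⟩

private theorem BStep_int_comb {b c : T → ℂ} (hb : L2 b) (hc : L2 c) {t a a' : ℝ} (h0 : 0 ≤ t)
    (h1 : t ≤ 1) (h2 : ∫ x, ‖b x‖ ≤ a) (h3 : ∫ x, ‖c x‖ ≤ a') :
    ∫ x, ‖(t : ℂ) * b x + ((1 - t : ℝ) : ℂ) * c x‖ ≤ t * a + (1 - t) * a' := by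
  have h4 : ∫ x, ‖(t : ℂ) * b x + ((1 - t : ℝ) : ℂ) * c x‖
      ≤ ∫ x, (t * ‖b x‖ + (1 - t) * ‖c x‖) := by
    refine integral_mono ((hb.const_mul _).add (hc.const_mul _)).integrable.norm
      ((hb.integrable.norm.const_mul _).add (hc.integrable.norm.const_mul _)) fun x => ?_
    refine (norm_add_le _ _).trans (le_of_eq ?_)
    rw [norm_mul, norm_mul, Complex.norm_real, Complex.norm_real, Real.norm_eq_abs,
      Real.norm_eq_abs, abs_of_nonneg h0, abs_of_nonneg (by linarith : (0 : ℝ) ≤ 1 - t)]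
  rw [integral_add (hb.integrable.norm.const_mul _) (hc.integrable.norm.const_mul _),
    integral_const_mul, integral_const_mul] at h4
  refine h4.trans ?_
  have := mul_le_mul_of_nonneg_left h2 h0
  have := mul_le_mul_of_nonneg_left h3 (by linarith : (0 : ℝ) ≤ 1 - t)
  linarith

private theorem BStep_Fam_comb {g h : T → ℂ} {t a a' : ℝ} (h0 : 0 ≤ t)
    (h1 : t ≤ 1) (h2 : Fam a g) (h3 : Fam a' h) :
    Fam (t * a + (1 - t) * a') (fun x => (t : ℂ) * g x + ((1 - t : ℝ) : ℂ) * h x) := by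
  have e1 := Fam_add (Fam_smul (t : ℂ) h2) (Fam_smul ((1 - t : ℝ) : ℂ) h3)
  rw [Complex.norm_real, Complex.norm_real, Real.norm_eq_abs,
      Real.norm_eq_abs, abs_of_nonneg h0, abs_of_nonneg (by linarith : (0 : ℝ) ≤ 1 - t)] at e1
  exact e1

private theorem BStep_sM_comb (M : ℕ) {g h : T → ℂ} (hg : L2 g) (hh : L2 h) (s t : ℂ) (x : T) :
    sM M (fun x => s * g x + t * h x) x = s * sM M g x + t * sM M h x := by
  rw [sM_add M (hg.const_mul s).integrable (hh.const_mul t).integrable, sM_const_mul,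
    sM_const_mul]

private theorem BStep_convex {M' : ℕ} {f : T → ℂ} (hf : BM f) {k1 k2 k3 : ℝ}
    {p r : (T → ℂ) × ℝ} (hp : BStepD M' f k1 k2 k3 p) (hr : BStepD M' f k1 k2 k3 r) {t : ℝ}
    (h0 : 0 ≤ t) (h1 : t ≤ 1) :
    BStepD M' f k1 k2 k3
      ((fun x => (t : ℂ) * p.1 x + ((1 - t : ℝ) : ℂ) * r.1 x), t * p.2 + (1 - t) * r.2) := by
  obtain ⟨a1, a2, a3, a4, a5, h, h', b, b', z, A1, A2, A3, A4, A5, AS, F1, F2, B1, B2, I1, I2,
    Z, P1, P2⟩ := hp.ex
  obtain ⟨c1, c2, c3, c4, c5, g, g', d, d', w, C1, C2, C3, C4, C5, CS, G1, G2, D1, D2, J1, J2,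
    W, R1, R2⟩ := hr.ex
  have ht : 0 ≤ 1 - t := by linarith
  have Lh := Fam_L2 F1
  have Lh' := Fam_L2 F2
  have Lg := Fam_L2 G1
  have Lg' := Fam_L2 G2
  refine ⟨t * a1 + (1 - t) * c1, t * a2 + (1 - t) * c2, t * a3 + (1 - t) * c3,
    t * a4 + (1 - t) * c4, t * a5 + (1 - t) * c5,
    fun x => (t : ℂ) * h x + ((1 - t : ℝ) : ℂ) * g x,
    fun x => (t : ℂ) * h' x + ((1 - t : ℝ) : ℂ) * g' x,
    fun x => (t : ℂ) * b x + ((1 - t : ℝ) : ℂ) * d x,
    fun x => (t : ℂ) * b' x + ((1 - t : ℝ) : ℂ) * d' x,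
    (t : ℂ) * z + ((1 - t : ℝ) : ℂ) * w, by positivity, by positivity, by positivity,
    by positivity, by positivity, ?_, BStep_Fam_comb h0 h1 F1 G1, BStep_Fam_comb h0 h1 F2 G2,
    BStep_An0_add (BStep_An0_smul _ B1) (BStep_An0_smul _ D1),
    BStep_An0_add (BStep_An0_smul _ B2) (BStep_An0_smul _ D2),
    BStep_int_comb B1.1 D1.1 h0 h1 I1 J1, BStep_int_comb B2.1 D2.1 h0 h1 I2 J2, ?_, ?_, ?_⟩
  · linear_combination t * AS + (1 - t) * CS
  · refine (norm_add_le _ _).trans ?_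
    rw [norm_mul, norm_mul, Complex.norm_real, Complex.norm_real, Real.norm_eq_abs,
      Real.norm_eq_abs, abs_of_nonneg h0, abs_of_nonneg ht]
    have := mul_le_mul_of_nonneg_left Z h0
    have := mul_le_mul_of_nonneg_left W ht
    linarith
  · funext x
    simp only []
    rw [P1, R1, BStep_sM_comb M' Lh' Lg', BStep_sM_comb M' B2.1 D2.1]
    simp only [map_add, map_sub, map_mul, Complex.conj_ofReal]
    ring
  · simp only []
    rw [P2, R2]
    have i1 : Integrable (fun x => f x * (conj (h x) + b x + z)) :=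
      hf.L2.integrable_mul ((Lh.conj.add B1.1).add (BStep_L2_const z))
    have i2 : Integrable (fun x => f x * (conj (g x) + d x + w)) :=
      hf.L2.integrable_mul ((Lg.conj.add D1.1).add (BStep_L2_const w))
    have e1 : ∫ x, f x * (conj ((t : ℂ) * h x + ((1 - t : ℝ) : ℂ) * g x)
        + ((t : ℂ) * b x + ((1 - t : ℝ) : ℂ) * d x) + ((t : ℂ) * z + ((1 - t : ℝ) : ℂ) * w))
        = (t : ℂ) * (∫ x, f x * (conj (h x) + b x + z))
          + ((1 - t : ℝ) : ℂ) * ∫ x, f x * (conj (g x) + d x + w) := by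
      rw [← integral_const_mul, ← integral_const_mul,
        ← integral_add (i1.const_mul _) (i2.const_mul _)]
      congr 1
      ext x
      simp only [map_add, map_mul, Complex.conj_ofReal]
      ring
    rw [e1, Complex.add_re, Complex.re_ofReal_mul, Complex.re_ofReal_mul]
    ring

/-- normalisation of a family -/
private theorem BStep_norm_Fam {a : ℝ} {h : T → ℂ} (ha : 0 ≤ a) (hh : Fam a h) :
    ∃ g, Fam 1 g ∧ h =ᵐ[volume] fun x => (a : ℂ) * g x := by
  rcases eq_or_lt_of_le ha with h0 | hpos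
  · refine ⟨fun _ => 0, Fam_mono Fam_zero zero_le_one, ?_⟩
    rw [← h0] at hh ⊢
    filter_upwards [Fam_eq_zero hh] with x hx
    rw [hx]
    simp
  · have h1 := Fam_smul ((a⁻¹ : ℝ) : ℂ) hh
    rw [Complex.norm_real, Real.norm_eq_abs, abs_of_pos (inv_pos.2 hpos),
      inv_mul_cancel₀ hpos.ne'] at h1
    refine ⟨_, h1, ae_of_all _ fun x => ?_⟩
    have h2 : (a : ℂ) ≠ 0 := by exact_mod_cast hpos.ne'
    push_cast
    field_simp

private theorem BStep_norm_An0 {a : ℝ} {b : T → ℂ} (ha : 0 ≤ a) (hb : An0 b)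
    (hi : ∫ x, ‖b x‖ ≤ a) :
    ∃ g, An0 g ∧ ∫ x, ‖g x‖ ≤ 1 ∧ b =ᵐ[volume] fun x => (a : ℂ) * g x := by
  rcases eq_or_lt_of_le ha with h0 | hpos
  · refine ⟨fun _ => 0, BStep_An0_zero, by simp, ?_⟩
    have h3 : ∫ x, ‖b x‖ = 0 := le_antisymm (by rw [h0]; exact hi)
      (integral_nonneg fun _ => norm_nonneg _)
    have hz : (fun x => ‖b x‖) =ᵐ[volume] 0 :=
      (integral_eq_zero_iff_of_nonneg (fun _ => norm_nonneg _) hb.1.integrable.norm).1 h3
    filter_upwards [hz] with x hx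
    have : b x = 0 := norm_eq_zero.1 hx
    rw [this, mul_zero]
  · refine ⟨fun x => ((a⁻¹ : ℝ) : ℂ) * b x, BStep_An0_smul _ hb, ?_, ae_of_all _ fun x => ?_⟩
    · have : ∀ x, ‖((a⁻¹ : ℝ) : ℂ) * b x‖ = a⁻¹ * ‖b x‖ := fun x => by
        rw [norm_mul, Complex.norm_real, Real.norm_eq_abs, abs_of_pos (inv_pos.2 hpos)]
      simp_rw [this]
      rw [integral_const_mul]
      have h4 := mul_le_mul_of_nonneg_left hi (inv_pos.2 hpos).le
      rwa [inv_mul_cancel₀ hpos.ne'] at h4
    · have h2 : (a : ℂ) ≠ 0 := by exact_mod_cast hpos.ne'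
      push_cast
      field_simp

private theorem BStep_int6 {F1 F2 F3 F4 F5 F6 : T → ℂ} (h1 : Integrable F1) (h2 : Integrable F2)
    (h3 : Integrable F3) (h4 : Integrable F4) (h5 : Integrable F5) (h6 : Integrable F6) :
    ∫ x, (F1 x + F2 x + F3 x + F4 x + F5 x + F6 x) = (∫ x, F1 x) + (∫ x, F2 x) + (∫ x, F3 x)
      + (∫ x, F4 x) + (∫ x, F5 x) + ∫ x, F6 x := by
  have g2 : Integrable (fun x => F1 x + F2 x) := h1.add h2
  have g3 : Integrable (fun x => F1 x + F2 x + F3 x) := g2.add h3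
  have g4 : Integrable (fun x => F1 x + F2 x + F3 x + F4 x) := g3.add h4
  have g5 : Integrable (fun x => F1 x + F2 x + F3 x + F4 x + F5 x) := g4.add h5
  rw [integral_add g5 h6, integral_add g4 h5, integral_add g3 h4, integral_add g2 h3,
    integral_add h1 h2]

private theorem BStep_re_le {I : ℂ} {a k : ℝ} (ha : 0 ≤ a) (h : ‖I‖ ≤ k) :
    ((a : ℂ) * I).re ≤ a * k := by
  rw [Complex.re_ofReal_mul]
  exact mul_le_mul_of_nonneg_left ((Complex.re_le_norm I).trans h) ha

private theorem BStep_unimod {I : ℂ} {k : ℝ} (h : ∀ u : ℂ, ‖u‖ = 1 → (u * I).re ≤ k) :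
    ‖I‖ ≤ k := by
  by_cases hI : I = 0
  · have := h 1 (by simp)
    rw [hI] at this ⊢
    simpa using this
  · have hn : (‖I‖ : ℂ) ≠ 0 := by
      simpa using hI
    have h1 := h (conj I / (‖I‖ : ℂ)) (by
      rw [norm_div, RCLike.norm_conj, Complex.norm_real, norm_norm]
      exact div_self (by simpa using hI))
    have h2 : conj I / (‖I‖ : ℂ) * I = (‖I‖ : ℂ) := by
      rw [div_mul_eq_mul_div, mul_comm, Complex.mul_conj, Complex.normSq_eq_norm_sq]
      push_cast
      rw [sq, mul_div_assoc, div_self hn, mul_one]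
    rw [h2, Complex.ofReal_re] at h1
    exact h1

theorem Step_lemma {C1 : ℝ} (hC1 : 1 ≤ C1) (hK : LemKP C1) {E : Set T} (hEm : MeasurableSet E)
    {f : T → ℂ} {A : ℝ} (hf : BM f) (hA : ∀ x, ‖f x‖ ≤ A) (hE : ∀ x, x ∉ E → f x = 0) (M : ℕ)
    {eps eps' : ℝ} (h0 : 0 ≤ eps) (h1 : 0 < eps') (hN : NB (fun x => f x - sM M f x) eps)
    (hD : DB (fun x => f x - sM M f x) eps) :
    ∃ (M' : ℕ) (f' : T → ℂ), BM f' ∧ (∀ x, ‖f' x‖ ≤ A) ∧ (∀ x, x ∉ E → f' x = 0) ∧
      NB (fun x => f' x - f x) ((C1 + 1) * eps + eps') ∧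
      DB (fun x => f' x - f x) (2 * eps + eps') ∧
      NB (fun x => f' x - sM M' f' x) eps' ∧ DB (fun x => f' x - sM M' f' x) eps' ∧
      ‖∫ x, (f' x - f x)‖ ≤ eps' := by
  have hA0 : 0 ≤ A := (norm_nonneg _).trans (hA 0)
  obtain ⟨M', hM'⟩ := Core hC1 hK E hf hA hE M h0 h1 hN hD
  set k1 : ℝ := (C1 + 1) * eps + eps' with hk1
  set k2 : ℝ := 2 * eps + eps' with hk2
  obtain ⟨f', hf', hA', hE', hall⟩ := minimaxF hEm hA0 {p | BStepD M' f k1 k2 eps' p} (by
    intro p hp
    obtain ⟨a1, a2, a3, a4, a5, h, h', b, b', z, A1, A2, A3, A4, A5, AS, F1, F2, B1, B2, I1, I2,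
      Z, P1, P2⟩ := hp.ex
    rw [P1]
    exact ((((Fam_L2 F1).conj.add B1.1).add ((Fam_L2 F2).sub (sM_BM M' h').L2).conj).add
      (B2.1.sub (sM_BM M' b').L2)).add (BStep_L2_const z)) (by
    intro p hp r hr t ht0 ht1
    exact BStep_convex hf hp hr ht0 ht1) (by
    intro p hp
    obtain ⟨a1, a2, a3, a4, a5, h, h', b, b', z, A1, A2, A3, A4, A5, AS, F1, F2, B1, B2, I1, I2,
      Z, P1, P2⟩ := hp.ex
    obtain ⟨g, Fg, eg⟩ := BStep_norm_Fam A1 F1
    obtain ⟨g', Fg', eg'⟩ := BStep_norm_Fam A3 F2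
    obtain ⟨d, Ad, Id, ed⟩ := BStep_norm_An0 A2 B1 I1
    obtain ⟨d', Ad', Id', ed'⟩ := BStep_norm_An0 A4 B2 I2
    obtain ⟨f', hf', hA', hE', c1, c2, c3, c4, c5⟩ := hM' g g' d d' Fg Fg' Ad Ad' Id Id'
    refine ⟨f', hf', hA', hE', ?_⟩
    have s1 : sM M' h' = fun x => (a3 : ℂ) * sM M' g' x := by
      rw [sM_congr M' eg', sM_const_mul]
    have s2 : sM M' b' = fun x => (a4 : ℂ) * sM M' d' x := by
      rw [sM_congr M' ed', sM_const_mul]
    have Lf := hf.L2
    have Lf' := hf'.L2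
    have Lg := Fam_L2 Fg
    have Lg' := Fam_L2 Fg'
    have j1 : Integrable (fun x => (f' x - f x) * conj (g x)) :=
      (Lf'.sub Lf).integrable_mul_conj Lg
    have j2 : Integrable (fun x => (f' x - f x) * d x) := (Lf'.sub Lf).integrable_mul Ad.1
    have j3 : Integrable (fun x => f' x * conj (g' x - sM M' g' x)) :=
      Lf'.integrable_mul_conj (Lg'.sub (sM_BM M' g').L2)
    have j4 : Integrable (fun x => f' x * (d' x - sM M' d' x)) :=
      Lf'.integrable_mul (Ad'.1.sub (sM_BM M' d').L2)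
    have j5 : Integrable (fun x => f' x - f x) := (Lf'.sub Lf).integrable
    have j6 : Integrable (fun x => f x * (conj (h x) + b x + z)) :=
      Lf.integrable_mul (((Fam_L2 F1).conj.add B1.1).add (BStep_L2_const z))
    have key : ∫ x, f' x * p.1 x = (a1 : ℂ) * (∫ x, (f' x - f x) * conj (g x))
        + (a2 : ℂ) * (∫ x, (f' x - f x) * d x)
        + (a3 : ℂ) * (∫ x, f' x * conj (g' x - sM M' g' x))
        + (a4 : ℂ) * (∫ x, f' x * (d' x - sM M' d' x))
        + z * (∫ x, (f' x - f x)) + ∫ x, f x * (conj (h x) + b x + z) := by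
      rw [← integral_const_mul, ← integral_const_mul, ← integral_const_mul,
        ← integral_const_mul, ← integral_const_mul,
        ← BStep_int6 (j1.const_mul _) (j2.const_mul _) (j3.const_mul _) (j4.const_mul _)
          (j5.const_mul _) j6]
      refine integral_congr_ae ?_
      filter_upwards [eg, eg', ed, ed'] with x x1 x2 x3 x4
      simp only [P1, s1, s2]
      rw [x1, x2, x3, x4]
      simp only [map_sub, map_mul, Complex.conj_ofReal]
      ring
    rw [key, P2]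
    simp only [Complex.add_re]
    have r1 := BStep_re_le A1 c1
    have r2 := BStep_re_le A2 c2
    have r3 := BStep_re_le A3 c3
    have r4 := BStep_re_le A4 c4
    have r5 : (z * ∫ x, (f' x - f x)).re ≤ a5 * eps' := by
      refine (Complex.re_le_norm _).trans ?_
      rw [norm_mul]
      exact mul_le_mul Z c5 (norm_nonneg _) A5
    linarith)
  have Lf := hf.L2
  have Lf' := hf'.L2
  have Ld := Lf'.sub Lf
  have test : ∀ (a1 a2 a3 a4 a5 : ℝ) (h h' b b' : T → ℂ) (z : ℂ), 0 ≤ a1 → 0 ≤ a2 → 0 ≤ a3 →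
      0 ≤ a4 → 0 ≤ a5 → a1 + a2 + a3 + a4 + a5 = 1 → Fam a1 h → Fam a3 h' → An0 b → An0 b' →
      ∫ x, ‖b x‖ ≤ a2 → ∫ x, ‖b' x‖ ≤ a4 → ‖z‖ ≤ a5 →
      ((∫ x, (f' x - f x) * conj (h x)) + (∫ x, (f' x - f x) * b x)
        + (∫ x, f' x * conj (h' x - sM M' h' x)) + (∫ x, f' x * (b' x - sM M' b' x))
        + z * ∫ x, (f' x - f x)).re ≤ a1 * k1 + a2 * k2 + (a3 + a4 + a5) * eps' := by
    intro a1 a2 a3 a4 a5 h h' b b' z A1 A2 A3 A4 A5 AS F1 F2 B1 B2 I1 I2 Z
    have h2 := hall (_, _) ⟨a1, a2, a3, a4, a5, h, h', b, b', z, A1, A2, A3, A4, A5, AS, F1, F2,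
      B1, B2, I1, I2, Z, rfl, rfl⟩
    simp only [] at h2
    have j1 : Integrable (fun x => (f' x - f x) * conj (h x)) := Ld.integrable_mul_conj (Fam_L2 F1)
    have j2 : Integrable (fun x => (f' x - f x) * b x) := Ld.integrable_mul B1.1
    have j3 : Integrable (fun x => f' x * conj (h' x - sM M' h' x)) :=
      Lf'.integrable_mul_conj ((Fam_L2 F2).sub (sM_BM M' h').L2)
    have j4 : Integrable (fun x => f' x * (b' x - sM M' b' x)) :=
      Lf'.integrable_mul (B2.1.sub (sM_BM M' b').L2)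
    have j5 : Integrable (fun x => f' x - f x) := Ld.integrable
    have j6 : Integrable (fun x => f x * (conj (h x) + b x + z)) :=
      Lf.integrable_mul (((Fam_L2 F1).conj.add B1.1).add (BStep_L2_const z))
    have key : ∫ x, f' x * (conj (h x) + b x + conj (h' x - sM M' h' x)
          + (b' x - sM M' b' x) + z) = (∫ x, (f' x - f x) * conj (h x))
        + (∫ x, (f' x - f x) * b x) + (∫ x, f' x * conj (h' x - sM M' h' x))
        + (∫ x, f' x * (b' x - sM M' b' x))
        + z * (∫ x, (f' x - f x)) + ∫ x, f x * (conj (h x) + b x + z) := by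
      rw [← integral_const_mul, ← BStep_int6 j1 j2 j3 j4 (j5.const_mul _) j6]
      congr 1
      ext x
      ring
    rw [key, Complex.add_re] at h2
    linarith
  have sz : ∀ x, sM M' (fun _ => 0) x = 0 := by
    intro x
    unfold sM
    simp [cf_zero]
  refine ⟨M', f', hf', hA', hE', ?_, ?_, ?_, ?_, ?_⟩
  · refine NB_of_Fam Ld fun h hh => BStep_unimod fun u hu => ?_
    have hF : Fam 1 (fun x => conj u * h x) := by
      have := Fam_smul (conj u) hh
      rwa [RCLike.norm_conj, hu, one_mul] at this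
    have h2 := test 1 0 0 0 0 (fun x => conj u * h x) (fun _ => 0) (fun _ => 0)
      (fun _ => 0) 0 zero_le_one le_rfl le_rfl le_rfl le_rfl (by norm_num) hF Fam_zero
      BStep_An0_zero BStep_An0_zero (by simp) (by simp) (by simp)
    have e1 : ∫ x, (f' x - f x) * conj (conj u * h x) = u * ∫ x, (f' x - f x) * conj (h x) := by
      rw [← integral_const_mul]
      congr 1
      ext x
      rw [map_mul, Complex.conj_conj]
      ring
    rw [e1] at h2
    simp only [sz, sub_zero, map_zero, mul_zero, integral_zero, add_zero, zero_mul, one_mul] at h2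
    exact h2
  · refine DB_of_unit Ld fun b hb hb1 => BStep_unimod fun u hu => ?_
    have i1 : ∫ x, ‖u * b x‖ ≤ 1 := by
      simp only [norm_mul, hu, one_mul]
      exact hb1
    have h2 := test 0 1 0 0 0 (fun _ => 0) (fun _ => 0) (fun x => u * b x)
      (fun _ => 0) 0 le_rfl zero_le_one le_rfl le_rfl le_rfl (by norm_num) Fam_zero Fam_zero
      (BStep_An0_smul u hb) BStep_An0_zero i1 (by simp) (by simp)
    have e1 : ∫ x, (f' x - f x) * (u * b x) = u * ∫ x, (f' x - f x) * b x := by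
      rw [← integral_const_mul]
      congr 1
      ext x
      ring
    rw [e1] at h2
    simp only [sz, sub_zero, map_zero, mul_zero, integral_zero, add_zero, zero_mul, one_mul,
      zero_add] at h2
    exact h2
  · refine NB_of_Fam (Lf'.sub (sM_BM M' f').L2) fun h hh => BStep_unimod fun u hu => ?_
    have hF : Fam 1 (fun x => conj u * h x) := by
      have := Fam_smul (conj u) hh
      rwa [RCLike.norm_conj, hu, one_mul] at this
    have h2 := test 0 0 1 0 0 (fun _ => 0) (fun x => conj u * h x) (fun _ => 0)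
      (fun _ => 0) 0 le_rfl le_rfl zero_le_one le_rfl le_rfl (by norm_num) Fam_zero hF
      BStep_An0_zero BStep_An0_zero (by simp) (by simp) (by simp)
    have e1 : ∫ x, f' x * conj (conj u * h x - sM M' (fun x => conj u * h x) x)
        = u * ∫ x, (f' x - sM M' f' x) * conj (h x) := by
      have e2 : ∫ x, (f' x - sM M' f' x) * conj (h x) = ∫ x, f' x * conj (h x - sM M' h x) := by
        have i1 := Lf'.integrable_mul_conj (Fam_L2 hh)
        have i2 := (sM_BM M' f').L2.integrable_mul_conj (Fam_L2 hh)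
        have i3 := Lf'.integrable_mul_conj (sM_BM M' h).L2
        have e3 : ∫ x, (f' x - sM M' f' x) * conj (h x)
            = (∫ x, f' x * conj (h x)) - ∫ x, sM M' f' x * conj (h x) := by
          rw [← integral_sub i1 i2]
          congr 1
          ext x
          ring
        rw [e3, sM_adj_conj M' Lf' (Fam_L2 hh), ← integral_sub i1 i3]
        congr 1
        ext x
        rw [map_sub]
        ring
      rw [e2, sM_const_mul, ← integral_const_mul]
      congr 1
      ext x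
      simp only [map_mul, map_sub, Complex.conj_conj]
      ring
    rw [e1] at h2
    simp only [sz, sub_zero, map_zero, mul_zero, integral_zero, add_zero, zero_mul, one_mul,
      zero_add] at h2
    exact h2
  · refine DB_of_unit (Lf'.sub (sM_BM M' f').L2) fun b hb hb1 => BStep_unimod fun u hu => ?_
    have i1 : ∫ x, ‖u * b x‖ ≤ 1 := by
      simp only [norm_mul, hu, one_mul]
      exact hb1
    have h2 := test 0 0 0 1 0 (fun _ => 0) (fun _ => 0) (fun _ => 0)
      (fun x => u * b x) 0 le_rfl le_rfl le_rfl zero_le_one le_rfl (by norm_num) Fam_zero Fam_zero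
      BStep_An0_zero (BStep_An0_smul u hb) (by simp) i1 (by simp)
    have e1 : ∫ x, f' x * (u * b x - sM M' (fun x => u * b x) x)
        = u * ∫ x, (f' x - sM M' f' x) * b x := by
      have e2 : ∫ x, (f' x - sM M' f' x) * b x = ∫ x, f' x * (b x - sM M' b x) := by
        have i1 := Lf'.integrable_mul hb.1
        have i2 := (sM_BM M' f').L2.integrable_mul hb.1
        have i3 := Lf'.integrable_mul (sM_BM M' b).L2
        have e3 : ∫ x, (f' x - sM M' f' x) * b x
            = (∫ x, f' x * b x) - ∫ x, sM M' f' x * b x := by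
          rw [← integral_sub i1 i2]
          congr 1
          ext x
          ring
        rw [e3, sM_adj M' Lf' hb.1, ← integral_sub i1 i3]
        congr 1
        ext x
        ring
      rw [e2, sM_const_mul, ← integral_const_mul]
      congr 1
      ext x
      ring
    rw [e1] at h2
    simp only [sz, sub_zero, map_zero, mul_zero, integral_zero, add_zero, zero_mul, one_mul,
      zero_add] at h2
    exact h2
  · refine BStep_unimod fun u hu => ?_
    have h2 := test 0 0 0 0 1 (fun _ => 0) (fun _ => 0) (fun _ => 0)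
      (fun _ => 0) u le_rfl le_rfl le_rfl le_rfl zero_le_one (by norm_num) Fam_zero Fam_zero
      BStep_An0_zero BStep_An0_zero (by simp) (by simp) hu.le
    simp only [sz, sub_zero, map_zero, mul_zero, integral_zero, add_zero, zero_mul, one_mul,
      zero_add] at h2
    exact h2

end CH.B
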