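import Pool.Agent.CH.BSem
import Pool.Agent.CH.BOff
import Pool.Agent.CH.BDy

/-! # CH-BVMO1: mean oscillation of `P_- w` (B8)
Let `u = w - Pp w`, `I = {x | ‖x - c‖ < r}`, `|I| = vol I` (`= 2r` for `r <= 1/2`, `AddCircle.volume_ball`). For `psi` bounded measurable, `0` off `I`, `int psi = 0`:
`int u psi = int w Pp psi` (`parseval`/`integral_Pp_mul_conj` with `conj psi`; `P_-`: only `n < 0` of `w`, i.e. positive coefficients of `psi`; `cf psi 0 = 0`),
`Pp psi` is `An0`, so `|int u psi| <= d int |Pp psi|`; `int |Pp psi| <= int_{‖x-c‖ < 2r} + int_{‖x-c‖ >= 2r} <= (4r)^(1/2) ||psi||_2 + C (1/2) int |psi|`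
(`ball_vol`, Cauchy-Schwarz, `Pp_norm_sq_le`; `offdiag` with `δ = r`, `R = 2r`), so `<= C' r sup |psi|`.
With `psi0 = conj sgn (u - u_I)` on `I` (`sgn z = z/|z|`), `psi = psi0 - mean` on `I`: `int_I |u - u_I| = int_I (u - u_I) psi0 = int u psi`, `|psi| <= 2`. -/

open MeasureTheory Complex Filter Topology
open scoped ComplexConjugate

namespace CH.B

theorem ball_vol_eq (c : T) {r : ℝ} (hr : 0 ≤ r) (hr2 : r ≤ 1 / 2) :
    volume.real {x : T | ‖x - c‖ < r} = 2 * r := by
  rcases hr.eq_or_lt with h0 | h0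
  · subst h0
    have : {x : T | ‖x - c‖ < 0} = ∅ := by
      ext x; simp
    rw [this]; simp
  have e1 : {x : T | ‖x - c‖ < r} = Metric.ball c r := by
    ext x; simp [Metric.mem_ball, dist_eq_norm]
  rw [e1, measureReal_def, ← measure_congr (AddCircle.closedBall_ae_eq_ball (x := c) (ε := r)),
    AddCircle.volume_closedBall, ENNReal.toReal_ofReal (by positivity)]
  exact min_eq_right (by linarith)

theorem BVMO1_ball_meas (c : T) (r : ℝ) : MeasurableSet {x : T | ‖x - c‖ < r} := by
  have e1 : {x : T | ‖x - c‖ < r} = Metric.ball c r := by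
    ext x; simp [Metric.mem_ball, dist_eq_norm]
  rw [e1]; exact measurableSet_ball

/-- duality: `int (w - Pp w) psi = int w Pp psi` if `int psi = 0` -/
theorem BVMO1_dual {w psi : T → ℂ} (hw : L2 w) (hp : L2 psi) (h0 : ∫ x, psi x = 0) :
    ∫ x, (w x - Pp w x) * psi x = ∫ x, w x * Pp psi x ∧ An0 (Pp psi) := by
  have hz : cf psi 0 = 0 := by
    unfold cf; simpa using h0
  refine ⟨?_, Pp_L2 psi, fun n hn => ?_⟩
  · -- conjugate function
    have hpc : L2 (fun x => conj (psi x)) := hp.conj
    have e1 := integral_Pp_mul_conj hw hpc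
    simp only [Complex.conj_conj] at e1
    have e2 : (fun x => psi x - conj (Pp (fun x => conj (psi x)) x)) =ᵐ[volume] Pp psi := by
      refine ext_cf (hp.sub (Pp_L2 _).conj) (Pp_L2 _) fun n => ?_
      rw [cf_sub hp.integrable (Pp_L2 _).conj.integrable, cf_conj, cf_Pp hpc, cf_Pp hp, cf_conj]
      rcases lt_trichotomy n 0 with hn | hn | hn
      · rw [if_pos (by omega), if_neg (by omega)]; simp
      · subst hn; simp [hz]
      · rw [if_neg (by omega), if_pos (by omega)]; simp
    have e3 : ∫ x, (w x - Pp w x) * psi x = (∫ x, w x * psi x) - ∫ x, Pp w x * psi x := by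
      rw [← integral_sub (hw.integrable_mul hp) ((Pp_L2 w).integrable_mul hp)]
      congr 1; ext x; ring
    rw [e3, e1, ← integral_sub (hw.integrable_mul hp) (hw.integrable_mul (Pp_L2 _).conj)]
    refine integral_congr_ae ?_
    filter_upwards [e2] with x hx
    rw [← hx]; ring
  · rw [cf_Pp hp]
    split_ifs with h
    · have : n = 0 := by omega
      rw [this, hz]
    · rfl

/-- the `L1` norm of `Pp psi` for an atom `psi` -/
theorem BVMO1_atom : ∃ C : ℝ, 0 ≤ C ∧ ∀ (c : T) (r : ℝ) (psi : T → ℂ), 0 < r → r ≤ 1 / 2 →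
    BM psi → (∀ x, r ≤ ‖x - c‖ → psi x = 0) → (∀ x, ‖psi x‖ ≤ 2) → ∫ x, psi x = 0 →
    ∫ x, ‖Pp psi x‖ ≤ C * (2 * r) := by
  obtain ⟨C, hC, hoff⟩ := offdiag
  refine ⟨C + 3, by positivity, fun c r psi hr hr2 hp hs hb h0 => ?_⟩
  have hpL := hp.L2
  have hIm := BVMO1_ball_meas c r
  have hJm := BVMO1_ball_meas c (2 * r)
  have hcompl : {x : T | 2 * r ≤ ‖x - c‖} = {x : T | ‖x - c‖ < 2 * r}ᶜ := by
    ext x; simp
  have hoff1 := hoff c r (2 * r) psi hr le_rfl hp (fun x hx => hs x hx.le) h0
  rw [hcompl] at hoff1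
  have hint : Integrable (fun x => ‖Pp psi x‖) := (Pp_L2 psi).integrable.norm
  rw [← integral_add_compl hJm hint]
  -- integrals of psi
  have hind1 : ∫ x, ‖psi x‖ ≤ 2 * (2 * r) := by
    have : ∫ x, ‖psi x‖ ≤ ∫ x, Set.indicator {x : T | ‖x - c‖ < r} (fun _ => (2 : ℝ)) x := by
      refine integral_mono hpL.integrable.norm
        ((integrable_const (2 : ℝ)).indicator hIm) fun x => ?_
      by_cases hx : ‖x - c‖ < r
      · rw [Set.indicator_of_mem (by exact hx)]; exact hb x
      · rw [Set.indicator_of_notMem (by exact hx), hs x (not_lt.1 hx)]; simp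
    refine this.trans (le_of_eq ?_)
    rw [integral_indicator hIm, setIntegral_const, ball_vol_eq c hr.le hr2, smul_eq_mul]
    ring
  have hind2 : ∫ x, ‖psi x‖ ^ 2 ≤ 4 * (2 * r) := by
    have : ∫ x, ‖psi x‖ ^ 2 ≤ ∫ x, Set.indicator {x : T | ‖x - c‖ < r} (fun _ => (4 : ℝ)) x := by
      refine integral_mono hpL.integrable_sq
        ((integrable_const (4 : ℝ)).indicator hIm) fun x => ?_
      by_cases hx : ‖x - c‖ < r
      · rw [Set.indicator_of_mem (by exact hx)]
        have := hb x
        have h1 := norm_nonneg (psi x)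
        simp only
        nlinarith
      · rw [Set.indicator_of_notMem (by exact hx), hs x (not_lt.1 hx)]; simp
    refine this.trans (le_of_eq ?_)
    rw [integral_indicator hIm, setIntegral_const, ball_vol_eq c hr.le hr2, smul_eq_mul]
    ring
  -- near part
  have hnear : ∫ x in {x : T | ‖x - c‖ < 2 * r}, ‖Pp psi x‖ ≤ 3 * (2 * r) := by
    have h1L : L2 (Set.indicator {x : T | ‖x - c‖ < 2 * r} (fun _ => (1 : ℂ))) :=
      MemLp.indicator hJm (memLp_const 1)
    have hcs := cs h1L (Pp_L2 psi)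
    have e1 : ∫ x, ‖Set.indicator {x : T | ‖x - c‖ < 2 * r} (fun _ => (1 : ℂ)) x‖ * ‖Pp psi x‖ =
        ∫ x in {x : T | ‖x - c‖ < 2 * r}, ‖Pp psi x‖ := by
      rw [← integral_indicator hJm]
      congr 1; ext x
      by_cases hx : ‖x - c‖ < 2 * r
      · rw [Set.indicator_of_mem (by exact hx), Set.indicator_of_mem (by exact hx)]; simp
      · rw [Set.indicator_of_notMem (by exact hx), Set.indicator_of_notMem (by exact hx)]; simp
    have e2 : ∫ x, ‖Set.indicator {x : T | ‖x - c‖ < 2 * r} (fun _ => (1 : ℂ)) x‖ ^ 2 ≤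
        2 * (2 * r) := by
      have : ∀ x, ‖Set.indicator {x : T | ‖x - c‖ < 2 * r} (fun _ => (1 : ℂ)) x‖ ^ 2 =
          Set.indicator {x : T | ‖x - c‖ < 2 * r} (fun _ => (1 : ℝ)) x := by
        intro x
        by_cases hx : ‖x - c‖ < 2 * r
        · rw [Set.indicator_of_mem (by exact hx), Set.indicator_of_mem (by exact hx)]; simp
        · rw [Set.indicator_of_notMem (by exact hx), Set.indicator_of_notMem (by exact hx)]; simp
      simp_rw [this]
      rw [integral_indicator hJm, setIntegral_const, smul_eq_mul, mul_one]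
      exact ball_vol c (by positivity)
    rw [e1] at hcs
    have e3 := Pp_norm_sq_le hpL
    refine hcs.trans ?_
    rw [← Real.sqrt_mul (integral_nonneg fun x => by positivity)]
    refine Real.sqrt_le_iff.2 ⟨by positivity, ?_⟩
    have e4 : 0 ≤ ∫ x, ‖Pp psi x‖ ^ 2 := integral_nonneg fun x => by positivity
    calc _ ≤ (2 * (2 * r)) * (4 * (2 * r)) := by
          refine mul_le_mul e2 (e3.trans hind2) e4 (by positivity)
      _ ≤ (3 * (2 * r)) ^ 2 := by nlinarith [sq_nonneg r]
  have hfar : C * (r / (2 * r)) * ∫ x, ‖psi x‖ ≤ C * (2 * r) := by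
    have : r / (2 * r) = 1 / 2 := by field_simp
    rw [this]
    have := mul_le_mul_of_nonneg_left hind1 hC
    linarith
  have := hoff1.trans hfar
  calc _ ≤ 3 * (2 * r) + C * (2 * r) := add_le_add hnear this
    _ = (C + 3) * (2 * r) := by ring

theorem osc_Pm : ∃ C : ℝ, 0 ≤ C ∧ ∀ (w : T → ℂ) (d : ℝ), L2 w → 0 ≤ d → DB w d →
    ∀ (c : T) (r : ℝ), 0 < r → r ≤ 1 / 2 →
      (∫ x in {x | ‖x - c‖ < r}, ‖(w x - Pp w x) -
        (2 * r : ℂ)⁻¹ * ∫ y in {x | ‖x - c‖ < r}, (w y - Pp w y)‖) ≤ C * d * (2 * r) := by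
  classical
  obtain ⟨C, hC, hat⟩ := BVMO1_atom
  refine ⟨C, hC, fun w d hw hd hD c r hr hr2 => ?_⟩
  have hIm := BVMO1_ball_meas c r
  have hvol := ball_vol_eq c hr.le hr2
  set I : Set T := {x | ‖x - c‖ < r} with hI
  -- measurable version
  obtain ⟨w', hw'm, hw'e⟩ := hw.1.aemeasurable
  have hw'L : L2 w' := hw.congr hw'e
  let u : T → ℂ := fun x => w' x - Pp w x
  have hum : Measurable u := hw'm.sub (Pp_measurable w)
  have huL : L2 u := hw'L.sub (Pp_L2 w)
  have hue : (fun x => w x - Pp w x) =ᵐ[volume] u := by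
    filter_upwards [hw'e] with x hx
    simp only [u, hx]
  have hmean : ∫ y in I, (w y - Pp w y) = ∫ y in I, u y :=
    setIntegral_congr_ae hIm (by filter_upwards [hue] with x hx _ using hx)
  rw [hmean]
  set a : ℂ := (2 * r : ℂ)⁻¹ * ∫ y in I, u y with ha
  have hmain : ∫ x in I, ‖(w x - Pp w x) - a‖ = ∫ x in I, ‖u x - a‖ :=
    setIntegral_congr_ae hIm (by filter_upwards [hue] with x hx _; rw [hx])
  rw [hmain]
  have h2r : (2 * r : ℂ) ≠ 0 := by
    have : (r : ℂ) ≠ 0 := by exact_mod_cast hr.ne'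
    simp [this]
  have hIa : ∫ x in I, (u x - a) = 0 := by
    rw [integral_sub huL.integrable.integrableOn (integrable_const _), setIntegral_const, hvol, ha]
    simp only [Complex.real_smul]
    push_cast
    rw [← mul_assoc, mul_inv_cancel₀ h2r, one_mul, sub_self]
  -- the sign function
  let p0 : T → ℂ := fun x => if x ∈ I then conj (u x - a) / (‖u x - a‖ : ℂ) else 0
  have hp0m : Measurable p0 := by
    refine Measurable.ite hIm ?_ measurable_const
    have h1 : Measurable (fun x => u x - a) := hum.sub_const a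
    exact (Complex.continuous_conj.measurable.comp h1).div
      (Complex.measurable_ofReal.comp h1.norm)
  have hp0b : ∀ x, ‖p0 x‖ ≤ 1 := by
    intro x
    by_cases hx : x ∈ I
    · simp only [p0, if_pos hx, norm_div, RCLike.norm_conj, Complex.norm_real, norm_norm]
      exact div_self_le_one _
    · simp [p0, hx]
  have hp0L : L2 p0 := BM.L2 ⟨hp0m, 1, hp0b⟩
  set mu : ℂ := (2 * r : ℂ)⁻¹ * ∫ x in I, p0 x with hmu
  have hmu1 : ‖mu‖ ≤ 1 := by
    have h1 : ‖∫ x in I, p0 x‖ ≤ 1 * volume.real I :=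
      norm_setIntegral_le_of_norm_le_const (measure_lt_top _ _) (fun x _ => hp0b x)
    rw [hvol, one_mul] at h1
    rw [hmu, norm_mul, norm_inv]
    have h2 : ‖(2 * r : ℂ)‖ = 2 * r := by
      rw [norm_mul, Complex.norm_real, Real.norm_eq_abs, abs_of_pos hr]; simp
    rw [h2, inv_mul_le_iff₀ (by positivity)]
    linarith
  let psi : T → ℂ := fun x => p0 x - Set.indicator I (fun _ => mu) x
  have hpsim : Measurable psi := hp0m.sub (measurable_const.indicator hIm)
  have hpsib : ∀ x, ‖psi x‖ ≤ 2 := by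
    intro x
    refine (norm_sub_le _ _).trans ?_
    have h1 := hp0b x
    have h2 : ‖Set.indicator I (fun _ => mu) x‖ ≤ 1 := by
      by_cases hx : x ∈ I
      · rw [Set.indicator_of_mem hx]; exact hmu1
      · rw [Set.indicator_of_notMem hx]; simp
    linarith
  have hpsiB : BM psi := ⟨hpsim, 2, hpsib⟩
  have hpsi0 : ∀ x, r ≤ ‖x - c‖ → psi x = 0 := by
    intro x hx
    have hxI : x ∉ I := by simp only [hI, Set.mem_ofPred_eq, not_lt]; exact hx
    simp [psi, p0, hxI]
  have hp0I : ∫ x, p0 x = ∫ x in I, p0 x := by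
    rw [← integral_indicator hIm]
    congr 1; ext x
    by_cases hx : x ∈ I
    · rw [Set.indicator_of_mem hx]
    · rw [Set.indicator_of_notMem hx]; simp [p0, hx]
  have hindL : Integrable (Set.indicator I (fun _ : T => mu)) :=
    (integrable_const mu).indicator hIm
  have hpsii : ∫ x, psi x = 0 := by
    simp only [psi]
    rw [integral_sub hp0L.integrable hindL, hp0I, integral_indicator hIm, setIntegral_const, hvol,
      hmu]
    simp only [Complex.real_smul]
    push_cast
    rw [← mul_assoc, mul_inv_cancel₀ h2r, one_mul, sub_self]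
  -- the identity
  have hid : ((∫ x in I, ‖u x - a‖ : ℝ) : ℂ) = ∫ x, u x * psi x := by
    have e1 : ((∫ x in I, ‖u x - a‖ : ℝ) : ℂ) = ∫ x, (u x - a) * p0 x := by
      rw [← integral_complex_ofReal, ← integral_indicator hIm]
      congr 1; ext x
      by_cases hx : x ∈ I
      · rw [Set.indicator_of_mem hx]
        simp only [p0, if_pos hx]
        by_cases hz : u x - a = 0
        · simp [hz]
        · have hn : (‖u x - a‖ : ℂ) ≠ 0 := by
            exact_mod_cast (norm_ne_zero_iff.2 hz)
          rw [← mul_div_assoc, Complex.mul_conj, Complex.normSq_eq_norm_sq, eq_div_iff hn]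
          push_cast; ring
      · rw [Set.indicator_of_notMem hx]; simp [p0, hx]
    have e2 : ∫ x, (u x - a) * p0 x = (∫ x, (u x - a) * psi x) +
        ∫ x, mu * Set.indicator I (fun x => u x - a) x := by
      have hi1 : Integrable (fun x => (u x - a) * psi x) :=
        (huL.sub (memLp_const a)).integrable_mul hpsiB.L2
      have hi2 : Integrable (fun x => mu * Set.indicator I (fun x => u x - a) x) := by
        refine Integrable.const_mul ?_ mu
        exact ((huL.sub (memLp_const a)).integrable).indicator hIm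
      rw [← integral_add hi1 hi2]
      congr 1; ext x
      by_cases hx : x ∈ I
      · simp only [psi, Set.indicator_of_mem hx]; ring
      · simp only [psi, Set.indicator_of_notMem hx]; ring
    have e3 : ∫ x, mu * Set.indicator I (fun x => u x - a) x = 0 := by
      rw [integral_const_mul, integral_indicator hIm, hIa, mul_zero]
    have e4 : ∫ x, (u x - a) * psi x = ∫ x, u x * psi x := by
      have hi1 : Integrable (fun x => u x * psi x) := huL.integrable_mul hpsiB.L2
      have hi2 : Integrable (fun x => a * psi x) := hpsiB.L2.integrable.const_mul a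
      have : ∀ x, (u x - a) * psi x = u x * psi x - a * psi x := fun x => by ring
      simp_rw [this]
      rw [integral_sub hi1 hi2, integral_const_mul, hpsii, mul_zero, sub_zero]
    rw [e1, e2, e3, add_zero, e4]
  have hnn : 0 ≤ ∫ x in I, ‖u x - a‖ := integral_nonneg fun x => norm_nonneg _
  have hnorm : ∫ x in I, ‖u x - a‖ = ‖∫ x, u x * psi x‖ := by
    rw [← hid, Complex.norm_real, Real.norm_eq_abs, abs_of_nonneg hnn]
  rw [hnorm]
  have hu2 : ∫ x, u x * psi x = ∫ x, (w x - Pp w x) * psi x := by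
    refine integral_congr_ae ?_
    filter_upwards [hue] with x hx
    rw [hx]
  obtain ⟨hdual, hAn⟩ := BVMO1_dual hw hpsiB.L2 hpsii
  rw [hu2, hdual]
  refine (hD _ hAn).trans ?_
  have hA := hat c r psi hr hr2 hpsiB hpsi0 hpsib hpsii
  calc d * ∫ x, ‖Pp psi x‖ ≤ d * (C * (2 * r)) := mul_le_mul_of_nonneg_left hA hd
    _ = C * d * (2 * r) := by ring

end CH.B
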