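import Mathlib
import Pool.Agent.CH.Defs

open MeasureTheory Complex
open scoped ComplexConjugate

namespace CH

/-! ### Definitions for the tree lemma -/

/-- equal or neighbouring indices modulo `2 ^ r` -/
def nb (r : ℕ) (i j : ℕ) : Prop :=
  (i + 1) % 2 ^ r = j % 2 ^ r ∨ i % 2 ^ r = j % 2 ^ r ∨ (j + 1) % 2 ^ r = i % 2 ^ r

/-- the interval `D r i` is good: no tile of `TT` of level `>= r` has its time interval in `D r i` or one
of its neighbours -/
def good (TT : Finset Tile) (r i : ℕ) : Prop :=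
  ∀ P ∈ TT, r ≤ P.s → ¬ nb r (P.n / 2 ^ (P.s - r)) i

theorem exists_good (TT : Finset Tile) (x : T) : ∃ r, good TT r (idx r x) := by
  refine ⟨TT.sup Tile.s + 1, fun P hP h => ?_⟩
  have : P.s ≤ TT.sup Tile.s := Finset.le_sup (f := Tile.s) hP
  omega

open Classical in
/-- the level of the maximal good interval containing `x` -/
noncomputable def rr (TT : Finset Tile) (x : T) : ℕ := Nat.find (exists_good TT x)

/-- truncated centred maximal function of a nonnegative function -/
noncomputable def MK (K : ℕ) (F : T → ℝ) (y : T) : ℝ :=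
  (Finset.range (K + 1)).sup' ⟨0, by simp⟩ (fun k => 2 ^ k * ∫ z in {z | ‖y - z‖ < 1 / 2 ^ k}, F z)

/-- the bad set: at `x` some tile of a level `<= rr x - 2` is active -/
def QT (TT : Finset Tile) (N : T → ℤ) : Set T := {x | ∃ P ∈ TT, P.s + 2 ≤ rr TT x ∧ P.inJ (N x)}

/-- hypotheses on a tree in one residue class of levels -/
structure IsTree (TT : Finset Tile) (t : ℕ × ℕ × ℤ) (r : ℕ) : Prop where
  top : t.2.1 < 2 ^ t.1
  ok : ∀ P ∈ TT, P.ok
  cls : ∀ P ∈ TT, P.s % 4 = r
  tr : ∀ P ∈ TT, inTree t P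

/-- the dyadic average of level `l` -/
noncomputable def Eav (l : ℕ) (F : T → ℝ) (x : T) : ℝ := 2 ^ l * ∫ z in {z | idx l z = idx l x}, F z

end CH
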