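import Mathlib
import Pool.Agent.CH.AGeo
import Pool.Agent.CH.TDefs

/-!
CH-TDoob. The dyadic maximal inequality, by the pathwise Doob inequality.
-/

open MeasureTheory

namespace CH

private theorem TDoob_sup_succ (x : ℕ → ℝ) (n : ℕ) :
    (Finset.range (n + 1 + 1)).sup' ⟨0, by simp⟩ x =
      max ((Finset.range (n + 1)).sup' ⟨0, by simp⟩ x) (x (n + 1)) := by
  apply le_antisymm
  · refine Finset.sup'_le _ _ fun b hb => ?_
    rw [Finset.mem_range] at hb
    rcases Nat.lt_succ_iff_lt_or_eq.1 hb with h | h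
    · exact (Finset.le_sup' x (Finset.mem_range.2 h)).trans (le_max_left _ _)
    · rw [h]; exact le_max_right _ _
  · refine max_le ?_ ?_
    · refine Finset.sup'_le _ _ fun b hb => ?_
      rw [Finset.mem_range] at hb
      exact Finset.le_sup' x (Finset.mem_range.2 (by omega))
    · exact Finset.le_sup' x (Finset.mem_range.2 (by omega))

private theorem TDoob_path0 (x : ℕ → ℝ) (n : ℕ) :
    ∑ k ∈ Finset.range n, ((Finset.range (k + 1)).sup' ⟨0, by simp⟩ x) * (x (k + 1) - x k) ≤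
      ((Finset.range (n + 1)).sup' ⟨0, by simp⟩ x) * x n -
        ((Finset.range (n + 1)).sup' ⟨0, by simp⟩ x) ^ 2 / 2 := by
  induction n with
  | zero =>
    simp only [Finset.range_zero, Finset.sum_empty, zero_add, Finset.range_one, Finset.sup'_singleton]
    nlinarith [sq_nonneg (x 0)]
  | succ n ih =>
    rw [Finset.sum_range_succ, TDoob_sup_succ]
    set M := (Finset.range (n + 1)).sup' ⟨0, by simp⟩ x with hM
    rcases le_total (x (n + 1)) M with h | h
    · rw [max_eq_left h]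
      nlinarith
    · rw [max_eq_right h]
      nlinarith [sq_nonneg (x (n + 1) - M)]

theorem doob_path (x : ℕ → ℝ) (n : ℕ) :
    ((Finset.range (n + 1)).sup' ⟨0, by simp⟩ x) ^ 2 ≤ 4 * x n ^ 2 -
      4 * ∑ k ∈ Finset.range n, ((Finset.range (k + 1)).sup' ⟨0, by simp⟩ x) * (x (k + 1) - x k) := by
  have h := TDoob_path0 x n
  set M := (Finset.range (n + 1)).sup' ⟨0, by simp⟩ x with hM
  nlinarith [sq_nonneg (2 * x n - M)]

private noncomputable def TDoob_psi (l : ℕ) (F : T → ℝ) (i : ℕ) : ℝ := 2 ^ l * ∫ z in D l i, F z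

private theorem TDoob_Eav (l : ℕ) (F : T → ℝ) (x : T) : Eav l F x = TDoob_psi l F (idx l x) := rfl

private theorem TDoob_phi_meas (l : ℕ) (phi : ℕ → ℝ) : Measurable (fun x => phi (idx l x)) :=
  (measurable_from_top (f := phi)).comp (measurable_idx l)

private theorem TDoob_phi_bdd (l : ℕ) (phi : ℕ → ℝ) :
    ∀ x, |phi (idx l x)| ≤ ∑ i ∈ Finset.range (2 ^ l), |phi i| := by
  intro x
  exact Finset.single_le_sum (f := fun i => |phi i|) (fun i _ => abs_nonneg _)
    (Finset.mem_range.2 (idx_lt l x))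

private theorem TDoob_int {G : T → ℝ} (hG : Measurable G) {C : ℝ} (h : ∀ x, |G x| ≤ C) :
    Integrable G := by
  refine Integrable.of_bound hG.aestronglyMeasurable C (ae_of_all _ fun x => ?_)
  rw [Real.norm_eq_abs]; exact h x

private theorem TDoob_split (l : ℕ) {G : T → ℝ} (hG : Integrable G) :
    ∫ x, G x = ∑ i ∈ Finset.range (2 ^ l), ∫ x in D l i, G x := by
  rw [← integral_biUnion_finset (Finset.range (2 ^ l)) (fun i _ => measurableSet_D l i)
    (fun i _ j _ hij => disjoint_D hij) (fun i _ => hG.integrableOn)]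
  have : (⋃ i ∈ Finset.range (2 ^ l), D l i) = Set.univ := by
    ext x
    simp only [Set.mem_iUnion, Set.mem_univ, iff_true]
    exact ⟨idx l x, Finset.mem_range.2 (idx_lt l x), mem_D_idx l x⟩
  rw [this, setIntegral_univ]

theorem Eav_meas (l : ℕ) (F : T → ℝ) : Measurable (Eav l F) :=
  TDoob_phi_meas l (TDoob_psi l F)

theorem Eav_bdd (l : ℕ) (F : T → ℝ) (hF : Measurable F) (B : ℝ) (h : ∀ x, |F x| ≤ B) (x : T) :
    |Eav l F x| ≤ B := by
  have _ := hF
  rw [TDoob_Eav, TDoob_psi, abs_mul, abs_of_pos (by positivity : (0 : ℝ) < 2 ^ l)]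
  have h1 : ‖∫ z in D l (idx l x), F z‖ ≤ B * volume.real (D l (idx l x)) := by
    refine norm_setIntegral_le_of_norm_le_const (measure_lt_top _ _) ?_
    intro z _
    rw [Real.norm_eq_abs]; exact h z
  rw [volume_real_D (idx_lt l x), Real.norm_eq_abs] at h1
  calc 2 ^ l * |∫ z in D l (idx l x), F z| ≤ 2 ^ l * (B * (1 / 2 ^ l)) :=
        mul_le_mul_of_nonneg_left h1 (by positivity)
    _ = B := by field_simp

theorem Eav_integral (l l' : ℕ) (hl : l ≤ l') (F : T → ℝ) (hF : Measurable F) (B : ℝ)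
    (h : ∀ x, |F x| ≤ B) (phi : ℕ → ℝ) :
    ∫ x, phi (idx l x) * Eav l' F x = ∫ x, phi (idx l x) * F x := by
  set S := ∑ i ∈ Finset.range (2 ^ l), |phi i| with hS
  have hphi := TDoob_phi_meas l phi
  have hphib := TDoob_phi_bdd l phi
  have hS0 : 0 ≤ S := Finset.sum_nonneg fun i _ => abs_nonneg _
  have i1 : Integrable (fun x => phi (idx l x) * Eav l' F x) := by
    refine TDoob_int (hphi.mul (Eav_meas l' F)) (C := S * B) fun x => ?_
    rw [abs_mul]
    exact mul_le_mul (hphib x) (Eav_bdd l' F hF B h x) (abs_nonneg _) hS0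
  have i2 : Integrable (fun x => phi (idx l x) * F x) := by
    refine TDoob_int (hphi.mul hF) (C := S * B) fun x => ?_
    rw [abs_mul]
    exact mul_le_mul (hphib x) (h x) (abs_nonneg _) hS0
  rw [TDoob_split l' i1, TDoob_split l' i2]
  refine Finset.sum_congr rfl fun i hi => ?_
  rw [Finset.mem_range] at hi
  have c1 : ∀ x ∈ D l' i, idx l x = i / 2 ^ (l' - l) := by
    intro x hx
    have hx' : idx l' x = i := hx
    rw [← hx', idx_div' hl]
  have e1 : ∫ x in D l' i, phi (idx l x) * Eav l' F x =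
      ∫ _ in D l' i, phi (i / 2 ^ (l' - l)) * TDoob_psi l' F i := by
    refine setIntegral_congr_fun (measurableSet_D l' i) fun x hx => ?_
    have hx' : idx l' x = i := hx
    simp only [TDoob_Eav]
    rw [c1 x hx, hx']
  have e2 : ∫ x in D l' i, phi (idx l x) * F x =
      ∫ x in D l' i, phi (i / 2 ^ (l' - l)) * F x := by
    refine setIntegral_congr_fun (measurableSet_D l' i) fun x hx => ?_
    show phi (idx l x) * F x = phi (i / 2 ^ (l' - l)) * F x
    rw [c1 x hx]
  rw [e1, e2, setIntegral_const, integral_const_mul, volume_real_D hi, TDoob_psi, smul_eq_mul]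
  field_simp

theorem Eav_sq (l : ℕ) (F : T → ℝ) (hF : Measurable F) (B : ℝ) (h : ∀ x, |F x| ≤ B) :
    ∫ x, Eav l F x ^ 2 ≤ ∫ x, F x ^ 2 := by
  have h1 := Eav_integral l l le_rfl F hF B h (TDoob_psi l F)
  have e0 : ∀ x, TDoob_psi l F (idx l x) = Eav l F x := fun x => rfl
  simp only [e0] at h1
  have hB : 0 ≤ B := (abs_nonneg _).trans (h 0)
  have i1 : Integrable (fun x => Eav l F x ^ 2) := by
    refine TDoob_int ((Eav_meas l F).pow_const 2) (C := B ^ 2) fun x => ?_
    rw [abs_pow]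
    exact pow_le_pow_left₀ (abs_nonneg _) (Eav_bdd l F hF B h x) 2
  have i2 : Integrable (fun x => F x ^ 2) := by
    refine TDoob_int (hF.pow_const 2) (C := B ^ 2) fun x => ?_
    rw [abs_pow]
    exact pow_le_pow_left₀ (abs_nonneg _) (h x) 2
  have i3 : Integrable (fun x => Eav l F x * F x) := by
    refine TDoob_int ((Eav_meas l F).mul hF) (C := B * B) fun x => ?_
    rw [abs_mul]
    exact mul_le_mul (Eav_bdd l F hF B h x) (h x) (abs_nonneg _) hB
  have e1 : ∫ x, (F x - Eav l F x) ^ 2 =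
      (∫ x, F x ^ 2) - 2 * (∫ x, Eav l F x * F x) + ∫ x, Eav l F x ^ 2 := by
    have i4 : Integrable (fun x => F x ^ 2 - 2 * (Eav l F x * F x)) := i2.sub (i3.const_mul 2)
    rw [← integral_const_mul, ← integral_sub i2 (i3.const_mul 2), ← integral_add i4 i1]
    congr 1; ext x; ring
  have e2 : ∫ x, Eav l F x * Eav l F x = ∫ x, Eav l F x ^ 2 := by
    congr 1; ext x; ring
  have h2 : 0 ≤ ∫ x, (F x - Eav l F x) ^ 2 := integral_nonneg fun x => sq_nonneg _
  rw [e1, ← h1, e2] at h2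
  linarith

/-- the running maximum as a function of the index -/
private noncomputable def TDoob_M (k : ℕ) (F : T → ℝ) (i : ℕ) : ℝ :=
  (Finset.range (k + 1)).sup' ⟨0, by simp⟩ (fun j => TDoob_psi j F (i / 2 ^ (k - j)))

private theorem TDoob_M_eq (k : ℕ) (F : T → ℝ) (x : T) :
    (Finset.range (k + 1)).sup' ⟨0, by simp⟩ (fun j => Eav j F x) = TDoob_M k F (idx k x) := by
  unfold TDoob_M
  refine Finset.sup'_congr _ rfl fun j hj => ?_
  rw [Finset.mem_range] at hj
  rw [TDoob_Eav, idx_div' (by omega : j ≤ k)]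

private theorem TDoob_phi_int (k : ℕ) (phi : ℕ → ℝ) {G : T → ℝ} (hG : Measurable G) {B : ℝ}
    (hB : ∀ x, |G x| ≤ B) : Integrable (fun x => phi (idx k x) * G x) := by
  refine TDoob_int ((TDoob_phi_meas k phi).mul hG)
    (C := (∑ i ∈ Finset.range (2 ^ k), |phi i|) * B) fun x => ?_
  rw [abs_mul]
  exact mul_le_mul (TDoob_phi_bdd k phi x) (hB x) (abs_nonneg _)
    (Finset.sum_nonneg fun i _ => abs_nonneg _)

private theorem TDoob_phi_int2 (k : ℕ) (phi : ℕ → ℝ) : Integrable (fun x => phi (idx k x) ^ 2) := by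
  refine TDoob_int ((TDoob_phi_meas k phi).pow_const 2)
    (C := (∑ i ∈ Finset.range (2 ^ k), |phi i|) ^ 2) fun x => ?_
  rw [abs_pow]
  exact pow_le_pow_left₀ (abs_nonneg _) (TDoob_phi_bdd k phi x) 2

private theorem TDoob_core (n : ℕ) (F : T → ℝ) (hF : Measurable F) (B : ℝ) (h : ∀ x, |F x| ≤ B)
    (phi : ℕ → ℕ → ℝ) (key : ∀ x, phi n (idx n x) ^ 2 ≤ 4 * Eav n F x ^ 2 -
      4 * ∑ k ∈ Finset.range n, phi k (idx k x) * (Eav (k + 1) F x - Eav k F x)) :
    ∫ x, phi n (idx n x) ^ 2 ≤ 4 * ∫ x, F x ^ 2 := by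
  have iM : ∀ k l, Integrable (fun x => phi k (idx k x) * Eav l F x) := fun k l =>
    TDoob_phi_int k (phi k) (Eav_meas l F) (Eav_bdd l F hF B h)
  have iM2 : Integrable (fun x => phi n (idx n x) ^ 2) := TDoob_phi_int2 n (phi n)
  have iE : Integrable (fun x => Eav n F x ^ 2) := by
    refine TDoob_int ((Eav_meas n F).pow_const 2) (C := B ^ 2) fun x => ?_
    rw [abs_pow]
    exact pow_le_pow_left₀ (abs_nonneg _) (Eav_bdd n F hF B h x) 2
  have iS : ∀ k, Integrable (fun x => phi k (idx k x) * (Eav (k + 1) F x - Eav k F x)) := by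
    intro k
    refine ((iM k (k + 1)).sub (iM k k)).congr (ae_of_all _ fun x => ?_)
    simp only [Pi.sub_apply]; ring
  have z : ∀ k, ∫ x, phi k (idx k x) * (Eav (k + 1) F x - Eav k F x) = 0 := by
    intro k
    have e1 : ∫ x, phi k (idx k x) * (Eav (k + 1) F x - Eav k F x) =
        (∫ x, phi k (idx k x) * Eav (k + 1) F x) - ∫ x, phi k (idx k x) * Eav k F x := by
      rw [← integral_sub (iM k (k + 1)) (iM k k)]
      congr 1; ext x; ring
    rw [e1, Eav_integral k (k + 1) (by omega) F hF B h, Eav_integral k k le_rfl F hF B h, sub_self]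
  have i4 : Integrable (fun x => ∑ k ∈ Finset.range n, phi k (idx k x) *
      (Eav (k + 1) F x - Eav k F x)) := integrable_finsetSum _ fun k _ => iS k
  have h1 : ∫ x, phi n (idx n x) ^ 2 ≤ ∫ x, (4 * Eav n F x ^ 2 -
      4 * ∑ k ∈ Finset.range n, phi k (idx k x) * (Eav (k + 1) F x - Eav k F x)) :=
    integral_mono iM2 ((iE.const_mul 4).sub (i4.const_mul 4)) key
  have h2 : ∫ x, (4 * Eav n F x ^ 2 -
      4 * ∑ k ∈ Finset.range n, phi k (idx k x) * (Eav (k + 1) F x - Eav k F x)) =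
      4 * ∫ x, Eav n F x ^ 2 := by
    rw [integral_sub (iE.const_mul 4) (i4.const_mul 4), integral_const_mul, integral_const_mul,
      integral_finsetSum _ fun k _ => iS k]
    simp only [z, Finset.sum_const_zero, mul_zero, sub_zero]
  rw [h2] at h1
  exact h1.trans (mul_le_mul_of_nonneg_left (Eav_sq n F hF B h) (by norm_num))

theorem doob (n : ℕ) (F : T → ℝ) (hF : Measurable F) (B : ℝ) (h : ∀ x, |F x| ≤ B) :
    ∫ x, ((Finset.range (n + 1)).sup' ⟨0, by simp⟩ (fun k => Eav k F x)) ^ 2 ≤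
      4 * ∫ x, F x ^ 2 := by
  have h1 := TDoob_core n F hF B h (fun k => TDoob_M k F) (fun x => by
    have h2 := doob_path (fun k => Eav k F x) n
    rw [TDoob_M_eq] at h2
    have h3 : ∀ k, (Finset.range (k + 1)).sup' ⟨0, by simp⟩ (fun j => Eav j F x) *
        (Eav (k + 1) F x - Eav k F x) = TDoob_M k F (idx k x) * (Eav (k + 1) F x - Eav k F x) :=
      fun k => by rw [TDoob_M_eq]
    rw [Finset.sum_congr rfl fun k _ => h3 k] at h2
    exact h2)
  have h4 : ∫ x, ((Finset.range (n + 1)).sup' ⟨0, by simp⟩ (fun k => Eav k F x)) ^ 2 =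
      ∫ x, TDoob_M n F (idx n x) ^ 2 := by
    congr 1; ext x; rw [TDoob_M_eq]
  rw [h4]
  exact h1

end CH
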