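import Mathlib
import Pool.Agent.CH.AGeo
import Pool.Agent.CH.TDoob

/-!
CH-TMax. The centred maximal function. Let `F >= 0`, `sh = (1/3 : ℝ)` as a point of the circle, `F' z = F (z + sh)`.
* `two_grids`: for `k >= 3`, `l = k - 3` and every `y`: the ball `{z | ||y-z|| < 2^-k}` is contained in `{z | idx l z = idx l y}` or in
  `{z | idx l (z - sh) = idx l (y - sh)}`. Proof: if not, an endpoint `n/2^l` and a point `m/2^l + 1/3` (mod 1) both have distance
  `< 2^-k` from `y` (moving from `y` to `z` along the short arc one crosses an endpoint), so `||n/2^l - m/2^l - 1/3|| < 2^(1-k) = 2^-l / 4`,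
  but `|n/2^l - m/2^l - 1/3 - j| = 2^-l |n - m - j 2^l - 2^l/3| >= 2^-l / 3` since `2^l` is not divisible by 3.
* so `2^k int_{ball} F <= 8 Eav l F y` or `<= 8 Eav l F' (y - sh)` (`int_{idx l (z-sh) = idx l (y-sh)} F = int_{idx l w = idx l (y-sh)} F (w+sh)`,
  translation invariance); for `k < 3`: `2^k int_{ball} F <= 4 int F = 4 Eav 0 F y`.
* so `MK K F y ^2 <= 64 (M F y ^2 + M F' (y-sh) ^2)` (`M` the dyadic maximal function up to level `K`), integrate: `<= 512 int F^2`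
  (`doob`, translation invariance).
* `MK_meas`: `y -> int 1_{||y-z|| < d} F z dz` is measurable (`Measurable ... StronglyMeasurable.integral_prod_right`).
-/

open MeasureTheory

namespace CH

theorem TMax_slice_meas (d : ℝ) (F : T → ℝ) (hF : Measurable F) :
    Measurable (fun y : T => ∫ z in {z | ‖y - z‖ < d}, F z) := by
  have h1 : MeasurableSet {p : T × T | ‖p.1 - p.2‖ < d} :=
    measurableSet_lt (by fun_prop) measurable_const
  have h2 : StronglyMeasurable (Function.uncurry fun y z : T =>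
      Set.indicator {p : T × T | ‖p.1 - p.2‖ < d} (fun p => F p.2) (y, z)) := by
    have : Measurable (Set.indicator {p : T × T | ‖p.1 - p.2‖ < d} (fun p : T × T => F p.2)) :=
      (hF.comp measurable_snd).indicator h1
    exact this.stronglyMeasurable
  have h3 := (h2.integral_prod_right (ν := (volume : Measure T))).measurable
  convert h3 using 2 with y
  have h4 : MeasurableSet {z : T | ‖y - z‖ < d} :=
    measurableSet_lt (by fun_prop) measurable_const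
  rw [← integral_indicator h4]
  congr 1

theorem MK_meas (K : ℕ) (F : T → ℝ) (hF : Measurable F) : Measurable (MK K F) := by
  have h := Finset.measurable_range_sup'' (n := K)
    (f := fun (k : ℕ) (y : T) => 2 ^ k * ∫ z in {z | ‖y - z‖ < 1 / 2 ^ k}, F z)
    (fun k _ => (TMax_slice_meas (1 / 2 ^ k) F hF).const_mul (2 ^ k))
  exact h

theorem le_MK (K k : ℕ) (hk : k ≤ K) (F : T → ℝ) (y : T) :
    2 ^ k * ∫ z in {z | ‖y - z‖ < 1 / 2 ^ k}, F z ≤ MK K F y := by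
  unfold MK
  exact Finset.le_sup' (fun k => 2 ^ k * ∫ z in {z | ‖y - z‖ < 1 / 2 ^ k}, F z)
    (Finset.mem_range.2 (by omega))

theorem MK_nonneg (K : ℕ) (F : T → ℝ) (h : ∀ x, 0 ≤ F x) (y : T) : 0 ≤ MK K F y := by
  refine le_trans ?_ (le_MK K 0 (Nat.zero_le _) F y)
  exact mul_nonneg (by positivity) (integral_nonneg fun x => h x)

theorem MK_bdd (K : ℕ) (F : T → ℝ) (hF : Measurable F) (B : ℝ) (h0 : ∀ x, 0 ≤ F x)
    (h : ∀ x, F x ≤ B) (y : T) : MK K F y ≤ 2 ^ K * B := by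
  have hB : 0 ≤ B := (h0 0).trans (h 0)
  have hFi : Integrable F :=
    Integrable.of_bound hF.aestronglyMeasurable B (ae_of_all _ fun x => by
      rw [Real.norm_eq_abs, abs_of_nonneg (h0 x)]; exact h x)
  unfold MK
  refine Finset.sup'_le _ _ fun k hk => ?_
  have hk' : k ≤ K := by have := Finset.mem_range.1 hk; omega
  have h1 : ∫ z in {z | ‖y - z‖ < 1 / 2 ^ k}, F z ≤ B := by
    calc ∫ z in {z | ‖y - z‖ < 1 / 2 ^ k}, F z ≤ ∫ z, F z :=
          setIntegral_le_integral hFi (ae_of_all _ h0)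
      _ ≤ ∫ _ : T, B := integral_mono hFi (integrable_const _) h
      _ = B := by simp
  have h2 : 0 ≤ ∫ z in {z | ‖y - z‖ < 1 / 2 ^ k}, F z := integral_nonneg fun x => h0 x
  exact mul_le_mul (pow_le_pow_right₀ (by norm_num) hk') h1 h2 (by positivity)

/-- crossing a dyadic endpoint -/
theorem TMax_cross (l : ℕ) (y z : T) (δ : ℝ) (h : ‖y - z‖ < δ) (hi : idx l z ≠ idx l y) :
    ∃ n : ℤ, ‖y - ((n / 2 ^ l : ℝ) : T)‖ < δ := by
  have hp : (0 : ℝ) < 2 ^ l := by positivity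
  -- real representatives
  obtain ⟨t, ht, ht2⟩ : ∃ t : ℝ, ((t : ℝ) : T) = y - z ∧ |t| < δ := by
    let t0 : ℝ := rep (y - z)
    refine ⟨t0 - round t0, ?_, ?_⟩
    · have e1 : ((t0 : ℝ) : T) = y - z := coe_rep _
      rw [AddCircle.coe_sub, e1]
      have : ((round t0 : ℝ) : T) = 0 := by
        have := (AddCircle.coe_eq_zero_iff (p := (1 : ℝ)) (x := (round t0 : ℝ))).2
          ⟨round t0, by simp⟩
        exact this
      rw [this, sub_zero]
    · have e1 : ((t0 : ℝ) : T) = y - z := coe_rep _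
      rw [← e1, UnitAddCircle.norm_eq] at h
      exact h
  set a : ℝ := rep y with ha
  have hay : ((a : ℝ) : T) = y := coe_rep y
  have ha0 : 0 ≤ a := rep_nonneg y
  have ha1 : a < 1 := rep_lt_one y
  set b : ℝ := a - t with hb
  have hbz : ((b : ℝ) : T) = z := by
    rw [hb, AddCircle.coe_sub, hay, ht]; abel
  have key : ∀ n : ℤ, |a - n / 2 ^ l| < δ → ‖y - ((n / 2 ^ l : ℝ) : T)‖ < δ := by
    intro n hn
    rw [← hay, ← AddCircle.coe_sub]
    refine lt_of_le_of_lt ?_ hn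
    rw [UnitAddCircle.norm_eq]
    have := round_le (a - n / 2 ^ l) 0
    simpa using this
  have hfl : ⌊2 ^ l * a⌋ ≠ ⌊2 ^ l * b⌋ := by
    intro hf
    apply hi
    have h1 : (0 : ℤ) ≤ ⌊2 ^ l * a⌋ := Int.floor_nonneg.2 (by positivity)
    have h2 : ⌊2 ^ l * a⌋ < (2 : ℤ) ^ l := by
      rw [Int.floor_lt]; push_cast
      nlinarith
    have hb0 : 0 ≤ b := by
      have : (0 : ℤ) ≤ ⌊2 ^ l * b⌋ := hf ▸ h1
      have := Int.floor_nonneg.1 this
      exact nonneg_of_mul_nonneg_right this hp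
    have hb1 : b < 1 := by
      have h3 : ⌊2 ^ l * b⌋ < (2 : ℤ) ^ l := hf ▸ h2
      rw [Int.floor_lt] at h3; push_cast at h3
      by_contra hc
      push Not at hc
      nlinarith
    have hrz : rep z = b := by rw [← hbz]; exact rep_of_mem _ hb0 hb1
    unfold idx
    rw [hrz, ← ha]
    have e1 := hf
    have e2 : ⌊(2 : ℝ) ^ l * a⌋.toNat = ⌊(2 : ℝ) ^ l * b⌋.toNat := by rw [e1]
    rw [Int.floor_toNat, Int.floor_toNat] at e2
    exact e2.symm
  rcases lt_or_gt_of_ne hfl with hlt | hgt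
  · -- floor a < floor b
    refine ⟨⌊2 ^ l * b⌋, key _ ?_⟩
    have h1 : (2 : ℝ) ^ l * a < (⌊2 ^ l * b⌋ : ℤ) := Int.floor_lt.1 hlt
    have h2 : ((⌊2 ^ l * b⌋ : ℤ) : ℝ) ≤ 2 ^ l * b := Int.floor_le _
    have h3 : a < (⌊2 ^ l * b⌋ : ℤ) / 2 ^ l := by rw [lt_div_iff₀ hp]; linarith
    have h4 : ((⌊2 ^ l * b⌋ : ℤ) : ℝ) / 2 ^ l ≤ b := by rw [div_le_iff₀ hp]; linarith
    rw [abs_lt] at ht2 ⊢
    constructor
    · have : -t < δ := by linarith [ht2.1]
      linarith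
    · have : 0 < δ := by linarith [ht2.1, ht2.2]
      linarith
  · refine ⟨⌊2 ^ l * a⌋, key _ ?_⟩
    have h1 : (2 : ℝ) ^ l * b < (⌊2 ^ l * a⌋ : ℤ) := Int.floor_lt.1 hgt
    have h2 : ((⌊2 ^ l * a⌋ : ℤ) : ℝ) ≤ 2 ^ l * a := Int.floor_le _
    have h3 : b < (⌊2 ^ l * a⌋ : ℤ) / 2 ^ l := by rw [lt_div_iff₀ hp]; linarith
    have h4 : ((⌊2 ^ l * a⌋ : ℤ) : ℝ) / 2 ^ l ≤ a := by rw [div_le_iff₀ hp]; linarith
    rw [abs_lt] at ht2 ⊢
    constructor
    · have : 0 < δ := by linarith [ht2.1, ht2.2]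
      linarith
    · linarith [ht2.2]

/-- the shift by one third -/
noncomputable def TMax_sh : T := ((1 / 3 : ℝ) : T)

theorem TMax_sep (l : ℕ) (n m : ℤ) :
    1 / (3 * 2 ^ l) ≤ ‖((n / 2 ^ l : ℝ) : T) - ((m / 2 ^ l : ℝ) : T) - TMax_sh‖ := by
  unfold TMax_sh
  rw [← AddCircle.coe_sub, ← AddCircle.coe_sub, UnitAddCircle.norm_eq]
  set j := round ((n / 2 ^ l : ℝ) - m / 2 ^ l - 1 / 3) with hj
  have hp : (0 : ℝ) < 2 ^ l := by positivity
  have hne : (3 * (n - m) - 2 ^ l - 3 * 2 ^ l * j : ℤ) ≠ 0 := by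
    intro h0
    have h1 : (3 : ℤ) ∣ 2 ^ l := ⟨(n - m) - 2 ^ l * j, by linarith⟩
    have h2 : (3 : ℕ) ∣ 2 ^ l := by exact_mod_cast h1
    have h3 := (Nat.prime_three).dvd_of_dvd_pow h2
    omega
  have h1 : (1 : ℝ) ≤ |((3 * (n - m) - 2 ^ l - 3 * 2 ^ l * j : ℤ) : ℝ)| := by
    have := Int.one_le_abs hne
    exact_mod_cast this
  have h2 : (n / 2 ^ l - m / 2 ^ l - 1 / 3 - j : ℝ) =
      ((3 * (n - m) - 2 ^ l - 3 * 2 ^ l * j : ℤ) : ℝ) / (3 * 2 ^ l) := by
    push_cast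
    field_simp
  rw [h2, abs_div, abs_of_pos (by positivity : (0 : ℝ) < 3 * 2 ^ l)]
  gcongr

theorem TMax_two_grids (l : ℕ) (y : T) :
    (∀ z, ‖y - z‖ < 1 / 2 ^ (l + 3) → idx l z = idx l y) ∨
    (∀ z, ‖y - z‖ < 1 / 2 ^ (l + 3) → idx l (z - TMax_sh) = idx l (y - TMax_sh)) := by
  by_contra hc
  push Not at hc
  obtain ⟨⟨z1, hz1, hi1⟩, ⟨z2, hz2, hi2⟩⟩ := hc
  obtain ⟨n, hn⟩ := TMax_cross l y z1 _ hz1 hi1
  have hz2' : ‖(y - TMax_sh) - (z2 - TMax_sh)‖ < 1 / 2 ^ (l + 3) := by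
    have : (y - TMax_sh) - (z2 - TMax_sh) = y - z2 := by abel
    rw [this]; exact hz2
  obtain ⟨m, hm⟩ := TMax_cross l _ _ _ hz2' hi2
  have h1 := TMax_sep l n m
  have h2 : ‖((n / 2 ^ l : ℝ) : T) - ((m / 2 ^ l : ℝ) : T) - TMax_sh‖ ≤
      ‖y - ((n / 2 ^ l : ℝ) : T)‖ + ‖(y - TMax_sh) - ((m / 2 ^ l : ℝ) : T)‖ := by
    have e1 : ((n / 2 ^ l : ℝ) : T) - ((m / 2 ^ l : ℝ) : T) - TMax_sh =
      ((y - TMax_sh) - ((m / 2 ^ l : ℝ) : T)) - (y - ((n / 2 ^ l : ℝ) : T)) := by abel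
    rw [e1]
    refine (norm_sub_le _ _).trans ?_
    rw [add_comm]
  have h3 : (1 : ℝ) / 2 ^ (l + 3) = 1 / (8 * 2 ^ l) := by rw [pow_add]; norm_num; ring
  rw [h3] at hn hm
  have h4 : (1 : ℝ) / (3 * 2 ^ l) < 1 / (8 * 2 ^ l) + 1 / (8 * 2 ^ l) := by linarith
  have h5 : (1 : ℝ) / (8 * 2 ^ l) + 1 / (8 * 2 ^ l) ≤ 1 / (3 * 2 ^ l) := by
    have hp : (0 : ℝ) < 2 ^ l := by positivity
    rw [← sub_nonneg]
    have : (1 : ℝ) / (3 * 2 ^ l) - (1 / (8 * 2 ^ l) + 1 / (8 * 2 ^ l)) = 1 / (12 * 2 ^ l) := by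
      field_simp; norm_num
    rw [this]; positivity
  linarith

/-- the dyadic maximal function -/
noncomputable def TMax_M (K : ℕ) (F : T → ℝ) (x : T) : ℝ :=
  (Finset.range (K + 1)).sup' ⟨0, by simp⟩ (fun k => Eav k F x)

theorem TMax_Eav_nonneg (l : ℕ) (F : T → ℝ) (h0 : ∀ x, 0 ≤ F x) (x : T) : 0 ≤ Eav l F x := by
  unfold Eav
  exact mul_nonneg (by positivity) (integral_nonneg fun x => h0 x)

theorem TMax_le_M (K l : ℕ) (hl : l ≤ K) (F : T → ℝ) (x : T) : Eav l F x ≤ TMax_M K F x := by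
  unfold TMax_M
  exact Finset.le_sup' (fun k => Eav k F x) (Finset.mem_range.2 (by omega))

theorem TMax_M_nonneg (K : ℕ) (F : T → ℝ) (h0 : ∀ x, 0 ≤ F x) (x : T) : 0 ≤ TMax_M K F x :=
  (TMax_Eav_nonneg 0 F h0 x).trans (TMax_le_M K 0 (Nat.zero_le _) F x)

theorem TMax_M_meas (K : ℕ) (F : T → ℝ) : Measurable (TMax_M K F) := by
  have h := Finset.measurable_range_sup'' (n := K)
    (f := fun (k : ℕ) (y : T) => Eav k F y) (fun k _ => Eav_meas k F)
  exact h

theorem TMax_M_bdd (K : ℕ) (F : T → ℝ) (hF : Measurable F) (B : ℝ) (h : ∀ x, |F x| ≤ B) (x : T) :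
    TMax_M K F x ≤ B := by
  unfold TMax_M
  exact Finset.sup'_le _ _ fun k _ => (le_abs_self _).trans (Eav_bdd k F hF B h x)

theorem TMax_term (K k : ℕ) (hk : k ≤ K) (F : T → ℝ) (hF : Measurable F) (B : ℝ)
    (h0 : ∀ x, 0 ≤ F x) (h : ∀ x, F x ≤ B) (y : T) :
    2 ^ k * ∫ z in {z | ‖y - z‖ < 1 / 2 ^ k}, F z ≤
      8 * max (TMax_M K F y) (TMax_M K (fun z => F (z + TMax_sh)) (y - TMax_sh)) := by
  have hFi : Integrable F :=
    Integrable.of_bound hF.aestronglyMeasurable B (ae_of_all _ fun x => by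
      rw [Real.norm_eq_abs, abs_of_nonneg (h0 x)]; exact h x)
  set F' : T → ℝ := fun z => F (z + TMax_sh) with hF'
  rcases Nat.lt_or_ge k 3 with hk3 | hk3
  · have h1 : ∫ z in {z | ‖y - z‖ < 1 / 2 ^ k}, F z ≤ ∫ z, F z :=
      setIntegral_le_integral hFi (ae_of_all _ h0)
    have h2 : ∫ z, F z = Eav 0 F y := by
      unfold Eav
      have : {z : T | idx 0 z = idx 0 y} = Set.univ := by
        ext z
        have h3 := idx_lt 0 z
        have h4 := idx_lt 0 y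
        simp only [pow_zero] at h3 h4
        simp only [Set.mem_ofPred_eq, Set.mem_univ, iff_true]
        omega
      rw [this]; simp
    have h5 : (2 : ℝ) ^ k ≤ 2 ^ 2 := pow_le_pow_right₀ (by norm_num) (by omega)
    have h6 := TMax_le_M K 0 (Nat.zero_le _) F y
    have h7 := TMax_Eav_nonneg 0 F h0 y
    have h8 : 0 ≤ ∫ z in {z | ‖y - z‖ < 1 / 2 ^ k}, F z := integral_nonneg fun x => h0 x
    have h9 := le_max_left (TMax_M K F y) (TMax_M K F' (y - TMax_sh))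
    calc 2 ^ k * ∫ z in {z | ‖y - z‖ < 1 / 2 ^ k}, F z ≤ 2 ^ 2 * Eav 0 F y := by
          rw [← h2]
          exact mul_le_mul h5 h1 h8 (by positivity)
      _ ≤ 8 * max (TMax_M K F y) (TMax_M K F' (y - TMax_sh)) := by linarith
  · obtain ⟨l, rfl⟩ : ∃ l, k = l + 3 := ⟨k - 3, by omega⟩
    have hpw : (2 : ℝ) ^ (l + 3) = 8 * 2 ^ l := by rw [pow_add]; norm_num; ring
    rcases TMax_two_grids l y with hg | hg
    · have h1 : ∫ z in {z | ‖y - z‖ < 1 / 2 ^ (l + 3)}, F z ≤ ∫ z in {z | idx l z = idx l y}, F z := by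
        refine setIntegral_mono_set hFi.integrableOn (ae_of_all _ h0) ?_
        exact (LE.le.eventuallyLE fun z hz => hg z hz)
      have h2 := TMax_le_M K l (by omega) F y
      have h9 := le_max_left (TMax_M K F y) (TMax_M K F' (y - TMax_sh))
      calc 2 ^ (l + 3) * ∫ z in {z | ‖y - z‖ < 1 / 2 ^ (l + 3)}, F z
          ≤ 2 ^ (l + 3) * ∫ z in {z | idx l z = idx l y}, F z := by gcongr
        _ = 8 * Eav l F y := by unfold Eav; rw [hpw]; ring
        _ ≤ 8 * max (TMax_M K F y) (TMax_M K F' (y - TMax_sh)) := by linarith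
    · have hms : MeasurableSet {z : T | idx l (z - TMax_sh) = idx l (y - TMax_sh)} := by
        have hm : Measurable (fun z : T => idx l (z - TMax_sh)) :=
          (measurable_idx l).comp (measurable_id.sub_const _)
        exact hm (MeasurableSet.singleton _)
      have hms' : MeasurableSet {z : T | idx l z = idx l (y - TMax_sh)} :=
        (measurable_idx l) (MeasurableSet.singleton _)
      have h1 : ∫ z in {z | ‖y - z‖ < 1 / 2 ^ (l + 3)}, F z ≤
          ∫ z in {z | idx l (z - TMax_sh) = idx l (y - TMax_sh)}, F z := by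
        refine setIntegral_mono_set hFi.integrableOn (ae_of_all _ h0) ?_
        exact (LE.le.eventuallyLE fun z hz => hg z hz)
      have h3 : ∫ z in {z | idx l (z - TMax_sh) = idx l (y - TMax_sh)}, F z =
          ∫ z in {z | idx l z = idx l (y - TMax_sh)}, F' z := by
        rw [← integral_indicator hms, ← integral_indicator hms']
        rw [← integral_add_right_eq_self (μ := (volume : Measure T)) _ TMax_sh]
        congr 1; ext z
        simp only [Set.indicator, Set.mem_ofPred_eq, add_sub_cancel_right, hF']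
      have h2 := TMax_le_M K l (by omega) F' (y - TMax_sh)
      have h9 := le_max_right (TMax_M K F y) (TMax_M K F' (y - TMax_sh))
      calc 2 ^ (l + 3) * ∫ z in {z | ‖y - z‖ < 1 / 2 ^ (l + 3)}, F z
          ≤ 2 ^ (l + 3) * ∫ z in {z | idx l z = idx l (y - TMax_sh)}, F' z := by
            rw [← h3]; gcongr
        _ = 8 * Eav l F' (y - TMax_sh) := by unfold Eav; rw [hpw]; ring
        _ ≤ 8 * max (TMax_M K F y) (TMax_M K F' (y - TMax_sh)) := by linarith

theorem TMax_pt (K : ℕ) (F : T → ℝ) (hF : Measurable F) (B : ℝ) (h0 : ∀ x, 0 ≤ F x)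
    (h : ∀ x, F x ≤ B) (y : T) :
    MK K F y ^ 2 ≤ 64 * (TMax_M K F y ^ 2 +
      TMax_M K (fun z => F (z + TMax_sh)) (y - TMax_sh) ^ 2) := by
  have h1 : MK K F y ≤ 8 * max (TMax_M K F y)
      (TMax_M K (fun z => F (z + TMax_sh)) (y - TMax_sh)) := by
    unfold MK
    refine Finset.sup'_le _ _ fun k hk => ?_
    exact TMax_term K k (by have := Finset.mem_range.1 hk; omega) F hF B h0 h y
  have h2 := MK_nonneg K F h0 y
  generalize TMax_M K (fun z => F (z + TMax_sh)) (y - TMax_sh) = b at h1 ⊢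
  generalize TMax_M K F y = a at h1 ⊢
  generalize MK K F y = m at h1 h2 ⊢
  have h3 : m ^ 2 ≤ (8 * max a b) ^ 2 := pow_le_pow_left₀ h2 h1 2
  rcases max_choice a b with h4 | h4
  · rw [h4] at h3
    nlinarith [sq_nonneg b]
  · rw [h4] at h3
    nlinarith [sq_nonneg a]

theorem TMax_int (K : ℕ) (G : T → ℝ) (B : ℝ) (hG : Measurable G) (hG0 : ∀ x, 0 ≤ G x)
    (hGB : ∀ x, |G x| ≤ B) : Integrable (fun y => TMax_M K G y ^ 2) := by
  refine Integrable.of_bound ((TMax_M_meas K G).pow_const 2).aestronglyMeasurable (B ^ 2)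
    (ae_of_all _ fun x => ?_)
  rw [Real.norm_eq_abs, abs_of_nonneg (by positivity)]
  exact pow_le_pow_left₀ (TMax_M_nonneg K G hG0 x) (TMax_M_bdd K G hG B hGB x) 2

theorem TMax_intMK (K : ℕ) (F : T → ℝ) (hF : Measurable F) (B : ℝ) (h0 : ∀ x, 0 ≤ F x)
    (h : ∀ x, F x ≤ B) : Integrable (fun y => MK K F y ^ 2) := by
  refine Integrable.of_bound ((MK_meas K F hF).pow_const 2).aestronglyMeasurable ((2 ^ K * B) ^ 2)
    (ae_of_all _ fun x => ?_)
  rw [Real.norm_eq_abs, abs_of_nonneg (by positivity)]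
  exact pow_le_pow_left₀ (MK_nonneg K F h0 x) (MK_bdd K F hF B h0 h x) 2

theorem TMax_shift (G : T → ℝ) : ∫ x, G (x - TMax_sh) = ∫ x, G x :=
  integral_sub_right_eq_self (μ := (volume : Measure T)) G TMax_sh

theorem TMax_shift' (G : T → ℝ) : ∫ x, G (x + TMax_sh) = ∫ x, G x :=
  integral_add_right_eq_self (μ := (volume : Measure T)) G TMax_sh

theorem TMax_doob (K : ℕ) (F : T → ℝ) (hF : Measurable F) (B : ℝ) (hab : ∀ x, |F x| ≤ B) :
    ∫ x, TMax_M K F x ^ 2 ≤ 4 * ∫ x, F x ^ 2 := doob K F hF B hab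

theorem MK_sq (K : ℕ) (F : T → ℝ) (hF : Measurable F) (B : ℝ) (h0 : ∀ x, 0 ≤ F x)
    (h : ∀ x, F x ≤ B) : ∫ y, MK K F y ^ 2 ≤ 512 * ∫ x, F x ^ 2 := by
  have hF'm : Measurable (fun z => F (z + TMax_sh)) := hF.comp (measurable_id.add_const _)
  have hab : ∀ x, |F x| ≤ B := fun x => by rw [abs_of_nonneg (h0 x)]; exact h x
  have hab' : ∀ x, |F (x + TMax_sh)| ≤ B := fun x => hab _
  have hi1 := TMax_int K F B hF h0 hab
  have hi2 := TMax_int K _ B hF'm (fun x => h0 _) hab'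
  have hi3 : Integrable (fun y => TMax_M K (fun z => F (z + TMax_sh)) (y - TMax_sh) ^ 2) :=
    hi2.comp_sub_right TMax_sh
  have hi4 := TMax_intMK K F hF B h0 h
  have d1 := TMax_doob K F hF B hab
  have d2 := TMax_doob K _ hF'm B hab'
  have d3 := TMax_shift (fun x => TMax_M K (fun z => F (z + TMax_sh)) x ^ 2)
  have d4 := TMax_shift' (fun x => F x ^ 2)
  have e1 : ∫ y, MK K F y ^ 2 ≤ ∫ y, 64 * (TMax_M K F y ^ 2 +
      TMax_M K (fun z => F (z + TMax_sh)) (y - TMax_sh) ^ 2) :=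
    integral_mono hi4 ((hi1.add hi3).const_mul 64) (TMax_pt K F hF B h0 h)
  rw [integral_const_mul, integral_add hi1 hi3] at e1
  rw [d3] at e1
  rw [d4] at d2
  linarith

end CH
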