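import Mathlib
import Pool.Agent.CH.AGeo
import Pool.Agent.CH.TMax

/-!
CH-TDom. Kernels are dominated by the maximal function. `A_k = {z | 2^(-k-1) <= ||x-z|| < 2^-k}` (`k < s`), `A_s = {z | ||x-z|| < 2^-s}`
cover the circle (`||x - z|| <= 1/2 < 1`). On `A_k`: `2^s/(1+2^s||x-z||)^2 <= 4 * 2^(k-s) * 2^k`. And
`{z | ||x-z|| < 2^-k} <= {z | ||y-z|| < 2^-(k-1)}` for `1 <= k <= s` (as `||x-y|| <= 2^-(s+2)`); for `k = 0` use `{||y-z|| < 1}` = everything.
So `2^k int_{||x-z|| < 2^-k} |G| <= 2 MK K |G| y`, and the sum over `k` is at most `C * 4 * 2 * 2 * MK = 16 C MK`.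
Formally: pointwise `|kap (x-z) G z| <= C sum_{k=0}^s 4 * 2^(k-s) * 2^k 1_{||x-z|| < 2^-k} |G z|` (the term of the right `k` alone suffices).
-/

open MeasureTheory

namespace CH

private theorem nlh (x : T) : ‖x‖ ≤ 1 / 2 := by
  simpa using AddCircle.norm_le_half_period (1 : ℝ) one_ne_zero (x := x)

/-- the pointwise bound: some `k ≤ s` with `a < 2^-k` has `2^s/(1+2^s a)^2 ≤ 4 * 2^k * 2^k / 2^s` -/
private theorem exists_level (s : ℕ) (a : ℝ) (h0 : 0 ≤ a) (h1 : a < 1) :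
    ∃ k, k ≤ s ∧ a < 1 / 2 ^ k ∧ (2 : ℝ) ^ s / (1 + 2 ^ s * a) ^ 2 ≤ 4 * (2 ^ k * 2 ^ k) / 2 ^ s := by
  induction s with
  | zero =>
    refine ⟨0, le_rfl, by simpa using h1, ?_⟩
    simp only [pow_zero, one_mul, mul_one, div_one]
    rw [div_le_iff₀ (by positivity)]
    nlinarith
  | succ s ih =>
    by_cases h : a < 1 / 2 ^ (s + 1)
    · refine ⟨s + 1, le_rfl, h, ?_⟩
      have hp : (0 : ℝ) < 2 ^ (s + 1) := by positivity
      have h2 : (1 : ℝ) ≤ (1 + 2 ^ (s + 1) * a) ^ 2 := by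
        have : (1 : ℝ) ≤ 1 + 2 ^ (s + 1) * a := by nlinarith [mul_nonneg hp.le h0]
        nlinarith
      rw [show (4 : ℝ) * (2 ^ (s + 1) * 2 ^ (s + 1)) / 2 ^ (s + 1) = 4 * 2 ^ (s + 1) by field_simp]
      rw [div_le_iff₀ (by positivity)]
      nlinarith
    · -- take the largest `k ≤ s` with `a < 2^-k`
      push Not at h
      have hex : ∃ k, k ≤ s ∧ a < 1 / 2 ^ k ∧ 1 / 2 ^ (k + 1) ≤ a := by
        by_contra hne
        push Not at hne
        have : ∀ k, k ≤ s → a < 1 / 2 ^ (k + 1) := by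
          intro k
          induction k with
          | zero => intro hk; exact hne 0 hk (by simpa using h1)
          | succ k ihk => intro hk; exact hne (k + 1) hk (ihk (by omega))
        exact absurd (this s le_rfl) (not_lt.2 h)
      obtain ⟨k, hk, hk1, hk2⟩ := hex
      refine ⟨k, by omega, hk1, ?_⟩
      have hp : (0 : ℝ) < 2 ^ (s + 1) := by positivity
      have hq : (0 : ℝ) < 2 ^ k := by positivity
      have ha : 0 < a := lt_of_lt_of_le (by positivity) hk2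
      have h3 : 1 ≤ 2 * (2 : ℝ) ^ k * a := by
        rw [div_le_iff₀ (by positivity), pow_succ] at hk2
        linarith
      rw [div_le_div_iff₀ (by positivity) hp]
      have h4 : (2 ^ (s + 1) * a) ^ 2 ≤ (1 + (2 : ℝ) ^ (s + 1) * a) ^ 2 := by
        apply pow_le_pow_left₀ (by positivity)
        linarith
      have h5 : (1 : ℝ) ≤ (2 * 2 ^ k * a) ^ 2 := one_le_pow₀ h3
      calc (2 : ℝ) ^ (s + 1) * 2 ^ (s + 1)
          ≤ (2 : ℝ) ^ (s + 1) * 2 ^ (s + 1) * (2 * 2 ^ k * a) ^ 2 :=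
            le_mul_of_one_le_right (by positivity) h5
        _ = 4 * (2 ^ k * 2 ^ k) * (2 ^ (s + 1) * a) ^ 2 := by ring
        _ ≤ 4 * (2 ^ k * 2 ^ k) * (1 + 2 ^ (s + 1) * a) ^ 2 := by gcongr

theorem tDom (K s : ℕ) (hs : s ≤ K) (C : ℝ) (hC : 0 ≤ C) (kap : T → ℂ) (hk : Continuous kap)
    (hb : ∀ x, ‖kap x‖ ≤ C * 2 ^ s / (1 + 2 ^ s * ‖x‖) ^ 2) (G : T → ℂ) (hG : Continuous G)
    (x y : T) (hxy : ‖x - y‖ ≤ 1 / 2 ^ (s + 2)) :
    ‖∫ z, kap (x - z) * G z‖ ≤ 16 * C * MK K (fun z => ‖G z‖) y := by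
  have hint : Integrable (fun z => ‖G z‖) :=
    (hG.norm.integrable_of_hasCompactSupport (HasCompactSupport.of_compactSpace _))
  have hmeas : ∀ (w : T) (k : ℕ), MeasurableSet {z : T | ‖w - z‖ < 1 / 2 ^ k} := fun w k =>
    (isOpen_lt (continuous_const.sub continuous_id).norm continuous_const).measurableSet
  set M := MK K (fun z => ‖G z‖) y with hM
  have hM0 : 0 ≤ M := MK_nonneg K _ (fun z => norm_nonneg _) y
  -- balls around `x`
  have hball : ∀ k, k ≤ s → 2 ^ k * ∫ z in {z | ‖x - z‖ < 1 / 2 ^ k}, ‖G z‖ ≤ 2 * M := by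
    intro k hks
    rcases k with _ | k
    · have h1 : ∫ z in {z | ‖x - z‖ < 1 / 2 ^ 0}, ‖G z‖ ≤ ∫ z in {z | ‖y - z‖ < 1 / 2 ^ 0}, ‖G z‖ := by
        have hall : {z : T | ‖y - z‖ < 1 / 2 ^ 0} = Set.univ := by
          ext z
          simp only [Set.mem_ofPred_eq, pow_zero, div_one, Set.mem_univ, iff_true]
          have := nlh (y - z)
          linarith
        rw [hall, Measure.restrict_univ]
        exact setIntegral_le_integral hint (ae_of_all _ fun z => norm_nonneg _)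
      have h2 := le_MK K 0 (Nat.zero_le _) (fun z => ‖G z‖) y
      rw [pow_zero, one_mul] at h2 ⊢
      linarith [h1.trans h2]
    · have hsub : {z : T | ‖x - z‖ < 1 / 2 ^ (k + 1)} ⊆ {z : T | ‖y - z‖ < 1 / 2 ^ k} := by
        intro z hz
        simp only [Set.mem_ofPred_eq] at hz ⊢
        have h1 : ‖y - z‖ ≤ ‖x - y‖ + ‖x - z‖ := by
          have : y - z = -(x - y) + (x - z) := by abel
          rw [this]
          exact (norm_add_le _ _).trans (by rw [norm_neg])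
        have h2 : (1 : ℝ) / 2 ^ (s + 2) ≤ 1 / 2 ^ (k + 1) := by
          apply one_div_le_one_div_of_le (by positivity)
          exact pow_le_pow_right₀ (by norm_num) (by omega)
        have h3 : (1 : ℝ) / 2 ^ (k + 1) + 1 / 2 ^ (k + 1) = 1 / 2 ^ k := by
          rw [pow_succ]; field_simp; norm_num
        linarith
      have h1 : ∫ z in {z | ‖x - z‖ < 1 / 2 ^ (k + 1)}, ‖G z‖ ≤ ∫ z in {z | ‖y - z‖ < 1 / 2 ^ k}, ‖G z‖ :=
        setIntegral_mono_set hint.integrableOn (ae_of_all _ fun z => norm_nonneg _)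
          (Filter.Eventually.of_forall hsub)
      have h2 := le_MK K k (by omega) (fun z => ‖G z‖) y
      have hp : (0 : ℝ) < 2 ^ k := by positivity
      calc (2 : ℝ) ^ (k + 1) * ∫ z in {z | ‖x - z‖ < 1 / 2 ^ (k + 1)}, ‖G z‖
          ≤ 2 ^ (k + 1) * ∫ z in {z | ‖y - z‖ < 1 / 2 ^ k}, ‖G z‖ := by gcongr
        _ = 2 * (2 ^ k * ∫ z in {z | ‖y - z‖ < 1 / 2 ^ k}, ‖G z‖) := by rw [pow_succ]; ring
        _ ≤ 2 * M := by linarith
  -- the pointwise bound
  set c : ℕ → ℝ := fun k => C * (4 * (2 ^ k * 2 ^ k) / 2 ^ s) with hc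
  have hc0 : ∀ k, 0 ≤ c k := fun k => by positivity
  have hpt : ∀ z, ‖kap (x - z) * G z‖ ≤
      ∑ k ∈ Finset.range (s + 1), ({z : T | ‖x - z‖ < 1 / 2 ^ k}).indicator (fun z => c k * ‖G z‖) z := by
    intro z
    obtain ⟨k, hk1, hk2, hk3⟩ := exists_level s ‖x - z‖ (norm_nonneg _)
      (by have := nlh (x - z); linarith)
    have h1 : ‖kap (x - z) * G z‖ ≤ c k * ‖G z‖ := by
      rw [norm_mul]
      refine mul_le_mul_of_nonneg_right ((hb _).trans ?_) (norm_nonneg _)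
      rw [hc, mul_div_assoc]
      exact mul_le_mul_of_nonneg_left hk3 hC
    refine h1.trans ?_
    have h2 : ({z : T | ‖x - z‖ < 1 / 2 ^ k}).indicator (fun z => c k * ‖G z‖) z = c k * ‖G z‖ :=
      Set.indicator_of_mem (show z ∈ {z : T | ‖x - z‖ < 1 / 2 ^ k} from hk2) _
    rw [← h2]
    refine Finset.single_le_sum (f := fun k => ({z : T | ‖x - z‖ < 1 / 2 ^ k}).indicator
      (fun z => c k * ‖G z‖) z) (fun i _ => ?_) (Finset.mem_range.2 (by omega))
    exact Set.indicator_nonneg (fun w _ => mul_nonneg (hc0 i) (norm_nonneg _)) z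
  have hI : ∀ k ∈ Finset.range (s + 1), Integrable
      (({z : T | ‖x - z‖ < 1 / 2 ^ k}).indicator (fun z => c k * ‖G z‖)) := fun k _ =>
    (hint.const_mul _).indicator (hmeas x k)
  calc ‖∫ z, kap (x - z) * G z‖ ≤ ∫ z, ‖kap (x - z) * G z‖ := norm_integral_le_integral_norm _
    _ ≤ ∫ z, ∑ k ∈ Finset.range (s + 1),
          ({z : T | ‖x - z‖ < 1 / 2 ^ k}).indicator (fun z => c k * ‖G z‖) z :=
        integral_mono_of_nonneg (ae_of_all _ fun z => norm_nonneg _)
          (integrable_finsetSum _ hI) (ae_of_all _ hpt)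
    _ = ∑ k ∈ Finset.range (s + 1), ∫ z,
          ({z : T | ‖x - z‖ < 1 / 2 ^ k}).indicator (fun z => c k * ‖G z‖) z :=
        integral_finsetSum _ hI
    _ = ∑ k ∈ Finset.range (s + 1), c k * ∫ z in {z | ‖x - z‖ < 1 / 2 ^ k}, ‖G z‖ := by
        refine Finset.sum_congr rfl fun k _ => ?_
        rw [integral_indicator (hmeas x k), integral_const_mul]
    _ ≤ ∑ k ∈ Finset.range (s + 1), C * (4 * 2 ^ k / 2 ^ s) * (2 * M) := by
        refine Finset.sum_le_sum fun k hk => ?_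
        have h1 := hball k (Nat.lt_succ_iff.1 (Finset.mem_range.1 hk))
        calc c k * ∫ z in {z | ‖x - z‖ < 1 / 2 ^ k}, ‖G z‖
            = C * (4 * 2 ^ k / 2 ^ s) * (2 ^ k * ∫ z in {z | ‖x - z‖ < 1 / 2 ^ k}, ‖G z‖) := by
              rw [hc]; ring
          _ ≤ C * (4 * 2 ^ k / 2 ^ s) * (2 * M) := by
              apply mul_le_mul_of_nonneg_left h1
              positivity
    _ = C * 8 * M * ((∑ k ∈ Finset.range (s + 1), (2 : ℝ) ^ k) / 2 ^ s) := by
        rw [Finset.sum_div, Finset.mul_sum]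
        refine Finset.sum_congr rfl fun k _ => ?_
        ring
    _ ≤ C * 8 * M * 2 := by
        apply mul_le_mul_of_nonneg_left _ (by positivity)
        rw [div_le_iff₀ (by positivity), geom_sum_eq (by norm_num)]
        rw [pow_succ]
        norm_num
        linarith
    _ = 16 * C * M := by ring

end CH
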