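import Mathlib
import Pool.Agent.CH.Defs

open MeasureTheory Complex Polynomial
open scoped ComplexConjugate

namespace CH

/-- uniform distribution on `{0,...,l-1}` as a polynomial -/
noncomputable def Up (l : ℕ) : ℝ[X] := C (1 / (l : ℝ)) * ∑ i ∈ Finset.range l, X ^ i

/-- value of a polynomial at `z = e(-x)` -/
noncomputable def ev (p : ℝ[X]) (x : T) : ℂ := aeval (e (-1) x) p

/-- plateau polynomial `D_W * (U_l)^k` -/
noncomputable def Plat (W l k : ℕ) : ℝ[X] := (∑ i ∈ Finset.range W, X ^ i) * Up l ^ k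

/-- `rho_t`, for `t ≥ 6` -/
noncomputable def rhoP (t : ℕ) : ℝ[X] := X ^ (2 ^ (t - 2)) * Up (2 ^ (t - 6)) ^ 8

/-- `L_t = 2^(t-4)` -/
def Lt (t : ℕ) : ℕ := 2 ^ (t - 4)

/-- distribution function -/
noncomputable def cdf (p : ℝ[X]) (v : ℤ) : ℝ := ∑ w ∈ Finset.range (v + 1).toNat, p.coeff w

/-- the multiplier `b_t`, for `t ≥ 7` -/
noncomputable def bt (t : ℕ) (v : ℤ) : ℝ :=
  16 * (cdf (rhoP (t - 1)) v - cdf (rhoP t * (C (1 / 2) * (1 + X ^ Lt t))) v)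

/-- `M_t = CDF (U_{2 L_t} * rho_t)` -/
noncomputable def Mt (t : ℕ) (v : ℤ) : ℝ := cdf (Up (2 * Lt t) * rhoP t) v

/-- the multiplier `V_t`, for `t ≥ 7` -/
noncomputable def Vt (t : ℕ) (v : ℤ) : ℝ :=
  if (2 : ℤ) ^ (t - 4) ≤ v then
    (Plat (6 * 2 ^ (t - 4) + 1) (2 ^ (t - 7)) 8).coeff (v - 2 ^ (t - 4)).toNat else 0

/-- analysis wave packets -/
noncomputable def psiT (th : ℕ) (P : Tile) (x : T) : ℂ :=
  ((1 / Real.sqrt (2 ^ (P.s + 7)) : ℝ) : ℂ) *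
    ∑ v ∈ Finset.Icc ((2 : ℤ) ^ (P.s + 3)) (2 ^ (P.s + 6)),
      (bt (P.s + 7) v : ℂ) * e (P.mid - v) (x - P.c - ((th / 2 ^ (P.s + 7) : ℝ) : T))

/-- synthesis wave packets -/
noncomputable def phiT (th : ℕ) (P : Tile) (x : T) : ℂ :=
  ((1 / Real.sqrt (2 ^ (P.s + 7)) : ℝ) : ℂ) *
    ∑ v ∈ Finset.Icc ((2 : ℤ) ^ (P.s + 3)) (2 ^ (P.s + 6)),
      (Vt (P.s + 7) v : ℂ) * e (P.mid - v) (x - P.c - ((th / 2 ^ (P.s + 7) : ℝ) : T))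

end CH
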