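import Mathlib
import Pool.Agent.CH.ZDefs

/-!
CH-ZUp. Evaluation of polynomials on the circle and the uniform distribution.
`ev p x = aeval (e (-1) x) p` is a ring homomorphism in `p`; `e (-1) x ^ n = e (-n) x`.
* `ev_eq_sum`: `ev p x = sum of coeff v * e (-v) x`.
* `norm_one_sub_e`: `|1 - e(-x)| = 2 |sin (pi x)| >= 4 ||x||` for the representative `|x| <= 1/2`
  (`Real.mul_le_sin` or `Real.mul_abs_le_abs_sin`; write `x` as the class of `y` with `|y| = ||x||`,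
  `UnitAddCircle.norm_eq`, `y - round y`).
* `norm_ev_Up`: `ev (Up l) x = (1/l) sum_{i<l} z^i`; trivially norm `<= 1`; and
  `(1-z) sum = 1 - z^l` gives norm `<= 2/(l * 4||x||) = 1/(2 l ||x||)`.
  If `l||x|| <= 1` use `1 <= 2/(1+l||x||)`, otherwise `1/(2y) <= 2/(1+y)` for `y = l||x|| >= 1`.
-/

open MeasureTheory Complex Polynomial
open scoped ComplexConjugate

namespace CH

theorem e_pow (n : ℤ) (k : ℕ) (x : T) : e n x ^ k = e (n * k) x := by
  induction k with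
  | zero => simp
  | succ k ih =>
    rw [pow_succ, ih, ← e_add]
    congr 1
    push_cast
    ring

theorem ev_mul (p q : ℝ[X]) (x : T) : ev (p * q) x = ev p x * ev q x := by
  unfold ev; exact map_mul _ _ _

theorem ev_pow (p : ℝ[X]) (k : ℕ) (x : T) : ev (p ^ k) x = ev p x ^ k := by
  unfold ev; exact map_pow _ _ _

theorem ev_add (p q : ℝ[X]) (x : T) : ev (p + q) x = ev p x + ev q x := by
  unfold ev; exact map_add _ _ _

theorem ev_X_pow (k : ℕ) (x : T) : ev (X ^ k) x = e (-(k : ℤ)) x := by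
  unfold ev
  rw [map_pow, aeval_X, e_pow]
  congr 1
  ring

theorem ev_C (a : ℝ) (x : T) : ev (C a) x = (a : ℂ) := by
  unfold ev
  rw [aeval_C]
  rfl

/-- for every `K` beyond the degree -/
theorem ev_eq_sum (p : ℝ[X]) (K : ℕ) (hK : p.natDegree < K) (x : T) :
    ev p x = ∑ v ∈ Finset.range K, (p.coeff v : ℂ) * e (-(v : ℤ)) x := by
  unfold ev
  rw [Polynomial.aeval_eq_sum_range' hK]
  refine Finset.sum_congr rfl fun v _ => ?_
  rw [e_pow, Complex.real_smul]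
  congr 2
  ring

theorem ZUp_rep (x : T) : ∃ y : ℝ, (y : T) = x ∧ |y| = ‖x‖ ∧ |y| ≤ 1 / 2 := by
  obtain ⟨z, rfl⟩ := QuotientAddGroup.mk_surjective x
  refine ⟨z - round z, ?_, ?_, ?_⟩
  · have h : ((z - round z : ℝ) : T) = (z : T) - ((round z : ℝ) : T) := by
      rw [AddCircle.coe_sub]
    have h2 : (((round z : ℤ) : ℝ) : T) = 0 := by
      rw [AddCircle.coe_eq_zero_iff]
      exact ⟨round z, by simp⟩
    rw [h, h2, sub_zero]
  · exact (UnitAddCircle.norm_eq (x := z)).symm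
  · exact abs_sub_round z

theorem norm_one_sub_e' (x : T) : 4 * ‖x‖ ≤ ‖1 - e 1 x‖ := by
  obtain ⟨y, hy, hn, h2⟩ := ZUp_rep x
  rw [← hn, ← hy, e_coe, norm_sub_rev]
  have h3 : (2 * Real.pi * I * ((1 : ℤ) : ℂ) * (y : ℂ)) = I * ((2 * Real.pi * y : ℝ) : ℂ) := by
    push_cast; ring
  rw [h3, Complex.norm_exp_I_mul_ofReal_sub_one, Real.norm_eq_abs, abs_mul]
  have h4 : 2 * Real.pi * y / 2 = Real.pi * y := by ring
  rw [h4]
  have h5 : |Real.pi * y| ≤ Real.pi / 2 := by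
    rw [abs_mul, abs_of_pos Real.pi_pos]
    nlinarith [Real.pi_pos]
  have h6 := Real.mul_abs_le_abs_sin h5
  rw [abs_mul, abs_of_pos Real.pi_pos] at h6
  have h7 : 2 / Real.pi * (Real.pi * |y|) = 2 * |y| := by
    have := Real.pi_ne_zero
    field_simp
  rw [h7] at h6
  have h8 : |(2 : ℝ)| = 2 := by norm_num
  rw [h8]
  linarith

theorem norm_one_sub_e (x : T) : 4 * ‖x‖ ≤ ‖1 - e (-1) x‖ := by
  have h := norm_one_sub_e' x
  have h2 : ‖1 - e (-1) x‖ = ‖1 - e 1 x‖ := by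
    rw [e_neg, ← Complex.norm_conj (1 - e 1 x), map_sub, map_one]
  rw [h2]; exact h

theorem ZUp_ev_Up (l : ℕ) (x : T) :
    ev (Up l) x = ((1 / (l : ℝ) : ℝ) : ℂ) * ∑ i ∈ Finset.range l, e (-1) x ^ i := by
  unfold Up ev
  rw [map_mul, aeval_C, map_sum]
  simp_rw [map_pow, aeval_X]
  rfl

theorem norm_ev_Up_le_one (l : ℕ) (hl : 1 ≤ l) (x : T) : ‖ev (Up l) x‖ ≤ 1 := by
  have hl0 : (0 : ℝ) < l := by exact_mod_cast hl
  rw [ZUp_ev_Up, norm_mul, Complex.norm_real, Real.norm_eq_abs, abs_of_pos (by positivity)]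
  have h1 : ‖∑ i ∈ Finset.range l, e (-1) x ^ i‖ ≤ l := by
    refine (norm_sum_le _ _).trans ?_
    simp
  calc 1 / (l : ℝ) * ‖∑ i ∈ Finset.range l, e (-1) x ^ i‖ ≤ 1 / (l : ℝ) * l := by gcongr
    _ = 1 := by field_simp

theorem norm_ev_Up (l : ℕ) (hl : 1 ≤ l) (x : T) : ‖ev (Up l) x‖ ≤ 2 / (1 + l * ‖x‖) := by
  have hl0 : (0 : ℝ) < l := by exact_mod_cast hl
  have hx := norm_nonneg x
  have hpos : 0 < 1 + l * ‖x‖ := by positivity
  rcases le_or_gt (l * ‖x‖) 1 with h | h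
  · refine (norm_ev_Up_le_one l hl x).trans ?_
    rw [le_div_iff₀ hpos]; linarith
  · rw [le_div_iff₀ hpos]
    have h1 : ‖ev (Up l) x‖ * (l * (4 * ‖x‖)) ≤ 2 := by
      have h2 : ev (Up l) x * ((l : ℂ) * (1 - e (-1) x)) = 1 - e (-1) x ^ l := by
        rw [ZUp_ev_Up, ← geom_sum_mul_neg]
        have : (l : ℂ) ≠ 0 := by exact_mod_cast hl0.ne'
        push_cast
        field_simp
      have h3 : ‖ev (Up l) x * ((l : ℂ) * (1 - e (-1) x))‖ ≤ 2 := by
        rw [h2]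
        refine (norm_sub_le _ _).trans ?_
        rw [norm_pow, norm_e]; norm_num
      rw [norm_mul, norm_mul, Complex.norm_natCast] at h3
      refine le_trans ?_ h3
      gcongr
      exact norm_one_sub_e x
    have h4 := norm_nonneg (ev (Up l) x)
    nlinarith [mul_nonneg h4 (by linarith : 0 ≤ l * ‖x‖ - 1)]

end CH
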