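import Mathlib
import Pool.Agent.CH.ZUp

/-!
CH-ZPlat. Plateau polynomials `Plat W l k = (1 + X + ... + X^(W-1)) * (Up l)^k`.
Proof: induction on `k`: `Plat W l (k+1) = Plat W l k * Up l`, so
`coeff (k+1) v = (1/l) * sum_{i<l, i<=v} coeff k (v-i)` is an average of `l` values of the previous
one (values at negative arguments are 0). All values in `[0,1]`; if `(k+1)(l-1) <= v < W` all the
`v-i` lie in `[k(l-1), W)`; if `v >= W + (k+1)(l-1)` all `v-i >= W + k(l-1)`.
Kernel bound: `|ev| <= W * |ev (Up l)|^k`.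
-/

open MeasureTheory Complex Polynomial
open scoped ComplexConjugate

namespace CH

theorem ZPlat_zero (W l v : ℕ) : (Plat W l 0).coeff v = if v < W then 1 else 0 := by
  unfold Plat
  rw [pow_zero, mul_one, Polynomial.finsetSum_coeff]
  simp_rw [Polynomial.coeff_X_pow]
  simp only [Finset.sum_ite_eq, Finset.mem_range]

theorem ZPlat_succ (W l k v : ℕ) : (Plat W l (k + 1)).coeff v
    = 1 / (l : ℝ) * ∑ i ∈ Finset.range l, if i ≤ v then (Plat W l k).coeff (v - i) else 0 := by
  have h : Plat W l (k + 1) = C (1 / (l : ℝ)) * ∑ i ∈ Finset.range l, X ^ i * Plat W l k := by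
    rw [← Finset.sum_mul]
    unfold Plat
    rw [pow_succ]
    nth_rw 2 [Up]
    ring
  rw [h, Polynomial.coeff_C_mul, Polynomial.finsetSum_coeff]
  simp_rw [Polynomial.coeff_X_pow_mul']

theorem plat_mem (W l k v : ℕ) (hl : 1 ≤ l) :
    0 ≤ (Plat W l k).coeff v ∧ (Plat W l k).coeff v ≤ 1 := by
  have hl0 : (0 : ℝ) < l := by exact_mod_cast hl
  induction k generalizing v with
  | zero =>
    rw [ZPlat_zero]
    split_ifs <;> norm_num
  | succ k ih =>
    rw [ZPlat_succ]
    constructor
    · refine mul_nonneg (by positivity) (Finset.sum_nonneg fun i _ => ?_)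
      split_ifs
      · exact (ih _).1
      · exact le_rfl
    · have h1 : (∑ i ∈ Finset.range l, if i ≤ v then (Plat W l k).coeff (v - i) else 0)
          ≤ ∑ i ∈ Finset.range l, (1 : ℝ) := by
        refine Finset.sum_le_sum fun i _ => ?_
        split_ifs
        · exact (ih _).2
        · norm_num
      rw [Finset.sum_const, Finset.card_range, nsmul_eq_mul, mul_one] at h1
      calc 1 / (l : ℝ) * _ ≤ 1 / (l : ℝ) * l := by gcongr
        _ = 1 := by field_simp

theorem plat_one (W l k v : ℕ) (hl : 1 ≤ l) (h1 : k * (l - 1) ≤ v) (h2 : v < W) :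
    (Plat W l k).coeff v = 1 := by
  have hl0 : (0 : ℝ) < l := by exact_mod_cast hl
  induction k generalizing v with
  | zero => rw [ZPlat_zero, if_pos h2]
  | succ k ih =>
    rw [ZPlat_succ]
    have h3 : (∑ i ∈ Finset.range l, if i ≤ v then (Plat W l k).coeff (v - i) else 0)
        = ∑ i ∈ Finset.range l, (1 : ℝ) := by
      refine Finset.sum_congr rfl fun i hi => ?_
      rw [Finset.mem_range] at hi
      have h4 : k * (l - 1) + (l - 1) ≤ v := by
        rw [← Nat.succ_mul]; exact h1
      rw [if_pos (by omega)]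
      exact ih (v - i) (by omega) (by omega)
    rw [h3, Finset.sum_const, Finset.card_range, nsmul_eq_mul, mul_one]
    field_simp

theorem plat_zero (W l k v : ℕ) (hl : 1 ≤ l) (h : W + k * (l - 1) ≤ v) :
    (Plat W l k).coeff v = 0 := by
  induction k generalizing v with
  | zero => rw [ZPlat_zero, if_neg (by omega)]
  | succ k ih =>
    rw [ZPlat_succ]
    have h3 : (∑ i ∈ Finset.range l, if i ≤ v then (Plat W l k).coeff (v - i) else 0) = 0 := by
      refine Finset.sum_eq_zero fun i hi => ?_
      rw [Finset.mem_range] at hi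
      have h4 : W + (k * (l - 1) + (l - 1)) ≤ v := by
        rw [← Nat.succ_mul]; exact h
      rw [if_pos (by omega)]
      exact ih (v - i) (by omega)
    rw [h3, mul_zero]

theorem norm_ev_Plat (W l k : ℕ) (hl : 1 ≤ l) (x : T) :
    ‖ev (Plat W l k) x‖ ≤ W * (2 / (1 + l * ‖x‖)) ^ k := by
  unfold Plat
  rw [ev_mul, ev_pow, norm_mul, norm_pow]
  have h1 : ‖ev (∑ i ∈ Finset.range W, X ^ i) x‖ ≤ W := by
    have h2 : ev (∑ i ∈ Finset.range W, X ^ i) x = ∑ i ∈ Finset.range W, e (-1) x ^ i := by
      unfold ev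
      rw [map_sum]
      simp_rw [map_pow, aeval_X]
    rw [h2]
    refine (norm_sum_le _ _).trans ?_
    simp
  have h3 := norm_ev_Up l hl x
  gcongr

end CH
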