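import Mathlib
import Pool.Agent.CH.ZPlat

/-!
CH-TKap. The smoothing kernels. `kap x = e (xi + 2^(s+5)) x * ev (Plat (13 * 2^(s+3) + 1) (2^(s+4)) 2) x
  = sum_w coeff w * e (xi + 2^(s+5) - w) x` (`ev_eq_sum`). With `l = 2^(s+4)`, `k = 2`: `k (l-1) <= 2^(s+5)`, so the coefficient of
`e j`, `w = xi - j + 2^(s+5)`, is `1` for `0 <= xi - j <= 9 * 2^(s+3)` (`w >= 2^(s+5)`, `w <= 4*2^(s+3) + 9*2^(s+3) < W`) and `0` for
`xi - j >= 16 * 2^(s+3)` (`w >= 20 * 2^(s+3) >= W + 2 (l-1)`); `int kap (x-z) e j z dz = (coefficient of e j) * e j x`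
(`e_add_arg`, `integral_e`). Bound: `norm_ev_Plat`: `<= W * 4/(1+2^(s+4)||x||)^2 <= 500 * 2^s / (1+2^s||x||)^2`.
-/

open MeasureTheory Complex Polynomial
open scoped ComplexConjugate

namespace CH

private theorem e_neg_arg (n : ℤ) (z : T) : e n (-z) = e (-n) z := by
  unfold e; simp [fourier_apply]

private theorem e_sub_arg (n : ℤ) (x z : T) : e n (x - z) = e n x * e (-n) z := by
  rw [sub_eq_add_neg, e_add_arg, e_neg_arg]

private theorem ev_continuous (p : ℝ[X]) : Continuous (ev p) := by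
  have h : ev p = fun x => ∑ v ∈ Finset.range (p.natDegree + 1), (p.coeff v : ℂ) * e (-(v : ℤ)) x := by
    funext x
    exact ev_eq_sum p _ (Nat.lt_succ_self _) x
  rw [h]
  exact continuous_finsetSum _ fun v _ => continuous_const.mul (e_continuous _)

private theorem e_integrable (n : ℤ) : Integrable (e n) := (e_memLp n 1).integrable le_rfl

private theorem int_ev (p : ℝ[X]) (m j : ℤ) (x : T) :
    ∫ z, (e m (x - z) * ev p (x - z)) * e j z =
      if 0 ≤ m - j then (p.coeff (m - j).toNat : ℂ) * e j x else 0 := by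
  have h1 : ∀ z, (e m (x - z) * ev p (x - z)) * e j z =
      ∑ v ∈ Finset.range (p.natDegree + 1),
        ((p.coeff v : ℂ) * e (m - v) x) * e (j - (m - v)) z := by
    intro z
    rw [ev_eq_sum p _ (Nat.lt_succ_self _) (x - z), Finset.mul_sum, Finset.sum_mul]
    refine Finset.sum_congr rfl fun v _ => ?_
    rw [e_sub_arg, e_sub_arg, neg_neg, sub_eq_add_neg m (v : ℤ), e_add m (-(v : ℤ)) x,
      show j - (m + -(v : ℤ)) = (-m + v) + j by ring, e_add, e_add]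
    ring
  simp_rw [h1]
  rw [integral_finsetSum _ fun v _ => (e_integrable _).const_mul _]
  simp_rw [integral_const_mul, integral_e]
  split_ifs with h
  · obtain ⟨w, hw⟩ := Int.eq_ofNat_of_zero_le h
    rw [hw, Int.toNat_natCast]
    by_cases hK : w < p.natDegree + 1
    · rw [Finset.sum_eq_single w]
      · rw [if_pos (by omega), mul_one, show m - (w : ℤ) = j by omega]
      · intro b _ hb
        rw [if_neg (by omega), mul_zero]
      · intro hn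
        exact absurd (Finset.mem_range.2 hK) hn
    · rw [Polynomial.coeff_eq_zero_of_natDegree_lt (by omega)]
      rw [Finset.sum_eq_zero]
      · simp
      · intro b hb
        have := Finset.mem_range.1 hb
        rw [if_neg (by omega), mul_zero]
  · refine Finset.sum_eq_zero fun b _ => ?_
    rw [if_neg (by omega), mul_zero]

theorem kap_exists (s : ℕ) (xi : ℤ) : ∃ kap : T → ℂ, Continuous kap ∧
    (∀ x, ‖kap x‖ ≤ 500 * 2 ^ s / (1 + 2 ^ s * ‖x‖) ^ 2) ∧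
    (∀ j : ℤ, 0 ≤ xi - j → xi - j ≤ 9 * 2 ^ (s + 3) → ∀ x, ∫ z, kap (x - z) * e j z = e j x) ∧
    (∀ j : ℤ, 16 * 2 ^ (s + 3) ≤ xi - j → ∀ x, ∫ z, kap (x - z) * e j z = 0) := by
  have hl : 1 ≤ 2 ^ (s + 4) := Nat.one_le_two_pow
  have e3 : (2 : ℕ) ^ (s + 3) = 8 * 2 ^ s := by rw [pow_add]; ring
  have e4 : (2 : ℕ) ^ (s + 4) = 16 * 2 ^ s := by rw [pow_add]; ring
  have z3 : (2 : ℤ) ^ (s + 3) = 8 * 2 ^ s := by rw [pow_add]; ring
  have z5 : (2 : ℤ) ^ (s + 5) = 32 * 2 ^ s := by rw [pow_add]; ring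
  have hz : (((2 : ℕ) ^ s : ℕ) : ℤ) = 2 ^ s := by push_cast; ring
  have hpos : 1 ≤ (2 : ℕ) ^ s := Nat.one_le_two_pow
  refine ⟨fun x => e (xi + 2 ^ (s + 5)) x * ev (Plat (13 * 2 ^ (s + 3) + 1) (2 ^ (s + 4)) 2) x,
    (e_continuous _).mul (ev_continuous _), ?_, ?_, ?_⟩
  · intro x
    rw [norm_mul, norm_e, one_mul]
    refine (norm_ev_Plat _ _ 2 hl x).trans ?_
    have hx := norm_nonneg x
    have h2 : (1 : ℝ) ≤ 2 ^ s := one_le_pow₀ (by norm_num)
    have h3 : (((13 * 2 ^ (s + 3) + 1 : ℕ)) : ℝ) ≤ 105 * 2 ^ s := by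
      rw [e3]; push_cast; linarith
    have h4 : (1 : ℝ) + 2 ^ s * ‖x‖ ≤ 1 + ((2 ^ (s + 4) : ℕ) : ℝ) * ‖x‖ := by
      rw [e4]; push_cast
      nlinarith [mul_nonneg (le_trans zero_le_one h2) hx]
    have h5 : 0 < 1 + (2 : ℝ) ^ s * ‖x‖ := by positivity
    have h6 : (2 / (1 + ((2 ^ (s + 4) : ℕ) : ℝ) * ‖x‖)) ^ 2 ≤ 4 / (1 + 2 ^ s * ‖x‖) ^ 2 := by
      rw [div_pow]
      have h7 : (1 + (2 : ℝ) ^ s * ‖x‖) ^ 2 ≤ (1 + ((2 ^ (s + 4) : ℕ) : ℝ) * ‖x‖) ^ 2 :=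
        pow_le_pow_left₀ h5.le h4 2
      have h8 : ((2 : ℝ)) ^ 2 = 4 := by norm_num
      rw [h8]
      exact div_le_div_of_nonneg_left (by norm_num) (by positivity) h7
    calc (((13 * 2 ^ (s + 3) + 1 : ℕ)) : ℝ) * (2 / (1 + ((2 ^ (s + 4) : ℕ) : ℝ) * ‖x‖)) ^ 2
        ≤ (105 * 2 ^ s) * (4 / (1 + 2 ^ s * ‖x‖) ^ 2) := by gcongr
      _ = 420 * 2 ^ s / (1 + 2 ^ s * ‖x‖) ^ 2 := by ring
      _ ≤ 500 * 2 ^ s / (1 + 2 ^ s * ‖x‖) ^ 2 := by
        gcongr
        norm_num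
  · intro j h0 h1 x
    simp only []
    rw [int_ev, if_pos (by rw [z5]; linarith [pow_pos (show (0:ℤ) < 2 by norm_num) s])]
    obtain ⟨d, hd⟩ := Int.eq_ofNat_of_zero_le h0
    have hw : (xi + 2 ^ (s + 5) - j).toNat = d + 32 * 2 ^ s := by
      rw [z5, show xi + 32 * 2 ^ s - j = (xi - j) + 32 * 2 ^ s by ring, hd, ← hz]
      omega
    have hd9 : d ≤ 72 * 2 ^ s := by
      rw [hd, z3, ← hz] at h1
      omega
    rw [hw, plat_one _ _ _ _ hl (by rw [e4]; omega) (by rw [e3]; omega)]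
    simp
  · intro j h1 x
    simp only []
    have h0 : 0 ≤ xi - j := le_trans (by positivity) h1
    rw [int_ev, if_pos (by rw [z5]; linarith [pow_pos (show (0:ℤ) < 2 by norm_num) s])]
    obtain ⟨d, hd⟩ := Int.eq_ofNat_of_zero_le h0
    have hw : (xi + 2 ^ (s + 5) - j).toNat = d + 32 * 2 ^ s := by
      rw [z5, show xi + 32 * 2 ^ s - j = (xi - j) + 32 * 2 ^ s by ring, hd, ← hz]
      omega
    have hd9 : 128 * 2 ^ s ≤ d := by
      rw [hd, z3, ← hz] at h1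
      omega
    rw [hw, plat_zero _ _ _ _ hl (by rw [e3, e4]; omega)]
    simp

end CH
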