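import Mathlib
import Pool.Agent.CH.AGeo
import Pool.Agent.CH.TDefs

/-!
CH-TGood. The stopping level `rr TT x`.
* `nb_parent`: if `i, j` are (cyclic) neighbours mod `2^(r+1)` then `i/2, j/2` are neighbours mod `2^r`
  (`i + 1 = j + 2^(r+1) k` over the integers gives `(i+1)/2 = j/2 + 2^r k` and `(i+1)/2` is `i/2` or `i/2 + 1`).
* `good_child`: so goodness passes from `D r (i/2)` to `D (r+1) i`, hence (`idx r x = idx (r+1) x / 2`)
  `good_iff`: `good TT r (idx r x) <-> rr TT x <= r`.
* `rr_cell`: `idx (rr x) y = idx (rr x) x` implies `rr y = rr x`: `y` is good at level `rr x`, so `rr y <= rr x`, so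
  `idx (rr y) y = idx (rr y) x` and `x` is good at level `rr y`.
* `rr_pos`: every index is a neighbour mod `2^0 = 1`.
* `rr_parent`: `rr x - 1` is not good.
* `rr_meas`: `{x | rr x <= r} = {x | idx r x in some set}` is measurable.
-/

open MeasureTheory

namespace CH

theorem TGood_half (r a b : ℕ) (h : a % 2 ^ (r + 1) = b % 2 ^ (r + 1)) :
    a / 2 % 2 ^ r = b / 2 % 2 ^ r := by
  rw [← Nat.mod_mul_right_div_self, ← Nat.mod_mul_right_div_self, ← pow_succ', h]

theorem TGood_half_succ (r i j : ℕ) (h : (i + 1) % 2 ^ (r + 1) = j % 2 ^ (r + 1)) :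
    (i / 2 + 1) % 2 ^ r = j / 2 % 2 ^ r ∨ i / 2 % 2 ^ r = j / 2 % 2 ^ r := by
  have h1 := TGood_half r (i + 1) j h
  have h2 : (i + 1) / 2 = i / 2 + 1 ∨ (i + 1) / 2 = i / 2 := by omega
  rcases h2 with h2 | h2
  · left; rw [← h2, h1]
  · right; rw [← h2, h1]

theorem nb_parent (r i j : ℕ) (h : nb (r + 1) i j) : nb r (i / 2) (j / 2) := by
  unfold nb at *
  rcases h with h | h | h
  · rcases TGood_half_succ r i j h with h | h
    · exact Or.inl h
    · exact Or.inr (Or.inl h)
  · exact Or.inr (Or.inl (TGood_half r i j h))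
  · rcases TGood_half_succ r j i h with h | h
    · exact Or.inr (Or.inr h)
    · exact Or.inr (Or.inl h.symm)

theorem good_child (TT : Finset Tile) (r i : ℕ) (h : good TT r (i / 2)) : good TT (r + 1) i := by
  intro P hP hs hn
  refine h P hP (by omega) ?_
  have h1 := nb_parent r _ _ hn
  have h2 : P.n / 2 ^ (P.s - (r + 1)) / 2 = P.n / 2 ^ (P.s - r) := by
    rw [Nat.div_div_eq_div_mul, ← pow_succ]
    congr 2
    omega
  rwa [h2] at h1

theorem rr_good (TT : Finset Tile) (x : T) : good TT (rr TT x) (idx (rr TT x) x) := by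
  classical
  have h := Nat.find_spec (exists_good TT x)
  unfold rr
  convert h

theorem good_iff (TT : Finset Tile) (x : T) (r : ℕ) : good TT r (idx r x) ↔ rr TT x ≤ r := by
  constructor
  · intro h
    classical
    have h1 := Nat.find_min' (exists_good TT x) h
    unfold rr
    convert h1
  · intro h
    induction r, h using Nat.le_induction with
    | base => exact rr_good TT x
    | succ n hn ih =>
      apply good_child
      have := idx_anc (n + 1) n (Nat.le_succ n) x
      rw [Nat.add_sub_cancel_left, pow_one] at this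
      rw [← this]
      exact ih

theorem rr_cell (TT : Finset Tile) (x y : T) (h : idx (rr TT x) y = idx (rr TT x) x) :
    rr TT y = rr TT x := by
  have h1 : rr TT y ≤ rr TT x := by
    rw [← good_iff, h]
    exact rr_good TT x
  apply le_antisymm h1
  rw [← good_iff, idx_anc _ _ h1 x, ← h, ← idx_anc _ _ h1 y]
  exact rr_good TT y

theorem rr_pos (TT : Finset Tile) (h : TT.Nonempty) (x : T) : 1 ≤ rr TT x := by
  by_contra hc
  have h0 : rr TT x = 0 := by omega
  have h1 := rr_good TT x
  rw [h0] at h1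
  obtain ⟨P, hP⟩ := h
  refine h1 P hP (Nat.zero_le _) ?_
  left
  simp [Nat.mod_one]

theorem rr_parent (TT : Finset Tile) (h : TT.Nonempty) (x : T) :
    ∃ P ∈ TT, rr TT x - 1 ≤ P.s ∧
      nb (rr TT x - 1) (P.n / 2 ^ (P.s - (rr TT x - 1))) (idx (rr TT x - 1) x) := by
  have h1 := rr_pos TT h x
  have h2 : ¬ good TT (rr TT x - 1) (idx (rr TT x - 1) x) := by
    rw [good_iff]; omega
  unfold good at h2
  push Not at h2
  exact h2

theorem rr_bdd (TT : Finset Tile) (x : T) : rr TT x ≤ TT.sup Tile.s + 1 := by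
  rw [← good_iff]
  intro P hP h
  have : P.s ≤ TT.sup Tile.s := Finset.le_sup (f := Tile.s) hP
  omega

theorem rr_meas (TT : Finset Tile) : Measurable (rr TT) := by
  refine measurable_of_Iic fun r => ?_
  have : rr TT ⁻¹' Set.Iic r = idx r ⁻¹' {i | good TT r i} := by
    ext x
    simp only [Set.mem_preimage, Set.mem_Iic, Set.mem_ofPred_eq, good_iff]
  rw [this]
  exact measurable_idx r (MeasurableSet.of_discrete)

theorem QT_meas (TT : Finset Tile) (N : T → ℤ) (hN : Measurable N) : MeasurableSet (QT TT N) := by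
  have : QT TT N = ⋃ P ∈ TT, (rr TT ⁻¹' {r | P.s + 2 ≤ r} ∩ N ⁻¹' {xi | P.inJ xi}) := by
    ext x
    simp only [QT, Set.mem_ofPred_eq, Set.mem_iUnion, Set.mem_inter_iff, Set.mem_preimage,
      exists_prop]
  rw [this]
  refine Finset.measurableSet_biUnion _ fun P _ => ?_
  exact (rr_meas TT MeasurableSet.of_discrete).inter (hN MeasurableSet.of_discrete)

end CH
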