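import Mathlib
import Pool.Agent.CH.AGeo
import Pool.Agent.CH.TGood

/-!
CH-TNb. Neighbours and distances.
* `nb_of_close`: if `||x - y|| < 2^-r` then the level-`r` indices are equal or cyclic neighbours. (`r = 0` trivial. Let
  `a = rep x`, `b = rep y` in `[0,1)`; `||x-y|| = min |a-b| (1-|a-b|)`, i.e. `|a - b - k| < 2^-r` for some `k in {-1,0,1}`;
  so `|2^r a - 2^r b - 2^r k| < 1` and the floors satisfy `|floor (2^r a) - floor (2^r b) - 2^r k| <= 1`.)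
* `close_of_nb`: neighbours (for `idx r x, idx r y < 2^r`) give `||x - y|| <= 2 / 2^r` (`2^r a - 2^r b - 2^r k` differs from an
  integer of absolute value `<= 1` by less than 1).
* `rr_far`: for `P in TT`, `rr x <= P.s`: with `r = rr x` the ancestor of `P` of level `r` is not a neighbour of `idx r x`; it
  is `idx r (c_P)` (`idx P.s (cpt P.s P.n) = P.n` as `P.n < 2^P.s`), so `||x - c_P|| >= 2^-r` by `nb_of_close`.
* `rr_near`: with `r = rr x >= 1`: some `P in TT` with `r - 1 <= P.s` and `||x - c_P|| <= 2/2^(r-1) = 4/2^r`.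
-/

open MeasureTheory

namespace CH

theorem TNb_norm (x y : T) : ‖x - y‖ = |rep x - rep y - round (rep x - rep y)| := by
  have h : x - y = ((rep x - rep y : ℝ) : T) := by
    rw [AddCircle.coe_sub, coe_rep, coe_rep]
  rw [h, UnitAddCircle.norm_eq]

theorem TNb_floor (r : ℕ) (x : T) :
    (idx r x : ℝ) ≤ 2 ^ r * rep x ∧ 2 ^ r * rep x < (idx r x : ℝ) + 1 := by
  have h0 : 0 ≤ (2 : ℝ) ^ r * rep x := mul_nonneg (by positivity) (rep_nonneg x)
  exact ⟨Nat.floor_le h0, Nat.lt_floor_add_one _⟩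

theorem nb_of_close (r : ℕ) (x y : T) (h : ‖x - y‖ < 1 / 2 ^ r) : nb r (idx r y) (idx r x) := by
  rw [TNb_norm] at h
  obtain ⟨k, hk⟩ : ∃ k : ℤ, k = round (rep x - rep y) := ⟨_, rfl⟩
  rw [← hk] at h
  have hN : (0 : ℝ) < 2 ^ r := by positivity
  rw [lt_div_iff₀ hN] at h
  obtain ⟨ha1, ha2⟩ := TNb_floor r x
  obtain ⟨hb1, hb2⟩ := TNb_floor r y
  have h1 : |2 ^ r * rep x - 2 ^ r * rep y - 2 ^ r * (k : ℝ)| < 1 := by
    have e : 2 ^ r * rep x - 2 ^ r * rep y - 2 ^ r * (k : ℝ) = 2 ^ r * (rep x - rep y - k) := by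
      ring
    rw [e, abs_mul, abs_of_pos hN, mul_comm]
    exact h
  rw [abs_lt] at h1
  have h2 : (idx r x : ℤ) - idx r y - 2 ^ r * k < 2 := by
    have : ((idx r x : ℤ) - idx r y - 2 ^ r * k : ℝ) < 2 := by
      push_cast
      linarith
    exact_mod_cast this
  have h3 : -2 < (idx r x : ℤ) - idx r y - 2 ^ r * k := by
    have : (-2 : ℝ) < ((idx r x : ℤ) - idx r y - 2 ^ r * k : ℝ) := by
      push_cast
      linarith
    exact_mod_cast this
  have hc : (idx r x : ℤ) - idx r y - 2 ^ r * k = 1 ∨ (idx r x : ℤ) - idx r y - 2 ^ r * k = 0 ∨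
      (idx r x : ℤ) - idx r y - 2 ^ r * k = -1 := by omega
  unfold nb
  rcases hc with h | h | h
  · left
    have : (((idx r y + 1 : ℕ) : ℤ)) ≡ ((idx r x : ℕ) : ℤ) [ZMOD ((2 ^ r : ℕ) : ℤ)] := by
      rw [Int.modEq_iff_dvd]
      exact ⟨k, by push_cast; linarith⟩
    exact Int.natCast_modEq_iff.1 this
  · right; left
    have : (((idx r y : ℕ) : ℤ)) ≡ ((idx r x : ℕ) : ℤ) [ZMOD ((2 ^ r : ℕ) : ℤ)] := by
      rw [Int.modEq_iff_dvd]
      exact ⟨k, by push_cast; linarith⟩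
    exact Int.natCast_modEq_iff.1 this
  · right; right
    have : (((idx r x + 1 : ℕ) : ℤ)) ≡ ((idx r y : ℕ) : ℤ) [ZMOD ((2 ^ r : ℕ) : ℤ)] := by
      rw [Int.modEq_iff_dvd]
      exact ⟨-k, by push_cast; linarith⟩
    exact Int.natCast_modEq_iff.1 this

theorem close_of_nb (r : ℕ) (x y : T) (h : nb r (idx r y) (idx r x)) : ‖x - y‖ ≤ 2 / 2 ^ r := by
  have hN : (0 : ℝ) < 2 ^ r := by positivity
  obtain ⟨k, hk⟩ : ∃ k : ℤ, (idx r x : ℤ) - idx r y - 2 ^ r * k ≤ 1 ∧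
      -1 ≤ (idx r x : ℤ) - idx r y - 2 ^ r * k := by
    unfold nb at h
    rcases h with h | h | h
    · have h' : (((idx r y + 1 : ℕ) : ℤ)) ≡ ((idx r x : ℕ) : ℤ) [ZMOD ((2 ^ r : ℕ) : ℤ)] :=
        Int.natCast_modEq_iff.2 h
      rw [Int.modEq_iff_dvd] at h'
      obtain ⟨k, hk⟩ := h'
      refine ⟨k, ?_⟩
      push_cast at hk
      constructor <;> linarith
    · have h' : (((idx r y : ℕ) : ℤ)) ≡ ((idx r x : ℕ) : ℤ) [ZMOD ((2 ^ r : ℕ) : ℤ)] :=
        Int.natCast_modEq_iff.2 h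
      rw [Int.modEq_iff_dvd] at h'
      obtain ⟨k, hk⟩ := h'
      refine ⟨k, ?_⟩
      push_cast at hk
      constructor <;> linarith
    · have h' : (((idx r x + 1 : ℕ) : ℤ)) ≡ ((idx r y : ℕ) : ℤ) [ZMOD ((2 ^ r : ℕ) : ℤ)] :=
        Int.natCast_modEq_iff.2 h
      rw [Int.modEq_iff_dvd] at h'
      obtain ⟨k, hk⟩ := h'
      refine ⟨-k, ?_⟩
      push_cast at hk
      constructor <;> linarith
  obtain ⟨hk1, hk2⟩ := hk
  have hk1' : (idx r x : ℝ) - idx r y - 2 ^ r * k ≤ 1 := by exact_mod_cast hk1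
  have hk2' : (-1 : ℝ) ≤ (idx r x : ℝ) - idx r y - 2 ^ r * k := by exact_mod_cast hk2
  obtain ⟨ha1, ha2⟩ := TNb_floor r x
  obtain ⟨hb1, hb2⟩ := TNb_floor r y
  rw [TNb_norm]
  refine (round_le _ k).trans ?_
  rw [le_div_iff₀ hN]
  have e : |rep x - rep y - (k : ℝ)| * 2 ^ r
      = |2 ^ r * rep x - 2 ^ r * rep y - 2 ^ r * (k : ℝ)| := by
    rw [show 2 ^ r * rep x - 2 ^ r * rep y - 2 ^ r * (k : ℝ) = 2 ^ r * (rep x - rep y - k) by ring,
      abs_mul, abs_of_pos hN, mul_comm]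
  rw [e, abs_le]
  constructor <;> linarith

theorem TNb_idx (P : Tile) (hok : P.ok) (r : ℕ) (h : r ≤ P.s) :
    P.n / 2 ^ (P.s - r) = idx r P.c := by
  have h1 : idx P.s P.c = P.n := cpt_mem_D hok
  rw [← idx_div' h P.c, h1]

theorem rr_far (TT : Finset Tile) (hok : ∀ P ∈ TT, P.ok) (x : T) (P : Tile) (hP : P ∈ TT)
    (h : rr TT x ≤ P.s) : 1 / 2 ^ rr TT x ≤ ‖x - P.c‖ := by
  by_contra hcon
  push Not at hcon
  have h1 := nb_of_close (rr TT x) x P.c hcon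
  have h2 := rr_good TT x P hP h
  rw [TNb_idx P (hok P hP) _ h] at h2
  exact h2 h1

theorem rr_near (TT : Finset Tile) (hok : ∀ P ∈ TT, P.ok) (hne : TT.Nonempty) (x : T) :
    ∃ P ∈ TT, rr TT x - 1 ≤ P.s ∧ ‖x - P.c‖ ≤ 4 / 2 ^ rr TT x := by
  obtain ⟨P, hP, h1, h2⟩ := rr_parent TT hne x
  refine ⟨P, hP, h1, ?_⟩
  rw [TNb_idx P (hok P hP) _ h1] at h2
  have h3 := close_of_nb _ _ _ h2
  have h4 := rr_pos TT hne x
  have h5 : (2 : ℝ) ^ rr TT x = 2 * 2 ^ (rr TT x - 1) := by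
    rw [← pow_succ']
    congr 1
    omega
  rw [h5]
  refine h3.trans (le_of_eq ?_)
  field_simp
  norm_num

end CH
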