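import Mathlib
import Pool.Agent.CH.AGeo
import Pool.Agent.CH.TNb

/-!
CH-TNear. Points of the bad set `QT` and their cells are near the top. Let `x in QT`, `y` in its cell, `r' = rr x`. Some `P in TT`
has `P.s + 2 <= r'`, and `t.1 <= P.s`, so `t.1 + 2 <= r'` and `TT` is nonempty. `rr_near` : `P1 in TT`,
`||x - c_{P1}|| <= 4/2^r' <= 1/2^t.1`; `||c_{P1} - c_T|| <= 1/2^t.1` (`c_{P1}` lies in `D t.1 t.2.1`); `||x-y|| <= 1/2^r'`.
Also `rho_T x <= 2 rho_T y` (`||x-y|| <= 1/2^t.1`).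
-/

open MeasureTheory

namespace CH

private theorem TNear_cell (s : ℕ) (x y : T) (h : idx s y = idx s x) : ‖x - y‖ ≤ 1 / 2 ^ s := by
  have key : ∀ a : T, rep a - (idx s a : ℝ) / 2 ^ s ∈ Set.Ico (0 : ℝ) (1 / 2 ^ s) := by
    intro a
    have h2 : (0 : ℝ) < 2 ^ s := by positivity
    have h1 := Nat.floor_le (a := (2 : ℝ) ^ s * rep a) (mul_nonneg h2.le (rep_nonneg a))
    have h3 := Nat.lt_floor_add_one ((2 : ℝ) ^ s * rep a)
    change ((idx s a : ℕ) : ℝ) ≤ _ at h1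
    change _ < ((idx s a : ℕ) : ℝ) + 1 at h3
    constructor
    · rw [sub_nonneg, div_le_iff₀ h2]
      linarith
    · rw [sub_lt_iff_lt_add, ← add_div, lt_div_iff₀ h2]
      linarith
  have h1 := key x
  have h2 := key y
  rw [h] at h2
  have h3 : |rep x - rep y| ≤ 1 / 2 ^ s := by
    rw [abs_le]
    constructor
    · linarith [h1.1, h2.2]
    · linarith [h1.2, h2.1]
  have h4 : x - y = ((rep x - rep y : ℝ) : T) := by
    rw [AddCircle.coe_sub, coe_rep, coe_rep]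
  rw [h4]
  refine le_trans ?_ h3
  rw [UnitAddCircle.norm_eq]
  have h5 := round_le (rep x - rep y) 0
  simpa using h5

theorem tNear (TT : Finset Tile) (t : ℕ × ℕ × ℤ) (r : ℕ) (hT : IsTree TT t r) (N : T → ℤ)
    (x : T) (hx : x ∈ QT TT N) (y : T) (hy : idx (rr TT x) y = idx (rr TT x) x) :
    t.1 + 2 ≤ rr TT x ∧ ‖x - y‖ ≤ 1 / 2 ^ rr TT x ∧ ‖y - cpt t.1 t.2.1‖ ≤ 3 / 2 ^ t.1 ∧
      rho t.1 y (cpt t.1 t.2.1) ≤ 2 * rho t.1 x (cpt t.1 t.2.1) := by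
  obtain ⟨P, hP, hPs, -⟩ := hx
  have h1 : t.1 ≤ P.s := (hT.tr P hP).1.1
  have h2 : t.1 + 2 ≤ rr TT x := by omega
  have h3 := TNear_cell (rr TT x) x y hy
  obtain ⟨P1, hP1, -, h5⟩ := rr_near TT hT.ok ⟨P, hP⟩ x
  have h6 : P1.c ∈ D t.1 t.2.1 := D_subset_of_tin (hT.tr P1 hP1).1 (cpt_mem_D (hT.ok P1 hP1))
  have h7 := norm_sub_cpt_le' h6
  have h8 : (4 : ℝ) / 2 ^ rr TT x ≤ 1 / 2 ^ t.1 := by
    rw [div_le_div_iff₀ (by positivity) (by positivity), one_mul]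
    calc (4 : ℝ) * 2 ^ t.1 = 2 ^ (t.1 + 2) := by rw [pow_add]; ring
      _ ≤ 2 ^ rr TT x := pow_le_pow_right₀ (by norm_num) h2
  have h9 : (1 : ℝ) / 2 ^ rr TT x ≤ 1 / 2 ^ t.1 := by
    refine le_trans ?_ h8
    gcongr
    norm_num
  have h10 : ‖x - y‖ ≤ 1 / 2 ^ t.1 := h3.trans h9
  refine ⟨h2, h3, ?_, ?_⟩
  · calc ‖y - cpt t.1 t.2.1‖ = ‖-(x - y) + ((x - P1.c) + (P1.c - cpt t.1 t.2.1))‖ := by
          congr 1; abel
      _ ≤ ‖-(x - y)‖ + (‖x - P1.c‖ + ‖P1.c - cpt t.1 t.2.1‖) :=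
          (norm_add_le _ _).trans (add_le_add le_rfl (norm_add_le _ _))
      _ ≤ 1 / 2 ^ t.1 + (1 / 2 ^ t.1 + 1 / 2 ^ t.1) := by
          rw [norm_neg]
          exact add_le_add h10 (add_le_add (h5.trans h8) h7)
      _ = 3 / 2 ^ t.1 := by ring
  · refine rho_le_two_mul ?_ _
    rw [norm_sub_rev]
    exact h10

end CH
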