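import Mathlib
import Pool.Agent.CH.AGeo
import Pool.Agent.CH.TKap
import Pool.Agent.CH.TDom
import Pool.Agent.CH.TNear

/-!
CH-TA. Class A, pointwise. `xi = t.2.2`, `TA = TT.filter (inJ xi)`, `G = sum_{P in TA} c P phi P`.
* `kap_phi`: let `kap = kap_exists s xi`, `P in TA`. By `WP.trig`, `phi P` is a combination of `e j`, `mid - 2^(P.s+6) <= j <= mid - 2^(P.s+3)`;
  `P.inJ xi` gives `mid <= xi < mid + 2^(P.s+3)`, so `2^(P.s+3) <= xi - j < 9 * 2^(P.s+3)`. Hence `int kap (x-z) phi P z dz = phi P x` if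
  `P.s <= s`, `0` if `P.s >= s + 4` (`16*2^(s+3) = 2^(s+7) <= 2^(P.s+3)`).
* `kap_G`: so for `s % 4 = r`: `int kap (x-z) G z dz = sum_{P in TA, P.s <= s} c P phi P x`.
* `tA_pt`: let `x in QT`, `y` in its cell. `P in TA` is active at `x` iff `N x / 2^(P.s+3) = xi / 2^(P.s+3)` (both are `16 P.m + 8`); this
  condition on the level is inherited by larger levels. If the sum is empty: trivial. Otherwise let `s1` be the smallest level `s` with
  `s % 4 = r` and `N x / 2^(s+3) = xi / 2^(s+3)`, `s2` the largest with `s % 4 = r`, `s + 2 <= rr x`. The sum is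
  `sum_{TA, P.s <= s2} - sum_{TA, P.s < s1}` and `P.s < s1` means `P.s <= s1 - 4` (empty if `s1 < 4`). Both levels `s2`, `s1 - 4` satisfy
  `s + 2 <= rr x`, so `||x - y|| <= 2^-(rr x) <= 2^-(s+2)`, and `s <= TT.sup Tile.s` (`rr_bdd`). Apply `tDom` twice:
  `<= 2 * 16 * 500 * MK`.
-/

open MeasureTheory

namespace CH

theorem TA_integrable {f : T → ℂ} (hf : Continuous f) : Integrable f :=
  hf.integrable_of_hasCompactSupport (HasCompactSupport.of_compactSpace _)

theorem kap_phi (C1 : ℝ) (phi : Tile → T → ℂ) (hphi : WP C1 phi) (s : ℕ) (xi : ℤ) (kap : T → ℂ)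
    (hc : Continuous kap)
    (h1 : ∀ j : ℤ, 0 ≤ xi - j → xi - j ≤ 9 * 2 ^ (s + 3) → ∀ x, ∫ z, kap (x - z) * e j z = e j x)
    (h2 : ∀ j : ℤ, 16 * 2 ^ (s + 3) ≤ xi - j → ∀ x, ∫ z, kap (x - z) * e j z = 0)
    (P : Tile) (hP : P.inJ xi) (x : T) :
    (P.s ≤ s → ∫ z, kap (x - z) * phi P z = phi P x) ∧
    (s + 4 ≤ P.s → ∫ z, kap (x - z) * phi P z = 0) := by
  obtain ⟨cc, hcc⟩ := hphi.trig P
  have hkc : Continuous (fun z => kap (x - z)) := hc.comp (continuous_const.sub continuous_id)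
  have hint : ∀ j : ℤ, Integrable (fun z => cc j * (kap (x - z) * e j z)) := by
    intro j
    exact TA_integrable (continuous_const.mul (hkc.mul (e_continuous j)))
  have hsum : ∫ z, kap (x - z) * phi P z =
      ∑ j ∈ Finset.Icc (P.mid - 2 ^ (P.s + 6)) (P.mid - 2 ^ (P.s + 3)),
        cc j * ∫ z, kap (x - z) * e j z := by
    have e1 : ∀ z, kap (x - z) * phi P z =
        ∑ j ∈ Finset.Icc (P.mid - 2 ^ (P.s + 6)) (P.mid - 2 ^ (P.s + 3)),
          cc j * (kap (x - z) * e j z) := by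
      intro z
      rw [hcc z, Finset.mul_sum]
      refine Finset.sum_congr rfl fun j _ => by ring
    simp_rw [e1]
    rw [integral_finsetSum _ (fun j _ => hint j)]
    refine Finset.sum_congr rfl fun j _ => ?_
    rw [integral_const_mul]
  -- arithmetic of frequencies
  have hp : (0 : ℤ) < 2 ^ (P.s + 3) := by positivity
  have hJ : xi / 2 ^ (P.s + 3) = 16 * P.m + 8 := hP
  have hlo : (16 * P.m + 8) * 2 ^ (P.s + 3) ≤ xi := by
    rw [← hJ]; exact Int.ediv_mul_le xi hp.ne'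
  have hhi : xi < (16 * P.m + 8 + 1) * 2 ^ (P.s + 3) := by
    rw [← hJ]; exact Int.lt_ediv_add_one_mul_self xi hp
  have hmid : P.mid = (16 * P.m + 8) * 2 ^ (P.s + 3) := by
    unfold Tile.mid
    rw [show P.s + 7 = (P.s + 3) + 4 by ring, show P.s + 6 = (P.s + 3) + 3 by ring, pow_add, pow_add]
    ring
  have h6 : (2 : ℤ) ^ (P.s + 6) = 8 * 2 ^ (P.s + 3) := by
    rw [show P.s + 6 = (P.s + 3) + 3 by ring, pow_add]; ring
  rw [hsum]
  constructor
  · intro hs
    have hle : (2 : ℤ) ^ (P.s + 3) ≤ 2 ^ (s + 3) := pow_le_pow_right₀ (by norm_num) (by omega)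
    rw [hcc x]
    refine Finset.sum_congr rfl fun j hj => ?_
    rw [Finset.mem_Icc, h6, hmid] at hj
    rw [h1 j (by nlinarith [hj.2]) (by nlinarith [hj.1])]
  · intro hs
    have hle : (2 : ℤ) ^ (s + 7) ≤ 2 ^ (P.s + 3) := pow_le_pow_right₀ (by norm_num) (by omega)
    have h16 : (2 : ℤ) ^ (s + 7) = 16 * 2 ^ (s + 3) := by
      rw [show s + 7 = (s + 3) + 4 by ring, pow_add]; ring
    refine Finset.sum_eq_zero fun j hj => ?_
    rw [Finset.mem_Icc, h6, hmid] at hj
    rw [h2 j (by nlinarith [hj.2]), mul_zero]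

theorem phi_cont (C1 : ℝ) (phi : Tile → T → ℂ) (hphi : WP C1 phi) (P : Tile) :
    Continuous (phi P) := by
  obtain ⟨cc, hcc⟩ := hphi.trig P
  have : phi P = fun x => ∑ j ∈ Finset.Icc (P.mid - 2 ^ (P.s + 6)) (P.mid - 2 ^ (P.s + 3)),
      cc j * e j x := funext hcc
  rw [this]
  exact continuous_finsetSum _ fun j _ => continuous_const.mul (e_continuous j)

/-- a truncated sum is dominated by the maximal function -/
theorem TA_trunc (C1 : ℝ) (phi : Tile → T → ℂ) (hphi : WP C1 phi) (c : Tile → ℂ) (xi : ℤ)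
    (A B : Finset Tile) (hA : ∀ P ∈ A, P.inJ xi) (s : ℕ) (hB : B ⊆ A)
    (hB1 : ∀ P ∈ B, P.s ≤ s) (hB2 : ∀ P ∈ A, P ∉ B → s + 4 ≤ P.s) (K : ℕ) (hsK : s ≤ K)
    (x y : T) (hxy : ‖x - y‖ ≤ 1 / 2 ^ (s + 2)) :
    ‖∑ P ∈ B, c P * phi P x‖ ≤ 8000 * MK K (fun z => ‖∑ P ∈ A, c P * phi P z‖) y := by
  classical
  obtain ⟨kap, hc, hb, h1, h2⟩ := kap_exists s xi
  have hkc : Continuous (fun z => kap (x - z)) := hc.comp (continuous_const.sub continuous_id)
  have hG : Continuous (fun z => ∑ P ∈ A, c P * phi P z) :=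
    continuous_finsetSum _ fun P _ => continuous_const.mul (phi_cont C1 phi hphi P)
  have hD := tDom K s hsK 500 (by norm_num) kap hc hb _ hG x y hxy
  have hid : ∫ z, kap (x - z) * ∑ P ∈ A, c P * phi P z = ∑ P ∈ B, c P * phi P x := by
    have e1 : ∀ z, kap (x - z) * ∑ P ∈ A, c P * phi P z =
        ∑ P ∈ A, c P * (kap (x - z) * phi P z) := by
      intro z
      rw [Finset.mul_sum]
      exact Finset.sum_congr rfl fun j _ => by ring
    have hint : ∀ P ∈ A, Integrable (fun z => c P * (kap (x - z) * phi P z)) := fun P _ =>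
      TA_integrable (continuous_const.mul (hkc.mul (phi_cont C1 phi hphi P)))
    simp_rw [e1]
    rw [integral_finsetSum _ hint]
    rw [← Finset.sum_subset hB]
    · refine Finset.sum_congr rfl fun P hP => ?_
      rw [integral_const_mul, (kap_phi C1 phi hphi s xi kap hc h1 h2 P (hA P (hB hP)) x).1
        (hB1 P hP)]
    · intro P hP hPB
      rw [integral_const_mul, (kap_phi C1 phi hphi s xi kap hc h1 h2 P (hA P hP) x).2
        (hB2 P hP hPB), mul_zero]
  rw [hid] at hD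
  linarith

theorem TA_mono (a b : ℤ) (s s' : ℕ) (h : s ≤ s') (hab : a / 2 ^ (s + 3) = b / 2 ^ (s + 3)) :
    a / 2 ^ (s' + 3) = b / 2 ^ (s' + 3) := by
  have e1 : (2 : ℤ) ^ (s' + 3) = 2 ^ (s + 3) * 2 ^ (s' - s) := by
    rw [← pow_add]; congr 1; omega
  rw [e1, ← Int.ediv_ediv_of_nonneg (by positivity), hab,
    Int.ediv_ediv_of_nonneg (by positivity)]

open Classical in
theorem tA_pt (C1 : ℝ) (phi : Tile → T → ℂ) (hphi : WP C1 phi) (N : T → ℤ) (c : Tile → ℂ)
    (TT : Finset Tile) (t : ℕ × ℕ × ℤ) (r : ℕ) (hT : IsTree TT t r) (x : T) (hx : x ∈ QT TT N)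
    (y : T) (hy : idx (rr TT x) y = idx (rr TT x) x) :
    ‖∑ P ∈ TT.filter (fun P => P.s + 2 ≤ rr TT x ∧ P.inJ (N x) ∧ P.inJ t.2.2), c P * phi P x‖ ≤
      16000 * MK (TT.sup Tile.s)
        (fun z => ‖∑ P ∈ TT.filter (fun P => P.inJ t.2.2), c P * phi P z‖) y := by
  set xi := t.2.2 with hxi
  set A := TT.filter (fun P => P.inJ xi) with hAdef
  set F := TT.filter (fun P => P.s + 2 ≤ rr TT x ∧ P.inJ (N x) ∧ P.inJ xi) with hFdef
  set K := TT.sup Tile.s with hK
  set M := MK K (fun z => ‖∑ P ∈ A, c P * phi P z‖) y with hM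
  have hM0 : 0 ≤ M := MK_nonneg K _ (fun _ => norm_nonneg _) y
  have hxy := (tNear TT t r hT N x hx y hy).2.1
  have hAJ : ∀ P ∈ A, P.inJ xi := fun P hP => (Finset.mem_filter.1 hP).2
  have hcl : ∀ P ∈ A, P.s % 4 = r := fun P hP => hT.cls P (Finset.mem_filter.1 hP).1
  have hsK : ∀ P ∈ A, P.s ≤ K := fun P hP =>
    Finset.le_sup (f := Tile.s) (Finset.mem_filter.1 hP).1
  rcases F.eq_empty_or_nonempty with hF | hF
  · rw [hF]; simp only [Finset.sum_empty, norm_zero]; positivity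
  -- smallest and largest level
  obtain ⟨P1, hP1, hP1m⟩ := Finset.exists_min_image F Tile.s hF
  obtain ⟨P2, hP2, hP2m⟩ := Finset.exists_max_image F Tile.s hF
  have hFA : ∀ P ∈ F, P ∈ A := fun P hP => by
    have := Finset.mem_filter.1 hP
    exact Finset.mem_filter.2 ⟨this.1, this.2.2.2⟩
  have h1 := Finset.mem_filter.1 hP1
  have h2 := Finset.mem_filter.1 hP2
  have hact1 : N x / 2 ^ (P1.s + 3) = xi / 2 ^ (P1.s + 3) := by
    have e1 : N x / 2 ^ (P1.s + 3) = 16 * P1.m + 8 := h1.2.2.1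
    have e2 : xi / 2 ^ (P1.s + 3) = 16 * P1.m + 8 := h1.2.2.2
    rw [e1, e2]
  have hmem : ∀ P ∈ A, P1.s ≤ P.s → P.s ≤ P2.s → P ∈ F := by
    intro P hP hlo hhi
    have h3 := Finset.mem_filter.1 hP
    refine Finset.mem_filter.2 ⟨h3.1, by have := h2.2.1; omega, ?_, h3.2⟩
    have e1 := TA_mono (N x) xi P1.s P.s hlo hact1
    have e2 : xi / 2 ^ (P.s + 3) = 16 * P.m + 8 := h3.2
    change N x / 2 ^ (P.s + 3) = 16 * P.m + 8
    rw [e1, e2]
  let B2 := A.filter (fun P => P.s ≤ P2.s)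
  let B1 := A.filter (fun P => P.s < P1.s)
  have hle12 : P1.s ≤ P2.s := hP1m P2 hP2
  have hdec : ∑ P ∈ F, c P * phi P x = (∑ P ∈ B2, c P * phi P x) - ∑ P ∈ B1, c P * phi P x := by
    have hsub : B1 ⊆ B2 := by
      intro P hP
      have := Finset.mem_filter.1 hP
      exact Finset.mem_filter.2 ⟨this.1, by omega⟩
    have hF2 : F = B2 \ B1 := by
      ext P
      rw [Finset.mem_sdiff]
      constructor
      · intro hP
        refine ⟨Finset.mem_filter.2 ⟨hFA P hP, hP2m P hP⟩, fun h => ?_⟩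
        have := (Finset.mem_filter.1 h).2
        have := hP1m P hP
        omega
      · rintro ⟨ha, hb⟩
        have h3 := Finset.mem_filter.1 ha
        refine hmem P h3.1 ?_ h3.2
        by_contra hlt
        exact hb (Finset.mem_filter.2 ⟨h3.1, not_le.1 hlt⟩)
    rw [hF2, eq_sub_iff_add_eq, Finset.sum_sdiff hsub]
  have hdist : ∀ s : ℕ, s + 2 ≤ rr TT x → ‖x - y‖ ≤ 1 / 2 ^ (s + 2) := by
    intro s hs
    refine hxy.trans ?_
    exact one_div_le_one_div_of_le (by positivity) (pow_le_pow_right₀ (by norm_num) hs)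
  have hb2 : ‖∑ P ∈ B2, c P * phi P x‖ ≤ 8000 * M := by
    refine TA_trunc C1 phi hphi c xi A B2 hAJ P2.s (Finset.filter_subset _ _)
      (fun P hP => (Finset.mem_filter.1 hP).2) ?_ K (hsK P2 (hFA P2 hP2)) x y (hdist _ h2.2.1)
    intro P hP hPB
    have h3 : P2.s < P.s := by
      by_contra hlt
      exact hPB (Finset.mem_filter.2 ⟨hP, not_lt.1 hlt⟩)
    have h4 := hcl P hP
    have h5 := hcl P2 (hFA P2 hP2)
    omega
  have hb1 : ‖∑ P ∈ B1, c P * phi P x‖ ≤ 8000 * M := by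
    have h5 := hcl P1 (hFA P1 hP1)
    by_cases h4 : P1.s < 4
    · have : B1 = ∅ := by
        refine Finset.filter_eq_empty_iff.2 fun P hP hlt => ?_
        have := hcl P hP
        omega
      rw [this]; simp only [Finset.sum_empty, norm_zero]; positivity
    · have hK1 := hsK P1 (hFA P1 hP1)
      have hr1 := h1.2.1
      refine TA_trunc C1 phi hphi c xi A B1 hAJ (P1.s - 4) (Finset.filter_subset _ _)
        ?_ ?_ K (by omega) x y (hdist _ (by omega))
      · intro P hP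
        have h6 := Finset.mem_filter.1 hP
        have := hcl P h6.1
        omega
      · intro P hP hPB
        have h3 : P1.s ≤ P.s := by
          by_contra hlt
          exact hPB (Finset.mem_filter.2 ⟨hP, not_le.1 hlt⟩)
        omega
  rw [hdec]
  calc _ ≤ ‖∑ P ∈ B2, c P * phi P x‖ + ‖∑ P ∈ B1, c P * phi P x‖ := norm_sub_le _ _
    _ ≤ 16000 * M := by linarith

end CH
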