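import Mathlib
import Pool.Agent.CH.AGeo
import Pool.Agent.CH.TA

/-!
CH-TBes. Bessel inequality for a tree of class A. `TA` = the tiles of `TT` with `xi in J_P`. `G_s = sum_{P in TA, P.s = s} c P phi P`.
* different levels `s < s'` (so `s' >= s + 4`) have disjoint frequencies (`xi - j` in `[2^(s+3), 9*2^(s+3))` resp. `>= 16*2^(s+3)`), so
  `int |sum_s G_s|^2 = sum_s int |G_s|^2` (`parseval_sq`: `cf (sum) j` is a sum with at most one nonzero term).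
* one level: `|G_s x|^2 <= (sum |c P|^2 |phi P x|) (sum |phi P x|)` (Cauchy-Schwarz), `sum |phi P x| <= C1 2^(s/2) C_G` ((G1), `rho >= 1`,
  distinct `P.n` by `tree_unique`), `int |phi P| <= C1 2^(s/2) int 1/rho^2 <= C1 2^(s/2) C_G 2^-s` ((G2)).
-/

open MeasureTheory

namespace CH

theorem TBes_L2 {f : T → ℂ} (hf : Continuous f) : L2 f := by
  obtain ⟨B, hB⟩ := (isCompact_range hf.norm).bddAbove
  exact BM.L2 ⟨hf.measurable, B, fun x => hB ⟨x, rfl⟩⟩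

theorem TBes_cont (C1 : ℝ) (phi : Tile → T → ℂ) (hphi : WP C1 phi) (c : Tile → ℂ)
    (B : Finset Tile) : Continuous (fun x => ∑ P ∈ B, c P * phi P x) :=
  continuous_finsetSum _ fun P _ => continuous_const.mul (phi_cont C1 phi hphi P)

/-- the coefficients of `phi P` -/
theorem TBes_cf_phi (C1 : ℝ) (phi : Tile → T → ℂ) (hphi : WP C1 phi) (P : Tile) (xi : ℤ)
    (hP : P.inJ xi) (n : ℤ) (hn : cf (phi P) n ≠ 0) :
    2 ^ (P.s + 3) ≤ xi - n ∧ xi - n < 9 * 2 ^ (P.s + 3) := by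
  obtain ⟨cc, hcc⟩ := hphi.trig P
  have hp : (0 : ℤ) < 2 ^ (P.s + 3) := by positivity
  have hJ : xi / 2 ^ (P.s + 3) = 16 * P.m + 8 := hP
  have hlo : (16 * P.m + 8) * 2 ^ (P.s + 3) ≤ xi := by
    rw [← hJ]; exact Int.ediv_mul_le xi hp.ne'
  have hhi : xi < (16 * P.m + 8 + 1) * 2 ^ (P.s + 3) := by
    rw [← hJ]; exact Int.lt_ediv_add_one_mul_self xi hp
  have hmid : P.mid = (16 * P.m + 8) * 2 ^ (P.s + 3) := by
    unfold Tile.mid
    rw [show P.s + 7 = (P.s + 3) + 4 by ring, show P.s + 6 = (P.s + 3) + 3 by ring, pow_add, pow_add]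
    ring
  have h6 : (2 : ℤ) ^ (P.s + 6) = 8 * 2 ^ (P.s + 3) := by
    rw [show P.s + 6 = (P.s + 3) + 3 by ring, pow_add]; ring
  have hmem : n ∈ Finset.Icc (P.mid - 2 ^ (P.s + 6)) (P.mid - 2 ^ (P.s + 3)) := by
    by_contra hnm
    apply hn
    have e1 : phi P = fun x => ∑ j ∈ Finset.Icc (P.mid - 2 ^ (P.s + 6)) (P.mid - 2 ^ (P.s + 3)),
      cc j * e j x := funext hcc
    rw [e1, cf_sum _ _ (fun j _ => (L2.const_mul (e_memLp j 2) (cc j)).integrable)]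
    refine Finset.sum_eq_zero fun j hj => ?_
    rw [cf_const_mul, cf_e, if_neg, mul_zero]
    rintro rfl
    exact hnm hj
  rw [Finset.mem_Icc, h6, hmid] at hmem
  constructor <;> nlinarith [hmem.1, hmem.2]

theorem TBes_cf_G (C1 : ℝ) (phi : Tile → T → ℂ) (hphi : WP C1 phi) (c : Tile → ℂ)
    (B : Finset Tile) (s : ℕ) (xi : ℤ) (hB : ∀ P ∈ B, P.s = s) (hJ : ∀ P ∈ B, P.inJ xi) (n : ℤ)
    (hn : cf (fun x => ∑ P ∈ B, c P * phi P x) n ≠ 0) :
    2 ^ (s + 3) ≤ xi - n ∧ xi - n < 9 * 2 ^ (s + 3) := by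
  rw [cf_sum _ _ (fun P _ => ((TBes_L2 (phi_cont C1 phi hphi P)).const_mul (c P)).integrable)] at hn
  obtain ⟨P, hP, hP2⟩ := Finset.exists_ne_zero_of_sum_ne_zero hn
  rw [cf_const_mul] at hP2
  have := TBes_cf_phi C1 phi hphi P xi (hJ P hP) n (right_ne_zero_of_mul hP2)
  rw [hB P hP] at this
  exact this

/-- one level -/
theorem TBes_level (C1 : ℝ) (hC1 : 0 ≤ C1) (phi : Tile → T → ℂ) (hphi : WP C1 phi) (c : Tile → ℂ)
    (B : Finset Tile) (s : ℕ) (hB : ∀ P ∈ B, P.s = s) (hok : ∀ P ∈ B, P.ok)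
    (hinj : ∀ P ∈ B, ∀ P' ∈ B, P.n = P'.n → P = P') :
    ∫ x, ‖∑ P ∈ B, c P * phi P x‖ ^ 2 ≤ 40 * C1 ^ 2 * ∑ P ∈ B, ‖c P‖ ^ 2 := by
  have hq : 0 ≤ Real.sqrt (2 ^ s) := Real.sqrt_nonneg _
  have hqq : Real.sqrt (2 ^ s) * Real.sqrt (2 ^ s) = 2 ^ s := Real.mul_self_sqrt (by positivity)
  have hdec : ∀ P ∈ B, ∀ x, ‖phi P x‖ ≤ C1 * Real.sqrt (2 ^ s) * (1 / rho s x (cpt s P.n) ^ 8) := by
    intro P hP x
    have h := hphi.decay P x
    unfold Tile.c at h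
    rw [hB P hP] at h
    rw [mul_one_div]; exact h
  have hsum : ∀ x, ∑ P ∈ B, ‖phi P x‖ ≤ C1 * Real.sqrt (2 ^ s) * 10 := by
    intro x
    calc ∑ P ∈ B, ‖phi P x‖ ≤ ∑ P ∈ B, C1 * Real.sqrt (2 ^ s) * (1 / rho s x (cpt s P.n) ^ 8) :=
          Finset.sum_le_sum fun P hP => hdec P hP x
      _ = C1 * Real.sqrt (2 ^ s) * ∑ P ∈ B, 1 / rho s x (cpt s P.n) ^ 8 := by
          rw [Finset.mul_sum]
      _ = C1 * Real.sqrt (2 ^ s) * ∑ n ∈ B.image Tile.n, 1 / rho s x (cpt s n) ^ 8 := by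
          rw [Finset.sum_image]
          intro P hP P' hP' h
          exact hinj P hP P' hP' h
      _ ≤ C1 * Real.sqrt (2 ^ s) * ∑ n ∈ Finset.range (2 ^ s), 1 / rho s x (cpt s n) ^ 8 := by
          refine mul_le_mul_of_nonneg_left ?_ (by positivity)
          refine Finset.sum_le_sum_of_subset_of_nonneg ?_ (fun n _ _ => ?_)
          · intro n hn
            obtain ⟨P, hP, rfl⟩ := Finset.mem_image.1 hn
            have := hok P hP
            unfold Tile.ok at this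
            rw [hB P hP] at this
            exact Finset.mem_range.2 this
          · have := rho_pos s x (cpt s n); positivity
      _ ≤ C1 * Real.sqrt (2 ^ s) * 10 := by
          refine mul_le_mul_of_nonneg_left (G1' s x (by norm_num)) (by positivity)
  have hint1 : ∀ P, Integrable (fun x => ‖phi P x‖) := fun P =>
    (TBes_L2 (phi_cont C1 phi hphi P)).integrable.norm
  have hint : ∀ P ∈ B, ∫ x, ‖phi P x‖ ≤ C1 * Real.sqrt (2 ^ s) * (4 / 2 ^ s) := by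
    intro P hP
    have hi2 : Integrable (fun x => 1 / rho s x (cpt s P.n) ^ 8) := by
      have := integrable_rho s 8 (cpt s P.n)
      refine this.congr (ae_of_all _ fun x => ?_)
      simp only [rho_comm s (cpt s P.n) x]
    calc ∫ x, ‖phi P x‖ ≤ ∫ x, C1 * Real.sqrt (2 ^ s) * (1 / rho s x (cpt s P.n) ^ 8) :=
          integral_mono (hint1 P) (hi2.const_mul _) (hdec P hP)
      _ = C1 * Real.sqrt (2 ^ s) * ∫ x, 1 / rho s (cpt s P.n) x ^ 8 := by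
          rw [integral_const_mul]
          congr 1
          refine integral_congr_ae (ae_of_all _ fun x => ?_)
          simp only [rho_comm s (cpt s P.n) x]
      _ ≤ C1 * Real.sqrt (2 ^ s) * (4 / 2 ^ s) :=
          mul_le_mul_of_nonneg_left (G2' s (cpt s P.n) (by norm_num)) (by positivity)
  have hpt : ∀ x, ‖∑ P ∈ B, c P * phi P x‖ ^ 2 ≤
      ∑ P ∈ B, (C1 * Real.sqrt (2 ^ s) * 10 * ‖c P‖ ^ 2) * ‖phi P x‖ := by
    intro x
    have h1 : ‖∑ P ∈ B, c P * phi P x‖ ≤ ∑ P ∈ B, ‖c P‖ * ‖phi P x‖ := by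
      refine (norm_sum_le _ _).trans (le_of_eq ?_)
      exact Finset.sum_congr rfl fun P _ => norm_mul _ _
    have h2 : (∑ P ∈ B, ‖c P‖ * ‖phi P x‖) ^ 2 ≤
        (∑ P ∈ B, ‖c P‖ ^ 2 * ‖phi P x‖) * ∑ P ∈ B, ‖phi P x‖ :=
      Finset.sum_sq_le_sum_mul_sum_of_sq_le_mul B (fun P _ => by positivity)
        (fun P _ => by positivity) (fun P _ => le_of_eq (by ring))
    calc ‖∑ P ∈ B, c P * phi P x‖ ^ 2 ≤ (∑ P ∈ B, ‖c P‖ * ‖phi P x‖) ^ 2 :=
          pow_le_pow_left₀ (norm_nonneg _) h1 2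
      _ ≤ (∑ P ∈ B, ‖c P‖ ^ 2 * ‖phi P x‖) * ∑ P ∈ B, ‖phi P x‖ := h2
      _ ≤ (∑ P ∈ B, ‖c P‖ ^ 2 * ‖phi P x‖) * (C1 * Real.sqrt (2 ^ s) * 10) :=
          mul_le_mul_of_nonneg_left (hsum x) (Finset.sum_nonneg fun P _ => by positivity)
      _ = _ := by
          rw [Finset.sum_mul]
          exact Finset.sum_congr rfl fun P _ => by ring
  have hi3 : Integrable (fun x => ‖∑ P ∈ B, c P * phi P x‖ ^ 2) :=
    (TBes_L2 (TBes_cont C1 phi hphi c B)).integrable_sq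
  have hi4 : Integrable (fun x =>
      ∑ P ∈ B, (C1 * Real.sqrt (2 ^ s) * 10 * ‖c P‖ ^ 2) * ‖phi P x‖) :=
    integrable_finsetSum _ fun P _ => (hint1 P).const_mul _
  refine (integral_mono hi3 hi4 hpt).trans ?_
  rw [integral_finsetSum _ fun P _ => (hint1 P).const_mul _, Finset.mul_sum]
  refine Finset.sum_le_sum fun P hP => ?_
  rw [integral_const_mul]
  calc C1 * Real.sqrt (2 ^ s) * 10 * ‖c P‖ ^ 2 * ∫ x, ‖phi P x‖
      ≤ C1 * Real.sqrt (2 ^ s) * 10 * ‖c P‖ ^ 2 * (C1 * Real.sqrt (2 ^ s) * (4 / 2 ^ s)) :=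
        mul_le_mul_of_nonneg_left (hint P hP) (by positivity)
    _ = C1 ^ 2 * 40 * ‖c P‖ ^ 2 * ((Real.sqrt (2 ^ s) * Real.sqrt (2 ^ s)) / 2 ^ s) := by ring
    _ = 40 * C1 ^ 2 * ‖c P‖ ^ 2 := by
        rw [hqq, div_self (by positivity)]; ring

theorem TBes_orth {L : Finset ℕ} (G : ℕ → T → ℂ) (hG : ∀ s ∈ L, L2 (G s))
    (h : ∀ s ∈ L, ∀ s' ∈ L, ∀ n, cf (G s) n ≠ 0 → cf (G s') n ≠ 0 → s = s') :
    ∫ x, ‖∑ s ∈ L, G s x‖ ^ 2 = ∑ s ∈ L, ∫ x, ‖G s x‖ ^ 2 := by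
  have h1 := parseval_sq (L2.sum L hG)
  have h2 := hasSum_sum fun s hs => parseval_sq (hG s hs)
  refine h1.unique ?_
  convert h2 using 2 with n
  rw [cf_sum L G fun s hs => (hG s hs).integrable]
  by_cases hz : ∀ s ∈ L, cf (G s) n = 0
  · rw [Finset.sum_eq_zero hz, Finset.sum_eq_zero (fun s hs => by rw [hz s hs]; simp)]
    simp
  · push Not at hz
    obtain ⟨s0, hs0, hs0n⟩ := hz
    have h3 : ∀ s ∈ L, s ≠ s0 → cf (G s) n = 0 := by
      intro s hs hne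
      by_contra hc
      exact hne (h s hs s0 hs0 n hc hs0n)
    rw [Finset.sum_eq_single_of_mem s0 hs0 h3,
      Finset.sum_eq_single_of_mem s0 hs0 (fun s hs hne => by rw [h3 s hs hne]; simp)]

open Classical in
theorem tBes : ∃ C : ℝ, 0 < C ∧ ∀ (C1 : ℝ), 0 ≤ C1 → ∀ (phi : Tile → T → ℂ), WP C1 phi →
    ∀ (c : Tile → ℂ) (TT : Finset Tile) (t : ℕ × ℕ × ℤ) (r : ℕ), IsTree TT t r →
    ∫ x, ‖∑ P ∈ TT.filter (fun P => P.inJ t.2.2), c P * phi P x‖ ^ 2 ≤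
      C * C1 ^ 2 * ∑ P ∈ TT.filter (fun P => P.inJ t.2.2), ‖c P‖ ^ 2 := by
  refine ⟨40, by norm_num, fun C1 hC1 phi hphi c TT t r hT => ?_⟩
  set xi := t.2.2 with hxi
  set A := TT.filter (fun P => P.inJ xi) with hA
  have hAJ : ∀ P ∈ A, P.inJ xi := fun P hP => (Finset.mem_filter.1 hP).2
  have hAT : ∀ P ∈ A, P ∈ TT := fun P hP => (Finset.mem_filter.1 hP).1
  have hmaps : ∀ P ∈ A, P.s ∈ A.image Tile.s := fun P hP => Finset.mem_image_of_mem _ hP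
  have e1 : ∀ x, ∑ P ∈ A, c P * phi P x =
      ∑ s ∈ A.image Tile.s, ∑ P ∈ A.filter (fun P => P.s = s), c P * phi P x := fun x =>
    (Finset.sum_fiberwise_of_maps_to hmaps _).symm
  have e2 : ∑ P ∈ A, ‖c P‖ ^ 2 =
      ∑ s ∈ A.image Tile.s, ∑ P ∈ A.filter (fun P => P.s = s), ‖c P‖ ^ 2 :=
    (Finset.sum_fiberwise_of_maps_to hmaps _).symm
  simp_rw [e1]
  rw [e2, TBes_orth (fun s x => ∑ P ∈ A.filter (fun P => P.s = s), c P * phi P x)
    (fun s _ => TBes_L2 (TBes_cont C1 phi hphi c _)), Finset.mul_sum]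
  · refine Finset.sum_le_sum fun s _ => ?_
    refine TBes_level C1 hC1 phi hphi c _ s (fun P hP => (Finset.mem_filter.1 hP).2)
      (fun P hP => hT.ok P (hAT P (Finset.mem_filter.1 hP).1)) ?_
    intro P hP P' hP' hn
    have h1 := Finset.mem_filter.1 hP
    have h2 := Finset.mem_filter.1 hP'
    have h3 := (hT.tr P (hAT P h1.1)).2
    have h4 := (hT.tr P' (hAT P' h2.1)).2
    unfold Tile.inOm at h3 h4
    rw [h1.2] at h3
    rw [h2.2] at h4
    have hm : P.m = P'.m := by rw [← h3, ← h4]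
    have hs : P.s = P'.s := by rw [h1.2, h2.2]
    cases P; cases P'
    simp only at hn hm hs
    subst hn; subst hm; subst hs
    rfl
  · intro s hs s' hs' n hn hn'
    have h1 := TBes_cf_G C1 phi hphi c _ s xi (fun P hP => (Finset.mem_filter.1 hP).2)
      (fun P hP => hAJ P (Finset.mem_filter.1 hP).1) n hn
    have h2 := TBes_cf_G C1 phi hphi c _ s' xi (fun P hP => (Finset.mem_filter.1 hP).2)
      (fun P hP => hAJ P (Finset.mem_filter.1 hP).1) n hn'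
    obtain ⟨P, hP, hPs⟩ := Finset.mem_image.1 hs
    obtain ⟨P', hP', hPs'⟩ := Finset.mem_image.1 hs'
    have h3 := hT.cls P (hAT P hP)
    have h4 := hT.cls P' (hAT P' hP')
    rw [hPs] at h3
    rw [hPs'] at h4
    by_contra hne
    rcases lt_or_gt_of_ne hne with hlt | hgt
    · have h5 : (2 : ℤ) ^ (s + 7) ≤ 2 ^ (s' + 3) := pow_le_pow_right₀ (by norm_num) (by omega)
      have h6 : (2 : ℤ) ^ (s + 7) = 16 * 2 ^ (s + 3) := by
        rw [show s + 7 = (s + 3) + 4 by ring, pow_add]; ring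
      have h7 : (0 : ℤ) < 2 ^ (s + 3) := by positivity
      linarith [h1.2, h2.1]
    · have h5 : (2 : ℤ) ^ (s' + 7) ≤ 2 ^ (s + 3) := pow_le_pow_right₀ (by norm_num) (by omega)
      have h6 : (2 : ℤ) ^ (s' + 7) = 16 * 2 ^ (s' + 3) := by
        rw [show s' + 7 = (s' + 3) + 4 by ring, pow_add]; ring
      have h7 : (0 : ℤ) < 2 ^ (s' + 3) := by positivity
      linarith [h1.1, h2.2]

end CH
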