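import Mathlib
import Pool.Agent.CH.AGeo
import Pool.Agent.CH.TNb

/-!
CH-TQ. Paper A4 (II): mass of the bad set on a cell.
-/

open MeasureTheory

namespace CH

theorem tQ_inOm_of_inJ {P : Tile} {a : ℤ} (h : P.inJ a) : a / 2 ^ (P.s + 7) = P.m := by
  unfold Tile.inJ at h
  rw [show P.s + 7 = (P.s + 3) + 4 by ring, pow_add, ← Int.ediv_ediv_of_nonneg (by positivity), h]
  norm_num
  omega

theorem tQ (u : T → ℝ) (N : T → ℤ) (g : T → ℂ) (hd : Dat u N g) (TT : Finset Tile)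
    (t : ℕ × ℕ × ℤ) (r : ℕ) (hT : IsTree TT t r) (mu : ℝ) (hmu : 0 ≤ mu) (hm : MassLE u N TT mu)
    (x0 : T) :
    ∫ x in {x | x ∈ QT TT N ∧ idx (rr TT x0) x = idx (rr TT x0) x0}, u x ≤
      324 * mu / 2 ^ rr TT x0 := by
  have hu0 : ∀ x, 0 ≤ u x := fun x => (norm_nonneg _).trans (hd.gu x)
  set r' := rr TT x0 with hr'
  set S : Set T := {x | x ∈ QT TT N ∧ idx r' x = idx r' x0} with hS
  rcases S.eq_empty_or_nonempty with he | ⟨y, hy⟩
  · rw [he]; simp; positivity
  have hrr : ∀ x ∈ S, rr TT x = r' := fun x hx => rr_cell TT x0 x hx.2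
  obtain ⟨P0, hP0, hP0s, hP0J⟩ := hy.1
  rw [hrr y hy] at hP0s
  have hne : TT.Nonempty := ⟨P0, hP0⟩
  obtain ⟨P1, hP1, hP1s, hP1nb⟩ := rr_parent TT hne x0
  rw [← hr'] at hP1s hP1nb
  obtain ⟨k, hk⟩ : ∃ k, r' = k + 2 := ⟨r' - 2, by omega⟩
  have hok1 : P1.n < 2 ^ P1.s := hT.ok P1 hP1
  have hc1 : idx P1.s P1.c = P1.n := idx_cpt _ _ hok1
  have h1k : k + 1 ≤ P1.s := by omega
  have hkk : k ≤ P1.s := by omega
  have hidx1 : idx (k + 1) P1.c = P1.n / 2 ^ (P1.s - (k + 1)) := by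
    rw [idx_anc _ _ h1k, hc1]
  rw [hk, show k + 2 - 1 = k + 1 by omega, ← hidx1] at hP1nb
  -- the tile
  set xi := t.2.2 with hxi
  set P2 : Tile := ⟨k, P1.n / 2 ^ (P1.s - k), xi / 2 ^ (k + 7)⟩ with hP2
  have htin : tin P1.s P1.n P2.s P2.n := ⟨hkk, rfl⟩
  have hok2 : P2.ok := tin_ok _ _ _ _ hok1 htin
  have hle : P1.le P2 := by
    refine ⟨htin, ?_⟩
    show xi / 2 ^ (k + 7) / 2 ^ (P1.s - k) = P1.m
    have := (hT.tr P1 hP1).2
    unfold Tile.inOm at this
    rw [Int.ediv_ediv_of_nonneg (by positivity), ← pow_add, show k + 7 + (P1.s - k) = P1.s + 7 by omega]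
    exact this
  have hmass := hm P1 hP1 P2 hok2 hle
  -- distances
  have hc12 : ‖P1.c - P2.c‖ ≤ 1 / 2 ^ k := norm_cpt_sub_cpt_le _ _ _ _ hok1 htin
  have hdist : ∀ x ∈ S, rho k x P2.c ≤ 3 := by
    intro x hx
    have h1 : idx (k + 1) x = idx (k + 1) x0 := by
      rw [idx_anc (k + 2) (k + 1) (by omega) x, idx_anc (k + 2) (k + 1) (by omega) x0]
      have := hx.2
      rw [hk] at this
      rw [this]
    have h2 := close_of_nb (k + 1) x P1.c (by rw [h1]; exact hP1nb)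
    have h3 : ‖x - P2.c‖ ≤ ‖x - P1.c‖ + ‖P1.c - P2.c‖ := by
      have : x - P2.c = (x - P1.c) + (P1.c - P2.c) := by abel
      rw [this]; exact norm_add_le _ _
    have h4 : (2 : ℝ) / 2 ^ (k + 1) = 1 / 2 ^ k := by rw [pow_succ]; field_simp
    rw [h4] at h2
    have h5 : ‖x - P2.c‖ ≤ 2 / 2 ^ k := by
      calc ‖x - P2.c‖ ≤ 1 / 2 ^ k + 1 / 2 ^ k := by linarith
        _ = 2 / 2 ^ k := by ring
    unfold rho
    have h6 := mul_le_mul_of_nonneg_left h5 (show (0 : ℝ) ≤ 2 ^ k by positivity)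
    rw [mul_div_cancel₀ _ (by positivity : (2 : ℝ) ^ k ≠ 0)] at h6
    linarith
  -- inclusion
  have hsub : S ⊆ {x | P2.inOm (N x)} := by
    intro x hx
    obtain ⟨P, hP, hPs, hPJ⟩ := hx.1
    rw [hrr x hx] at hPs
    have ha := tQ_inOm_of_inJ hPJ
    have hb := (hT.tr P hP).2
    unfold Tile.inOm at hb
    show N x / 2 ^ (k + 7) = xi / 2 ^ (k + 7)
    have hps : k + 7 = (P.s + 7) + (k - P.s) := by omega
    rw [hps, pow_add, ← Int.ediv_ediv_of_nonneg (by positivity),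
      ← Int.ediv_ediv_of_nonneg (by positivity), ha, hb]
  -- integrals
  have hSm : MeasurableSet S := by
    have h1 := QT_meas TT N hd.mN
    have h2 := measurableSet_D r' (idx r' x0)
    exact h1.inter h2
  have hOm : MeasurableSet {x | P2.inOm (N x)} := by
    have : {x | P2.inOm (N x)} = N ⁻¹' {a | P2.inOm a} := rfl
    rw [this]
    exact hd.mN (MeasurableSet.of_discrete)
  set w : T → ℝ := fun x => 2 ^ k / rho k x P2.c ^ 4 with hw
  have hrho1 : ∀ x, 1 ≤ rho k x P2.c := fun x => one_le_rho _ _ _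
  have hw0 : ∀ x, 0 ≤ w x := fun x => by
    have := hrho1 x
    positivity
  have hwc : Continuous w := by
    apply Continuous.div continuous_const ((rho_continuous k P2.c).pow 4)
    intro x
    exact (pow_pos (by linarith [hrho1 x]) 4).ne'
  have hwb : ∀ x, w x ≤ 2 ^ k := fun x => by
    apply div_le_self (by positivity)
    exact one_le_pow₀ (hrho1 x)
  have hint : Integrable u := by
    refine Integrable.of_bound hd.mu.aestronglyMeasurable 1 (ae_of_all _ fun x => ?_)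
    rw [Real.norm_eq_abs, abs_of_nonneg (hu0 x)]
    exact hd.u1 x
  have hint2 : Integrable (fun x => u x * w x) := by
    refine Integrable.of_bound (hd.mu.mul hwc.measurable).aestronglyMeasurable (2 ^ k)
      (ae_of_all _ fun x => ?_)
    rw [Real.norm_eq_abs, abs_of_nonneg (mul_nonneg (hu0 x) (hw0 x))]
    calc u x * w x ≤ 1 * 2 ^ k := mul_le_mul (hd.u1 x) (hwb x) (hw0 x) zero_le_one
      _ = 2 ^ k := one_mul _
  have hptw : ∀ x ∈ S, u x ≤ 81 / 2 ^ k * (u x * w x) := by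
    intro x hx
    have h1 := hdist x hx
    have h2 : rho k x P2.c ^ 4 ≤ 81 := by
      have := pow_le_pow_left₀ (by linarith [hrho1 x]) h1 4
      norm_num at this ⊢
      exact this
    have h3 : 0 < rho k x P2.c ^ 4 := by
      have := hrho1 x
      positivity
    have h4 : 81 / 2 ^ k * (u x * w x) = u x * (81 / rho k x P2.c ^ 4) := by
      simp only [hw]; field_simp
    rw [h4]
    have h5 : 1 ≤ 81 / rho k x P2.c ^ 4 := by rwa [one_le_div h3]
    nlinarith [hu0 x]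
  calc ∫ x in S, u x ≤ ∫ x in S, 81 / 2 ^ k * (u x * w x) :=
        setIntegral_mono_on hint.integrableOn (hint2.const_mul _).integrableOn hSm hptw
    _ = 81 / 2 ^ k * ∫ x in S, u x * w x := integral_const_mul _ _
    _ ≤ 81 / 2 ^ k * ∫ x in {x | P2.inOm (N x)}, u x * w x := by
        apply mul_le_mul_of_nonneg_left _ (by positivity)
        exact setIntegral_mono_set hint2.integrableOn
          (ae_of_all _ fun x => mul_nonneg (hu0 x) (hw0 x)) (LE.le.eventuallyLE hsub)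
    _ ≤ 81 / 2 ^ k * mu := by
        apply mul_le_mul_of_nonneg_left _ (by positivity)
        exact hmass
    _ = 324 * mu / 2 ^ r' := by
        rw [hk, pow_add]; field_simp; ring

end CH
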