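import Mathlib
import Pool.Agent.CH.AGeo
import Pool.Agent.CH.TQ

/-!
CH-TW. Integration over cells. `R = TT.sup Tile.s + 1`. The sets `Cl (k,i) = {x | rr x = k, idx k x = i}`, `k <= R`, `i < 2^k`
are a measurable partition of `T`. For a nonempty `Cl (k,i)`, pick `x0` in it: `Cl (k,i) = {y | idx k y = i}` (`rr_cell`), of
measure `2^-k`. For every `y in Cl (k,i)`: `int_{Q cap Cl} u H <= W y int_{Q cap Cl} u <= W y 324 mu / 2^k` (`tQ`; `u >= 0` as
`|g| <= u`; `H <= W y` on `Q cap Cl`); integrate over `y in Cl (k,i)`. Sum over `(k,i)`.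
If `u * H` is not integrable on `Q cap Cl` the integral is 0 and all is trivial (`H` is bounded on `Q cap Cl` by `W y`, so this
does not happen, but one need not use it).
-/

open MeasureTheory

namespace CH

/-- the cell -/
def TW_Cl (TT : Finset Tile) (p : ℕ × ℕ) : Set T := {x | rr TT x = p.1 ∧ idx p.1 x = p.2}

theorem TW_Cl_meas (TT : Finset Tile) (p : ℕ × ℕ) : MeasurableSet (TW_Cl TT p) := by
  have : TW_Cl TT p = rr TT ⁻¹' {p.1} ∩ idx p.1 ⁻¹' {p.2} := by
    ext x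
    simp only [TW_Cl, Set.mem_ofPred_eq, Set.mem_inter_iff, Set.mem_preimage,
      Set.mem_singleton_iff]
  rw [this]
  exact (rr_meas TT MeasurableSet.of_discrete).inter
    (measurable_idx p.1 MeasurableSet.of_discrete)

theorem TW_Cl_disj (TT : Finset Tile) (p q : ℕ × ℕ) (h : p ≠ q) :
    Disjoint (TW_Cl TT p) (TW_Cl TT q) := by
  rw [Set.disjoint_left]
  intro x hx hy
  simp only [TW_Cl, Set.mem_ofPred_eq] at hx hy
  apply h
  have h1 : p.1 = q.1 := by rw [← hx.1, ← hy.1]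
  refine Prod.ext h1 ?_
  rw [← hx.2, ← hy.2, h1]

theorem TW_Cl_cover (TT : Finset Tile) :
    (⋃ p ∈ Finset.range (TT.sup Tile.s + 2) ×ˢ Finset.range (2 ^ (TT.sup Tile.s + 1)),
      TW_Cl TT p) = Set.univ := by
  rw [Set.eq_univ_iff_forall]
  intro x
  simp only [Set.mem_iUnion]
  refine ⟨(rr TT x, idx (rr TT x) x), ?_, rfl, rfl⟩
  have h1 := rr_bdd TT x
  have h2 := idx_lt (rr TT x) x
  have h3 : 2 ^ rr TT x ≤ 2 ^ (TT.sup Tile.s + 1) := Nat.pow_le_pow_right (by norm_num) h1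
  simp only [Finset.mem_product, Finset.mem_range]
  omega

theorem TW_cell (u : T → ℝ) (N : T → ℤ) (g : T → ℂ) (hd : Dat u N g) (TT : Finset Tile)
    (t : ℕ × ℕ × ℤ) (r : ℕ) (hT : IsTree TT t r) (mu : ℝ) (hmu : 0 ≤ mu) (hm : MassLE u N TT mu)
    (H W : T → ℝ) (hW : Integrable W) (hW0 : ∀ x, 0 ≤ W x)
    (hHW : ∀ x ∈ QT TT N, ∀ y, idx (rr TT x) y = idx (rr TT x) x → H x ≤ W y)
    (hI : IntegrableOn (fun x => u x * H x) (QT TT N)) (p : ℕ × ℕ) :
    ∫ x in QT TT N ∩ TW_Cl TT p, u x * H x ≤ 324 * mu * ∫ x in TW_Cl TT p, W x := by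
  rcases (TW_Cl TT p).eq_empty_or_nonempty with he | ⟨x0, hx0⟩
  · simp [he]
  simp only [TW_Cl, Set.mem_ofPred_eq] at hx0
  have hu0 : ∀ x, 0 ≤ u x := fun x => (norm_nonneg _).trans (hd.gu x)
  have hCl : TW_Cl TT p = D (rr TT x0) (idx (rr TT x0) x0) := by
    ext y
    simp only [TW_Cl, Set.mem_ofPred_eq, D]
    rw [hx0.1]
    rw [hx0.2]
    constructor
    · exact fun h => h.2
    · intro h
      refine ⟨?_, h⟩
      rw [← hx0.1]
      apply rr_cell
      rw [hx0.1, h, hx0.2]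
  have hvol : volume.real (TW_Cl TT p) = 1 / 2 ^ rr TT x0 := by
    rw [hCl]
    exact volume_real_D (idx_lt _ _)
  have hQ : ∫ x in QT TT N ∩ TW_Cl TT p, u x ≤ 324 * mu / 2 ^ rr TT x0 := by
    have h1 := tQ u N g hd TT t r hT mu hmu hm x0
    have h2 : QT TT N ∩ TW_Cl TT p =
        {x | x ∈ QT TT N ∧ idx (rr TT x0) x = idx (rr TT x0) x0} := by
      rw [hCl]
      ext y
      simp only [Set.mem_inter_iff, D, Set.mem_ofPred_eq]
    rw [h2]
    exact h1
  have hui : Integrable u := by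
    refine Integrable.of_bound hd.mu.aestronglyMeasurable 1 (ae_of_all _ fun x => ?_)
    rw [Real.norm_eq_abs, abs_of_nonneg (hu0 x)]
    exact hd.u1 x
  have hms : MeasurableSet (QT TT N ∩ TW_Cl TT p) :=
    (QT_meas TT N hd.mN).inter (TW_Cl_meas TT p)
  set A := ∫ x in QT TT N ∩ TW_Cl TT p, u x * H x with hA
  have hAy : ∀ y ∈ TW_Cl TT p, 0 ≤ W y → A ≤ 324 * mu / 2 ^ rr TT x0 * W y := by
    intro y hy hWy
    have h1 : A ≤ ∫ x in QT TT N ∩ TW_Cl TT p, W y * u x := by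
      refine setIntegral_mono_on (hI.mono_set Set.inter_subset_left)
        (hui.const_mul (W y)).integrableOn hms fun x hx => ?_
      rw [mul_comm (W y)]
      refine mul_le_mul_of_nonneg_left ?_ (hu0 x)
      apply hHW x hx.1 y
      have hx2 := hx.2
      simp only [TW_Cl, Set.mem_ofPred_eq] at hx2 hy
      rw [hx2.1, hx2.2, hy.2]
    rw [integral_const_mul] at h1
    calc A ≤ _ := h1
      _ ≤ W y * (324 * mu / 2 ^ rr TT x0) := mul_le_mul_of_nonneg_left hQ hWy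
      _ = _ := mul_comm _ _
  have h3 : ∫ _ in TW_Cl TT p, A ≤ ∫ y in TW_Cl TT p, 324 * mu / 2 ^ rr TT x0 * W y :=
    setIntegral_mono_on (integrableOn_const (by simp)) (hW.const_mul _).integrableOn
      (TW_Cl_meas TT p) fun y hy => hAy y hy (hW0 y)
  rw [setIntegral_const, hvol, integral_const_mul, smul_eq_mul] at h3
  have h4 : (0 : ℝ) < 2 ^ rr TT x0 := by positivity
  have h5 := mul_le_mul_of_nonneg_left h3 h4.le
  calc A = 2 ^ rr TT x0 * (1 / 2 ^ rr TT x0 * A) := by field_simp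
    _ ≤ _ := h5
    _ = _ := by field_simp

theorem tW (u : T → ℝ) (N : T → ℤ) (g : T → ℂ) (hd : Dat u N g) (TT : Finset Tile)
    (t : ℕ × ℕ × ℤ) (r : ℕ) (hT : IsTree TT t r) (mu : ℝ) (hmu : 0 ≤ mu) (hm : MassLE u N TT mu)
    (H W : T → ℝ) (hH : Measurable H) (hH0 : ∀ x, 0 ≤ H x) (hW : Integrable W) (hW0 : ∀ x, 0 ≤ W x)
    (hHW : ∀ x ∈ QT TT N, ∀ y, idx (rr TT x) y = idx (rr TT x) x → H x ≤ W y) :
    ∫ x in QT TT N, u x * H x ≤ 324 * mu * ∫ x, W x := by
  by_cases hI : IntegrableOn (fun x => u x * H x) (QT TT N)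
  swap
  · rw [integral_undef hI]
    exact mul_nonneg (by positivity) (integral_nonneg hW0)
  set S := Finset.range (TT.sup Tile.s + 2) ×ˢ Finset.range (2 ^ (TT.sup Tile.s + 1)) with hS
  have hdisj : Set.Pairwise (↑S : Set (ℕ × ℕ)) (Function.onFun Disjoint (TW_Cl TT)) :=
    fun p _ q _ hpq => TW_Cl_disj TT p q hpq
  have hdisj2 : Set.Pairwise (↑S : Set (ℕ × ℕ))
      (Function.onFun Disjoint fun p => QT TT N ∩ TW_Cl TT p) := by
    intro p _ q _ hpq
    exact (TW_Cl_disj TT p q hpq).mono Set.inter_subset_right Set.inter_subset_right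
  have e1 : QT TT N = ⋃ p ∈ S, QT TT N ∩ TW_Cl TT p := by
    rw [← Set.inter_iUnion₂, TW_Cl_cover, Set.inter_univ]
  have e2 : ∫ x in QT TT N, u x * H x = ∑ p ∈ S, ∫ x in QT TT N ∩ TW_Cl TT p, u x * H x := by
    conv_lhs => rw [e1]
    exact integral_biUnion_finset S
      (fun p _ => (QT_meas TT N hd.mN).inter (TW_Cl_meas TT p)) hdisj2
      (fun p _ => hI.mono_set Set.inter_subset_left)
  have e3 : ∫ x, W x = ∑ p ∈ S, ∫ x in TW_Cl TT p, W x := by
    rw [← integral_biUnion_finset S (fun p _ => TW_Cl_meas TT p) hdisj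
      (fun p _ => hW.integrableOn), TW_Cl_cover, setIntegral_univ]
  rw [e2, e3, Finset.mul_sum]
  exact Finset.sum_le_sum fun p _ => TW_cell u N g hd TT t r hT mu hmu hm H W hW hW0 hHW hI p

end CH
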