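import Mathlib
import Pool.Agent.CH.AGeo
import Pool.Agent.CH.TW
import Pool.Agent.CH.TBes

/-!
CH-TAI. Class A, integrated. `tW` with `H x = |F x|` on `QT` (0 elsewhere), `F` the sum of `tA_pt`, and
`W y = 16000 MK K |G| y 1_{||y - c_T|| <= 3/2^t.1}` (`tA_pt`, `tNear`). `int W <= 16000 (int MK^2)^(1/2) (vol {||y-c_T|| <= 3/2^t.1})^(1/2)`
`<= 16000 (512 int |G|^2)^(1/2) (6/2^t.1)^(1/2)` (`AddCircle.volume_closedBall`), and
`int |G|^2 <= C C1^2 sum_{inJ xi} |c P|^2 <= C C1^2 eps^2/2^t.1` (`tBes`; `EnLE` with `(t.1, t.2.1, xi)`: the tiles of `TT` with `xi in J_P` are exactly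
those of the filter of `EnLE` as `tin P.s P.n t.1 t.2.1` on a tree; `|c P| <= a P`).
-/

open MeasureTheory

namespace CH

private theorem tAI_vol (c : T) {d : ℝ} (hd : 0 ≤ d) :
    volume.real {y : T | ‖y - c‖ ≤ d} ≤ 2 * d := by
  have h1 : {y : T | ‖y - c‖ ≤ d} = Metric.closedBall c d := by
    ext y
    simp [Metric.mem_closedBall, dist_eq_norm]
  rw [h1, Measure.real, AddCircle.volume_closedBall]
  rw [ENNReal.toReal_ofReal (by positivity)]
  exact min_le_right _ _

private theorem tAI_amgm (S : Set T) (hS : MeasurableSet S) (M : T → ℝ) (hM : Measurable M)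
    (hM0 : ∀ y, 0 ≤ M y) (B : ℝ) (hB : ∀ y, M y ≤ B) (K v : ℝ) (hK : 0 ≤ K) (hv : 0 ≤ v) (A : ℝ)
    (hA : 0 ≤ A) (hI : ∫ y, M y ^ 2 ≤ A * K ^ 2 * v) (hvol : volume.real S ≤ 6 * v) :
    ∫ y, M y * S.indicator 1 y ≤ (A / 2 + 3) * K * v := by
  have hint1 : Integrable (fun y => M y ^ 2) := by
    refine Integrable.of_bound (hM.pow_const 2).aestronglyMeasurable (B ^ 2) (ae_of_all _ fun y => ?_)
    rw [Real.norm_eq_abs, abs_of_nonneg (by positivity)]
    exact pow_le_pow_left₀ (hM0 y) (hB y) 2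
  have hint2 : Integrable (S.indicator (1 : T → ℝ)) :=
    (integrable_const (1 : ℝ)).indicator hS
  have hint3 : Integrable (fun y => M y * S.indicator (1 : T → ℝ) y) := by
    refine Integrable.of_bound
      (hM.mul (measurable_one.indicator hS)).aestronglyMeasurable B (ae_of_all _ fun y => ?_)
    rw [Real.norm_eq_abs, abs_of_nonneg]
    · by_cases hy : y ∈ S
      · simp [hy, hB y]
      · simp [hy]; exact (hM0 y).trans (hB y)
    · exact mul_nonneg (hM0 y) (Set.indicator_nonneg (fun _ _ => zero_le_one) y)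
  have hkey : ∀ lam : ℝ, 0 < lam →
      ∫ y, M y * S.indicator (1 : T → ℝ) y ≤ (lam * (A * K ^ 2 * v) + 6 * v / lam) / 2 := by
    intro lam hlam
    have h1 : ∀ y, M y * S.indicator (1 : T → ℝ) y ≤
        (lam / 2) * M y ^ 2 + (1 / (2 * lam)) * S.indicator (1 : T → ℝ) y := by
      intro y
      by_cases hy : y ∈ S
      · simp only [hy, Set.indicator_of_mem, Pi.one_apply, mul_one]
        have h2 : (1 / (2 * lam)) = 1 / 2 * (1 / lam) := by rw [one_div_mul_one_div]
        have h3 : 0 < 1 / lam := by positivity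
        have h4 : lam * (1 / lam) = 1 := by field_simp
        have h5 : 0 ≤ (lam * M y - 1) ^ 2 * (1 / lam) := by positivity
        have h6 : (lam * M y - 1) ^ 2 * (1 / lam) = lam * M y ^ 2 - 2 * M y + 1 / lam := by
          field_simp
          ring
        rw [h2]
        linarith
      · simp only [hy, not_false_eq_true, Set.indicator_of_notMem, mul_zero, add_zero]
        have := hM0 y
        positivity
    have hi4 : Integrable (fun y => (lam / 2) * M y ^ 2) := hint1.const_mul _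
    have hi5 : Integrable (fun y => (1 / (2 * lam)) * S.indicator (1 : T → ℝ) y) :=
      hint2.const_mul _
    have hi6 : Integrable (fun y => (lam / 2) * M y ^ 2 +
        (1 / (2 * lam)) * S.indicator (1 : T → ℝ) y) := hi4.add hi5
    have hm1 : ∫ y, M y * S.indicator (1 : T → ℝ) y ≤ ∫ y, ((lam / 2) * M y ^ 2 +
        (1 / (2 * lam)) * S.indicator (1 : T → ℝ) y) := integral_mono hint3 hi6 h1
    have hm2 : ∫ y, ((lam / 2) * M y ^ 2 + (1 / (2 * lam)) * S.indicator (1 : T → ℝ) y) =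
        (lam / 2) * (∫ y, M y ^ 2) + (1 / (2 * lam)) * volume.real S := by
      rw [integral_add hi4 hi5, integral_const_mul, integral_const_mul, integral_indicator_one hS]
    have h7 := mul_le_mul_of_nonneg_left hI (by positivity : (0 : ℝ) ≤ lam / 2)
    have h8 := mul_le_mul_of_nonneg_left hvol (by positivity : (0 : ℝ) ≤ 1 / (2 * lam))
    have h9 : (lam / 2) * (A * K ^ 2 * v) + (1 / (2 * lam)) * (6 * v) =
        (lam * (A * K ^ 2 * v) + 6 * v / lam) / 2 := by
      have : (1 / (2 * lam)) = (1 / lam) / 2 := by rw [div_div, mul_comm]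
      rw [this]
      ring
    rw [← h9]
    rw [hm2] at hm1
    exact hm1.trans (add_le_add h7 h8)
  refine le_of_forall_pos_le_add fun del hdel => ?_
  set d : ℝ := del / (3 * v + 1) with hd
  have hdpos : 0 < d := by positivity
  have h1 := hkey (1 / (K + d)) (by positivity)
  refine h1.trans ?_
  have h2 : 1 / (K + d) * (A * K ^ 2 * v) ≤ A * K * v := by
    have h3 : K ^ 2 / (K + d) ≤ K := by
      rw [div_le_iff₀ (by positivity)]
      nlinarith
    have h4 : 1 / (K + d) * (A * K ^ 2 * v) = A * v * (K ^ 2 / (K + d)) := by ring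
    rw [h4]
    have h5 := mul_le_mul_of_nonneg_left h3 (mul_nonneg hA hv)
    linarith
  have h6 : 6 * v / (1 / (K + d)) = 6 * v * (K + d) := by
    field_simp
  rw [h6]
  have h7 : 3 * v * d ≤ del := by
    have : d * (3 * v + 1) = del := by rw [hd]; field_simp
    nlinarith
  linarith

open Classical in
theorem tAI : ∃ C : ℝ, 0 < C ∧ ∀ (C1 : ℝ), 0 ≤ C1 → ∀ (phi : Tile → T → ℂ), WP C1 phi →
    ∀ (u : T → ℝ) (N : T → ℤ) (g : T → ℂ), Dat u N g → ∀ (a : Tile → ℝ), (∀ P, 0 ≤ a P) →
    ∀ (c : Tile → ℂ), (∀ P, ‖c P‖ ≤ a P) →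
    ∀ (TT : Finset Tile) (t : ℕ × ℕ × ℤ) (r : ℕ), IsTree TT t r → ∀ (mu eps : ℝ), 0 ≤ mu → 0 ≤ eps →
    MassLE u N TT mu → EnLE a TT eps →
    ∫ x in QT TT N, u x *
      ‖∑ P ∈ TT.filter (fun P => P.s + 2 ≤ rr TT x ∧ P.inJ (N x) ∧ P.inJ t.2.2), c P * phi P x‖ ≤
      C * C1 * eps * mu / 2 ^ t.1 := by
  obtain ⟨C, hC, hBes⟩ := tBes
  refine ⟨324 * 16000 * (512 * C / 2 + 3), by positivity, ?_⟩
  intro C1 hC1 phi hphi u N g hd a ha c hc TT t r hT mu eps hmu heps hm hen
  set K := TT.sup Tile.s with hK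
  set G : T → ℂ := fun z => ∑ P ∈ TT.filter (fun P => P.inJ t.2.2), c P * phi P z with hG
  set F : T → ℂ := fun x => ∑ P ∈ TT.filter
    (fun P => P.s + 2 ≤ rr TT x ∧ P.inJ (N x) ∧ P.inJ t.2.2), c P * phi P x with hF
  -- measurability and bounds
  have hphim : ∀ P, Measurable (phi P) := fun P => (phi_cont C1 phi hphi P).measurable
  have hGm : Measurable G := by
    refine Finset.measurable_sum _ fun P _ => ?_
    exact (hphim P).const_mul _
  have hGn : Measurable (fun z => ‖G z‖) := hGm.norm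
  have hphib : ∀ P x, ‖phi P x‖ ≤ C1 * Real.sqrt (2 ^ P.s) := by
    intro P x
    refine (hphi.decay P x).trans ?_
    have h1 : (1 : ℝ) ≤ rho P.s x P.c ^ 8 := one_le_pow₀ (one_le_rho _ _ _)
    exact div_le_self (by positivity) h1
  set B : ℝ := ∑ P ∈ TT.filter (fun P => P.inJ t.2.2), ‖c P‖ * (C1 * Real.sqrt (2 ^ P.s)) with hB
  have hGB : ∀ z, ‖G z‖ ≤ B := by
    intro z
    refine (norm_sum_le _ _).trans (Finset.sum_le_sum fun P _ => ?_)
    rw [norm_mul]
    exact mul_le_mul_of_nonneg_left (hphib P z) (norm_nonneg _)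
  have hG0 : ∀ z, 0 ≤ (fun z => ‖G z‖) z := fun z => norm_nonneg _
  have hMm : Measurable (MK K (fun z => ‖G z‖)) := MK_meas K _ hGn
  have hM0 : ∀ y, 0 ≤ MK K (fun z => ‖G z‖) y := fun y => MK_nonneg K _ hG0 y
  have hMB : ∀ y, MK K (fun z => ‖G z‖) y ≤ 2 ^ K * B := fun y => MK_bdd K _ hGn B hG0 hGB y
  have hMsq := MK_sq K (fun z => ‖G z‖) hGn B hG0 hGB
  -- energy
  have henergy : ∑ P ∈ TT.filter (fun P => P.inJ t.2.2), ‖c P‖ ^ 2 ≤ eps ^ 2 / 2 ^ t.1 := by
    have h1 := hen t.1 t.2.1 t.2.2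
    have h2 : TT.filter (fun P => tin P.s P.n t.1 t.2.1 ∧ P.inJ t.2.2) =
        TT.filter (fun P => P.inJ t.2.2) := by
      refine Finset.filter_congr fun P hP => ?_
      have := (hT.tr P hP).1
      constructor
      · exact fun h => h.2
      · exact fun h => ⟨this, h⟩
    rw [h2] at h1
    refine le_trans (Finset.sum_le_sum fun P _ => ?_) h1
    exact pow_le_pow_left₀ (norm_nonneg _) (hc P) 2
  have hGsq : ∫ z, ‖G z‖ ^ 2 ≤ C * C1 ^ 2 * (eps ^ 2 / 2 ^ t.1) := by
    refine (hBes C1 hC1 phi hphi c TT t r hT).trans ?_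
    exact mul_le_mul_of_nonneg_left henergy (by positivity)
  set S : Set T := {y | ‖y - cpt t.1 t.2.1‖ ≤ 3 / 2 ^ t.1} with hS
  have hSm : MeasurableSet S :=
    measurableSet_le ((measurable_id.sub_const _).norm) measurable_const
  have hvol : volume.real S ≤ 6 * (1 / 2 ^ t.1) := by
    refine (tAI_vol _ (by positivity)).trans (le_of_eq ?_)
    ring
  have hMI : ∫ y, MK K (fun z => ‖G z‖) y * S.indicator 1 y ≤
      (512 * C / 2 + 3) * (C1 * eps) * (1 / 2 ^ t.1) := by
    refine tAI_amgm S hSm _ hMm hM0 _ hMB (C1 * eps) (1 / 2 ^ t.1) (by positivity) (by positivity)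
      (512 * C) (by positivity) ?_ hvol
    refine hMsq.trans ?_
    have := mul_le_mul_of_nonneg_left hGsq (by norm_num : (0 : ℝ) ≤ 512)
    refine this.trans (le_of_eq ?_)
    ring
  -- the function H
  set H : T → ℝ := (QT TT N).indicator (fun x => ‖F x‖) with hH
  have hQm : MeasurableSet (QT TT N) := QT_meas TT N hd.mN
  have hFm : Measurable F := by
    have h1 : F = fun x => ∑ P ∈ TT,
        if P.s + 2 ≤ rr TT x ∧ P.inJ (N x) ∧ P.inJ t.2.2 then c P * phi P x else 0 := by
      funext x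
      rw [hF]
      exact Finset.sum_filter _ _
    rw [h1]
    refine Finset.measurable_sum _ fun P _ => ?_
    refine Measurable.ite ?_ ((hphim P).const_mul _) measurable_const
    have hr : MeasurableSet {x | P.s + 2 ≤ rr TT x} :=
      (rr_meas TT) (measurableSet_Ici (a := P.s + 2))
    have hN : MeasurableSet {x | P.inJ (N x)} :=
      hd.mN (MeasurableSet.of_discrete (s := {xi : ℤ | P.inJ xi}))
    exact hr.inter (hN.inter (MeasurableSet.const _))
  have hHm : Measurable H := hFm.norm.indicator hQm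
  have hH0 : ∀ x, 0 ≤ H x := fun x => Set.indicator_nonneg (fun _ _ => norm_nonneg _) x
  set W : T → ℝ := fun y => 16000 * (MK K (fun z => ‖G z‖) y * S.indicator 1 y) with hW
  have hWI : Integrable W := by
    refine Integrable.const_mul ?_ _
    refine Integrable.of_bound
      (hMm.mul (measurable_one.indicator hSm)).aestronglyMeasurable (2 ^ K * B)
      (ae_of_all _ fun y => ?_)
    rw [Real.norm_eq_abs, abs_of_nonneg]
    · by_cases hy : y ∈ S
      · simp only [hy, Set.indicator_of_mem, Pi.one_apply, mul_one]; exact hMB y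
      · simp only [hy, not_false_eq_true, Set.indicator_of_notMem, mul_zero]
        exact (hM0 y).trans (hMB y)
    · exact mul_nonneg (hM0 y) (Set.indicator_nonneg (fun _ _ => zero_le_one) y)
  have hW0 : ∀ y, 0 ≤ W y := fun y =>
    mul_nonneg (by norm_num) (mul_nonneg (hM0 y) (Set.indicator_nonneg (fun _ _ => zero_le_one) y))
  have hHW : ∀ x ∈ QT TT N, ∀ y, idx (rr TT x) y = idx (rr TT x) x → H x ≤ W y := by
    intro x hx y hy
    have h1 := tA_pt C1 phi hphi N c TT t r hT x hx y hy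
    have h2 := (tNear TT t r hT N x hx y hy).2.2.1
    have h3 : y ∈ S := h2
    have h4 : H x = ‖F x‖ := Set.indicator_of_mem hx _
    rw [h4]
    change ‖F x‖ ≤ 16000 * (MK K (fun z => ‖G z‖) y * S.indicator 1 y)
    rw [Set.indicator_of_mem h3, Pi.one_apply, mul_one]
    exact h1
  have hmain := tW u N g hd TT t r hT mu hmu hm H W hHm hH0 hWI hW0 hHW
  have h5 : ∫ x in QT TT N, u x * ‖F x‖ = ∫ x in QT TT N, u x * H x := by
    refine setIntegral_congr_fun hQm fun x hx => ?_
    have h4 : H x = ‖F x‖ := Set.indicator_of_mem hx _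
    simp only [h4]
  change ∫ x in QT TT N, u x * ‖F x‖ ≤ _
  rw [h5]
  refine hmain.trans ?_
  have h6 : ∫ y, W y ≤ 16000 * ((512 * C / 2 + 3) * (C1 * eps) * (1 / 2 ^ t.1)) := by
    rw [hW, integral_const_mul]
    exact mul_le_mul_of_nonneg_left hMI (by norm_num)
  refine (mul_le_mul_of_nonneg_left h6 (by positivity)).trans (le_of_eq ?_)
  ring

end CH
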