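import Mathlib
import Pool.Agent.CH.AGeo
import Pool.Agent.CH.TNb

/-!
CH-TRho. Comparisons of `rho`.
* `rho_cell`: `x, y` in the same cell, `rr x <= s + 1`, `s = P.s`, `P in TT`: `rho s y c_P <= 2 rho s x c_P`. If `rr x <= s`,
  `||x - y|| <= 2^-(rr x) <= ||x - c_P||` (`rr_far`), so `||y - c_P|| <= 2 ||x - c_P||`. If `rr x = s+1`, `2^s ||x-y|| <= 1/2`.
* `rho_top`: `rho t.1 x c_T <= 2 rho P.s x c_P` for `P` in the tree with top `t` (`c_T = cpt t.1 t.2.1`), because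
  `||c_P - c_T|| <= 2^-t.1` and `t.1 <= P.s`.
* `tree_unique`: at most one tile of a tree per time interval (`P.m = xi / 2^(P.s+7)`).
* `sum_tree_level`: for a set `TT` of tiles of a tree, all of level `s`: `sum_P rho^(-4) <= 4 C rho_T^(-2)` with `C` the
  constant of (G1): `rho_P^(-4) = rho_P^(-2) rho_P^(-2) <= rho_P^(-2) 4 rho_T^(-2)`, and the `P.n` are distinct and `< 2^s`.
* `rho_comp`: `rho s y c <= 2 rho s x c` if `||x-y|| <= 2^-s`.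
-/

open MeasureTheory

namespace CH

private theorem trho_norm_coe_le (a : ℝ) : ‖((a : ℝ) : T)‖ ≤ |a| := by
  rw [UnitAddCircle.norm_eq]
  have := round_le a 0
  simpa using this

private theorem trho_same_cell (r : ℕ) (x y : T) (h : idx r y = idx r x) : ‖x - y‖ ≤ 1 / 2 ^ r := by
  have hx : x - y = ((rep x - rep y : ℝ) : T) := by
    rw [AddCircle.coe_sub, coe_rep, coe_rep]
  rw [hx]
  refine (trho_norm_coe_le _).trans ?_
  have h2 : (0 : ℝ) < 2 ^ r := by positivity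
  have hx0 : 0 ≤ (2 : ℝ) ^ r * rep x := mul_nonneg h2.le (rep_nonneg x)
  have hy0 : 0 ≤ (2 : ℝ) ^ r * rep y := mul_nonneg h2.le (rep_nonneg y)
  have hx1 := Nat.floor_le hx0
  have hx2 := Nat.lt_floor_add_one ((2 : ℝ) ^ r * rep x)
  have hy1 := Nat.floor_le hy0
  have hy2 := Nat.lt_floor_add_one ((2 : ℝ) ^ r * rep y)
  have he : (⌊(2 : ℝ) ^ r * rep y⌋₊ : ℝ) = (⌊(2 : ℝ) ^ r * rep x⌋₊ : ℝ) := by
    have : ⌊(2 : ℝ) ^ r * rep y⌋₊ = ⌊(2 : ℝ) ^ r * rep x⌋₊ := h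
    rw [this]
  rw [he] at hy1 hy2
  rw [le_div_iff₀ h2]
  have : |rep x - rep y| * 2 ^ r = |2 ^ r * rep x - 2 ^ r * rep y| := by
    rw [← mul_sub, abs_mul, abs_of_pos h2, mul_comm]
  rw [this, abs_le]
  constructor <;> linarith

theorem rho_cell (TT : Finset Tile) (hok : ∀ P ∈ TT, P.ok) (x y : T)
    (hxy : idx (rr TT x) y = idx (rr TT x) x) (P : Tile) (hP : P ∈ TT)
    (h : rr TT x ≤ P.s + 1) : rho P.s y P.c ≤ 2 * rho P.s x P.c := by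
  have h1 := trho_same_cell _ x y hxy
  have h2 : (0 : ℝ) < 2 ^ P.s := by positivity
  have htri : ‖y - P.c‖ ≤ ‖x - y‖ + ‖x - P.c‖ := by
    have : y - P.c = -(x - y) + (x - P.c) := by abel
    rw [this]
    refine (norm_add_le _ _).trans ?_
    rw [norm_neg]
  unfold rho
  have hn := norm_nonneg (x - P.c)
  rcases Nat.lt_or_ge P.s (rr TT x) with hlt | hge
  · have he : rr TT x = P.s + 1 := by omega
    rw [he] at h1
    have h3 : (2 : ℝ) ^ P.s * ‖x - y‖ ≤ 1 / 2 := by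
      calc (2 : ℝ) ^ P.s * ‖x - y‖ ≤ 2 ^ P.s * (1 / 2 ^ (P.s + 1)) :=
            mul_le_mul_of_nonneg_left h1 h2.le
        _ = 1 / 2 := by rw [pow_succ]; field_simp
    have h4 : (2 : ℝ) ^ P.s * ‖y - P.c‖ ≤ 2 ^ P.s * ‖x - y‖ + 2 ^ P.s * ‖x - P.c‖ := by
      rw [← mul_add]; exact mul_le_mul_of_nonneg_left htri h2.le
    have h5 : 0 ≤ (2 : ℝ) ^ P.s * ‖x - P.c‖ := mul_nonneg h2.le hn
    linarith
  · have h3 := rr_far TT hok x P hP hge
    have h4 : ‖y - P.c‖ ≤ 2 * ‖x - P.c‖ := by linarith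
    have h5 : (2 : ℝ) ^ P.s * ‖y - P.c‖ ≤ 2 ^ P.s * (2 * ‖x - P.c‖) :=
      mul_le_mul_of_nonneg_left h4 h2.le
    linarith

theorem rho_comp (s : ℕ) (x y c : T) (h : ‖x - y‖ ≤ 1 / 2 ^ s) : rho s y c ≤ 2 * rho s x c := by
  refine rho_le_two_mul (x := y) (y := x) ?_ c
  rw [norm_sub_rev]; exact h

theorem rho_top (t : ℕ × ℕ × ℤ) (ht : t.2.1 < 2 ^ t.1) (P : Tile) (hok : P.ok) (hP : inTree t P)
    (x : T) : rho t.1 x (cpt t.1 t.2.1) ≤ 2 * rho P.s x P.c := by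
  have h1 : P.c ∈ D t.1 t.2.1 := D_subset_of_tin hP.1 (cpt_mem_D hok)
  have h2 := norm_sub_cpt_le' h1
  have hle : t.1 ≤ P.s := hP.1.1
  have h3 : (0 : ℝ) < 2 ^ t.1 := by positivity
  have h4 : (2 : ℝ) ^ t.1 ≤ 2 ^ P.s := pow_le_pow_right₀ (by norm_num) hle
  have htri : ‖x - cpt t.1 t.2.1‖ ≤ ‖x - P.c‖ + ‖P.c - cpt t.1 t.2.1‖ := by
    have : x - cpt t.1 t.2.1 = (x - P.c) + (P.c - cpt t.1 t.2.1) := by abel
    rw [this]; exact norm_add_le _ _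
  unfold rho
  have hn := norm_nonneg (x - P.c)
  have h5 : (2 : ℝ) ^ t.1 * ‖x - cpt t.1 t.2.1‖ ≤ 2 ^ t.1 * ‖x - P.c‖ + 1 := by
    calc (2 : ℝ) ^ t.1 * ‖x - cpt t.1 t.2.1‖ ≤ 2 ^ t.1 * (‖x - P.c‖ + 1 / 2 ^ t.1) :=
          mul_le_mul_of_nonneg_left (htri.trans (by linarith)) h3.le
      _ = 2 ^ t.1 * ‖x - P.c‖ + 1 := by field_simp
  have h6 : (2 : ℝ) ^ t.1 * ‖x - P.c‖ ≤ 2 ^ P.s * ‖x - P.c‖ := mul_le_mul_of_nonneg_right h4 hn
  have h7 : 0 ≤ (2 : ℝ) ^ P.s * ‖x - P.c‖ := by positivity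
  linarith

theorem tree_unique (t : ℕ × ℕ × ℤ) (P P' : Tile) (h : inTree t P) (h' : inTree t P')
    (hs : P.s = P'.s) (hn : P.n = P'.n) : P = P' := by
  obtain ⟨s, n, m⟩ := P
  obtain ⟨s', n', m'⟩ := P'
  simp only at hs hn
  subst hs
  subst hn
  have h1 : t.2.2 / 2 ^ (s + 7) = m := h.2
  have h2 : t.2.2 / 2 ^ (s + 7) = m' := h'.2
  rw [← h1, ← h2]

theorem sum_tree_level : ∃ C : ℝ, 0 < C ∧ ∀ (TT : Finset Tile) (t : ℕ × ℕ × ℤ) (r : ℕ),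
    IsTree TT t r → ∀ s : ℕ, (∀ P ∈ TT, P.s = s) → ∀ x : T,
    ∑ P ∈ TT, 1 / rho P.s x P.c ^ 4 ≤ C / rho t.1 x (cpt t.1 t.2.1) ^ 2 := by
  refine ⟨40, by norm_num, fun TT t r hT s hs x => ?_⟩
  have hR : 0 < rho t.1 x (cpt t.1 t.2.1) := rho_pos _ _ _
  have h1 : ∀ P ∈ TT, 1 / rho P.s x P.c ^ 4 ≤
      (4 / rho t.1 x (cpt t.1 t.2.1) ^ 2) * (1 / rho s x (cpt s P.n) ^ 2) := by
    intro P hP
    have hPs := hs P hP
    have hr : 0 < rho P.s x P.c := rho_pos _ _ _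
    have ht := rho_top t hT.top P (hT.ok P hP) (hT.tr P hP) x
    have hc : rho s x (cpt s P.n) = rho P.s x P.c := by
      unfold Tile.c; rw [hPs]
    rw [hc]
    have h2 : 1 / rho P.s x P.c ^ 2 ≤ 4 / rho t.1 x (cpt t.1 t.2.1) ^ 2 := by
      rw [div_le_div_iff₀ (by positivity) (by positivity)]
      nlinarith
    have h3 : 1 / rho P.s x P.c ^ 4 = (1 / rho P.s x P.c ^ 2) * (1 / rho P.s x P.c ^ 2) := by
      rw [div_mul_div_comm, one_mul, ← pow_add]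
    rw [h3]
    exact mul_le_mul_of_nonneg_right h2 (by positivity)
  refine (Finset.sum_le_sum h1).trans ?_
  rw [← Finset.mul_sum]
  have h2 : ∑ P ∈ TT, 1 / rho s x (cpt s P.n) ^ 2 ≤ 10 := by
    refine le_trans ?_ (G1' s x le_rfl)
    have hinj : Set.InjOn Tile.n (TT : Set Tile) := by
      intro P hP P' hP' hn
      exact tree_unique t P P' (hT.tr P hP) (hT.tr P' hP') ((hs P hP).trans (hs P' hP').symm) hn
    rw [← Finset.sum_image (f := fun n => 1 / rho s x (cpt s n) ^ 2) (g := Tile.n) (s := TT) hinj]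
    refine Finset.sum_le_sum_of_subset_of_nonneg ?_ ?_
    · intro n hn
      obtain ⟨P, hP, rfl⟩ := Finset.mem_image.mp hn
      have := hT.ok P hP
      unfold Tile.ok at this
      rw [hs P hP] at this
      exact Finset.mem_range.mpr this
    · intro n _ _
      have := rho_pos s x (cpt s n)
      positivity
  calc 4 / rho t.1 x (cpt t.1 t.2.1) ^ 2 * ∑ P ∈ TT, 1 / rho s x (cpt s P.n) ^ 2
      ≤ 4 / rho t.1 x (cpt t.1 t.2.1) ^ 2 * 10 := mul_le_mul_of_nonneg_left h2 (by positivity)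
    _ = 40 / rho t.1 x (cpt t.1 t.2.1) ^ 2 := by ring

end CH
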