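import Mathlib
import Pool.Agent.CH.AGeo
import Pool.Agent.CH.TRho

/-!
CH-TI1. One tile, far part (paper A4 (I)). `P in TT`, `s = P.s`. On `A = {x | N x in J_P, rr x <= s+1}`:
`|phi_P x| <= C1 2^(s/2) / rho^8 = C1 2^(-s/2) (2^s / rho^4) (1 / rho^4)`.
Claim: for every `x0` with `rr x0 <= s+1`, `1 / rho s x0 c_P ^ 4 <= 16 I`, where
`I = int_{rr x <= s+1} 2^(rr x) / rho s x c_P ^ 4`. Proof: the cell `Jc = {y | idx (rr x0) y = idx (rr x0) x0}` has measure
`2^-(rr x0)` (AGeo: `volume_D`), `rr y = rr x0` on it (`rr_cell`), and `rho s y c_P <= 2 rho s x0 c_P` (`rho_cell`), so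
`I >= int_{Jc} 2^(rr x0) / (16 rho s x0 c_P ^ 4) = 1 / (16 rho s x0 c_P ^4)`.
So `int_A u |phi_P| <= C1 2^(-s/2) 16 I int_{N in omega_P} u 2^s/rho^4 <= 16 C1 2^(-s/2) mu I`
(`P.inJ -> P.inOm`: `xi/2^(s+3) = 16 m + 8 -> xi / 2^(s+7) = m`; `massInt u N P <= mu` by `MassLE` with `P' = P`).
-/

open MeasureTheory

namespace CH

theorem inJ_inOm (P : Tile) (xi : ℤ) (h : P.inJ xi) : P.inOm xi := by
  unfold Tile.inJ at h
  unfold Tile.inOm
  have h1 : (2 : ℤ) ^ (P.s + 7) = 2 ^ (P.s + 3) * 16 := by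
    rw [show P.s + 7 = P.s + 3 + 4 by ring, pow_add]; norm_num
  rw [h1, ← Int.ediv_ediv_of_nonneg (by positivity), h]
  omega

theorem le_refl' (P : Tile) : P.le P := by
  unfold Tile.le tin
  simp

private theorem tI1_int (TT : Finset Tile) (s : ℕ) (c : T) :
    Integrable (fun x => (2 : ℝ) ^ rr TT x / rho s x c ^ 4) := by
  have hm : Measurable fun x => (2 : ℝ) ^ rr TT x / rho s x c ^ 4 := by
    refine Measurable.div ?_ ((rho_continuous s c).measurable.pow_const 4)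
    exact (measurable_from_nat (f := fun n : ℕ => (2 : ℝ) ^ n)).comp (rr_meas TT)
  refine Integrable.of_bound hm.aestronglyMeasurable ((2 : ℝ) ^ (TT.sup Tile.s + 1))
    (ae_of_all _ fun x => ?_)
  have h1 : 1 ≤ rho s x c := one_le_rho s x c
  rw [Real.norm_of_nonneg (by positivity)]
  calc (2 : ℝ) ^ rr TT x / rho s x c ^ 4 ≤ (2 : ℝ) ^ rr TT x / 1 := by
        apply div_le_div_of_nonneg_left (by positivity) (by norm_num)
        exact one_le_pow₀ h1
    _ = (2 : ℝ) ^ rr TT x := by ring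
    _ ≤ _ := pow_le_pow_right₀ (by norm_num) (rr_bdd TT x)

private theorem tI1_claim (TT : Finset Tile) (hok : ∀ P ∈ TT, P.ok) (P : Tile) (hP : P ∈ TT)
    (x0 : T) (h0 : rr TT x0 ≤ P.s + 1) :
    1 / rho P.s x0 P.c ^ 4 ≤
      16 * ∫ x in {x | rr TT x ≤ P.s + 1}, 2 ^ rr TT x / rho P.s x P.c ^ 4 := by
  set r := rr TT x0 with hr
  have hA : MeasurableSet {x | rr TT x ≤ P.s + 1} :=
    (rr_meas TT) (MeasurableSet.of_discrete (s := {n : ℕ | n ≤ P.s + 1}))
  have hsub : D r (idx r x0) ⊆ {x | rr TT x ≤ P.s + 1} := by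
    intro y hy
    have h1 : rr TT y = r := rr_cell TT x0 y hy
    show rr TT y ≤ P.s + 1
    rw [h1]; exact h0
  have hpos : 0 < rho P.s x0 P.c := rho_pos _ _ _
  have hmono : ∫ x in D r (idx r x0), 2 ^ rr TT x / rho P.s x P.c ^ 4 ≤
      ∫ x in {x | rr TT x ≤ P.s + 1}, 2 ^ rr TT x / rho P.s x P.c ^ 4 := by
    refine setIntegral_mono_set (tI1_int TT P.s P.c).integrableOn ?_ hsub.eventuallyLE
    exact ae_of_all _ fun x => by
      have := rho_pos P.s x P.c
      show (0 : ℝ) ≤ 2 ^ rr TT x / rho P.s x P.c ^ 4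
      positivity
  have hlow : ∫ x in D r (idx r x0), (2 ^ r / (16 * rho P.s x0 P.c ^ 4) : ℝ) ≤
      ∫ x in D r (idx r x0), 2 ^ rr TT x / rho P.s x P.c ^ 4 := by
    refine setIntegral_mono_on ?_ (tI1_int TT P.s P.c).integrableOn (measurableSet_D r _) ?_
    · exact integrableOn_const (measure_ne_top _ _)
    · intro y hy
      have h1 : rr TT y = r := rr_cell TT x0 y hy
      have h2 : rho P.s y P.c ≤ 2 * rho P.s x0 P.c := rho_cell TT hok x0 y hy P hP h0
      have h3 : 0 < rho P.s y P.c := rho_pos _ _ _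
      rw [h1]
      apply div_le_div_of_nonneg_left (by positivity) (by positivity)
      calc rho P.s y P.c ^ 4 ≤ (2 * rho P.s x0 P.c) ^ 4 := pow_le_pow_left₀ h3.le h2 4
        _ = 16 * rho P.s x0 P.c ^ 4 := by ring
  rw [setIntegral_const, volume_real_D (idx_lt r x0), smul_eq_mul] at hlow
  have h4 : (1 / 2 ^ r : ℝ) * (2 ^ r / (16 * rho P.s x0 P.c ^ 4)) =
      1 / (16 * rho P.s x0 P.c ^ 4) := by
    field_simp
  rw [h4] at hlow
  have h5 : 1 / rho P.s x0 P.c ^ 4 = 16 * (1 / (16 * rho P.s x0 P.c ^ 4)) := by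
    field_simp
  rw [h5]
  linarith

theorem tI1 (C1 : ℝ) (phi : Tile → T → ℂ) (hphi : WP C1 phi) (u : T → ℝ) (N : T → ℤ) (g : T → ℂ)
    (hd : Dat u N g) (TT : Finset Tile) (hok : ∀ P ∈ TT, P.ok) (mu : ℝ) (hmu : 0 ≤ mu)
    (hm : MassLE u N TT mu) (P : Tile) (hP : P ∈ TT) :
    ∫ x in {x | P.inJ (N x) ∧ rr TT x ≤ P.s + 1}, u x * ‖phi P x‖ ≤
      16 * C1 / Real.sqrt (2 ^ P.s) * mu *
        ∫ x in {x | rr TT x ≤ P.s + 1}, 2 ^ rr TT x / rho P.s x P.c ^ 4 := by
  set I := ∫ x in {x | rr TT x ≤ P.s + 1}, 2 ^ rr TT x / rho P.s x P.c ^ 4 with hI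
  have hsq : 0 < Real.sqrt (2 ^ P.s) := Real.sqrt_pos.2 (by positivity)
  have hC1 : 0 ≤ C1 := by
    have h1 := hphi.decay P P.c
    have h2 : 0 < rho P.s P.c P.c := rho_pos _ _ _
    have h3 : 0 ≤ C1 * Real.sqrt (2 ^ P.s) / rho P.s P.c P.c ^ 8 := (norm_nonneg _).trans h1
    by_contra hneg0
    have hneg := not_le.1 hneg0
    have h4 : C1 * Real.sqrt (2 ^ P.s) / rho P.s P.c P.c ^ 8 < 0 :=
      div_neg_of_neg_of_pos (mul_neg_of_neg_of_pos hneg hsq) (by positivity)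
    linarith
  have hI0 : 0 ≤ I := by
    refine integral_nonneg fun x => ?_
    have := rho_pos P.s x P.c
    show (0 : ℝ) ≤ 2 ^ rr TT x / rho P.s x P.c ^ 4
    positivity
  have hu0 : ∀ x, 0 ≤ u x := fun x => (norm_nonneg _).trans (hd.gu x)
  have hJm : MeasurableSet {x | P.inJ (N x)} :=
    hd.mN (MeasurableSet.of_discrete (s := {z : ℤ | P.inJ z}))
  have hOm : MeasurableSet {x | P.inOm (N x)} :=
    hd.mN (MeasurableSet.of_discrete (s := {z : ℤ | P.inOm z}))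
  have hRm : MeasurableSet {x | rr TT x ≤ P.s + 1} :=
    (rr_meas TT) (MeasurableSet.of_discrete (s := {n : ℕ | n ≤ P.s + 1}))
  have hS : MeasurableSet {x | P.inJ (N x) ∧ rr TT x ≤ P.s + 1} := hJm.inter hRm
  have hphm : Measurable (phi P) := by
    obtain ⟨cc, hcc⟩ := hphi.trig P
    have : phi P = fun x => ∑ j ∈ Finset.Icc (P.mid - 2 ^ (P.s + 6)) (P.mid - 2 ^ (P.s + 3)),
        cc j * e j x := funext hcc
    rw [this]
    exact Finset.measurable_sum _ fun j _ => (e_measurable j).const_mul _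
  have hw : Integrable (fun x => u x * (2 ^ P.s / rho P.s x P.c ^ 4)) := by
    refine Integrable.of_bound (C := 2 ^ P.s) ?_ (ae_of_all _ fun x => ?_)
    · exact (hd.mu.mul (measurable_const.div
        ((rho_continuous P.s P.c).measurable.pow_const 4))).aestronglyMeasurable
    · have h1 : 1 ≤ rho P.s x P.c := one_le_rho _ _ _
      have h2 := hu0 x
      have h3 := hd.u1 x
      rw [Real.norm_of_nonneg (by positivity)]
      have h4 : (2 : ℝ) ^ P.s / rho P.s x P.c ^ 4 ≤ 2 ^ P.s :=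
        div_le_self (by positivity) (one_le_pow₀ h1)
      calc u x * (2 ^ P.s / rho P.s x P.c ^ 4) ≤ 1 * 2 ^ P.s :=
            mul_le_mul h3 h4 (by positivity) (by norm_num)
        _ = 2 ^ P.s := one_mul _
  have hl : Integrable (fun x => u x * ‖phi P x‖) := by
    refine Integrable.of_bound (C := C1 * Real.sqrt (2 ^ P.s)) ?_ (ae_of_all _ fun x => ?_)
    · exact (hd.mu.mul hphm.norm).aestronglyMeasurable
    · have h1 : 1 ≤ rho P.s x P.c := one_le_rho _ _ _
      have h2 := hu0 x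
      have h3 := hd.u1 x
      rw [Real.norm_of_nonneg (by positivity)]
      calc u x * ‖phi P x‖ ≤ 1 * ‖phi P x‖ := by gcongr
        _ = ‖phi P x‖ := one_mul _
        _ ≤ _ := hphi.decay P x
        _ ≤ _ := div_le_self (by positivity) (one_le_pow₀ h1)
  have hstep1 : ∫ x in {x | P.inJ (N x) ∧ rr TT x ≤ P.s + 1}, u x * ‖phi P x‖ ≤
      ∫ x in {x | P.inJ (N x) ∧ rr TT x ≤ P.s + 1},
        (16 * C1 / Real.sqrt (2 ^ P.s) * I) * (u x * (2 ^ P.s / rho P.s x P.c ^ 4)) := by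
    refine setIntegral_mono_on hl.integrableOn (hw.const_mul _).integrableOn hS ?_
    intro x hx
    have h1 : 0 < rho P.s x P.c := rho_pos _ _ _
    have h2 := hu0 x
    have h3 := tI1_claim TT hok P hP x hx.2
    have h4 := hphi.decay P x
    have h5 : C1 * Real.sqrt (2 ^ P.s) / rho P.s x P.c ^ 8 =
        C1 / Real.sqrt (2 ^ P.s) * (2 ^ P.s / rho P.s x P.c ^ 4) * (1 / rho P.s x P.c ^ 4) := by
      have h6 : Real.sqrt (2 ^ P.s) * Real.sqrt (2 ^ P.s) = 2 ^ P.s :=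
        Real.mul_self_sqrt (by positivity)
      field_simp
      nlinarith [h6]
    calc u x * ‖phi P x‖ ≤ u x * (C1 / Real.sqrt (2 ^ P.s) * (2 ^ P.s / rho P.s x P.c ^ 4) *
          (1 / rho P.s x P.c ^ 4)) := by
          rw [← h5]; gcongr
      _ ≤ u x * (C1 / Real.sqrt (2 ^ P.s) * (2 ^ P.s / rho P.s x P.c ^ 4) * (16 * I)) := by
          gcongr
      _ = _ := by ring
  have hstep2 : ∫ x in {x | P.inJ (N x) ∧ rr TT x ≤ P.s + 1},
        u x * (2 ^ P.s / rho P.s x P.c ^ 4) ≤ mu := by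
    refine le_trans ?_ (hm P hP P (hok P hP) (le_refl' P))
    unfold massInt
    have hss : {x | P.inJ (N x) ∧ rr TT x ≤ P.s + 1} ⊆ {x | P.inOm (N x)} :=
      fun x hx => inJ_inOm P (N x) hx.1
    refine setIntegral_mono_set hw.integrableOn ?_ hss.eventuallyLE
    · exact ae_of_all _ fun x => by
        have := rho_pos P.s x P.c
        have := hu0 x
        show (0 : ℝ) ≤ u x * (2 ^ P.s / rho P.s x P.c ^ 4)
        positivity
  rw [integral_const_mul] at hstep1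
  calc _ ≤ _ := hstep1
    _ ≤ (16 * C1 / Real.sqrt (2 ^ P.s) * I) * mu := by gcongr
    _ = _ := by ring

end CH
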