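import Mathlib
import Pool.Agent.CH.AGeo
import Pool.Agent.CH.TI1

/-!
CH-TI. Part (I) of the tree lemma. By `EnLE` for the single tile `P` (with `(s,n) = (P.s,P.n)` and `xi = P.mid`),
`a P <= eps / sqrt (2^P.s)` (`a_le`). By `tI1`,
`sum_P a P int_{inJ, rr <= s+1} u |phi P| <= 16 C1 eps mu int sum_{P : rr x <= P.s+1} 2^(rr x - P.s) / rho^4 dx`.
Pointwise, group by levels: `sum_{s >= rr x - 1} 2^(rr x - s) sum_{P in TT, P.s = s} 1/rho^4 <= 4 C / rho_T^2` by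
`sum_tree_level` (geometric series `2 + 1 + 1/2 + ... = 4`), and `int 1/rho_T^2 <= C / 2^t.1` ((G2), AGeo).
-/

open MeasureTheory

namespace CH

theorem a_le (a : Tile → ℝ) (ha : ∀ P, 0 ≤ a P) (TT : Finset Tile) (eps : ℝ) (he : 0 ≤ eps)
    (h : EnLE a TT eps) (P : Tile) (hP : P ∈ TT) : a P ≤ eps / Real.sqrt (2 ^ P.s) := by
  classical
  have h1 := h P.s P.n P.mid
  have hmem : P ∈ TT.filter (fun Q => tin Q.s Q.n P.s P.n ∧ Q.inJ P.mid) := by
    rw [Finset.mem_filter]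
    refine ⟨hP, tin_refl _ _, ?_⟩
    unfold Tile.inJ Tile.mid
    have e : P.m * 2 ^ (P.s + 7) + 2 ^ (P.s + 6) = (16 * P.m + 8) * 2 ^ (P.s + 3) := by ring
    rw [e]
    exact Int.mul_ediv_cancel _ (by positivity)
  have h2 : a P ^ 2 ≤ eps ^ 2 / 2 ^ P.s := by
    refine le_trans ?_ h1
    refine Finset.single_le_sum (f := fun Q => a Q ^ 2) (fun Q _ => sq_nonneg _) ?_
    convert hmem
  have h5 : eps / Real.sqrt (2 ^ P.s) = Real.sqrt (eps ^ 2 / 2 ^ P.s) := by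
    rw [Real.sqrt_div (sq_nonneg _), Real.sqrt_sq he]
  rw [h5]
  exact Real.le_sqrt_of_sq_le h2

private theorem ti_geo (a k : ℕ) :
    ∑ s ∈ Finset.Ico a (a + k), (1 : ℝ) / 2 ^ s = 2 / 2 ^ a - 2 / 2 ^ (a + k) := by
  induction k with
  | zero => simp
  | succ k ih =>
    rw [← add_assoc, Finset.sum_Ico_succ_top (by omega), ih, pow_succ]
    field_simp
    ring

private theorem ti_geo2 (S : Finset ℕ) (a : ℕ) (h : ∀ s ∈ S, a ≤ s) :
    ∑ s ∈ S, (1 : ℝ) / 2 ^ s ≤ 2 / 2 ^ a := by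
  have hsub : S ⊆ Finset.Ico a (a + (S.sup id + 1)) := by
    intro s hs
    rw [Finset.mem_Ico]
    have : s ≤ S.sup id := Finset.le_sup (f := id) hs
    exact ⟨h s hs, by omega⟩
  refine (Finset.sum_le_sum_of_subset_of_nonneg hsub (fun _ _ _ => by positivity)).trans ?_
  rw [ti_geo]
  have : (0 : ℝ) ≤ 2 / 2 ^ (a + (S.sup id + 1)) := by positivity
  linarith

private theorem ti_pt (C : ℝ) (hC : 0 < C) (hCs : ∀ (TT : Finset Tile) (t : ℕ × ℕ × ℤ) (r : ℕ),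
    IsTree TT t r → ∀ s : ℕ, (∀ P ∈ TT, P.s = s) → ∀ x : T,
    ∑ P ∈ TT, 1 / rho P.s x P.c ^ 4 ≤ C / rho t.1 x (cpt t.1 t.2.1) ^ 2)
    (TT : Finset Tile) (t : ℕ × ℕ × ℤ) (r : ℕ) (hT : IsTree TT t r) (x : T) :
    ∑ P ∈ TT, (if rr TT x ≤ P.s + 1 then 2 ^ rr TT x / 2 ^ P.s * (1 / rho P.s x P.c ^ 4) else 0) ≤
      4 * (C * (1 / rho t.1 x (cpt t.1 t.2.1) ^ 2)) := by
  classical
  rw [← Finset.sum_filter]
  set R : ℕ := rr TT x with hR
  set D0 : ℝ := C / rho t.1 x (cpt t.1 t.2.1) ^ 2 with hD0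
  have hD0n : 0 ≤ D0 := by rw [hD0]; positivity
  set TF : Finset Tile := TT.filter (fun P => R ≤ P.s + 1) with hTF
  rw [← Finset.sum_fiberwise_of_maps_to (s := TF) (t := TF.image Tile.s) (g := Tile.s)
    (fun P hP => Finset.mem_image_of_mem _ hP)]
  have h1 : ∀ s ∈ TF.image Tile.s,
      ∑ P ∈ TF.filter (fun P => P.s = s), (2 : ℝ) ^ R / 2 ^ P.s * (1 / rho P.s x P.c ^ 4) ≤
        (1 / 2 ^ s) * (2 ^ R * D0) := by
    intro s _
    have e : ∀ P ∈ TF.filter (fun P => P.s = s),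
        (2 : ℝ) ^ R / 2 ^ P.s * (1 / rho P.s x P.c ^ 4) =
          (2 ^ R / 2 ^ s) * (1 / rho P.s x P.c ^ 4) := by
      intro P hP
      rw [(Finset.mem_filter.1 hP).2]
    have hsub : ∀ P ∈ TF.filter (fun P => P.s = s), P ∈ TT := by
      intro P hP
      exact (Finset.mem_filter.1 (Finset.mem_filter.1 hP).1).1
    have h2 := hCs (TF.filter (fun P => P.s = s)) t r
      ⟨hT.top, fun P hP => hT.ok P (hsub P hP), fun P hP => hT.cls P (hsub P hP),
        fun P hP => hT.tr P (hsub P hP)⟩ s (fun P hP => (Finset.mem_filter.1 hP).2) x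
    rw [Finset.sum_congr rfl e, ← Finset.mul_sum]
    calc (2 : ℝ) ^ R / 2 ^ s * ∑ P ∈ TF.filter (fun P => P.s = s), 1 / rho P.s x P.c ^ 4
        ≤ 2 ^ R / 2 ^ s * D0 := by gcongr
      _ = (1 / 2 ^ s) * (2 ^ R * D0) := by ring
  refine (Finset.sum_le_sum h1).trans ?_
  rw [← Finset.sum_mul]
  have h3 : ∑ s ∈ TF.image Tile.s, (1 : ℝ) / 2 ^ s ≤ 2 / 2 ^ (R - 1) := by
    refine ti_geo2 _ _ ?_
    intro s hs
    obtain ⟨P, hP, rfl⟩ := Finset.mem_image.1 hs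
    have := (Finset.mem_filter.1 hP).2
    omega
  have h4 : (2 : ℝ) / 2 ^ (R - 1) * 2 ^ R ≤ 4 := by
    rcases Nat.eq_zero_or_pos R with h0 | h0
    · rw [h0]; norm_num
    · obtain ⟨q, hq⟩ : ∃ q, R = q + 1 := ⟨R - 1, by omega⟩
      rw [hq]
      have : (2 : ℝ) ^ q ≠ 0 := by positivity
      have e : (2 : ℝ) / 2 ^ (q + 1 - 1) * 2 ^ (q + 1) = 4 := by
        rw [Nat.add_sub_cancel, pow_succ]
        field_simp
        norm_num
      exact e.le
  calc (∑ s ∈ TF.image Tile.s, (1 : ℝ) / 2 ^ s) * (2 ^ R * D0)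
      ≤ (2 / 2 ^ (R - 1)) * (2 ^ R * D0) := by gcongr
    _ = (2 / 2 ^ (R - 1) * 2 ^ R) * D0 := by ring
    _ ≤ 4 * D0 := by gcongr
    _ = 4 * (C * (1 / rho t.1 x (cpt t.1 t.2.1) ^ 2)) := by rw [hD0]; ring

theorem tI : ∃ C : ℝ, 0 < C ∧ ∀ (C1 : ℝ), 0 ≤ C1 → ∀ (phi : Tile → T → ℂ), WP C1 phi →
    ∀ (u : T → ℝ) (N : T → ℤ) (g : T → ℂ), Dat u N g → ∀ (a : Tile → ℝ), (∀ P, 0 ≤ a P) →
    ∀ (TT : Finset Tile) (t : ℕ × ℕ × ℤ) (r : ℕ), IsTree TT t r → ∀ (mu eps : ℝ), 0 ≤ mu → 0 ≤ eps →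
    MassLE u N TT mu → EnLE a TT eps →
    ∑ P ∈ TT, a P * ∫ x in {x | P.inJ (N x) ∧ rr TT x ≤ P.s + 1}, u x * ‖phi P x‖ ≤
      C * C1 * eps * mu / 2 ^ t.1 := by
  obtain ⟨C, hC, hCs⟩ := sum_tree_level
  refine ⟨16 * (4 * (C * 4)), by positivity, ?_⟩
  intro C1 hC1 phi hphi u N g hd a ha TT t r hT mu eps hmu heps hm hen
  have hms : ∀ P : Tile, MeasurableSet {x | rr TT x ≤ P.s + 1} := fun P =>
    measurableSet_le (rr_meas TT) measurable_const
  set f : Tile → T → ℝ := fun P x =>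
    if rr TT x ≤ P.s + 1 then 2 ^ rr TT x / 2 ^ P.s * (1 / rho P.s x P.c ^ 4) else 0 with hf
  have hfint : ∀ P : Tile, Integrable (f P) := by
    intro P
    have hmeas : Measurable (f P) := by
      refine Measurable.ite (hms P) ?_ measurable_const
      refine Measurable.mul ?_ ?_
      · refine Measurable.div_const ?_ _
        exact (measurable_of_countable (fun n : ℕ => (2 : ℝ) ^ n)).comp (rr_meas TT)
      · exact measurable_const.div ((rho_measurable P.s P.c).pow_const 4)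
    refine Integrable.mono' (integrable_const (2 : ℝ)) hmeas.aestronglyMeasurable ?_
    refine Filter.Eventually.of_forall (fun x => ?_)
    rw [hf]
    show ‖if rr TT x ≤ P.s + 1 then (2 : ℝ) ^ rr TT x / 2 ^ P.s * (1 / rho P.s x P.c ^ 4) else 0‖ ≤ 2
    have hr := one_le_rho P.s x P.c
    split_ifs with hx
    · rw [Real.norm_eq_abs, abs_of_nonneg (by positivity)]
      have h1 : (2 : ℝ) ^ rr TT x / 2 ^ P.s ≤ 2 := by
        rw [div_le_iff₀ (by positivity)]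
        calc (2 : ℝ) ^ rr TT x ≤ 2 ^ (P.s + 1) := pow_le_pow_right₀ (by norm_num) hx
          _ = 2 * 2 ^ P.s := by ring
      have h2 : 1 / rho P.s x P.c ^ 4 ≤ 1 := by
        rw [div_le_one (by positivity)]
        exact one_le_pow₀ hr
      calc (2 : ℝ) ^ rr TT x / 2 ^ P.s * (1 / rho P.s x P.c ^ 4) ≤ 2 * 1 := by gcongr
        _ = 2 := by norm_num
    · simp
  have hterm : ∀ P ∈ TT, a P * ∫ x in {x | P.inJ (N x) ∧ rr TT x ≤ P.s + 1}, u x * ‖phi P x‖ ≤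
      16 * C1 * eps * mu * ∫ x, f P x := by
    intro P hP
    have h1 := tI1 C1 phi hphi u N g hd TT hT.ok mu hmu hm P hP
    have h2 := a_le a ha TT eps heps hen P hP
    have hI : ∫ x in {x | rr TT x ≤ P.s + 1}, (2 : ℝ) ^ rr TT x / rho P.s x P.c ^ 4 =
        2 ^ P.s * ∫ x, f P x := by
      rw [← integral_indicator (hms P), ← integral_const_mul]
      refine integral_congr_ae (Filter.Eventually.of_forall (fun x => ?_))
      show Set.indicator {x | rr TT x ≤ P.s + 1} (fun x => (2 : ℝ) ^ rr TT x / rho P.s x P.c ^ 4) x =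
        2 ^ P.s * (if rr TT x ≤ P.s + 1 then 2 ^ rr TT x / 2 ^ P.s * (1 / rho P.s x P.c ^ 4) else 0)
      by_cases hx : rr TT x ≤ P.s + 1
      · rw [Set.indicator_of_mem (show x ∈ {x | rr TT x ≤ P.s + 1} from hx), if_pos hx]
        field_simp
      · rw [Set.indicator_of_notMem (show x ∉ {x | rr TT x ≤ P.s + 1} from hx), if_neg hx, mul_zero]
    have hfn : 0 ≤ ∫ x, f P x := by
      refine integral_nonneg (fun x => ?_)
      show (0 : ℝ) ≤ if rr TT x ≤ P.s + 1 then 2 ^ rr TT x / 2 ^ P.s * (1 / rho P.s x P.c ^ 4) else 0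
      have := rho_pos P.s x P.c
      split_ifs <;> positivity
    rw [hI] at h1
    have hsq : Real.sqrt (2 ^ P.s) * Real.sqrt (2 ^ P.s) = 2 ^ P.s :=
      Real.mul_self_sqrt (by positivity)
    have hsp : 0 < Real.sqrt (2 ^ P.s) := by positivity
    calc a P * ∫ x in {x | P.inJ (N x) ∧ rr TT x ≤ P.s + 1}, u x * ‖phi P x‖
        ≤ a P * (16 * C1 / Real.sqrt (2 ^ P.s) * mu * (2 ^ P.s * ∫ x, f P x)) := by
          exact mul_le_mul_of_nonneg_left h1 (ha P)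
      _ ≤ (eps / Real.sqrt (2 ^ P.s)) *
          (16 * C1 / Real.sqrt (2 ^ P.s) * mu * (2 ^ P.s * ∫ x, f P x)) := by gcongr
      _ = 16 * C1 * eps * mu * (∫ x, f P x) *
          (2 ^ P.s / (Real.sqrt (2 ^ P.s) * Real.sqrt (2 ^ P.s))) := by
          field_simp
      _ = 16 * C1 * eps * mu * ∫ x, f P x := by
          rw [hsq, div_self (by positivity), mul_one]
  refine (Finset.sum_le_sum hterm).trans ?_
  rw [← Finset.mul_sum, ← integral_finset_sum _ (fun P _ => hfint P)]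
  have hint : ∫ x, ∑ P ∈ TT, f P x ≤ 4 * (C * (4 / 2 ^ t.1)) := by
    calc ∫ x, ∑ P ∈ TT, f P x ≤ ∫ x, 4 * (C * (1 / rho t.1 x (cpt t.1 t.2.1) ^ 2)) := by
          refine integral_mono (integrable_finset_sum _ (fun P _ => hfint P))
            (((integrable_inv_rho t.1 2 (cpt t.1 t.2.1)).const_mul C).const_mul 4) ?_
          intro x
          exact ti_pt C hC hCs TT t r hT x
      _ = 4 * (C * ∫ x, 1 / rho t.1 x (cpt t.1 t.2.1) ^ 2) := by
          rw [integral_const_mul, integral_const_mul]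
      _ ≤ 4 * (C * (4 / 2 ^ t.1)) := by
          have := G2_four t.1 (cpt t.1 t.2.1)
          gcongr
  calc 16 * C1 * eps * mu * ∫ x, ∑ P ∈ TT, f P x
      ≤ 16 * C1 * eps * mu * (4 * (C * (4 / 2 ^ t.1))) := by gcongr
    _ = 16 * (4 * (C * 4)) * C1 * eps * mu / 2 ^ t.1 := by ring

end CH
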