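import Mathlib
import Pool.Agent.CH.AGeo
import Pool.Agent.CH.TI
import Pool.Agent.CH.TW
import Pool.Agent.CH.TNear

/-!
CH-TB. Class B: the tiles `P in TT` with `xi` not in `J_P` (`xi = t.2.2`).
* `tB_one`: at most one level is active at `x`: if `P, P'` are both active (`P.inJ (N x)`, `P'.inJ (N x)`), both have
  `xi` not in `J`, and `P.s < P'.s`, then `P.s + 4 <= P'.s` (same class mod 4); `N x` and `xi` lie in `omega_P`:
  `N x / 2^(P.s+7) = P.m = xi / 2^(P.s+7)`, so `N x / 2^(P'.s+3) = xi / 2^(P'.s+3)` (`P'.s + 3 >= P.s + 7`), so `P'.inJ xi`. Contradiction.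
* `tB_pt`: so the sum at `x` runs over tiles of one level `s`: `sum a P |phi P x| <= sum eps 2^(-s/2) C1 2^(s/2) / rho^8
  <= C1 eps sum 1/rho^4 <= C C1 eps / rho_T x ^2` (`a_le`, `sum_tree_level`; `rho >= 1`).
* `tB`: `tW` with `H x = C C1 eps / rho_T x ^2`, `W = 4 H` (`tNear`: `rho_T y <= 2 rho_T x` on the cell), and (G2).
-/

open MeasureTheory

namespace CH

private theorem TB_div (a : ℤ) (i j : ℕ) (h : i ≤ j) : a / 2 ^ j = a / 2 ^ i / 2 ^ (j - i) := by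
  have h1 : (2 : ℤ) ^ j = 2 ^ i * 2 ^ (j - i) := by
    rw [← pow_add]
    congr 1
    omega
  rw [h1, Int.ediv_ediv_of_nonneg (by positivity)]

/-- at most one level is active -/
private theorem TB_one (t : ℕ × ℕ × ℤ) (P P' : Tile) (hP : inTree t P) (hs : P.s + 4 ≤ P'.s)
    (n : ℤ) (hJ : P.inJ n) (hJ' : P'.inJ n) : P'.inJ t.2.2 := by
  have h1 : n / 2 ^ (P.s + 7) = P.m := by
    rw [TB_div n (P.s + 3) (P.s + 7) (by omega)]
    have h2 : n / 2 ^ (P.s + 3) = 16 * P.m + 8 := hJ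
    rw [h2]
    have h3 : P.s + 7 - (P.s + 3) = 4 := by omega
    rw [h3]
    omega
  have h2 : t.2.2 / 2 ^ (P.s + 7) = P.m := hP.2
  have h3 : n / 2 ^ (P'.s + 3) = 16 * P'.m + 8 := hJ'
  change t.2.2 / 2 ^ (P'.s + 3) = 16 * P'.m + 8
  rw [TB_div _ (P.s + 7) (P'.s + 3) (by omega), h2, ← h1, ← TB_div _ (P.s + 7) (P'.s + 3) (by omega)]
  exact h3

private theorem TB_sub {TT : Finset Tile} {t : ℕ × ℕ × ℤ} {r : ℕ} (hT : IsTree TT t r)
    {F : Finset Tile} (hF : F ⊆ TT) : IsTree F t r where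
  top := hT.top
  ok := fun P hP => hT.ok P (hF hP)
  cls := fun P hP => hT.cls P (hF hP)
  tr := fun P hP => hT.tr P (hF hP)

open Classical in
theorem tB_pt : ∃ C : ℝ, 0 < C ∧ ∀ (C1 : ℝ), 0 ≤ C1 → ∀ (phi : Tile → T → ℂ), WP C1 phi →
    ∀ (N : T → ℤ) (a : Tile → ℝ), (∀ P, 0 ≤ a P) →
    ∀ (TT : Finset Tile) (t : ℕ × ℕ × ℤ) (r : ℕ), IsTree TT t r → ∀ (eps : ℝ), 0 ≤ eps →
    EnLE a TT eps → ∀ x : T,
    ∑ P ∈ TT.filter (fun P => P.inJ (N x) ∧ ¬ P.inJ t.2.2), a P * ‖phi P x‖ ≤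
      C * C1 * eps / rho t.1 x (cpt t.1 t.2.1) ^ 2 := by
  obtain ⟨C, hC, hsum⟩ := sum_tree_level
  refine ⟨C, hC, ?_⟩
  intro C1 hC1 phi hphi N a ha TT t r hT eps heps hE x
  obtain ⟨F, hF⟩ : ∃ F : Finset Tile, F = TT.filter (fun P => P.inJ (N x) ∧ ¬ P.inJ t.2.2) :=
    ⟨_, rfl⟩
  rw [← hF]
  have hFT : F ⊆ TT := by
    rw [hF]
    exact Finset.filter_subset _ _
  have hmem : ∀ P ∈ F, P.inJ (N x) ∧ ¬ P.inJ t.2.2 := by
    intro P hP
    rw [hF, Finset.mem_filter] at hP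
    exact hP.2
  have hr0 : 0 < rho t.1 x (cpt t.1 t.2.1) := rho_pos _ _ _
  rcases F.eq_empty_or_nonempty with h0 | ⟨P0, hP0⟩
  · rw [h0, Finset.sum_empty]
    positivity
  · have hlev : ∀ P ∈ F, P.s = P0.s := by
      intro P hP
      have hc := hT.cls P (hFT hP)
      have hc0 := hT.cls P0 (hFT hP0)
      rcases lt_trichotomy P.s P0.s with h | h | h
      · exact absurd (TB_one t P P0 (hT.tr P (hFT hP)) (by omega) (N x) (hmem P hP).1
          (hmem P0 hP0).1) (hmem P0 hP0).2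
      · exact h
      · exact absurd (TB_one t P0 P (hT.tr P0 (hFT hP0)) (by omega) (N x) (hmem P0 hP0).1
          (hmem P hP).1) (hmem P hP).2
    have hterm : ∀ P ∈ F, a P * ‖phi P x‖ ≤ C1 * eps * (1 / rho P.s x P.c ^ 4) := by
      intro P hP
      have h1 := a_le a ha TT eps heps hE P (hFT hP)
      have h2 := hphi.decay P x
      have hsq : 0 < Real.sqrt (2 ^ P.s) := Real.sqrt_pos.2 (by positivity)
      have hrp : 0 < rho P.s x P.c := rho_pos _ _ _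
      have h3 : a P * ‖phi P x‖ ≤
          (eps / Real.sqrt (2 ^ P.s)) * (C1 * Real.sqrt (2 ^ P.s) / rho P.s x P.c ^ 8) :=
        mul_le_mul h1 h2 (norm_nonneg _) (by positivity)
      have h4 : (eps / Real.sqrt (2 ^ P.s)) * (C1 * Real.sqrt (2 ^ P.s) / rho P.s x P.c ^ 8) =
          C1 * eps * (1 / rho P.s x P.c ^ 8) := by
        field_simp
      rw [h4] at h3
      refine h3.trans (mul_le_mul_of_nonneg_left ?_ (by positivity))
      exact one_div_le_one_div_of_le (by positivity)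
        (pow_le_pow_right₀ (one_le_rho _ _ _) (by norm_num))
    calc ∑ P ∈ F, a P * ‖phi P x‖ ≤ ∑ P ∈ F, C1 * eps * (1 / rho P.s x P.c ^ 4) :=
          Finset.sum_le_sum hterm
      _ = C1 * eps * ∑ P ∈ F, 1 / rho P.s x P.c ^ 4 := by rw [Finset.mul_sum]
      _ ≤ C1 * eps * (C / rho t.1 x (cpt t.1 t.2.1) ^ 2) :=
          mul_le_mul_of_nonneg_left (hsum F t r (TB_sub hT hFT) P0.s hlev x) (by positivity)
      _ = C * C1 * eps / rho t.1 x (cpt t.1 t.2.1) ^ 2 := by ring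

open Classical in
theorem tB : ∃ C : ℝ, 0 < C ∧ ∀ (C1 : ℝ), 0 ≤ C1 → ∀ (phi : Tile → T → ℂ), WP C1 phi →
    ∀ (u : T → ℝ) (N : T → ℤ) (g : T → ℂ), Dat u N g → ∀ (a : Tile → ℝ), (∀ P, 0 ≤ a P) →
    ∀ (TT : Finset Tile) (t : ℕ × ℕ × ℤ) (r : ℕ), IsTree TT t r → ∀ (mu eps : ℝ), 0 ≤ mu → 0 ≤ eps →
    MassLE u N TT mu → EnLE a TT eps →
    ∫ x in QT TT N, u x * ∑ P ∈ TT.filter (fun P => P.inJ (N x) ∧ ¬ P.inJ t.2.2), a P * ‖phi P x‖ ≤
      C * C1 * eps * mu / 2 ^ t.1 := by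
  obtain ⟨C, hC, hpt⟩ := tB_pt
  refine ⟨5184 * C, by positivity, ?_⟩
  intro C1 hC1 phi hphi u N g hd a ha TT t r hT mu eps hmu heps hM hE
  have hu0 : ∀ x, 0 ≤ u x := fun x => (norm_nonneg _).trans (hd.gu x)
  obtain ⟨K, hK⟩ : ∃ K : ℝ, K = C * C1 * eps := ⟨_, rfl⟩
  have hK0 : 0 ≤ K := by
    rw [hK]
    positivity
  obtain ⟨R, hR⟩ : ∃ R : T → ℝ, R = fun x => rho t.1 x (cpt t.1 t.2.1) := ⟨_, rfl⟩
  have hR0 : ∀ x, 0 < R x := fun x => by
    rw [hR]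
    exact rho_pos _ _ _
  have hRc : Continuous R := by
    rw [hR]
    exact rho_continuous _ _
  have hRi : Integrable (fun x => 1 / R x ^ 2) := by
    refine (integrable_rho t.1 2 (cpt t.1 t.2.1)).congr (ae_of_all _ fun x => ?_)
    rw [hR]
    simp only
    rw [rho_comm]
  have hRint : ∫ x, 1 / R x ^ 2 ≤ 4 / 2 ^ t.1 := by
    refine le_trans (le_of_eq ?_) (G2' t.1 (cpt t.1 t.2.1) le_rfl)
    congr 1
    ext x
    rw [hR]
    simp only
    rw [rho_comm]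
  have hHc : Continuous (fun x => K / R x ^ 2) :=
    continuous_const.div (hRc.pow 2) fun x => (pow_pos (hR0 x) 2).ne'
  have hHi : Integrable (fun x => K / R x ^ 2) := by
    refine (hRi.const_mul K).congr (ae_of_all _ fun x => ?_)
    simp only
    ring
  have hH0 : ∀ x, 0 ≤ K / R x ^ 2 := fun x => div_nonneg hK0 (pow_pos (hR0 x) 2).le
  have hW := tW u N g hd TT t r hT mu hmu hM (fun x => K / R x ^ 2)
    (fun x => 4 * (K / R x ^ 2)) hHc.measurable hH0 (hHi.const_mul 4)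
    (fun x => mul_nonneg (by norm_num) (hH0 x)) (by
      intro x hx y hy
      obtain ⟨-, -, -, h4⟩ := tNear TT t r hT N x hx y hy
      have h5 : R y ≤ 2 * R x := by
        rw [hR]
        exact h4
      have h6 : R y ^ 2 ≤ 4 * R x ^ 2 := by
        calc R y ^ 2 ≤ (2 * R x) ^ 2 := pow_le_pow_left₀ (hR0 y).le h5 2
          _ = 4 * R x ^ 2 := by ring
      have hx2 := pow_pos (hR0 x) 2
      have hy2 := pow_pos (hR0 y) 2
      rw [div_le_iff₀ hx2]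
      have h7 : 4 * (K / R y ^ 2) * R x ^ 2 = K / R y ^ 2 * (4 * R x ^ 2) := by ring
      rw [h7]
      calc K = K / R y ^ 2 * R y ^ 2 := (div_mul_cancel₀ K hy2.ne').symm
        _ ≤ K / R y ^ 2 * (4 * R x ^ 2) := mul_le_mul_of_nonneg_left h6 (hH0 y))
  have huH : Integrable (fun x => u x * (K / R x ^ 2)) := by
    have h := hHi.bdd_mul (c := 1) (f := u) hd.mu.aestronglyMeasurable (ae_of_all _ fun x => by
      rw [Real.norm_eq_abs, abs_of_nonneg (hu0 x)]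
      exact hd.u1 x)
    exact h
  have h1 : ∫ x in QT TT N, u x * ∑ P ∈ TT.filter (fun P => P.inJ (N x) ∧ ¬ P.inJ t.2.2),
      a P * ‖phi P x‖ ≤ ∫ x in QT TT N, u x * (K / R x ^ 2) := by
    refine integral_mono_of_nonneg (ae_of_all _ fun x => ?_) huH.integrableOn
      (ae_of_all _ fun x => ?_)
    · exact mul_nonneg (hu0 x) (Finset.sum_nonneg fun P _ => mul_nonneg (ha P) (norm_nonneg _))
    · refine mul_le_mul_of_nonneg_left ?_ (hu0 x)
      have h2 := hpt C1 hC1 phi hphi N a ha TT t r hT eps heps hE x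
      rw [← hK] at h2
      rw [hR]
      exact h2
  have h3 : ∫ x, 4 * (K / R x ^ 2) ≤ 4 * (K * (4 / 2 ^ t.1)) := by
    have h4 : ∀ x, 4 * (K / R x ^ 2) = (4 * K) * (1 / R x ^ 2) := fun x => by ring
    simp_rw [h4]
    rw [integral_const_mul]
    calc 4 * K * ∫ x, 1 / R x ^ 2 ≤ 4 * K * (4 / 2 ^ t.1) :=
          mul_le_mul_of_nonneg_left hRint (by positivity)
      _ = 4 * (K * (4 / 2 ^ t.1)) := by ring
  calc _ ≤ ∫ x in QT TT N, u x * (K / R x ^ 2) := h1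
    _ ≤ 324 * mu * ∫ x, 4 * (K / R x ^ 2) := hW
    _ ≤ 324 * mu * (4 * (K * (4 / 2 ^ t.1))) := mul_le_mul_of_nonneg_left h3 (by positivity)
    _ = 5184 * C * C1 * eps * mu / 2 ^ t.1 := by
        rw [hK]
        ring

end CH
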