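import Mathlib
import Pool.Agent.CH.AGeo
import Pool.Agent.CH.TI
import Pool.Agent.CH.TB
import Pool.Agent.CH.TAI

/-!
CH-TAsm. Assembly of the tree lemma. For every `P` choose `c P` with `|c P| <= a P` and
`a P * bco g N phi P = int_{inJ} g conj (c P phi P)` (`c P = a P * z / |z|` or so, `z` the integral; `c P = 0` if `z = 0`). Sum over `P`:
`sum a P bco = int g conj (sum_P 1_{inJ P (N x)} c P phi P x) <= int u |sum_P 1_{inJ} c P phi P x|`. Pointwise the sum splits
into `P.s + 1 >= rr x` (bounded by `sum a P |phi P|`, `tI`), and `P.s + 2 <= rr x`, which vanishes off `QT`, with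
`not inJ xi` (bounded by the sum of `tB`) and `inJ xi` (`tAI`).
-/

open MeasureTheory
open scoped ComplexConjugate

namespace CH

theorem TAsm_phi_cont {C1 : ℝ} {phi : Tile → T → ℂ} (h : WP C1 phi) (P : Tile) :
    Continuous (phi P) := by
  obtain ⟨cc, hcc⟩ := h.trig P
  have : phi P = fun x => ∑ j ∈ Finset.Icc (P.mid - 2 ^ (P.s + 6)) (P.mid - 2 ^ (P.s + 3)),
      cc j * e j x := funext hcc
  rw [this]
  exact continuous_finsetSum _ fun j _ => continuous_const.mul (e_continuous j)

theorem TAsm_bdd {F : T → ℂ} (hF : Continuous F) : ∃ B : ℝ, 0 ≤ B ∧ ∀ x, ‖F x‖ ≤ B := by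
  obtain ⟨B, hB⟩ := isCompact_univ.exists_bound_of_continuousOn hF.continuousOn
  exact ⟨max B 0, le_max_right _ _, fun x => (hB x (Set.mem_univ x)).trans (le_max_left _ _)⟩

theorem TAsm_inJ_meas (N : T → ℤ) (hN : Measurable N) (P : Tile) :
    MeasurableSet {x | P.inJ (N x)} :=
  hN (MeasurableSet.of_discrete (s := {xi : ℤ | P.inJ xi}))

theorem TAsm_int {f : T → ℝ} (hf : Measurable f) (B : ℝ) (hB : ∀ x, |f x| ≤ B) : Integrable f :=
  Integrable.of_bound hf.aestronglyMeasurable B (ae_of_all _ fun x => by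
    rw [Real.norm_eq_abs]; exact hB x)

open Classical in
theorem TAsm_split (TT : Finset Tile) (N : T → ℤ) (a : Tile → ℝ) (ha : ∀ P, 0 ≤ a P)
    (c : Tile → ℂ) (hc : ∀ P, ‖c P‖ ≤ a P) (phi : Tile → T → ℂ) (xi : ℤ) (x : T) :
    ‖∑ P ∈ TT.filter (fun P => P.inJ (N x)), c P * phi P x‖ ≤
      (∑ P ∈ TT, {x | P.inJ (N x) ∧ rr TT x ≤ P.s + 1}.indicator (fun x => a P * ‖phi P x‖) x) +
      (QT TT N).indicator (fun x =>
        ∑ P ∈ TT.filter (fun P => P.inJ (N x) ∧ ¬ P.inJ xi), a P * ‖phi P x‖) x +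
      (QT TT N).indicator (fun x =>
        ‖∑ P ∈ TT.filter (fun P => P.s + 2 ≤ rr TT x ∧ P.inJ (N x) ∧ P.inJ xi), c P * phi P x‖) x := by
  have hterm : ∀ P, ‖c P * phi P x‖ ≤ a P * ‖phi P x‖ := fun P => by
    rw [norm_mul]; exact mul_le_mul_of_nonneg_right (hc P) (norm_nonneg _)
  -- three pieces
  have e1 : ∑ P ∈ TT.filter (fun P => P.inJ (N x)), c P * phi P x =
      ∑ P ∈ TT.filter (fun P => P.inJ (N x) ∧ rr TT x ≤ P.s + 1), c P * phi P x +
      (∑ P ∈ TT.filter (fun P => P.s + 2 ≤ rr TT x ∧ P.inJ (N x) ∧ ¬ P.inJ xi), c P * phi P x +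
      ∑ P ∈ TT.filter (fun P => P.s + 2 ≤ rr TT x ∧ P.inJ (N x) ∧ P.inJ xi), c P * phi P x) := by
    simp only [Finset.sum_filter]
    rw [← Finset.sum_add_distrib, ← Finset.sum_add_distrib]
    refine Finset.sum_congr rfl fun P _ => ?_
    by_cases h1 : P.inJ (N x)
    · by_cases h2 : rr TT x ≤ P.s + 1
      · have h3 : ¬ P.s + 2 ≤ rr TT x := by omega
        simp [h1, h2, h3]
      · have h3 : P.s + 2 ≤ rr TT x := by omega
        by_cases h4 : P.inJ xi
        · simp [h1, h2, h3, h4]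
        · simp [h1, h2, h3, h4]
    · simp [h1]
  rw [e1]
  refine (norm_add_le _ _).trans ?_
  rw [add_assoc]
  refine add_le_add ?_ ((norm_add_le _ _).trans (add_le_add ?_ ?_))
  · refine (norm_sum_le _ _).trans ?_
    rw [Finset.sum_filter]
    refine Finset.sum_le_sum fun P _ => ?_
    by_cases h : P.inJ (N x) ∧ rr TT x ≤ P.s + 1
    · rw [if_pos h, Set.indicator_of_mem (by exact h)]; exact hterm P
    · rw [if_neg h, Set.indicator_of_notMem (by exact h)]
  · by_cases hx : x ∈ QT TT N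
    · rw [Set.indicator_of_mem hx]
      refine (norm_sum_le _ _).trans ((Finset.sum_le_sum fun P _ => hterm P).trans ?_)
      refine Finset.sum_le_sum_of_subset_of_nonneg (fun P hP => ?_)
        fun P _ _ => mul_nonneg (ha P) (norm_nonneg _)
      rw [Finset.mem_filter] at hP ⊢
      exact ⟨hP.1, hP.2.2⟩
    · rw [Set.indicator_of_notMem hx, Finset.filter_false_of_mem]
      · simp
      · intro P hP hh
        exact hx ⟨P, hP, hh.1, hh.2.1⟩
  · by_cases hx : x ∈ QT TT N
    · rw [Set.indicator_of_mem hx]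
    · rw [Set.indicator_of_notMem hx, Finset.filter_false_of_mem]
      · simp
      · intro P hP hh
        exact hx ⟨P, hP, hh.1, hh.2.1⟩

theorem TAsm_coef (z : ℂ) (a : ℝ) (ha : 0 ≤ a) :
    ∃ c : ℂ, ‖c‖ ≤ a ∧ ((a * ‖z‖ : ℝ) : ℂ) = conj c * z := by
  by_cases hz : z = 0
  · exact ⟨0, by simpa using ha, by simp [hz]⟩
  · refine ⟨a * (z / ‖z‖), ?_, ?_⟩
    · rw [norm_mul, norm_div, Complex.norm_real, Complex.norm_real, Real.norm_eq_abs, abs_of_nonneg ha,
        norm_norm, div_self (by simpa using hz), mul_one]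
    · have h3 : z * conj z = ((‖z‖ : ℝ) : ℂ) ^ 2 := by
        rw [Complex.mul_conj, Complex.normSq_eq_norm_sq]; push_cast; ring
      have hz' : ((‖z‖ : ℝ) : ℂ) ≠ 0 := by simpa using hz
      simp only [map_mul, map_div₀, Complex.conj_ofReal]
      field_simp
      push_cast
      linear_combination (-(a : ℂ)) * h3

theorem tree_lemma (C1 : ℝ) (h1 : 0 < C1) : ∃ C : ℝ, 0 ≤ C ∧ TreeLemma C1 C := by
  classical
  obtain ⟨CI, hCI, hI⟩ := tI
  obtain ⟨CB, hCB, hB⟩ := tB
  obtain ⟨CA, hCA, hA⟩ := tAI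
  refine ⟨CI * C1 + CB * C1 + CA * C1, by positivity, ?_⟩
  intro phi hphi u N g hd a ha r t TT mu eps ht hTT hmu heps hm hen
  have hT : IsTree TT t r :=
    ⟨ht, fun P hP => (hTT P hP).1, fun P hP => (hTT P hP).2.1, fun P hP => (hTT P hP).2.2⟩
  have hu0 : ∀ x, 0 ≤ u x := fun x => (norm_nonneg _).trans (hd.gu x)
  have hcont := TAsm_phi_cont hphi
  choose Bd hBd0 hBd using fun P => TAsm_bdd (hcont P)
  have hJ := fun P => TAsm_inJ_meas N hd.mN P
  -- coefficients
  choose c hc hcz using fun P =>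
    TAsm_coef (∫ x in {x | P.inJ (N x)}, g x * conj (phi P x)) (a P) (ha P)
  have hgint : ∀ P : Tile, Integrable (fun x => {x | P.inJ (N x)}.indicator
      (fun x => g x * conj (c P * phi P x)) x) := by
    intro P
    have hm0 : Measurable (fun x => g x * conj (c P * phi P x)) := by
      have := (hcont P).measurable
      have := hd.mg
      fun_prop
    refine Integrable.indicator ?_ (hJ P)
    refine Integrable.of_bound hm0.aestronglyMeasurable (1 * (‖c P‖ * Bd P)) (ae_of_all _ fun x => ?_)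
    rw [norm_mul, RCLike.norm_conj, norm_mul]
    have := (hd.gu x).trans (hd.u1 x)
    have := hBd P x
    gcongr
  -- the sum as an integral
  have hsum : ((∑ P ∈ TT, a P * bco g N phi P : ℝ) : ℂ) =
      ∫ x, g x * conj (∑ P ∈ TT.filter (fun P => P.inJ (N x)), c P * phi P x) := by
    push_cast
    have e1 : ∀ P ∈ TT, (a P : ℂ) * (bco g N phi P : ℂ) =
        ∫ x, {x | P.inJ (N x)}.indicator (fun x => g x * conj (c P * phi P x)) x := by
      intro P _
      have := hcz P
      unfold bco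
      push_cast at this
      rw [this, ← integral_const_mul, integral_indicator (hJ P)]
      congr 1; ext x
      rw [map_mul]; ring
    rw [Finset.sum_congr rfl e1, ← integral_finsetSum _ fun P _ => hgint P]
    congr 1; ext x
    rw [map_sum, Finset.mul_sum, Finset.sum_filter]
    refine Finset.sum_congr rfl fun P _ => ?_
    by_cases h : P.inJ (N x)
    · rw [if_pos h, Set.indicator_of_mem (by exact h)]
    · rw [if_neg h, Set.indicator_of_notMem (by exact h)]
  -- measurability
  have hrr := rr_meas TT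
  have hQ := QT_meas TT N hd.mN
  have hset1 : ∀ P : Tile, MeasurableSet {x | P.inJ (N x) ∧ rr TT x ≤ P.s + 1} := fun P =>
    (hJ P).inter (hrr (MeasurableSet.of_discrete (s := {k : ℕ | k ≤ P.s + 1})))
  have hset3 : ∀ P : Tile, MeasurableSet {x | P.s + 2 ≤ rr TT x ∧ P.inJ (N x) ∧ P.inJ t.2.2} :=
    fun P => (hrr (MeasurableSet.of_discrete (s := {k : ℕ | P.s + 2 ≤ k}))).inter
      ((hJ P).inter (MeasurableSet.const _))
  have hset2 : ∀ P : Tile, MeasurableSet {x | P.inJ (N x) ∧ ¬ P.inJ t.2.2} :=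
    fun P => (hJ P).inter (MeasurableSet.const _)
  set F1 : T → ℝ := fun x => ∑ P ∈ TT,
    {x | P.inJ (N x) ∧ rr TT x ≤ P.s + 1}.indicator (fun x => a P * ‖phi P x‖) x with hF1
  set G2 : T → ℝ := fun x => ∑ P ∈ TT.filter (fun P => P.inJ (N x) ∧ ¬ P.inJ t.2.2),
    a P * ‖phi P x‖ with hG2
  set G3 : T → ℝ := fun x => ‖∑ P ∈ TT.filter
    (fun P => P.s + 2 ≤ rr TT x ∧ P.inJ (N x) ∧ P.inJ t.2.2), c P * phi P x‖ with hG3
  have hpm : ∀ P, Measurable (phi P) := fun P => (hcont P).measurable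
  have hG2m : Measurable G2 := by
    rw [hG2]
    simp only [Finset.sum_filter]
    refine Finset.measurable_sum _ fun P _ => Measurable.ite (hset2 P) ?_ measurable_const
    exact (hpm P).norm.const_mul _
  have hG3m : Measurable G3 := by
    rw [hG3]
    simp only [Finset.sum_filter]
    refine (Finset.measurable_sum _ fun P _ => Measurable.ite (hset3 P) ?_ measurable_const).norm
    exact (hpm P).const_mul _
  have hF1m : ∀ P, Measurable
      ({x | P.inJ (N x) ∧ rr TT x ≤ P.s + 1}.indicator (fun x => a P * ‖phi P x‖)) := fun P =>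
    ((hpm P).norm.const_mul _).indicator (hset1 P)
  set Bt : ℝ := ∑ P ∈ TT, a P * Bd P with hBt
  have hG2b : ∀ x, |G2 x| ≤ Bt := fun x => by
    have h0 : 0 ≤ G2 x := Finset.sum_nonneg fun P _ => mul_nonneg (ha P) (norm_nonneg _)
    rw [abs_of_nonneg h0]
    refine (Finset.sum_le_sum_of_subset_of_nonneg (Finset.filter_subset _ _)
      fun P _ _ => mul_nonneg (ha P) (norm_nonneg _)).trans ?_
    exact Finset.sum_le_sum fun P _ => mul_le_mul_of_nonneg_left (hBd P x) (ha P)
  have hG3b : ∀ x, |G3 x| ≤ Bt := fun x => by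
    rw [hG3]
    simp only [abs_norm]
    refine (norm_sum_le _ _).trans ((Finset.sum_le_sum_of_subset_of_nonneg (Finset.filter_subset _ _)
      fun P _ _ => norm_nonneg _).trans ?_)
    refine Finset.sum_le_sum fun P _ => ?_
    rw [norm_mul]
    exact mul_le_mul (hc P) (hBd P x) (norm_nonneg _) (ha P)
  have hu1 : ∀ x, |u x| ≤ 1 := fun x => by rw [abs_of_nonneg (hu0 x)]; exact hd.u1 x
  have hBt0 : 0 ≤ Bt := Finset.sum_nonneg fun P _ => mul_nonneg (ha P) (hBd0 P)
  have hi2 : Integrable (fun x => u x * G2 x) :=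
    TAsm_int (hd.mu.mul hG2m) (1 * Bt) fun x => by
      rw [abs_mul]; exact mul_le_mul (hu1 x) (hG2b x) (abs_nonneg _) zero_le_one
  have hi3 : Integrable (fun x => u x * G3 x) :=
    TAsm_int (hd.mu.mul hG3m) (1 * Bt) fun x => by
      rw [abs_mul]; exact mul_le_mul (hu1 x) (hG3b x) (abs_nonneg _) zero_le_one
  have hip : ∀ P : Tile, Integrable (fun x => u x * ‖phi P x‖) := fun P =>
    TAsm_int (hd.mu.mul (hpm P).norm) (1 * Bd P) fun x => by
      rw [abs_mul, abs_norm]; exact mul_le_mul (hu1 x) (hBd P x) (norm_nonneg _) zero_le_one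
  have hi1P : ∀ P : Tile, Integrable (fun x => u x *
      {x | P.inJ (N x) ∧ rr TT x ≤ P.s + 1}.indicator (fun x => a P * ‖phi P x‖) x) := fun P => by
    have := ((hip P).const_mul (a P)).indicator (hset1 P)
    refine this.congr (ae_of_all _ fun x => ?_)
    beta_reduce
    by_cases hx : x ∈ {x | P.inJ (N x) ∧ rr TT x ≤ P.s + 1}
    · rw [Set.indicator_of_mem hx, Set.indicator_of_mem hx]; ring
    · rw [Set.indicator_of_notMem hx, Set.indicator_of_notMem hx]; ring
  have hi1 : Integrable (fun x => u x * F1 x) := by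
    have := integrable_finsetSum TT fun P _ => hi1P P
    refine this.congr (ae_of_all _ fun x => ?_)
    simp only [hF1, Finset.mul_sum]
  have hi2' : Integrable (fun x => u x * (QT TT N).indicator G2 x) := by
    refine (hi2.indicator hQ).congr (ae_of_all _ fun x => ?_)
    beta_reduce
    by_cases hx : x ∈ QT TT N
    · rw [Set.indicator_of_mem hx, Set.indicator_of_mem hx]
    · rw [Set.indicator_of_notMem hx, Set.indicator_of_notMem hx]; ring
  have hi3' : Integrable (fun x => u x * (QT TT N).indicator G3 x) := by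
    refine (hi3.indicator hQ).congr (ae_of_all _ fun x => ?_)
    beta_reduce
    by_cases hx : x ∈ QT TT N
    · rw [Set.indicator_of_mem hx, Set.indicator_of_mem hx]
    · rw [Set.indicator_of_notMem hx, Set.indicator_of_notMem hx]; ring
  have hint1 : ∫ x, u x * F1 x = ∑ P ∈ TT, a P *
      ∫ x in {x | P.inJ (N x) ∧ rr TT x ≤ P.s + 1}, u x * ‖phi P x‖ := by
    have e1 : ∀ x, u x * F1 x = ∑ P ∈ TT, u x *
      {x | P.inJ (N x) ∧ rr TT x ≤ P.s + 1}.indicator (fun x => a P * ‖phi P x‖) x := fun x => by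
      simp only [hF1, Finset.mul_sum]
    simp_rw [e1]
    rw [integral_finsetSum _ fun P _ => hi1P P]
    refine Finset.sum_congr rfl fun P _ => ?_
    rw [← integral_const_mul, ← integral_indicator (hset1 P)]
    congr 1; ext x
    by_cases hx : x ∈ {x | P.inJ (N x) ∧ rr TT x ≤ P.s + 1}
    · rw [Set.indicator_of_mem hx, Set.indicator_of_mem hx]; ring
    · rw [Set.indicator_of_notMem hx, Set.indicator_of_notMem hx]; ring
  have hint2 : ∫ x, u x * (QT TT N).indicator G2 x = ∫ x in QT TT N, u x * G2 x := by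
    rw [← integral_indicator hQ]
    congr 1; ext x
    by_cases hx : x ∈ QT TT N
    · rw [Set.indicator_of_mem hx, Set.indicator_of_mem hx]
    · rw [Set.indicator_of_notMem hx, Set.indicator_of_notMem hx]; ring
  have hint3 : ∫ x, u x * (QT TT N).indicator G3 x = ∫ x in QT TT N, u x * G3 x := by
    rw [← integral_indicator hQ]
    congr 1; ext x
    by_cases hx : x ∈ QT TT N
    · rw [Set.indicator_of_mem hx, Set.indicator_of_mem hx]
    · rw [Set.indicator_of_notMem hx, Set.indicator_of_notMem hx]; ring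
  have hi12 : Integrable (fun x => u x * F1 x + u x * (QT TT N).indicator G2 x) := hi1.add hi2'
  have hmain : ∑ P ∈ TT, a P * bco g N phi P ≤ (∫ x, u x * F1 x) +
      (∫ x, u x * (QT TT N).indicator G2 x) + ∫ x, u x * (QT TT N).indicator G3 x := by
    have hpos : 0 ≤ ∑ P ∈ TT, a P * bco g N phi P :=
      Finset.sum_nonneg fun P _ => mul_nonneg (ha P) (norm_nonneg _)
    have e1 : ∑ P ∈ TT, a P * bco g N phi P = ‖((∑ P ∈ TT, a P * bco g N phi P : ℝ) : ℂ)‖ := by
      rw [Complex.norm_real, Real.norm_eq_abs, abs_of_nonneg hpos]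
    rw [e1, hsum, ← integral_add hi1 hi2', ← integral_add hi12 hi3']
    refine (norm_integral_le_integral_norm _).trans (integral_mono_of_nonneg
      (ae_of_all _ fun x => norm_nonneg _) (hi12.add hi3') (ae_of_all _ fun x => ?_))
    simp only [norm_mul, RCLike.norm_conj]
    have h3 := TAsm_split TT N a ha c hc phi t.2.2 x
    calc ‖g x‖ * ‖∑ P ∈ TT.filter (fun P => P.inJ (N x)), c P * phi P x‖
        ≤ u x * (F1 x + (QT TT N).indicator G2 x + (QT TT N).indicator G3 x) :=
          mul_le_mul (hd.gu x) h3 (norm_nonneg _) (hu0 x)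
      _ = _ := by ring
  rw [hint1, hint2, hint3] at hmain
  have b1 := hI C1 h1.le phi hphi u N g hd a ha TT t r hT mu eps hmu heps hm hen
  have b2 := hB C1 h1.le phi hphi u N g hd a ha TT t r hT mu eps hmu heps hm hen
  have b3 := hA C1 h1.le phi hphi u N g hd a ha c hc TT t r hT mu eps hmu heps hm hen
  calc ∑ P ∈ TT, a P * bco g N phi P ≤ _ := hmain
    _ ≤ CI * C1 * eps * mu / 2 ^ t.1 + CB * C1 * eps * mu / 2 ^ t.1 +
        CA * C1 * eps * mu / 2 ^ t.1 := add_le_add (add_le_add b1 b2) b3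
    _ = (CI * C1 + CB * C1 + CA * C1) * eps * mu / 2 ^ t.1 := by ring

end CH
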