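import Mathlib
import Pool.Agent.CH.ZDefs

/-!
CH-ZCdf. Elementary rules for `cdf p v = sum_{w <= v} coeff p w`.
`cdf_Up_mul`: `coeff (Up l * p) w = (1/l) sum_{i<l, i<=w} coeff p (w-i)`, exchange the sums.
`cdf_eq_eval`: if `natDegree p <= v` then `cdf p v = eval 1 p`.
-/

open Polynomial

namespace CH

theorem cdf_neg (p : ℝ[X]) (v : ℤ) (hv : v < 0) : cdf p v = 0 := by
  unfold cdf
  have : (v + 1).toNat = 0 := by omega
  rw [this]; simp

theorem cdf_sub_one (p : ℝ[X]) (v : ℤ) (hv : 0 ≤ v) :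
    cdf p v - cdf p (v - 1) = p.coeff v.toNat := by
  unfold cdf
  have h1 : (v + 1).toNat = v.toNat + 1 := by omega
  have h2 : (v - 1 + 1).toNat = v.toNat := by omega
  rw [h1, h2, Finset.sum_range_succ]; ring

theorem cdf_eq_zero (p : ℝ[X]) (v : ℤ) (h : ∀ w : ℕ, (w : ℤ) ≤ v → p.coeff w = 0) :
    cdf p v = 0 := by
  unfold cdf
  refine Finset.sum_eq_zero fun w hw => h w ?_
  rw [Finset.mem_range] at hw; omega

theorem cdf_eq_eval (p : ℝ[X]) (v : ℤ) (h : (p.natDegree : ℤ) ≤ v) :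
    cdf p v = p.eval 1 := by
  unfold cdf
  rw [Polynomial.eval_eq_sum_range' (n := (v + 1).toNat) (by omega)]
  simp

theorem cdf_mono (p : ℝ[X]) (hp : ∀ w, 0 ≤ p.coeff w) {v v' : ℤ} (h : v ≤ v') :
    cdf p v ≤ cdf p v' := by
  unfold cdf
  refine Finset.sum_le_sum_of_subset_of_nonneg ?_ fun i _ _ => hp i
  intro i hi
  rw [Finset.mem_range] at hi ⊢
  omega

theorem cdf_nonneg (p : ℝ[X]) (hp : ∀ w, 0 ≤ p.coeff w) (v : ℤ) : 0 ≤ cdf p v :=
  Finset.sum_nonneg fun i _ => hp i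

theorem cdf_le_eval (p : ℝ[X]) (hp : ∀ w, 0 ≤ p.coeff w) (v : ℤ) : cdf p v ≤ p.eval 1 := by
  have h1 : cdf p v ≤ cdf p (max v p.natDegree) := cdf_mono p hp (le_max_left _ _)
  rwa [cdf_eq_eval p _ (le_max_right _ _)] at h1

theorem cdf_add (p q : ℝ[X]) (v : ℤ) : cdf (p + q) v = cdf p v + cdf q v := by
  unfold cdf
  simp [Finset.sum_add_distrib]

theorem cdf_C_mul (a : ℝ) (p : ℝ[X]) (v : ℤ) : cdf (C a * p) v = a * cdf p v := by
  unfold cdf
  simp [Finset.mul_sum]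

theorem cdf_X_pow_mul (k : ℕ) (p : ℝ[X]) (v : ℤ) : cdf (X ^ k * p) v = cdf p (v - k) := by
  unfold cdf
  rcases le_or_gt ((v + 1).toNat) k with h | h
  · have h2 : (v - k + 1).toNat = 0 := by omega
    rw [h2, Finset.sum_range_zero]
    refine Finset.sum_eq_zero fun w hw => ?_
    rw [Finset.mem_range] at hw
    rw [Polynomial.coeff_X_pow_mul', if_neg (by omega)]
  · have h2 : (v + 1).toNat = k + (v - k + 1).toNat := by omega
    rw [h2, Finset.sum_range_add]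
    have h3 : ∑ w ∈ Finset.range k, (X ^ k * p).coeff w = 0 := by
      refine Finset.sum_eq_zero fun w hw => ?_
      rw [Finset.mem_range] at hw
      rw [Polynomial.coeff_X_pow_mul', if_neg (by omega)]
    rw [h3, zero_add]
    refine Finset.sum_congr rfl fun w _ => ?_
    rw [Polynomial.coeff_X_pow_mul', if_pos (by omega)]
    congr 1; omega

theorem ZCdf_sum {ι : Type*} (s : Finset ι) (f : ι → ℝ[X]) (v : ℤ) :
    cdf (∑ i ∈ s, f i) v = ∑ i ∈ s, cdf (f i) v := by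
  classical
  induction s using Finset.induction_on with
  | empty => simp [cdf]
  | insert a s ha ih => rw [Finset.sum_insert ha, Finset.sum_insert ha, cdf_add, ih]

theorem cdf_Up_mul (l : ℕ) (p : ℝ[X]) (v : ℤ) :
    cdf (Up l * p) v = (1 / (l : ℝ)) * ∑ i ∈ Finset.range l, cdf p (v - i) := by
  unfold Up
  rw [mul_assoc, cdf_C_mul, Finset.sum_mul, ZCdf_sum]
  simp_rw [cdf_X_pow_mul]

theorem ZCdf_coeff_Up (l w : ℕ) : (Up l).coeff w = if w < l then 1 / (l : ℝ) else 0 := by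
  unfold Up
  rw [Polynomial.coeff_C_mul, Polynomial.finsetSum_coeff]
  simp_rw [Polynomial.coeff_X_pow]
  simp only [Finset.sum_ite_eq, Finset.mem_range]
  split_ifs <;> simp

theorem coeff_Up_nonneg (l w : ℕ) : 0 ≤ (Up l).coeff w := by
  rw [ZCdf_coeff_Up]
  split_ifs
  · positivity
  · exact le_rfl

theorem eval_Up (l : ℕ) (hl : 1 ≤ l) : (Up l).eval 1 = 1 := by
  unfold Up
  have : (l : ℝ) ≠ 0 := by positivity
  simp [Polynomial.eval_finsetSum, this]

theorem natDegree_Up_le (l : ℕ) : (Up l).natDegree ≤ l - 1 := by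
  rw [Polynomial.natDegree_le_iff_coeff_eq_zero]
  intro N hN
  rw [ZCdf_coeff_Up, if_neg (by omega)]

theorem Up_double (l : ℕ) : Up (2 * l) = Up l * (C (1 / 2) * (1 + X ^ l)) := by
  unfold Up
  have h1 : ∑ i ∈ Finset.range (2 * l), (X : ℝ[X]) ^ i
      = (∑ i ∈ Finset.range l, X ^ i) * (1 + X ^ l) := by
    rw [two_mul, Finset.sum_range_add, mul_add, mul_one, Finset.sum_mul]
    congr 1
    refine Finset.sum_congr rfl fun i _ => ?_
    rw [← pow_add, add_comm]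
  rw [h1]
  have h2 : (1 / ((2 * l : ℕ) : ℝ)) = 1 / (l : ℝ) * (1 / 2) := by
    push_cast
    by_cases hl : (l : ℝ) = 0
    · simp [hl]
    · field_simp
  rw [h2, C_mul]
  ring

theorem coeff_mul_nonneg {p q : ℝ[X]} (hp : ∀ w, 0 ≤ p.coeff w) (hq : ∀ w, 0 ≤ q.coeff w)
    (w : ℕ) : 0 ≤ (p * q).coeff w := by
  rw [Polynomial.coeff_mul]
  exact Finset.sum_nonneg fun i _ => mul_nonneg (hp _) (hq _)

theorem coeff_pow_nonneg {p : ℝ[X]} (hp : ∀ w, 0 ≤ p.coeff w) (k w : ℕ) :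
    0 ≤ (p ^ k).coeff w := by
  induction k generalizing w with
  | zero =>
    rw [pow_zero, Polynomial.coeff_one]
    split_ifs <;> norm_num
  | succ k ih =>
    rw [pow_succ]
    exact coeff_mul_nonneg ih hp w

end CH
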