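import Mathlib
import Pool.Agent.CH.ZCdf

/-!
CH-ZBt. Properties of `bt`, `Mt` (paper A6). For `t >= 6` the polynomial `rhoP t` has nonnegative
coefficients, value 1 at 1, `coeff w = 0` for `w < 2^(t-2)` and for `w > 2^(t-2) + 8 (2^(t-6) - 1)`.
For `t >= 7`:
* `cdf (rhoP (t-1)) v = 0` for `v < 2^(t-3)`, `= 1` for `v >= 2^(t-3) + 8*2^(t-7) = 3*2^(t-4)`.
* `Q := rhoP t * ((1+X^L)/2)`, `L = 2^(t-4)`: `cdf Q v = 0` for `v < 2^(t-2)`, `= 1` for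
  `v >= 2^(t-2) + 8*2^(t-6) + 2^(t-4) - 8 ...`, in particular for `v >= 7*2^(t-4)`.
So `bt t v` is `0` below `2^(t-3)`, `16*cdf(rhoP (t-1)) v` in `[0,16]` for `v < 2^(t-2)`,
`16*(1 - cdf Q v)` in `[0,16]` for `v >= 3*2^(t-4)` (and `3*2^(t-4) <= 2^(t-2) = 4*2^(t-4)`), `0` from `7*2^(t-4)` on.
* telescoping: `cdf (Up L * p) v = (1/L) sum_{i<L} cdf p (v-i)` (`cdf_Up_mul`);
  `Mt (t-1) = cdf (Up (2*Lt (t-1)) * rhoP (t-1))`, `2*Lt (t-1) = Lt t`; `Up (2L) = Up L * (1+X^L)/2` (`Up_double`).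
  `16/(L) / ... `: `2^(-t) * 16 = 1/L`.
* `Mt 6 v = 1` for `v >= 32`: `rhoP 6 = X^16 * (Up 1)^8 = X^16`, `Up 8` has degree 7.
-/

open Polynomial

namespace CH

theorem ZBt_coeff_X_pow (k w : ℕ) : 0 ≤ ((X : ℝ[X]) ^ k).coeff w := by
  rw [coeff_X_pow]
  split_ifs <;> norm_num

theorem ZBt_rhoP_coeff (t w : ℕ) : 0 ≤ (rhoP t).coeff w := by
  unfold rhoP
  exact coeff_mul_nonneg (ZBt_coeff_X_pow _) (coeff_pow_nonneg (coeff_Up_nonneg _) 8) w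

theorem ZBt_rhoP_eval (t : ℕ) : (rhoP t).eval 1 = 1 := by
  unfold rhoP
  rw [eval_mul, eval_pow, eval_X, eval_pow, eval_Up _ Nat.one_le_two_pow]
  norm_num

theorem ZBt_rhoP_deg (t : ℕ) : (rhoP t).natDegree ≤ 2 ^ (t - 2) + 8 * (2 ^ (t - 6) - 1) := by
  unfold rhoP
  refine natDegree_mul_le.trans ?_
  refine Nat.add_le_add (natDegree_X_pow_le _) (natDegree_pow_le.trans ?_)
  exact Nat.mul_le_mul_left _ (natDegree_Up_le _)

theorem ZBt_rhoP_zero (t : ℕ) (v : ℤ) (hv : v < 2 ^ (t - 2)) : cdf (rhoP t) v = 0 := by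
  unfold rhoP
  rw [cdf_X_pow_mul]
  apply cdf_neg
  push_cast
  linarith

/-- the second polynomial -/
noncomputable def ZBt_Q (t : ℕ) : ℝ[X] := rhoP t * (C (1 / 2) * (1 + X ^ Lt t))

theorem ZBt_Q_coeff (t w : ℕ) : 0 ≤ (ZBt_Q t).coeff w := by
  unfold ZBt_Q
  refine coeff_mul_nonneg (ZBt_rhoP_coeff t) (fun w => ?_) w
  rw [coeff_C_mul, coeff_add, coeff_one]
  have := ZBt_coeff_X_pow (Lt t) w
  have h2 : (0 : ℝ) ≤ if w = 0 then 1 else 0 := by split_ifs <;> norm_num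
  positivity

theorem ZBt_Q_eval (t : ℕ) : (ZBt_Q t).eval 1 = 1 := by
  unfold ZBt_Q
  rw [eval_mul, ZBt_rhoP_eval, eval_mul, eval_C, eval_add, eval_one, eval_pow, eval_X]
  norm_num

theorem ZBt_Q_deg (t : ℕ) :
    (ZBt_Q t).natDegree ≤ 2 ^ (t - 2) + 8 * (2 ^ (t - 6) - 1) + 2 ^ (t - 4) := by
  unfold ZBt_Q
  refine natDegree_mul_le.trans (Nat.add_le_add (ZBt_rhoP_deg t) ?_)
  refine natDegree_mul_le.trans ?_
  rw [natDegree_C, zero_add]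
  refine (natDegree_add_le _ _).trans ?_
  rw [natDegree_one]
  exact max_le (Nat.zero_le _) (natDegree_X_pow_le _)

theorem ZBt_Q_zero (t : ℕ) (v : ℤ) (hv : v < 2 ^ (t - 2)) : cdf (ZBt_Q t) v = 0 := by
  unfold ZBt_Q rhoP
  rw [mul_assoc, cdf_X_pow_mul]
  apply cdf_neg
  push_cast
  linarith

theorem ZBt_bt (t : ℕ) (v : ℤ) : bt t v = 16 * (cdf (rhoP (t - 1)) v - cdf (ZBt_Q t) v) := rfl

theorem ZBt_rho_one (t : ℕ) (ht : 7 ≤ t) (v : ℤ) (hv : 2 ^ (t - 2) ≤ v) :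
    cdf (rhoP (t - 1)) v = 1 := by
  rw [cdf_eq_eval, ZBt_rhoP_eval]
  refine le_trans ?_ hv
  have h := ZBt_rhoP_deg (t - 1)
  obtain ⟨k, rfl⟩ : ∃ k, t = k + 7 := ⟨t - 7, by omega⟩
  have e1 : k + 7 - 1 - 2 = k + 4 := by omega
  have e2 : k + 7 - 1 - 6 = k := by omega
  have e3 : k + 7 - 2 = k + 5 := by omega
  rw [e1, e2] at h
  rw [e3]
  have h2 : (rhoP (k + 7 - 1)).natDegree ≤ 2 ^ (k + 5) := by
    refine h.trans ?_
    have : 2 ^ (k + 4) = 16 * 2 ^ k := by ring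
    have : 2 ^ (k + 5) = 32 * 2 ^ k := by ring
    omega
  exact_mod_cast h2

theorem bt_mem (t : ℕ) (ht : 7 ≤ t) (v : ℤ) : 0 ≤ bt t v ∧ bt t v ≤ 16 := by
  rw [ZBt_bt]
  by_cases hv : v < 2 ^ (t - 2)
  · rw [ZBt_Q_zero t v hv]
    have h1 := cdf_nonneg _ (ZBt_rhoP_coeff (t - 1)) v
    have h2 := cdf_le_eval _ (ZBt_rhoP_coeff (t - 1)) v
    rw [ZBt_rhoP_eval] at h2
    constructor <;> linarith
  · rw [ZBt_rho_one t ht v (by omega)]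
    have h1 := cdf_nonneg _ (ZBt_Q_coeff t) v
    have h2 := cdf_le_eval _ (ZBt_Q_coeff t) v
    rw [ZBt_Q_eval] at h2
    constructor <;> linarith

theorem bt_supp (t : ℕ) (ht : 7 ≤ t) (v : ℤ) (h : bt t v ≠ 0) :
    (2 : ℤ) ^ (t - 3) ≤ v ∧ v ≤ 7 * 2 ^ (t - 4) := by
  obtain ⟨k, rfl⟩ : ∃ k, t = k + 7 := ⟨t - 7, by omega⟩
  have e1 : k + 7 - 2 = k + 5 := by omega
  have e2 : k + 7 - 3 = k + 4 := by omega
  have e3 : k + 7 - 4 = k + 3 := by omega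
  have e4 : k + 7 - 6 = k + 1 := by omega
  constructor
  · by_contra hv
    push Not at hv
    apply h
    rw [ZBt_bt, ZBt_Q_zero, ZBt_rhoP_zero]
    · ring
    · rw [show k + 7 - 1 - 2 = k + 7 - 3 by omega]; exact hv
    · refine hv.trans_le ?_
      rw [e1, e2]
      exact pow_le_pow_right₀ (by norm_num) (by omega)
  · by_contra hv
    push Not at hv
    apply h
    have hk : (0 : ℤ) < 2 ^ k := by positivity
    rw [e3] at hv
    have p3 : (2 : ℤ) ^ (k + 3) = 8 * 2 ^ k := by ring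
    rw [ZBt_bt, ZBt_rho_one (k + 7) ht, cdf_eq_eval, ZBt_Q_eval]
    · ring
    · have h2 := ZBt_Q_deg (k + 7)
      rw [e1, e3, e4] at h2
      have h3 : (ZBt_Q (k + 7)).natDegree ≤ 7 * 2 ^ (k + 3) := by
        refine h2.trans ?_
        have : 2 ^ (k + 5) = 32 * 2 ^ k := by ring
        have : 2 ^ (k + 1) = 2 * 2 ^ k := by ring
        have : 2 ^ (k + 3) = 8 * 2 ^ k := by ring
        omega
      refine le_trans ?_ hv.le
      exact_mod_cast h3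
    · rw [e1]
      have p5 : (2 : ℤ) ^ (k + 5) = 32 * 2 ^ k := by ring
      rw [p5]
      rw [p3] at hv
      linarith

theorem bt_tele (t : ℕ) (ht : 7 ≤ t) (v : ℤ) :
    (∑ i ∈ Finset.range (Lt t), bt t (v - i)) / 2 ^ t = Mt (t - 1) v - Mt t v := by
  have h1 : Mt (t - 1) v = (1 / (Lt t : ℝ)) * ∑ i ∈ Finset.range (Lt t), cdf (rhoP (t - 1)) (v - i) := by
    unfold Mt
    have e : 2 * Lt (t - 1) = Lt t := by
      unfold Lt
      rw [← pow_succ']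
      congr 1
      omega
    rw [e, cdf_Up_mul]
  have h2 : Mt t v = (1 / (Lt t : ℝ)) * ∑ i ∈ Finset.range (Lt t), cdf (ZBt_Q t) (v - i) := by
    unfold Mt
    have e : Up (2 * Lt t) * rhoP t = Up (Lt t) * ZBt_Q t := by
      rw [Up_double]
      unfold ZBt_Q
      ring
    rw [e, cdf_Up_mul]
  rw [h1, h2, ← mul_sub, ← Finset.sum_sub_distrib]
  have h3 : ∑ i ∈ Finset.range (Lt t), bt t (v - i)
      = 16 * ∑ i ∈ Finset.range (Lt t), (cdf (rhoP (t - 1)) (v - i) - cdf (ZBt_Q t) (v - i)) := by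
    rw [Finset.mul_sum]
    exact Finset.sum_congr rfl fun i _ => ZBt_bt t (v - i)
  rw [h3]
  have h4 : (2 : ℝ) ^ t = 16 * (Lt t : ℝ) := by
    unfold Lt
    push_cast
    rw [show (16 : ℝ) = 2 ^ 4 by norm_num, ← pow_add]
    congr 1
    omega
  have h5 : (0 : ℝ) < Lt t := by
    unfold Lt
    positivity
  rw [h4]
  field_simp

theorem ZBt_M_coeff (t w : ℕ) : 0 ≤ (Up (2 * Lt t) * rhoP t).coeff w :=
  coeff_mul_nonneg (coeff_Up_nonneg _) (ZBt_rhoP_coeff t) w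

theorem ZBt_M_eval (t : ℕ) : (Up (2 * Lt t) * rhoP t).eval 1 = 1 := by
  rw [eval_mul, ZBt_rhoP_eval, eval_Up, mul_one]
  have : 1 ≤ Lt t := Nat.one_le_two_pow
  omega

theorem Mt6_one (v : ℤ) (hv : 32 ≤ v) : Mt 6 v = 1 := by
  unfold Mt
  rw [cdf_eq_eval, ZBt_M_eval]
  refine le_trans ?_ hv
  have h1 := ZBt_rhoP_deg 6
  have h2 := natDegree_Up_le (2 * Lt 6)
  have h3 : (Up (2 * Lt 6) * rhoP 6).natDegree ≤ (Up (2 * Lt 6)).natDegree + (rhoP 6).natDegree :=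
    natDegree_mul_le
  have h4 : Lt 6 = 4 := rfl
  rw [h4] at h2 h3 ⊢
  norm_num at h1 h2 h3
  show ((Up (2 * 4) * rhoP 6).natDegree : ℤ) ≤ 32
  have h5 : (Up (2 * 4) * rhoP 6).natDegree ≤ 32 := by norm_num; omega
  exact_mod_cast h5

theorem Mt6_mem (v : ℤ) : 0 ≤ Mt 6 v ∧ Mt 6 v ≤ 1 := by
  refine ⟨cdf_nonneg _ (ZBt_M_coeff 6) v, ?_⟩
  have := cdf_le_eval _ (ZBt_M_coeff 6) v
  rwa [ZBt_M_eval] at this

theorem Mt_zero (t : ℕ) (ht : 6 ≤ t) (v : ℤ) (hv : v < 2 ^ (t - 2)) : Mt t v = 0 := by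
  unfold Mt rhoP
  rw [mul_left_comm, cdf_X_pow_mul]
  apply cdf_neg
  push_cast
  linarith

end CH
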