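import Mathlib
import Pool.Agent.CH.ZBt

/-!
CH-ZShift. Average over integer shifts. `xi = N + eta` runs over `2^S` consecutive integers, a union of
`2^(S-t)` complete residue systems mod `2^t`; write `xi = q 2^t + rem`, `0 <= rem < 2^t`,
`xi / 2^(t-4) = 16 q + rem / 2^(t-4)`, so the condition says `rem = 2^(t-1) + i`, `0 <= i < 2^(t-4) = Lt t`, and then
`q 2^t + 2^(t-1) - (j + eta) = (xi - i) - j - eta = N - j - i`.
So for a function `F : ZZ -> RR` of the residue only: `sum_{eta < 2^S} F((N+eta) mod 2^t) = 2^(S-t) sum_{rem < 2^t} F rem`.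
-/

namespace CH

theorem ZShift_step (g : ℤ → ℝ) (P : ℕ) (hg : ∀ x, g (x + P) = g x) (N : ℤ) :
    ∑ eta ∈ Finset.range P, g (N + 1 + eta) = ∑ eta ∈ Finset.range P, g (N + eta) := by
  have h1 : ∑ eta ∈ Finset.range (P + 1), g (N + eta)
      = ∑ eta ∈ Finset.range P, g (N + eta) + g (N + P) := by
    rw [Finset.sum_range_succ]
  have h2 : ∑ eta ∈ Finset.range (P + 1), g (N + eta)
      = ∑ eta ∈ Finset.range P, g (N + 1 + eta) + g N := by
    rw [Finset.sum_range_succ']
    simp only [Nat.cast_zero, add_zero]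
    congr 1
    apply Finset.sum_congr rfl
    intro x _
    congr 1
    push_cast
    ring
  rw [hg] at h1
  linarith

theorem ZShift_const (g : ℤ → ℝ) (P : ℕ) (hg : ∀ x, g (x + P) = g x) (N : ℤ) :
    ∑ eta ∈ Finset.range P, g (N + eta) = ∑ eta ∈ Finset.range P, g eta := by
  induction N using Int.induction_on with
  | zero => simp
  | succ i ih => rw [ZShift_step g P hg]; exact ih
  | pred i ih =>
    rw [← ih, ← ZShift_step g P hg]
    apply Finset.sum_congr rfl
    intro x _
    congr 1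
    ring

theorem ZShift_block (g : ℤ → ℝ) (P : ℕ) (hg : ∀ x, g (x + P) = g x) (N : ℤ) (k : ℕ) :
    ∑ eta ∈ Finset.range (k * P), g (N + eta) = k * ∑ eta ∈ Finset.range P, g eta := by
  induction k with
  | zero => simp
  | succ k ih =>
    rw [Nat.succ_mul, Finset.sum_range_add, ih]
    have h : ∑ x ∈ Finset.range P, g (N + ((k * P + x : ℕ) : ℤ))
        = ∑ x ∈ Finset.range P, g x := by
      rw [← ZShift_const g P hg (N + ((k * P : ℕ) : ℤ))]
      apply Finset.sum_congr rfl
      intro x _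
      congr 1
      push_cast
      ring
    rw [h]
    push_cast
    ring

theorem shift_avg (t S : ℕ) (ht : 7 ≤ t) (htS : t ≤ S) (j N : ℤ) :
    ∑ eta ∈ Finset.range (2 ^ S),
      (if (N + eta) / 2 ^ (t - 4) = 16 * ((N + eta) / 2 ^ t) + 8 then
        bt t ((N + eta) / 2 ^ t * 2 ^ t + 2 ^ (t - 1) - (j + eta)) else 0)
    = 2 ^ (S - t) * ∑ i ∈ Finset.range (Lt t), bt t (N - j - i) := by
  obtain ⟨u, rfl⟩ : ∃ u, t = u + 4 := ⟨t - 4, by omega⟩
  obtain ⟨m, rfl⟩ : ∃ m, S = m + (u + 4) := ⟨S - (u + 4), by omega⟩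
  have e1 : u + 4 - 4 = u := by omega
  have e2 : m + (u + 4) - (u + 4) = m := by omega
  have e3 : u + 4 - 1 = u + 3 := by omega
  simp only [Lt, e1, e2, e3]
  have hL : (0 : ℤ) < 2 ^ u := by positivity
  set L : ℤ := 2 ^ u with hLdef
  have hP : (2 : ℤ) ^ (u + 4) = 16 * L := by rw [pow_add]; ring
  have hH : (2 : ℤ) ^ (u + 3) = 8 * L := by rw [pow_add]; ring
  have hPn : ((2 ^ (u + 4) : ℕ) : ℤ) = 16 * L := by push_cast; exact hP
  rw [hP, hH]
  -- the summand as a function of the residue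
  set g : ℤ → ℝ := fun xi => if (xi % (16 * L)) / L = 8 then
      bt (u + 4) (N - j - (xi % (16 * L) - 8 * L)) else 0 with hgdef
  have hsum : ∀ eta ∈ Finset.range (2 ^ (m + (u + 4))),
      (if (N + (eta : ℤ)) / L = 16 * ((N + eta) / (16 * L)) + 8 then
        bt (u + 4) ((N + eta) / (16 * L) * (16 * L) + 8 * L - (j + eta)) else 0)
      = g (N + eta) := by
    intro eta _
    simp only [hgdef]
    set xi : ℤ := N + eta with hxi
    have hdm : 16 * L * (xi / (16 * L)) + xi % (16 * L) = xi := Int.mul_ediv_add_emod xi (16 * L)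
    have hdiv : xi / L = 16 * (xi / (16 * L)) + (xi % (16 * L)) / L := by
      have : xi = xi % (16 * L) + L * (16 * (xi / (16 * L))) := by linarith
      conv_lhs => rw [this]
      rw [Int.add_mul_ediv_left _ _ (ne_of_gt hL)]
      ring
    have hcond : (xi / L = 16 * (xi / (16 * L)) + 8) ↔ ((xi % (16 * L)) / L = 8) := by
      rw [hdiv]; constructor <;> intro h <;> linarith
    by_cases hc : (xi % (16 * L)) / L = 8
    · rw [if_pos hc, if_pos (hcond.2 hc)]
      congr 1
      have : (eta : ℤ) = xi - N := by rw [hxi]; ring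
      rw [this]
      linarith
    · rw [if_neg hc, if_neg (fun h => hc (hcond.1 h))]
  rw [Finset.sum_congr rfl hsum]
  have hper : ∀ x, g (x + ((2 ^ (u + 4) : ℕ) : ℤ)) = g x := by
    intro x
    simp only [hgdef]
    rw [hPn, Int.add_emod_right]
  have hpow : 2 ^ (m + (u + 4)) = 2 ^ m * 2 ^ (u + 4) := by rw [pow_add]
  rw [hpow, ZShift_block g (2 ^ (u + 4)) hper N (2 ^ m)]
  push_cast
  congr 1
  -- the sum over one period
  have hsplit : 2 ^ (u + 4) = 8 * 2 ^ u + (2 ^ u + 7 * 2 ^ u) := by rw [pow_add]; ring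
  rw [hsplit, Finset.sum_range_add, Finset.sum_range_add]
  have hLn : ((2 ^ u : ℕ) : ℤ) = L := by push_cast; rfl
  have h1 : ∑ x ∈ Finset.range (8 * 2 ^ u), g x = 0 := by
    apply Finset.sum_eq_zero
    intro x hx
    rw [Finset.mem_range] at hx
    have hx' : (x : ℤ) < 8 * L := by rw [← hLn]; exact_mod_cast hx
    have hx0 : (0 : ℤ) ≤ x := by positivity
    simp only [hgdef]
    rw [Int.emod_eq_of_lt hx0 (by linarith)]
    rw [if_neg]
    intro h
    have := Int.ediv_lt_of_lt_mul hL hx'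
    omega
  have h3 : ∑ x ∈ Finset.range (7 * 2 ^ u), g ((8 * 2 ^ u + (2 ^ u + x) : ℕ) : ℤ) = 0 := by
    apply Finset.sum_eq_zero
    intro x hx
    rw [Finset.mem_range] at hx
    have hx' : (x : ℤ) < 7 * L := by rw [← hLn]; exact_mod_cast hx
    have hx0 : (0 : ℤ) ≤ x := by positivity
    have hcast : ((8 * 2 ^ u + (2 ^ u + x) : ℕ) : ℤ) = 9 * L + x := by
      push_cast
      rw [← hLdef]
      ring
    simp only [hgdef]
    rw [hcast, Int.emod_eq_of_lt (by linarith) (by linarith)]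
    rw [if_neg]
    intro h
    have h9 : 9 ≤ (9 * L + (x : ℤ)) / L := by
      rw [Int.le_ediv_iff_mul_le hL]
      linarith
    omega
  have h2 : ∑ x ∈ Finset.range (2 ^ u), g ((8 * 2 ^ u + x : ℕ) : ℤ)
      = ∑ i ∈ Finset.range (2 ^ u), bt (u + 4) (N - j - i) := by
    apply Finset.sum_congr rfl
    intro x hx
    rw [Finset.mem_range] at hx
    have hx' : (x : ℤ) < L := by rw [← hLn]; exact_mod_cast hx
    have hx0 : (0 : ℤ) ≤ x := by positivity
    have hcast : ((8 * 2 ^ u + x : ℕ) : ℤ) = 8 * L + x := by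
      push_cast
      rw [← hLdef]
    simp only [hgdef]
    rw [hcast, Int.emod_eq_of_lt (by linarith) (by linarith)]
    have h8 : (8 * L + (x : ℤ)) / L = 8 := by
      have : 8 * L + (x : ℤ) = x + L * 8 := by ring
      rw [this, Int.add_mul_ediv_left _ _ (ne_of_gt hL), Int.ediv_eq_zero_of_lt hx0 hx']
      rfl
    rw [if_pos h8]
    congr 1
    ring
  rw [h1, h2, h3]
  ring

end CH
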