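import Mathlib
import Pool.Agent.CH.ZShift

/-!
CH-ZPoint. The pointwise identity of paper A6. Write `v = N - j`, `t = s + 7`.
* `one_split`: for `v <= 2B+1 < 2^(S-2)`: `1_{v >= 1} = (1 - Mt 6 v) 1_{1 <= v <= 31} + sum_{t=7}^S 2^(-t) sum_{i < Lt t} bt t (v-i)`:
  telescope `bt_tele` over `t` from 7 to S, so that the sum is `Mt 6 v - Mt S v`; `Mt S v = 0` by `Mt_zero`
  (`v < 2^(S-2)`); for `v >= 32` `Mt6_one`; for `v <= 0` `Mt6 v = 0` by `Mt_zero 6` (`v < 16`).
* `point`: multiply by `cf f j e_j` and sum over `j in [-B,B]` (`cf f j = 0` for other `j`); in the term `(t, i)` use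
  `shift_avg`: `2^(-t) sum_i bt t (N-j-i) = 2^(-S) sum_eta [cond] bt t (mid - (j+eta))`, where
  `mid = ((N+eta)/2^t) 2^t + 2^(t-1)`; exchange the sums; for fixed `eta, t` substitute `v = mid - eta - j`, i.e.
  `sum_j cf f j bt t (mid - (j+eta)) e_j x = sum_v bt t v cf f (mid - v - eta) e (mid - v - eta) x`
  (both sums are over all integers with finite support: `cf f j = 0` off `[-B,B]`, `bt_supp`), and
  `cf f (mid - v - eta) = cf (e_eta f) (mid - v)` (`cf_e_mul`), `e (mid-v-eta) x = e (-eta) x * e (mid-v) x`.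
-/

open MeasureTheory Complex
open scoped ComplexConjugate

namespace CH

theorem one_split (B S : ℕ) (hS : 7 ≤ S) (hB : 2 * (B : ℤ) + 1 < 2 ^ (S - 2)) (v : ℤ)
    (hv : v ≤ 2 * B + 1) :
    (if 1 ≤ v then (1 : ℝ) else 0) = (if 1 ≤ v ∧ v ≤ 31 then 1 - Mt 6 v else 0) +
      ∑ s ∈ Finset.range (S - 6), (∑ i ∈ Finset.range (Lt (s + 7)), bt (s + 7) (v - i)) / 2 ^ (s + 7) := by
  have h1 : ∑ s ∈ Finset.range (S - 6),
      (∑ i ∈ Finset.range (Lt (s + 7)), bt (s + 7) (v - i)) / 2 ^ (s + 7) = Mt 6 v := by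
    have h2 : ∀ s ∈ Finset.range (S - 6),
        (∑ i ∈ Finset.range (Lt (s + 7)), bt (s + 7) (v - i)) / 2 ^ (s + 7) =
        Mt (s + 6) v - Mt (s + 1 + 6) v := by
      intro s _
      rw [bt_tele (s + 7) (by omega) v]
      have e1 : s + 7 - 1 = s + 6 := by omega
      have e2 : s + 7 = s + 1 + 6 := by omega
      rw [e1, e2]
    rw [Finset.sum_congr rfl h2, Finset.sum_range_sub' (fun i => Mt (i + 6) v) (S - 6)]
    have e3 : S - 6 + 6 = S := by omega
    simp only [e3, zero_add]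
    rw [Mt_zero S (by omega) v (lt_of_le_of_lt hv hB), sub_zero]
  rw [h1]
  by_cases hv1 : 1 ≤ v
  · rw [if_pos hv1]
    by_cases hv2 : v ≤ 31
    · rw [if_pos ⟨hv1, hv2⟩]
      ring
    · rw [if_neg (fun h => hv2 h.2), Mt6_one v (by omega)]
      ring
  · rw [if_neg hv1, if_neg (fun h => hv1 h.1), Mt_zero 6 le_rfl v (by norm_num; omega)]
    ring

private theorem ZPoint_sub (A Bs : Finset ℤ) (c : ℤ) (G : ℤ → ℂ)
    (h1 : ∀ j ∈ A, c - j ∉ Bs → G j = 0) (h2 : ∀ v ∈ Bs, c - v ∉ A → G (c - v) = 0) :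
    ∑ j ∈ A, G j = ∑ v ∈ Bs, G (c - v) := by
  classical
  have e1 : ∑ j ∈ A.filter (fun j => c - j ∈ Bs), G j = ∑ j ∈ A, G j :=
    Finset.sum_filter_of_ne fun j hj hne => by
      by_contra h
      exact hne (h1 j hj h)
  have e2 : ∑ v ∈ Bs.filter (fun v => c - v ∈ A), G (c - v) = ∑ v ∈ Bs, G (c - v) :=
    Finset.sum_filter_of_ne fun v hv hne => by
      by_contra h
      exact hne (h2 v hv h)
  rw [← e1, ← e2]
  refine Finset.sum_nbij' (fun j => c - j) (fun v => c - v) ?_ ?_ ?_ ?_ ?_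
  · intro j hj
    rw [Finset.mem_filter] at hj ⊢
    rw [sub_sub_cancel]
    exact ⟨hj.2, hj.1⟩
  · intro v hv
    rw [Finset.mem_filter] at hv ⊢
    rw [sub_sub_cancel]
    exact ⟨hv.2, hv.1⟩
  · intro j _
    exact sub_sub_cancel c j
  · intro v _
    exact sub_sub_cancel c v
  · intro j _
    rw [sub_sub_cancel]

theorem point (B S : ℕ) (hS : 7 ≤ S) (hB : 2 * (B : ℤ) + 1 < 2 ^ (S - 2)) (f : T → ℂ)
    (hf : ∀ j : ℤ, j < -B ∨ (B : ℤ) < j → cf f j = 0) (N : ℤ) (hN1 : -(B : ℤ) ≤ N)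
    (hN2 : N ≤ B + 1) (x : T) :
    ∑ j ∈ (Finset.Icc (-(B : ℤ)) B).filter (fun j => j < N), cf f j * e j x =
      ∑ v ∈ Finset.Icc (1 : ℤ) 31, ((1 - Mt 6 v : ℝ) : ℂ) * cf f (N - v) * e (N - v) x +
      (1 / 2 ^ S) * ∑ eta ∈ Finset.range (2 ^ S), ∑ s ∈ Finset.range (S - 6),
        (if (N + eta) / 2 ^ (s + 3) = 16 * ((N + eta) / 2 ^ (s + 7)) + 8 then
          e (-(eta : ℤ)) x * ∑ v ∈ Finset.Icc ((2 : ℤ) ^ (s + 3)) (2 ^ (s + 6)),
            (bt (s + 7) v : ℂ) *
              cf (fun y => e eta y * f y) ((⟨s, 0, (N + eta) / 2 ^ (s + 7)⟩ : Tile).mid - v) *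
              e ((⟨s, 0, (N + eta) / 2 ^ (s + 7)⟩ : Tile).mid - v) x
        else 0) := by
  classical
  have hzero : ∀ j : ℤ, j ∉ Finset.Icc (-(B : ℤ)) B → cf f j = 0 := by
    intro j hj
    rw [Finset.mem_Icc] at hj
    exact hf j (by omega)
  have hL : ∑ j ∈ (Finset.Icc (-(B : ℤ)) B).filter (fun j => j < N), cf f j * e j x =
      ∑ j ∈ Finset.Icc (-(B : ℤ)) B,
        (((if 1 ≤ N - j then (1 : ℝ) else 0) : ℝ) : ℂ) * (cf f j * e j x) := by
    rw [Finset.sum_filter]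
    refine Finset.sum_congr rfl fun j _ => ?_
    by_cases h : j < N
    · rw [if_pos h, if_pos (by omega)]
      simp
    · rw [if_neg h, if_neg (by omega)]
      simp
  rw [hL]
  have hsplit : ∀ j ∈ Finset.Icc (-(B : ℤ)) B,
      (((if 1 ≤ N - j then (1 : ℝ) else 0) : ℝ) : ℂ) * (cf f j * e j x) =
      (((if 1 ≤ N - j ∧ N - j ≤ 31 then 1 - Mt 6 (N - j) else 0) : ℝ) : ℂ) * (cf f j * e j x) +
      ∑ s ∈ Finset.range (S - 6), (1 / 2 ^ S) * ∑ eta ∈ Finset.range (2 ^ S),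
        (if (N + eta) / 2 ^ (s + 3) = 16 * ((N + eta) / 2 ^ (s + 7)) + 8 then
          ((bt (s + 7) ((N + eta) / 2 ^ (s + 7) * 2 ^ (s + 7) + 2 ^ (s + 6) - (j + eta)) : ℝ) : ℂ) *
            (cf f j * e j x) else 0) := by
    intro j hj
    rw [Finset.mem_Icc] at hj
    rw [one_split B S hS hB (N - j) (by omega), Complex.ofReal_add, add_mul, Complex.ofReal_sum,
      Finset.sum_mul]
    congr 1
    refine Finset.sum_congr rfl fun s hs => ?_
    rw [Finset.mem_range] at hs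
    have h2 := shift_avg (s + 7) S (by omega) (by omega) j N
    have e1 : s + 7 - 4 = s + 3 := by omega
    have e2 : s + 7 - 1 = s + 6 := by omega
    rw [e1, e2] at h2
    have h3 : ∑ eta ∈ Finset.range (2 ^ S),
        (if (N + eta) / 2 ^ (s + 3) = 16 * ((N + eta) / 2 ^ (s + 7)) + 8 then
          ((bt (s + 7) ((N + eta) / 2 ^ (s + 7) * 2 ^ (s + 7) + 2 ^ (s + 6) - (j + eta)) : ℝ) : ℂ) *
            (cf f j * e j x) else 0) =
        ((∑ eta ∈ Finset.range (2 ^ S),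
        (if (N + eta) / 2 ^ (s + 3) = 16 * ((N + eta) / 2 ^ (s + 7)) + 8 then
          bt (s + 7) ((N + eta) / 2 ^ (s + 7) * 2 ^ (s + 7) + 2 ^ (s + 6) - (j + eta))
            else 0) : ℝ) : ℂ) * (cf f j * e j x) := by
      rw [Complex.ofReal_sum, Finset.sum_mul]
      refine Finset.sum_congr rfl fun eta _ => ?_
      split_ifs
      · rfl
      · simp
    have h4 : (2 : ℂ) ^ S = 2 ^ (S - (s + 7)) * 2 ^ (s + 7) := by
      rw [← pow_add]
      congr 1
      omega
    rw [h3, h2, h4]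
    push_cast
    field_simp
  rw [Finset.sum_congr rfl hsplit, Finset.sum_add_distrib]
  congr 1
  · rw [ZPoint_sub (Finset.Icc (-(B : ℤ)) B) (Finset.Icc (1 : ℤ) 31) N (fun j =>
      (((if 1 ≤ N - j ∧ N - j ≤ 31 then 1 - Mt 6 (N - j) else 0) : ℝ) : ℂ) * (cf f j * e j x))
      (by
        intro j _ hj
        rw [Finset.mem_Icc] at hj
        rw [if_neg hj]
        simp)
      (by
        intro v _ hv
        rw [hzero _ hv]
        simp)]
    refine Finset.sum_congr rfl fun v hv => ?_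
    rw [Finset.mem_Icc] at hv
    simp only [sub_sub_cancel]
    rw [if_pos hv]
    ring
  · have hcomm : ∀ g : ℤ → ℕ → ℕ → ℂ, ∑ j ∈ Finset.Icc (-(B : ℤ)) B,
        ∑ s ∈ Finset.range (S - 6), (1 / 2 ^ S) * ∑ eta ∈ Finset.range (2 ^ S), g j s eta =
        (1 / 2 ^ S) * ∑ eta ∈ Finset.range (2 ^ S), ∑ s ∈ Finset.range (S - 6),
          ∑ j ∈ Finset.Icc (-(B : ℤ)) B, g j s eta := by
      intro g
      have e1 : ∑ j ∈ Finset.Icc (-(B : ℤ)) B,
          ∑ s ∈ Finset.range (S - 6), (1 / 2 ^ S) * ∑ eta ∈ Finset.range (2 ^ S), g j s eta =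
          (1 / 2 ^ S) * ∑ j ∈ Finset.Icc (-(B : ℤ)) B, ∑ s ∈ Finset.range (S - 6),
            ∑ eta ∈ Finset.range (2 ^ S), g j s eta := by
        rw [Finset.mul_sum]
        refine Finset.sum_congr rfl fun j _ => ?_
        rw [Finset.mul_sum]
      rw [e1]
      congr 1
      calc ∑ j ∈ Finset.Icc (-(B : ℤ)) B, ∑ s ∈ Finset.range (S - 6),
            ∑ eta ∈ Finset.range (2 ^ S), g j s eta
          = ∑ j ∈ Finset.Icc (-(B : ℤ)) B, ∑ eta ∈ Finset.range (2 ^ S),
            ∑ s ∈ Finset.range (S - 6), g j s eta :=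
            Finset.sum_congr rfl fun j _ => Finset.sum_comm
        _ = ∑ eta ∈ Finset.range (2 ^ S), ∑ j ∈ Finset.Icc (-(B : ℤ)) B,
            ∑ s ∈ Finset.range (S - 6), g j s eta := Finset.sum_comm
        _ = _ := Finset.sum_congr rfl fun eta _ => Finset.sum_comm
    rw [hcomm]
    congr 1
    refine Finset.sum_congr rfl fun eta _ => Finset.sum_congr rfl fun s _ => ?_
    by_cases hc : (N + (eta : ℤ)) / 2 ^ (s + 3) = 16 * ((N + eta) / 2 ^ (s + 7)) + 8
    · simp only [if_pos hc]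
      obtain ⟨q, hq⟩ : ∃ q : ℤ, q = (N + (eta : ℤ)) / 2 ^ (s + 7) := ⟨_, rfl⟩
      rw [← hq]
      have hmid : (⟨s, 0, q⟩ : Tile).mid = q * 2 ^ (s + 7) + 2 ^ (s + 6) := rfl
      rw [hmid]
      obtain ⟨M, hM⟩ : ∃ M : ℤ, M = q * 2 ^ (s + 7) + 2 ^ (s + 6) := ⟨_, rfl⟩
      rw [← hM]
      have hG : ∀ j : ℤ, ((bt (s + 7) (M - (j + eta)) : ℝ) : ℂ) * (cf f j * e j x) =
          (fun j : ℤ => ((bt (s + 7) (M - eta - j) : ℝ) : ℂ) * (cf f j * e j x)) j := by
        intro j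
        have : M - (j + eta) = M - eta - j := by ring
        rw [this]
      rw [Finset.sum_congr rfl fun j _ => hG j]
      rw [ZPoint_sub (Finset.Icc (-(B : ℤ)) B) (Finset.Icc ((2 : ℤ) ^ (s + 3)) (2 ^ (s + 6)))
        (M - eta) (fun j : ℤ => ((bt (s + 7) (M - eta - j) : ℝ) : ℂ) * (cf f j * e j x))
        (by
          intro j _ hj
          have h0 : bt (s + 7) (M - eta - j) = 0 := by
            by_contra hne
            obtain ⟨b1, b2⟩ := bt_supp (s + 7) (by omega) _ hne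
            have e1 : s + 7 - 3 = s + 4 := by omega
            have e2 : s + 7 - 4 = s + 3 := by omega
            rw [e1] at b1
            rw [e2] at b2
            apply hj
            rw [Finset.mem_Icc]
            have p3 : (0 : ℤ) < 2 ^ (s + 3) := by positivity
            have p4 : (2 : ℤ) ^ (s + 4) = 2 * 2 ^ (s + 3) := by ring
            have p6 : (2 : ℤ) ^ (s + 6) = 8 * 2 ^ (s + 3) := by ring
            constructor
            · linarith
            · linarith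
          rw [h0]
          simp)
        (by
          intro v _ hv
          rw [hzero _ hv]
          simp)]
      rw [Finset.mul_sum]
      refine Finset.sum_congr rfl fun v _ => ?_
      simp only [sub_sub_cancel]
      rw [cf_e_mul]
      have h5 : M - v - eta = M - eta - v := by ring
      have h6 : e (M - eta - v) x = e (-(eta : ℤ)) x * e (M - v) x := by
        rw [← e_add]
        congr 1
        ring
      rw [h5, h6]
      ring
    · simp only [if_neg hc, Finset.sum_const_zero]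

end CH
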