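import Mathlib
import Pool.Agent.CH.ZPlat

/-!
CH-ZVt. Properties of `Vt` (from ZPlat with `W = 6*2^(t-4)+1`, `l = 2^(t-7)`, `k = 8`).
`k (l-1) = 2^(t-4) - 8`. `Vt t v = 1` for `2^(t-3) <= v <= 7*2^(t-4)`; support in `[2^(t-4), 2^(t-1)]`:
`v - 2^(t-4) <= W + k(l-1) - 1 = 7*2^(t-4) - 8`. Kernel: `sum = e(-2^(t-4))(x) * ev (Plat ..) x`
(`ev_eq_sum`), `W <= 2^t`, and `(2/(1+2^(t-7)||x||))^8 = 256/(..)^8`.
-/

open Polynomial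

namespace CH

private theorem ZVt_pows (s : ℕ) : 7 + s - 4 = s + 3 ∧ 7 + s - 7 = s ∧ 7 + s - 1 = s + 6 ∧
    7 + s - 3 = s + 4 := by omega

private theorem ZVt_z3 (s : ℕ) : (2 : ℤ) ^ (s + 3) = ((8 * 2 ^ s : ℕ) : ℤ) := by
  push_cast; rw [pow_add]; ring

private theorem ZVt_n3 (s : ℕ) : 2 ^ (s + 3) = 8 * 2 ^ s := by
  rw [pow_add]; ring

private theorem ZVt_z6 (s : ℕ) : (2 : ℤ) ^ (s + 6) = ((64 * 2 ^ s : ℕ) : ℤ) := by
  push_cast; rw [pow_add]; ring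

private theorem ZVt_z4 (s : ℕ) : (2 : ℤ) ^ (s + 4) = ((16 * 2 ^ s : ℕ) : ℤ) := by
  push_cast; rw [pow_add]; ring

theorem Vt_mem (t : ℕ) (ht : 7 ≤ t) (v : ℤ) : 0 ≤ Vt t v ∧ Vt t v ≤ 1 := by
  unfold Vt
  split_ifs with h
  · exact plat_mem _ _ _ _ Nat.one_le_two_pow
  · exact ⟨le_rfl, zero_le_one⟩

theorem Vt_one (t : ℕ) (ht : 7 ≤ t) (v : ℤ) (h1 : (2 : ℤ) ^ (t - 3) ≤ v)
    (h2 : v ≤ 7 * 2 ^ (t - 4)) : Vt t v = 1 := by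
  obtain ⟨s, rfl⟩ := Nat.exists_eq_add_of_le ht
  obtain ⟨e4, e7, e1, e3⟩ := ZVt_pows s
  unfold Vt
  rw [e3, ZVt_z4] at h1
  rw [e4, ZVt_z3] at h2
  rw [e4, e7, ZVt_z3, ZVt_n3]
  have hL : 1 ≤ 2 ^ s := Nat.one_le_two_pow
  generalize 2 ^ s = L at *
  rw [if_pos (by push_cast at *; omega)]
  refine plat_one _ _ _ _ hL ?_ ?_
  · push_cast at *; omega
  · push_cast at *; omega

private theorem ZVt_zero (s : ℕ) (w : ℕ) (h : 7 * (8 * 2 ^ s) < w) :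
    (Plat (6 * (8 * 2 ^ s) + 1) (2 ^ s) 8).coeff w = 0 := by
  refine plat_zero _ _ _ _ Nat.one_le_two_pow ?_
  have hL : 1 ≤ 2 ^ s := Nat.one_le_two_pow
  generalize 2 ^ s = L at *
  omega

theorem Vt_supp (t : ℕ) (ht : 7 ≤ t) (v : ℤ) (h : Vt t v ≠ 0) :
    (2 : ℤ) ^ (t - 4) ≤ v ∧ v ≤ 2 ^ (t - 1) := by
  obtain ⟨s, rfl⟩ := Nat.exists_eq_add_of_le ht
  obtain ⟨e4, e7, e1, e3⟩ := ZVt_pows s
  unfold Vt at h
  rw [e4, e7, ZVt_z3, ZVt_n3] at h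
  rw [e4, e1, ZVt_z3, ZVt_z6]
  split_ifs at h with h1
  · refine ⟨h1, ?_⟩
    by_contra hcon
    apply h
    apply ZVt_zero
    generalize 2 ^ s = L at *
    push_cast at *
    omega
  · exact absurd rfl h

theorem Vt_kernel (t : ℕ) (ht : 7 ≤ t) (x : T) :
    ‖∑ v ∈ Finset.Icc ((2 : ℤ) ^ (t - 4)) (2 ^ (t - 1)), (Vt t v : ℂ) * e (-v) x‖
      ≤ 256 * 2 ^ t / (1 + 2 ^ (t - 7) * ‖x‖) ^ 8 := by
  obtain ⟨s, rfl⟩ := Nat.exists_eq_add_of_le ht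
  obtain ⟨e4, e7, e1, e3⟩ := ZVt_pows s
  have hL : 1 ≤ 2 ^ s := Nat.one_le_two_pow
  have hdeg : (Plat (6 * (8 * 2 ^ s) + 1) (2 ^ s) 8).natDegree < 7 * (8 * 2 ^ s) + 1 := by
    rw [Nat.lt_succ_iff, natDegree_le_iff_coeff_eq_zero]
    intro w hw
    exact ZVt_zero s w hw
  have hsum : ∑ v ∈ Finset.Icc ((2 : ℤ) ^ (7 + s - 4)) (2 ^ (7 + s - 1)),
      (Vt (7 + s) v : ℂ) * e (-v) x =
      e (-((8 * 2 ^ s : ℕ) : ℤ)) x * ev (Plat (6 * (8 * 2 ^ s) + 1) (2 ^ s) 8) x := by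
    rw [ev_eq_sum _ _ hdeg, Finset.mul_sum, e4, e1, ZVt_z3, ZVt_z6]
    symm
    refine Finset.sum_bij (fun (w : ℕ) _ => (w : ℤ) + ((8 * 2 ^ s : ℕ) : ℤ)) ?_ ?_ ?_ ?_
    · intro w hw
      rw [Finset.mem_range] at hw
      rw [Finset.mem_Icc]
      generalize 2 ^ s = L at *
      push_cast
      omega
    · intro w _ w' _ h
      omega
    · intro v hv
      rw [Finset.mem_Icc] at hv
      refine ⟨(v - ((8 * 2 ^ s : ℕ) : ℤ)).toNat, ?_, ?_⟩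
      · rw [Finset.mem_range]
        generalize 2 ^ s = L at *
        push_cast at *
        omega
      · generalize 2 ^ s = L at *
        push_cast at *
        omega
    · intro w _
      have h1 : Vt (7 + s) ((w : ℤ) + ((8 * 2 ^ s : ℕ) : ℤ)) =
          (Plat (6 * (8 * 2 ^ s) + 1) (2 ^ s) 8).coeff w := by
        unfold Vt
        rw [e4, e7, ZVt_z3, ZVt_n3, if_pos (by omega)]
        congr 1
        omega
      rw [h1, show -((w : ℤ) + ((8 * 2 ^ s : ℕ) : ℤ)) = -((8 * 2 ^ s : ℕ) : ℤ) + (-(w : ℤ)) by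
        ring, e_add]
      ring
  rw [hsum, norm_mul, norm_e, one_mul, e7]
  refine (norm_ev_Plat _ _ _ hL x).trans ?_
  have h1 : (0 : ℝ) < 1 + 2 ^ s * ‖x‖ := by positivity
  rw [div_pow, ← mul_div_assoc]
  push_cast
  rw [div_le_div_iff_of_pos_right (pow_pos h1 8)]
  have h2 : (1 : ℝ) ≤ 2 ^ s := by exact_mod_cast hL
  rw [pow_add]
  norm_num
  linarith

end CH
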