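import Mathlib
import Pool.Agent.CH.ZBt
import Pool.Agent.CH.ZVt

/-!
CH-ZSamp. Sampling identity (paper A6). `t = s+7`, `Q = 2^t`.
`int f conj(psiT th P) = 2^(-t/2) sum_v bt t v cf f (mid-v) e (mid-v) (c_P + th/Q)` (`conj (e n y) = e (-n) y`,
pull the finite sum out of the integral, `cf`), where `c_P + th/Q = (128 n + th)/Q`.
`phiT th P x = 2^(-t/2) sum_w Vt t w e (mid-w) x e (-(mid-w)) (c_P + th/Q)`.
Product: `(1/Q) sum_{v,w} bt Vt cf f (mid-v) e (mid-w) x e (w-v) ((128 n+th)/Q)`; the pairs `(n,th)` with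
`n < 2^s`, `th < 128` run over all `k = 128 n + th < Q`, and `sum_{k<Q} e (w-v) (k/Q) = Q` if `Q | w-v`, else `0`
(geometric sum). `v, w in [2^(t-4), 2^(t-1)]` so `|w-v| < Q` and `w = v`. Finally `bt t v * Vt t v = bt t v`
(`bt_supp`, `Vt_one`).
-/

open MeasureTheory Complex
open scoped ComplexConjugate

namespace CH

theorem sum_roots (Q : ℕ) (hQ : 0 < Q) (k : ℤ) (hk : k ≠ 0) (hk' : |k| < Q) :
    ∑ i ∈ Finset.range Q, e k (((i / Q : ℝ)) : T) = 0 := by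
  have hQC : (Q : ℂ) ≠ 0 := by exact_mod_cast hQ.ne'
  set z : ℂ := Complex.exp (2 * Real.pi * I * k / Q) with hz
  have h1 : ∀ i ∈ Finset.range Q, e k (((i / Q : ℝ)) : T) = z ^ i := by
    intro i _
    rw [e_coe, hz, ← Complex.exp_nat_mul]
    congr 1
    push_cast
    ring
  rw [Finset.sum_congr rfl h1]
  have hzQ : z ^ Q = 1 := by
    rw [hz, ← Complex.exp_nat_mul, Complex.exp_eq_one_iff]
    refine ⟨k, ?_⟩
    field_simp
  have hz1 : z ≠ 1 := by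
    intro h
    rw [hz, Complex.exp_eq_one_iff] at h
    obtain ⟨j, hj⟩ := h
    have h2 : (2 * Real.pi * I : ℂ) ≠ 0 := Complex.two_pi_I_ne_zero
    have h3 : (k : ℂ) = j * Q := by
      field_simp at hj
      have h4 : (2 * Real.pi * I : ℂ) * k = (2 * Real.pi * I : ℂ) * (j * Q) := by
        linear_combination (2 * Real.pi * I : ℂ) * hj
      exact mul_left_cancel₀ h2 h4
    have h5 : k = j * Q := by exact_mod_cast h3
    have hj0 : j ≠ 0 := by
      rintro rfl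
      exact hk (by simpa using h5)
    have h6 : (Q : ℤ) ≤ |k| := by
      rw [h5, abs_mul, Nat.abs_cast]
      have : 1 ≤ |j| := Int.one_le_abs hj0
      nlinarith [Int.natCast_nonneg Q]
    omega
  have := geom_sum_eq hz1 Q
  rw [this, hzQ, sub_self, zero_div]

theorem zsamp_e_neg_arg (k : ℤ) (p : T) : e k (-p) = e (-k) p := by
  unfold e
  simp [fourier_apply]

theorem zsamp_range (F : ℕ → ℂ) (a b : ℕ) :
    ∑ th ∈ Finset.range a, ∑ n ∈ Finset.range b, F (a * n + th)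
      = ∑ k ∈ Finset.range (a * b), F k := by
  rw [Finset.sum_comm]
  induction b with
  | zero => simp
  | succ b ih =>
    rw [Finset.sum_range_succ, ih, Nat.mul_succ, Finset.sum_range_add]

/-- the value of the analysis coefficient -/
theorem zsamp_coef (f : T → ℂ) (hf : Integrable f) (th s n : ℕ) (m : ℤ) :
    (∫ y, f y * conj (psiT th ⟨s, n, m⟩ y))
      = ((1 / Real.sqrt (2 ^ (s + 7)) : ℝ) : ℂ) *
        ∑ v ∈ Finset.Icc ((2 : ℤ) ^ (s + 3)) (2 ^ (s + 6)),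
          (bt (s + 7) v : ℂ) * cf f ((⟨s, 0, m⟩ : Tile).mid - v) *
            e ((⟨s, 0, m⟩ : Tile).mid - v) (cpt s n + ((th / 2 ^ (s + 7) : ℝ) : T)) := by
  have hmid : ((⟨s, n, m⟩ : Tile).mid) = (⟨s, 0, m⟩ : Tile).mid := rfl
  have hc : ((⟨s, n, m⟩ : Tile).c) = cpt s n := rfl
  set c0 : ℂ := ((1 / Real.sqrt (2 ^ (s + 7)) : ℝ) : ℂ) with hc0
  set p : T := cpt s n + ((th / 2 ^ (s + 7) : ℝ) : T) with hp
  have h1 : ∀ y, f y * conj (psiT th ⟨s, n, m⟩ y)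
      = ∑ v ∈ Finset.Icc ((2 : ℤ) ^ (s + 3)) (2 ^ (s + 6)),
        (c0 * ((bt (s + 7) v : ℂ) * e ((⟨s, 0, m⟩ : Tile).mid - v) p)) *
          (f y * conj (e ((⟨s, 0, m⟩ : Tile).mid - v) y)) := by
    intro y
    unfold psiT
    rw [hmid, hc]
    rw [map_mul, map_sum, Complex.conj_ofReal, Finset.mul_sum, Finset.mul_sum]
    refine Finset.sum_congr rfl fun v _ => ?_
    rw [map_mul, Complex.conj_ofReal]
    have h2 : y - cpt s n - ((th / 2 ^ (s + 7) : ℝ) : T) = y + (-p) := by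
      rw [hp]; abel
    rw [h2, e_add_arg, zsamp_e_neg_arg, map_mul, conj_e _ p, neg_neg]
    ring
  simp_rw [h1]
  rw [integral_finsetSum _ (fun v _ => (integrable_mul_conj_e hf _).const_mul _), Finset.mul_sum]
  refine Finset.sum_congr rfl fun v _ => ?_
  rw [integral_const_mul]
  unfold cf
  ring

theorem zsamp_phi (th s n : ℕ) (m : ℤ) (x : T) :
    phiT th ⟨s, n, m⟩ x
      = ((1 / Real.sqrt (2 ^ (s + 7)) : ℝ) : ℂ) *
        ∑ w ∈ Finset.Icc ((2 : ℤ) ^ (s + 3)) (2 ^ (s + 6)),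
          (Vt (s + 7) w : ℂ) * e ((⟨s, 0, m⟩ : Tile).mid - w) x *
            e (-((⟨s, 0, m⟩ : Tile).mid - w)) (cpt s n + ((th / 2 ^ (s + 7) : ℝ) : T)) := by
  have hmid : ((⟨s, n, m⟩ : Tile).mid) = (⟨s, 0, m⟩ : Tile).mid := rfl
  have hc : ((⟨s, n, m⟩ : Tile).c) = cpt s n := rfl
  unfold phiT
  rw [hmid, hc]
  congr 1
  refine Finset.sum_congr rfl fun w _ => ?_
  have h2 : x - cpt s n - ((th / 2 ^ (s + 7) : ℝ) : T)
      = x + (-(cpt s n + ((th / 2 ^ (s + 7) : ℝ) : T))) := by abel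
  rw [h2, e_add_arg, zsamp_e_neg_arg]
  ring

theorem zsamp_pt (th s n : ℕ) :
    (cpt s n + ((th / 2 ^ (s + 7) : ℝ) : T))
      = ((((128 * n + th : ℕ) : ℝ) / ((2 ^ (s + 7) : ℕ) : ℝ) : ℝ) : T) := by
  unfold cpt
  rw [← AddCircle.coe_add]
  congr 1
  push_cast
  rw [pow_add]
  field_simp
  ring

theorem sampling (f : T → ℂ) (hf : Integrable f) (s : ℕ) (m : ℤ) (x : T) :
    ∑ th ∈ Finset.range 128, ∑ n ∈ Finset.range (2 ^ s),
      (∫ y, f y * conj (psiT th ⟨s, n, m⟩ y)) * phiT th ⟨s, n, m⟩ x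
    = ∑ v ∈ Finset.Icc ((2 : ℤ) ^ (s + 3)) (2 ^ (s + 6)),
        (bt (s + 7) v : ℂ) * cf f ((⟨s, 0, m⟩ : Tile).mid - v) * e ((⟨s, 0, m⟩ : Tile).mid - v) x := by
  set M : ℤ := (⟨s, 0, m⟩ : Tile).mid with hM
  set G : Finset ℤ := Finset.Icc ((2 : ℤ) ^ (s + 3)) (2 ^ (s + 6)) with hG
  set c0 : ℂ := ((1 / Real.sqrt (2 ^ (s + 7)) : ℝ) : ℂ) with hc0
  have hc02 : c0 * c0 = 1 / 2 ^ (s + 7) := by
    rw [hc0, ← Complex.ofReal_mul, div_mul_div_comm, Real.mul_self_sqrt (by positivity)]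
    push_cast
    ring
  have hQpos : 0 < 2 ^ (s + 7) := by positivity
  -- the general term
  have h1 : ∀ th ∈ Finset.range 128, ∀ n ∈ Finset.range (2 ^ s),
      (∫ y, f y * conj (psiT th ⟨s, n, m⟩ y)) * phiT th ⟨s, n, m⟩ x
      = (fun k : ℕ => ∑ v ∈ G, ∑ w ∈ G, (c0 * c0 * ((bt (s + 7) v : ℂ) * cf f (M - v) *
          ((Vt (s + 7) w : ℂ) * e (M - w) x))) *
            e (w - v) ((((k : ℝ) / ((2 ^ (s + 7) : ℕ) : ℝ) : ℝ)) : T)) (128 * n + th) := by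
    intro th _ n _
    rw [zsamp_coef f hf, zsamp_phi, zsamp_pt, ← hM, ← hG, ← hc0]
    simp only
    rw [mul_mul_mul_comm, Finset.sum_mul_sum, Finset.mul_sum]
    refine Finset.sum_congr rfl fun v _ => ?_
    rw [Finset.mul_sum]
    refine Finset.sum_congr rfl fun w _ => ?_
    rw [show w - v = (M - v) + (-(M - w)) by ring, e_add]
    ring
  rw [Finset.sum_congr rfl fun th hth => Finset.sum_congr rfl fun n hn => h1 th hth n hn]
  rw [zsamp_range (fun k : ℕ => ∑ v ∈ G, ∑ w ∈ G, (c0 * c0 * ((bt (s + 7) v : ℂ) * cf f (M - v) *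
          ((Vt (s + 7) w : ℂ) * e (M - w) x))) *
            e (w - v) ((((k : ℝ) / ((2 ^ (s + 7) : ℕ) : ℝ) : ℝ)) : T)) 128 (2 ^ s)]
  rw [show 128 * 2 ^ s = 2 ^ (s + 7) by rw [pow_add]; ring]
  rw [Finset.sum_comm]
  refine Finset.sum_congr rfl fun v hv => ?_
  rw [Finset.sum_comm]
  rw [Finset.sum_eq_single v]
  · -- diagonal term
    have h2 : ∀ k ∈ Finset.range (2 ^ (s + 7)),
        (c0 * c0 * ((bt (s + 7) v : ℂ) * cf f (M - v) * ((Vt (s + 7) v : ℂ) * e (M - v) x))) *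
            e (v - v) ((((k : ℝ) / ((2 ^ (s + 7) : ℕ) : ℝ) : ℝ)) : T)
        = (c0 * c0 * ((bt (s + 7) v : ℂ) * cf f (M - v) * ((Vt (s + 7) v : ℂ) * e (M - v) x))) := by
      intro k _
      rw [sub_self, e_zero, mul_one]
    rw [Finset.sum_congr rfl h2, Finset.sum_const, Finset.card_range, nsmul_eq_mul, hc02]
    have h3 : (bt (s + 7) v : ℂ) * (Vt (s + 7) v : ℂ) = (bt (s + 7) v : ℂ) := by
      by_cases hb : bt (s + 7) v = 0
      · rw [hb]; simp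
      · have h4 := bt_supp (s + 7) (by omega) v hb
        have h5 := Vt_one (s + 7) (by omega) v h4.1 h4.2
        rw [h5]; simp
    have h6 : ((2 ^ (s + 7) : ℕ) : ℂ) = (2 : ℂ) ^ (s + 7) := by push_cast; ring
    rw [h6]
    have h7 : (2 : ℂ) ^ (s + 7) ≠ 0 := pow_ne_zero _ two_ne_zero
    calc (2 : ℂ) ^ (s + 7) * (1 / 2 ^ (s + 7) * ((bt (s + 7) v : ℂ) * cf f (M - v) *
          ((Vt (s + 7) v : ℂ) * e (M - v) x)))
        = ((2 : ℂ) ^ (s + 7) * (1 / 2 ^ (s + 7))) * (((bt (s + 7) v : ℂ) * (Vt (s + 7) v : ℂ)) *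
            cf f (M - v) * e (M - v) x) := by ring
      _ = _ := by rw [h3, mul_one_div_cancel h7, one_mul]
  · intro w hw hwv
    rw [← Finset.mul_sum]
    rw [sum_roots (2 ^ (s + 7)) hQpos (w - v) (sub_ne_zero.2 hwv) ?_, mul_zero]
    rw [hG, Finset.mem_Icc] at hv hw
    have h8 : (2 : ℤ) ^ (s + 6) < ((2 ^ (s + 7) : ℕ) : ℤ) := by
      push_cast
      have h10 : (2 : ℤ) ^ (s + 7) = 2 ^ (s + 6) * 2 := pow_succ 2 (s + 6)
      have h11 : (0 : ℤ) < 2 ^ (s + 6) := by positivity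
      linarith
    have h9 : (0 : ℤ) < 2 ^ (s + 3) := by positivity
    rw [abs_lt]
    constructor <;> linarith [hv.1, hv.2, hw.1, hw.2]
  · intro h; exact absurd hv h

end CH
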