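import Mathlib
import Pool.Agent.CH.ZUp
import Pool.Agent.CH.ZBt

/-!
CH-ZKer. Kernel bound for `bt` (paper A6), by Abel summation.
-/

open Polynomial

namespace CH

private theorem zk_deg_Up (l k : ℕ) : ((Up l) ^ k).natDegree ≤ k * l := by
  refine (natDegree_pow_le).trans ?_
  exact Nat.mul_le_mul_left _ ((natDegree_Up_le l).trans (Nat.sub_le _ _))

private theorem zk_deg_rho (m : ℕ) : (rhoP (m + 6)).natDegree ≤ 2 ^ (m + 4) + 8 * 2 ^ m := by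
  unfold rhoP
  have e1 : m + 6 - 2 = m + 4 := by omega
  have e2 : m + 6 - 6 = m := by omega
  rw [e1, e2]
  refine (natDegree_mul_le).trans ?_
  exact Nat.add_le_add (natDegree_X_pow_le _) (zk_deg_Up _ _)

private theorem zk_norm_rho (m : ℕ) (x : T) :
    ‖ev (rhoP (m + 6)) x‖ ≤ (2 / (1 + 2 ^ m * ‖x‖)) ^ 8 := by
  unfold rhoP
  have e2 : m + 6 - 6 = m := by omega
  rw [e2, ev_mul, ev_X_pow, ev_pow, norm_mul, norm_e, one_mul, norm_pow]
  have := norm_ev_Up (2 ^ m) Nat.one_le_two_pow x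
  push_cast at this
  gcongr

private theorem zk_norm_Q (L : ℕ) (x : T) : ‖ev (C (1 / 2) * (1 + X ^ L)) x‖ ≤ 1 := by
  have h1 : ev (1 : ℝ[X]) x = 1 := by
    have := ev_C 1 x
    simpa using this
  rw [ev_mul, ev_add, ev_C, h1, ev_X_pow, norm_mul]
  have h2 : ‖(1 : ℂ) + e (-(L : ℤ)) x‖ ≤ 2 := by
    refine (norm_add_le _ _).trans ?_
    rw [norm_e, norm_one]; norm_num
  have h3 : ‖(((1 / 2 : ℝ)) : ℂ)‖ = 1 / 2 := by
    rw [Complex.norm_real]; norm_num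
  rw [h3]
  linarith

private theorem zk_range (f : ℤ → ℂ) (a : ℤ) (M : ℕ) (ha : 0 ≤ a) (hf : ∀ v, v < a → f v = 0) :
    ∑ v ∈ Finset.Icc a (M : ℤ), f v = ∑ n ∈ Finset.range (M + 1), f (n : ℤ) := by
  have h1 : ∑ v ∈ Finset.Icc a (M : ℤ), f v = ∑ v ∈ Finset.Icc 0 (M : ℤ), f v := by
    refine Finset.sum_subset (Finset.Icc_subset_Icc_left ha) ?_
    intro v hv hv'
    rw [Finset.mem_Icc] at hv hv'
    refine hf v ?_
    by_contra h
    exact hv' ⟨not_lt.1 h, hv.2⟩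
  rw [h1]
  refine Finset.sum_nbij' (fun v => v.toNat) (fun n => (n : ℤ)) ?_ ?_ ?_ ?_ ?_
  · intro v hv
    rw [Finset.mem_Icc] at hv
    rw [Finset.mem_range]
    omega
  · intro n hn
    rw [Finset.mem_range] at hn
    rw [Finset.mem_Icc]
    omega
  · intro v hv
    rw [Finset.mem_Icc] at hv
    exact Int.toNat_of_nonneg hv.1
  · intro n _
    exact Int.toNat_natCast n
  · intro v hv
    rw [Finset.mem_Icc] at hv
    show f v = f ((v.toNat : ℕ) : ℤ)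
    rw [Int.toNat_of_nonneg hv.1]

private theorem zk_abel (c : ℤ → ℂ) (z : ℂ) (M : ℕ) (h0 : c (-1) = 0) (hM : c M = 0) :
    (1 - z) * ∑ n ∈ Finset.range (M + 1), c (n : ℤ) * z ^ n =
      ∑ n ∈ Finset.range (M + 1), (c (n : ℤ) - c ((n : ℤ) - 1)) * z ^ n := by
  have h1 : ∑ n ∈ Finset.range (M + 1), c ((n : ℤ) - 1) * z ^ n =
      z * ∑ n ∈ Finset.range (M + 1), c (n : ℤ) * z ^ n := by
    rw [Finset.sum_range_succ']
    rw [Finset.sum_range_succ (fun n => c (n : ℤ) * z ^ n), hM, zero_mul, add_zero]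
    have : c (((0 : ℕ) : ℤ) - 1) = 0 := by simpa using h0
    rw [this, zero_mul, add_zero, Finset.mul_sum]
    refine Finset.sum_congr rfl (fun n _ => ?_)
    have e1 : (((n + 1 : ℕ) : ℤ) - 1) = (n : ℤ) := by push_cast; ring
    rw [e1, pow_succ]
    ring
  simp_rw [sub_mul]
  rw [Finset.sum_sub_distrib, h1]
  ring

theorem bt_kernel : ∃ C : ℝ, 0 < C ∧ ∀ (t : ℕ), 7 ≤ t → ∀ x : T,
    ‖∑ v ∈ Finset.Icc ((2 : ℤ) ^ (t - 4)) (2 ^ (t - 1)), (bt t v : ℂ) * e (-v) x‖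
      ≤ C * 2 ^ t / (1 + 2 ^ (t - 7) * ‖x‖) ^ 8 := by
  refine ⟨2048, by norm_num, ?_⟩
  intro t ht x
  obtain ⟨s, rfl⟩ : ∃ s, t = s + 7 := ⟨t - 7, by omega⟩
  have e4 : s + 7 - 4 = s + 3 := by omega
  have e1 : s + 7 - 1 = s + 6 := by omega
  have e7 : s + 7 - 7 = s := by omega
  have e3 : s + 7 - 3 = s + 4 := by omega
  rw [e4, e1, e7]
  set M : ℕ := 2 ^ (s + 6) with hMdef
  have hMc : ((2 : ℤ) ^ (s + 6)) = (M : ℤ) := by rw [hMdef]; push_cast; rfl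
  have hp2 : (0 : ℤ) < 2 ^ s := by positivity
  -- support
  have hlow : ∀ v : ℤ, v < 2 ^ (s + 3) → bt (s + 7) v = 0 := by
    intro v hv
    by_contra h
    have h2 := (bt_supp (s + 7) ht v h).1
    rw [e3] at h2
    have : (2 : ℤ) ^ (s + 4) = 2 * 2 ^ (s + 3) := by ring
    have h3 : (0 : ℤ) < 2 ^ (s + 3) := by positivity
    omega
  have hup : ∀ v : ℤ, 7 * 2 ^ (s + 3) < v → bt (s + 7) v = 0 := by
    intro v hv
    by_contra h
    have h2 := (bt_supp (s + 7) ht v h).2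
    rw [e4] at h2
    omega
  have hm1 : bt (s + 7) (-1) = 0 := by
    apply hlow
    have h3 : (0 : ℤ) < 2 ^ (s + 3) := by positivity
    omega
  have hMz : bt (s + 7) (M : ℤ) = 0 := by
    apply hup
    rw [← hMc]
    have : (2 : ℤ) ^ (s + 6) = 8 * 2 ^ (s + 3) := by ring
    have h3 : (0 : ℤ) < 2 ^ (s + 3) := by positivity
    omega
  rw [hMc, zk_range (fun v => (bt (s + 7) v : ℂ) * e (-v) x) _ M (by positivity)
    (fun v hv => by simp [hlow v hv])]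
  set z : ℂ := e (-1) x with hz
  have hez : ∀ n : ℕ, e (-(n : ℤ)) x = z ^ n := by
    intro n
    rw [hz, e_pow]
    congr 1
    ring
  have hK : ∑ n ∈ Finset.range (M + 1), (bt (s + 7) (n : ℤ) : ℂ) * e (-(n : ℤ)) x =
      ∑ n ∈ Finset.range (M + 1), (fun v : ℤ => (bt (s + 7) v : ℂ)) (n : ℤ) * z ^ n :=
    Finset.sum_congr rfl (fun n _ => by rw [hez])
  show ‖∑ n ∈ Finset.range (M + 1), (bt (s + 7) (n : ℤ) : ℂ) * e (-(n : ℤ)) x‖ ≤ _
  rw [hK]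
  set K : ℂ := ∑ n ∈ Finset.range (M + 1), (fun v : ℤ => (bt (s + 7) v : ℂ)) (n : ℤ) * z ^ n with hKdef
  set D : ℝ := 1 + 2 ^ s * ‖x‖ with hD
  have hDpos : 0 < D := by positivity
  -- degree bounds
  have hpow : 2 ^ (s + 6) = 64 * 2 ^ s := by ring
  have hps : 1 ≤ 2 ^ s := Nat.one_le_two_pow
  have hd1 : (rhoP (s + 6)).natDegree < M + 1 := by
    have := zk_deg_rho s
    have h4 : 2 ^ (s + 4) = 16 * 2 ^ s := by ring
    rw [hMdef]
    omega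
  have hd2 : (rhoP (s + 7) * (C (1 / 2) * (1 + X ^ Lt (s + 7)))).natDegree < M + 1 := by
    have h5 := zk_deg_rho (s + 1)
    have e5 : s + 1 + 6 = s + 7 := by ring
    rw [e5] at h5
    have h6 : (C (1 / 2 : ℝ) * (1 + X ^ Lt (s + 7))).natDegree ≤ 2 ^ (s + 3) := by
      refine (natDegree_C_mul_le _ _).trans ?_
      refine (natDegree_add_le _ _).trans ?_
      rw [natDegree_one]
      refine max_le (Nat.zero_le _) ?_
      refine (natDegree_X_pow_le _).trans ?_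
      unfold Lt
      rw [e4]
    have h7 := natDegree_mul_le (p := rhoP (s + 7)) (q := C (1 / 2 : ℝ) * (1 + X ^ Lt (s + 7)))
    have h8 : 2 ^ (s + 1 + 4) = 32 * 2 ^ s := by ring
    have h9 : 2 ^ (s + 1) = 2 * 2 ^ s := by ring
    have h10 : 2 ^ (s + 3) = 8 * 2 ^ s := by ring
    rw [hMdef]
    omega
  have habel : (1 - z) * K = 16 * (ev (rhoP (s + 6)) x
      - ev (rhoP (s + 7) * (C (1 / 2) * (1 + X ^ Lt (s + 7)))) x) := by
    rw [hKdef, zk_abel (fun v : ℤ => (bt (s + 7) v : ℂ)) z M (by simp [hm1]) (by simp [hMz]),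
      ev_eq_sum _ _ hd1, ev_eq_sum _ _ hd2, ← Finset.sum_sub_distrib, Finset.mul_sum]
    refine Finset.sum_congr rfl (fun n _ => ?_)
    have h1 := cdf_sub_one (rhoP (s + 6)) (n : ℤ) (by positivity)
    have h2 := cdf_sub_one (rhoP (s + 7) * (C (1 / 2) * (1 + X ^ Lt (s + 7)))) (n : ℤ) (by positivity)
    rw [Int.toNat_natCast] at h1 h2
    have h3 : bt (s + 7) (n : ℤ) - bt (s + 7) ((n : ℤ) - 1) = 16 * ((rhoP (s + 6)).coeff n
        - (rhoP (s + 7) * (C (1 / 2) * (1 + X ^ Lt (s + 7)))).coeff n) := by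
      rw [← h1, ← h2]
      unfold bt
      rw [e1]
      ring
    have h4 : ((bt (s + 7) (n : ℤ) : ℂ) - (bt (s + 7) ((n : ℤ) - 1) : ℂ)) =
        16 * (((rhoP (s + 6)).coeff n : ℂ)
        - ((rhoP (s + 7) * (C (1 / 2) * (1 + X ^ Lt (s + 7)))).coeff n : ℂ)) := by
      exact_mod_cast h3
    show ((bt (s + 7) (n : ℤ) : ℂ) - (bt (s + 7) ((n : ℤ) - 1) : ℂ)) * z ^ n = _
    rw [h4, hez]
    ring
  have hn1 : ‖ev (rhoP (s + 6)) x‖ ≤ 256 / D ^ 8 := by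
    have := zk_norm_rho s x
    rw [div_pow] at this
    norm_num at this
    exact this
  have hn2 : ‖ev (rhoP (s + 7) * (C (1 / 2) * (1 + X ^ Lt (s + 7)))) x‖ ≤ 256 / D ^ 8 := by
    rw [ev_mul, norm_mul]
    have h1 := zk_norm_rho (s + 1) x
    have e5 : s + 1 + 6 = s + 7 := by ring
    rw [e5] at h1
    have h2 := zk_norm_Q (Lt (s + 7)) x
    have h3 : (2 / (1 + 2 ^ (s + 1) * ‖x‖)) ^ 8 ≤ 256 / D ^ 8 := by
      have : (256 : ℝ) = 2 ^ 8 := by norm_num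
      rw [this, ← div_pow]
      have h4 : D ≤ 1 + 2 ^ (s + 1) * ‖x‖ := by
        rw [hD, pow_succ]
        nlinarith [norm_nonneg x, pow_pos (two_pos : (0 : ℝ) < 2) s, mul_nonneg (pow_pos (two_pos : (0 : ℝ) < 2) s).le (norm_nonneg x)]
      gcongr
    calc ‖ev (rhoP (s + 7)) x‖ * ‖ev (C (1 / 2) * (1 + X ^ Lt (s + 7))) x‖
        ≤ ‖ev (rhoP (s + 7)) x‖ * 1 := by gcongr
      _ ≤ 256 / D ^ 8 := by rw [mul_one]; exact h1.trans h3
  have hprod : ‖1 - z‖ * ‖K‖ ≤ 8192 / D ^ 8 := by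
    rw [← norm_mul, habel, norm_mul]
    have h1 : ‖(16 : ℂ)‖ = 16 := by norm_num
    rw [h1]
    have h2 := (norm_sub_le (ev (rhoP (s + 6)) x) (ev (rhoP (s + 7) * (C (1 / 2) * (1 + X ^ Lt (s + 7)))) x))
    have h3 : (8192 : ℝ) / D ^ 8 = 16 * (256 / D ^ 8 + 256 / D ^ 8) := by ring
    rw [h3]
    gcongr
    exact h2.trans (add_le_add hn1 hn2)
  have h2s : (0 : ℝ) < 2 ^ (s + 7) := by positivity
  by_cases hx : 1 / 2 ^ (s + 7) ≤ ‖x‖
  · have h1 := norm_one_sub_e x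
    rw [← hz] at h1
    have h2 : 4 * ‖x‖ * ‖K‖ ≤ 8192 / D ^ 8 := (mul_le_mul_of_nonneg_right h1 (norm_nonneg _)).trans hprod
    have h3 : 4 * (1 / 2 ^ (s + 7)) * ‖K‖ ≤ 8192 / D ^ 8 :=
      (mul_le_mul_of_nonneg_right (mul_le_mul_of_nonneg_left hx (by norm_num)) (norm_nonneg _)).trans h2
    have h4 : ‖K‖ = (4 * (1 / 2 ^ (s + 7)) * ‖K‖) * (2 ^ (s + 7) / 4) := by
      field_simp
    rw [h4]
    calc (4 * (1 / 2 ^ (s + 7)) * ‖K‖) * (2 ^ (s + 7) / 4) ≤ (8192 / D ^ 8) * (2 ^ (s + 7) / 4) := by gcongr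
      _ = 2048 * 2 ^ (s + 7) / D ^ 8 := by ring
  · have hx' : ‖x‖ < 1 / 2 ^ (s + 7) := not_le.1 hx
    have h1 : ‖K‖ ≤ ∑ n ∈ Finset.range (M + 1), (16 : ℝ) := by
      refine norm_sum_le_of_le _ (fun n _ => ?_)
      rw [norm_mul, norm_pow, hz, norm_e, one_pow, mul_one]
      show ‖((bt (s + 7) (n : ℤ) : ℝ) : ℂ)‖ ≤ 16
      rw [Complex.norm_real, Real.norm_eq_abs, abs_of_nonneg (bt_mem (s + 7) ht n).1]
      exact (bt_mem (s + 7) ht n).2
    rw [Finset.sum_const, Finset.card_range, nsmul_eq_mul] at h1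
    have h2 : ((M + 1 : ℕ) : ℝ) ≤ 2 ^ (s + 7) := by
      have : M + 1 ≤ 2 ^ (s + 7) := by
        have h7 : 2 ^ (s + 7) = 128 * 2 ^ s := by ring
        rw [hMdef]; omega
      exact_mod_cast this
    have h3 : D ≤ 129 / 128 := by
      rw [hD]
      have : (2 : ℝ) ^ (s + 7) = 128 * 2 ^ s := by ring
      rw [this] at hx'
      have h5 : (2 : ℝ) ^ s * ‖x‖ ≤ 2 ^ s * (1 / (128 * 2 ^ s)) := by gcongr
      have h6 : (2 : ℝ) ^ s * (1 / (128 * 2 ^ s)) = 1 / 128 := by field_simp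
      linarith
    have h4 : D ^ 8 ≤ 2 := by
      calc D ^ 8 ≤ (129 / 128) ^ 8 := by gcongr
        _ ≤ 2 := by norm_num
    rw [le_div_iff₀ (by positivity)]
    calc ‖K‖ * D ^ 8 ≤ (2 ^ (s + 7) * 16) * 2 := by
          refine mul_le_mul (h1.trans (mul_le_mul_of_nonneg_right h2 (by norm_num))) h4 (by positivity) (by positivity)
      _ ≤ 2048 * 2 ^ (s + 7) := by nlinarith

end CH
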