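import Mathlib
import Pool.Agent.CH.ZKer
import Pool.Agent.CH.ZVt

/-!
CH-ZWP. `psiT th`, `phiT th` (`th < 128`) are wave packets with one constant `C1`.
-/

namespace CH

/-- both families at once -/
theorem ZWP_gen (w : ℕ → ℤ → ℝ) (C C1 : ℝ) (hC : 0 < C) (h1 : 3072 * C ≤ C1)
    (hk : ∀ t : ℕ, 7 ≤ t → ∀ x : T,
      ‖∑ v ∈ Finset.Icc ((2 : ℤ) ^ (t - 4)) (2 ^ (t - 1)), (w t v : ℂ) * e (-v) x‖
        ≤ C * 2 ^ t / (1 + 2 ^ (t - 7) * ‖x‖) ^ 8) (th : ℕ) (hth : th < 128)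
    (F : Tile → T → ℂ) (hF : ∀ P x, F P x = ((1 / Real.sqrt (2 ^ (P.s + 7)) : ℝ) : ℂ) *
      ∑ v ∈ Finset.Icc ((2 : ℤ) ^ (P.s + 3)) (2 ^ (P.s + 6)),
        (w (P.s + 7) v : ℂ) * e (P.mid - v) (x - P.c - ((th / 2 ^ (P.s + 7) : ℝ) : T))) :
    WP C1 F := by
  refine ⟨fun P => ?_, fun P x => ?_⟩
  · refine ⟨fun j => ((1 / Real.sqrt (2 ^ (P.s + 7)) : ℝ) : ℂ) * ((w (P.s + 7) (P.mid - j) : ℂ) *
      e j (- P.c - ((th / 2 ^ (P.s + 7) : ℝ) : T))), fun x => ?_⟩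
    rw [hF, Finset.mul_sum]
    refine Finset.sum_nbij' (fun v => P.mid - v) (fun j => P.mid - j) ?_ ?_ ?_ ?_ ?_
    · intro v hv
      rw [Finset.mem_Icc] at hv ⊢
      constructor <;> linarith [hv.1, hv.2]
    · intro j hj
      rw [Finset.mem_Icc] at hj ⊢
      constructor <;> linarith [hj.1, hj.2]
    · intro v _; ring
    · intro v _; ring
    · intro v _
      have hx : x - P.c - ((th / 2 ^ (P.s + 7) : ℝ) : T)
          = x + (- P.c - ((th / 2 ^ (P.s + 7) : ℝ) : T)) := by abel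
      rw [hx, e_add_arg]
      simp only [show P.mid - (P.mid - v) = v by ring]
      ring
  · rw [hF]
    set y : T := x - P.c - ((th / 2 ^ (P.s + 7) : ℝ) : T) with hy
    have hs : (0 : ℝ) < 2 ^ P.s := by positivity
    have hsum : (∑ v ∈ Finset.Icc ((2 : ℤ) ^ (P.s + 3)) (2 ^ (P.s + 6)),
        (w (P.s + 7) v : ℂ) * e (P.mid - v) y) = e P.mid y *
        ∑ v ∈ Finset.Icc ((2 : ℤ) ^ (P.s + 3)) (2 ^ (P.s + 6)), (w (P.s + 7) v : ℂ) * e (-v) y := by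
      rw [Finset.mul_sum]
      refine Finset.sum_congr rfl fun v _ => ?_
      rw [sub_eq_add_neg, e_add]; ring
    have hk' := hk (P.s + 7) (by omega) y
    rw [show P.s + 7 - 4 = P.s + 3 by omega, show P.s + 7 - 1 = P.s + 6 by omega,
      show P.s + 7 - 7 = P.s by omega] at hk'
    rw [hsum, norm_mul, norm_mul, norm_e, one_mul, Complex.norm_real, Real.norm_eq_abs,
      abs_of_nonneg (by positivity)]
    -- distance
    have hth' : ‖((th / 2 ^ (P.s + 7) : ℝ) : T)‖ ≤ 1 / 2 ^ P.s := by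
      have h2 : ‖((th / 2 ^ (P.s + 7) : ℝ) : T)‖ ≤ |(th / 2 ^ (P.s + 7) : ℝ)| := by
        rw [UnitAddCircle.norm_eq]
        have := round_le (th / 2 ^ (P.s + 7) : ℝ) 0
        simpa using this
      refine h2.trans ?_
      rw [abs_of_nonneg (by positivity), pow_add, div_le_div_iff₀ (by positivity) hs]
      have : (th : ℝ) ≤ 128 := by exact_mod_cast hth.le
      nlinarith
    have hdist : ‖x - P.c‖ ≤ ‖y‖ + 1 / 2 ^ P.s := by
      have : x - P.c = y + ((th / 2 ^ (P.s + 7) : ℝ) : T) := by rw [hy]; abel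
      rw [this]
      exact (norm_add_le _ _).trans (by linarith)
    have hrho : rho P.s x P.c ≤ 2 * (1 + 2 ^ P.s * ‖y‖) := by
      unfold rho
      have := mul_le_mul_of_nonneg_left hdist hs.le
      rw [mul_add, mul_one_div_cancel hs.ne'] at this
      nlinarith [mul_nonneg hs.le (norm_nonneg y)]
    have hr0 : 0 < rho P.s x P.c := by
      unfold rho
      have := mul_nonneg hs.le (norm_nonneg (x - P.c))
      linarith
    have hz0 : 0 < 1 + 2 ^ P.s * ‖y‖ := by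
      have := mul_nonneg hs.le (norm_nonneg y)
      linarith
    have hr8 : rho P.s x P.c ^ 8 ≤ 256 * (1 + 2 ^ P.s * ‖y‖) ^ 8 := by
      have := pow_le_pow_left₀ hr0.le hrho 8
      rw [mul_pow] at this
      norm_num at this ⊢
      exact this
    have hsq : Real.sqrt (2 ^ (P.s + 7)) ^ 2 = 2 ^ (P.s + 7) := Real.sq_sqrt (by positivity)
    have hsqpos : 0 < Real.sqrt (2 ^ (P.s + 7)) := Real.sqrt_pos.2 (by positivity)
    have hsq12 : Real.sqrt (2 ^ (P.s + 7)) ≤ 12 * Real.sqrt (2 ^ P.s) := by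
      rw [show (12 : ℝ) * Real.sqrt (2 ^ P.s) = Real.sqrt (144 * 2 ^ P.s) by
        rw [Real.sqrt_mul (by norm_num), show (144 : ℝ) = 12 ^ 2 by norm_num,
          Real.sqrt_sq (by norm_num)]]
      apply Real.sqrt_le_sqrt
      rw [pow_add]; nlinarith
    have h3 : 1 / Real.sqrt (2 ^ (P.s + 7)) * (C * 2 ^ (P.s + 7) / (1 + 2 ^ P.s * ‖y‖) ^ 8)
        = C * Real.sqrt (2 ^ (P.s + 7)) / (1 + 2 ^ P.s * ‖y‖) ^ 8 := by
      rw [div_mul_div_comm, one_mul, div_eq_div_iff (by positivity) (by positivity)]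
      linear_combination (-(C * (1 + 2 ^ P.s * ‖y‖) ^ 8)) * hsq
    calc 1 / Real.sqrt (2 ^ (P.s + 7)) * ‖∑ v ∈ Finset.Icc ((2 : ℤ) ^ (P.s + 3)) (2 ^ (P.s + 6)),
          (w (P.s + 7) v : ℂ) * e (-v) y‖
        ≤ 1 / Real.sqrt (2 ^ (P.s + 7)) * (C * 2 ^ (P.s + 7) / (1 + 2 ^ P.s * ‖y‖) ^ 8) := by
          gcongr
      _ = C * Real.sqrt (2 ^ (P.s + 7)) / (1 + 2 ^ P.s * ‖y‖) ^ 8 := h3
      _ ≤ C * (12 * Real.sqrt (2 ^ P.s)) / (1 + 2 ^ P.s * ‖y‖) ^ 8 := by gcongr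
      _ ≤ C * (12 * Real.sqrt (2 ^ P.s)) / (rho P.s x P.c ^ 8 / 256) := by
          apply div_le_div_of_nonneg_left (by positivity) (by positivity)
          linarith
      _ = 3072 * C * Real.sqrt (2 ^ P.s) / rho P.s x P.c ^ 8 := by field_simp; ring
      _ ≤ C1 * Real.sqrt (2 ^ P.s) / rho P.s x P.c ^ 8 := by gcongr

theorem wp_exists : ∃ C1 : ℝ, 0 < C1 ∧ ∀ th : ℕ, th < 128 → WP C1 (psiT th) ∧ WP C1 (phiT th) := by
  obtain ⟨C, hC, hk⟩ := bt_kernel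
  refine ⟨3072 * (C + 256), by positivity, fun th hth => ⟨?_, ?_⟩⟩
  · exact ZWP_gen bt C _ hC (by linarith) hk th hth _ fun P x => rfl
  · exact ZWP_gen Vt 256 _ (by norm_num) (by linarith) (fun t ht x => Vt_kernel t ht x) th hth _
      fun P x => rfl

end CH
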