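import Mathlib
import Pool.Agent.CH.ZPoint
import Pool.Agent.CH.ZSamp
import Pool.Agent.CH.ZWP

/-!
CH-ZLTs. Theorem A (for the wave packets of `wp_exists`) implies LT*.
Given `B, cc, u, N, g`. `f := sum_{|j|<=B} cc j e_j`, so `cf f j = cc j` for `|j| <= B` and `0` otherwise
(`cf_sum`, `cf_e`). Replace `N` by `N' = max (-B) (min N (B+1))` (same filter set; measurable). `S` with `7 <= S`,
`2B+1 < 2^(S-2)`. Insert `point`. The first sum has norm `<= 31 ||f||_2` (`|cf f j| <= ||f||_2` by `norm_cf_le`,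
`int_norm_le`; `0 <= 1 - Mt 6 v <= 1` by `Mt6_mem`) so its contribution is `<= 31 ||f||_2 int u <= 31 ||f||_2 sqrt (int u)`
(`int u <= 1`). For fixed `eta`: `f' = e_eta f` (same `L^2` norm), `N'' = N' + eta`, `g' = e_eta g`, `Dat u N'' g'`.
By `sampling f' s m x` with `m = N''(x) / 2^(s+7)` the inner sum is
`sum_th sum_n (int f' conj (psiT th P)) phiT th P x`, `P = (s, n, m)`, and the condition says `P.inJ (N'' x)`; write the sum over
`m` as a sum over all `m in Icc (-M) M` (`M := B + 1 + 2^S`) with the indicator of `P.inJ (N'' x)`: for `P = (s,n,m)`,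
`P.inJ xi <-> xi/2^(s+3) = 16 m + 8`, which forces `m = xi / 2^(s+7)` (as `xi/2^(s+7) = (xi/2^(s+3))/16`).
Integrate against `conj (g x)`: `e (-eta) x conj (g x) = conj (g' x)`, so for each `P` the integral is the conjugate of
`int_{inJ} g' conj phi_P`. Hence the sum for fixed `eta` is at most
`sum_{th<128} sum_{r<4} sum_{P in PP r} aco f' (psiT th) P * bco g' N'' (phiT th) P <= 512 C ||f||_2 sqrt (int u)`,
`PP r` = tiles with `s < S-6`, `s % 4 = r`, `n < 2^s`, `m in Icc (-M) M`. Average over `eta`.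
`lts_of_thmA` : apply `lts_of_thmA_aux` with the `C1` of `wp_exists`.
-/

open MeasureTheory Complex
open scoped ComplexConjugate

namespace CH

theorem ZLTs_BM {C1 : ℝ} {psi : Tile → T → ℂ} (h : WP C1 psi) (P : Tile) : BM (psi P) := by
  obtain ⟨cc, hcc⟩ := h.trig P
  have e1 : psi P = fun x => ∑ j ∈ Finset.Icc (P.mid - 2 ^ (P.s + 6)) (P.mid - 2 ^ (P.s + 3)),
      cc j * e j x := funext hcc
  rw [e1]
  refine ⟨by fun_prop, ∑ j ∈ Finset.Icc (P.mid - 2 ^ (P.s + 6)) (P.mid - 2 ^ (P.s + 3)), ‖cc j‖,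
    fun x => norm_sum_le_of_le _ fun j _ => ?_⟩
  rw [norm_mul, norm_e, mul_one]

theorem ZLTs_meas {N : T → ℤ} (hN : Measurable N) (P : Tile) :
    MeasurableSet {x | P.inJ (N x)} :=
  hN (MeasurableSet.of_discrete (s := {n : ℤ | P.inJ n}))

open Classical in
/-- the indicator of `P.inJ (N x)` -/
noncomputable def ZLTs_ind (N : T → ℤ) (P : Tile) (x : T) : ℂ := if P.inJ (N x) then 1 else 0

theorem ZLTs_ind_BM {N : T → ℤ} (hN : Measurable N) (P : Tile) : BM (ZLTs_ind N P) := by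
  classical
  refine ⟨Measurable.ite (ZLTs_meas hN P) measurable_const measurable_const, 1, fun x => ?_⟩
  unfold ZLTs_ind
  split_ifs <;> simp

theorem ZLTs_BM_mul {f g : T → ℂ} (hf : BM f) (hg : BM g) : BM (fun x => f x * g x) := by
  obtain ⟨hf1, A, hA⟩ := hf
  obtain ⟨hg1, B, hB⟩ := hg
  refine ⟨hf1.mul hg1, A * B, fun x => ?_⟩
  rw [norm_mul]
  exact mul_le_mul (hA x) (hB x) (norm_nonneg _) ((norm_nonneg _).trans (hA x))

theorem ZLTs_BM_conj {f : T → ℂ} (hf : BM f) : BM (fun x => conj (f x)) := by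
  obtain ⟨hf1, A, hA⟩ := hf
  exact ⟨Complex.continuous_conj.measurable.comp hf1, A, fun x => by
    rw [RCLike.norm_conj]; exact hA x⟩

theorem ZLTs_Dat_BM {u : T → ℝ} {N : T → ℤ} {g : T → ℂ} (D : Dat u N g) : BM g :=
  ⟨D.mg, 1, fun x => (D.gu x).trans (D.u1 x)⟩

theorem ZLTs_bco {u : T → ℝ} {N : T → ℤ} {g : T → ℂ} (D : Dat u N g) (phi : Tile → T → ℂ)
    (P : Tile) : ‖∫ x, (ZLTs_ind N P x * phi P x) * conj (g x)‖ = bco g N phi P := by
  classical
  unfold bco
  rw [← integral_indicator (ZLTs_meas D.mN P), ← RCLike.norm_conj, ← integral_conj]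
  congr 2
  ext x
  unfold ZLTs_ind
  by_cases h : P.inJ (N x)
  · rw [if_pos h, Set.indicator_of_mem (show x ∈ {x | P.inJ (N x)} from h)]
    rw [map_mul, map_mul, Complex.conj_conj, map_one, one_mul, mul_comm]
  · rw [if_neg h, Set.indicator_of_notMem (show x ∉ {x | P.inJ (N x)} from h)]
    simp

/-- all tiles used -/
noncomputable def ZLTs_PP (S : ℕ) (M : ℤ) : Finset Tile :=
  ((Finset.range (S - 6)).sigma (fun s => Finset.range (2 ^ s) ×ˢ Finset.Icc (-M) M)).image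
    (fun q => (⟨q.1, q.2.1, q.2.2⟩ : Tile))

theorem ZLTs_sum_PP (S : ℕ) (M : ℤ) {E : Type} [AddCommMonoid E] (F : Tile → E) :
    ∑ P ∈ ZLTs_PP S M, F P = ∑ s ∈ Finset.range (S - 6), ∑ n ∈ Finset.range (2 ^ s),
      ∑ m ∈ Finset.Icc (-M) M, F ⟨s, n, m⟩ := by
  unfold ZLTs_PP
  rw [Finset.sum_image, Finset.sum_sigma]
  · refine Finset.sum_congr rfl fun s _ => ?_
    rw [Finset.sum_product]
  · intro a _ b _ hab
    obtain ⟨a1, a2, a3⟩ := a
    obtain ⟨b1, b2, b3⟩ := b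
    simp only [Tile.mk.injEq] at hab
    obtain ⟨h1, h2, h3⟩ := hab
    subst h1 h2 h3
    rfl

theorem ZLTs_PP_ok (S : ℕ) (M : ℤ) (P : Tile) (hP : P ∈ ZLTs_PP S M) : P.ok := by
  unfold ZLTs_PP at hP
  rw [Finset.mem_image] at hP
  obtain ⟨q, hq, rfl⟩ := hP
  rw [Finset.mem_sigma, Finset.mem_product, Finset.mem_range, Finset.mem_range] at hq
  exact hq.2.1

theorem ZLTs_inJ (s n : ℕ) (m xi : ℤ) (h : (⟨s, n, m⟩ : Tile).inJ xi) : m = xi / 2 ^ (s + 7) := by
  unfold Tile.inJ at h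
  have h1 : xi / 2 ^ (s + 7) = (xi / 2 ^ (s + 3)) / 16 := by
    rw [Int.ediv_ediv_of_nonneg (by positivity)]
    congr 1
    ring
  simp only at h
  rw [h1, h]
  omega

/-- the coefficient -/
noncomputable def ZLTs_a (f : T → ℂ) (th : ℕ) (P : Tile) : ℂ := ∫ y, f y * conj (psiT th P y)

theorem ZLTs_pt (f : T → ℂ) (hf : L2 f) (N : T → ℤ) (S : ℕ) (M : ℤ)
    (hM : ∀ x, ∀ s < S - 6, (N x) / 2 ^ (s + 7) ∈ Finset.Icc (-M) M) (x : T) :
    ∑ s ∈ Finset.range (S - 6),
        (if (N x) / 2 ^ (s + 3) = 16 * ((N x) / 2 ^ (s + 7)) + 8 then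
          ∑ v ∈ Finset.Icc ((2 : ℤ) ^ (s + 3)) (2 ^ (s + 6)),
            (bt (s + 7) v : ℂ) *
              cf f ((⟨s, 0, (N x) / 2 ^ (s + 7)⟩ : Tile).mid - v) *
              e ((⟨s, 0, (N x) / 2 ^ (s + 7)⟩ : Tile).mid - v) x
        else 0)
      = ∑ th ∈ Finset.range 128, ∑ P ∈ ZLTs_PP S M,
          ZLTs_a f th P * (ZLTs_ind N P x * phiT th P x) := by
  simp_rw [ZLTs_sum_PP]
  rw [Finset.sum_comm]
  refine Finset.sum_congr rfl fun s hs => ?_
  rw [Finset.mem_range] at hs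
  have h1 : ∀ th n : ℕ, ∑ m ∈ Finset.Icc (-M) M, ZLTs_a f th ⟨s, n, m⟩ *
      (ZLTs_ind N ⟨s, n, m⟩ x * phiT th ⟨s, n, m⟩ x)
      = if (N x) / 2 ^ (s + 3) = 16 * ((N x) / 2 ^ (s + 7)) + 8 then
          ZLTs_a f th ⟨s, n, (N x) / 2 ^ (s + 7)⟩ * phiT th ⟨s, n, (N x) / 2 ^ (s + 7)⟩ x
        else 0 := by
    intro th n
    rw [Finset.sum_eq_single_of_mem _ (hM x s hs)]
    · by_cases h : (N x) / 2 ^ (s + 3) = 16 * ((N x) / 2 ^ (s + 7)) + 8
      · have h' : (⟨s, n, (N x) / 2 ^ (s + 7)⟩ : Tile).inJ (N x) := h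
        rw [if_pos h]
        unfold ZLTs_ind
        rw [if_pos h', one_mul]
      · have h' : ¬ (⟨s, n, (N x) / 2 ^ (s + 7)⟩ : Tile).inJ (N x) := h
        rw [if_neg h]
        unfold ZLTs_ind
        rw [if_neg h', zero_mul, mul_zero]
    · intro m _ hm
      have h' : ¬ (⟨s, n, m⟩ : Tile).inJ (N x) := fun h => hm (ZLTs_inJ s n m (N x) h)
      unfold ZLTs_ind
      rw [if_neg h', zero_mul, mul_zero]
  simp_rw [h1]
  split_ifs with h
  · rw [← sampling f hf.integrable s ((N x) / 2 ^ (s + 7)) x]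
    rfl
  · simp

theorem ZLTs_term_BM {C1 : ℝ} (hwp : ∀ th : ℕ, th < 128 → WP C1 (psiT th) ∧ WP C1 (phiT th))
    {u : T → ℝ} {N : T → ℤ} {g : T → ℂ} (D : Dat u N g) (th : ℕ) (hth : th < 128) (P : Tile) :
    BM (fun x => (ZLTs_ind N P x * phiT th P x) * conj (g x)) :=
  ZLTs_BM_mul (ZLTs_BM_mul (ZLTs_ind_BM D.mN P) (ZLTs_BM (hwp th hth).2 P))
    (ZLTs_BM_conj (ZLTs_Dat_BM D))

/-- the contribution of one shift -/
theorem ZLTs_eta (C1 C : ℝ)
    (hwp : ∀ th : ℕ, th < 128 → WP C1 (psiT th) ∧ WP C1 (phiT th)) (hA : TheoremA C1 C)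
    {u : T → ℝ} {N : T → ℤ} {g : T → ℂ} (D : Dat u N g) (f : T → ℂ) (hf : L2 f) (S : ℕ) (M : ℤ)
    (F : T → ℂ)
    (hF : ∀ x, F x = (∑ th ∈ Finset.range 128, ∑ P ∈ ZLTs_PP S M,
          ZLTs_a f th P * (ZLTs_ind N P x * phiT th P x)) * conj (g x)) :
    Integrable F ∧
      ‖∫ x, F x‖ ≤ 512 * C * Real.sqrt (∫ x, ‖f x‖ ^ 2) * Real.sqrt (∫ x, u x) := by
  have hF' : F = fun x => ∑ th ∈ Finset.range 128, ∑ P ∈ ZLTs_PP S M,
      ZLTs_a f th P * ((ZLTs_ind N P x * phiT th P x) * conj (g x)) := by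
    funext x
    rw [hF x, Finset.sum_mul]
    refine Finset.sum_congr rfl fun th _ => ?_
    rw [Finset.sum_mul]
    refine Finset.sum_congr rfl fun P _ => ?_
    ring
  have hI : ∀ th ∈ Finset.range 128, ∀ P, Integrable (fun x =>
      ZLTs_a f th P * ((ZLTs_ind N P x * phiT th P x) * conj (g x))) := fun th hth P =>
    ((ZLTs_term_BM hwp D th (Finset.mem_range.1 hth) P).L2.integrable).const_mul _
  refine ⟨?_, ?_⟩
  · rw [hF']
    exact integrable_finsetSum _ fun th hth => integrable_finsetSum _ fun P _ => hI th hth P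
  · rw [hF', integral_finsetSum _ fun th hth => integrable_finsetSum _ fun P _ => hI th hth P]
    have h1 : ∀ th ∈ Finset.range 128, ‖∫ x, ∑ P ∈ ZLTs_PP S M,
        ZLTs_a f th P * ((ZLTs_ind N P x * phiT th P x) * conj (g x))‖
        ≤ 4 * (C * Real.sqrt (∫ x, ‖f x‖ ^ 2) * Real.sqrt (∫ x, u x)) := by
      intro th hth
      have hth' := Finset.mem_range.1 hth
      rw [integral_finsetSum _ fun P _ => hI th hth P]
      calc ‖∑ P ∈ ZLTs_PP S M, ∫ x, ZLTs_a f th P *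
              ((ZLTs_ind N P x * phiT th P x) * conj (g x))‖
          ≤ ∑ P ∈ ZLTs_PP S M, aco f (psiT th) P * bco g N (phiT th) P := by
            refine norm_sum_le_of_le _ fun P _ => ?_
            rw [integral_const_mul, norm_mul, ZLTs_bco D]
            exact le_rfl
        _ = ∑ r ∈ Finset.range 4, ∑ P ∈ ZLTs_PP S M with P.s % 4 = r,
              aco f (psiT th) P * bco g N (phiT th) P := by
            rw [Finset.sum_fiberwise_of_maps_to]
            intro P _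
            rw [Finset.mem_range]
            exact Nat.mod_lt _ (by norm_num)
        _ ≤ ∑ r ∈ Finset.range 4, C * Real.sqrt (∫ x, ‖f x‖ ^ 2) * Real.sqrt (∫ x, u x) := by
            refine Finset.sum_le_sum fun r _ => ?_
            refine hA (psiT th) (phiT th) (hwp th hth').1 (hwp th hth').2 f hf u N g D r _ ?_
            intro P hP
            rw [Finset.mem_filter] at hP
            exact ⟨ZLTs_PP_ok S M P hP.1, hP.2⟩
        _ = 4 * (C * Real.sqrt (∫ x, ‖f x‖ ^ 2) * Real.sqrt (∫ x, u x)) := by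
            rw [Finset.sum_const, Finset.card_range, nsmul_eq_mul]; push_cast; ring
    refine (norm_sum_le_of_le _ h1).trans (le_of_eq ?_)
    rw [Finset.sum_const, Finset.card_range, nsmul_eq_mul]; push_cast; ring

theorem lts_of_thmA_aux (C1 C : ℝ) (hC : 0 ≤ C)
    (hwp : ∀ th : ℕ, th < 128 → WP C1 (psiT th) ∧ WP C1 (phiT th)) (hA : TheoremA C1 C) :
    LTs (31 + 512 * C) := by
  intro B cc u N g D
  obtain ⟨f, hfdef⟩ : ∃ f : T → ℂ, f = fun x => ∑ j ∈ Finset.Icc (-(B : ℤ)) B, cc j * e j x :=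
    ⟨_, rfl⟩
  have hfBM : BM f := by
    rw [hfdef]
    refine ⟨by fun_prop, ∑ j ∈ Finset.Icc (-(B : ℤ)) B, ‖cc j‖,
      fun x => norm_sum_le_of_le _ fun j _ => ?_⟩
    rw [norm_mul, norm_e, mul_one]
  have hfL : L2 f := hfBM.L2
  have hcf : ∀ n, cf f n = if n ∈ Finset.Icc (-(B : ℤ)) B then cc n else 0 := by
    intro n
    rw [hfdef, cf_sum _ _ (fun j _ => L2.integrable (L2.const_mul (e_memLp j 2) (cc j)))]
    simp_rw [cf_const_mul, cf_e]
    simp only [mul_ite, mul_one, mul_zero]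
    rw [Finset.sum_ite_eq]
  have hf0 : ∀ j : ℤ, j < -B ∨ (B : ℤ) < j → cf f j = 0 := by
    intro j hj
    rw [hcf, if_neg]
    rw [Finset.mem_Icc]
    omega
  obtain ⟨N', hN'⟩ : ∃ N' : T → ℤ, N' = fun x => max (-(B : ℤ)) (min (N x) (B + 1)) := ⟨_, rfl⟩
  have hN'm : Measurable N' := by
    rw [hN']
    exact measurable_const.max (D.mN.min measurable_const)
  have hN1 : ∀ x, -(B : ℤ) ≤ N' x := by intro x; rw [hN']; exact le_max_left _ _
  have hN2 : ∀ x, N' x ≤ B + 1 := by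
    intro x; rw [hN']
    exact max_le (by omega) (min_le_right _ _)
  have hNf : ∀ x, (Finset.Icc (-(B : ℤ)) B).filter (fun j => j < N x)
      = (Finset.Icc (-(B : ℤ)) B).filter (fun j => j < N' x) := by
    intro x
    apply Finset.filter_congr
    intro j hj
    rw [Finset.mem_Icc] at hj
    rw [hN']
    simp only [lt_max_iff, lt_min_iff]
    omega
  obtain ⟨S, hS⟩ : ∃ S, S = B + 9 := ⟨_, rfl⟩
  have hS7 : 7 ≤ S := by omega
  have hSB : 2 * (B : ℤ) + 1 < 2 ^ (S - 2) := by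
    have h1 : B < 2 ^ B := Nat.lt_two_pow_self
    have h2 : S - 2 = B + 7 := by omega
    have h3 : 2 * B + 1 < 2 ^ (S - 2) := by
      rw [h2, pow_add]; omega
    exact_mod_cast h3
  obtain ⟨M, hM⟩ : ∃ M : ℤ, M = B + 1 + 2 ^ S := ⟨_, rfl⟩
  have hgBM := ZLTs_Dat_BM D
  have hu0 : ∀ x, 0 ≤ u x := fun x => (norm_nonneg _).trans (D.gu x)
  have huI : Integrable u := by
    refine Integrable.of_bound D.mu.aestronglyMeasurable 1 (ae_of_all _ fun x => ?_)
    rw [Real.norm_eq_abs, abs_of_nonneg (hu0 x)]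
    exact D.u1 x
  obtain ⟨nf, hnf⟩ : ∃ nf, nf = Real.sqrt (∫ x, ‖f x‖ ^ 2) := ⟨_, rfl⟩
  have hnf0 : 0 ≤ nf := by rw [hnf]; exact Real.sqrt_nonneg _
  have hcfn : ∀ n, ‖cf f n‖ ≤ nf := fun n => by
    rw [hnf]; exact (norm_cf_le n).trans (int_norm_le hfL)
  -- the integrand
  obtain ⟨I, hI⟩ : ∃ I : T → ℂ, I = fun x =>
    (∑ j ∈ (Finset.Icc (-(B : ℤ)) B).filter (fun j => j < N x), cc j * e j x) * conj (g x) :=
    ⟨_, rfl⟩
  have hII : Integrable I := by
    have h1 : BM (fun x => ∑ j ∈ (Finset.Icc (-(B : ℤ)) B).filter (fun j => j < N x),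
        cc j * e j x) := by
      refine ⟨?_, ∑ j ∈ Finset.Icc (-(B : ℤ)) B, ‖cc j‖, fun x => ?_⟩
      · simp_rw [Finset.sum_filter]
        refine Finset.measurable_fun_sum _ fun j _ => ?_
        refine Measurable.ite ?_ (by fun_prop) measurable_const
        exact D.mN (MeasurableSet.of_discrete (s := {n : ℤ | j < n}))
      · refine (norm_sum_le_of_le (f := fun j => cc j * e j x) _ (n := fun j => ‖cc j‖)
          fun j _ => ?_).trans ?_
        · rw [norm_mul, norm_e, mul_one]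
        · exact Finset.sum_le_sum_of_subset_of_nonneg (Finset.filter_subset _ _)
            fun _ _ _ => norm_nonneg _
    rw [hI]
    exact (ZLTs_BM_mul h1 (ZLTs_BM_conj hgBM)).L2.integrable
  -- the shifts
  obtain ⟨R, hR⟩ : ∃ R : ℕ → T → ℂ, R = fun (eta : ℕ) x =>
    (∑ s ∈ Finset.range (S - 6),
        (if (N' x + eta) / 2 ^ (s + 3) = 16 * ((N' x + eta) / 2 ^ (s + 7)) + 8 then
          e (-(eta : ℤ)) x * ∑ v ∈ Finset.Icc ((2 : ℤ) ^ (s + 3)) (2 ^ (s + 6)),
            (bt (s + 7) v : ℂ) *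
              cf (fun y => e eta y * f y) ((⟨s, 0, (N' x + eta) / 2 ^ (s + 7)⟩ : Tile).mid - v) *
              e ((⟨s, 0, (N' x + eta) / 2 ^ (s + 7)⟩ : Tile).mid - v) x
        else 0)) * conj (g x) := ⟨_, rfl⟩
  have hRR : ∀ eta ∈ Finset.range (2 ^ S), Integrable (R eta) ∧
      ‖∫ x, R eta x‖ ≤ 512 * C * nf * Real.sqrt (∫ x, u x) := by
    intro eta heta
    rw [Finset.mem_range] at heta
    have D' : Dat u (fun x => N' x + (eta : ℤ)) (fun x => e eta x * g x) :=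
      { mu := D.mu
        mN := hN'm.add_const _
        mg := by have := D.mg; fun_prop
        u1 := D.u1
        gu := fun x => by rw [norm_mul, norm_e, one_mul]; exact D.gu x }
    have h1 := ZLTs_eta C1 C hwp hA D' (fun y => e eta y * f y) (L2_e_mul hfL eta) S M (R eta) ?_
    · have h2 : ∫ x, ‖e (eta : ℤ) x * f x‖ ^ 2 = ∫ x, ‖f x‖ ^ 2 := by
        congr 1; ext x
        rw [norm_mul, norm_e, one_mul]
      rw [h2, ← hnf] at h1
      exact h1
    · intro x
      have h3 := ZLTs_pt (fun y => e eta y * f y) (L2_e_mul hfL eta) (fun x => N' x + (eta : ℤ)) S M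
        (by
          intro x s _
          show (N' x + (eta : ℤ)) / 2 ^ (s + 7) ∈ Finset.Icc (-M) M
          have hx1 := hN1 x
          have hx2 := hN2 x
          have he : (eta : ℤ) < 2 ^ S := by exact_mod_cast heta
          have hp : (1 : ℤ) ≤ 2 ^ (s + 7) := one_le_pow₀ (by norm_num)
          have hM0 : 0 ≤ M := by rw [hM]; positivity
          have hMB : (B : ℤ) ≤ M := by
            have : (0 : ℤ) ≤ 2 ^ S := by positivity
            rw [hM]; linarith
          have hMM : M * 1 ≤ M * 2 ^ (s + 7) := mul_le_mul_of_nonneg_left hp hM0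
          have hMs : N' x + (eta : ℤ) ≤ M := by rw [hM]; linarith
          rw [Finset.mem_Icc]
          constructor
          · rw [Int.le_ediv_iff_mul_le (by positivity)]
            have h9 : (0 : ℤ) ≤ (eta : ℤ) := Int.natCast_nonneg _
            linarith
          · refine Int.ediv_le_of_le_mul (by positivity) ?_
            linarith) x
      rw [← h3, hR]
      simp only
      have h4 : conj (e (eta : ℤ) x * g x) = e (-(eta : ℤ)) x * conj (g x) := by
        rw [map_mul, conj_e]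
      rw [h4, ← mul_assoc]
      congr 1
      rw [Finset.sum_mul]
      refine Finset.sum_congr rfl fun s _ => ?_
      split_ifs
      · ring
      · rw [zero_mul]
  -- the remaining part
  have hrem : ∀ x, ‖I x - (1 / 2 ^ S) * ∑ eta ∈ Finset.range (2 ^ S), R eta x‖ ≤ 31 * nf * u x := by
    intro x
    have hp := point B S hS7 hSB f hf0 (N' x) (hN1 x) (hN2 x) x
    have hIx : I x = (∑ j ∈ (Finset.Icc (-(B : ℤ)) B).filter (fun j => j < N' x),
        cf f j * e j x) * conj (g x) := by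
      rw [hI]
      simp only
      rw [hNf x]
      congr 1
      refine Finset.sum_congr rfl fun j hj => ?_
      rw [hcf, if_pos (Finset.mem_filter.1 hj).1]
    have hRx : ∑ eta ∈ Finset.range (2 ^ S), R eta x = (∑ eta ∈ Finset.range (2 ^ S),
      ∑ s ∈ Finset.range (S - 6),
        (if (N' x + eta) / 2 ^ (s + 3) = 16 * ((N' x + eta) / 2 ^ (s + 7)) + 8 then
          e (-(eta : ℤ)) x * ∑ v ∈ Finset.Icc ((2 : ℤ) ^ (s + 3)) (2 ^ (s + 6)),
            (bt (s + 7) v : ℂ) *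
              cf (fun y => e eta y * f y) ((⟨s, 0, (N' x + eta) / 2 ^ (s + 7)⟩ : Tile).mid - v) *
              e ((⟨s, 0, (N' x + eta) / 2 ^ (s + 7)⟩ : Tile).mid - v) x
        else 0)) * conj (g x) := by
      rw [hR, Finset.sum_mul]
    rw [hIx, hp, hRx, add_mul, mul_assoc, add_sub_cancel_right, norm_mul, RCLike.norm_conj]
    have h5 : ‖∑ v ∈ Finset.Icc (1 : ℤ) 31, ((1 - Mt 6 v : ℝ) : ℂ) * cf f (N' x - v) *
        e (N' x - v) x‖ ≤ 31 * nf := by
      refine (norm_sum_le_of_le _ (n := fun _ => nf) fun v _ => ?_).trans ?_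
      · rw [norm_mul, norm_mul, norm_e, mul_one, Complex.norm_real, Real.norm_eq_abs]
        obtain ⟨m1, m2⟩ := Mt6_mem v
        have : |1 - Mt 6 v| ≤ 1 := by rw [abs_le]; constructor <;> linarith
        calc |1 - Mt 6 v| * ‖cf f (N' x - v)‖ ≤ 1 * nf :=
              mul_le_mul this (hcfn _) (norm_nonneg _) (by norm_num)
          _ = nf := one_mul _
      · rw [Finset.sum_const, Int.card_Icc, nsmul_eq_mul]
        have e : ((31 : ℤ) + 1 - 1).toNat = 31 := rfl
        rw [e]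
        exact le_of_eq (by norm_num)
    exact mul_le_mul h5 (D.gu x) (norm_nonneg _) (by positivity)
  have hRI : Integrable (fun x => (1 / 2 ^ S : ℂ) * ∑ eta ∈ Finset.range (2 ^ S), R eta x) :=
    (integrable_finsetSum _ fun eta heta => (hRR eta heta).1).const_mul _
  have e1 : ∫ x, I x = (∫ x, (I x - (1 / 2 ^ S) * ∑ eta ∈ Finset.range (2 ^ S), R eta x)) +
      (1 / 2 ^ S) * ∑ eta ∈ Finset.range (2 ^ S), ∫ x, R eta x := by
    rw [integral_sub hII hRI, integral_const_mul,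
      integral_finsetSum _ fun eta heta => (hRR eta heta).1]
    ring
  have b1 : ‖∫ x, (I x - (1 / 2 ^ S) * ∑ eta ∈ Finset.range (2 ^ S), R eta x)‖
      ≤ 31 * nf * ∫ x, u x := by
    rw [← integral_const_mul]
    exact norm_integral_le_of_norm_le (huI.const_mul _) (ae_of_all _ hrem)
  have b2 : ‖(1 / 2 ^ S : ℂ) * ∑ eta ∈ Finset.range (2 ^ S), ∫ x, R eta x‖
      ≤ 512 * C * nf * Real.sqrt (∫ x, u x) := by
    rw [norm_mul]
    have h6 : ‖∑ eta ∈ Finset.range (2 ^ S), ∫ x, R eta x‖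
        ≤ 2 ^ S * (512 * C * nf * Real.sqrt (∫ x, u x)) := by
      refine (norm_sum_le_of_le _ fun eta heta => (hRR eta heta).2).trans (le_of_eq ?_)
      rw [Finset.sum_const, Finset.card_range, nsmul_eq_mul]
      push_cast
      rfl
    have h7 : ‖(1 / 2 ^ S : ℂ)‖ = 1 / 2 ^ S := by
      rw [norm_div, norm_one, norm_pow, Complex.norm_ofNat]
    rw [h7]
    calc (1 / 2 ^ S : ℝ) * ‖∑ eta ∈ Finset.range (2 ^ S), ∫ x, R eta x‖
        ≤ 1 / 2 ^ S * (2 ^ S * (512 * C * nf * Real.sqrt (∫ x, u x))) :=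
          mul_le_mul_of_nonneg_left h6 (by positivity)
      _ = 512 * C * nf * Real.sqrt (∫ x, u x) := by field_simp
  have hu1 : ∫ x, u x ≤ 1 := by
    calc ∫ x, u x ≤ ∫ _x : T, (1 : ℝ) := integral_mono huI (integrable_const _) D.u1
      _ = 1 := by simp
  have hu00 : 0 ≤ ∫ x, u x := integral_nonneg hu0
  have hus : ∫ x, u x ≤ Real.sqrt (∫ x, u x) := by
    refine Real.le_sqrt_of_sq_le ?_
    nlinarith
  have hfin : ‖∫ x, I x‖ ≤ (31 + 512 * C) * nf * Real.sqrt (∫ x, u x) := by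
    rw [e1]
    refine (norm_add_le _ _).trans ?_
    have : 31 * nf * ∫ x, u x ≤ 31 * nf * Real.sqrt (∫ x, u x) :=
      mul_le_mul_of_nonneg_left hus (by positivity)
    linarith
  rw [hI, hnf, hfdef] at hfin
  exact hfin

theorem lts_of_thmA (h : ∀ C1 : ℝ, 0 < C1 → ∃ C : ℝ, 0 ≤ C ∧ TheoremA C1 C) :
    ∃ C : ℝ, 0 ≤ C ∧ LTs C := by
  obtain ⟨C1, h1, h2⟩ := wp_exists
  obtain ⟨C, hC, hA⟩ := h C1 h1
  exact ⟨31 + 512 * C, by positivity, lts_of_thmA_aux C1 C hC h2 hA⟩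

end CH
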