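import Mathlib
import Pool.Agent.CH.Defs

/-!
CH-ZThmC. LT* implies Theorem C (families form of Carleson's theorem), by duality.
-/

open MeasureTheory Complex
open scoped ComplexConjugate

namespace CH

theorem hf_memL2 {ι : Type} [Fintype ι] (m : ι → ℕ) (g : ι → T → ℂ) : L2 (hf m g) := by
  unfold hf
  exact L2.sum _ fun i _ => L2_e_mul (Pp_L2 (g i)) _

theorem ZThmC_sel (S : ℤ → T → ℂ) (hS : ∀ m, Measurable (S m)) (A : Finset ℤ) :
    ∃ N : T → ℤ, Measurable N ∧ Measurable (fun x => S (N x) x) ∧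
      ∀ m ∈ A, ∀ x, ‖S m x‖ ≤ ‖S (N x) x‖ := by
  classical
  induction A using Finset.induction_on with
  | empty => exact ⟨fun _ => 0, measurable_const, hS 0, by simp⟩
  | insert a A _ ih =>
    obtain ⟨N, hN, hV, hm⟩ := ih
    have hms : MeasurableSet {x | ‖S (N x) x‖ ≤ ‖S a x‖} :=
      measurableSet_le hV.norm (hS a).norm
    refine ⟨fun x => if ‖S (N x) x‖ ≤ ‖S a x‖ then a else N x,
      Measurable.ite hms measurable_const hN, ?_, ?_⟩
    · have : (fun x => S (if ‖S (N x) x‖ ≤ ‖S a x‖ then a else N x) x) =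
          fun x => if ‖S (N x) x‖ ≤ ‖S a x‖ then S a x else S (N x) x := by
        funext x; split_ifs <;> rfl
      rw [this]
      exact Measurable.ite hms (hS a) hV
    · intro m hmm x
      rw [Finset.mem_insert] at hmm
      show ‖S m x‖ ≤ ‖S (if ‖S (N x) x‖ ≤ ‖S a x‖ then a else N x) x‖
      by_cases hc : ‖S (N x) x‖ ≤ ‖S a x‖
      · rw [if_pos hc]
        rcases hmm with rfl | h
        · exact le_rfl
        · exact (hm m h x).trans hc
      · rw [if_neg hc]
        rcases hmm with rfl | h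
        · exact (not_le.1 hc).le
        · exact hm m h x

theorem ZThmC_trig_L2 (s : Finset ℤ) (a : ℤ → ℂ) : L2 (fun x => ∑ j ∈ s, a j * e j x) :=
  L2.sum _ fun j _ => (e_memLp j 2).const_mul (a j)

theorem ZThmC_one_L2 (a : ℂ) (j : ℤ) : L2 (fun x => a * e j x) :=
  (e_memLp j 2).const_mul a

theorem ZThmC_trig_meas (s : Finset ℤ) (a : ℤ → ℂ) : Measurable (fun x => ∑ j ∈ s, a j * e j x) := by
  fun_prop

theorem ZThmC_int (s : Finset ℤ) (a : ℤ → ℂ) {u : T → ℂ} (hu : L2 u) :
    ∫ x, (∑ j ∈ s, a j * e j x) * conj (u x) = ∑ j ∈ s, a j * conj (cf u j) := by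
  simp_rw [Finset.sum_mul]
  rw [integral_finsetSum s]
  · refine Finset.sum_congr rfl fun j _ => ?_
    have : ∀ x, a j * e j x * conj (u x) = a j * conj (u x * conj (e j x)) := fun x => by
      rw [map_mul, Complex.conj_conj]; ring
    simp_rw [this]
    rw [integral_const_mul, integral_conj]
    rfl
  · intro j _
    exact (ZThmC_one_L2 (a j) j).integrable_mul_conj hu

theorem ZThmC_cf_trig (s : Finset ℤ) (a : ℤ → ℂ) (n : ℤ) :
    cf (fun x => ∑ j ∈ s, a j * e j x) n = if n ∈ s then a n else 0 := by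
  rw [cf_sum s _ fun j _ => (ZThmC_one_L2 (a j) j).integrable]
  simp_rw [cf_const_mul, cf_e]
  simp

theorem ZThmC_sq (s : Finset ℤ) (a : ℤ → ℂ) :
    ∫ x, ‖∑ j ∈ s, a j * e j x‖ ^ 2 = ∑ j ∈ s, ‖a j‖ ^ 2 := by
  have h := parseval_sq (ZThmC_trig_L2 s a)
  have h2 : HasSum (fun n : ℤ => ‖cf (fun x => ∑ j ∈ s, a j * e j x) n‖ ^ 2)
      (∑ n ∈ s, ‖cf (fun x => ∑ j ∈ s, a j * e j x) n‖ ^ 2) := by
    refine hasSum_sum_of_ne_finset_zero fun n hn => ?_
    rw [ZThmC_cf_trig, if_neg hn]; simp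
  rw [h.unique h2]
  refine Finset.sum_congr rfl fun n hn => ?_
  rw [ZThmC_cf_trig, if_pos hn]

/-- the duality computation for one term -/
theorem ZThmC_term (B : ℕ) (a : ℤ → ℂ) (m : ℕ) {g : T → ℂ} (hg : L2 g) :
    ∫ x, (∑ j ∈ Finset.Icc (-(B : ℤ)) B, a j * e j x) * conj (e m x * Pp g x) =
      ∫ x, (∑ j ∈ (Finset.Icc (-(B : ℤ)) B).filter (fun j => ¬ j < (m : ℤ)), a j * e j x) *
        conj (e m x * g x) := by
  rw [ZThmC_int _ _ (L2_e_mul (Pp_L2 g) _), ZThmC_int _ _ (L2_e_mul hg _), Finset.sum_filter]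
  refine Finset.sum_congr rfl fun j _ => ?_
  rw [cf_e_mul, cf_e_mul, cf_Pp hg]
  by_cases hj : (m : ℤ) ≤ j
  · rw [if_pos (by omega : 0 ≤ j - (m : ℤ)), if_pos (by omega : ¬ j < (m : ℤ))]
  · rw [if_neg (by omega : ¬ 0 ≤ j - (m : ℤ)), if_neg (by omega : ¬ ¬ j < (m : ℤ))]
    simp

theorem thmC_of_lts (C : ℝ) (hC : 0 ≤ C) (h : LTs C) : ThmC ((1 + C) ^ 2) := by
  classical
  intro ι _ m g Lam hg hLam hb
  have hgL : ∀ i, L2 (g i) := fun i => (hg i).L2
  have hgi : ∀ i, Integrable (fun x => ‖g i x‖) := fun i => (hgL i).integrable.norm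
  set u : T → ℝ := fun x => (∑ i, ‖g i x‖) / Lam with hu
  have hum : Measurable u := by
    have : ∀ i, Measurable (g i) := fun i => (hg i).1
    fun_prop
  have hu0 : ∀ x, 0 ≤ u x := fun x => div_nonneg (Finset.sum_nonneg fun i _ => norm_nonneg _) hLam.le
  have hu1 : ∀ x, u x ≤ 1 := fun x => by
    rw [hu]; exact (div_le_one hLam).2 (hb x)
  have hcost : cost g = Lam * ∫ x, u x := by
    unfold cost
    rw [← integral_const_mul]
    congr 1; ext x
    rw [hu]; field_simp
  have hcost0 : 0 ≤ ∫ x, u x := integral_nonneg hu0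
  have huL : L2 (fun x => (u x : ℂ)) :=
    MemLp.of_bound (by fun_prop) 1 (ae_of_all _ fun x => by
      rw [Complex.norm_real, Real.norm_eq_abs, abs_of_nonneg (hu0 x)]; exact hu1 x)
  have hui : Integrable u := by
    have := huL.integrable.norm
    refine this.congr (ae_of_all _ fun x => ?_)
    simp only [Complex.norm_real, Real.norm_eq_abs, abs_of_nonneg (hu0 x)]
  set a : ℤ → ℂ := fun j => cf (hf m g) j with ha
  -- the bound for the partial sums
  have key : ∀ B : ℕ, ∑ j ∈ Finset.Icc (-(B : ℤ)) B, ‖a j‖ ^ 2 ≤ (1 + C) ^ 2 * Lam * cost g := by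
    intro B
    set f : T → ℂ := fun x => ∑ j ∈ Finset.Icc (-(B : ℤ)) B, a j * e j x with hf_def
    have hfL : L2 f := ZThmC_trig_L2 _ _
    have hfm : Measurable f := ZThmC_trig_meas _ _
    have hF : ∫ x, ‖f x‖ ^ 2 = ∑ j ∈ Finset.Icc (-(B : ℤ)) B, ‖a j‖ ^ 2 := ZThmC_sq _ _
    set F : ℝ := ∫ x, ‖f x‖ ^ 2 with hFdef
    have hF0 : 0 ≤ F := integral_nonneg fun x => by positivity
    rw [← hF]
    set S : ℤ → T → ℂ := fun k x =>
      ∑ j ∈ (Finset.Icc (-(B : ℤ)) B).filter (fun j => j < k), a j * e j x with hS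
    have hSm : ∀ k, Measurable (S k) := fun k => ZThmC_trig_meas _ _
    obtain ⟨N, hN, hV, hmax⟩ := ZThmC_sel S hSm (Finset.univ.image fun i => (m i : ℤ))
    have hmax' : ∀ i x, ‖S (m i) x‖ ≤ ‖S (N x) x‖ := fun i x =>
      hmax _ (Finset.mem_image_of_mem _ (Finset.mem_univ i)) x
    -- the trial function
    set gt : T → ℂ := fun x => (u x : ℂ) * (S (N x) x / (‖S (N x) x‖ : ℂ)) with hgt
    have hgm : Measurable gt := by
      refine (Complex.measurable_ofReal.comp hum).mul (hV.div ?_)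
      exact Complex.measurable_ofReal.comp hV.norm
    have hgu : ∀ x, ‖gt x‖ ≤ u x := fun x => by
      rw [hgt]
      simp only [norm_mul, norm_div, Complex.norm_real, Real.norm_eq_abs, abs_of_nonneg (hu0 x),
        abs_norm]
      calc u x * (‖S (N x) x‖ / ‖S (N x) x‖) ≤ u x * 1 :=
            mul_le_mul_of_nonneg_left (div_self_le_one _) (hu0 x)
        _ = u x := mul_one _
    have hD : Dat u N gt := ⟨hum, hN, hgm, hu1, hgu⟩
    have hLT := h B a u N gt hD
    have hprod : ∀ x, S (N x) x * conj (gt x) = ((u x * ‖S (N x) x‖ : ℝ) : ℂ) := fun x => by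
      rw [hgt]
      by_cases hz : S (N x) x = 0
      · simp [hz]
      · have hz' : ((‖S (N x) x‖ : ℝ) : ℂ) ≠ 0 := by
          simpa using hz
        simp only [map_mul, map_div₀, Complex.conj_ofReal]
        have h3 : S (N x) x * conj (S (N x) x) = ((‖S (N x) x‖ : ℝ) : ℂ) ^ 2 := by
          rw [Complex.mul_conj, Complex.normSq_eq_norm_sq]; push_cast; ring
        field_simp
        rw [mul_comm, ← mul_assoc] at *
        push_cast
        linear_combination (u x : ℂ) * h3
    have hLT2 : ∫ x, u x * ‖S (N x) x‖ ≤ C * Real.sqrt F * Real.sqrt (∫ x, u x) := by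
      have e1 : ∫ x, S (N x) x * conj (gt x) = ((∫ x, u x * ‖S (N x) x‖ : ℝ) : ℂ) := by
        rw [← integral_complex_ofReal]
        congr 1; ext x; exact hprod x
      have e2 : ‖∫ x, S (N x) x * conj (gt x)‖ ≤ C * Real.sqrt F * Real.sqrt (∫ x, u x) := hLT
      rw [e1, Complex.norm_real, Real.norm_eq_abs] at e2
      exact (le_abs_self _).trans e2
    -- the pairing
    have hpair : ((F : ℝ) : ℂ) = ∑ i, ∫ x, (∑ j ∈ (Finset.Icc (-(B : ℤ)) B).filter
        (fun j => ¬ j < ((m i : ℕ) : ℤ)), a j * e j x) * conj (e (m i) x * g i x) := by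
      have e1 : ∫ x, f x * conj (hf m g x) = ((F : ℝ) : ℂ) := by
        rw [hf_def, ZThmC_int _ _ (hf_memL2 m g), hF]
        push_cast
        refine Finset.sum_congr rfl fun j _ => ?_
        rw [ha]
        simp only
        rw [Complex.mul_conj, Complex.normSq_eq_norm_sq]; push_cast; ring
      rw [← e1]
      unfold hf
      simp_rw [map_sum, Finset.mul_sum]
      rw [integral_finsetSum]
      · exact Finset.sum_congr rfl fun i _ => ZThmC_term B a (m i) (hgL i)
      · intro i _
        exact hfL.integrable_mul_conj (L2_e_mul (Pp_L2 (g i)) _)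
    -- pointwise bound
    have hSL : L2 (fun x => S (N x) x) := by
      refine MemLp.of_bound hV.aestronglyMeasurable
        (∑ j ∈ Finset.Icc (-(B : ℤ)) B, ‖a j‖) (ae_of_all _ fun x => ?_)
      rw [hS]
      refine (norm_sum_le _ _).trans ?_
      simp only [norm_mul, norm_e, mul_one]
      exact Finset.sum_le_sum_of_subset_of_nonneg (Finset.filter_subset _ _)
        fun j _ _ => norm_nonneg _
    have hT : ∀ i x, ‖∑ j ∈ (Finset.Icc (-(B : ℤ)) B).filter
        (fun j => ¬ j < ((m i : ℕ) : ℤ)), a j * e j x‖ ≤ ‖f x‖ + ‖S (N x) x‖ := by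
      intro i x
      have e1 : ∑ j ∈ (Finset.Icc (-(B : ℤ)) B).filter
          (fun j => ¬ j < ((m i : ℕ) : ℤ)), a j * e j x = f x - S (m i) x := by
        have := Finset.sum_filter_add_sum_filter_not (Finset.Icc (-(B : ℤ)) B)
          (fun j => j < ((m i : ℕ) : ℤ)) (fun j => a j * e j x)
        rw [hf_def, hS]
        simp only
        rw [← this]; ring
      rw [e1]
      refine (norm_sub_le _ _).trans ?_
      have := hmax' i x
      linarith
    have hLu : ∀ x, ∑ i, ‖g i x‖ = Lam * u x := fun x => by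
      rw [hu]; field_simp
    have i1 : Integrable (fun x => ‖f x‖ * u x) := by
      have := (hfL.integrable_mul huL).norm
      refine this.congr (ae_of_all _ fun x => ?_)
      simp only [norm_mul, Complex.norm_real, Real.norm_eq_abs, abs_of_nonneg (hu0 x)]
    have i2 : Integrable (fun x => u x * ‖S (N x) x‖) := by
      have := (huL.integrable_mul hSL).norm
      refine this.congr (ae_of_all _ fun x => ?_)
      simp only [norm_mul, Complex.norm_real, Real.norm_eq_abs, abs_of_nonneg (hu0 x)]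
    have hbd : F ≤ Lam * (∫ x, ‖f x‖ * u x) + Lam * ∫ x, u x * ‖S (N x) x‖ := by
      have e1 : F = ‖((F : ℝ) : ℂ)‖ := by
        rw [Complex.norm_real, Real.norm_eq_abs, abs_of_nonneg hF0]
      rw [e1, hpair]
      refine (norm_sum_le _ _).trans ?_
      have e2 : ∀ i, ‖∫ x, (∑ j ∈ (Finset.Icc (-(B : ℤ)) B).filter
          (fun j => ¬ j < ((m i : ℕ) : ℤ)), a j * e j x) * conj (e (m i) x * g i x)‖ ≤
          ∫ x, (‖f x‖ + ‖S (N x) x‖) * ‖g i x‖ := by
        intro i
        refine (norm_integral_le_integral_norm _).trans (integral_mono_of_nonneg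
          (ae_of_all _ fun x => norm_nonneg _) ?_ (ae_of_all _ fun x => ?_))
        · have j1 := (hfL.integrable_mul (hgL i)).norm
          have j2 := (hSL.integrable_mul (hgL i)).norm
          refine (j1.add j2).congr (ae_of_all _ fun x => ?_)
          simp only [norm_mul, Pi.add_apply]; ring
        · simp only [norm_mul, RCLike.norm_conj, norm_e, one_mul]
          exact mul_le_mul_of_nonneg_right (hT i x) (norm_nonneg _)
      refine (Finset.sum_le_sum fun i _ => e2 i).trans ?_
      rw [← integral_finsetSum]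
      · rw [← integral_const_mul, ← integral_const_mul, ← integral_add (i1.const_mul _)
          (i2.const_mul _)]
        refine le_of_eq (integral_congr_ae (ae_of_all _ fun x => ?_))
        simp only
        rw [← Finset.mul_sum, hLu]; ring
      · intro i _
        have j1 := (hfL.integrable_mul (hgL i)).norm
        have j2 := (hSL.integrable_mul (hgL i)).norm
        refine (j1.add j2).congr (ae_of_all _ fun x => ?_)
        simp only [norm_mul, Pi.add_apply]; ring
    -- first term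
    have hfirst : ∫ x, ‖f x‖ * u x ≤ Real.sqrt F * Real.sqrt (∫ x, u x) := by
      have e1 := cs hfL huL
      have e2 : ∫ x, ‖f x‖ * ‖(u x : ℂ)‖ = ∫ x, ‖f x‖ * u x := by
        congr 1; ext x
        rw [Complex.norm_real, Real.norm_eq_abs, abs_of_nonneg (hu0 x)]
      rw [e2] at e1
      refine e1.trans ?_
      have e3 : ∫ x, ‖(u x : ℂ)‖ ^ 2 ≤ ∫ x, u x := by
        refine integral_mono huL.integrable_sq hui fun x => ?_
        simp only [Complex.norm_real, Real.norm_eq_abs, abs_of_nonneg (hu0 x)]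
        nlinarith [hu0 x, hu1 x]
      exact mul_le_mul_of_nonneg_left (Real.sqrt_le_sqrt e3) (Real.sqrt_nonneg _)
    set I : ℝ := ∫ x, u x with hI
    have hfin : F ≤ (1 + C) * Lam * (Real.sqrt F * Real.sqrt I) := by
      have e1 := mul_le_mul_of_nonneg_left hfirst hLam.le
      have e2 := mul_le_mul_of_nonneg_left hLT2 hLam.le
      nlinarith
    rw [hcost]
    -- F ≤ K √F √I ⇒ F ≤ K² I
    have hsF : Real.sqrt F * Real.sqrt F = F := Real.mul_self_sqrt hF0
    have hsI : Real.sqrt I * Real.sqrt I = I := Real.mul_self_sqrt hcost0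
    by_cases hF1 : F = 0
    · rw [hF1]; positivity
    · have hFp : 0 < Real.sqrt F := Real.sqrt_pos.2 (lt_of_le_of_ne hF0 (Ne.symm hF1))
      have h4 : Real.sqrt F ≤ (1 + C) * Lam * Real.sqrt I := by
        have : Real.sqrt F * Real.sqrt F ≤ Real.sqrt F * ((1 + C) * Lam * Real.sqrt I) := by
          rw [hsF]; linarith
        exact le_of_mul_le_mul_left this hFp
      calc F = Real.sqrt F * Real.sqrt F := hsF.symm
        _ ≤ ((1 + C) * Lam * Real.sqrt I) * ((1 + C) * Lam * Real.sqrt I) :=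
            mul_self_le_mul_self hFp.le h4
        _ = (1 + C) ^ 2 * Lam * (Lam * (Real.sqrt I * Real.sqrt I)) := by ring
        _ = (1 + C) ^ 2 * Lam * (Lam * I) := by rw [hsI]
  -- conclusion
  have hsum := parseval_sq (hf_memL2 m g)
  refine le_of_tendsto hsum (Filter.Eventually.of_forall fun s => ?_)
  obtain ⟨B, hB⟩ : ∃ B : ℕ, ∀ j ∈ s, j ∈ Finset.Icc (-(B : ℤ)) B := by
    refine ⟨∑ j ∈ s, j.natAbs, fun j hj => ?_⟩
    have := Finset.single_le_sum (f := fun j : ℤ => j.natAbs) (fun _ _ => Nat.zero_le _) hj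
    rw [Finset.mem_Icc]
    omega
  exact (Finset.sum_le_sum_of_subset_of_nonneg hB fun j _ _ => by positivity).trans (key B)

end CH
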