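import Mathlib
import Pool.Agent.CH.AMass3
import Pool.Agent.CH.AEn6
import Pool.Agent.CH.AMain2
import Pool.Agent.CH.TAsm
import Pool.Agent.CH.ZLTs
import Pool.Agent.CH.ZThmC

/-!
CH-MainA: Theorem C (Carleson's theorem in the families form) from the mass, energy and tree lemmas.
-/

namespace CH

theorem thmC_exists : ∃ C0 : ℝ, ThmC C0 := by
  obtain ⟨C, hC, h⟩ := lts_of_thmA (fun C1 h1 => by
    obtain ⟨Ct, hCt, hT⟩ := tree_lemma C1 h1
    exact ⟨16 * Ct * (1200 + 262400 * C1 ^ 2), by positivity,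
      theoremA_of (by positivity) hCt massLemma (energyLemma C1) hT⟩)
  exact ⟨(1 + C) ^ 2, thmC_of_lts C hC h⟩

end CH
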